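import Pool.Agent.H463.DH.Stm2

/-!
# Third part: class numbers
-/

open Polynomial
open scoped Classical

noncomputable section

namespace DH

/-- The class number of `OO f` (the value `0` if `OO f` is not a domain is never used). -/
def cln {F : Type} [Field F] (f : F[X]) : ℕ :=
  if _h : IsDomain (OO f) then Nat.card (ClassGroup (OO f)) else 0

variable (F : Type) [Field F] [Fintype F] [CharP F 3]

/-- **C1** (uses A2, A3) for `f` good the class group of `OO f` is finite: `0 < cln f`.
Proof: Mathlib's `ClassGroup.fintypeOfAdmissibleOfFinite` / `fintypeOfAdmissibleOfAlgebraic` with `R = F[X]`,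
`abv = Polynomial.cardPowDegree`, `Polynomial.cardPowDegreeIsAdmissible`, `S = OO f`, `K = FractionRing F[X]` (or `RatFunc F`),
`L = FractionRing (OO f)`; see `Mathlib/NumberTheory/ClassNumber/FunctionField.lean`. -/
def S_C1 : Prop :=
  ∀ f : F[X], Good f → 0 < cln f

/-- **C2** (uses A2, A3, C1) for `f` good: `cl3 f = 1` iff `3` does not divide the class number, and `1 < cl3 f` iff it does; `cl3 f` is a
power of `3`.
Proof: the class group is finite (C1; `Nat.card` positive), Cauchy's theorem (`exists_prime_orderOf_dvd_card`), Lagrange; the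
subgroup `{c : c ^ 3 = 1}` has exponent dividing 3, so its order is a power of 3 (`IsPGroup`). -/
def S_C2 : Prop :=
  ∀ f : F[X], Good f → (cl3 f = 1 ↔ ¬ 3 ∣ cln f) ∧ (1 < cl3 f ↔ 3 ∣ cln f) ∧ ∃ r : ℕ, cl3 f = 3 ^ r

end DH
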