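import Pool.Agent.H463.DH.Stm3

/-!
# C1 : the class group of `F[X][√f]` is finite
-/

open Polynomial
open scoped Classical

noncomputable section

namespace DH

namespace XC1

theorem fin {F : Type} [Field F] [Fintype F] (f : F[X]) [hd : IsDomain (OO f)]
    (hD : IsDedekindDomain (OO f)) : Finite (ClassGroup (OO f)) := by
  have h := ClassGroup.fintypeOfAdmissibleOfAlgebraic (R := F[X]) (S := OO f)
    (QuadraticAlgebra.basis f 0) (cardPowDegreeIsAdmissible (Fq := F))
  exact Finite.of_fintype _

end XC1

theorem p_C1 (F : Type) [Field F] [Fintype F] [CharP F 3] (hA2 : S_A2 F) (hA3 : S_A3 F) : S_C1 F := by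
  intro f hf
  have hdom : IsDomain (OO f) := (hA2 f hf).1
  have hded : IsDedekindDomain (OO f) := hA3 f hf
  unfold cln
  rw [dif_pos hdom]
  have hfin : Finite (ClassGroup (OO f)) := XC1.fin f hded
  exact Nat.card_pos

end DH
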