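import Pool.Agent.H463.DH.Stm

/-!
# DH F9: the first moment (helper643)
-/

open Polynomial
open scoped Classical

noncomputable section

namespace DH

namespace XF9

variable (F : Type) [Field F] [Fintype F] [CharP F 3]

theorem card_ge : 3 ≤ Fintype.card F := by
  obtain ⟨n, hp, hn⟩ := FiniteField.card F 3
  rw [hn]
  calc 3 = 3 ^ 1 := rfl
    _ ≤ 3 ^ (n : ℕ) := Nat.pow_le_pow_right (by norm_num) n.pos

omit [CharP F 3] in
/-- the trivial bound -/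
theorem triv (hB1 : S_B1 F) (hF4 : S_F4 F) (g : ℕ) :
    |∑ f ∈ SQF F (2 * g + 1), (((solz f).card : ℝ) - 1)| ≤ 3 * qq F ^ (2 * g + 1) := by
  have h1 : |∑ f ∈ SQF F (2 * g + 1), (((solz f).card : ℝ) - 1)| ≤
      ∑ f ∈ SQF F (2 * g + 1), ((sol f).card : ℝ) := by
    refine (Finset.abs_sum_le_sum_abs _ _).trans (Finset.sum_le_sum fun f _ => ?_)
    have h2 := hB1.2.2.2.2.2.2.2.1 f
    rw [h2]
    push_cast
    have h3 : (0 : ℝ) ≤ (solz f).card := Nat.cast_nonneg _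
    rw [abs_le]
    constructor <;> linarith
  have h2 : ∑ f ∈ SQF F (2 * g + 1), ((sol f).card : ℝ) ≤
      ∑ f ∈ MON F (2 * g + 1), ((sol f).card : ℝ) :=
    Finset.sum_le_sum_of_subset_of_nonneg (Finset.filter_subset _ _)
      (fun f _ _ => Nat.cast_nonneg _)
  have h3 : ∑ f ∈ MON F (2 * g + 1), ((sol f).card : ℝ) ≤ 3 * qq F ^ (2 * g + 1) := by
    unfold qq
    exact_mod_cast hF4 g
  exact (h1.trans h2).trans h3

theorem split {z g : ℕ} (hz : z ≤ g) (a : ℕ → ℝ) :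
    ∑ w ∈ Finset.range (g + 1), a w = ∑ w ∈ Finset.range (z + 1), a w +
      ∑ w ∈ (Finset.range (g + 1)).filter (fun w => z < w), a w := by
  rw [← Finset.sum_filter_add_sum_filter_not (Finset.range (g + 1)) (fun w => z < w), add_comm]
  congr 1
  refine Finset.sum_congr ?_ fun _ _ => rfl
  ext w
  rw [Finset.mem_filter, Finset.mem_range, Finset.mem_range]
  omega

/-- the case `z ≥ 1` -/
theorem main (hF5 : S_F5 F) (hF6 : S_F6 F) (hF7 : S_F7 F) (hF8 : S_F8) (hME2 : S_ME2 F)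
    {g z : ℕ} (hz1 : 1 ≤ z) (hz : 4 * z ≤ g) :
    |∑ f ∈ SQF F (2 * g + 1), (((solz f).card : ℝ) - 1)| ≤
      (16 * qq F ^ 3 + 4) * (g + 1) ^ 3 * qq F ^ (2 * g + 1) / qq F ^ z := by
  have hq3 := card_ge F
  obtain ⟨f1, f2, f3⟩ := hF8 (Fintype.card F) hq3
  have hqr : (3 : ℝ) ≤ qq F := by
    unfold qq
    exact_mod_cast hq3
  have hq0 : (0 : ℝ) < qq F := by linarith
  have f1' := f1 g
  have f2' := f2 g z hz
  have f3' := f3 g z hz
  change _ = (qq F ^ (2 * g + 1) - qq F ^ (NN (2 * g + 1))) / (qq F - 1) at f1'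
  change ∑ d ∈ (Finset.range g).filter (fun d => (2 * g + 1 + d) % 3 ≠ 2),
    qq F ^ (NN (2 * g + 1 + d)) = _ at f1'
  change ∑ d ∈ Finset.range g, qq F ^ (NN (2 * g + 1 + d)) *
      (((d : ℝ) + 1) ^ 2 * (1 / qq F ^ z + 1 / qq F ^ (d / 3))) ≤
        2 * qq F ^ 2 * ((g : ℝ) + 1) ^ 3 * qq F ^ (2 * g + 1) / qq F ^ z at f2'
  have hzg : z ≤ g := by omega
  have hg1 : 1 ≤ g := by omega
  set D : Finset ℕ := (Finset.range g).filter (fun d => (2 * g + 1 + d) % 3 ≠ 2) with hD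
  set κ : ℝ := (qq F - 1) * (1 - 1 / qq F) with hκ
  set R : ℝ := ((g : ℝ) + 1) ^ 3 * qq F ^ (2 * g + 1) / qq F ^ z with hR
  have hR0 : 0 < R := by positivity
  -- the sieve
  have h1 := hF5.1 (2 * g + 1) g (fun f => ((solz f).card : ℝ)) le_rfl
  rw [split hzg] at h1
  rw [hF7 g z hz] at h1
  have h6 := hF6 g z hzg
  have e6 : 3 * ((g : ℝ) + 1) ^ 3 * qq F ^ (2 * g + 1) / qq F ^ z = 3 * R := by
    rw [hR]
    ring
  rw [e6] at h6
  set tail : ℝ := ∑ w ∈ (Finset.range (g + 1)).filter (fun w => z < w), ∑ W ∈ MON F w,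
      mu W * ∑ f ∈ (MON F (2 * g + 1)).filter (fun f => W ^ 2 ∣ f), ((solz f).card : ℝ) with htail
  have h2 : ∑ f ∈ SQF F (2 * g + 1), (((solz f).card : ℝ) - 1) =
      ∑ f ∈ SQF F (2 * g + 1), ((solz f).card : ℝ) - (SQF F (2 * g + 1)).card := by
    rw [Finset.sum_sub_distrib, Finset.sum_const, nsmul_eq_mul, mul_one]
  -- the main sum
  have h3 : ∑ d ∈ D, qq F ^ (NN (2 * g + 1 + d)) * Md F d z =
      κ * ∑ d ∈ D, qq F ^ (NN (2 * g + 1 + d)) +
        ∑ d ∈ D, qq F ^ (NN (2 * g + 1 + d)) * (Md F d z - κ) := by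
    rw [Finset.mul_sum, ← Finset.sum_add_distrib]
    refine Finset.sum_congr rfl fun d _ => ?_
    ring
  have h4 : |∑ d ∈ D, qq F ^ (NN (2 * g + 1 + d)) * (Md F d z - κ)| ≤ 16 * qq F ^ 3 * R := by
    calc |∑ d ∈ D, qq F ^ (NN (2 * g + 1 + d)) * (Md F d z - κ)|
        ≤ ∑ d ∈ D, |qq F ^ (NN (2 * g + 1 + d)) * (Md F d z - κ)| :=
          Finset.abs_sum_le_sum_abs _ _
      _ ≤ ∑ d ∈ D, 8 * qq F * (qq F ^ (NN (2 * g + 1 + d)) *
          (((d : ℝ) + 1) ^ 2 * (1 / qq F ^ z + 1 / qq F ^ (d / 3)))) := by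
        refine Finset.sum_le_sum fun d _ => ?_
        rw [abs_mul, abs_of_pos (pow_pos hq0 _)]
        have h5 := mul_le_mul_of_nonneg_left (hME2 d z hz1)
          (pow_pos hq0 (NN (2 * g + 1 + d))).le
        refine h5.trans (le_of_eq ?_)
        ring
      _ ≤ ∑ d ∈ Finset.range g, 8 * qq F * (qq F ^ (NN (2 * g + 1 + d)) *
          (((d : ℝ) + 1) ^ 2 * (1 / qq F ^ z + 1 / qq F ^ (d / 3)))) :=
        Finset.sum_le_sum_of_subset_of_nonneg (Finset.filter_subset _ _)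
          (fun d _ _ => by positivity)
      _ = 8 * qq F * ∑ d ∈ Finset.range g, (qq F ^ (NN (2 * g + 1 + d)) *
          (((d : ℝ) + 1) ^ 2 * (1 / qq F ^ z + 1 / qq F ^ (d / 3)))) := by
        rw [Finset.mul_sum]
      _ ≤ 8 * qq F * (2 * qq F ^ 2 * ((g : ℝ) + 1) ^ 3 * qq F ^ (2 * g + 1) / qq F ^ z) :=
        mul_le_mul_of_nonneg_left f2' (by positivity)
      _ = 16 * qq F ^ 3 * R := by
        rw [hR]
        ring
  have h5 : κ * ((qq F ^ (2 * g + 1) - qq F ^ (NN (2 * g + 1))) / (qq F - 1)) =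
      qq F ^ (2 * g + 1) - qq F ^ (2 * g) - (1 - 1 / qq F) * qq F ^ (NN (2 * g + 1)) := by
    have hq1 : qq F - 1 ≠ 0 := by linarith
    rw [hκ, pow_succ]
    field_simp
  have h7 : |(1 - 1 / qq F) * qq F ^ (NN (2 * g + 1))| ≤ R := by
    have h8 : 0 ≤ 1 - 1 / qq F := by
      rw [sub_nonneg, div_le_one hq0]
      linarith
    have h9 : 1 - 1 / qq F ≤ 1 := by
      have : 0 ≤ 1 / qq F := by positivity
      linarith
    rw [abs_of_nonneg (mul_nonneg h8 (pow_pos hq0 _).le)]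
    have h10 : qq F ^ (NN (2 * g + 1)) ≤ qq F ^ (2 * g + 1) / qq F ^ z := by
      rw [le_div_iff₀ (pow_pos hq0 _), ← pow_add]
      exact pow_le_pow_right₀ (by linarith) f3'
    have h11 : (1 : ℝ) ≤ ((g : ℝ) + 1) ^ 3 :=
      one_le_pow₀ (by have : (0 : ℝ) ≤ g := Nat.cast_nonneg _; linarith)
    have h12 : 0 < qq F ^ (2 * g + 1) / qq F ^ z := by positivity
    calc (1 - 1 / qq F) * qq F ^ (NN (2 * g + 1)) ≤ 1 * (qq F ^ (2 * g + 1) / qq F ^ z) :=
          mul_le_mul h9 h10 (pow_pos hq0 _).le zero_le_one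
      _ ≤ ((g : ℝ) + 1) ^ 3 * (qq F ^ (2 * g + 1) / qq F ^ z) :=
          mul_le_mul_of_nonneg_right h11 h12.le
      _ = R := by
        rw [hR]
        ring
  have h8 : ∑ f ∈ SQF F (2 * g + 1), (((solz f).card : ℝ) - 1) =
      ∑ d ∈ D, qq F ^ (NN (2 * g + 1 + d)) * (Md F d z - κ) -
        (1 - 1 / qq F) * qq F ^ (NN (2 * g + 1)) + tail := by
    rw [h2, h1, hF5.2 g hg1, h3, f1', h5]
    ring
  rw [h8]
  have h9 : (16 * qq F ^ 3 + 4) * ((g : ℝ) + 1) ^ 3 * qq F ^ (2 * g + 1) / qq F ^ z =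
      16 * qq F ^ 3 * R + R + 3 * R := by
    rw [hR]
    ring
  rw [h9]
  refine (abs_add_le _ _).trans (add_le_add ?_ h6)
  refine (abs_sub _ _).trans (add_le_add h4 h7)

end XF9

/-- **F9** -/
theorem p_F9 (F : Type) [Field F] [Fintype F] [CharP F 3] (hB1 : S_B1 F)
    (hF4 : S_F4 F) (hF5 : S_F5 F) (hF6 : S_F6 F) (hF7 : S_F7 F) (hF8 : S_F8)
    (hME2 : S_ME2 F) : S_F9 F := by
  have hq3 := XF9.card_ge F
  have hqr : (3 : ℝ) ≤ qq F := by
    unfold qq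
    exact_mod_cast hq3
  have hq0 : (0 : ℝ) < qq F := by linarith
  refine ⟨16 * qq F ^ 3 + 4, by positivity, fun g => ?_⟩
  rcases Nat.eq_zero_or_pos (g / 4) with h0 | h0
  · rw [h0, pow_zero, div_one]
    refine (XF9.triv F hB1 hF4 g).trans ?_
    have h1 : (1 : ℝ) ≤ ((g : ℝ) + 1) ^ 3 :=
      one_le_pow₀ (by have : (0 : ℝ) ≤ g := Nat.cast_nonneg _; linarith)
    have h2 : (3 : ℝ) ≤ 16 * qq F ^ 3 + 4 := by
      have : 0 < qq F ^ 3 := by positivity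
      linarith
    apply mul_le_mul_of_nonneg_right _ (pow_pos hq0 _).le
    nlinarith
  · exact XF9.main F hF5 hF6 hF7 hF8 hME2 h0 (by omega)

end DH
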