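import Pool.Agent.H463.DH.Stm2

/-!
# M1 (helper668): the Wronskian and the Moore determinant of two solutions
-/

open Polynomial
open scoped Classical

noncomputable section

namespace DH

namespace XM1

variable {F : Type} [Field F]

theorem der_Wr (v₁ v₂ : F[X]) : derivative (Wr v₁ v₂) =
    derivative (derivative v₁) * v₂ - v₁ * derivative (derivative v₂) := by
  unfold Wr
  rw [derivative_sub, derivative_mul, derivative_mul]
  ring

theorem ident (f v₁ v₂ : F[X]) (h1 : IsSol f v₁) (h2 : IsSol f v₂) :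
    2 * derivative f * Wr v₁ v₂ + f * derivative (Wr v₁ v₂) = Mo v₁ v₂ := by
  rw [der_Wr]
  unfold IsSol at h1 h2
  rw [derivative_mul, derivative_add, derivative_mul, derivative_mul] at h1 h2
  unfold Wr Mo
  linear_combination v₂ * h1 - v₁ * h2

theorem der_cube [CharP F 3] (c f₀ : F[X]) : derivative (c ^ 3 * f₀) = c ^ 3 * derivative f₀ := by
  have h3 : (3 : F[X]) = 0 := by
    have : ((3 : ℕ) : F[X]) = 0 := CharP.cast_eq_zero F[X] 3
    exact_mod_cast this
  rw [derivative_mul, derivative_pow]
  have : (C ((3 : ℕ) : F) : F[X]) = 0 := by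
    rw [CharP.cast_eq_zero F 3, C_0]
  rw [this]
  ring

end XM1

open XM1 in
theorem p_M1 (F : Type) [Field F] [Fintype F] [CharP F 3] (hCP : S_CP F) : S_M1 F := by
  intro g f v₁ v₂ hf h1 h2 hW
  have hid := ident f v₁ v₂ h1 h2
  refine ⟨?_, ?_⟩
  · obtain ⟨f₀, hf₀⟩ := (hCP.1 _ hW).2.1
    obtain ⟨c, hc⟩ : ∃ c, c = cpart (Wr v₁ v₂) := ⟨_, rfl⟩
    rw [← hc] at hf₀ ⊢
    rw [← hid, hf₀, der_cube]
    exact ⟨2 * derivative f * f₀ + f * derivative f₀, by ring⟩
  · rw [← hid]
    refine (natDegree_add_le _ _).trans (max_le ?_ ?_)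
    · refine natDegree_mul_le.trans (Nat.add_le_add_right ?_ _)
      have h3 : (2 * derivative f : F[X]) = C 2 * derivative f := by
        rw [C_ofNat]
      rw [h3]
      refine (natDegree_C_mul_le _ _).trans ((natDegree_derivative_le f).trans ?_)
      omega
    · by_cases h0 : (Wr v₁ v₂).natDegree = 0
      · have : derivative (Wr v₁ v₂) = 0 := by
          rw [eq_C_of_natDegree_eq_zero h0, derivative_C]
        rw [this, mul_zero, natDegree_zero]
        exact Nat.zero_le _
      · refine natDegree_mul_le.trans ?_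
        have := natDegree_derivative_le (Wr v₁ v₂)
        omega

end DH
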