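import Pool.Agent.H463.DH.Stm2

/-! M2: number of `f` for a pair `(v₁, v₂)` via the Wronskian. -/

open Polynomial
open scoped Classical

noncomputable section

namespace DH

namespace XM2

set_option linter.unusedSectionVars false

variable {F : Type} [Field F] [Fintype F] [CharP F 3]

/-- two polynomials with vanishing second derivatives of the products -/
theorem wr_der {h v₁ v₂ : F[X]} (h1 : derivative (derivative (h * v₁)) = 0)
    (h2 : derivative (derivative (h * v₂)) = 0) : derivative (h ^ 2 * Wr v₁ v₂) = 0 := by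
  have e1 : derivative (derivative h) * v₁ + 2 * (derivative h * derivative v₁) +
      h * derivative (derivative v₁) = 0 := by
    rw [← h1]
    simp only [derivative_mul, derivative_add]
    ring
  have e2 : derivative (derivative h) * v₂ + 2 * (derivative h * derivative v₂) +
      h * derivative (derivative v₂) = 0 := by
    rw [← h2]
    simp only [derivative_mul, derivative_add]
    ring
  have e3 : derivative (h ^ 2 * Wr v₁ v₂) = h * (v₂ * (derivative (derivative h) * v₁ +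
      2 * (derivative h * derivative v₁) + h * derivative (derivative v₁)) -
      v₁ * (derivative (derivative h) * v₂ + 2 * (derivative h * derivative v₂) +
      h * derivative (derivative v₂))) := by
    unfold Wr
    rw [sq]
    simp only [derivative_mul, derivative_sub]
    ring
  rw [e3, e1, e2]
  ring

/-- the algebraic step -/
theorem cube_step {h f₁ k : F[X]} (hh : h ≠ 0) (hf : CubeFree f₁) (hk : h ^ 2 * f₁ = k ^ 3) :
    ∃ m : F[X], h = f₁ * m ^ 3 := by
  obtain ⟨g, hg⟩ : ∃ g, g = EuclideanDomain.gcd k h := ⟨_, rfl⟩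
  have hg0 : g ≠ 0 := by
    rw [hg]
    intro h0
    exact hh (EuclideanDomain.gcd_eq_zero_iff.1 h0).2
  have hgk : g ∣ k := hg ▸ EuclideanDomain.gcd_dvd_left k h
  have hgh : g ∣ h := hg ▸ EuclideanDomain.gcd_dvd_right k h
  have hbz : g = k * EuclideanDomain.gcdA k h + h * EuclideanDomain.gcdB k h := by
    rw [hg]
    exact EuclideanDomain.gcd_eq_gcd_ab k h
  obtain ⟨r, hr⟩ := hgk
  obtain ⟨p, hp⟩ := hgh
  have hco : IsCoprime r p := by
    refine ⟨EuclideanDomain.gcdA k h, EuclideanDomain.gcdB k h, ?_⟩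
    apply mul_left_cancel₀ hg0
    calc g * (EuclideanDomain.gcdA k h * r + EuclideanDomain.gcdB k h * p) =
        (g * r) * EuclideanDomain.gcdA k h + (g * p) * EuclideanDomain.gcdB k h := by ring
      _ = g * 1 := by rw [← hr, ← hp, ← hbz, mul_one]
  have e1 : h * k ^ 3 = f₁ * h ^ 3 := by
    rw [← hk]
    ring
  have e2 : h * r ^ 3 = f₁ * p ^ 3 := by
    have h3 : g ^ 3 ≠ 0 := pow_ne_zero 3 hg0
    apply mul_left_cancel₀ h3
    calc g ^ 3 * (h * r ^ 3) = h * (g * r) ^ 3 := by ring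
      _ = h * k ^ 3 := by rw [← hr]
      _ = f₁ * h ^ 3 := e1
      _ = f₁ * (g * p) ^ 3 := by rw [← hp]
      _ = _ := by ring
  have h4 : r ^ 3 ∣ f₁ := by
    have h5 : r ^ 3 ∣ f₁ * p ^ 3 := ⟨h, by rw [← e2]; ring⟩
    exact (hco.pow (m := 3) (n := 3)).dvd_of_dvd_mul_right h5
  obtain ⟨u, hu⟩ := (hf r h4).exists_right_inv
  refine ⟨p * u, ?_⟩
  calc h = h * (r * u) ^ 3 := by rw [hu]; ring
    _ = (h * r ^ 3) * u ^ 3 := by ring
    _ = (f₁ * p ^ 3) * u ^ 3 := by rw [e2]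
    _ = _ := by ring

end XM2

open XM2 in
theorem p_M2 (F : Type) [Field F] [Fintype F] [CharP F 3] (hB0 : S_B0 F) (hB1 : S_B1 F)
    (hCP : S_CP F) : S_M2 F := by
  intro n v₁ v₂ hn hW
  obtain ⟨b1, b2, -, b4, -, -⟩ := hB0
  obtain ⟨d1, -⟩ := hB1
  obtain ⟨c1, c2, -⟩ := hCP
  obtain ⟨hcm, ⟨f₁, hf₁⟩, -⟩ := c1 _ hW
  have hcf := c2 _ _ hW hf₁
  have hc0 : cpart (Wr v₁ v₂) ≠ 0 := hcm.ne_zero
  have hf0 : f₁ ≠ 0 := by
    rintro rfl
    exact hW (by rw [hf₁, mul_zero])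
  have hdeg : f₁.natDegree = (Wr v₁ v₂).natDegree - 3 * (cpart (Wr v₁ v₂)).natDegree := by
    have h1 : (Wr v₁ v₂).natDegree = 3 * (cpart (Wr v₁ v₂)).natDegree + f₁.natDegree := by
      conv_lhs => rw [hf₁]
      rw [natDegree_mul (pow_ne_zero 3 hc0) hf0, natDegree_pow]
    omega
  rw [← hdeg, ← b4]
  by_cases hS : ((MON F n).filter (fun f => IsSol f v₁ ∧ IsSol f v₂)).Nonempty
  swap
  · rw [Finset.not_nonempty_iff_eq_empty.1 hS]
    simp
  obtain ⟨f₀, hf₀⟩ := hS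
  rw [Finset.mem_filter] at hf₀
  obtain ⟨hfM, hs1, hs2⟩ := hf₀
  obtain ⟨hmon, hnd⟩ := (b2 n f₀).1 hfM
  refine le_trans (Finset.card_le_card (t := (POL F ((n - 1 - f₁.natDegree) / 3 + 1)).image
    (fun k => f₀ + f₁ * k ^ 3)) ?_) Finset.card_image_le
  intro f hf
  rw [Finset.mem_filter] at hf
  obtain ⟨hfM', ht1, ht2⟩ := hf
  obtain ⟨hmon', hnd'⟩ := (b2 n f).1 hfM'
  rw [Finset.mem_image]
  by_cases hff : f - f₀ = 0
  · refine ⟨0, ?_, ?_⟩
    · rw [b1, degree_zero]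
      exact WithBot.bot_lt_coe _
    · rw [sub_eq_zero.1 hff]
      ring
  have key : ∀ v : F[X], IsSol f₀ v → IsSol f v → derivative (derivative ((f - f₀) * v)) = 0 := by
    intro v hv hv'
    unfold IsSol at hv hv'
    rw [sub_mul, derivative_sub, derivative_sub, hv, hv', sub_self]
  have hder := wr_der (key v₁ hs1 ht1) (key v₂ hs2 ht2)
  obtain ⟨k, hk⟩ := (d1 _).1 hder
  have hck : cpart (Wr v₁ v₂) ∣ k := by
    have h1 : cpart (Wr v₁ v₂) ^ 3 ∣ k ^ 3 := by
      rw [← hk]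
      exact Dvd.dvd.mul_left ⟨f₁, hf₁⟩ _
    exact (IsIntegrallyClosed.pow_dvd_pow_iff three_ne_zero).1 h1
  obtain ⟨k₁, hk₁⟩ := hck
  have hk2 : (f - f₀) ^ 2 * f₁ = k₁ ^ 3 := by
    apply mul_left_cancel₀ (pow_ne_zero 3 hc0)
    calc cpart (Wr v₁ v₂) ^ 3 * ((f - f₀) ^ 2 * f₁) =
        (f - f₀) ^ 2 * (cpart (Wr v₁ v₂) ^ 3 * f₁) := by ring
      _ = (f - f₀) ^ 2 * Wr v₁ v₂ := by rw [← hf₁]
      _ = k ^ 3 := hk
      _ = (cpart (Wr v₁ v₂) * k₁) ^ 3 := by rw [← hk₁]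
      _ = _ := by ring
  obtain ⟨m, hm⟩ := cube_step hff hcf hk2
  have hm0 : m ≠ 0 := by
    rintro rfl
    exact hff (by rw [hm]; ring)
  have hlt : (f - f₀).natDegree < n := by
    rw [natDegree_lt_iff_degree_lt hff]
    have h1 : degree f = degree f₀ := by
      rw [degree_eq_natDegree hmon'.ne_zero, degree_eq_natDegree hmon.ne_zero, hnd, hnd']
    have h2 := degree_sub_lt_left h1 hmon'.ne_zero (by rw [hmon.leadingCoeff, hmon'.leadingCoeff])
    rwa [degree_eq_natDegree hmon'.ne_zero, hnd'] at h2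
  have hdd : (f - f₀).natDegree = f₁.natDegree + 3 * m.natDegree := by
    conv_lhs => rw [hm]
    rw [natDegree_mul hf0 (pow_ne_zero 3 hm0), natDegree_pow]
  refine ⟨m, ?_, ?_⟩
  · rw [b1, ← natDegree_lt_iff_degree_lt hm0]
    omega
  · show f₀ + f₁ * m ^ 3 = f
    rw [← hm]
    ring

end DH
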