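import Pool.Agent.H463.DH.Stm

/-!
helper34: divisor sums over `F[X]` (TA).
-/

open Polynomial
open scoped Classical

noncomputable section

namespace DH

namespace XTA

open UniqueFactorizationMonoid

variable {F : Type} [Field F] [Fintype F]

theorem card_mult (hB0 : S_B0 F) {a : F[X]} {j : ℕ} (ha : a ∈ MON F j) (k : ℕ) :
    ((MON F k).filter (fun b => a ∣ b)).card = if j ≤ k then Fintype.card F ^ (k - j) else 0 := by
  obtain ⟨-, h2, -, -, h5, -⟩ := hB0
  obtain ⟨ham, had⟩ := (h2 j a).1 ha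
  split_ifs with h
  · have h3 : (MON F k).filter (fun b => a ∣ b) = (MON F (k - j)).image (fun c => a * c) := by
      ext b
      rw [Finset.mem_filter, h2, Finset.mem_image]
      constructor
      · rintro ⟨⟨hb, hbd⟩, c, rfl⟩
        have hc := Monic.of_mul_monic_left ham hb
        refine ⟨c, (h2 _ _).2 ⟨hc, ?_⟩, rfl⟩
        rw [ham.natDegree_mul hc] at hbd
        omega
      · rintro ⟨c, hc, rfl⟩
        obtain ⟨hc1, hc2⟩ := (h2 _ _).1 hc
        refine ⟨⟨ham.mul hc1, ?_⟩, dvd_mul_right _ _⟩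
        rw [ham.natDegree_mul hc1]
        omega
    rw [h3, Finset.card_image_of_injective _ (mul_right_injective₀ ham.ne_zero), h5]
  · rw [Finset.card_eq_zero, Finset.filter_eq_empty_iff]
    intro b hb hab
    obtain ⟨hb1, hb2⟩ := (h2 _ _).1 hb
    have h4 := natDegree_le_of_dvd hab hb1.ne_zero
    omega

theorem dcount (hB0 : S_B0 F) (j k : ℕ) :
    ∑ b ∈ MON F k, ((MON F j).filter (fun a => a ∣ b)).card =
      if j ≤ k then Fintype.card F ^ k else 0 := by
  have h1 : ∑ b ∈ MON F k, ((MON F j).filter (fun a => a ∣ b)).card =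
      ∑ a ∈ MON F j, ((MON F k).filter (fun b => a ∣ b)).card := by
    simp only [Finset.card_filter]
    rw [Finset.sum_comm]
  rw [h1, Finset.sum_congr rfl fun a ha => card_mult hB0 ha k, Finset.sum_const, hB0.2.2.2.2.1]
  split_ifs with h
  · rw [smul_eq_mul, ← pow_add, Nat.add_sub_cancel' h]
  · rw [smul_zero]

theorem part1 (hB0 : S_B0 F) (k m : ℕ) (hkm : k ≤ m) :
    ∑ b ∈ MON F k, (∑ j ∈ Finset.range (m + 1), ((MON F j).filter (fun a => a ∣ b)).card) =
      (k + 1) * Fintype.card F ^ k := by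
  rw [Finset.sum_comm, Finset.sum_congr rfl fun j _ => dcount hB0 j k, ← Finset.sum_filter,
    Finset.sum_const, smul_eq_mul]
  congr 1
  have h1 : (Finset.range (m + 1)).filter (fun j => j ≤ k) = Finset.range (k + 1) := by
    ext j
    rw [Finset.mem_filter, Finset.mem_range, Finset.mem_range]
    omega
  rw [h1, Finset.card_range]

/-- the monic divisors -/
def dv (W : F[X]) : Finset F[X] := (POL F (W.natDegree + 1)).filter (fun a => a.Monic ∧ a ∣ W)

theorem mem_dv (hB0 : S_B0 F) {W a : F[X]} (hW : W ≠ 0) : a ∈ dv W ↔ a.Monic ∧ a ∣ W := by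
  unfold dv
  rw [Finset.mem_filter, hB0.1]
  constructor
  · exact fun h => h.2
  · intro h
    refine ⟨?_, h⟩
    have h1 := natDegree_le_of_dvd h.2 hW
    refine degree_le_natDegree.trans_lt ?_
    exact_mod_cast Nat.lt_succ_of_le h1

theorem sum_dv (hB0 : S_B0 F) {W : F[X]} (hW : W ≠ 0) {m : ℕ} (hm : W.natDegree ≤ m)
    (f : F[X] → ℕ) : ∑ a ∈ dv W, f a =
      ∑ j ∈ Finset.range (m + 1), ∑ a ∈ (MON F j).filter (fun a => a ∣ W), f a := by
  have h1 : ∀ a ∈ dv W, a.natDegree ∈ Finset.range (m + 1) := by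
    intro a ha
    have h2 := natDegree_le_of_dvd ((mem_dv hB0 hW).1 ha).2 hW
    rw [Finset.mem_range]
    omega
  rw [← Finset.sum_fiberwise_of_maps_to h1]
  refine Finset.sum_congr rfl fun j _ => Finset.sum_congr ?_ fun _ _ => rfl
  ext a
  rw [Finset.mem_filter, Finset.mem_filter, mem_dv hB0 hW, hB0.2.1]
  tauto

omit [Fintype F] in
theorem nf_prod (T : Finset F[X]) (hT : ∀ p ∈ T, Irreducible p ∧ p.Monic) :
    normalizedFactors (∏ p ∈ T, p) = T.val := by
  have h1 : (∏ p ∈ T, p) = T.val.prod := by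
    rw [Finset.prod_eq_multiset_prod, Multiset.map_id']
  rw [h1, normalizedFactors_multiset_prod _ (fun h => (hT 0 h).1.ne_zero rfl)]
  have h2 : T.val.map normalizedFactors = T.val.map (fun p => ({p} : Multiset F[X])) := by
    refine Multiset.map_congr rfl fun p hp => ?_
    obtain ⟨h3, h4⟩ := hT p hp
    rw [normalizedFactors_irreducible h3, h4.normalize_eq_self]
  rw [h2, Multiset.sum_map_singleton]

/-- a lower bound for the divisor sums of squarefree polynomials -/
theorem pow_le (hB0 : S_B0 F) {W : F[X]} (hW : W.Monic) (hsq : Squarefree W) (x : ℕ) :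
    (1 + x) ^ (Multiset.card (normalizedFactors W)) ≤
      ∑ a ∈ dv W, x ^ (Multiset.card (normalizedFactors a)) := by
  have hW0 := hW.ne_zero
  set S : Finset F[X] := (normalizedFactors W).toFinset with hS
  have hnd : (normalizedFactors W).Nodup := (squarefree_iff_nodup_normalizedFactors hW0).1 hsq
  have hSv : S.val = normalizedFactors W := by
    rw [hS, Multiset.toFinset_val, hnd.dedup]
  have hSp : ∀ p ∈ S, Irreducible p ∧ p.Monic := by
    intro p hp
    have hp' : p ∈ normalizedFactors W := Multiset.mem_toFinset.1 hp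
    refine ⟨irreducible_of_normalized_factor p hp', ?_⟩
    have h1 := normalize_normalized_factor p hp'
    rw [← h1]
    exact monic_normalize (irreducible_of_normalized_factor p hp').ne_zero
  have hcard : S.card = Multiset.card (normalizedFactors W) := by
    rw [← hSv]
    rfl
  rw [← hcard]
  have h1 : (1 + x) ^ S.card = ∑ T ∈ S.powerset, x ^ T.card := by
    have h2 := Finset.prod_one_add (f := fun _ : F[X] => x) S
    rw [Finset.prod_const] at h2
    rw [h2]
    exact Finset.sum_congr rfl fun T _ => by rw [Finset.prod_const]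
  have h3 : ∀ T ∈ S.powerset, normalizedFactors (∏ p ∈ T, p) = T.val := fun T hT =>
    nf_prod T fun p hp => hSp p (Finset.mem_powerset.1 hT hp)
  have h4 : ∑ T ∈ S.powerset, x ^ T.card =
      ∑ T ∈ S.powerset, x ^ (Multiset.card (normalizedFactors (∏ p ∈ T, p))) :=
    Finset.sum_congr rfl fun T hT => by rw [h3 T hT]; rfl
  have h5 : Set.InjOn (fun T : Finset F[X] => ∏ p ∈ T, p) S.powerset := by
    intro T hT T' hT' h
    have h6 := congrArg normalizedFactors h
    simp only at h6
    rw [h3 T hT, h3 T' hT'] at h6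
    exact Finset.val_injective h6
  have h7 : ∑ T ∈ S.powerset, x ^ (Multiset.card (normalizedFactors (∏ p ∈ T, p))) =
      ∑ a ∈ S.powerset.image (fun T : Finset F[X] => ∏ p ∈ T, p),
        x ^ (Multiset.card (normalizedFactors a)) := by
    rw [Finset.sum_image h5]
  rw [h1, h4, h7]
  refine Finset.sum_le_sum_of_subset ?_
  intro a ha
  obtain ⟨T, hT, rfl⟩ := Finset.mem_image.1 ha
  have hTS := Finset.mem_powerset.1 hT
  rw [mem_dv hB0 hW0]
  refine ⟨monic_prod_of_monic _ _ fun p hp => (hSp p (hTS hp)).2, ?_⟩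
  have h8 : (∏ p ∈ T, p) ∣ ∏ p ∈ S, p := Finset.prod_dvd_prod_of_subset _ _ _ hTS
  refine h8.trans ?_
  have h9 : (∏ p ∈ S, p) = (normalizedFactors W).prod := by
    rw [Finset.prod_eq_multiset_prod, Multiset.map_id', hSv]
  rw [h9]
  exact (prod_normalizedFactors hW0).dvd

theorem part2 (hB0 : S_B0 F) (w : ℕ) : ∑ W ∈ (MON F w).filter (fun W => Squarefree W),
    3 ^ (Multiset.card (normalizedFactors W)) ≤ (w + 1) ^ 2 * Fintype.card F ^ w := by
  have hmon : ∀ {k : ℕ} {W : F[X]}, W ∈ MON F k → W.Monic ∧ W.natDegree = k := fun {k W} h =>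
    (hB0.2.1 k W).1 h
  have h1 : ∑ W ∈ (MON F w).filter (fun W => Squarefree W),
      3 ^ (Multiset.card (normalizedFactors W)) ≤
      ∑ W ∈ (MON F w).filter (fun W => Squarefree W), ∑ a ∈ dv W, (dv a).card := by
    refine Finset.sum_le_sum fun W hW => ?_
    rw [Finset.mem_filter] at hW
    have hWm := (hmon hW.1).1
    refine (pow_le hB0 hWm hW.2 2).trans (Finset.sum_le_sum fun a ha => ?_)
    obtain ⟨ha1, ha2⟩ := (mem_dv hB0 hWm.ne_zero).1 ha
    have h2 := pow_le hB0 ha1 (hW.2.squarefree_of_dvd ha2) 1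
    simp only [one_pow, Finset.sum_const, smul_eq_mul, mul_one] at h2
    exact h2
  have h2 : ∑ W ∈ (MON F w).filter (fun W => Squarefree W), ∑ a ∈ dv W, (dv a).card ≤
      ∑ W ∈ MON F w, ∑ a ∈ dv W, (dv a).card :=
    Finset.sum_le_sum_of_subset (Finset.filter_subset _ _)
  have h3 : ∑ W ∈ MON F w, ∑ a ∈ dv W, (dv a).card =
      ∑ j ∈ Finset.range (w + 1), ∑ a ∈ MON F j,
        (dv a).card * ((MON F w).filter (fun W => a ∣ W)).card := by
    rw [Finset.sum_congr rfl fun W hW =>
      sum_dv hB0 (hmon hW).1.ne_zero (hmon hW).2.le (fun a => (dv a).card), Finset.sum_comm]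
    refine Finset.sum_congr rfl fun j _ => ?_
    simp only [Finset.sum_filter, Finset.card_filter, Finset.mul_sum]
    rw [Finset.sum_comm]
    refine Finset.sum_congr rfl fun a _ => Finset.sum_congr rfl fun W _ => ?_
    rw [mul_ite, mul_one, mul_zero, Finset.card_eq_sum_ones]
  have h4 : ∀ j ∈ Finset.range (w + 1), ∑ a ∈ MON F j,
      (dv a).card * ((MON F w).filter (fun W => a ∣ W)).card = (j + 1) * Fintype.card F ^ w := by
    intro j hj
    rw [Finset.mem_range] at hj
    have h5 : ∀ a ∈ MON F j, (dv a).card * ((MON F w).filter (fun W => a ∣ W)).card =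
        (∑ i ∈ Finset.range (j + 1), ((MON F i).filter (fun b => b ∣ a)).card) *
          Fintype.card F ^ (w - j) := by
      intro a ha
      rw [card_mult hB0 ha, if_pos (by omega)]
      congr 1
      have h6 := sum_dv hB0 (hmon ha).1.ne_zero (hmon ha).2.le (fun _ => 1)
      simp only [← Finset.card_eq_sum_ones] at h6
      exact h6
    rw [Finset.sum_congr rfl h5, ← Finset.sum_mul, part1 hB0 j j le_rfl, mul_assoc, ← pow_add,
      Nat.add_sub_cancel' (by omega)]
  rw [h3, Finset.sum_congr rfl h4, ← Finset.sum_mul] at h2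
  refine (h1.trans h2).trans ?_
  refine Nat.mul_le_mul_right _ ?_
  calc ∑ j ∈ Finset.range (w + 1), (j + 1) ≤ ∑ _j ∈ Finset.range (w + 1), (w + 1) :=
        Finset.sum_le_sum fun j hj => by
          rw [Finset.mem_range] at hj
          omega
    _ = (w + 1) ^ 2 := by
        rw [Finset.sum_const, Finset.card_range, smul_eq_mul, sq]

end XTA

theorem p_TA (F : Type) [Field F] [Fintype F] [CharP F 3] (hB0 : S_B0 F) : S_TA F :=
  ⟨fun k m hkm => XTA.part1 hB0 k m hkm, fun w => XTA.part2 hB0 w⟩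

end DH
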