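import Pool.Agent.H463.DH.Stm

/-!
# Second part: a positive proportion of the class numbers is divisible by 3

Statements (as `Prop`s) with paper proofs.  `S_B0, S_B1, S_B2, S_B5, S_CP, S_MU, S_F3, S_F4, S_F5, S_G0, S_A9 …` are statements of
`Stm.lean`, all already proved (files `helper463_DH_B0.lean`, … in the store); use them as hypotheses.
-/

open Polynomial
open scoped Classical

noncomputable section

namespace DH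

variable (F : Type) [Field F] [Fintype F] [CharP F 3]

/-- The nonzero polynomials of degree `< Z`. -/
def POLz (Z : ℕ) : Finset F[X] := (POL F Z).filter (fun x => x ≠ 0)

/-- The squarefree polynomials of degree exactly `d` (any leading coefficient). -/
def VV (d : ℕ) : Finset F[X] := (DEG F d).filter (fun v => Squarefree v)

/-- The number of squarefree solutions of degree exactly `g - 1`. -/
def XX (g : ℕ) (f : F[X]) : ℕ := ((VV F (g - 1)).filter (fun v => IsSol f v)).card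

variable {F} in
/-- The Wronskian. -/
def Wr (v₁ v₂ : F[X]) : F[X] := derivative v₁ * v₂ - v₁ * derivative v₂

variable {F} in
/-- `v₁ v₂ (v₂ - v₁) (v₂ + v₁)`. -/
def Mo (v₁ v₂ : F[X]) : F[X] := v₁ * v₂ ^ 3 - v₁ ^ 3 * v₂

variable {F} in
/-- The number of monic divisors (for `W ≠ 0`). -/
def tau (W : F[X]) : ℕ := ∑ k ∈ Finset.range (W.natDegree + 1), ((MON F k).filter (fun a => a ∣ W)).card

variable {F} in
/-- The weight `q ^ (⌊(Z - 1 - deg x) / 3⌋ + deg (cpart (e x)))`. -/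
def Rz (Z : ℕ) (e x : F[X]) : ℝ := qq F ^ ((Z - 1 - x.natDegree) / 3 + (cpart (e * x)).natDegree)

variable {F} in
/-- The condition on pairs `(x, y)` for given `e`. -/
def Cnd (e x y : F[X]) : Prop :=
  Wr x y ≠ 0 ∧ e ∣ Wr x y ∧ ∀ P : F[X], Irreducible P → P ∣ e → ¬ (P ∣ x ∧ P ∣ y)

/-- The sum over the pairs for given `e`. -/
def TT1 (Z : ℕ) (e : F[X]) : ℝ :=
  ∑ x ∈ POLz F Z, ∑ y ∈ (POLz F Z).filter (fun y => Cnd e x y), Rz Z e x * Rz Z e y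

/-- The total sum. -/
def TT (g : ℕ) : ℝ :=
  ∑ m ∈ Finset.range g, ∑ e ∈ (MON F m).filter (fun e => Squarefree e), qq F ^ m * TT1 F (g - m) e

/-! ## Lower bound for the first moment over squarefree `v` -/

/-- **N1** (uses B0) `∑_{P monic irreducible, 1 ≤ deg P ≤ m} q^{-2 deg P} ≤ 23/54`.
Proof: degree 1: at most `q` polynomials, `1/q ≤ 1/3`.  Degree 2: at most `(q² - q)/2` irreducible monic quadratics (`X² + b X + c`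
with `b² - 4 c` a nonsquare; or: the products `(X - a)(X - b)` are `q (q+1)/2` reducible ones), contribution
`(q - 1)/(2 q³) ≤ 1/27`.  Degree `k ≥ 3`: at most `q^k` monic polynomials, `∑_{k ≥ 3} q^{-k} = 1/(q² (q-1)) ≤ 1/18`.  (`q ≥ 3`.) -/
def S_N1 : Prop :=
  ∀ m : ℕ, ∑ p ∈ Finset.Icc 1 m, ∑ _P ∈ (MON F p).filter (fun P => Irreducible P), 1 / qq F ^ (2 * p) ≤ 23 / 54

/-- **N2** (uses B0, MU, F5) for `d ≥ 2` there are `(q-1)(q^d - q^{d-1})` squarefree polynomials of degree `d`, and at most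
`(q-1)(q^{d-p} - q^{d-p-1})` of them are divisible by a given monic irreducible `P` of degree `p ≤ d - 2` (`v = P v'`,
`v'` squarefree of degree `d - p`).
Proof: `#SQF d = ∑_w (∑_{W ∈ MON w} mu W) q^{d - 2w} = q^d - q^{d-1}` by F5 (1) with `Y = 1` and MU (5); scale by constants. -/
def S_N2 : Prop :=
  (∀ d : ℕ, 2 ≤ d → ((VV F d).card : ℝ) = (qq F - 1) * (qq F ^ d - qq F ^ (d - 1))) ∧
  (∀ (d p : ℕ) (P : F[X]), P.Monic → Irreducible P → P.natDegree = p → p + 2 ≤ d →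
    (((VV F d).filter (fun v => P ∣ v)).card : ℝ) ≤ (qq F - 1) * (qq F ^ (d - p) - qq F ^ (d - p - 1)))

/-- **PP1** (uses B0, B1, B5, CP, F3, F4, N1, N2) `∑_{f ∈ SQF (2g+1)} XX g f ≥ c q^{2g+1}` for large `g`.
Proof: `n = 2g+1`, `d = g-1`, `V = VV d`.  `∑_{f ∈ SQF n} XX g f = ∑_{v ∈ V} #{f ∈ SQF n : IsSol f v}
≥ ∑_{v ∈ V} (cnt n 1 v - ∑_{P monic irreducible, deg P ≤ g} cnt n P v)` (a monic `f` which is not squarefree is divisible by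
some `P²`, `2 deg P ≤ n`).
(i) `cnt n 1 v = q^{g+1}` by B5 (`W = 1`; `NN (3g) = 2g`, `cpart v = 1` as `v` is squarefree).
(ii) `4 p ≤ g`: B5 gives `cnt n P v = q^{2g} q^{deg cpart (P² v)} / q^{2p + g - 1}`, which is `q^{g+1-2p}` if `P ∤ v` (`P² v` is cube-free)
and at most `q^{g+1-2p} q^p` if `P ∣ v` (`cpart (P² v) = P`).  Summed over `v ∈ V`, by N2 (`d ≥ p + 2` for `g ≥ 4`... large `g`):
`≤ q^{g+1} (#V q^{-2p} + q^{-p} #V q^{-p}) = 2 q^{g+1} #V q^{-2p}`, total over these `P`: `≤ (46/54) q^{g+1} #V` by N1.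
(iii) `g < 4 p`, `p ≤ g`: `∑_{v ∈ V} cnt n P v ≤ ∑_{f ∈ MON n, P² ∣ f} #sol f ≤ 3 · 3 q^{n-2p}` (F3 with `Ω(P) = 1`, F4 for
`n - 2p = 2(g-p)+1`); at most `q^p` such `P`; total `≤ 9 (g+1) q^n / q^{g/4}`.
(iv) `#V = (q-1)² q^{g-2}`, so the sum is `≥ (8/54) (1 - 1/q)² q^{2g+1} - 9 (g+1) q^{2g+1}/q^{g/4} ≥ c q^{2g+1}`. -/
def S_PP1 : Prop :=
  ∃ c : ℝ, 0 < c ∧ ∃ g₀ : ℕ, ∀ g ≥ g₀, c * qq F ^ (2 * g + 1) ≤ ∑ f ∈ SQF F (2 * g + 1), (XX F g f : ℝ)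

/-! ## Pairs of solutions -/

/-- **M1** (no hypotheses needed, CP for `cpart`) for a common `f`: `2 f' Wr + f Wr' = Mo` (where `Wr = Wr v₁ v₂`), so `c³ ∣ Mo` for
`c = cpart Wr`, and `deg Mo ≤ 2 g + deg Wr` if `deg f = 2g+1`.
Proof: `v₂ (f v₁)'' - v₁ (f v₂)'' = - v₁³ v₂ + v₁ v₂³`, and the left side is `2 f' (v₁' v₂ - v₁ v₂') + f (v₁'' v₂ - v₁ v₂'')`,
`Wr' = v₁'' v₂ - v₁ v₂''`.  If `Wr = c³ f₀` then `Wr' = c³ f₀'`. -/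
def S_M1 : Prop :=
  ∀ (g : ℕ) (f v₁ v₂ : F[X]), f.natDegree = 2 * g + 1 → IsSol f v₁ → IsSol f v₂ → Wr v₁ v₂ ≠ 0 →
    (cpart (Wr v₁ v₂)) ^ 3 ∣ Mo v₁ v₂ ∧ (Mo v₁ v₂).natDegree ≤ 2 * g + (Wr v₁ v₂).natDegree

/-- **M2** (uses B0, B1, CP) for `Wr = Wr v₁ v₂ ≠ 0`, `s = deg Wr - 3 deg (cpart Wr)`: at most `q^{⌊(n-1-s)/3⌋+1}` monic `f` of degree
`n ≥ 1` have both `v₁`, `v₂` as solutions.
Proof: `Wr = c³ f₀`, `f₀` cube-free of degree `s` (CP).  Two such `f` differ by `h` of degree `< n` with `(h v₁)'' = (h v₂)'' = 0`,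
so (as in M1 with zero right side) `2 h' Wr + h Wr' = 0`, `(h² Wr)' = h (2 h' Wr + h Wr') = 0`, `h² Wr = k³` (B1), so
`h² f₀ = k₁³` (`c³ ∣ k³`, `c ∣ k`).  For `h ≠ 0`: `h k₁³ = f₀ h³`; in lowest terms `h / k₁ = p / r`, `h r³ = f₀ p³`, so `r³ ∣ f₀`, `r` is a unit,
`h = f₀ p³` up to a constant cube.  The `h = f₀ k³` with `s + 3 deg k < n`, together with `0`, are at most
`q^{⌊(n-1-s)/3⌋+1}` (if `s ≥ n` only `h = 0`). -/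
def S_M2 : Prop :=
  ∀ (n : ℕ) (v₁ v₂ : F[X]), 1 ≤ n → Wr v₁ v₂ ≠ 0 →
    ((MON F n).filter (fun f => IsSol f v₁ ∧ IsSol f v₂)).card ≤
      Fintype.card F ^ ((n - 1 - ((Wr v₁ v₂).natDegree - 3 * (cpart (Wr v₁ v₂)).natDegree)) / 3 + 1)

/-- **M4** (uses CP, B1) decomposition of `c`.  `v₁, v₂` squarefree, `v₁ ≠ ± v₂`, `u = v₁ - v₂`, `w = v₁ + v₂`; `c³` divides `Wr v₁ v₂`
and `Mo v₁ v₂ = - v₁ v₂ u w`.  Then with `e` = the product of the monic primes `P` with `P ∣ c`, `P ∣ v₁`, `P ∣ v₂`: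
`u = e x`, `w = e y`, `e ∣ Wr x y`, no prime `P ∣ e` divides both `x` and `y`, and `c ∣ e cpart(u) cpart(w)`, so
`deg c ≤ deg e + deg cpart(e x) + deg cpart(e y)`.
Proof: let `P` be a prime, `k = v_P(c)`, `3 k ≤ v_P(Mo)`, `3 k ≤ v_P(Wr)`.  (a) If `P` divides exactly one of `v₁, v₂` then `P ∤ u w`,
`v_P(Mo) = 1`, `k = 0`.  (b) If `P ∤ v₁ v₂`, `P` divides at most one of `u, w` (`v₁ = -(u + w)`), so `3 k ≤ v_P(u)` or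
`3 k ≤ v_P(w)`: `P^k ∣ cpart(u) cpart(w)`.  (c) If `P ∣ v₁`, `P ∣ v₂`: `v_P(v₁) = v_P(v₂) = 1`, `v_P(u), v_P(w) ≥ 1`, not both
`≥ 2`, so `v_P(Mo) = 3 + j`, `j = max (v_P(u), v_P(w))`, `3 (k - 1) ≤ j`: `P^{k-1} ∣ cpart(u) cpart(w)`.
`e ∣ Wr x y`: `Wr u w = e² Wr x y` and `Wr u w = 2 Wr v₁ v₂` is divisible by `P³` for `P ∣ e`, so `P ∣ Wr x y` (as `v_P(e) = 1`).
`P ∣ e` and `P ∣ x, y` would give `P² ∣ u + w = - v₁`. -/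
def S_M4 : Prop :=
  ∀ v₁ v₂ c : F[X], Squarefree v₁ → Squarefree v₂ → v₁ ≠ v₂ → v₁ ≠ - v₂ → c ≠ 0 → c ^ 3 ∣ Wr v₁ v₂ → c ^ 3 ∣ Mo v₁ v₂ →
    ∃ e x y : F[X], e.Monic ∧ Squarefree e ∧ v₁ - v₂ = e * x ∧ v₁ + v₂ = e * y ∧ e ∣ Wr x y ∧
      (∀ P : F[X], Irreducible P → P ∣ e → ¬ (P ∣ x ∧ P ∣ y)) ∧
      c.natDegree ≤ e.natDegree + (cpart (e * x)).natDegree + (cpart (e * y)).natDegree

/-- **M5** (uses B0, B1, G0, F4, CP, M1, M2, M4) `∑_{f ∈ MON (2g+1)} (XX g f)² ≤ 6 q^{2g+1} + q³ TT g` for `g ≥ 1`.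
Proof: the left side counts `(f, v₁, v₂)`, `v_i` squarefree of degree `g-1`, both solutions for `f`.  `v₂ = ± v₁`: at most
`2 ∑ #sol f ≤ 6 q^{2g+1}` (F4).  Otherwise `Wr := Wr v₁ v₂ ≠ 0` by G0.  Let `(v₁, v₂)` be a pair having some common `f`; by M1 and M4
(`c = cpart Wr`) there are `e, x, y` with `u = v₁ - v₂ = e x ≠ 0`, `w = v₁ + v₂ = e y ≠ 0`, `m = deg e`; `m < g`, `x, y ∈ POLz (g-m)`,
`Cnd e x y` (`e² Wr x y = Wr u w = 2 Wr v₁ v₂ ≠ 0`).  `(v₁, v₂)` is determined by `(e, x, y)`: `v₁ = -(u+w)`, `v₂ = u - w`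
(`1/2 = -1`).  M2 with `n = 2g+1`: the number of `f` is at most `q^{⌊(2g - deg Wr)/3⌋ + deg c + 1}` (`deg Wr ≤ 2 g`).  By M1
`2 g - deg Wr ≤ 4 g - deg Mo = 2 g + 2 - deg u - deg w = A + B + 4`, `A = g-1-deg u`, `B = g-1-deg w` (`Mo = - v₁ v₂ u w`), so
`⌊(2g - deg Wr)/3⌋ ≤ ⌊A/3⌋ + ⌊B/3⌋ + 2`, and `A = (g-m) - 1 - deg x`.  So the number of `f` is at most
`q³ · q^m · Rz (g-m) e x · Rz (g-m) e y`. -/
def S_M5 : Prop :=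
  ∀ g : ℕ, 1 ≤ g → ∑ f ∈ MON F (2 * g + 1), (XX F g f : ℝ) ^ 2 ≤ 6 * qq F ^ (2 * g + 1) + qq F ^ 3 * TT F g

/-! ## Bounding `TT` -/

/-- **DB** (uses B0) divisor bound: for every `δ > 0` there is `C` with `tau W ≤ C q^{δ deg W}` for all `W ≠ 0` (real power).
Proof: `W = u ∏ P^{k_P}`, `tau W = ∏ (k_P + 1)`, `q^{deg W} = ∏ q^{k_P deg P}`.  If `q^{δ deg P} ≥ 2` then `k + 1 ≤ 2^k ≤ q^{δ k deg P}`.
There are finitely many `P` (monic irreducible) with `q^{δ deg P} < 2`, each has a constant `C_P` with `k + 1 ≤ C_P q^{δ k deg P}` for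
all `k`; `C = ∏ max (1, C_P)`. -/
def S_DB : Prop :=
  ∀ δ : ℝ, 0 < δ → ∃ Cst : ℝ, 0 < Cst ∧ ∀ W : F[X], W ≠ 0 → (tau W : ℝ) ≤ Cst * qq F ^ (δ * (W.natDegree : ℝ))

/-- **Y1** (uses B2) `e` monic squarefree, coprime to `x`, `e ∣ Wr x y`: there is `A` of degree `< deg e` with `e² ∣ y - x A³`.
Proof: let `z x ≡ 1` mod `e²`; B2 (first part, `V = e`, `r = z y`) gives `A, B` with `y ≡ x (A³ + X B³)` mod `e²`.  Then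
`Wr x y = x' y - x y' ≡ - x² B³` mod `e`, so `e ∣ B³`, `e ∣ B`, `e³ ∣ B³` and `y ≡ x A³` mod `e²`. -/
def S_Y1 : Prop :=
  ∀ e x y : F[X], e.Monic → Squarefree e → IsCoprime e x → e ∣ Wr x y →
    ∃ A : F[X], A.degree < e.degree ∧ e ^ 2 ∣ y - x * A ^ 3

/-- **Y2** (uses B0) coprime monic `a, b`: at most `q^{d+1}/q^{deg a + deg b} + 1` polynomials `y` of degree exactly `d` have `a ∣ y` and
`b ∣ y - r`.  Proof: two of them differ by a multiple of `a b` of degree `≤ d`. -/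
def S_Y2 : Prop :=
  ∀ (d : ℕ) (a b r : F[X]), a.Monic → b.Monic → IsCoprime a b →
    (((DEG F d).filter (fun y => a ∣ y ∧ b ∣ y - r)).card : ℝ) ≤ qq F ^ (d + 1) / qq F ^ (a.natDegree + b.natDegree) + 1

/-- **Y3** (uses B0) sums: (1) for `e` monic squarefree and `b` monic write `γ = gcd(b, e)` monic, `e = γ e₂`, `b = γ b₁`; then `e₂` is
coprime to `b`, and `b³ ∣ e y` iff `γ² b₁³ ∣ y`.  (2) `∑_{b monic, deg b ≤ M} q^{2 deg gcd(b,e)} / q^{2 deg b} ≤ (3/2) tau e`, in the form: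
for any function `γ` of `b` with `γ b` monic dividing `b` and `e`:
Proof of (2): at most `∑_{γ ∣ e} ∑_{b₁} q^{2 deg γ}/q^{2 deg γ + 2 deg b₁} ≤ tau e ∑_j q^j q^{-2j}`, and `∑_j q^{-j} ≤ 3/2`.
(3) `∑_{d < Z} q^{⌊(Z-1-d)/3⌋} q^{d+1} ≤ 2 q^Z`. -/
def S_Y3 : Prop :=
  (∀ e b : F[X], e.Monic → Squarefree e → b.Monic → ∃ γ e₂ b₁ : F[X], γ.Monic ∧ e₂.Monic ∧ b₁.Monic ∧ e = γ * e₂ ∧ b = γ * b₁ ∧
    IsCoprime e₂ b ∧ ∀ y : F[X], b ^ 3 ∣ e * y ↔ γ ^ 2 * b₁ ^ 3 ∣ y) ∧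
  (∀ (M : ℕ) (e : F[X]) (γ : F[X] → F[X]), e.Monic → (∀ b : F[X], b.Monic → (γ b).Monic ∧ γ b ∣ b ∧ γ b ∣ e) →
    ∑ k ∈ Finset.range (M + 1), ∑ b ∈ MON F k, qq F ^ (2 * (γ b).natDegree) / qq F ^ (2 * k) ≤ 3 / 2 * (tau e : ℝ)) ∧
  (∀ Z : ℕ, ∑ d ∈ Finset.range Z, qq F ^ ((Z - 1 - d) / 3) * qq F ^ (d + 1) ≤ 2 * qq F ^ Z)

/-- **YY** (uses B0, CP, Y1, Y2, Y3) `e = h e'` monic squarefree of degree `m < g`, `Z = g - m`, `x ≠ 0`, `h ∣ x`, `e'` coprime to `x`: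
`∑_{y ∈ POLz Z, Cnd e x y} Rz Z e y ≤ 3 tau(e) q^Z q^{deg h} / q^m + 2 g q^{⌊2g/3⌋ + m}`.
Proof: `q^{deg cpart (e y)} ≤ ∑_{b monic, b³ ∣ e y} q^{deg b}`.  So the sum is at most
`∑_{d < Z} ∑_b q^{⌊(Z-1-d)/3⌋} q^{deg b} #{y ∈ DEG d : b³ ∣ e y, Cnd e x y}`.  Let `γ = gcd (b, e)`, `e = γ e₂`, `b = γ b₁` (Y3 (1)); `b³ ∣ e y`
iff `b* := γ² b₁³ ∣ y`.  A prime `P ∣ γ` divides `y`; if it divided `h` it would divide `x`, against `Cnd`; so `γ` is coprime to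
`h`, `γ ∣ e'`, `e' = γ e''`, `e''` coprime to `b` (divides `e₂`).  By Y1 (`e'` in place of `e`) `y ≡ x A³` mod `e'²`, `deg A < deg e'`; `γ ∣ y`
gives `γ ∣ A³`, `γ ∣ A`: there are at most `q^{deg e''}` possible `A`, and for each of them Y2 with `a = b*`, `b = e''²` gives at most
`q^{d+1}/(q^{deg b*} q^{2 deg e''}) + 1` possible `y`.  If there is any `y` then `deg b* ≤ d`.
Main part: `∑_d q^{⌊(Z-1-d)/3⌋} q^{d+1} ≤ 2 q^Z` (Y3 (3)) times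
`∑_b q^{deg b} q^{deg e''}/(q^{deg b*} q^{2 deg e''}) = (q^{deg h}/q^m) ∑_b q^{2 deg γ}/q^{2 deg b} ≤ (q^{deg h}/q^m) (3/2) tau e`
(`deg b* = 3 deg b - deg γ`, `deg e'' = m - deg h - deg γ`).  Part from `+ 1`: `deg b = β`, `3 β ≤ d + deg γ ≤ d + m`,
`∑_{β ≤ (d+m)/3} q^{2β} ≤ 2 q^{2⌊(d+m)/3⌋}`, `q^{deg e''} ≤ q^m`, and `2⌊(d+m)/3⌋ + ⌊(Z-1-d)/3⌋ + m ≤ ⌊2g/3⌋ + m`; at most `g` values
of `d`. -/
def S_YY : Prop :=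
  ∀ (g m : ℕ) (e h e' x : F[X]), m < g → e.Monic → h.Monic → e'.Monic → Squarefree e → e.natDegree = m → e = h * e' → h ∣ x →
    IsCoprime e' x → x ≠ 0 →
    ∑ y ∈ (POLz F (g - m)).filter (fun y => Cnd e x y), Rz (g - m) e y ≤
      3 * (tau e : ℝ) * qq F ^ (g - m) * qq F ^ h.natDegree / qq F ^ m + 2 * g * qq F ^ (2 * g / 3 + m)

/-- **X0** (uses B0, CP, Y3) `e` monic squarefree: `∑_{x ∈ POLz Z} Rz Z e x ≤ 3 tau(e) q^Z`; and for `h ∣ e` monic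
`∑_{x ∈ POLz Z, h² ∣ x} Rz Z e x ≤ 3 tau(e) q^Z / q^{deg h}`.
Proof: `q^{deg cpart (e x)} ≤ ∑_{b³ ∣ e x} q^{deg b}`; with Y3 (1) `b³ ∣ e x` iff `γ² b₁³ ∣ x`, at most `(q-1) q^{d - 3 deg b + deg γ}` of the `x`
of degree `d`; `∑_b q^{deg b} q^{-3 deg b + deg γ} ≤ ∑_b q^{2 deg γ}/q^{2 deg b} ≤ (3/2) tau e`; `(q-1) q^d ≤ q^{d+1}` and Y3 (3).
Second: `x = h² x₁`, `e = h e'`, `e x = h³ e' x₁`, `cpart (h³ y) = h cpart y`, so the sum is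
`q^{deg h} ∑_{x₁ ∈ POLz (Z - 2 deg h)} Rz (Z - 2 deg h) e' x₁ ≤ q^{deg h} 3 tau(e') q^{Z - 2 deg h}`, `tau e' ≤ tau e` (empty if
`Z ≤ 2 deg h`). -/
def S_X0 : Prop :=
  (∀ (Z : ℕ) (e : F[X]), e.Monic → Squarefree e → ∑ x ∈ POLz F Z, Rz Z e x ≤ 3 * (tau e : ℝ) * qq F ^ Z) ∧
  (∀ (Z : ℕ) (e h : F[X]), e.Monic → Squarefree e → h.Monic → h ∣ e →
    ∑ x ∈ (POLz F Z).filter (fun x => h ^ 2 ∣ x), Rz Z e x ≤ 3 * (tau e : ℝ) * qq F ^ Z / qq F ^ h.natDegree)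

/-- **TS** (uses B0, YY, X0) `e ∈ MON m` squarefree, `m < g`:
`TT1 (g-m) e ≤ 9 tau(e)³ q^{2(g-m)}/q^m + 6 g tau(e)² q^{g + ⌊2g/3⌋}`.
Proof: for `x` having some `y` with `Cnd e x y` let `h = gcd (e, x)` monic, `e = h e'`; `e'` is coprime to `x` (`e` squarefree).  `h² ∣ x`:
for a prime `P ∣ h`: `P ∤ y`, `P ∣ Wr x y = x' y - x y'`, so `P ∣ x'`, and `P ∣ x`, `P ∣ x'` give `P² ∣ x` (`P ∤ P'` as `P` is separable).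
So `TT1 ≤ ∑_{h ∣ e monic} ∑_{x ∈ POLz, h² ∣ x} Rz x (3 tau q^{g-m} q^{deg h}/q^m + 2 g q^{⌊2g/3⌋+m})` (YY), and X0 (second part). -/
def S_TS : Prop :=
  ∀ (g m : ℕ) (e : F[X]), m < g → e ∈ MON F m → Squarefree e →
    TT1 F (g - m) e ≤ 9 * (tau e : ℝ) ^ 3 * qq F ^ (2 * (g - m)) / qq F ^ m + 6 * g * (tau e : ℝ) ^ 2 * qq F ^ (g + 2 * g / 3)

/-- **TL** (uses B0, CP, DB) for every `δ > 0` there is `C` with
`∑_{e ∈ MON m squarefree} TT1 (g-m) e ≤ C (g+1)⁴ q^{2(g-m)} q^{2 δ g}` for all `m < g`.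
Proof: for `e` squarefree `a = cpart (e x)` satisfies `a² ∣ x` (`3 v_P(a) ≤ v_P(x) + 1`), so
`q^{deg cpart (e x)} ≤ S(x) := ∑_{a monic, a² ∣ x} q^{deg a}`.  Swapping, the sum is at most
`∑_{x, y ∈ POLz Z, Wr x y ≠ 0} #{e ∈ MON m : e ∣ Wr x y} w(x) w(y)`, `w(x) = q^{⌊(Z-1-deg x)/3⌋} S(x)`, `Z = g - m`; the number of `e` is at most
`tau (Wr x y) ≤ C q^{δ deg Wr} ≤ C q^{2 δ g}` (DB).  And `∑_{x ∈ DEG d} S(x) ≤ ∑_{2α ≤ d} q^α q^α (q-1) q^{d-2α} ≤ (d+1) q^{d+1}`, so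
`∑_{x ∈ POLz Z} w(x) ≤ ∑_{d < Z} (d+1) q^{d+1+⌊(Z-1-d)/3⌋} ≤ g² q^Z`. -/
def S_TL : Prop :=
  ∀ δ : ℝ, 0 < δ → ∃ Cst : ℝ, 0 < Cst ∧ ∀ g m : ℕ, m < g →
    ∑ e ∈ (MON F m).filter (fun e => Squarefree e), TT1 F (g - m) e ≤
      Cst * (g + 1) ^ 4 * qq F ^ (2 * (g - m)) * qq F ^ (2 * δ * (g : ℝ))

/-- **TT** (uses B0, DB, TS, TL) `TT g ≤ C q^{2g}`.
Proof: `m` with `10 m ≥ g`: TL with `δ = 1/40`: `q^m C (g+1)⁴ q^{2g-2m} q^{g/20} ≤ C (g+1)⁴ q^{2g - g/10 + g/20}`, at most `g` such `m`, and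
`(g+1)⁵ q^{-g/20}` is bounded.  `10 m < g`: TS, `#MON m = q^m`, `tau³ ≤ C q^{m/2}`, `tau² ≤ C q^{m/3}` (DB, `δ = 1/6`):
`q^{2m} (9 C q^{m/2} q^{2g-3m} + 6 g C q^{m/3} q^{g + 2g/3}) ≤ 9 C q^{2g} q^{-m/2} + 6 g C q^{2g - g/10}`
(`2m + m/3 + 5g/3 ≤ 57 g/30`). -/
def S_TT : Prop :=
  ∃ Cst : ℝ, 0 < Cst ∧ ∀ g : ℕ, TT F g ≤ Cst * qq F ^ (2 * g)

/-- **RP** (uses B0, B1, A9, PP1, M5, TT) a positive proportion: by Cauchy-Schwarz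
`(∑_{SQF} XX)² ≤ #{f ∈ SQF : XX f ≠ 0} ∑_{MON} XX²`, PP1 below, M5 and TT above; `XX f ≠ 0` gives a nonzero solution, so
`cl3 f = #sol f ≥ 2` (A9). -/
def S_RP : Prop :=
  ∃ c : ℝ, 0 < c ∧ ∃ g₀ : ℕ, ∀ g ≥ g₀, c * ((SQF F (2 * g + 1)).card : ℝ) ≤
      (((SQF F (2 * g + 1)).filter (fun f => 1 < cl3 f)).card : ℝ)

end DH
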