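import Pool.Agent.H463.DH.Stm

open Polynomial
open scoped Classical

noncomputable section

namespace DH

namespace XA1

variable {F : Type} [Field F] [Fintype F] [CharP F 3]

lemma three : (3 : F[X]) = 0 := by
  have h : ((3 : ℕ) : F[X]) = 0 := CharP.cast_eq_zero F[X] 3
  exact_mod_cast h

lemma third (g : F[X]) : derivative (derivative (derivative g)) = 0 := by
  have h1 := congrFun (Polynomial.factorial_smul_hasseDeriv (R := F) 3) g
  have h2 : (derivative : F[X] → F[X])^[3] g = derivative (derivative (derivative g)) := rfl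
  rw [h2] at h1
  rw [← h1]
  have h3 : (Nat.factorial 3) = 6 := rfl
  rw [h3]
  have h4 : ((6 : ℕ) • (Polynomial.hasseDeriv (R := F) 3)) g =
      (6 : ℕ) • (Polynomial.hasseDeriv (R := F) 3 g) := rfl
  have h5 : (6 : ℕ) • (Polynomial.hasseDeriv (R := F) 3 g) =
      (3 : F[X]) * (2 * Polynomial.hasseDeriv (R := F) 3 g) := by
    rw [nsmul_eq_mul]
    push_cast
    ring
  rw [h4, h5, three, zero_mul]

lemma add3 (f : F[X]) (z : OO f) : z + (z + z) = 0 := by
  have h := three (F := F)
  ext1
  · rw [QuadraticAlgebra.re_add, QuadraticAlgebra.re_add, QuadraticAlgebra.re_zero]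
    linear_combination z.re * h
  · rw [QuadraticAlgebra.im_add, QuadraticAlgebra.im_add, QuadraticAlgebra.im_zero]
    linear_combination z.im * h

lemma dadd (f : F[X]) (x y : OO f) : dl f (x + y) = dl f x + dl f y := by
  ext1
  · simp only [dl, QuadraticAlgebra.re_add, QuadraticAlgebra.im_add, map_add]
    ring
  · simp only [dl, QuadraticAlgebra.re_add, QuadraticAlgebra.im_add, map_add]

lemma dmul (f : F[X]) (x y : OO f) : dl f (x * y) = x * dl f y + y * dl f x := by
  have h := three (F := F)
  ext1
  · simp only [dl, QuadraticAlgebra.re_add, QuadraticAlgebra.im_add, QuadraticAlgebra.re_mul,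
      QuadraticAlgebra.im_mul, map_add, derivative_mul, zero_mul, add_zero]
    ring
  · simp only [dl, QuadraticAlgebra.re_add, QuadraticAlgebra.im_add, QuadraticAlgebra.re_mul,
      QuadraticAlgebra.im_mul, map_add, derivative_mul, zero_mul, add_zero]
    linear_combination (derivative f * x.im * y.im) * h

lemma dcube (f : F[X]) (x : OO f) : dl f (x ^ 3) = 0 := by
  have e : x ^ 3 = x * (x * x) := by ring
  rw [e, dmul, dmul]
  have h := add3 f (x * x * dl f x)
  calc _ = x * x * dl f x + (x * x * dl f x + x * x * dl f x) := by ring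
    _ = 0 := h

lemma d3 (f : F[X]) (x : OO f) :
    dl f (dl f (dl f x)) = - cc f (derivative (derivative f)) * dl f x := by
  have h := three (F := F)
  ext1
  · simp only [dl, cc, QuadraticAlgebra.re_neg, QuadraticAlgebra.im_neg, QuadraticAlgebra.re_mul,
      QuadraticAlgebra.im_mul, map_add, map_sub, derivative_mul, third, zero_mul, add_zero,
      neg_zero, mul_zero]
    ring
  · simp only [dl, cc, QuadraticAlgebra.re_neg, QuadraticAlgebra.im_neg, QuadraticAlgebra.re_mul,
      QuadraticAlgebra.im_mul, map_add, map_sub, derivative_mul, third, zero_mul, add_zero,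
      neg_zero, mul_zero]
    ring

end XA1

theorem p_A1 (F : Type) [Field F] [Fintype F] [CharP F 3] : S_A1 F := by
  intro f
  refine ⟨XA1.dadd f, XA1.dmul f, XA1.dcube f, ?_, XA1.d3 f, ?_⟩
  · intro x y
    rw [XA1.dmul, XA1.dcube, mul_zero, add_zero]
  · intro v
    ext1
    · simp [dl, cc]
    · simp [dl, cc]

end DH
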