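import Pool.Agent.H463.DH.Stm

open Polynomial
open scoped Classical

noncomputable section

namespace DH

namespace XA2

lemma norm_eq {F : Type} [Field F] (f : F[X]) (x : OO f) :
    QuadraticAlgebra.norm x = x.re * x.re - f * x.im * x.im := by
  rw [QuadraticAlgebra.norm_def]
  ring

lemma natDegree_left {F : Type} [Field F] (a : F[X]) : Even (a * a).natDegree := by
  by_cases h : a = 0
  · subst h; simp
  · rw [natDegree_mul h h]
    exact ⟨_, rfl⟩

lemma natDegree_right {F : Type} [Field F] {f b : F[X]} (hf : Odd f.natDegree) (hb : b ≠ 0) :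
    Odd (f * b * b).natDegree := by
  have hf0 : f ≠ 0 := by
    intro h
    subst h
    simp at hf
  rw [natDegree_mul (mul_ne_zero hf0 hb) hb, natDegree_mul hf0 hb, add_assoc]
  exact hf.add_even ⟨_, rfl⟩

lemma norm_natDegree {F : Type} [Field F] {f a b : F[X]} (hf : Odd f.natDegree) (hb : b ≠ 0) :
    (f * b * b).natDegree ≤ (a * a - f * b * b).natDegree := by
  have h1 := natDegree_left a
  have h2 := natDegree_right hf hb
  rcases lt_trichotomy (a * a).natDegree (f * b * b).natDegree with h | h | h
  · rw [natDegree_sub_eq_right_of_natDegree_lt h]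
  · exfalso
    rw [h] at h1
    exact (Nat.not_even_iff_odd.mpr h2) h1
  · rw [natDegree_sub_eq_left_of_natDegree_lt h]
    exact h.le

lemma norm_zero_iff {F : Type} [Field F] {f : F[X]} (hf : Odd f.natDegree) (x : OO f)
    (h : QuadraticAlgebra.norm x = 0) : x = 0 := by
  rw [norm_eq] at h
  by_cases hb : x.im = 0
  · rw [hb] at h
    simp only [mul_zero, sub_zero, mul_self_eq_zero] at h
    exact QuadraticAlgebra.ext h hb
  · exfalso
    have h1 := norm_natDegree (a := x.re) hf hb
    rw [h] at h1
    have h2 := natDegree_right hf hb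
    simp only [natDegree_zero, nonpos_iff_eq_zero] at h1
    rw [h1] at h2
    simp at h2

end XA2

open XA2 in
theorem p_A2 (F : Type) [Field F] [Fintype F] [CharP F 3] : S_A2 F := by
  intro f hf
  have hodd := hf.2.2
  refine ⟨?_, ?_⟩
  · have hnz : NoZeroDivisors (OO f) := by
      constructor
      intro x y hxy
      have h1 : QuadraticAlgebra.norm x * QuadraticAlgebra.norm y = 0 := by
        rw [← map_mul, hxy, QuadraticAlgebra.norm_zero]
      rcases mul_eq_zero.mp h1 with h | h
      · exact Or.inl (norm_zero_iff hodd x h)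
      · exact Or.inr (norm_zero_iff hodd y h)
    exact NoZeroDivisors.to_isDomain _
  · intro u hu
    have h1 : IsUnit (QuadraticAlgebra.norm u) := QuadraticAlgebra.isUnit_iff_norm_isUnit.mp hu
    have h2 := natDegree_eq_zero_of_isUnit h1
    rw [norm_eq] at h1 h2
    by_cases hb : u.im = 0
    · rw [hb] at h1
      simp only [mul_zero, sub_zero] at h1
      have h3 : IsUnit u.re := isUnit_of_mul_isUnit_left h1
      obtain ⟨c, hc, hcu⟩ := Polynomial.isUnit_iff.mp h3
      refine ⟨c, hc.ne_zero, ?_⟩
      exact QuadraticAlgebra.ext hcu.symm hb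
    · exfalso
      have h3 := norm_natDegree (a := u.re) hodd hb
      rw [h2] at h3
      have h4 := natDegree_right hodd hb
      simp only [nonpos_iff_eq_zero] at h3
      rw [h3] at h4
      simp at h4

end DH
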