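import Pool.Agent.H463.DH.Stm

/-!
# A6: the solutions of `δ h = v h` generate the unit ideal (helper113)
-/

open Polynomial
open scoped Classical

noncomputable section

namespace DH

namespace XA6

theorem threeX (F : Type) [Field F] [CharP F 3] : (3 : F[X]) = 0 := by
  have h2 : ((3 : ℕ) : F[X]) = 0 := CharP.cast_eq_zero F[X] 3
  exact_mod_cast h2

theorem three (F : Type) [Field F] [CharP F 3] (f : F[X]) : (3 : OO f) = 0 := by
  have h1 := threeX F
  have h4 : (algebraMap F[X] (OO f)) 3 = 0 := by rw [h1, map_zero]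
  rw [← h4]
  exact (map_ofNat (algebraMap F[X] (OO f)) 3).symm

theorem third (F : Type) [Field F] [CharP F 3] (p : F[X]) :
    derivative (derivative (derivative p)) = 0 := by
  have h2 : ((3 : ℕ) : F) = 0 := CharP.cast_eq_zero F 3
  ext n
  simp only [coeff_derivative, coeff_zero]
  have h3 : ((n : F) + 1 + 1 + 1) * (((n : F) + 1 + 1) * ((n : F) + 1)) = 0 := by
    have h4 : (3 : F) = 0 := by exact_mod_cast h2
    have h5 : ∃ m : ℕ, (n + 1 + 1 + 1) * ((n + 1 + 1) * (n + 1)) = 3 * m := by
      rcases (by omega : n % 3 = 0 ∨ n % 3 = 1 ∨ n % 3 = 2) with h | h | h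
      · obtain ⟨j, hj⟩ : ∃ j, n = 3 * j := ⟨n / 3, by omega⟩
        exact ⟨(j + 1) * ((n + 1 + 1) * (n + 1)), by subst hj; ring⟩
      · obtain ⟨j, hj⟩ : ∃ j, n = 3 * j + 1 := ⟨n / 3, by omega⟩
        exact ⟨(n + 1 + 1 + 1) * ((j + 1) * (n + 1)), by subst hj; ring⟩
      · obtain ⟨j, hj⟩ : ∃ j, n = 3 * j + 2 := ⟨n / 3, by omega⟩
        exact ⟨(n + 1 + 1 + 1) * ((n + 1 + 1) * (j + 1)), by subst hj; ring⟩
    obtain ⟨m, hm⟩ := h5
    have h6 : (((n + 1 + 1 + 1) * ((n + 1 + 1) * (n + 1)) : ℕ) : F) = ((3 * m : ℕ) : F) := by rw [hm]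
    push_cast at h6
    rw [h6, h4, zero_mul]
  push_cast
  linear_combination (p.coeff (n + 1 + 1 + 1)) * h3

end XA6

theorem p_A6 (F : Type) [Field F] [Fintype F] [CharP F 3] (hA1 : S_A1 F) (hA5 : S_A5 F) : S_A6 F := by
  intro f hf v hv
  obtain ⟨a1, a2, -, -, a5, a6⟩ := hA1 f
  have h3 := XA6.three F f
  set g : OO f := cc f v with hg
  set c : OO f := cc f (derivative (derivative f)) with hc
  have hdc : dl f c = 0 := by
    rw [hc, a6, XA6.third]
    rfl
  have hsol : dl f (dl f g) + g ^ 3 + c * g = 0 := by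
    have e1 : dl f (dl f g) = cc f (derivative (derivative v) * f - derivative v * derivative f) := by
      rw [hg, a6]
      unfold dl cc
      simp
    have e2 : g ^ 3 = cc f (v ^ 3) := by
      rw [hg]
      unfold cc
      ext <;> simp [pow_succ]
    have e3 : c * g = cc f (derivative (derivative f) * v) := by
      rw [hc, hg]
      unfold cc
      ext <;> simp
    rw [e1, e2, e3]
    have h4 : derivative (derivative v) * f - derivative v * derivative f + v ^ 3 +
        derivative (derivative f) * v = 0 := by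
      have h5 : derivative (derivative (f * v)) = - v ^ 3 := hv
      simp only [derivative_mul, derivative_add] at h5
      have h6 := XA6.threeX F
      linear_combination h5 - derivative v * derivative f * h6
    have h7 : cc f (derivative (derivative v) * f - derivative v * derivative f) + cc f (v ^ 3) +
        cc f (derivative (derivative f) * v) = cc f (derivative (derivative v) * f -
        derivative v * derivative f + v ^ 3 + derivative (derivative f) * v) := by
      unfold cc
      ext <;> simp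
    rw [h7, h4]
    rfl
  have asub : ∀ x y : OO f, dl f (x - y) = dl f x - dl f y := fun x y =>
    (AddMonoidHom.mk' (dl f) a1).map_sub x y
  have hmem : ∀ x : OO f, dl f (dl f x) - (g * dl f x + g * dl f x) - dl f g * x + g * (g * x) + c * x ∈
      {h : OO f | dl f h = g * h} := by
    intro x
    show dl f (dl f (dl f x) - (g * dl f x + g * dl f x) - dl f g * x + g * (g * x) + c * x) =
      g * (dl f (dl f x) - (g * dl f x + g * dl f x) - dl f g * x + g * (g * x) + c * x)
    rw [a1, a1, asub, asub, a1, a5, a2 g (dl f x), a2 (dl f g) x, a2 g (g * x), a2 g x, a2 c x, hdc]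
    linear_combination (-g * dl f (dl f x) + g ^ 2 * dl f x + x * g * dl f g - dl f g * dl f x) * h3 - x * hsol
  by_contra hne
  obtain ⟨Q, hQ, hle⟩ := Ideal.exists_le_maximal _ hne
  obtain ⟨p, hp, hdp⟩ := hA5 f hf Q hQ
  have h4 := hle (Ideal.subset_span (hmem (p * p)))
  have e1 : dl f (p * p) = p * dl f p + p * dl f p := a2 p p
  have e2 : dl f (dl f (p * p)) = (p * dl f (dl f p) + dl f p * dl f p) + (p * dl f (dl f p) + dl f p * dl f p) := by
    rw [e1, a1, a2]
  rw [e2, e1] at h4
  have h5 : dl f p * dl f p ∈ Q := by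
    have h6 := Q.mul_mem_left 2 h4
    have h7 : p * (-(2 * (dl f (dl f p) + dl f (dl f p)) - 2 * (g * dl f p + g * dl f p + (g * dl f p + g * dl f p)) -
        2 * (dl f g * p) + 2 * (g * (g * p)) + 2 * (c * p))) ∈ Q := Q.mul_mem_right _ hp
    have h8 := Q.add_mem h6 h7
    have e3 : dl f p * dl f p = 2 * (p * dl f (dl f p) + dl f p * dl f p + (p * dl f (dl f p) + dl f p * dl f p) -
        (g * (p * dl f p + p * dl f p) + g * (p * dl f p + p * dl f p)) - dl f g * (p * p) + g * (g * (p * p)) +
        c * (p * p)) + p * (-(2 * (dl f (dl f p) + dl f (dl f p)) - 2 * (g * dl f p + g * dl f p +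
        (g * dl f p + g * dl f p)) - 2 * (dl f g * p) + 2 * (g * (g * p)) + 2 * (c * p))) := by
      linear_combination (-(dl f p * dl f p)) * h3
    rw [e3]
    exact h8
  rcases hQ.isPrime.mem_or_mem h5 with h6 | h6
  · exact hdp h6
  · exact hdp h6

end DH
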