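import Pool.Agent.H463.DH.Stm

/-!
# Cubes and solutions
-/

set_option autoImplicit false

open Polynomial
open scoped Classical

noncomputable section

namespace DH

namespace XB1

variable {F : Type} [Field F]

theorem cub [Fintype F] [CharP F 3] (G : F[X]) : derivative G = 0 ↔ ∃ A : F[X], G = A ^ 3 := by
  have : Fact (Nat.Prime 3) := ⟨Nat.prime_three⟩
  have : ExpChar F 3 := ExpChar.prime Nat.prime_three
  constructor
  · intro h
    have h1 : expand F 3 (contract 3 G) = G := expand_contract 3 h (by norm_num)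
    refine ⟨map ((frobeniusEquiv F 3).symm : F →+* F) (contract 3 G), ?_⟩
    rw [← map_frobenius_expand 3, map_expand, map_map]
    have h2 : (frobenius F 3).comp ((frobeniusEquiv F 3).symm : F →+* F) = RingHom.id F := by
      ext x
      show frobenius F 3 ((frobeniusEquiv F 3).symm x) = x
      exact frobenius_apply_frobeniusEquiv_symm F 3 x
    rw [h2, map_id, h1]
  · rintro ⟨A, rfl⟩
    rw [derivative_pow]
    have h3 : ((3 : ℕ) : F) = 0 := CharP.cast_eq_zero F 3
    rw [h3, C_0, zero_mul, zero_mul]

theorem three [CharP F 3] : ((3 : ℕ) : F) = 0 := CharP.cast_eq_zero F 3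

theorem cast_zero_iff [CharP F 3] (n : ℕ) : ((n : ℕ) : F) = 0 ↔ 3 ∣ n := CharP.cast_eq_zero_iff F 3 n

theorem coeff2 (G : F[X]) (n : ℕ) : (derivative (derivative G)).coeff n =
    G.coeff (n + 2) * (((n + 2) * (n + 1) : ℕ) : F) := by
  rw [coeff_derivative, coeff_derivative]
  push_cast
  ring

theorem dd_zero [CharP F 3] (G : F[X]) : derivative (derivative G) = 0 ↔
    ∀ i, i % 3 = 2 → G.coeff i = 0 := by
  constructor
  · intro h i hi
    obtain ⟨n, rfl⟩ : ∃ n, i = n + 2 := ⟨i - 2, by omega⟩
    have h1 := coeff2 G n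
    rw [h, coeff_zero] at h1
    rcases mul_eq_zero.1 h1.symm with h2 | h2
    · exact h2
    · rw [cast_zero_iff] at h2
      rcases (Nat.Prime.dvd_mul Nat.prime_three).1 h2 with h3 | h3 <;> omega
  · intro h
    ext n
    rw [coeff2, coeff_zero]
    by_cases hn : (n + 2) % 3 = 2
    · rw [h _ hn, zero_mul]
    · have : (((n + 2) * (n + 1) : ℕ) : F) = 0 := by
        rw [cast_zero_iff]
        have h3 : 3 ∣ n + 2 ∨ 3 ∣ n + 1 := by omega
        rcases h3 with h3 | h3
        · exact Dvd.dvd.mul_right h3 _
        · exact Dvd.dvd.mul_left h3 _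
      rw [this, mul_zero]

theorem ddd_zero [CharP F 3] (G : F[X]) : derivative (derivative (derivative G)) = 0 := by
  ext n
  rw [coeff2, coeff_derivative, coeff_zero]
  have : (((n + 2 : ℕ) : F) + 1) * (((n + 2) * (n + 1) : ℕ) : F) = 0 := by
    have h1 : (((n + 2 : ℕ) : F) + 1) * (((n + 2) * (n + 1) : ℕ) : F) =
        (((n + 3) * ((n + 2) * (n + 1)) : ℕ) : F) := by
      push_cast
      ring
    rw [h1, cast_zero_iff]
    have h3 : 3 ∣ n + 3 ∨ 3 ∣ n + 2 ∨ 3 ∣ n + 1 := by omega
    rcases h3 with h3 | h3 | h3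
    · exact Dvd.dvd.mul_right h3 _
    · exact Dvd.dvd.mul_left (Dvd.dvd.mul_right h3 _) _
    · exact Dvd.dvd.mul_left (Dvd.dvd.mul_left h3 _) _
  rw [mul_assoc, this, mul_zero]

theorem cnt_mod (M : ℕ) : ((Finset.range M).filter (fun j => j % 3 ≠ 2)).card = NN M := by
  unfold NN
  induction M with
  | zero => simp
  | succ M ih =>
    rw [Finset.range_add_one, Finset.filter_insert]
    split_ifs with h
    · rw [Finset.card_insert_of_notMem (by simp), ih]
      omega
    · rw [ih]
      omega

theorem count [Fintype F] [CharP F 3] (_hB0 : S_B0 F) (M : ℕ) :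
    ((POL F M).filter (fun G => derivative (derivative G) = 0)).card = Fintype.card F ^ NN M := by
  have hc : ∀ (c : Fin M → F) (j : ℕ), (∑ i : Fin M, C (c i) * X ^ (i : ℕ)).coeff j =
      if h : j < M then c ⟨j, h⟩ else 0 := by
    intro c j
    rw [finsetSum_coeff]
    simp only [coeff_C_mul, coeff_X_pow]
    split_ifs with h
    · rw [Finset.sum_eq_single (⟨j, h⟩ : Fin M)]
      · simp
      · intro b _ hb
        have : j ≠ (b : ℕ) := fun h' => hb (Fin.ext h'.symm)
        rw [if_neg this, mul_zero]
      · intro h'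
        exact absurd (Finset.mem_univ _) h'
    · apply Finset.sum_eq_zero
      intro b _
      have : j ≠ (b : ℕ) := fun h' => h (h' ▸ b.2)
      rw [if_neg this, mul_zero]
  have hset : (POL F M).filter (fun G => derivative (derivative G) = 0) =
      (Fintype.piFinset (fun i : Fin M => if (i : ℕ) % 3 = 2 then ({0} : Finset F)
        else Finset.univ)).image (fun c => ∑ i : Fin M, C (c i) * X ^ (i : ℕ)) := by
    ext G
    simp only [POL, Finset.mem_filter, Finset.mem_image, Finset.mem_univ, true_and,
      Fintype.mem_piFinset]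
    constructor
    · rintro ⟨⟨c, rfl⟩, h⟩
      refine ⟨c, ?_, rfl⟩
      intro i
      split_ifs with hi
      · rw [Finset.mem_singleton]
        have h1 := (dd_zero _).1 h i hi
        rw [hc, dif_pos i.2] at h1
        exact h1
      · exact Finset.mem_univ _
    · rintro ⟨c, hcc, rfl⟩
      refine ⟨⟨c, rfl⟩, ?_⟩
      rw [dd_zero]
      intro i hi
      rw [hc]
      split_ifs with h
      · have h1 := hcc ⟨i, h⟩
        rw [if_pos hi, Finset.mem_singleton] at h1
        exact h1
      · rfl
  have hinj : Function.Injective (fun c : Fin M → F => ∑ i : Fin M, C (c i) * X ^ (i : ℕ)) := by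
    intro c c' h
    funext i
    have h1 := congrArg (fun P : F[X] => P.coeff (i : ℕ)) h
    simp only [hc, dif_pos i.2] at h1
    exact h1
  rw [hset, Finset.card_image_of_injective _ hinj, Fintype.card_piFinset]
  have h1 : ∀ i : Fin M, (if (i : ℕ) % 3 = 2 then ({0} : Finset F) else Finset.univ).card =
      if (i : ℕ) % 3 ≠ 2 then Fintype.card F else 1 := by
    intro i
    by_cases h : (i : ℕ) % 3 = 2
    · rw [if_pos h, if_neg (by omega)]
      simp
    · rw [if_neg h, if_pos h, Finset.card_univ]
  rw [Finset.prod_congr rfl (fun i _ => h1 i),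
    Fin.prod_univ_eq_prod_range (fun i => if i % 3 ≠ 2 then Fintype.card F else 1) M,
    Finset.prod_ite, Finset.prod_const, Finset.prod_const_one, mul_one, cnt_mod]

theorem sol_ne {f v : F[X]} (hv : v ≠ 0) (h : IsSol f v) :
    derivative (derivative (f * v)) ≠ 0 := by
  unfold IsSol at h
  rw [h]
  exact neg_ne_zero.2 (pow_ne_zero 3 hv)

theorem sol_deg {f v : F[X]} (_hv : v ≠ 0) (h : IsSol f v) :
    (derivative (derivative (f * v))).natDegree = 3 * v.natDegree := by
  unfold IsSol at h
  rw [h, natDegree_neg, natDegree_pow]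

theorem deg_fv {f v : F[X]} (hv : v ≠ 0) (h : IsSol f v) :
    (f * v).natDegree = f.natDegree + v.natDegree := by
  have h1 := sol_ne hv h
  have hf : f ≠ 0 := by
    intro h2
    rw [h2, zero_mul] at h1
    simp at h1
  exact natDegree_mul hf hv

theorem bound {f v : F[X]} (hv : v ≠ 0) (h : IsSol f v) :
    2 * v.natDegree + 2 ≤ f.natDegree := by
  have h1 := sol_ne hv h
  have h2 := sol_deg hv h
  have h3 := deg_fv hv h
  have h4 : derivative (f * v) ≠ 0 := by
    intro h5
    rw [h5] at h1
    simp at h1
  have h5 : (f * v).natDegree ≠ 0 := by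
    intro h6
    exact h4 (derivative_of_natDegree_zero h6)
  have h6 : (derivative (f * v)).natDegree ≠ 0 := by
    intro h7
    exact h1 (derivative_of_natDegree_zero h7)
  have h7 := natDegree_derivative_lt h5
  have h8 := natDegree_derivative_lt h6
  omega

theorem exact_deg [CharP F 3] {f v : F[X]} (hv : v ≠ 0) (h : IsSol f v)
    (h3 : (f.natDegree + v.natDegree) % 3 = 2) : f.natDegree = 2 * v.natDegree + 2 := by
  have hb := bound hv h
  have hd := sol_deg hv h
  have hfv := deg_fv hv h
  obtain ⟨n, hn⟩ : ∃ n, f.natDegree + v.natDegree = n + 2 :=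
    ⟨f.natDegree + v.natDegree - 2, by omega⟩
  have hfv0 : f * v ≠ 0 := by
    intro h5
    have := sol_ne hv h
    rw [h5] at this
    simp at this
  have hco : (derivative (derivative (f * v))).coeff n ≠ 0 := by
    rw [coeff2]
    apply mul_ne_zero
    · rw [← hn, ← hfv]
      exact leadingCoeff_ne_zero.2 hfv0
    · intro h5
      rw [cast_zero_iff] at h5
      rcases (Nat.Prime.dvd_mul Nat.prime_three).1 h5 with h6 | h6 <;> omega
  have h5 := le_natDegree_of_ne_zero hco
  rw [hd] at h5
  omega

end XB1

open XB1 in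
theorem p_B1 (F : Type) [Field F] [Fintype F] [CharP F 3] (hB0 : S_B0 F) : S_B1 F := by
  have hsol : ∀ f v : F[X], v ∈ sol f ↔ IsSol f v := by
    intro f v
    unfold sol
    rw [Finset.mem_filter, hB0.1]
    constructor
    · exact fun h => h.2
    · intro h
      refine ⟨?_, h⟩
      by_cases hv : v = 0
      · rw [hv, degree_zero]
        exact WithBot.bot_lt_coe _
      · have hb := bound hv h
        rw [degree_eq_natDegree hv]
        exact_mod_cast (by omega : v.natDegree < f.natDegree)
  have hsolz : ∀ f v : F[X], v ∈ solz f ↔ v ≠ 0 ∧ IsSol f v := by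
    intro f v
    have h1 := hsol f v
    unfold sol at h1
    unfold solz
    rw [Finset.mem_filter] at h1 ⊢
    tauto
  refine ⟨cub, ?_, ddd_zero, count hB0, fun f v => bound, hsol, hsolz, ?_, fun f v => exact_deg⟩
  · intro G
    constructor
    · intro h
      obtain ⟨B, hB⟩ := (cub (derivative G)).1 h
      have hB3 : derivative (B ^ 3) = 0 := (cub _).2 ⟨B, rfl⟩
      obtain ⟨A, hA⟩ := (cub (G - X * B ^ 3)).1 (by
        rw [derivative_sub, derivative_mul, derivative_X, hB3, hB]
        ring)
      exact ⟨A, B, by rw [← hA]; ring⟩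
    · rintro ⟨A, B, rfl⟩
      have hB3 : derivative (B ^ 3) = 0 := (cub _).2 ⟨B, rfl⟩
      have hA3 : derivative (A ^ 3) = 0 := (cub _).2 ⟨A, rfl⟩
      rw [derivative_add, derivative_mul, derivative_X, hA3, hB3]
      simp [hB3]
  · intro f
    have h0 : sol f = insert 0 (solz f) := by
      ext v
      rw [Finset.mem_insert, hsol, hsolz]
      constructor
      · intro h
        by_cases hv : v = 0
        · exact Or.inl hv
        · exact Or.inr ⟨hv, h⟩
      · rintro (h | h)
        · rw [h]
          unfold IsSol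
          simp
        · exact h.2
    rw [h0, Finset.card_insert_of_notMem]
    rw [hsolz]
    tauto

end DH
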