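import Pool.Agent.H463.DH.Stm

/-!
# B2: `A³ + X B³` represents every residue class modulo `V²`, `V` squarefree
-/

open Polynomial
open scoped Classical

noncomputable section

namespace DH

namespace XB2

variable {F : Type} [Field F]

theorem three_eq [CharP F 3] : (3 : F[X]) = 0 := by
  have h := CharP.cast_eq_zero F[X] 3
  exact_mod_cast h

theorem cube_sub [CharP F 3] (a b : F[X]) : (a - b) ^ 3 = a ^ 3 - b ^ 3 := by
  linear_combination (-(a ^ 2 * b) + a * b ^ 2) * three_eq (F := F)

theorem der_cube [CharP F 3] (a : F[X]) : derivative (a ^ 3) = 0 := by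
  rw [derivative_pow]
  have h : (C ((3 : ℕ) : F) : F[X]) = 0 := by
    rw [CharP.cast_eq_zero F 3, map_zero]
  rw [h]
  ring

theorem der_form [CharP F 3] (a b : F[X]) : derivative (a ^ 3 + X * b ^ 3) = b ^ 3 := by
  rw [derivative_add, derivative_mul, der_cube, der_cube, derivative_X]
  ring

/-- the kernel of the map `(A, B) ↦ A³ + X B³` modulo `V²` is trivial in small degrees -/
theorem ker_zero [CharP F 3] {V A B : F[X]} (hsq : Squarefree V)
    (hA : A.degree < V.degree) (hB : B.degree < V.degree) (h : V ^ 2 ∣ A ^ 3 + X * B ^ 3) :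
    A = 0 ∧ B = 0 := by
  have h1 : V ∣ B ^ 3 := by
    obtain ⟨c, hc⟩ := h
    rw [← der_form A B, hc, derivative_mul, derivative_pow]
    refine dvd_add (Dvd.dvd.mul_right ?_ _) (Dvd.dvd.mul_right (dvd_pow_self V two_ne_zero) _)
    exact Dvd.dvd.mul_right (Dvd.dvd.mul_left (by rw [Nat.add_one_sub_one, pow_one]) _) _
  have hB0 : B = 0 := eq_zero_of_dvd_of_degree_lt ((hsq.dvd_pow_iff_dvd three_ne_zero).1 h1) hB
  subst hB0
  refine ⟨?_, rfl⟩
  have h2 : V ∣ A ^ 3 := by
    have h3 : V ^ 2 ∣ A ^ 3 := by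
      rw [zero_pow three_ne_zero, mul_zero, add_zero] at h
      exact h
    exact (dvd_pow_self V two_ne_zero).trans h3
  exact eq_zero_of_dvd_of_degree_lt ((hsq.dvd_pow_iff_dvd three_ne_zero).1 h2) hA

/-- a cube-free polynomial divides the square of its radical -/
theorem dvd_rad {W : F[X]} (hW : W ≠ 0) (hc : CubeFree W) :
    W ∣ UniqueFactorizationMonoid.radical W ^ 2 := by
  have hr : UniqueFactorizationMonoid.radical W ≠ 0 := UniqueFactorizationMonoid.radical_ne_zero
  rw [UniqueFactorizationMonoid.dvd_iff_normalizedFactors_le_normalizedFactors hW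
    (pow_ne_zero 2 hr), UniqueFactorizationMonoid.normalizedFactors_pow, Multiset.le_iff_count]
  intro p
  rw [Multiset.count_nsmul]
  by_cases hp : p ∈ UniqueFactorizationMonoid.normalizedFactors W
  · have h1 : p ∈ UniqueFactorizationMonoid.normalizedFactors
        (UniqueFactorizationMonoid.radical W) := by
      rw [← UniqueFactorizationMonoid.mem_primeFactors,
        UniqueFactorizationMonoid.primeFactors_radical,
        UniqueFactorizationMonoid.mem_primeFactors]
      exact hp
    have h2 : 1 ≤ Multiset.count p (UniqueFactorizationMonoid.normalizedFactors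
        (UniqueFactorizationMonoid.radical W)) := Multiset.one_le_count_iff_mem.2 h1
    have h3 : Multiset.count p (UniqueFactorizationMonoid.normalizedFactors W) ≤ 2 := by
      by_contra hcon
      have h4 : 3 ≤ Multiset.count p (UniqueFactorizationMonoid.normalizedFactors W) := by omega
      have h5 := Multiset.prod_dvd_prod_of_le (Multiset.le_count_iff_replicate_le.1 h4)
      rw [Multiset.prod_replicate] at h5
      have h6 : p ^ 3 ∣ W :=
        h5.trans (UniqueFactorizationMonoid.prod_normalizedFactors hW).dvd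
      exact (UniqueFactorizationMonoid.prime_of_normalized_factor p hp).not_isUnit (hc p h6)
    omega
  · rw [Multiset.count_eq_zero_of_notMem hp]
    exact Nat.zero_le _

end XB2

open XB2 in
theorem p_B2 (F : Type) [Field F] [Fintype F] [CharP F 3] (hB0 : S_B0 F) : S_B2 F := by
  obtain ⟨hpol, -, -, hcard, -, -⟩ := hB0
  have key : ∀ V r : F[X], V ≠ 0 → Squarefree V → ∃ A B : F[X], A.degree < V.degree ∧
      B.degree < V.degree ∧ V ^ 2 ∣ A ^ 3 + X * B ^ 3 - r := by
    intro V r hV hsq
    have hV2 : V ^ 2 ≠ 0 := pow_ne_zero 2 hV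
    have hdV : V.degree = (V.natDegree : WithBot ℕ) := degree_eq_natDegree hV
    have hdV2 : (V ^ 2).degree = ((2 * V.natDegree : ℕ) : WithBot ℕ) := by
      rw [degree_eq_natDegree hV2, natDegree_pow]
    let P := POL F V.natDegree
    let φ : F[X] × F[X] → F[X] := fun z => (z.1 ^ 3 + X * z.2 ^ 3) % V ^ 2
    have hmaps : (P ×ˢ P).image φ ⊆ POL F (2 * V.natDegree) := by
      intro G hG
      obtain ⟨z, -, rfl⟩ := Finset.mem_image.1 hG
      rw [hpol, ← hdV2]
      exact degree_mod_lt _ hV2
    have hdvd : ∀ a b : F[X], a % V ^ 2 = b % V ^ 2 → V ^ 2 ∣ a - b := by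
      intro a b hab
      have h1 := EuclideanDomain.div_add_mod a (V ^ 2)
      have h2 := EuclideanDomain.div_add_mod b (V ^ 2)
      refine ⟨a / V ^ 2 - b / V ^ 2, ?_⟩
      rw [mul_sub]
      linear_combination (-1 : F[X]) * h1 + h2 + hab
    have hinj : Set.InjOn φ (P ×ˢ P : Finset (F[X] × F[X])) := by
      rintro ⟨a, b⟩ h1 ⟨a', b'⟩ h2 h
      rw [Finset.mem_coe, Finset.mem_product] at h1 h2
      have hdeg : ∀ u w : F[X], u ∈ P → w ∈ P → (u - w).degree < V.degree := by
        intro u w hu hw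
        rw [hdV]
        exact (degree_sub_le u w).trans_lt (max_lt ((hpol _ _).1 hu) ((hpol _ _).1 hw))
      have h3 : V ^ 2 ∣ (a - a') ^ 3 + X * (b - b') ^ 3 := by
        have h4 := hdvd _ _ h
        rw [cube_sub, cube_sub]
        have h5 : a ^ 3 - a' ^ 3 + X * (b ^ 3 - b' ^ 3) =
            (a ^ 3 + X * b ^ 3) - (a' ^ 3 + X * b' ^ 3) := by ring
        rw [h5]
        exact h4
      obtain ⟨e1, e2⟩ := ker_zero hsq (hdeg a a' h1.1 h2.1) (hdeg b b' h1.2 h2.2) h3
      exact Prod.ext (sub_eq_zero.1 e1) (sub_eq_zero.1 e2)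
    have himg : (P ×ˢ P).image φ = POL F (2 * V.natDegree) := by
      refine Finset.eq_of_subset_of_card_le hmaps ?_
      rw [Finset.card_image_of_injOn hinj, Finset.card_product, hcard, hcard, two_mul, pow_add]
    have hr : r % V ^ 2 ∈ (P ×ˢ P).image φ := by
      rw [himg, hpol, ← hdV2]
      exact degree_mod_lt _ hV2
    obtain ⟨⟨A, B⟩, hAB, he⟩ := Finset.mem_image.1 hr
    rw [Finset.mem_product] at hAB
    refine ⟨A, B, ?_, ?_, hdvd _ _ he⟩
    · rw [hdV]
      exact (hpol _ _).1 hAB.1
    · rw [hdV]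
      exact (hpol _ _).1 hAB.2
  refine ⟨key, fun W r hW hc => ?_⟩
  have hVW : UniqueFactorizationMonoid.radical W ∣ W := UniqueFactorizationMonoid.radical_dvd_self
  obtain ⟨A, B, hA, hB, hd⟩ := key (UniqueFactorizationMonoid.radical W) r
    UniqueFactorizationMonoid.radical_ne_zero UniqueFactorizationMonoid.squarefree_radical
  refine ⟨A, B, ?_, ?_, (dvd_rad hW hc).trans hd⟩
  · exact (natDegree_le_natDegree hA.le).trans (natDegree_le_of_dvd hVW hW)
  · exact (natDegree_le_natDegree hB.le).trans (natDegree_le_of_dvd hVW hW)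

end DH
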