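import Pool.Agent.H463.DH.Stm

/-! # Minimal degrees in the module of the `G` with `G'' = 0`, `W ∣ G` -/

open Polynomial
open scoped Classical

noncomputable section

namespace DH

namespace XB3

set_option linter.unusedSectionVars false

variable {F : Type} [Field F] [Fintype F] [CharP F 3]

/-- The subspace of the `G` with `G'' = 0`, `W ∣ G`. -/
def KK (W : F[X]) : Submodule F F[X] where
  carrier := {G | derivative (derivative G) = 0 ∧ W ∣ G}
  add_mem' := by
    rintro a b ⟨h1, h2⟩ ⟨h3, h4⟩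
    refine ⟨?_, dvd_add h2 h4⟩
    rw [derivative_add, derivative_add, h1, h3, add_zero]
  zero_mem' := by
    refine ⟨by simp, dvd_zero _⟩
  smul_mem' := by
    rintro c a ⟨h1, h2⟩
    refine ⟨?_, ?_⟩
    · rw [derivative_smul, derivative_smul, h1, smul_zero]
    · rw [Polynomial.smul_eq_C_mul]
      exact dvd_mul_of_dvd_right h2 _

theorem mem_KK (W G : F[X]) : G ∈ KK W ↔ derivative (derivative G) = 0 ∧ W ∣ G := Iff.rfl

theorem three : (3 : F[X]) = 0 := by
  have h : ((3 : ℕ) : F) = 0 := CharP.cast_eq_zero F 3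
  have h2 : (3 : F[X]) = C (((3 : ℕ) : F)) := by
    rw [map_natCast]
    norm_num
  rw [h2, h, map_zero]

/-- the degree of `G` is not `2` mod 3 -/
theorem deg_mod (G : F[X]) (h0 : G ≠ 0) (h : derivative (derivative G) = 0) :
    G.natDegree % 3 = 0 ∨ G.natDegree % 3 = 1 := by
  by_contra hcon
  have h2 : G.natDegree % 3 = 2 := by omega
  obtain ⟨m, hm⟩ : ∃ m, G.natDegree = 3 * m + 2 := ⟨G.natDegree / 3, by omega⟩
  have h3 := congrArg (fun p => Polynomial.coeff p (3 * m)) h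
  simp only [Polynomial.coeff_derivative, Polynomial.coeff_zero] at h3
  have h4 : G.coeff (3 * m + 1 + 1) = G.leadingCoeff := by
    rw [Polynomial.leadingCoeff, hm]
  rw [h4] at h3
  have h5 : (3 : F) = 0 := by exact_mod_cast CharP.cast_eq_zero F 3
  have h6 : G.leadingCoeff ≠ 0 := Polynomial.leadingCoeff_ne_zero.2 h0
  apply h6
  have h7 : G.leadingCoeff * (((3 * m + 1 : ℕ) : F) + 1) * (((3 * m : ℕ) : F) + 1) =
      -G.leadingCoeff + 3 * (G.leadingCoeff * (3 * (m : F) ^ 2 + 3 * m + 1)) := by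
    push_cast
    ring
  rw [h7, h5, zero_mul, add_zero, neg_eq_zero] at h3
  exact h3

theorem mul_mem (W k : F[X]) (hk : k ∈ KK W) (i : ℕ) : X ^ (3 * i) * k ∈ KK W := by
  obtain ⟨h1, h2⟩ := hk
  have h3 : derivative (X ^ (3 * i) : F[X]) = 0 := by
    rw [Polynomial.derivative_X_pow]
    push_cast
    have : (C (3 * (i : F)) : F[X]) = 0 := by
      have h5 : (3 : F) = 0 := by exact_mod_cast CharP.cast_eq_zero F 3
      rw [h5, zero_mul, map_zero]
    rw [this, zero_mul]
  refine ⟨?_, dvd_mul_of_dvd_right h2 _⟩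
  rw [derivative_mul, h3, zero_mul, zero_add, derivative_mul, h3, zero_mul, zero_add, h1, mul_zero]

theorem card0 (m e : ℕ) (he : e % 3 = 0) (hm : e ≤ 3 * m) :
    ((Finset.range (3 * m)).filter (fun j => j % 3 = 0 ∧ e ≤ j)).card = m - e / 3 := by
  have h : (Finset.range (3 * m)).filter (fun j => j % 3 = 0 ∧ e ≤ j) =
      (Finset.Ico (e / 3) m).image (fun i => 3 * i) := by
    ext j
    simp only [Finset.mem_filter, Finset.mem_range, Finset.mem_image, Finset.mem_Ico]
    constructor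
    · rintro ⟨h1, h2, h3⟩
      exact ⟨j / 3, by omega, by omega⟩
    · rintro ⟨i, ⟨h1, h2⟩, rfl⟩
      omega
  rw [h, Finset.card_image_of_injective _ (fun a b (hab : 3 * a = 3 * b) => by omega), Nat.card_Ico]

theorem card1 (m e : ℕ) (he : e % 3 = 1) (hm : e ≤ 3 * m) :
    ((Finset.range (3 * m)).filter (fun j => j % 3 = 1 ∧ e ≤ j)).card = m - e / 3 := by
  have h : (Finset.range (3 * m)).filter (fun j => j % 3 = 1 ∧ e ≤ j) =
      (Finset.Ico (e / 3) m).image (fun i => 3 * i + 1) := by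
    ext j
    simp only [Finset.mem_filter, Finset.mem_range, Finset.mem_image, Finset.mem_Ico]
    constructor
    · rintro ⟨h1, h2, h3⟩
      exact ⟨j / 3, by omega, by omega⟩
    · rintro ⟨i, ⟨h1, h2⟩, rfl⟩
      omega
  rw [h, Finset.card_image_of_injective _ (fun a b (hab : 3 * a + 1 = 3 * b + 1) => by omega), Nat.card_Ico]

end XB3

open XB3

theorem p_B3 (F : Type) [Field F] [Fintype F] [CharP F 3] (hB0 : S_B0 F) (hB1 : S_B1 F)
    (hB2 : S_B2 F) (hDC : S_DC F) : S_B3 F := by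
  intro W hW hcf
  have hP := hB0.1
  have hcardP := hB0.2.2.2.1
  obtain ⟨D, hD⟩ : ∃ D, D = W.natDegree := ⟨_, rfl⟩
  have h30 : (3 : F[X]) = 0 := three
  -- cubes
  have hcube : ∀ A : F[X], derivative (A ^ 3) = 0 := by
    intro A
    rw [Polynomial.derivative_pow]
    have : (C ((3 : ℕ) : F) : F[X]) = 0 := by
      rw [CharP.cast_eq_zero F 3, map_zero]
    rw [this, zero_mul, zero_mul]
  -- existence
  have ex0 : ∃ e : ℕ, ∃ G ∈ KK W, G ≠ 0 ∧ G.natDegree = e ∧ e % 3 = 0 := by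
    refine ⟨3 * D, W ^ 3, ⟨?_, dvd_pow_self W (by norm_num)⟩, pow_ne_zero 3 hW, ?_, by omega⟩
    · rw [hcube, derivative_zero]
    · rw [Polynomial.natDegree_pow, hD]
  have ex1 : ∃ e : ℕ, ∃ G ∈ KK W, G ≠ 0 ∧ G.natDegree = e ∧ e % 3 = 1 := by
    refine ⟨3 * D + 1, X * W ^ 3, ⟨?_, dvd_mul_of_dvd_right (dvd_pow_self W (by norm_num)) _⟩,
      mul_ne_zero X_ne_zero (pow_ne_zero 3 hW), ?_, by omega⟩
    · rw [derivative_mul, hcube, mul_zero, add_zero, derivative_X, one_mul, hcube]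
    · rw [Polynomial.natDegree_mul X_ne_zero (pow_ne_zero 3 hW), Polynomial.natDegree_pow,
        Polynomial.natDegree_X, hD]
      omega
  obtain ⟨e₀, he₀⟩ : ∃ e, e = Nat.find ex0 := ⟨_, rfl⟩
  obtain ⟨e₁, he₁⟩ : ∃ e, e = Nat.find ex1 := ⟨_, rfl⟩
  obtain ⟨k₀, hk₀, hk₀0, hk₀d, hk₀m⟩ := Nat.find_spec ex0
  obtain ⟨k₁, hk₁, hk₁0, hk₁d, hk₁m⟩ := Nat.find_spec ex1
  rw [← he₀] at hk₀d hk₀m
  rw [← he₁] at hk₁d hk₁m
  have min0 : ∀ G ∈ KK W, G ≠ 0 → G.natDegree % 3 = 0 → e₀ ≤ G.natDegree := by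
    intro G hG h0 h1
    rw [he₀]
    exact Nat.find_min' ex0 ⟨G, hG, h0, rfl, h1⟩
  have min1 : ∀ G ∈ KK W, G ≠ 0 → G.natDegree % 3 = 1 → e₁ ≤ G.natDegree := by
    intro G hG h0 h1
    rw [he₁]
    exact Nat.find_min' ex1 ⟨G, hG, h0, rfl, h1⟩
  -- the degrees which occur
  have hdeg : ∀ j : ℕ, (∃ G ∈ KK W, G ≠ 0 ∧ G.natDegree = j) ↔
      ((j % 3 = 0 ∧ e₀ ≤ j) ∨ (j % 3 = 1 ∧ e₁ ≤ j)) := by
    intro j
    constructor
    · rintro ⟨G, hG, h0, rfl⟩
      rcases deg_mod G h0 hG.1 with h | h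
      · exact Or.inl ⟨h, min0 G hG h0 h⟩
      · exact Or.inr ⟨h, min1 G hG h0 h⟩
    · rintro (⟨h1, h2⟩ | ⟨h1, h2⟩)
      · refine ⟨X ^ (3 * ((j - e₀) / 3)) * k₀, mul_mem W k₀ hk₀ _,
          mul_ne_zero (pow_ne_zero _ X_ne_zero) hk₀0, ?_⟩
        rw [Polynomial.natDegree_mul (pow_ne_zero _ X_ne_zero) hk₀0, Polynomial.natDegree_X_pow, hk₀d]
        omega
      · refine ⟨X ^ (3 * ((j - e₁) / 3)) * k₁, mul_mem W k₁ hk₁ _,
          mul_ne_zero (pow_ne_zero _ X_ne_zero) hk₁0, ?_⟩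
        rw [Polynomial.natDegree_mul (pow_ne_zero _ X_ne_zero) hk₁0, Polynomial.natDegree_X_pow, hk₁d]
        omega
  obtain ⟨m, hm⟩ : ∃ m, m = D + e₀ + e₁ + 1 := ⟨_, rfl⟩
  -- the number of elements of the module
  have hK := hDC (KK W) (3 * m)
  have hcount : ((Finset.range (3 * m)).filter (fun j => ∃ G ∈ KK W, G ≠ 0 ∧ G.natDegree = j)).card =
      (m - e₀ / 3) + (m - e₁ / 3) := by
    have h1 : (Finset.range (3 * m)).filter (fun j => ∃ G ∈ KK W, G ≠ 0 ∧ G.natDegree = j) =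
        (Finset.range (3 * m)).filter (fun j => j % 3 = 0 ∧ e₀ ≤ j) ∪
          (Finset.range (3 * m)).filter (fun j => j % 3 = 1 ∧ e₁ ≤ j) := by
      ext j
      rw [Finset.mem_union, Finset.mem_filter, Finset.mem_filter, Finset.mem_filter, hdeg j]
      tauto
    rw [h1, Finset.card_union_of_disjoint, card0 m e₀ hk₀m (by omega), card1 m e₁ hk₁m (by omega)]
    rw [Finset.disjoint_left]
    intro j hj1 hj2
    rw [Finset.mem_filter] at hj1 hj2
    omega
  rw [hcount] at hK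
  -- the number of all `G` with `G'' = 0`
  have hN := hB1.2.2.2.1 (3 * m)
  -- representatives
  have hrep : ∀ r : F[X], ∃ g : F[X], derivative (derivative g) = 0 ∧ g.degree < ((3 * m : ℕ) : WithBot ℕ) ∧
      W ∣ g - r := by
    intro r
    obtain ⟨A, B, hA, hB, hAB⟩ := hB2.2 W r hW hcf
    refine ⟨A ^ 3 + X * B ^ 3, (hB1.2.1 _).2 ⟨A, B, rfl⟩, ?_, hAB⟩
    have h1 : (A ^ 3 + X * B ^ 3).natDegree ≤ 3 * D + 1 := by
      refine (Polynomial.natDegree_add_le _ _).trans (max_le ?_ ?_)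
      · refine (Polynomial.natDegree_pow_le).trans ?_
        rw [hD]
        omega
      · refine (Polynomial.natDegree_mul_le).trans ?_
        have h2 : (B ^ 3).natDegree ≤ 3 * B.natDegree := Polynomial.natDegree_pow_le
        rw [Polynomial.natDegree_X, hD]
        omega
    refine lt_of_le_of_lt Polynomial.degree_le_natDegree ?_
    exact_mod_cast (by omega : (A ^ 3 + X * B ^ 3).natDegree < 3 * m)
  choose g hg1 hg2 hg3 using hrep
  have hbij : ((POL F D) ×ˢ ((POL F (3 * m)).filter (fun G => G ∈ KK W))).card =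
      ((POL F (3 * m)).filter (fun G => derivative (derivative G) = 0)).card := by
    refine Finset.card_bij (fun x _ => g x.1 + x.2) ?_ ?_ ?_
    · rintro ⟨r, k⟩ hx
      rw [Finset.mem_product, Finset.mem_filter, hP, hP] at hx
      rw [Finset.mem_filter, hP]
      refine ⟨lt_of_le_of_lt (Polynomial.degree_add_le _ _) (max_lt (hg2 r) hx.2.1), ?_⟩
      have := hx.2.2.1
      simp only at this ⊢
      rw [derivative_add, derivative_add, hg1, this, add_zero]
    · rintro ⟨r, k⟩ hx ⟨r', k'⟩ hx' he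
      rw [Finset.mem_product, Finset.mem_filter, hP, hP] at hx hx'
      simp only at he hx hx'
      have h1 : W ∣ r - r' := by
        have h2 : r - r' = (k' - k) - (g r - r) + (g r' - r') + ((g r + k) - (g r' + k')) := by ring
        rw [h2, he, sub_self, add_zero]
        exact dvd_add (dvd_sub (dvd_sub hx'.2.2.2 hx.2.2.2) (hg3 r)) (hg3 r')
      have h3 : r = r' := by
        by_contra hne
        have h4 := Polynomial.degree_le_of_dvd h1 (sub_ne_zero.2 hne)
        have h5 : (r - r').degree < W.degree := by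
          refine lt_of_le_of_lt (Polynomial.degree_sub_le _ _) (max_lt ?_ ?_)
          · rw [Polynomial.degree_eq_natDegree hW, ← hD]
            exact hx.1
          · rw [Polynomial.degree_eq_natDegree hW, ← hD]
            exact hx'.1
        exact absurd h4 (not_le.2 h5)
      subst h3
      rw [add_left_cancel he]
    · intro G hG
      rw [Finset.mem_filter, hP] at hG
      refine ⟨(G % W, G - g (G % W)), ?_, by simp⟩
      rw [Finset.mem_product, Finset.mem_filter, hP, hP]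
      refine ⟨?_, ?_, ?_, ?_⟩
      · have := Polynomial.degree_mod_lt G hW
        rw [Polynomial.degree_eq_natDegree hW, ← hD] at this
        exact this
      · exact lt_of_le_of_lt (Polynomial.degree_sub_le _ _) (max_lt hG.1 (hg2 _))
      · simp only
        rw [derivative_sub, derivative_sub, hg1, hG.2, sub_zero]
      · simp only
        have h1 : G - g (G % W) = (G - G % W) - (g (G % W) - G % W) := by ring
        rw [h1]
        refine dvd_sub ?_ (hg3 _)
        have h2 := EuclideanDomain.div_add_mod G W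
        exact ⟨G / W, by linear_combination -h2⟩
  rw [Finset.card_product, hcardP, hK, hN, ← pow_add] at hbij
  have hq : 1 < Fintype.card F := Fintype.one_lt_card
  have hexp := Nat.pow_right_injective hq hbij
  unfold NN at hexp
  refine ⟨k₀, k₁, hk₀.1, hk₁.1, hk₀.2, hk₁.2, hk₀0, hk₁0, by rw [hk₀d]; exact hk₀m,
    by rw [hk₁d]; exact hk₁m, ?_, ?_⟩
  · rw [hk₀d, hk₁d, ← hD]
    omega
  · intro G h0 h1 h2
    rw [hk₀d, hk₁d]
    have hG : G ∈ KK W := ⟨h1, h2⟩
    rcases deg_mod G h0 h1 with h | h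
    · exact Or.inl ⟨h, min0 G hG h0 h⟩
    · exact Or.inr ⟨h, min1 G hG h0 h⟩

end DH
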