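import Pool.Agent.H463.DH.Stm

open Polynomial
open scoped Classical

noncomputable section

namespace DH

namespace XB4

variable {F : Type} [Field F]

theorem three_zero [CharP F 3] : (3 : F) = 0 := by
  have h : ((3 : ℕ) : F) = 0 := CharP.cast_eq_zero F 3
  exact_mod_cast h

theorem der_X3 [CharP F 3] (i : ℕ) : derivative ((X : F[X]) ^ (3 * i)) = 0 := by
  rw [derivative_X_pow]
  have h : ((3 * i : ℕ) : F) = 0 := by
    push_cast
    rw [three_zero, zero_mul]
  rw [h, C_0, zero_mul]

theorem der_mul [CharP F 3] (c : F) (i : ℕ) (G : F[X]) :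
    derivative (C c * X ^ (3 * i) * G) = C c * X ^ (3 * i) * derivative G := by
  rw [derivative_mul, derivative_mul, der_X3, derivative_C]
  ring

theorem der2_mul [CharP F 3] (c : F) (i : ℕ) {G : F[X]} (h : derivative (derivative G) = 0) :
    derivative (derivative (C c * X ^ (3 * i) * G)) = 0 := by
  rw [der_mul, der_mul, h, mul_zero]

theorem deg_ne_two [CharP F 3] {G : F[X]} (hG : G ≠ 0) (h : derivative (derivative G) = 0) :
    G.natDegree % 3 ≠ 2 := by
  intro hm
  obtain ⟨t, ht⟩ : ∃ t, G.natDegree = 3 * t + 1 + 1 := ⟨G.natDegree / 3, by omega⟩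
  have h1 : (derivative (derivative G)).coeff (3 * t) = 0 := by rw [h, coeff_zero]
  rw [coeff_derivative, coeff_derivative, ← ht] at h1
  have h3 : (3 : F) = 0 := three_zero
  have h4 : (((3 * t + 1 : ℕ) : F) + 1) = 2 := by
    push_cast
    rw [h3]
    ring
  have h5 : (((3 * t : ℕ) : F) + 1) = 1 := by
    push_cast
    rw [h3]
    ring
  rw [h4, h5, mul_one] at h1
  have h6 : (2 : F) ≠ 0 := by
    intro h2
    have : (1 : F) = 0 := by
      calc (1 : F) = 3 - 2 := by norm_num
        _ = 0 := by rw [h3, h2, sub_zero]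
    exact one_ne_zero this
  rcases mul_eq_zero.1 h1 with h7 | h7
  · exact hG (leadingCoeff_eq_zero.1 h7)
  · exact h6 h7

/-- elements with a given degree and leading coefficient -/
theorem exists_lead [Fintype F] [CharP F 3] (hB3 : S_B3 F) {W : F[X]} (hW : W ≠ 0) (hc : CubeFree W)
    {m : ℕ} (hm : 2 * W.natDegree + 1 ≤ m) (hm3 : m % 3 ≠ 2) {a : F} (ha : a ≠ 0) :
    ∃ k : F[X], derivative (derivative k) = 0 ∧ W ∣ k ∧ k.natDegree = m ∧ k.coeff m = a := by
  obtain ⟨k₀, k₁, h01, h11, h02, h12, h03, h13, h04, h14, hs, -⟩ := hB3 W hW hc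
  have l0 : W.natDegree ≤ k₀.natDegree := natDegree_le_of_dvd h02 h03
  have l1 : W.natDegree ≤ k₁.natDegree := natDegree_le_of_dvd h12 h13
  have gen : ∀ k : F[X], derivative (derivative k) = 0 → W ∣ k → k ≠ 0 → k.natDegree ≤ m →
      m % 3 = k.natDegree % 3 →
      ∃ k' : F[X], derivative (derivative k') = 0 ∧ W ∣ k' ∧ k'.natDegree = m ∧ k'.coeff m = a := by
    intro k h1 h2 h3 h4 h5
    obtain ⟨i, hi⟩ : ∃ i, m = 3 * i + k.natDegree := ⟨(m - k.natDegree) / 3, by omega⟩
    have hlc : k.leadingCoeff ≠ 0 := leadingCoeff_ne_zero.2 h3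
    have hcc : a / k.leadingCoeff ≠ 0 := div_ne_zero ha hlc
    have hnd : (C (a / k.leadingCoeff) * X ^ (3 * i) * k).natDegree = m := by
      rw [natDegree_mul (mul_ne_zero (C_ne_zero.2 hcc) (pow_ne_zero _ X_ne_zero)) h3,
        natDegree_C_mul_X_pow _ _ hcc, hi]
    refine ⟨C (a / k.leadingCoeff) * X ^ (3 * i) * k, der2_mul _ _ h1, Dvd.dvd.mul_left h2 _, hnd, ?_⟩
    have : (C (a / k.leadingCoeff) * X ^ (3 * i) * k).coeff m =
        (C (a / k.leadingCoeff) * X ^ (3 * i) * k).leadingCoeff := by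
      conv_rhs => rw [← coeff_natDegree, hnd]
    rw [this, leadingCoeff_mul, leadingCoeff_mul, leadingCoeff_C, leadingCoeff_X_pow, mul_one,
      div_mul_cancel₀ _ hlc]
  by_cases h : m % 3 = 0
  · exact gen k₀ h01 h02 h03 (by omega) (by omega)
  · exact gen k₁ h11 h12 h13 (by omega) (by omega)

theorem dvd_sub_mod' (G W : F[X]) : W ∣ G - G % W := by
  refine ⟨G / W, ?_⟩
  rw [sub_eq_iff_eq_add, EuclideanDomain.div_add_mod]

theorem exists_small [Fintype F] [CharP F 3] (hB2 : S_B2 F) (hB3 : S_B3 F) {W : F[X]} (hW : W ≠ 0)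
    (hc : CubeFree W) (r : F[X]) :
    ∃ G : F[X], derivative (derivative G) = 0 ∧ W ∣ G - r ∧ G.natDegree ≤ 2 * W.natDegree := by
  have hex : ∃ n, ∃ G : F[X], derivative (derivative G) = 0 ∧ W ∣ G - r ∧ G.natDegree = n := by
    obtain ⟨A, B, -, -, h⟩ := hB2.2 W r hW hc
    refine ⟨_, A ^ 3 + X * B ^ 3, ?_, h, rfl⟩
    have h3 : (3 : F[X]) = 0 := by
      have h : ((3 : ℕ) : F[X]) = 0 := CharP.cast_eq_zero F[X] 3
      exact_mod_cast h
    have e1 : ∀ A : F[X], derivative (A ^ 3) = 0 := by
      intro A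
      rw [derivative_pow]
      have : C ((3 : ℕ) : F) = 0 := by
        rw [CharP.cast_eq_zero F 3, C_0]
      rw [this]
      ring
    rw [derivative_add, derivative_mul, e1, e1, derivative_X]
    simp [e1]
  obtain ⟨G, h1, h2, h3⟩ := Nat.find_spec hex
  refine ⟨G, h1, h2, ?_⟩
  by_contra hlt
  push Not at hlt
  have hG : G ≠ 0 := by
    rintro rfl
    rw [natDegree_zero] at hlt
    omega
  have hlc : G.leadingCoeff ≠ 0 := leadingCoeff_ne_zero.2 hG
  obtain ⟨k, k1, k2, k3, k4⟩ := exists_lead hB3 hW hc (m := G.natDegree) (by omega)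
    (deg_ne_two hG h1) hlc
  have hk : k ≠ 0 := by
    rintro rfl
    rw [coeff_zero] at k4
    exact hlc k4.symm
  have hdeg : G.degree = k.degree := by
    rw [degree_eq_natDegree hG, degree_eq_natDegree hk, k3]
  have hlt2 : (G - k).degree < G.degree := by
    refine degree_sub_lt_left hdeg hG ?_
    rw [leadingCoeff, leadingCoeff, k3]
    exact k4.symm
  have hlt3 : (G - k).natDegree < G.natDegree := by
    by_cases h0 : G - k = 0
    · rw [h0, natDegree_zero]
      omega
    · rw [degree_eq_natDegree h0, degree_eq_natDegree hG] at hlt2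
      exact_mod_cast hlt2
  refine Nat.find_min hex (m := (G - k).natDegree) (by omega) ⟨G - k, ?_, ?_, rfl⟩
  · rw [derivative_sub, derivative_sub, h1, k1, sub_zero]
  · have e : G - k - r = (G - r) - k := by ring
    rw [e]
    exact dvd_sub h2 k2

end XB4

open XB4 in
theorem p_B4 (F : Type) [Field F] [Fintype F] [CharP F 3] (hB0 : S_B0 F) (hB1 : S_B1 F)
    (hB2 : S_B2 F) (hB3 : S_B3 F) : S_B4 F := by
  intro W hW hc j hj hj3 a ha r
  have mem := hB0.1
  have cPOL := hB0.2.2.2.1
  have cK := hB1.2.2.2.1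
  set D := W.natDegree with hD
  have hdW : W.degree = (D : WithBot ℕ) := degree_eq_natDegree hW
  -- small representatives
  have small : ∀ r : F[X], ∃ G ∈ POL F j, derivative (derivative G) = 0 ∧ W ∣ G - r := by
    intro r
    obtain ⟨G, h1, h2, h3⟩ := exists_small hB2 hB3 hW hc r
    refine ⟨G, (mem j G).2 ?_, h1, h2⟩
    refine lt_of_le_of_lt degree_le_natDegree ?_
    have : G.natDegree < j := by omega
    exact_mod_cast this
  set T : F[X] → Finset F[X] := fun r =>
    (POL F j).filter (fun G => derivative (derivative G) = 0 ∧ W ∣ G - r) with hT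
  have memT : ∀ r G, G ∈ T r ↔ G ∈ POL F j ∧ derivative (derivative G) = 0 ∧ W ∣ G - r := by
    intro r G
    rw [hT]
    exact Finset.mem_filter
  have add_mem : ∀ n (G H : F[X]), G ∈ POL F n → H ∈ POL F n → G + H ∈ POL F n := by
    intro n G H h1 h2
    rw [mem] at *
    exact lt_of_le_of_lt (degree_add_le G H) (max_lt h1 h2)
  have sub_mem : ∀ n (G H : F[X]), G ∈ POL F n → H ∈ POL F n → G - H ∈ POL F n := by
    intro n G H h1 h2
    rw [mem] at *
    exact lt_of_le_of_lt (degree_sub_le G H) (max_lt h1 h2)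
  have cT : ∀ r, (T r).card = (T 0).card := by
    intro r
    obtain ⟨G₀, g1, g2, g3⟩ := small r
    refine Finset.card_nbij' (fun G => G - G₀) (fun G => G + G₀) ?_ ?_ ?_ ?_
    · intro G hG
      have hG' := (memT r G).1 hG
      refine (memT 0 (G - G₀)).2 ⟨sub_mem _ _ _ hG'.1 g1, ?_, ?_⟩
      · rw [derivative_sub, derivative_sub, hG'.2.1, g2, sub_zero]
      · have e : G - G₀ - 0 = (G - r) - (G₀ - r) := by ring
        rw [e]
        exact dvd_sub hG'.2.2 g3
    · intro G hG
      have hG' := (memT 0 G).1 hG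
      refine (memT r (G + G₀)).2 ⟨add_mem _ _ _ hG'.1 g1, ?_, ?_⟩
      · rw [derivative_add, derivative_add, hG'.2.1, g2, add_zero]
      · have e : G + G₀ - r = (G - 0) + (G₀ - r) := by ring
        rw [e]
        exact dvd_add hG'.2.2 g3
    · intro G _
      show G - G₀ + G₀ = G
      ring
    · intro G _
      show G + G₀ - G₀ = G
      ring
  -- the partition into residue classes
  have hpart : ((POL F j).filter (fun G => derivative (derivative G) = 0)).card =
      ∑ r ∈ POL F D, (T r).card := by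
    rw [Finset.card_eq_sum_card_fiberwise (f := fun G => G % W) (t := POL F D)]
    · refine Finset.sum_congr rfl fun r hr => ?_
      congr 1
      ext G
      rw [Finset.mem_filter, Finset.mem_filter, memT]
      constructor
      · rintro ⟨⟨h1, h2⟩, h3⟩
        refine ⟨h1, h2, ?_⟩
        rw [← h3]
        exact dvd_sub_mod' G W
      · rintro ⟨h1, h2, h3⟩
        refine ⟨⟨h1, h2⟩, ?_⟩
        show G % W = r
        have h4 : W ∣ G % W - r := by
          have e : G % W - r = (G - r) - (G - G % W) := by ring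
          rw [e]
          exact dvd_sub h3 (dvd_sub_mod' G W)
        have h5 : (G % W - r).degree < W.degree := by
          refine lt_of_le_of_lt (degree_sub_le _ _) (max_lt (EuclideanDomain.mod_lt G hW) ?_)
          rw [hdW]
          exact (mem D r).1 hr
        exact sub_eq_zero.1 (eq_zero_of_dvd_of_degree_lt h4 h5)
    · intro G _
      show G % W ∈ POL F D
      rw [mem, ← hdW]
      exact EuclideanDomain.mod_lt G hW
  rw [cK, Finset.sum_congr rfl (fun r _ => cT r), Finset.sum_const, cPOL, smul_eq_mul] at hpart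
  have hq : 1 < Fintype.card F := Fintype.one_lt_card
  have hdvd : Fintype.card F ^ D ∣ Fintype.card F ^ NN j := ⟨_, hpart⟩
  have hle : D ≤ NN j := (Nat.pow_dvd_pow_iff_le_right hq).1 hdvd
  refine ⟨hle, ?_⟩
  have hT0 : (T 0).card = Fintype.card F ^ (NN j - D) := by
    have hpos : 0 < Fintype.card F ^ D := pow_pos (by omega) _
    refine Nat.eq_of_mul_eq_mul_left hpos ?_
    rw [← hpart, ← pow_add, Nat.add_sub_cancel' hle]
  rw [← hT0]
  obtain ⟨k, k1, k2, k3, k4⟩ := exists_lead hB3 hW hc (m := j) hj hj3 ha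
  obtain ⟨G₀, g1, g2, g3⟩ := small r
  have hk : k ∈ POL F (j + 1) := by
    rw [mem]
    refine lt_of_le_of_lt degree_le_natDegree ?_
    rw [k3]
    exact_mod_cast Nat.lt_succ_self j
  have mono : ∀ G, G ∈ POL F j → G ∈ POL F (j + 1) := by
    intro G hG
    rw [mem] at *
    exact lt_trans hG (by exact_mod_cast Nat.lt_succ_self j)
  refine Finset.card_nbij' (fun G => G - k - G₀) (fun G => G + G₀ + k) ?_ ?_ ?_ ?_
  · intro G hG
    have hG' := Finset.mem_filter.1 hG
    refine (memT 0 (G - k - G₀)).2 ⟨?_, ?_, ?_⟩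
    · have h1 : G - k - G₀ ∈ POL F (j + 1) :=
        sub_mem _ _ _ (sub_mem _ _ _ hG'.1 hk) (mono _ g1)
      rw [mem] at h1 g1 ⊢
      rw [degree_lt_iff_coeff_zero] at h1 g1 ⊢
      intro m hm
      rcases Nat.lt_or_ge j m with h | h
      · exact h1 m h
      · have hjm : m = j := le_antisymm h hm
        rw [hjm, coeff_sub, coeff_sub, hG'.2.2.1, k4, g1 j le_rfl]
        ring
    · rw [derivative_sub, derivative_sub, derivative_sub, derivative_sub, hG'.2.1, k1, g2]
      ring
    · have e : G - k - G₀ - 0 = (G - r) - (G₀ - r) - k := by ring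
      rw [e]
      exact dvd_sub (dvd_sub hG'.2.2.2 g3) k2
  · intro G hG
    have hG' := (memT 0 G).1 hG
    refine Finset.mem_filter.2 ⟨add_mem _ _ _ (add_mem _ _ _ (mono _ hG'.1) (mono _ g1)) hk, ?_, ?_, ?_⟩
    · show derivative (derivative (G + G₀ + k)) = 0
      rw [derivative_add, derivative_add, derivative_add, derivative_add, hG'.2.1, k1, g2]
      ring
    · show (G + G₀ + k).coeff j = a
      have h1 := (mem j G).1 hG'.1
      have h2 := (mem j G₀).1 g1
      rw [degree_lt_iff_coeff_zero] at h1 h2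
      rw [coeff_add, coeff_add, h1 j le_rfl, h2 j le_rfl, k4]
      ring
    · show W ∣ G + G₀ + k - r
      have e : G + G₀ + k - r = (G - 0) + (G₀ - r) + k := by ring
      rw [e]
      exact dvd_add (dvd_add hG'.2.2 g3) k2
  · intro G _
    show G - k - G₀ + G₀ + k = G
    ring
  · intro G _
    show G + G₀ + k - k - G₀ = G
    ring

end DH
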