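import Pool.Agent.H463.DH.Stm

/-!
# CP: the cube part of a polynomial
-/

open Polynomial
open scoped Classical

noncomputable section

namespace DH

namespace XCP

variable {F : Type} [Field F]

theorem cop {P b : F[X]} (hP : Irreducible P) (h : ¬ P ∣ b) : IsCoprime P b :=
  (Irreducible.coprime_iff_not_dvd hP).2 h

/-- existence of the cube part -/
theorem exists_cpart (n : ℕ) : ∀ U : F[X], U ≠ 0 → U.natDegree = n → ∃ c, IsCpart U c := by
  induction n using Nat.strong_induction_on with
  | _ n ih =>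
    intro U hU hn
    by_cases hcf : ∀ b : F[X], b ^ 3 ∣ U → IsUnit b
    · refine ⟨1, monic_one, ?_, ?_⟩
      · rw [one_pow]
        exact one_dvd U
      · intro b hb
        exact (hcf b hb).dvd
    · push Not at hcf
      obtain ⟨b, hb, hbu⟩ := hcf
      obtain ⟨P, hPm, hPi, hPb⟩ := exists_monic_irreducible_factor b hbu
      obtain ⟨U', hU'⟩ := (pow_dvd_pow_of_dvd hPb 3).trans hb
      have hU'0 : U' ≠ 0 := by
        rintro rfl
        rw [mul_zero] at hU'
        exact hU hU'
      have hP3 : P ^ 3 ≠ 0 := pow_ne_zero _ hPm.ne_zero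
      have hdeg : U'.natDegree < n := by
        have h1 : U.natDegree = (P ^ 3).natDegree + U'.natDegree := by
          rw [hU', natDegree_mul hP3 hU'0]
        have h2 : (P ^ 3).natDegree = 3 * P.natDegree := natDegree_pow P 3
        have h3 : 0 < P.natDegree := hPi.natDegree_pos
        omega
      obtain ⟨c', hc'm, hc'3, hc'b⟩ := ih _ hdeg U' hU'0 rfl
      refine ⟨P * c', hPm.mul hc'm, ?_, ?_⟩
      · rw [mul_pow, hU']
        exact mul_dvd_mul_left _ hc'3
      · intro b' hb'
        rw [hU'] at hb'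
        by_cases hPb' : P ∣ b'
        · obtain ⟨e, rfl⟩ := hPb'
          rw [mul_pow] at hb'
          exact mul_dvd_mul_left _ (hc'b e ((mul_dvd_mul_iff_left hP3).1 hb'))
        · have h1 : IsCoprime (b' ^ 3) (P ^ 3) := (cop hPi hPb').symm.pow
          exact (hc'b b' (h1.dvd_of_dvd_mul_left hb')).trans (dvd_mul_left _ _)

theorem cpart_spec {U : F[X]} (hU : U ≠ 0) : IsCpart U (cpart U) := by
  have h : ∃ c, IsCpart U c := exists_cpart _ U hU rfl
  unfold cpart
  rw [dif_pos h]
  exact h.choose_spec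

theorem dvd_of_cube (c : F[X]) : ∀ W v : F[X], Squarefree W → v ≠ 0 → c ^ 3 ∣ W ^ 2 * v → c ∣ v := by
  refine UniqueFactorizationMonoid.induction_on_prime c ?_ ?_ ?_
  · intro W v hW hv h
    rw [zero_pow three_ne_zero, zero_dvd_iff, mul_eq_zero] at h
    rcases h with h | h
    · exact absurd (pow_eq_zero_iff two_ne_zero |>.1 h) hW.ne_zero
    · exact absurd h hv
  · intro x hx W v _ _ _
    exact hx.dvd
  · intro a p _ hp ih W v hW hv h
    have hp0 : p ≠ 0 := hp.ne_zero
    have hpi : Irreducible p := hp.irreducible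
    rw [mul_pow] at h
    by_cases hpW : p ∣ W
    · obtain ⟨W', rfl⟩ := hpW
      have hpW' : ¬ p ∣ W' := by
        rintro ⟨W'', rfl⟩
        have h1 := hW p ⟨W'', by ring⟩
        exact hpi.not_isUnit h1
      have hW' : Squarefree W' := hW.squarefree_of_dvd (dvd_mul_left _ _)
      have h2 : p * a ^ 3 ∣ W' ^ 2 * v := by
        have e1 : p ^ 3 * a ^ 3 = p ^ 2 * (p * a ^ 3) := by ring
        have e2 : (p * W') ^ 2 * v = p ^ 2 * (W' ^ 2 * v) := by ring
        rw [e1, e2] at h
        exact (mul_dvd_mul_iff_left (pow_ne_zero 2 hp0)).1 h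
      have h3 : p ∣ v := by
        rcases hp.dvd_or_dvd ((dvd_mul_right p _).trans h2) with h4 | h4
        · exact absurd (hp.dvd_of_dvd_pow h4) hpW'
        · exact h4
      obtain ⟨v', rfl⟩ := h3
      have hv' : v' ≠ 0 := right_ne_zero_of_mul hv
      have h5 : a ^ 3 ∣ W' ^ 2 * v' := by
        have e3 : W' ^ 2 * (p * v') = p * (W' ^ 2 * v') := by ring
        rw [e3] at h2
        exact (mul_dvd_mul_iff_left hp0).1 h2
      exact mul_dvd_mul_left _ (ih W' v' hW' hv' h5)
    · have h1 : IsCoprime (p ^ 3) (W ^ 2) := (cop hpi hpW).pow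
      have h2 : p ^ 3 ∣ v := h1.dvd_of_dvd_mul_left ((dvd_mul_right _ _).trans h)
      obtain ⟨v', rfl⟩ := h2
      have hv' : v' ≠ 0 := right_ne_zero_of_mul hv
      have h5 : a ^ 3 ∣ W ^ 2 * v' := by
        have e3 : W ^ 2 * (p ^ 3 * v') = p ^ 3 * (W ^ 2 * v') := by ring
        rw [e3] at h
        exact (mul_dvd_mul_iff_left (pow_ne_zero 3 hp0)).1 h
      have h6 := ih W v' hW hv' h5
      exact (mul_dvd_mul_left p h6).trans (mul_dvd_mul_right (dvd_pow_self p three_ne_zero) v')

end XCP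

theorem p_CP (F : Type) [Field F] [Fintype F] [CharP F 3] : S_CP F := by
  refine ⟨fun U hU => XCP.cpart_spec hU, ?_, ?_⟩
  · intro U W₁ hU hUW b hb
    have hc := XCP.cpart_spec hU
    have h1 : (cpart U * b) ^ 3 ∣ U := by
      rw [mul_pow, hUW]
      nth_rewrite 1 [← hUW]
      exact mul_dvd_mul_left _ hb
    have h2 := hc.2.2 _ h1
    have h3 : cpart U * b ∣ cpart U * 1 := by
      rw [mul_one]
      exact h2
    exact isUnit_of_dvd_one ((mul_dvd_mul_iff_left hc.1.ne_zero).1 h3)
  · intro W v hW hv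
    have h0 : W ^ 2 * v ≠ 0 := mul_ne_zero (pow_ne_zero 2 hW.ne_zero) hv
    exact XCP.dvd_of_cube _ W v hW hv (XCP.cpart_spec h0).2.1

end DH
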