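import Pool.Agent.H463.DH.Stm

/-! # Number of elements of degree `< M` of a subspace of `F[X]` -/

open Polynomial
open scoped Classical

noncomputable section

namespace DH

theorem p_DC (F : Type) [Field F] [Fintype F] [CharP F 3] (hB0 : S_B0 F) : S_DC F := by
  intro K M
  have hP := hB0.1
  induction M with
  | zero =>
    have h1 : (POL F 0).filter (fun G => G ∈ K) = {0} := by
      ext G
      rw [Finset.mem_filter, hP, Finset.mem_singleton]
      constructor
      · intro h
        have h2 := h.1
        by_contra h0
        rw [Polynomial.degree_eq_natDegree h0] at h2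
        have : G.natDegree < 0 := by exact_mod_cast h2
        omega
      · rintro rfl
        refine ⟨?_, K.zero_mem⟩
        rw [Polynomial.degree_zero]
        exact bot_lt_iff_ne_bot.2 (by simp)
    rw [h1]
    simp
  | succ M ih =>
    by_cases h : ∃ G ∈ K, G ≠ 0 ∧ G.natDegree = M
    · have hfil : (Finset.range (M + 1)).filter (fun j => ∃ G ∈ K, G ≠ 0 ∧ G.natDegree = j) =
          insert M ((Finset.range M).filter (fun j => ∃ G ∈ K, G ≠ 0 ∧ G.natDegree = j)) := by
        rw [Finset.range_add_one, Finset.filter_insert, if_pos h]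
      obtain ⟨k, hkK, hk0, hkd⟩ := h
      rw [hfil, Finset.card_insert_of_notMem (by simp), pow_succ, ← ih, mul_comm,
        ← Finset.card_univ, ← Finset.card_product]
      have hkc : k.coeff M ≠ 0 := by
        rw [← hkd]
        exact Polynomial.leadingCoeff_ne_zero.2 hk0
      have hkdeg : k.degree < ((M + 1 : ℕ) : WithBot ℕ) := by
        rw [Polynomial.degree_eq_natDegree hk0, hkd]
        exact_mod_cast Nat.lt_succ_self M
      symm
      refine Finset.card_bij (fun x _ => x.1 • k + x.2) ?_ ?_ ?_
      · rintro ⟨c, G⟩ hx
        rw [Finset.mem_product, Finset.mem_filter, hP] at hx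
        rw [Finset.mem_filter, hP]
        refine ⟨?_, K.add_mem (K.smul_mem c hkK) hx.2.2⟩
        refine lt_of_le_of_lt (Polynomial.degree_add_le _ _) (max_lt ?_ ?_)
        · exact lt_of_le_of_lt (Polynomial.degree_smul_le c k) hkdeg
        · refine lt_of_lt_of_le hx.2.1 ?_
          exact_mod_cast Nat.le_succ M
      · rintro ⟨c, G⟩ hx ⟨c', G'⟩ hx' he
        rw [Finset.mem_product, Finset.mem_filter, hP] at hx hx'
        simp only at he hx hx'
        have e1 := congrArg (fun p => Polynomial.coeff p M) he
        simp only [Polynomial.coeff_add, Polynomial.coeff_smul, smul_eq_mul,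
          Polynomial.coeff_eq_zero_of_degree_lt hx.2.1,
          Polynomial.coeff_eq_zero_of_degree_lt hx'.2.1, add_zero] at e1
        have e2 : c = c' := mul_right_cancel₀ hkc e1
        subst e2
        rw [add_left_cancel he]
      · intro H hH
        rw [Finset.mem_filter, hP] at hH
        refine ⟨(H.coeff M / k.coeff M, H - (H.coeff M / k.coeff M) • k), ?_, by simp⟩
        rw [Finset.mem_product, Finset.mem_filter, hP]
        refine ⟨Finset.mem_univ _, ?_, K.sub_mem hH.2 (K.smul_mem _ hkK)⟩
        rw [Polynomial.degree_lt_iff_coeff_zero]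
        intro m hm
        rcases Nat.eq_or_lt_of_le hm with rfl | hm'
        · rw [Polynomial.coeff_sub, Polynomial.coeff_smul, smul_eq_mul, div_mul_cancel₀ _ hkc,
            sub_self]
        · have a1 := (Polynomial.degree_lt_iff_coeff_zero H (M + 1)).1 hH.1 m hm'
          have a2 := (Polynomial.degree_lt_iff_coeff_zero k (M + 1)).1 hkdeg m hm'
          rw [Polynomial.coeff_sub, Polynomial.coeff_smul, a1, a2, smul_zero, sub_zero]
    · have hfil : (Finset.range (M + 1)).filter (fun j => ∃ G ∈ K, G ≠ 0 ∧ G.natDegree = j) =
          (Finset.range M).filter (fun j => ∃ G ∈ K, G ≠ 0 ∧ G.natDegree = j) := by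
        rw [Finset.range_add_one, Finset.filter_insert, if_neg h]
      rw [hfil, ← ih]
      congr 1
      ext G
      rw [Finset.mem_filter, Finset.mem_filter, hP, hP]
      constructor
      · rintro ⟨h1, h2⟩
        refine ⟨?_, h2⟩
        by_cases h0 : G = 0
        · rw [h0, Polynomial.degree_zero]
          exact bot_lt_iff_ne_bot.2 (by simp)
        · rw [Polynomial.degree_eq_natDegree h0] at h1 ⊢
          have h3 : G.natDegree < M + 1 := by exact_mod_cast h1
          have h4 : G.natDegree ≠ M := fun e => h ⟨G, h2, h0, e⟩
          exact_mod_cast (by omega : G.natDegree < M)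
      · rintro ⟨h1, h2⟩
        refine ⟨lt_of_lt_of_le h1 ?_, h2⟩
        exact_mod_cast Nat.le_succ M

end DH
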