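import Pool.Agent.H463.DH.Stm

open Polynomial
open scoped Classical

namespace DH

namespace XF1

theorem solz_card (F : Type) [Field F] [Fintype F] [CharP F 3] (hB0 : S_B0 F) (hB1 : S_B1 F) (g : ℕ)
    (f : F[X]) (hf : f.natDegree = 2 * g + 1) :
    (solz f).card = ∑ d ∈ Finset.range g, ((DEG F d).filter (fun v => IsSol f v)).card := by
  obtain ⟨-, -, hD, -⟩ := hB0
  obtain ⟨-, -, -, -, h5, -, h7, -⟩ := hB1
  have H : ∀ v ∈ solz f, v.natDegree ∈ Finset.range g := by
    intro v hv
    obtain ⟨hv0, hvs⟩ := (h7 f v).mp hv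
    have := h5 f v hv0 hvs
    rw [Finset.mem_range]
    omega
  rw [Finset.card_eq_sum_card_fiberwise (f := fun v : F[X] => v.natDegree) (t := Finset.range g) H]
  refine Finset.sum_congr rfl fun d _ => ?_
  congr 1
  ext v
  rw [Finset.mem_filter, Finset.mem_filter, h7, hD]
  tauto

end XF1

theorem p_F1 (F : Type) [Field F] [Fintype F] [CharP F 3] (hB0 : S_B0 F) (hB1 : S_B1 F) : S_F1 F := by
  intro g W
  have h1 : ∀ f ∈ (MON F (2 * g + 1)).filter (fun f => W ^ 2 ∣ f), (solz f).card =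
      ∑ d ∈ Finset.range g, ∑ v ∈ DEG F d, (if IsSol f v then 1 else 0) := by
    intro f hf
    have hdeg : f.natDegree = 2 * g + 1 := ((hB0.2.1 _ f).mp (Finset.mem_filter.mp hf).1).2
    rw [XF1.solz_card F hB0 hB1 g f hdeg]
    refine Finset.sum_congr rfl fun d _ => ?_
    rw [Finset.card_filter]
  rw [Finset.sum_congr rfl h1, Finset.sum_comm]
  refine Finset.sum_congr rfl fun d _ => ?_
  rw [Finset.sum_comm]
  refine Finset.sum_congr rfl fun v _ => ?_
  rw [← Finset.card_filter, Finset.filter_filter]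
  rfl

end DH
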