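import Pool.Agent.H463.DH.Stm

/-!
# Task F2: `#sol (P² f) ≤ 3 #sol f` (helper335, for helper463)
-/

open Polynomial
open scoped Classical

noncomputable section

namespace DH

namespace XF2

variable {F : Type} [Field F] [CharP F 3]

theorem three_eq : (3 : F[X]) = 0 := by
  have h : ((3 : ℕ) : F[X]) = 0 := CharP.cast_eq_zero F[X] 3
  exact_mod_cast h

theorem sub_cube (v w : F[X]) : (v - w) ^ 3 = v ^ 3 - w ^ 3 := by
  linear_combination (-(v ^ 2 * w) + v * w ^ 2) * (three_eq : (3 : F[X]) = 0)

theorem der_cube_mul (P g : F[X]) : derivative (P ^ 3 * g) = P ^ 3 * derivative g := by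
  rw [derivative_mul, derivative_pow]
  have h : (C ((3 : ℕ) : F) : F[X]) = 0 := by
    rw [CharP.cast_eq_zero, C_0]
  rw [h]
  ring

theorem isSol_sub {f v w : F[X]} (hv : IsSol f v) (hw : IsSol f w) : IsSol f (v - w) := by
  unfold IsSol at *
  rw [mul_sub, derivative_sub, derivative_sub, hv, hw, sub_cube]
  ring

theorem isSol_of_mul {P f u : F[X]} (hP : P ≠ 0) (h : IsSol (P ^ 2 * f) (P * u)) : IsSol f u := by
  unfold IsSol at *
  have e : P ^ 2 * f * (P * u) = P ^ 3 * (f * u) := by ring
  rw [e, der_cube_mul, der_cube_mul] at h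
  have h3 : P ^ 3 ≠ 0 := pow_ne_zero _ hP
  apply mul_left_cancel₀ h3
  rw [h]
  ring

theorem dvd_of_sol {P f v : F[X]} (h : IsSol (P ^ 2 * f) v) :
    P ∣ v ^ 3 - (derivative P ^ 2 * f) * v := by
  unfold IsSol at h
  have e : P ^ 2 * f * v = P * (P * (f * v)) := by ring
  obtain ⟨g, hg⟩ : ∃ g, g = f * v := ⟨_, rfl⟩
  rw [e, ← hg] at h
  simp only [derivative_mul, derivative_add] at h
  refine ⟨-(derivative (derivative P) * g + derivative (derivative P) * g +
    derivative P * derivative g + derivative P * derivative g + derivative P * derivative g +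
    derivative P * derivative g + P * derivative (derivative g)), ?_⟩
  have h3 := (three_eq : (3 : F[X]) = 0)
  linear_combination h - (derivative P ^ 2 * g) * h3 + derivative P ^ 2 * hg

end XF2

open XF2 in
theorem p_F2 (F : Type) [Field F] [Fintype F] [CharP F 3] (hB1 : S_B1 F) : S_F2 F := by
  intro P f hP hf
  have hsol := hB1.2.2.2.2.2.1
  have : Fact (Irreducible P) := ⟨hP⟩
  set c : AdjoinRoot P := AdjoinRoot.mk P (derivative P ^ 2 * f) with hc
  set R : (AdjoinRoot P)[X] := X ^ 3 - C c * X with hR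
  have hRd : R.natDegree = 3 := by
    rw [hR]
    compute_degree!
  have hR0 : R ≠ 0 := by
    intro h
    rw [h, natDegree_zero] at hRd
    exact absurd hRd (by norm_num)
  have hTc : R.roots.toFinset.card ≤ 3 := by
    calc R.roots.toFinset.card ≤ Multiset.card R.roots := Multiset.toFinset_card_le _
      _ ≤ R.natDegree := card_roots' R
      _ = 3 := hRd
  have hmaps : ∀ v ∈ sol (P ^ 2 * f), AdjoinRoot.mk P v ∈ R.roots.toFinset := by
    intro v hv
    rw [Multiset.mem_toFinset, mem_roots hR0, IsRoot.def, hR]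
    rw [eval_sub, eval_pow, eval_X, eval_mul, eval_C, eval_X, hc, ← map_pow, ← map_mul, ← map_sub,
      AdjoinRoot.mk_eq_zero]
    exact dvd_of_sol ((hsol _ _).1 hv)
  have hfib : ∀ b ∈ R.roots.toFinset,
      ((sol (P ^ 2 * f)).filter (fun v => AdjoinRoot.mk P v = b)).card ≤ (sol f).card := by
    intro b _
    rcases ((sol (P ^ 2 * f)).filter (fun v => AdjoinRoot.mk P v = b)).eq_empty_or_nonempty with
      he | ⟨v₀, hv₀⟩
    · rw [he, Finset.card_empty]
      exact Nat.zero_le _
    · rw [Finset.mem_filter] at hv₀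
      apply Finset.card_le_card_of_injOn (fun v => (v - v₀) / P)
      · intro v hv
        rw [Finset.mem_coe, Finset.mem_filter] at hv
        have hd : P ∣ v - v₀ := by
          rw [← AdjoinRoot.mk_eq_zero, map_sub, hv.2, hv₀.2, sub_self]
        have he : P * ((v - v₀) / P) = v - v₀ := EuclideanDomain.mul_div_cancel' hP.ne_zero hd
        rw [Finset.mem_coe, hsol]
        apply isSol_of_mul hP.ne_zero
        rw [he]
        exact isSol_sub ((hsol _ _).1 hv.1) ((hsol _ _).1 hv₀.1)
      · intro v hv w hw hvw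
        rw [Finset.mem_coe, Finset.mem_filter] at hv hw
        have hd : P ∣ v - v₀ := by
          rw [← AdjoinRoot.mk_eq_zero, map_sub, hv.2, hv₀.2, sub_self]
        have hd' : P ∣ w - v₀ := by
          rw [← AdjoinRoot.mk_eq_zero, map_sub, hw.2, hv₀.2, sub_self]
        have he : P * ((v - v₀) / P) = v - v₀ := EuclideanDomain.mul_div_cancel' hP.ne_zero hd
        have he' : P * ((w - v₀) / P) = w - v₀ := EuclideanDomain.mul_div_cancel' hP.ne_zero hd'
        have h1 : v - v₀ = w - v₀ := by
          rw [← he, ← he']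
          exact congrArg (fun z => P * z) hvw
        exact sub_left_injective h1
  calc (sol (P ^ 2 * f)).card ≤ (sol f).card * R.roots.toFinset.card :=
        Finset.card_le_mul_card_image_of_maps_to hmaps _ hfib
    _ ≤ (sol f).card * 3 := Nat.mul_le_mul_left _ hTc
    _ = 3 * (sol f).card := mul_comm _ _

end DH
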