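import Pool.Agent.H463.DH.Stm

/-! F3: the bound by the number of prime factors. -/

set_option linter.all false

open Polynomial
open scoped Classical

noncomputable section

namespace DH

namespace XF3

variable {F : Type} [Field F] [Fintype F] [CharP F 3]

theorem card_le (hF2 : S_F2 F) {f : F[X]} (hf : f ≠ 0) (s : Multiset F[X])
    (hs : ∀ P ∈ s, Irreducible P) :
    (sol (s.prod ^ 2 * f)).card ≤ 3 ^ (Multiset.card s) * (sol f).card := by
  induction s using Multiset.induction_on with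
  | empty => simp
  | cons P s ih =>
    have h1 : ∀ Q ∈ s, Irreducible Q := fun Q hQ => hs Q (Multiset.mem_cons_of_mem hQ)
    have h2 := ih h1
    have hP : Irreducible P := hs P (Multiset.mem_cons_self P s)
    have h3 : s.prod ≠ 0 := by
      intro h0
      rw [Multiset.prod_eq_zero_iff] at h0
      exact (h1 0 h0).ne_zero rfl
    have h4 : s.prod ^ 2 * f ≠ 0 := mul_ne_zero (pow_ne_zero _ h3) hf
    have h5 := hF2 P (s.prod ^ 2 * f) hP h4
    have h6 : (P ::ₘ s).prod ^ 2 * f = P ^ 2 * (s.prod ^ 2 * f) := by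
      rw [Multiset.prod_cons]
      ring
    rw [h6, Multiset.card_cons, pow_succ]
    calc (sol (P ^ 2 * (s.prod ^ 2 * f))).card ≤ 3 * (sol (s.prod ^ 2 * f)).card := h5
      _ ≤ 3 * (3 ^ (Multiset.card s) * (sol f).card) := Nat.mul_le_mul_left _ h2
      _ = 3 ^ (Multiset.card s) * 3 * (sol f).card := by ring

theorem card_le_monic (hF2 : S_F2 F) {f : F[X]} (hf : f ≠ 0) {W : F[X]} (hW : W.Monic) :
    (sol (W ^ 2 * f)).card ≤
      3 ^ (Multiset.card (UniqueFactorizationMonoid.normalizedFactors W)) * (sol f).card := by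
  have h1 := card_le hF2 hf (UniqueFactorizationMonoid.normalizedFactors W)
    (fun P hP => UniqueFactorizationMonoid.irreducible_of_normalized_factor P hP)
  rwa [UniqueFactorizationMonoid.prod_normalizedFactors_eq hW.ne_zero, hW.normalize_eq_self] at h1

theorem filter_eq (hB0 : S_B0 F) {n w : ℕ} {W : F[X]} (hW : W.Monic) (hw : W.natDegree = w)
    (hn : 2 * w ≤ n) : (MON F n).filter (fun f => W ^ 2 ∣ f) =
      (MON F (n - 2 * w)).image (fun f₁ => W ^ 2 * f₁) := by
  obtain ⟨-, hM, -⟩ := hB0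
  have hW2 : (W ^ 2).Monic := hW.pow 2
  have hd : (W ^ 2).natDegree = 2 * w := by rw [hW.natDegree_pow, hw]
  ext f
  rw [Finset.mem_filter, Finset.mem_image, hM]
  constructor
  · rintro ⟨⟨hf, hfn⟩, g, rfl⟩
    have hg : g.Monic := Polynomial.Monic.of_mul_monic_left hW2 hf
    refine ⟨g, (hM _ _).2 ⟨hg, ?_⟩, rfl⟩
    rw [hW2.natDegree_mul hg, hd] at hfn
    omega
  · rintro ⟨g, hg, rfl⟩
    rw [hM] at hg
    refine ⟨⟨hW2.mul hg.1, ?_⟩, dvd_mul_right _ _⟩
    rw [hW2.natDegree_mul hg.1, hd, hg.2]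
    omega

end XF3

theorem p_F3 (F : Type) [Field F] [Fintype F] [CharP F 3] (hB0 : S_B0 F) (hF2 : S_F2 F) :
    S_F3 F := by
  intro n w W hW hw hn
  rw [XF3.filter_eq hB0 hW hw hn, Finset.sum_image, Finset.mul_sum]
  · refine Finset.sum_le_sum fun f hf => XF3.card_le_monic hF2 ?_ hW
    exact ((hB0.2.1 _ _).1 hf).1.ne_zero
  · intro a _ b _ hab
    exact mul_left_cancel₀ (pow_ne_zero 2 hW.ne_zero) hab

end DH
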