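import Pool.Agent.H463.DH.Stm

/-!
# DH F6 : the tail of the sieve
-/

open Polynomial
open scoped Classical

noncomputable section

namespace DH

namespace XF6

lemma abs_mu_le {F : Type} [Field F] (W : F[X]) : |mu W| ≤ if Squarefree W then 1 else 0 := by
  unfold mu
  split_ifs with h
  · rw [abs_pow, abs_neg, abs_one, one_pow]
  · rw [abs_zero]

section

variable {F : Type} [Field F] [Fintype F] [CharP F 3]

omit [CharP F 3] in
lemma solz_le (hB1 : S_B1 F) (f : F[X]) : (solz f).card ≤ (sol f).card := by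
  have h := hB1.2.2.2.2.2.2.2.1 f
  omega

/-- the bound for one squarefree `W` -/
lemma one_W (hB0 : S_B0 F) (hB1 : S_B1 F) (hF3 : S_F3 F) (hF4 : S_F4 F) (g w : ℕ) (hw : w ≤ g)
    (W : F[X]) (hW : W ∈ MON F w) :
    ∑ f ∈ (MON F (2 * g + 1)).filter (fun f => W ^ 2 ∣ f), (solz f).card ≤
      3 ^ (Multiset.card (UniqueFactorizationMonoid.normalizedFactors W)) *
        (3 * Fintype.card F ^ (2 * (g - w) + 1)) := by
  obtain ⟨hm, hd⟩ := (hB0.2.1 w W).1 hW
  have e : 2 * g + 1 - 2 * w = 2 * (g - w) + 1 := by omega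
  have h3 := hF3 (2 * g + 1) w W hm hd (by omega)
  rw [e] at h3
  calc ∑ f ∈ (MON F (2 * g + 1)).filter (fun f => W ^ 2 ∣ f), (solz f).card
      ≤ ∑ f ∈ (MON F (2 * g + 1)).filter (fun f => W ^ 2 ∣ f), (sol f).card :=
        Finset.sum_le_sum (fun f _ => solz_le hB1 f)
    _ ≤ 3 ^ (Multiset.card (UniqueFactorizationMonoid.normalizedFactors W)) *
          ∑ f₁ ∈ MON F (2 * (g - w) + 1), (sol f₁).card := h3
    _ ≤ _ := Nat.mul_le_mul_left _ (hF4 (g - w))

/-- the bound for one degree `w` -/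
lemma one_w (hB0 : S_B0 F) (hB1 : S_B1 F) (hTA : S_TA F) (hF3 : S_F3 F) (hF4 : S_F4 F) (g w : ℕ)
    (hw : w ≤ g) :
    ∑ W ∈ (MON F w).filter (fun W => Squarefree W),
      ∑ f ∈ (MON F (2 * g + 1)).filter (fun f => W ^ 2 ∣ f), (solz f).card ≤
      (w + 1) ^ 2 * Fintype.card F ^ w * (3 * Fintype.card F ^ (2 * (g - w) + 1)) := by
  calc _ ≤ ∑ W ∈ (MON F w).filter (fun W => Squarefree W),
        3 ^ (Multiset.card (UniqueFactorizationMonoid.normalizedFactors W)) *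
        (3 * Fintype.card F ^ (2 * (g - w) + 1)) :=
        Finset.sum_le_sum (fun W hW => one_W hB0 hB1 hF3 hF4 g w hw W (Finset.mem_filter.1 hW).1)
    _ = (∑ W ∈ (MON F w).filter (fun W => Squarefree W),
        3 ^ (Multiset.card (UniqueFactorizationMonoid.normalizedFactors W))) *
        (3 * Fintype.card F ^ (2 * (g - w) + 1)) := by rw [Finset.sum_mul]
    _ ≤ _ := Nat.mul_le_mul_right _ (hTA.2 w)

/-- the same with the Moebius function, over the reals -/
lemma one_w_real (hB0 : S_B0 F) (hB1 : S_B1 F) (hTA : S_TA F) (hF3 : S_F3 F) (hF4 : S_F4 F)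
    (g w : ℕ) (hw : w ≤ g) :
    |∑ W ∈ MON F w,
      mu W * ∑ f ∈ (MON F (2 * g + 1)).filter (fun f => W ^ 2 ∣ f), ((solz f).card : ℝ)| ≤
      ((w : ℝ) + 1) ^ 2 * qq F ^ w * (3 * qq F ^ (2 * (g - w) + 1)) := by
  have h0 : ∀ W : F[X],
      0 ≤ ∑ f ∈ (MON F (2 * g + 1)).filter (fun f => W ^ 2 ∣ f), ((solz f).card : ℝ) :=
    fun W => Finset.sum_nonneg (fun f _ => Nat.cast_nonneg _)
  calc |∑ W ∈ MON F w,
      mu W * ∑ f ∈ (MON F (2 * g + 1)).filter (fun f => W ^ 2 ∣ f), ((solz f).card : ℝ)|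
      ≤ ∑ W ∈ MON F w, |mu W *
          ∑ f ∈ (MON F (2 * g + 1)).filter (fun f => W ^ 2 ∣ f), ((solz f).card : ℝ)| :=
        Finset.abs_sum_le_sum_abs _ _
    _ ≤ ∑ W ∈ MON F w, (if Squarefree W then
          ∑ f ∈ (MON F (2 * g + 1)).filter (fun f => W ^ 2 ∣ f), ((solz f).card : ℝ) else 0) := by
        refine Finset.sum_le_sum (fun W _ => ?_)
        rw [abs_mul, abs_of_nonneg (h0 W)]
        have h1 := abs_mu_le W
        have h2 := mul_le_mul_of_nonneg_right h1 (h0 W)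
        refine h2.trans (le_of_eq ?_)
        split_ifs
        · rw [one_mul]
        · rw [zero_mul]
    _ = ∑ W ∈ (MON F w).filter (fun W => Squarefree W),
          ∑ f ∈ (MON F (2 * g + 1)).filter (fun f => W ^ 2 ∣ f), ((solz f).card : ℝ) := by
        rw [Finset.sum_filter]
    _ ≤ _ := by
        have h := one_w hB0 hB1 hTA hF3 hF4 g w hw
        have h' : ((∑ W ∈ (MON F w).filter (fun W => Squarefree W),
            ∑ f ∈ (MON F (2 * g + 1)).filter (fun f => W ^ 2 ∣ f), (solz f).card : ℕ) : ℝ) ≤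
            (((w + 1) ^ 2 * Fintype.card F ^ w * (3 * Fintype.card F ^ (2 * (g - w) + 1)) : ℕ) : ℝ) := by
          exact_mod_cast h
        push_cast at h'
        unfold qq
        exact h'

omit [CharP F 3] in
lemma one_le_qq : (1 : ℝ) ≤ qq F := by
  unfold qq
  exact_mod_cast (Fintype.card_pos : 0 < Fintype.card F)

end

end XF6

open XF6 in
theorem p_F6 (F : Type) [Field F] [Fintype F] [CharP F 3] (hB0 : S_B0 F) (hB1 : S_B1 F)
    (hTA : S_TA F) (hF3 : S_F3 F) (hF4 : S_F4 F) : S_F6 F := by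
  intro g z hz
  have hq : (1 : ℝ) ≤ qq F := one_le_qq
  have hq0 : (0 : ℝ) < qq F := lt_of_lt_of_le one_pos hq
  have key : ∀ w ∈ (Finset.range (g + 1)).filter (fun w => z < w),
      |∑ W ∈ MON F w,
        mu W * ∑ f ∈ (MON F (2 * g + 1)).filter (fun f => W ^ 2 ∣ f), ((solz f).card : ℝ)| ≤
        3 * ((g : ℝ) + 1) ^ 2 * (qq F ^ (2 * g + 1) / qq F ^ z) := by
    intro w hw
    rw [Finset.mem_filter, Finset.mem_range] at hw
    obtain ⟨hwg, hzw⟩ := hw
    have hwg' : w ≤ g := by omega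
    refine (one_w_real hB0 hB1 hTA hF3 hF4 g w hwg').trans ?_
    have h1 : ((w : ℝ) + 1) ^ 2 ≤ ((g : ℝ) + 1) ^ 2 := by
      have : (w : ℝ) ≤ g := by exact_mod_cast hwg'
      have hw0 : (0 : ℝ) ≤ w := Nat.cast_nonneg _
      exact pow_le_pow_left₀ (by linarith) (by linarith) 2
    have h2 : qq F ^ w * qq F ^ (2 * (g - w) + 1) ≤ qq F ^ (2 * g + 1) / qq F ^ z := by
      rw [le_div_iff₀ (pow_pos hq0 _), ← pow_add, ← pow_add]
      exact pow_le_pow_right₀ hq (by omega)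
    calc ((w : ℝ) + 1) ^ 2 * qq F ^ w * (3 * qq F ^ (2 * (g - w) + 1))
        = (3 * ((w : ℝ) + 1) ^ 2) * (qq F ^ w * qq F ^ (2 * (g - w) + 1)) := by ring
      _ ≤ (3 * ((g : ℝ) + 1) ^ 2) * (qq F ^ (2 * g + 1) / qq F ^ z) := by
          refine mul_le_mul ?_ h2 ?_ ?_
          · linarith
          · exact mul_nonneg (pow_nonneg hq0.le _) (pow_nonneg hq0.le _)
          · positivity
  calc |∑ w ∈ (Finset.range (g + 1)).filter (fun w => z < w), ∑ W ∈ MON F w,
      mu W * ∑ f ∈ (MON F (2 * g + 1)).filter (fun f => W ^ 2 ∣ f), ((solz f).card : ℝ)|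
      ≤ ∑ w ∈ (Finset.range (g + 1)).filter (fun w => z < w), |∑ W ∈ MON F w,
          mu W * ∑ f ∈ (MON F (2 * g + 1)).filter (fun f => W ^ 2 ∣ f), ((solz f).card : ℝ)| :=
        Finset.abs_sum_le_sum_abs _ _
    _ ≤ ∑ _w ∈ (Finset.range (g + 1)).filter (fun w => z < w),
          3 * ((g : ℝ) + 1) ^ 2 * (qq F ^ (2 * g + 1) / qq F ^ z) := Finset.sum_le_sum key
    _ = (((Finset.range (g + 1)).filter (fun w => z < w)).card : ℝ) *
          (3 * ((g : ℝ) + 1) ^ 2 * (qq F ^ (2 * g + 1) / qq F ^ z)) := by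
        rw [Finset.sum_const, nsmul_eq_mul]
    _ ≤ ((g : ℝ) + 1) * (3 * ((g : ℝ) + 1) ^ 2 * (qq F ^ (2 * g + 1) / qq F ^ z)) := by
        refine mul_le_mul_of_nonneg_right ?_ (by positivity)
        have h := Finset.card_filter_le (Finset.range (g + 1)) (fun w => z < w)
        rw [Finset.card_range] at h
        exact_mod_cast h
    _ = 3 * (g + 1) ^ 3 * qq F ^ (2 * g + 1) / qq F ^ z := by ring

end DH
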