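import Pool.Agent.H463.DH.Stm

/-!
# Task G0 (helper980): two solutions with cube ratio are equal up to sign
-/

set_option autoImplicit false

open Polynomial
open scoped Classical

noncomputable section

namespace DH

namespace XG0

variable {F : Type} [Field F] [CharP F 3]

lemma three : (3 : F[X]) = 0 := by
  have h : ((3 : ℕ) : F[X]) = 0 := CharP.cast_eq_zero F[X] 3
  exact_mod_cast h

lemma cube_inj {x y : F[X]} (h : x ^ 3 = y ^ 3) : x = y := by
  have h1 : (x - y) ^ 3 = 0 := by
    have h3 := three (F := F)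
    linear_combination h + (-(x ^ 2 * y) + x * y ^ 2) * h3
  exact sub_eq_zero.1 (pow_eq_zero_iff (by norm_num) |>.1 h1)

lemma d2_mul_cube (g b : F[X]) :
    derivative (derivative (g * b ^ 3)) = derivative (derivative g) * b ^ 3 := by
  have hb : derivative (b ^ 3) = 0 := by
    rw [derivative_pow, CharP.cast_eq_zero F 3, C_0, zero_mul, zero_mul]
  rw [derivative_mul, hb, mul_zero, add_zero, derivative_mul, hb, mul_zero, add_zero]

end XG0

open XG0 in
theorem p_G0 (F : Type) [Field F] [Fintype F] [CharP F 3] (hB1 : S_B1 F) : S_G0 F := by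
  intro f v₁ v₂ h1 h2 hs1 hs2 hr
  have h3 := three (F := F)
  have hd : derivative (v₁ * v₂ ^ 2) = 0 := by
    rw [derivative_mul, sq, derivative_mul]
    linear_combination v₂ * hr + (v₁ * v₂ * derivative v₂) * h3
  obtain ⟨A, hA⟩ := (hB1.1 _).1 hd
  have e1 : derivative (derivative (f * v₁)) * v₂ ^ 3 = derivative (derivative (f * v₂)) * A ^ 3 := by
    rw [← d2_mul_cube, ← d2_mul_cube, ← hA]
    congr 2
    ring
  unfold IsSol at hs1 hs2
  rw [hs1, hs2] at e1
  have e2 : v₁ ^ 3 = A ^ 3 := by
    apply mul_right_cancel₀ (pow_ne_zero 3 h2)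
    linear_combination -e1
  have e3 := cube_inj e2
  rw [← e3] at hA
  have e4 : v₂ ^ 2 = v₁ ^ 2 := by
    apply mul_left_cancel₀ h1
    rw [hA]
    ring
  rcases sq_eq_sq_iff_eq_or_eq_neg.1 e4 with h | h
  · exact Or.inl h.symm
  · right
    rw [h, neg_neg]

end DH
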