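import Pool.Agent.H463.DH.Stm

/-!
# G1 : the polynomials `h` with `(h v₁)'' = (h v₂)'' = 0` (helper729)
-/

open Polynomial
open scoped Classical

noncomputable section

namespace DH

namespace XG1

variable {F : Type} [Field F] [CharP F 3]

theorem der_cube (c : F[X]) : derivative (c ^ 3) = 0 := by
  have h3 : ((3 : ℕ) : F) = 0 := CharP.cast_eq_zero F 3
  rw [derivative_pow, h3, C_0, zero_mul, zero_mul]

theorem der2 (c g : F[X]) : derivative (derivative (c ^ 3 * g)) = c ^ 3 * derivative (derivative g) := by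
  rw [derivative_mul, der_cube, zero_mul, zero_add, derivative_mul, der_cube, zero_mul, zero_add]

theorem two_ne : (2 : F[X]) ≠ 0 := by
  intro h
  have h2 : ((2 : ℕ) : F) = 0 := by
    have h4 := congrArg (eval 0) h
    simpa using h4
  have h3 := (CharP.cast_eq_zero_iff F 3 2).1 h2
  omega

omit [CharP F 3] in
/-- a cube-free polynomial whose square divides a cube -/
theorem dvd_of_cube {f A h : F[X]} (hf : CubeFree f) (hf0 : f ≠ 0) (e : h * f ^ 2 = A ^ 3) : f ∣ A := by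
  obtain ⟨g, hg⟩ : ∃ g, g = EuclideanDomain.gcd f A := ⟨_, rfl⟩
  obtain ⟨u, hu⟩ : g ∣ f := by rw [hg]; exact EuclideanDomain.gcd_dvd_left f A
  obtain ⟨w, hw⟩ : g ∣ A := by rw [hg]; exact EuclideanDomain.gcd_dvd_right f A
  have hg0 : g ≠ 0 := by
    rintro rfl
    rw [zero_mul] at hu
    exact hf0 hu
  have hb : g = f * EuclideanDomain.gcdA f A + A * EuclideanDomain.gcdB f A := by
    rw [hg]; exact EuclideanDomain.gcd_eq_gcd_ab f A
  have hcop : IsCoprime u w := by
    refine ⟨EuclideanDomain.gcdA f A, EuclideanDomain.gcdB f A, ?_⟩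
    apply mul_left_cancel₀ hg0
    rw [mul_one]
    calc g * (EuclideanDomain.gcdA f A * u + EuclideanDomain.gcdB f A * w) =
        (g * u) * EuclideanDomain.gcdA f A + (g * w) * EuclideanDomain.gcdB f A := by ring
      _ = g := by rw [← hu, ← hw, ← hb]
  have h1 : u ^ 2 ∣ g * w ^ 3 := by
    refine ⟨h, ?_⟩
    apply mul_left_cancel₀ (pow_ne_zero 2 hg0)
    rw [hu, hw] at e
    linear_combination -e
  have h2 : u ^ 2 ∣ g := (IsCoprime.pow hcop).dvd_of_dvd_mul_right h1
  have h3 : IsUnit u := by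
    apply hf
    obtain ⟨t, ht⟩ := h2
    refine ⟨t, ?_⟩
    rw [hu]
    nth_rewrite 1 [ht]
    ring
  obtain ⟨t, ht⟩ := h3.exists_right_inv
  refine ⟨t * w, ?_⟩
  calc A = g * w := hw
    _ = (g * u) * (t * w) := by linear_combination (-(g * w)) * ht
    _ = f * (t * w) := by rw [← hu]

/-- the derivative of `h f₀²` vanishes -/
theorem der_zero {v₁ v₂ f h : F[X]} (hv : derivative v₁ * v₂ ≠ v₁ * derivative v₂) (hf : f ≠ 0)
    (f1 : derivative (derivative (f * v₁)) = 0) (f2 : derivative (derivative (f * v₂)) = 0)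
    (h1 : derivative (derivative (h * v₁)) = 0) (h2 : derivative (derivative (h * v₂)) = 0) :
    derivative (h * f ^ 2) = 0 := by
  obtain ⟨ρ, hρ⟩ : ∃ ρ, ρ = h * f ^ 2 := ⟨_, rfl⟩
  have key : ∀ v : F[X], derivative (derivative (f * v)) = 0 → derivative (derivative (h * v)) = 0 →
      derivative (derivative ρ) * (f * v) + 2 * derivative ρ * derivative (f * v) = 0 := by
    intro v hfv hhv
    have e1 : ρ * (f * v) = f ^ 3 * (h * v) := by rw [hρ]; ring
    have e2 : derivative (derivative (ρ * (f * v))) = 0 := by rw [e1, der2, hhv, mul_zero]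
    have e3 : ∀ x : F[X], derivative (derivative (ρ * x)) = derivative (derivative ρ) * x +
        2 * derivative ρ * derivative x + ρ * derivative (derivative x) := by
      intro x
      rw [derivative_mul, derivative_add, derivative_mul, derivative_mul]
      ring
    rw [e3, hfv, mul_zero, add_zero] at e2
    exact e2
  have k1 := key v₁ f1 h1
  have k2 := key v₂ f2 h2
  have k3 : 2 * derivative ρ * (f ^ 2 * (derivative v₁ * v₂ - v₁ * derivative v₂)) = 0 := by
    rw [derivative_mul] at k1 k2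
    linear_combination (f * v₂) * k1 - (f * v₁) * k2
  rw [← hρ]
  rcases mul_eq_zero.1 k3 with h5 | h5
  · exact (mul_eq_zero.1 h5).resolve_left two_ne
  · rcases mul_eq_zero.1 h5 with h6 | h6
    · exact absurd h6 (pow_ne_zero 2 hf)
    · exact absurd (sub_eq_zero.1 h6) hv

end XG1

theorem p_G1 (F : Type) [Field F] [Fintype F] [CharP F 3] (hB1 : S_B1 F) (hCP : S_CP F) : S_G1 F := by
  intro v₁ v₂ h₀ hv hh0 h1 h2
  obtain ⟨hm, ⟨f₁, hf₁⟩, -⟩ := hCP.1 h₀ hh0
  have hcf := hCP.2.1 h₀ f₁ hh0 hf₁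
  have hc0 : cpart h₀ ≠ 0 := hm.ne_zero
  have hf10 : f₁ ≠ 0 := by
    rintro rfl
    rw [mul_zero] at hf₁
    exact hh0 hf₁
  have hl : f₁.leadingCoeff ≠ 0 := leadingCoeff_ne_zero.2 hf10
  obtain ⟨f₀, hf₀⟩ : ∃ f₀, f₀ = f₁ * C (f₁.leadingCoeff)⁻¹ := ⟨_, rfl⟩
  have hmon : f₀.Monic := by
    rw [hf₀]
    exact monic_mul_leadingCoeff_inv hf10
  have hf0 : f₀ ≠ 0 := hmon.ne_zero
  have e1 : f₁ = f₀ * C f₁.leadingCoeff := by
    rw [hf₀, mul_assoc, ← C_mul, inv_mul_cancel₀ hl, C_1, mul_one]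
  have e2 : h₀ = cpart h₀ ^ 3 * (f₀ * C f₁.leadingCoeff) := by rw [← e1]; exact hf₁
  have hcube : CubeFree f₀ := by
    intro b hb
    exact hcf b (hb.trans ⟨_, e1⟩)
  have hz : ∀ v : F[X], derivative (derivative (h₀ * v)) = 0 → derivative (derivative (f₀ * v)) = 0 := by
    intro v hv0
    have e3 : h₀ * v = cpart h₀ ^ 3 * (C f₁.leadingCoeff * (f₀ * v)) := by
      nth_rewrite 1 [e2]
      ring
    rw [e3, XG1.der2, derivative_C_mul, derivative_C_mul] at hv0
    have h5 := (mul_eq_zero.1 hv0).resolve_left (pow_ne_zero 3 hc0)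
    exact (mul_eq_zero.1 h5).resolve_left (C_ne_zero.2 hl)
  refine ⟨f₀, hmon, hcube, natDegree_le_of_dvd ?_ hh0, ?_⟩
  · refine ⟨cpart h₀ ^ 3 * C f₁.leadingCoeff, ?_⟩
    nth_rewrite 1 [e2]
    ring
  · intro h
    constructor
    · rintro ⟨h3, h4⟩
      have h5 := XG1.der_zero hv hf0 (hz v₁ h1) (hz v₂ h2) h3 h4
      obtain ⟨A, hA⟩ := (hB1.1 _).1 h5
      obtain ⟨c, hc⟩ := XG1.dvd_of_cube hcube hf0 hA
      refine ⟨c, ?_⟩
      apply mul_right_cancel₀ (pow_ne_zero 2 hf0)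
      rw [hA, hc]
      ring
    · rintro ⟨c, rfl⟩
      have e4 : ∀ v : F[X], derivative (derivative (h₀ * v)) = 0 →
          derivative (derivative (f₀ * c ^ 3 * v)) = 0 := by
        intro v hv0
        have e5 : f₀ * c ^ 3 * v = c ^ 3 * (f₀ * v) := by ring
        rw [e5, XG1.der2, hz v hv0, mul_zero]
      exact ⟨e4 v₁ h1, e4 v₂ h2⟩

end DH
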