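import Pool.Agent.H463.DH.Stm

/-! # Task G2 (helper553) -/

open Polynomial
open scoped Classical

noncomputable section

namespace DH

namespace XG2

variable {F : Type} [Field F]

theorem diff_lt {f g : F[X]} {n : ℕ} (hn : 1 ≤ n) (hf : f.Monic) (hfn : f.natDegree = n) (hg : g.Monic)
    (hgn : g.natDegree = n) (h0 : f - g ≠ 0) : (f - g).natDegree < n := by
  have h1 : (f - g).degree < f.degree := by
    apply degree_sub_lt _ hf.ne_zero
    · rw [hf.leadingCoeff, hg.leadingCoeff]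
    · rw [degree_eq_natDegree hf.ne_zero, degree_eq_natDegree hg.ne_zero, hfn, hgn]
  rw [← hfn]
  exact natDegree_lt_natDegree h0 h1

theorem diff_sol {f g v : F[X]} (hf : IsSol f v) (hg : IsSol g v) :
    derivative (derivative ((f - g) * v)) = 0 := by
  unfold IsSol at hf hg
  rw [sub_mul, derivative_sub, derivative_sub, hf, hg, sub_self]

end XG2

open XG2

theorem p_G2 (F : Type) [Field F] [Fintype F] [CharP F 3] (hB0 : S_B0 F) (hG1 : S_G1 F) :
    S_G2 F := by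
  intro n v₁ v₂ hn hv
  obtain ⟨B1, B2, _, B4, _, _⟩ := hB0
  obtain ⟨S, hS⟩ : ∃ S, S = (MON F n).filter (fun f => IsSol f v₁ ∧ IsSol f v₂) := ⟨_, rfl⟩
  rw [← hS]
  have hmem : ∀ f, f ∈ S ↔ (f.Monic ∧ f.natDegree = n) ∧ IsSol f v₁ ∧ IsSol f v₂ := by
    intro f
    rw [hS, Finset.mem_filter, B2]
  by_cases hc : S.card ≤ 1
  · omega
  push Not at hc
  obtain ⟨f₁, hf₁, f₂, hf₂, hne⟩ := Finset.one_lt_card.1 hc
  rw [hmem] at hf₁ hf₂
  obtain ⟨⟨a1, a2⟩, a3, a4⟩ := hf₁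
  obtain ⟨⟨b1, b2⟩, b3, b4⟩ := hf₂
  have hh0 : f₁ - f₂ ≠ 0 := sub_ne_zero.2 hne
  obtain ⟨f₀, k1, k2, k3, k4⟩ := hG1 v₁ v₂ (f₁ - f₂) hv hh0 (diff_sol a3 b3) (diff_sol a4 b4)
  have hdeg := diff_lt hn a1 a2 b1 b2 hh0
  have hs : f₀.natDegree < n := by omega
  obtain ⟨k5, k6⟩ := (k4 f₀).2 ⟨1, by rw [one_pow, mul_one]⟩
  have hsub : S ⊆ (POL F ((n - 1 - f₀.natDegree) / 3 + 1)).image (fun c => f₁ + f₀ * c ^ 3) := by
    intro f hf
    rw [hmem] at hf
    obtain ⟨⟨c1, c2⟩, c3, c4⟩ := hf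
    obtain ⟨c, hc⟩ := (k4 (f - f₁)).1 ⟨diff_sol c3 a3, diff_sol c4 a4⟩
    rw [Finset.mem_image]
    refine ⟨c, ?_, by rw [← hc]; ring⟩
    rw [B1]
    by_cases h0 : c = 0
    · rw [h0, degree_zero]
      exact WithBot.bot_lt_coe _
    · have h1 : f₀ * c ^ 3 ≠ 0 := mul_ne_zero k1.ne_zero (pow_ne_zero 3 h0)
      have h2 := diff_lt hn c1 c2 a1 a2 (by rw [hc]; exact h1)
      rw [hc, natDegree_mul k1.ne_zero (pow_ne_zero 3 h0), natDegree_pow] at h2
      rw [← natDegree_lt_iff_degree_lt h0]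
      omega
  have hcard : S.card ≤ Fintype.card F ^ ((n - 1 - f₀.natDegree) / 3 + 1) := by
    rw [← B4]
    exact (Finset.card_le_card hsub).trans Finset.card_image_le
  have hin : f₀ ∈ (MON F f₀.natDegree).filter (fun f₀ => CubeFree f₀ ∧
      derivative (derivative (f₀ * v₁)) = 0 ∧ derivative (derivative (f₀ * v₂)) = 0) := by
    rw [Finset.mem_filter, B2]
    exact ⟨⟨k1, rfl⟩, k2, k5, k6⟩
  have e1 : Fintype.card F ^ ((n - 1 - f₀.natDegree) / 3 + 1) ≤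
      ∑ _f₀ ∈ (MON F f₀.natDegree).filter (fun f₀ => CubeFree f₀ ∧
        derivative (derivative (f₀ * v₁)) = 0 ∧ derivative (derivative (f₀ * v₂)) = 0),
        Fintype.card F ^ ((n - 1 - f₀.natDegree) / 3 + 1) :=
    Finset.single_le_sum (f := fun _ => Fintype.card F ^ ((n - 1 - f₀.natDegree) / 3 + 1))
      (fun _ _ => Nat.zero_le _) hin
  have e2 : ∑ _f₀ ∈ (MON F f₀.natDegree).filter (fun f₀ => CubeFree f₀ ∧
        derivative (derivative (f₀ * v₁)) = 0 ∧ derivative (derivative (f₀ * v₂)) = 0),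
        Fintype.card F ^ ((n - 1 - f₀.natDegree) / 3 + 1) ≤
      ∑ s ∈ Finset.range n, ∑ _f₀ ∈ (MON F s).filter (fun f₀ => CubeFree f₀ ∧
        derivative (derivative (f₀ * v₁)) = 0 ∧ derivative (derivative (f₀ * v₂)) = 0),
        Fintype.card F ^ ((n - 1 - s) / 3 + 1) :=
    Finset.single_le_sum (f := fun s => ∑ _f₀ ∈ (MON F s).filter (fun f₀ => CubeFree f₀ ∧
        derivative (derivative (f₀ * v₁)) = 0 ∧ derivative (derivative (f₀ * v₂)) = 0),
        Fintype.card F ^ ((n - 1 - s) / 3 + 1)) (fun _ _ => Nat.zero_le _)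
      (Finset.mem_range.2 hs)
  omega

end DH
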