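import Pool.Agent.H463.DH.Stm

/-! # G3: the size of the kernel -/

set_option autoImplicit false

open Polynomial
open scoped Classical

noncomputable section

namespace DH

namespace XG3

variable {F : Type} [Field F] [CharP F 3]

lemma d_Xpow (i : ℕ) : derivative (X ^ (3 * i) : F[X]) = 0 := by
  rw [derivative_X_pow, Nat.cast_mul]
  have h : ((3 : ℕ) : F) = 0 := CharP.cast_eq_zero F 3
  rw [h]
  simp

lemma dd_mul {P G : F[X]} (hP : derivative P = 0) :
    derivative (derivative (P * G)) = P * derivative (derivative G) := by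
  rw [derivative_mul, hP, zero_mul, zero_add, derivative_mul, hP, zero_mul, zero_add]

/-- the subspace of the `G` with `G'' = 0` and `f₀ ∣ G` -/
def KK (f₀ : F[X]) : Submodule F F[X] where
  carrier := {G | derivative (derivative G) = 0 ∧ f₀ ∣ G}
  zero_mem' := ⟨by simp, dvd_zero _⟩
  add_mem' := by
    rintro a b ⟨h1, h2⟩ ⟨h3, h4⟩
    exact ⟨by rw [derivative_add, derivative_add, h1, h3, add_zero], dvd_add h2 h4⟩
  smul_mem' := by
    rintro c a ⟨h1, h2⟩
    refine ⟨?_, ?_⟩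
    · rw [derivative_smul, derivative_smul, h1, smul_zero]
    · rw [smul_eq_C_mul]
      exact h2.mul_left _

lemma mem_KK {f₀ G : F[X]} : G ∈ KK f₀ ↔ derivative (derivative G) = 0 ∧ f₀ ∣ G := Iff.rfl

/-- division by the element of minimal degree -/
lemma divi {f₀ k : F[X]} {M : ℕ} (hk : k ∈ KK f₀) (hk0 : k ≠ 0)
    (h : ∀ G ∈ KK f₀, G ≠ 0 → G.natDegree < M →
      G.natDegree % 3 = k.natDegree % 3 ∧ k.natDegree ≤ G.natDegree) :
    ∀ (n : ℕ) (G : F[X]), G ∈ KK f₀ → G.natDegree < M → G.natDegree ≤ n →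
      ∃ P : F[X], derivative P = 0 ∧ G = k * P := by
  intro n
  induction n using Nat.strong_induction_on with
  | _ n ih =>
    intro G hG hGM hGn
    by_cases hG0 : G = 0
    · exact ⟨0, derivative_zero, by rw [hG0, mul_zero]⟩
    · obtain ⟨h1, h2⟩ := h G hG hG0 hGM
      obtain ⟨i, hi⟩ : ∃ i, G.natDegree = k.natDegree + 3 * i := ⟨(G.natDegree - k.natDegree) / 3,
        by omega⟩
      obtain ⟨a, ha⟩ : ∃ a : F, a = G.leadingCoeff / k.leadingCoeff := ⟨_, rfl⟩
      have hkl : k.leadingCoeff ≠ 0 := leadingCoeff_ne_zero.2 hk0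
      have hGl : G.leadingCoeff ≠ 0 := leadingCoeff_ne_zero.2 hG0
      have ha0 : a ≠ 0 := by
        rw [ha]
        exact div_ne_zero hGl hkl
      obtain ⟨P₁, hP₁⟩ : ∃ P₁ : F[X], P₁ = C a * X ^ (3 * i) := ⟨_, rfl⟩
      have hP₁d : derivative P₁ = 0 := by
        rw [hP₁, derivative_mul, derivative_C, d_Xpow, zero_mul, mul_zero, add_zero]
      have hP₁0 : P₁ ≠ 0 := by
        rw [hP₁]
        exact mul_ne_zero (C_ne_zero.2 ha0) (pow_ne_zero _ X_ne_zero)
      have hP₁n : P₁.natDegree = 3 * i := by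
        rw [hP₁]
        exact natDegree_C_mul_X_pow (3 * i) a ha0
      have hkP0 : k * P₁ ≠ 0 := mul_ne_zero hk0 hP₁0
      have hkPn : (k * P₁).natDegree = G.natDegree := by
        rw [natDegree_mul hk0 hP₁0, hP₁n, hi]
      have hkP : k * P₁ ∈ KK f₀ := by
        rw [mem_KK] at hk ⊢
        refine ⟨?_, hk.2.mul_right _⟩
        rw [mul_comm, dd_mul hP₁d, hk.1, mul_zero]
      have hlt : (G - k * P₁).degree < G.degree := by
        refine degree_sub_lt_left ?_ hG0 ?_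
        · rw [degree_eq_natDegree hG0, degree_eq_natDegree hkP0, hkPn]
        · rw [leadingCoeff_mul, hP₁, leadingCoeff_C_mul_X_pow, ha, mul_div_cancel₀ _ hkl]
      by_cases h0 : G - k * P₁ = 0
      · exact ⟨P₁, hP₁d, sub_eq_zero.1 h0⟩
      · have hlt' : (G - k * P₁).natDegree < G.natDegree := natDegree_lt_natDegree h0 hlt
        obtain ⟨P, hP, hPe⟩ := ih (G - k * P₁).natDegree (by omega) (G - k * P₁)
          ((KK f₀).sub_mem hG hkP) (by omega) le_rfl
        refine ⟨P + P₁, by rw [derivative_add, hP, hP₁d, add_zero], ?_⟩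
        linear_combination hPe

/-- if all degrees are in one class, the Wronskian vanishes -/
lemma one_class {f₀ k v₁ v₂ : F[X]} {M : ℕ} (hf₀ : f₀ ≠ 0) (hk : k ∈ KK f₀) (hk0 : k ≠ 0)
    (h : ∀ G ∈ KK f₀, G ≠ 0 → G.natDegree < M →
      G.natDegree % 3 = k.natDegree % 3 ∧ k.natDegree ≤ G.natDegree)
    (h1 : f₀ * v₁ ∈ KK f₀) (h2 : f₀ * v₂ ∈ KK f₀) (hM1 : (f₀ * v₁).natDegree < M)
    (hM2 : (f₀ * v₂).natDegree < M) : derivative v₁ * v₂ = v₁ * derivative v₂ := by
  obtain ⟨P₁, hP₁, e1⟩ := divi hk hk0 h _ _ h1 hM1 le_rfl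
  obtain ⟨P₂, hP₂, e2⟩ := divi hk hk0 h _ _ h2 hM2 le_rfl
  by_cases hP : P₂ = 0
  · rw [hP, mul_zero] at e2
    have h3 : v₂ = 0 := (mul_eq_zero.1 e2).resolve_left hf₀
    rw [h3, derivative_zero, mul_zero, mul_zero]
  · have e3 : v₁ * P₂ = v₂ * P₁ := by
      apply mul_left_cancel₀ hf₀
      linear_combination P₂ * e1 - P₁ * e2
    have e4 : derivative v₁ * P₂ = derivative v₂ * P₁ := by
      have h3 := congrArg derivative e3
      rw [derivative_mul, derivative_mul, hP₁, hP₂, mul_zero, mul_zero, add_zero, add_zero] at h3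
      exact h3
    apply mul_left_cancel₀ hP
    linear_combination v₂ * e4 - derivative v₂ * e3

lemma cnt0 (M a : ℕ) : ((Finset.range M).filter fun j => j % 3 = 0 ∧ 3 * a ≤ j).card =
    (M + 2) / 3 - a := by
  have h : ((Finset.range M).filter fun j => j % 3 = 0 ∧ 3 * a ≤ j) =
      (Finset.Ico a ((M + 2) / 3)).image fun i => 3 * i := by
    ext j
    rw [Finset.mem_filter, Finset.mem_range, Finset.mem_image]
    constructor
    · rintro ⟨h1, h2, h3⟩
      exact ⟨j / 3, Finset.mem_Ico.2 ⟨by omega, by omega⟩, by omega⟩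
    · rintro ⟨i, hi, rfl⟩
      have := Finset.mem_Ico.1 hi
      omega
  rw [h, Finset.card_image_of_injective _ (fun x y hxy => by
    have : 3 * x = 3 * y := hxy
    omega), Nat.card_Ico]

lemma cnt1 (M a : ℕ) : ((Finset.range M).filter fun j => j % 3 = 1 ∧ 3 * a + 1 ≤ j).card =
    (M + 1) / 3 - a := by
  have h : ((Finset.range M).filter fun j => j % 3 = 1 ∧ 3 * a + 1 ≤ j) =
      (Finset.Ico a ((M + 1) / 3)).image fun i => 3 * i + 1 := by
    ext j
    rw [Finset.mem_filter, Finset.mem_range, Finset.mem_image]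
    constructor
    · rintro ⟨h1, h2, h3⟩
      exact ⟨j / 3, Finset.mem_Ico.2 ⟨by omega, by omega⟩, by omega⟩
    · rintro ⟨i, hi, rfl⟩
      have := Finset.mem_Ico.1 hi
      omega
  rw [h, Finset.card_image_of_injective _ (fun x y hxy => by
    have : 3 * x + 1 = 3 * y + 1 := hxy
    omega), Nat.card_Ico]

end XG3

open XG3

theorem p_G3 (F : Type) [Field F] [Fintype F] [CharP F 3] (hB0 : S_B0 F) (hB3 : S_B3 F)
    (hDC : S_DC F) : S_G3 F := by
  intro g s f₀ v₁ v₂ hf₀ hs hcf hv₁ hv₂ hW h1 h2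
  have hf0 : f₀ ≠ 0 := hf₀.ne_zero
  obtain ⟨k₀, k₁, dk₀, dk₁, fk₀, fk₁, k₀0, k₁0, c₀, c₁, hsum, hmin⟩ := hB3 f₀ hf0 hcf
  have hk₀ : k₀ ∈ KK f₀ := ⟨dk₀, fk₀⟩
  have hk₁ : k₁ ∈ KK f₀ := ⟨dk₁, fk₁⟩
  have hg1 : f₀ * v₁ ∈ KK f₀ := ⟨h1, dvd_mul_right _ _⟩
  have hg2 : f₀ * v₂ ∈ KK f₀ := ⟨h2, dvd_mul_right _ _⟩
  have hv10 : v₁ ≠ 0 := by
    rintro rfl
    apply hW
    rw [derivative_zero, zero_mul, zero_mul]
  have hv20 : v₂ ≠ 0 := by
    rintro rfl
    apply hW
    rw [derivative_zero, mul_zero, mul_zero]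
  have hdeg : ∀ v : F[X], v ≠ 0 → v ∈ POL F g → (f₀ * v).natDegree < g + s := by
    intro v hv hvg
    rw [hB0.1, degree_eq_natDegree hv] at hvg
    have h3 : v.natDegree < g := by exact_mod_cast hvg
    rw [natDegree_mul hf0 hv, hs]
    omega
  have hd1 := hdeg v₁ hv10 hv₁
  have hd2 := hdeg v₂ hv20 hv₂
  have he₁ : k₁.natDegree < g + s := by
    by_contra hcon
    apply hW
    refine one_class (k := k₀) (M := g + s) hf0 hk₀ k₀0 (fun G hG hG0 hGM => ?_) hg1 hg2 hd1 hd2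
    rcases hmin G hG0 hG.1 hG.2 with h3 | h3
    · exact ⟨by omega, h3.2⟩
    · omega
  have he₀ : k₀.natDegree < g + s := by
    by_contra hcon
    apply hW
    refine one_class (k := k₁) (M := g + s) hf0 hk₁ k₁0 (fun G hG hG0 hGM => ?_) hg1 hg2 hd1 hd2
    rcases hmin G hG0 hG.1 hG.2 with h3 | h3
    · omega
    · exact ⟨by omega, h3.2⟩
  rw [hs] at hsum
  have hs2 : s < 2 * g := by omega
  refine ⟨hs2, by unfold NN; omega, ?_⟩
  -- the bijection
  have hcard : ((POL F g).filter (fun v => derivative (derivative (f₀ * v)) = 0)).card =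
      ((POL F (g + s)).filter (fun G => G ∈ KK f₀)).card := by
    refine Finset.card_bij (fun v _ => f₀ * v) ?_ ?_ ?_
    · intro v hv
      obtain ⟨hv1, hv2⟩ := Finset.mem_filter.1 hv
      refine Finset.mem_filter.2 ⟨?_, hv2, dvd_mul_right _ _⟩
      rw [hB0.1]
      by_cases hv0 : v = 0
      · rw [hv0, mul_zero, degree_zero]
        exact WithBot.bot_lt_coe _
      · rw [degree_eq_natDegree (mul_ne_zero hf0 hv0)]
        exact_mod_cast hdeg v hv0 hv1
    · intro v _ v' _ h3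
      exact mul_left_cancel₀ hf0 h3
    · intro G hG
      obtain ⟨hG1, hG2, v, rfl⟩ := Finset.mem_filter.1 hG
      refine ⟨v, Finset.mem_filter.2 ⟨?_, hG2⟩, rfl⟩
      rw [hB0.1] at hG1 ⊢
      by_cases hv0 : v = 0
      · rw [hv0, degree_zero]
        exact WithBot.bot_lt_coe _
      · rw [degree_eq_natDegree (mul_ne_zero hf0 hv0), natDegree_mul hf0 hv0, hs] at hG1
        have h3 : s + v.natDegree < g + s := by exact_mod_cast hG1
        rw [degree_eq_natDegree hv0]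
        have h4 : v.natDegree < g := by omega
        exact_mod_cast h4
  rw [hcard, hDC (KK f₀) (g + s)]
  congr 1
  obtain ⟨a₀, ha₀⟩ : ∃ a, k₀.natDegree = 3 * a := ⟨k₀.natDegree / 3, by omega⟩
  obtain ⟨a₁, ha₁⟩ : ∃ a, k₁.natDegree = 3 * a + 1 := ⟨k₁.natDegree / 3, by omega⟩
  have hset : ((Finset.range (g + s)).filter
      (fun j => ∃ G ∈ KK f₀, G ≠ 0 ∧ G.natDegree = j)) =
      ((Finset.range (g + s)).filter fun j => j % 3 = 0 ∧ 3 * a₀ ≤ j) ∪
        ((Finset.range (g + s)).filter fun j => j % 3 = 1 ∧ 3 * a₁ + 1 ≤ j) := by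
    have hmul : ∀ (k : F[X]) (i : ℕ), k ∈ KK f₀ → k ≠ 0 →
        ∃ G ∈ KK f₀, G ≠ 0 ∧ G.natDegree = k.natDegree + 3 * i := by
      intro k i hk hk0
      refine ⟨X ^ (3 * i) * k, ⟨?_, hk.2.mul_left _⟩,
        mul_ne_zero (pow_ne_zero _ X_ne_zero) hk0, ?_⟩
      · rw [dd_mul (d_Xpow i), hk.1, mul_zero]
      · rw [natDegree_mul (pow_ne_zero _ X_ne_zero) hk0, natDegree_X_pow]
        omega
    ext j
    rw [Finset.mem_union, Finset.mem_filter, Finset.mem_filter, Finset.mem_filter]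
    constructor
    · rintro ⟨hj, G, hG, hG0, rfl⟩
      rcases hmin G hG0 hG.1 hG.2 with h3 | h3
      · left
        exact ⟨hj, h3.1, by omega⟩
      · right
        exact ⟨hj, h3.1, by omega⟩
    · rintro (⟨hj, h3, h4⟩ | ⟨hj, h3, h4⟩)
      · obtain ⟨G, hG, hG0, hGd⟩ := hmul k₀ ((j - 3 * a₀) / 3) hk₀ k₀0
        exact ⟨hj, G, hG, hG0, by omega⟩
      · obtain ⟨G, hG, hG0, hGd⟩ := hmul k₁ ((j - (3 * a₁ + 1)) / 3) hk₁ k₁0
        exact ⟨hj, G, hG, hG0, by omega⟩
  rw [hset, Finset.card_union_of_disjoint, cnt0, cnt1]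
  · unfold NN
    omega
  · rw [Finset.disjoint_left]
    intro j hj hj'
    have h3 := (Finset.mem_filter.1 hj).2.1
    have h4 := (Finset.mem_filter.1 hj').2.1
    omega

end DH

end
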