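import Pool.Agent.H463.DH.Stm

/-!
# The second moment bound (task G4)
-/

open Polynomial
open scoped Classical

noncomputable section

namespace DH

namespace XG4

variable (F : Type) [Field F] [Fintype F]

/-- the pairs whose quotient is not a cube -/
def PR (g : ℕ) : Finset (F[X] × F[X]) :=
  ((POL F g) ×ˢ (POL F g)).filter (fun p => derivative p.1 * p.2 ≠ p.1 * derivative p.2)

variable {F}

/-- the pairs in the kernel of `f₀` -/
def Q (f₀ : F[X]) (p : F[X] × F[X]) : Prop :=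
  CubeFree f₀ ∧ derivative (derivative (f₀ * p.1)) = 0 ∧ derivative (derivative (f₀ * p.2)) = 0

theorem step1 [CharP F 3] (hB0 : S_B0 F) (hB1 : S_B1 F) (hG0 : S_G0 F) (g : ℕ) (f : F[X])
    (hf : f ∈ MON F (2 * g + 1)) :
    (solz f).card ^ 2 ≤ 2 * (solz f).card +
      ((PR F g).filter (fun p => IsSol f p.1 ∧ IsSol f p.2)).card := by
  obtain ⟨hP, hM, -⟩ := hB0
  obtain ⟨-, -, -, -, h5, -, h7, -, -⟩ := hB1
  have hfd : f.natDegree = 2 * g + 1 := ((hM _ _).1 hf).2
  have hs := Finset.card_filter_add_card_filter_not (s := (solz f) ×ˢ (solz f))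
    (fun p => derivative p.1 * p.2 = p.1 * derivative p.2)
  rw [Finset.card_product, ← sq] at hs
  have ha : (((solz f) ×ˢ (solz f)).filter
      (fun p => derivative p.1 * p.2 = p.1 * derivative p.2)).card ≤ 2 * (solz f).card := by
    have hsub : ((solz f) ×ˢ (solz f)).filter
        (fun p => derivative p.1 * p.2 = p.1 * derivative p.2) ⊆
        (solz f).image (fun v => (v, v)) ∪ (solz f).image (fun v => (-v, v)) := by
      intro p hp
      rw [Finset.mem_filter, Finset.mem_product] at hp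
      obtain ⟨⟨h1, h2⟩, h3⟩ := hp
      have g1 := (h7 _ _).1 h1
      have g2 := (h7 _ _).1 h2
      rw [Finset.mem_union, Finset.mem_image, Finset.mem_image]
      rcases hG0 f p.1 p.2 g1.1 g2.1 g1.2 g2.2 h3 with h | h
      · exact Or.inl ⟨p.2, h2, Prod.ext h.symm rfl⟩
      · exact Or.inr ⟨p.2, h2, Prod.ext h.symm rfl⟩
    refine (Finset.card_le_card hsub).trans ((Finset.card_union_le _ _).trans ?_)
    have h1 := Finset.card_image_le (s := solz f) (f := fun v => (v, v))
    have h2 := Finset.card_image_le (s := solz f) (f := fun v => (-v, v))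
    omega
  have hb : (((solz f) ×ˢ (solz f)).filter
      (fun p => ¬ derivative p.1 * p.2 = p.1 * derivative p.2)).card ≤
      ((PR F g).filter (fun p => IsSol f p.1 ∧ IsSol f p.2)).card := by
    refine Finset.card_le_card fun p hp => ?_
    rw [Finset.mem_filter, Finset.mem_product] at hp
    obtain ⟨⟨h1, h2⟩, h3⟩ := hp
    have g1 := (h7 _ _).1 h1
    have g2 := (h7 _ _).1 h2
    have key : ∀ v : F[X], v ≠ 0 → IsSol f v → v ∈ POL F g := by
      intro v hv hv'
      have h := h5 f v hv hv'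
      rw [hP, Polynomial.degree_eq_natDegree hv]
      exact_mod_cast (by omega : v.natDegree < g)
    rw [Finset.mem_filter, PR, Finset.mem_filter, Finset.mem_product]
    exact ⟨⟨⟨key _ g1.1 g1.2, key _ g2.1 g2.2⟩, h3⟩, g1.2, g2.2⟩
  omega

/-- the exponents -/
theorem expo (g s : ℕ) (h1 : s < 2 * g) (h2 : s ≤ NN (g + s)) :
    (NN (g + s) - s) * 2 + ((2 * g + 1 - 1 - s) / 3 + 1) + s ≤ 2 * g + 2 := by
  unfold NN at *
  omega

theorem step3 [CharP F 3] (hB0 : S_B0 F) (hG3 : S_G3 F) (g s : ℕ) (f₀ : F[X])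
    (hf : f₀ ∈ MON F s) :
    ((PR F g).filter (Q f₀)).card * Fintype.card F ^ ((2 * g + 1 - 1 - s) / 3 + 1) *
      Fintype.card F ^ s ≤ if s < 2 * g then Fintype.card F ^ (2 * g + 2) else 0 := by
  obtain ⟨hP, hM, -⟩ := hB0
  rcases ((PR F g).filter (Q f₀)).eq_empty_or_nonempty with h | ⟨p, hp⟩
  · rw [h, Finset.card_empty, zero_mul, zero_mul]
    exact Nat.zero_le _
  · have hp' := hp
    rw [Finset.mem_filter, PR, Finset.mem_filter, Finset.mem_product] at hp'
    obtain ⟨⟨⟨h1, h2⟩, h3⟩, h4, h5, h6⟩ := hp'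
    obtain ⟨k1, k2, k3⟩ := hG3 g s f₀ p.1 p.2 ((hM _ _).1 hf).1 ((hM _ _).1 hf).2 h4 h1 h2 h3 h5 h6
    rw [if_pos k1]
    have hsub : (PR F g).filter (Q f₀) ⊆
        ((POL F g).filter (fun v => derivative (derivative (f₀ * v)) = 0)) ×ˢ
        ((POL F g).filter (fun v => derivative (derivative (f₀ * v)) = 0)) := by
      intro r hr
      rw [Finset.mem_filter, PR, Finset.mem_filter, Finset.mem_product] at hr
      rw [Finset.mem_product, Finset.mem_filter, Finset.mem_filter]
      exact ⟨⟨hr.1.1.1, hr.2.2.1⟩, ⟨hr.1.1.2, hr.2.2.2⟩⟩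
    have hc := Finset.card_le_card hsub
    rw [Finset.card_product, k3, ← sq, ← pow_mul] at hc
    have hq : 1 ≤ Fintype.card F := Fintype.card_pos
    calc ((PR F g).filter (Q f₀)).card * Fintype.card F ^ ((2 * g + 1 - 1 - s) / 3 + 1) *
        Fintype.card F ^ s ≤ Fintype.card F ^ ((NN (g + s) - s) * 2) *
          Fintype.card F ^ ((2 * g + 1 - 1 - s) / 3 + 1) * Fintype.card F ^ s :=
          Nat.mul_le_mul_right _ (Nat.mul_le_mul_right _ hc)
      _ = Fintype.card F ^ ((NN (g + s) - s) * 2 + ((2 * g + 1 - 1 - s) / 3 + 1) + s) := by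
          rw [pow_add _ _ s, pow_add _ ((NN (g + s) - s) * 2)]
      _ ≤ Fintype.card F ^ (2 * g + 2) := Nat.pow_le_pow_right hq (expo g s k1 k2)

theorem step4 [CharP F 3] (hB0 : S_B0 F) (hG3 : S_G3 F) (g s : ℕ) :
    ∑ f₀ ∈ MON F s, ((PR F g).filter (Q f₀)).card *
      Fintype.card F ^ ((2 * g + 1 - 1 - s) / 3 + 1) ≤
      if s < 2 * g then Fintype.card F ^ (2 * g + 2) else 0 := by
  have hq : 0 < Fintype.card F ^ s := pow_pos Fintype.card_pos _
  have h1 : (∑ f₀ ∈ MON F s, ((PR F g).filter (Q f₀)).card *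
      Fintype.card F ^ ((2 * g + 1 - 1 - s) / 3 + 1)) * Fintype.card F ^ s ≤
      (if s < 2 * g then Fintype.card F ^ (2 * g + 2) else 0) * Fintype.card F ^ s := by
    rw [Finset.sum_mul]
    refine (Finset.sum_le_sum fun f₀ hf => step3 hB0 hG3 g s f₀ hf).trans ?_
    rw [Finset.sum_const, smul_eq_mul, hB0.2.2.2.2.1 s, mul_comm]
  exact Nat.le_of_mul_le_mul_right h1 hq

theorem step5 [CharP F 3] (hB0 : S_B0 F) (hG2 : S_G2 F) (hG3 : S_G3 F) (g : ℕ) :
    ∑ f ∈ MON F (2 * g + 1), ((PR F g).filter (fun p => IsSol f p.1 ∧ IsSol f p.2)).card ≤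
      Fintype.card F ^ (2 * g) + 2 * g * Fintype.card F ^ (2 * g + 2) := by
  have h1 : ∑ f ∈ MON F (2 * g + 1),
      ((PR F g).filter (fun p => IsSol f p.1 ∧ IsSol f p.2)).card =
      ∑ p ∈ PR F g, ((MON F (2 * g + 1)).filter (fun f => IsSol f p.1 ∧ IsSol f p.2)).card := by
    simp only [Finset.card_filter]
    exact Finset.sum_comm
  rw [h1]
  have h2 : ∀ p ∈ PR F g,
      ((MON F (2 * g + 1)).filter (fun f => IsSol f p.1 ∧ IsSol f p.2)).card ≤
      1 + ∑ s ∈ Finset.range (2 * g + 1), ∑ f₀ ∈ MON F s,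
        if Q f₀ p then Fintype.card F ^ ((2 * g + 1 - 1 - s) / 3 + 1) else 0 := by
    intro p hp
    rw [PR, Finset.mem_filter] at hp
    refine (hG2 (2 * g + 1) p.1 p.2 (by omega) hp.2).trans_eq ?_
    congr 1
    refine Finset.sum_congr rfl fun s _ => ?_
    rw [Finset.sum_filter]
    refine Finset.sum_congr rfl fun a _ => ?_
    by_cases h : Q a p
    · rw [if_pos h]
      exact if_pos h
    · rw [if_neg h]
      exact if_neg h
  refine (Finset.sum_le_sum h2).trans ?_
  rw [Finset.sum_add_distrib]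
  refine add_le_add ?_ ?_
  · rw [Finset.sum_const, smul_eq_mul, mul_one]
    refine (Finset.card_le_card (Finset.filter_subset _ _)).trans ?_
    rw [Finset.card_product, hB0.2.2.2.1 g, ← pow_add]
    exact le_of_eq (congrArg _ (by omega))
  · rw [Finset.sum_comm]
    have h3 : ∀ s ∈ Finset.range (2 * g + 1), ∑ p ∈ PR F g, ∑ f₀ ∈ MON F s,
        (if Q f₀ p then Fintype.card F ^ ((2 * g + 1 - 1 - s) / 3 + 1) else 0) ≤
        if s < 2 * g then Fintype.card F ^ (2 * g + 2) else 0 := by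
      intro s _
      rw [Finset.sum_comm]
      refine le_trans (le_of_eq ?_) (step4 hB0 hG3 g s)
      refine Finset.sum_congr rfl fun f₀ _ => ?_
      rw [← Finset.sum_filter, Finset.sum_const, smul_eq_mul]
    refine (Finset.sum_le_sum h3).trans ?_
    rw [Finset.sum_range_succ, if_neg (lt_irrefl _), add_zero]
    refine (Finset.sum_le_card_nsmul _ _ (Fintype.card F ^ (2 * g + 2)) fun s hs => ?_).trans_eq ?_
    · rw [if_pos (Finset.mem_range.1 hs)]
    · rw [Finset.card_range, smul_eq_mul]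

end XG4

open XG4

theorem p_G4 (F : Type) [Field F] [Fintype F] [CharP F 3] (hB0 : S_B0 F) (hB1 : S_B1 F)
    (hG0 : S_G0 F) (hG2 : S_G2 F) (hG3 : S_G3 F) (hF4 : S_F4 F) : S_G4 F := by
  intro g
  have h1 : ∑ f ∈ MON F (2 * g + 1), (solz f).card ^ 2 ≤
      2 * ∑ f ∈ MON F (2 * g + 1), (solz f).card +
        ∑ f ∈ MON F (2 * g + 1),
          ((PR F g).filter (fun p => IsSol f p.1 ∧ IsSol f p.2)).card := by
    rw [Finset.mul_sum, ← Finset.sum_add_distrib]
    exact Finset.sum_le_sum fun f hf => step1 hB0 hB1 hG0 g f hf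
  have h2 : ∑ f ∈ MON F (2 * g + 1), (solz f).card ≤ 3 * Fintype.card F ^ (2 * g + 1) := by
    refine (Finset.sum_le_sum fun f _ => ?_).trans (hF4 g)
    have h := hB1.2.2.2.2.2.2.2.1 f
    omega
  have h3 := step5 hB0 hG2 hG3 g
  have hq : 1 ≤ Fintype.card F := Fintype.card_pos
  have h4 : Fintype.card F ^ (2 * g) ≤ Fintype.card F ^ (2 * g + 1) :=
    Nat.pow_le_pow_right hq (by omega)
  have h5 : 2 * g * Fintype.card F ^ (2 * g + 2) =
      2 * (Fintype.card F * g * Fintype.card F ^ (2 * g + 1)) := by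
    rw [show 2 * g + 2 = (2 * g + 1) + 1 by omega, pow_succ (Fintype.card F) (2 * g + 1)]
    ring
  have h6 : (8 * Fintype.card F * g + 8) * Fintype.card F ^ (2 * g + 1) =
      8 * (Fintype.card F * g * Fintype.card F ^ (2 * g + 1)) +
        8 * Fintype.card F ^ (2 * g + 1) := by ring
  have h7 : ∑ f ∈ MON F (2 * g + 1), (solz f).card ^ 2 ≤
      (8 * Fintype.card F * g + 8) * Fintype.card F ^ (2 * g + 1) := by
    rw [h6]
    rw [h5] at h3
    omega
  have h8 : ((∑ f ∈ MON F (2 * g + 1), (solz f).card ^ 2 : ℕ) : ℝ) ≤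
      (((8 * Fintype.card F * g + 8) * Fintype.card F ^ (2 * g + 1) : ℕ) : ℝ) := by
    exact_mod_cast h7
  unfold qq
  push_cast at h8
  exact h8

end DH
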