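import Pool.Agent.H463.DH.Stm

/-!
# DH/KB: truncated Moebius sums coprime to `b` (helper230)
-/

open Polynomial
open scoped Classical

set_option linter.unusedSectionVars false

noncomputable section

namespace DH

namespace XKB

variable (F : Type) [Field F] [Fintype F] [CharP F 3]

/-- the part of degree `w` -/
def T (b : F[X]) (w : ℕ) : ℝ :=
  ∑ W ∈ (MON F w).filter (fun W => IsCoprime W b), mu W / qq F ^ (2 * w)

theorem three_le : (3 : ℝ) ≤ qq F := by
  have h1 : 3 ∣ Fintype.card F := (CharP.cast_eq_zero_iff F 3 _).1 (FiniteField.cast_card_eq_zero F)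
  have h2 : 0 < Fintype.card F := Fintype.card_pos
  have h3 := Nat.le_of_dvd h2 h1
  unfold qq
  exact_mod_cast h3

theorem abs_T (hB0 : S_B0 F) (hMU : S_MU F) (b : F[X]) (w : ℕ) : |T F b w| ≤ (1 / qq F) ^ w := by
  have hq := three_le F
  have hq0 : 0 < qq F := by linarith
  unfold T
  refine (Finset.abs_sum_le_sum_abs _ _).trans ?_
  have h1 : ∀ W ∈ (MON F w).filter (fun W => IsCoprime W b),
      |mu W / qq F ^ (2 * w)| ≤ 1 / qq F ^ (2 * w) := by
    intro W _
    rw [abs_div, abs_of_pos (pow_pos hq0 (2 * w))]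
    exact div_le_div_of_nonneg_right (hMU.1 W) (pow_pos hq0 _).le
  refine (Finset.sum_le_card_nsmul _ _ _ h1).trans ?_
  rw [nsmul_eq_mul]
  have h2 : (((MON F w).filter (fun W => IsCoprime W b)).card : ℝ) ≤ qq F ^ w := by
    have h3 : ((MON F w).filter (fun W => IsCoprime W b)).card ≤ Fintype.card F ^ w :=
      (Finset.card_filter_le _ _).trans (hB0.2.2.2.2.1 w).le
    unfold qq
    exact_mod_cast h3
  calc (((MON F w).filter (fun W => IsCoprime W b)).card : ℝ) * (1 / qq F ^ (2 * w))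
      ≤ qq F ^ w * (1 / qq F ^ (2 * w)) :=
        mul_le_mul_of_nonneg_right h2 (by positivity)
    _ = (1 / qq F) ^ w := by
        rw [one_div_pow, two_mul, pow_add]
        field_simp

theorem geom_le (n : ℕ) : ∑ w ∈ Finset.range n, (1 / qq F) ^ w ≤ 2 := by
  have hq := three_le F
  have hr0 : 0 ≤ 1 / qq F := by positivity
  have hr1 : 1 / qq F ≤ 1 / 2 := by
    apply one_div_le_one_div_of_le <;> linarith
  have h : ∀ n : ℕ, ∑ w ∈ Finset.range n, (1 / qq F) ^ w + 2 * (1 / qq F) ^ n ≤ 2 := by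
    intro n
    induction n with
    | zero => simp
    | succ n ih =>
      rw [Finset.sum_range_succ, pow_succ]
      have h1 : 0 ≤ (1 / qq F) ^ n := pow_nonneg hr0 n
      nlinarith
  have h1 : 0 ≤ (1 / qq F) ^ n := pow_nonneg hr0 n
  linarith [h n]

theorem Kb_eq (b : F[X]) (m : ℤ) : Kb F b m =
    ∑ w ∈ (Finset.range (m.toNat + 1)).filter (fun w : ℕ => (w : ℤ) ≤ m), T F b w := rfl

theorem Kb_nat (b : F[X]) (n : ℕ) : Kb F b (n : ℤ) = ∑ w ∈ Finset.range (n + 1), T F b w := by
  rw [Kb_eq, Int.toNat_natCast]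
  refine Finset.sum_congr ?_ fun _ _ => rfl
  refine Finset.filter_true_of_mem fun w hw => ?_
  rw [Finset.mem_range] at hw
  omega

theorem Kb_neg (b : F[X]) {m : ℤ} (hm : m < 0) : Kb F b m = 0 := by
  rw [Kb_eq, Finset.filter_false_of_mem, Finset.sum_empty]
  intro w _
  omega

theorem abs_Kb (hB0 : S_B0 F) (hMU : S_MU F) (b : F[X]) (m : ℤ) : |Kb F b m| ≤ 2 := by
  have hq := three_le F
  rw [Kb_eq]
  refine (Finset.abs_sum_le_sum_abs _ _).trans ?_
  refine (Finset.sum_le_sum fun w _ => abs_T F hB0 hMU b w).trans ?_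
  refine le_trans ?_ (geom_le F (m.toNat + 1))
  refine Finset.sum_le_sum_of_subset_of_nonneg (Finset.filter_subset _ _) fun w _ _ => ?_
  positivity

theorem diff_le (hB0 : S_B0 F) (hMU : S_MU F) (b : F[X]) (z a : ℕ) :
    |Kb F b ((z : ℤ) - a) - Kb F b z| ≤ 2 * qq F ^ a / qq F ^ z := by
  have hq := three_le F
  have hq0 : 0 < qq F := by linarith
  rcases le_or_gt a z with h | h
  · obtain ⟨n, rfl⟩ := Nat.exists_eq_add_of_le' h
    have h1 : (((n + a : ℕ) : ℤ) - a) = (n : ℤ) := by push_cast; ring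
    rw [h1, Kb_nat, Kb_nat]
    have h2 : ∑ w ∈ Finset.range (n + a + 1), T F b w = ∑ w ∈ Finset.range (n + 1), T F b w +
        ∑ i ∈ Finset.range a, T F b (n + 1 + i) := by
      have h3 : n + a + 1 = (n + 1) + a := by ring
      rw [h3, Finset.sum_range_add]
    rw [h2]
    have h4 : ∑ w ∈ Finset.range (n + 1), T F b w - (∑ w ∈ Finset.range (n + 1), T F b w +
        ∑ i ∈ Finset.range a, T F b (n + 1 + i)) = -∑ i ∈ Finset.range a, T F b (n + 1 + i) := by
      ring
    rw [h4, abs_neg]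
    refine (Finset.abs_sum_le_sum_abs _ _).trans ?_
    refine (Finset.sum_le_sum fun i _ => abs_T F hB0 hMU b (n + 1 + i)).trans ?_
    have h5 : ∑ i ∈ Finset.range a, (1 / qq F) ^ (n + 1 + i) =
        (1 / qq F) ^ (n + 1) * ∑ i ∈ Finset.range a, (1 / qq F) ^ i := by
      rw [Finset.mul_sum]
      refine Finset.sum_congr rfl fun i _ => ?_
      rw [pow_add]
    rw [h5]
    have h6 : 2 * qq F ^ a / qq F ^ (n + a) = (1 / qq F) ^ n * 2 := by
      rw [pow_add, one_div_pow]
      field_simp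
    rw [h6]
    have h7 : (1 / qq F) ^ (n + 1) ≤ (1 / qq F) ^ n := by
      rw [pow_succ]
      refine mul_le_of_le_one_right (by positivity) ?_
      rw [div_le_one hq0]
      linarith
    have h8 : 0 ≤ 1 / qq F := div_nonneg zero_le_one hq0.le
    exact mul_le_mul h7 (geom_le F a) (Finset.sum_nonneg fun i _ => pow_nonneg h8 i)
      (pow_nonneg h8 n)
  · rw [Kb_neg F b (by omega), zero_sub, abs_neg]
    refine (abs_Kb F hB0 hMU b z).trans ?_
    rw [le_div_iff₀ (by positivity)]
    have h1 : qq F ^ z ≤ qq F ^ a := pow_le_pow_right₀ (by linarith) h.le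
    linarith

theorem Kb_one (hMU : S_MU F) (z : ℕ) (hz : 1 ≤ z) : Kb F 1 z = 1 - 1 / qq F := by
  have hq := three_le F
  have hq0 : 0 < qq F := by linarith
  have hT : ∀ w, T F 1 w = (if w = 0 then 1 else if w = 1 then - qq F else 0) / qq F ^ (2 * w) := by
    intro w
    have h1 := hMU.2.2.2.2.2 w
    have h2 : (MON F w).filter (fun W => IsCoprime W 1) = MON F w :=
      Finset.filter_true_of_mem fun W _ => isCoprime_one_right
    rw [← h1, Finset.sum_div]
    unfold T
    rw [h2]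
  rw [Kb_nat]
  have h3 : Finset.range 2 ⊆ Finset.range (z + 1) := Finset.range_mono (by omega)
  rw [← Finset.sum_subset h3]
  · rw [Finset.sum_range_succ, Finset.sum_range_one, hT, hT]
    rw [if_pos rfl, if_neg one_ne_zero, if_pos rfl]
    field_simp
    ring
  · intro w _ hw
    rw [Finset.mem_range, not_lt] at hw
    rw [hT, if_neg (by omega), if_neg (by omega), zero_div]

end XKB

theorem p_KB (F : Type) [Field F] [Fintype F] [CharP F 3] (hB0 : S_B0 F) (hMU : S_MU F) : S_KB F :=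
  ⟨XKB.abs_Kb F hB0 hMU, XKB.diff_le F hB0 hMU, XKB.Kb_one F hMU⟩

end DH
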