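import Pool.Agent.H463.DH.Stm

/-!
# L3: divisibility and the number of multiples of a polynomial of given degree
-/

open Polynomial
open scoped Classical

noncomputable section

namespace DH

namespace XL3

theorem dvd_iff {F : Type} [Field F] (a b₁ W₁ v : F[X]) (ha : a ≠ 0) (h : IsCoprime W₁ (a * b₁)) :
    (a * b₁) ^ 3 ∣ (a * W₁) ^ 2 * v ↔ a * b₁ ^ 3 ∣ v := by
  have e1 : (a * b₁) ^ 3 = a ^ 2 * (a * b₁ ^ 3) := by ring
  have e2 : (a * W₁) ^ 2 * v = a ^ 2 * (W₁ ^ 2 * v) := by ring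
  rw [e1, e2, mul_dvd_mul_iff_left (pow_ne_zero 2 ha)]
  constructor
  · intro h1
    have h2 : IsCoprime (a * b₁ ^ 3) (W₁ ^ 2) := by
      have h3 : IsCoprime a W₁ := h.symm.of_mul_left_left
      have h4 : IsCoprime b₁ W₁ := h.symm.of_mul_left_right
      exact (h3.mul_left h4.pow_left).pow_right
    exact h2.dvd_of_dvd_mul_left h1
  · intro h1
    exact h1.mul_left _

theorem image_eq {F : Type} [Field F] [Fintype F] [CharP F 3] (hB0 : S_B0 F) (m : F[X]) (d : ℕ)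
    (hm : m.Monic) (hd : m.natDegree ≤ d) :
    (DEG F d).filter (fun v => m ∣ v) = (DEG F (d - m.natDegree)).image (fun w => m * w) := by
  ext v
  rw [Finset.mem_filter, Finset.mem_image, hB0.2.2.1]
  constructor
  · rintro ⟨⟨h0, h1⟩, w, rfl⟩
    have hw : w ≠ 0 := by
      rintro rfl
      exact h0 (mul_zero m)
    refine ⟨w, ?_, rfl⟩
    rw [hB0.2.2.1]
    refine ⟨hw, ?_⟩
    rw [natDegree_mul hm.ne_zero hw] at h1
    omega
  · rintro ⟨w, hw, rfl⟩
    rw [hB0.2.2.1] at hw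
    refine ⟨⟨mul_ne_zero hm.ne_zero hw.1, ?_⟩, Dvd.intro _ rfl⟩
    rw [natDegree_mul hm.ne_zero hw.1, hw.2]
    omega

end XL3

open XL3 in
theorem p_L3 (F : Type) [Field F] [Fintype F] [CharP F 3] (hB0 : S_B0 F) : S_L3 F := by
  refine ⟨fun a b₁ W₁ v ha h => dvd_iff a b₁ W₁ v ha h, fun m d hm => ?_⟩
  split_ifs with hd
  · rw [image_eq hB0 m d hm hd, Finset.card_image_of_injective _ (fun x y hxy =>
      mul_left_cancel₀ hm.ne_zero hxy)]
    exact hB0.2.2.2.2.2 _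
  · rw [Finset.card_eq_zero, Finset.filter_eq_empty_iff]
    intro v hv h1
    rw [hB0.2.2.1] at hv
    exact hd (hv.2 ▸ natDegree_le_of_dvd h1 hv.1)

end DH
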