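import Pool.Agent.H463.DH.Stm

/-!
# ME1: exact formula for the weighted sum of the first moment (helper101)
-/

open Polynomial
open scoped Classical

noncomputable section

namespace DH

namespace XME1

variable {F : Type} [Field F] [Fintype F] [CharP F 3]

/-- the number of the `v` of degree `d` with `b ^ 3 ∣ W ^ 2 * v` -/
def cv (d : ℕ) (b W : F[X]) : ℝ := (((DEG F d).filter (fun v => b ^ 3 ∣ W ^ 2 * v)).card : ℝ)

theorem key (hB0 : S_B0 F) (hCP : S_CP F) (hPH : S_PH F) (d : ℕ) {W v : F[X]}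
    (hWs : Squarefree W) (hv0 : v ≠ 0) (hvd : v.natDegree = d) :
    qq F ^ (cpart (W ^ 2 * v)).natDegree =
      ∑ k ∈ Finset.range (d + 1), ∑ b ∈ MON F k, if b ^ 3 ∣ W ^ 2 * v then (phi b : ℝ) else 0 := by
  have hW0 : W ≠ 0 := hWs.ne_zero
  have hU : W ^ 2 * v ≠ 0 := mul_ne_zero (pow_ne_zero 2 hW0) hv0
  have h1 := hPH.2.2.2 (W ^ 2 * v) ((W ^ 2 * v).natDegree + d) hU (Nat.le_add_right _ _)
  have h2 : (∑ k ∈ Finset.range ((W ^ 2 * v).natDegree + d + 1),
      ∑ b ∈ (MON F k).filter (fun b => b ^ 3 ∣ W ^ 2 * v), phi b) =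
      ∑ k ∈ Finset.range (d + 1), ∑ b ∈ (MON F k).filter (fun b => b ^ 3 ∣ W ^ 2 * v), phi b := by
    symm
    refine Finset.sum_subset ?_ ?_
    · intro k hk
      rw [Finset.mem_range] at hk ⊢
      omega
    · intro k _ hk
      rw [Finset.mem_range] at hk
      refine Finset.sum_eq_zero fun b hb => ?_
      exfalso
      rw [Finset.mem_filter, hB0.2.1] at hb
      have h3 : b ∣ cpart (W ^ 2 * v) := (hCP.1 _ hU).2.2 b hb.2
      have h4 : b ∣ v := h3.trans (hCP.2.2 W v hWs hv0)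
      have h5 := natDegree_le_of_dvd h4 hv0
      rw [hb.1.2, hvd] at h5
      omega
  rw [h2] at h1
  unfold qq
  have h3 : ((Fintype.card F ^ (cpart (W ^ 2 * v)).natDegree : ℕ) : ℝ) =
      ((∑ k ∈ Finset.range (d + 1), ∑ b ∈ (MON F k).filter (fun b => b ^ 3 ∣ W ^ 2 * v), phi b : ℕ) : ℝ) := by
    rw [h1]
  push_cast at h3
  rw [h3]
  refine Finset.sum_congr rfl fun k _ => ?_
  rw [Finset.sum_filter]

theorem term (hB0 : S_B0 F) (hCP : S_CP F) (hPH : S_PH F) (d w : ℕ) (W : F[X]) :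
    mu W / qq F ^ (2 * w + d) * ∑ v ∈ DEG F d, qq F ^ (cpart (W ^ 2 * v)).natDegree =
      ∑ k ∈ Finset.range (d + 1), ∑ b ∈ MON F k,
        (phi b : ℝ) / qq F ^ d * (mu W / qq F ^ (2 * w) * cv d b W) := by
  by_cases hWs : Squarefree W
  · have h1 : ∑ v ∈ DEG F d, qq F ^ (cpart (W ^ 2 * v)).natDegree =
        ∑ v ∈ DEG F d, ∑ k ∈ Finset.range (d + 1), ∑ b ∈ MON F k,
          if b ^ 3 ∣ W ^ 2 * v then (phi b : ℝ) else 0 := by
      refine Finset.sum_congr rfl fun v hv => ?_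
      rw [hB0.2.2.1] at hv
      exact key hB0 hCP hPH d hWs hv.1 hv.2
    rw [h1, Finset.sum_comm, Finset.mul_sum]
    refine Finset.sum_congr rfl fun k _ => ?_
    rw [Finset.sum_comm, Finset.mul_sum]
    refine Finset.sum_congr rfl fun b _ => ?_
    have h2 : ∑ v ∈ DEG F d, (if b ^ 3 ∣ W ^ 2 * v then (phi b : ℝ) else 0) =
        cv d b W * (phi b : ℝ) := by
      unfold cv
      rw [← Finset.sum_filter, Finset.sum_const, nsmul_eq_mul]
    rw [h2, pow_add]
    ring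
  · have h0 : mu W = 0 := by
      unfold mu
      rw [if_neg hWs]
    rw [h0, zero_div, zero_mul]
    symm
    refine Finset.sum_eq_zero fun k _ => Finset.sum_eq_zero fun b _ => ?_
    rw [zero_div, zero_mul, mul_zero]

/-- the function of the divisor -/
def ga (F : Type) [Field F] [Fintype F] (d k : ℕ) (a : F[X]) : ℝ :=
  if 3 * k ≤ d + 2 * a.natDegree then (qq F - 1) * qq F ^ (d + 2 * a.natDegree - 3 * k) else 0

theorem cv_eq (hL3 : S_L3 F) {d k : ℕ} {b a W₁ : F[X]} (hb : b.Monic) (hbk : b.natDegree = k)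
    (ha : a.Monic) (hab : a ∣ b) (hc : IsCoprime W₁ b) : cv d b (a * W₁) = ga F d k a := by
  obtain ⟨b₁, rfl⟩ := hab
  have hb₁ : b₁.Monic := ha.of_mul_monic_left hb
  have hm : (a * b₁ ^ 3).Monic := ha.mul (hb₁.pow 3)
  have hdeg : (a * b₁ ^ 3).natDegree = a.natDegree + 3 * b₁.natDegree := by
    rw [ha.natDegree_mul (hb₁.pow 3), natDegree_pow]
  have hdb : k = a.natDegree + b₁.natDegree := by
    rw [← hbk, ha.natDegree_mul hb₁]
  have h1 : (DEG F d).filter (fun v => (a * b₁) ^ 3 ∣ (a * W₁) ^ 2 * v) =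
      (DEG F d).filter (fun v => a * b₁ ^ 3 ∣ v) := by
    refine Finset.filter_congr fun v _ => ?_
    exact hL3.1 a b₁ W₁ v ha.ne_zero hc
  unfold cv ga
  rw [h1, hL3.2 _ d hm, hdeg]
  have hq : 1 ≤ Fintype.card F := Fintype.card_pos
  by_cases h : a.natDegree + 3 * b₁.natDegree ≤ d
  · rw [if_pos h, if_pos (by omega)]
    have h2 : d + 2 * a.natDegree - 3 * k = d - (a.natDegree + 3 * b₁.natDegree) := by omega
    rw [h2]
    unfold qq
    push_cast [Nat.cast_sub hq]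
    ring
  · rw [if_neg h, if_neg (by omega)]
    exact Nat.cast_zero

end XME1

open XME1 in
theorem p_ME1 (F : Type) [Field F] [Fintype F] [CharP F 3] (hB0 : S_B0 F) (hCP : S_CP F)
    (hPH : S_PH F) (hL3 : S_L3 F) (hSW : S_SW F) : S_ME1 F := by
  intro d z
  have hq : 0 < qq F := by
    unfold qq
    have : 0 < Fintype.card F := Fintype.card_pos
    exact_mod_cast this
  unfold Md
  have h1 : ∑ w ∈ Finset.range (z + 1), ∑ W ∈ MON F w,
      mu W / qq F ^ (2 * w + d) * ∑ v ∈ DEG F d, qq F ^ (cpart (W ^ 2 * v)).natDegree =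
      ∑ w ∈ Finset.range (z + 1), ∑ k ∈ Finset.range (d + 1), ∑ b ∈ MON F k, ∑ W ∈ MON F w,
        (phi b : ℝ) / qq F ^ d * (mu W / qq F ^ (2 * w) * cv d b W) := by
    refine Finset.sum_congr rfl fun w _ => ?_
    rw [Finset.sum_congr rfl fun W _ => term hB0 hCP hPH d w W, Finset.sum_comm]
    refine Finset.sum_congr rfl fun k _ => ?_
    rw [Finset.sum_comm]
  rw [h1, Finset.sum_comm, Finset.mul_sum]
  refine Finset.sum_congr rfl fun k _ => ?_
  rw [Finset.sum_comm, Finset.mul_sum]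
  refine Finset.sum_congr rfl fun b hb => ?_
  rw [hB0.2.1] at hb
  have h2 : ∑ w ∈ Finset.range (z + 1), ∑ W ∈ MON F w,
      (phi b : ℝ) / qq F ^ d * (mu W / qq F ^ (2 * w) * cv d b W) =
      (phi b : ℝ) / qq F ^ d * ∑ w ∈ Finset.range (z + 1), ∑ W ∈ MON F w,
        mu W / qq F ^ (2 * w) * cv d b W := by
    rw [Finset.mul_sum]
    refine Finset.sum_congr rfl fun w _ => ?_
    rw [Finset.mul_sum]
  have h3 := hSW b z k (ga F d k) (cv d b) hb.1 hb.2.le
    (fun a W₁ ha _ hab hc => cv_eq hL3 hb.1 hb.2 ha hab hc)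
  rw [h2, h3, Finset.mul_sum, Finset.sum_filter, ← mul_assoc, Finset.mul_sum]
  refine Finset.sum_congr rfl fun j _ => ?_
  by_cases hj : 3 * k ≤ d + 2 * j
  · rw [if_pos hj, Finset.mul_sum, Finset.mul_sum]
    refine Finset.sum_congr rfl fun a ha => ?_
    rw [Finset.mem_filter, hB0.2.1] at ha
    unfold ga
    rw [ha.1.2, if_pos hj]
    have h4 : qq F ^ (d + 2 * j - 3 * k) * qq F ^ (3 * k) = qq F ^ d * qq F ^ (2 * j) := by
      rw [← pow_add, ← pow_add, Nat.sub_add_cancel hj]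
    have hd0 : qq F ^ d ≠ 0 := (pow_pos hq _).ne'
    have hj0 : qq F ^ (2 * j) ≠ 0 := (pow_pos hq _).ne'
    have hk0 : qq F ^ (3 * k) ≠ 0 := (pow_pos hq _).ne'
    rw [← sub_eq_zero]
    field_simp
    linear_combination ((phi b : ℝ) * (qq F - 1) * mu a * Kb F b ((z : ℤ) - j)) * h4
  · rw [if_neg hj, mul_zero]
    have h5 : ∑ a ∈ (MON F j).filter (fun a => a ∣ b),
        ga F d k a * mu a / qq F ^ (2 * j) * Kb F b ((z : ℤ) - j) = 0 := by
      refine Finset.sum_eq_zero fun a ha => ?_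
      rw [Finset.mem_filter, hB0.2.1] at ha
      unfold ga
      rw [ha.1.2, if_neg hj, zero_mul, zero_div, zero_mul]
    rw [h5, mul_zero]

end DH
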