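import Pool.Agent.H463.DH.Stm

/-!
ME2: the estimate for `M_d`.
-/

open Polynomial
open scoped Classical

noncomputable section

namespace DH

variable (F : Type) [Field F] [Fintype F] [CharP F 3]

namespace XME2

/-- the number of monic divisors of degree at most `k` -/
def tau (k : ℕ) (b : F[X]) : ℕ :=
  ∑ j ∈ Finset.range (k + 1), ((MON F j).filter (fun a => a ∣ b)).card

/-- the inner sum -/
def SI (d z k : ℕ) (b : F[X]) : ℝ :=
  ∑ j ∈ (Finset.range (k + 1)).filter (fun j => 3 * k ≤ d + 2 * j),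
    ∑ a ∈ (MON F j).filter (fun a => a ∣ b), mu a * Kb F b ((z : ℤ) - j)

/-- its main term -/
def tt (d z k : ℕ) (b : F[X]) : ℝ := if 3 * k ≤ d ∧ b = 1 then Kb F b z else 0

theorem one_le_q : 1 ≤ qq F := by
  unfold qq
  exact_mod_cast Fintype.card_pos

theorem q_pos : 0 < qq F := lt_of_lt_of_le one_pos (one_le_q F)

theorem lemA (hMU : S_MU F) (hKB : S_KB F) {d z k : ℕ} (hk : 3 * k ≤ d) {b : F[X]}
    (hb : b.Monic) (hbk : b.natDegree = k) :
    |SI F d z k b - tt F d z k b| ≤ 2 * qq F ^ k / qq F ^ z * tau F k b := by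
  have hq := q_pos F
  have h1 : SI F d z k b = ∑ j ∈ Finset.range (k + 1),
      ∑ a ∈ (MON F j).filter (fun a => a ∣ b), mu a * Kb F b ((z : ℤ) - j) := by
    unfold SI
    rw [Finset.filter_true_of_mem]
    intro j _
    omega
  have h2 : tt F d z k b = ∑ j ∈ Finset.range (k + 1),
      ∑ a ∈ (MON F j).filter (fun a => a ∣ b), mu a * Kb F b z := by
    have h3 := hMU.2.2.2.2.1 k b hb hbk.le
    have h4 : ∑ j ∈ Finset.range (k + 1),
        ∑ a ∈ (MON F j).filter (fun a => a ∣ b), mu a * Kb F b z =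
        (∑ j ∈ Finset.range (k + 1), ∑ a ∈ (MON F j).filter (fun a => a ∣ b), mu a) *
          Kb F b z := by
      rw [Finset.sum_mul]
      exact Finset.sum_congr rfl fun j _ => (Finset.sum_mul _ _ _).symm
    rw [h4, h3]
    unfold tt
    by_cases h : b = 1
    · rw [if_pos ⟨hk, h⟩, if_pos h, one_mul]
    · rw [if_neg (fun h' => h h'.2), if_neg h, zero_mul]
  rw [h1, h2, ← Finset.sum_sub_distrib]
  have h5 : (tau F k b : ℝ) = ∑ j ∈ Finset.range (k + 1),
      (((MON F j).filter (fun a => a ∣ b)).card : ℝ) := by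
    unfold tau
    push_cast
    rfl
  rw [h5, Finset.mul_sum]
  refine (Finset.abs_sum_le_sum_abs _ _).trans (Finset.sum_le_sum fun j hj => ?_)
  rw [← Finset.sum_sub_distrib]
  refine (Finset.abs_sum_le_sum_abs _ _).trans ?_
  have h6 : ∀ a ∈ (MON F j).filter (fun a => a ∣ b),
      |mu a * Kb F b ((z : ℤ) - j) - mu a * Kb F b z| ≤ 2 * qq F ^ k / qq F ^ z := by
    intro a _
    rw [← mul_sub, abs_mul]
    have h7 := hKB.2.1 b z j
    have h8 := hMU.1 a
    have h9 : 2 * qq F ^ j / qq F ^ z ≤ 2 * qq F ^ k / qq F ^ z := by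
      have : j ≤ k := Nat.lt_succ_iff.1 (Finset.mem_range.1 hj)
      have h10 : qq F ^ j ≤ qq F ^ k := pow_le_pow_right₀ (one_le_q F) this
      gcongr
    calc |mu a| * |Kb F b ((z : ℤ) - j) - Kb F b z|
        ≤ 1 * (2 * qq F ^ j / qq F ^ z) := mul_le_mul h8 h7 (abs_nonneg _) zero_le_one
      _ ≤ 2 * qq F ^ k / qq F ^ z := by rw [one_mul]; exact h9
  have h11 := Finset.sum_le_card_nsmul _ _ _ h6
  rw [nsmul_eq_mul] at h11
  refine h11.trans (le_of_eq ?_)
  ring

theorem lemB (hMU : S_MU F) (hKB : S_KB F) (d z k : ℕ) (b : F[X]) :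
    |SI F d z k b| ≤ 2 * tau F k b := by
  have h5 : (tau F k b : ℝ) = ∑ j ∈ Finset.range (k + 1),
      (((MON F j).filter (fun a => a ∣ b)).card : ℝ) := by
    unfold tau
    push_cast
    rfl
  rw [h5, Finset.mul_sum]
  unfold SI
  refine (Finset.abs_sum_le_sum_abs _ _).trans ?_
  refine le_trans ?_ (Finset.sum_le_sum_of_subset_of_nonneg (Finset.filter_subset
    (fun j => 3 * k ≤ d + 2 * j) (Finset.range (k + 1))) fun j _ _ => by positivity)
  refine Finset.sum_le_sum fun j hj => ?_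
  refine (Finset.abs_sum_le_sum_abs _ _).trans ?_
  have h6 : ∀ a ∈ (MON F j).filter (fun a => a ∣ b),
      |mu a * Kb F b ((z : ℤ) - j)| ≤ 2 := by
    intro a _
    rw [abs_mul]
    have h7 := hKB.1 b ((z : ℤ) - j)
    have h8 := hMU.1 a
    calc |mu a| * |Kb F b ((z : ℤ) - j)| ≤ 1 * 2 :=
          mul_le_mul h8 h7 (abs_nonneg _) zero_le_one
      _ = 2 := one_mul _
  have h11 := Finset.sum_le_card_nsmul _ _ _ h6
  rw [nsmul_eq_mul] at h11
  refine h11.trans (le_of_eq ?_)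
  ring

theorem lemC (hB0 : S_B0 F) (hTA : S_TA F) (hPH : S_PH F) (k : ℕ) {c : ℝ} (hc : 0 ≤ c) :
    ∑ b ∈ MON F k, (phi b : ℝ) / qq F ^ (3 * k) * (c * tau F k b) ≤
      c * (k + 1) / qq F ^ k := by
  have hq := q_pos F
  have h1 : ∀ b ∈ MON F k, (phi b : ℝ) / qq F ^ (3 * k) * (c * tau F k b) ≤
      c / qq F ^ (2 * k) * tau F k b := by
    intro b hb
    have hbk := ((hB0.2.1 k b).1 hb).2
    have h2 : (phi b : ℝ) ≤ qq F ^ k := by
      have := hPH.2.1 b
      rw [hbk] at this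
      unfold qq
      exact_mod_cast this
    have h3 : (phi b : ℝ) / qq F ^ (3 * k) ≤ 1 / qq F ^ (2 * k) := by
      rw [div_le_div_iff₀ (by positivity) (by positivity)]
      have h4 : qq F ^ (3 * k) = qq F ^ k * qq F ^ (2 * k) := by
        rw [← pow_add]
        congr 1
        ring
      rw [h4, one_mul]
      exact mul_le_mul_of_nonneg_right h2 (by positivity)
    calc (phi b : ℝ) / qq F ^ (3 * k) * (c * tau F k b)
        ≤ 1 / qq F ^ (2 * k) * (c * tau F k b) :=
          mul_le_mul_of_nonneg_right h3 (by positivity)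
      _ = c / qq F ^ (2 * k) * tau F k b := by ring
  refine (Finset.sum_le_sum h1).trans ?_
  rw [← Finset.mul_sum]
  have h5 : ∑ b ∈ MON F k, (tau F k b : ℝ) = (k + 1) * qq F ^ k := by
    have h6 := hTA.1 k k le_rfl
    unfold tau qq
    exact_mod_cast h6
  rw [h5]
  refine le_of_eq ?_
  have h7 : qq F ^ (2 * k) = qq F ^ k * qq F ^ k := by
    rw [← pow_add]
    congr 1
    ring
  rw [h7]
  field_simp

theorem lemD (hB0 : S_B0 F) (hMU : S_MU F) (hKB : S_KB F) (hTA : S_TA F) (hPH : S_PH F)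
    (d z k : ℕ) :
    |∑ b ∈ MON F k, (phi b : ℝ) / qq F ^ (3 * k) * (SI F d z k b - tt F d z k b)| ≤
      2 * (k + 1) * (1 / qq F ^ z + 1 / qq F ^ (d / 3)) := by
  have hq := q_pos F
  have hz : 0 ≤ 1 / qq F ^ z := by positivity
  have hd : 0 ≤ 1 / qq F ^ (d / 3) := by positivity
  have hgen : ∀ c : ℝ, 0 ≤ c → (∀ b ∈ MON F k, |SI F d z k b - tt F d z k b| ≤ c * tau F k b) →
      |∑ b ∈ MON F k, (phi b : ℝ) / qq F ^ (3 * k) * (SI F d z k b - tt F d z k b)| ≤
        c * (k + 1) / qq F ^ k := by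
    intro c hc h
    refine (Finset.abs_sum_le_sum_abs _ _).trans ?_
    refine le_trans (Finset.sum_le_sum fun b hb => ?_) (lemC F hB0 hTA hPH k hc)
    rw [abs_mul, abs_of_nonneg (by positivity : (0 : ℝ) ≤ (phi b : ℝ) / qq F ^ (3 * k))]
    exact mul_le_mul_of_nonneg_left (h b hb) (by positivity)
  by_cases hk : 3 * k ≤ d
  · have h1 := hgen (2 * qq F ^ k / qq F ^ z) (by positivity) fun b hb => by
      have hb' := (hB0.2.1 k b).1 hb
      exact lemA F hMU hKB hk hb'.1 hb'.2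
    refine h1.trans ?_
    have h2 : 2 * qq F ^ k / qq F ^ z * (k + 1) / qq F ^ k = 2 * (k + 1) * (1 / qq F ^ z) := by
      field_simp
    rw [h2]
    have h3 : (0 : ℝ) ≤ 2 * (k + 1) := by positivity
    nlinarith [mul_nonneg h3 hd]
  · have h1 := hgen 2 (by norm_num) fun b _ => by
      have h0 : tt F d z k b = 0 := by
        unfold tt
        rw [if_neg fun h => hk h.1]
      rw [h0, sub_zero]
      exact lemB F hMU hKB d z k b
    refine h1.trans ?_
    have h2 : 1 / qq F ^ k ≤ 1 / qq F ^ (d / 3) := by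
      have h4 : qq F ^ (d / 3) ≤ qq F ^ k := pow_le_pow_right₀ (one_le_q F) (by omega)
      exact one_div_le_one_div_of_le (by positivity) h4
    have h3 : (0 : ℝ) ≤ 2 * (k + 1) := by positivity
    have h5 : 2 * (k + 1) / qq F ^ k = 2 * (k + 1) * (1 / qq F ^ k) := by ring
    rw [h5]
    nlinarith [mul_nonneg h3 hz, mul_le_mul_of_nonneg_left h2 h3]

theorem lemE (hB0 : S_B0 F) (hPH : S_PH F) (d z : ℕ) :
    ∑ k ∈ Finset.range (d + 1), ∑ b ∈ MON F k,
      (phi b : ℝ) / qq F ^ (3 * k) * tt F d z k b = Kb F 1 z := by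
  rw [Finset.sum_eq_single 0]
  · rw [Finset.sum_eq_single 1]
    · unfold tt
      rw [if_pos ⟨by omega, rfl⟩, hPH.2.2.1]
      simp
    · intro b _ hb
      unfold tt
      rw [if_neg fun h => hb h.2, mul_zero]
    · intro h
      exact absurd ((hB0.2.1 0 1).2 ⟨monic_one, natDegree_one⟩) h
  · intro k _ hk
    refine Finset.sum_eq_zero fun b hb => ?_
    unfold tt
    rw [if_neg, mul_zero]
    rintro ⟨_, h⟩
    have h2 := ((hB0.2.1 k b).1 hb).2
    rw [h, natDegree_one] at h2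
    exact hk h2.symm
  · intro h
    exact absurd (Finset.mem_range.2 (Nat.succ_pos d)) h

end XME2

open XME2

theorem p_ME2 (hB0 : S_B0 F) (hMU : S_MU F) (hKB : S_KB F) (hTA : S_TA F) (hPH : S_PH F)
    (hME1 : S_ME1 F) : S_ME2 F := by
  intro d z hz
  have hq := q_pos F
  have hq1 := one_le_q F
  have h1 : Md F d z = (qq F - 1) * ∑ k ∈ Finset.range (d + 1), ∑ b ∈ MON F k,
      (phi b : ℝ) / qq F ^ (3 * k) * SI F d z k b := hME1 d z
  have h2 : Md F d z - (qq F - 1) * (1 - 1 / qq F) = (qq F - 1) *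
      ∑ k ∈ Finset.range (d + 1), ∑ b ∈ MON F k,
        (phi b : ℝ) / qq F ^ (3 * k) * (SI F d z k b - tt F d z k b) := by
    rw [h1, ← hKB.2.2 z hz, ← lemE F hB0 hPH d z, ← mul_sub, ← Finset.sum_sub_distrib]
    congr 1
    refine Finset.sum_congr rfl fun k _ => ?_
    rw [← Finset.sum_sub_distrib]
    exact Finset.sum_congr rfl fun b _ => (mul_sub _ _ _).symm
  rw [h2, abs_mul, abs_of_nonneg (sub_nonneg.2 hq1)]
  set E := 1 / qq F ^ z + 1 / qq F ^ (d / 3) with hE
  have hE0 : 0 ≤ E := by positivity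
  have h3 : |∑ k ∈ Finset.range (d + 1), ∑ b ∈ MON F k,
      (phi b : ℝ) / qq F ^ (3 * k) * (SI F d z k b - tt F d z k b)| ≤ (d + 1) * (2 * (d + 1) * E) := by
    refine (Finset.abs_sum_le_sum_abs _ _).trans ?_
    have h4 : ∀ k ∈ Finset.range (d + 1), |∑ b ∈ MON F k,
        (phi b : ℝ) / qq F ^ (3 * k) * (SI F d z k b - tt F d z k b)| ≤ 2 * (d + 1) * E := by
      intro k hk
      refine (lemD F hB0 hMU hKB hTA hPH d z k).trans ?_
      have h5 : (k : ℝ) ≤ d := by exact_mod_cast Nat.lt_succ_iff.1 (Finset.mem_range.1 hk)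
      exact mul_le_mul_of_nonneg_right (by linarith) hE0
    have h6 := Finset.sum_le_card_nsmul _ _ _ h4
    rw [nsmul_eq_mul, Finset.card_range] at h6
    push_cast at h6
    exact h6
  calc (qq F - 1) * |∑ k ∈ Finset.range (d + 1), ∑ b ∈ MON F k,
      (phi b : ℝ) / qq F ^ (3 * k) * (SI F d z k b - tt F d z k b)|
      ≤ qq F * ((d + 1) * (2 * (d + 1) * E)) :=
        mul_le_mul (by linarith) h3 (abs_nonneg _) hq.le
    _ ≤ 8 * qq F * (d + 1) ^ 2 * E := by
        have h7 : 0 ≤ qq F * (((d : ℝ) + 1) ^ 2 * E) := by positivity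
        nlinarith

end DH
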