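import Pool.Agent.H463.DH.Stm

/-!
# Project DH: Euler's function of polynomials, `S_PH`
-/

open Polynomial
open scoped Classical

noncomputable section

namespace DH

namespace XPH

variable {F : Type} [Field F]

/-- a monic greatest common divisor of `a` and `c ≠ 0`, with the cofactors -/
lemma exists_gcd (a c : F[X]) (hc : c.Monic) :
    ∃ g a' b : F[X], g.Monic ∧ b.Monic ∧ a = g * a' ∧ c = g * b ∧ IsCoprime a' b := by
  have hc0 : c ≠ 0 := hc.ne_zero
  obtain ⟨g₀, hg₀⟩ : ∃ g₀ : F[X], Ideal.span {a, c} = Ideal.span {g₀} :=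
    (IsPrincipalIdealRing.principal (Ideal.span {a, c})).principal
  have ha : g₀ ∣ a := by
    rw [← Ideal.mem_span_singleton, ← hg₀]
    exact Ideal.subset_span (by simp)
  have hcd : g₀ ∣ c := by
    rw [← Ideal.mem_span_singleton, ← hg₀]
    exact Ideal.subset_span (by simp)
  have hmem : g₀ ∈ Ideal.span {a, c} := by
    rw [hg₀]
    exact Ideal.subset_span (by simp)
  rw [Ideal.mem_span_pair] at hmem
  obtain ⟨x, y, hxy⟩ := hmem
  have hg0 : g₀ ≠ 0 := fun h => hc0 (by rw [h] at hcd; exact zero_dvd_iff.mp hcd)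
  obtain ⟨a₁, ha₁⟩ := ha
  obtain ⟨b₁, hb₁⟩ := hcd
  have hl : g₀.leadingCoeff ≠ 0 := leadingCoeff_ne_zero.mpr hg0
  have hcc : C (g₀.leadingCoeff)⁻¹ * C g₀.leadingCoeff = (1 : F[X]) := by
    rw [← C_mul, inv_mul_cancel₀ hl, C_1]
  have hgm : (g₀ * C (g₀.leadingCoeff)⁻¹).Monic := monic_mul_leadingCoeff_inv hg0
  have hcb : c = g₀ * C (g₀.leadingCoeff)⁻¹ * (C g₀.leadingCoeff * b₁) := by
    calc c = g₀ * b₁ := hb₁
      _ = g₀ * (C (g₀.leadingCoeff)⁻¹ * C g₀.leadingCoeff) * b₁ := by rw [hcc, mul_one]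
      _ = _ := by ring
  refine ⟨g₀ * C (g₀.leadingCoeff)⁻¹, C g₀.leadingCoeff * a₁, C g₀.leadingCoeff * b₁, hgm, ?_, ?_,
    hcb, ?_⟩
  · rw [hcb] at hc
    exact hgm.of_mul_monic_left hc
  · calc a = g₀ * a₁ := ha₁
      _ = g₀ * (C (g₀.leadingCoeff)⁻¹ * C g₀.leadingCoeff) * a₁ := by rw [hcc, mul_one]
      _ = _ := by ring
  · have h1 : x * a₁ + y * b₁ = 1 := by
      apply mul_left_cancel₀ hg0
      calc g₀ * (x * a₁ + y * b₁) = x * (g₀ * a₁) + y * (g₀ * b₁) := by ring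
        _ = x * a + y * c := by rw [← ha₁, ← hb₁]
        _ = g₀ * 1 := by rw [hxy, mul_one]
    refine ⟨C (g₀.leadingCoeff)⁻¹ * x, C (g₀.leadingCoeff)⁻¹ * y, ?_⟩
    calc C (g₀.leadingCoeff)⁻¹ * x * (C g₀.leadingCoeff * a₁) +
          C (g₀.leadingCoeff)⁻¹ * y * (C g₀.leadingCoeff * b₁)
        = (C (g₀.leadingCoeff)⁻¹ * C g₀.leadingCoeff) * (x * a₁ + y * b₁) := by ring
      _ = 1 := by rw [hcc, h1, one_mul]

lemma dvd_of_eq {g g₂ a' a₂ b b₂ : F[X]} (hab : IsCoprime a' b) (h1 : g * a' = g₂ * a₂)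
    (h2 : g * b = g₂ * b₂) : g₂ ∣ g := by
  obtain ⟨u, v, huv⟩ := hab
  refine ⟨u * a₂ + v * b₂, ?_⟩
  calc g = g * (u * a' + v * b) := by rw [huv, mul_one]
    _ = u * (g * a') + v * (g * b) := by ring
    _ = u * (g₂ * a₂) + v * (g₂ * b₂) := by rw [h1, h2]
    _ = _ := by ring

variable [Fintype F]

/-- the monic divisors of `c` of degree at most `m` -/
def DIV (c : F[X]) (m : ℕ) : Finset (Σ _ : ℕ, F[X]) :=
  (Finset.range (m + 1)).sigma (fun k => (MON F k).filter (fun b => b ∣ c))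

/-- the pairs `(b, a')` -/
def PAIRS (c : F[X]) : Finset (Σ _ : (Σ _ : ℕ, F[X]), F[X]) :=
  (DIV c c.natDegree).sigma (fun x => (POL F x.2.natDegree).filter (fun a => IsCoprime a x.2))

variable [CharP F 3]

lemma mem_PAIRS (hB0 : S_B0 F) (c : F[X]) (x : Σ _ : (Σ _ : ℕ, F[X]), F[X]) :
    x ∈ PAIRS c ↔ x.1.1 ≤ c.natDegree ∧ x.1.2.Monic ∧ x.1.2.natDegree = x.1.1 ∧ x.1.2 ∣ c ∧
      x.2.degree < x.1.2.natDegree ∧ IsCoprime x.2 x.1.2 := by
  unfold PAIRS DIV
  rw [Finset.mem_sigma, Finset.mem_sigma, Finset.mem_filter, Finset.mem_filter, Finset.mem_range,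
    hB0.2.1, hB0.1]
  constructor
  · rintro ⟨⟨h1, ⟨h2, h3⟩, h4⟩, h5, h6⟩
    exact ⟨by omega, h2, h3, h4, h5, h6⟩
  · rintro ⟨h1, h2, h3, h4, h5, h6⟩
    exact ⟨⟨by omega, ⟨h2, h3⟩, h4⟩, h5, h6⟩

lemma card_PAIRS (hB0 : S_B0 F) (c : F[X]) (hc : c.Monic) :
    (PAIRS c).card = (POL F c.natDegree).card := by
  have hc0 : c ≠ 0 := hc.ne_zero
  have key : ∀ b : F[X], b ∣ c → c / b * b = c := fun b hb => by
    have hb0 : b ≠ 0 := fun h => hc0 (zero_dvd_iff.mp (h ▸ hb))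
    rw [mul_comm]
    exact EuclideanDomain.mul_div_cancel' hb0 hb
  apply Finset.card_bij (fun x _ => c / x.1.2 * x.2)
  · intro x hx
    rw [mem_PAIRS hB0] at hx
    obtain ⟨-, h2, h3, h4, h5, -⟩ := hx
    rw [hB0.1]
    have hk := key _ h4
    have hg : c / x.1.2 ≠ 0 := fun h => hc0 (by rw [← hk, h, zero_mul])
    calc (c / x.1.2 * x.2).degree = (c / x.1.2).degree + x.2.degree := degree_mul
      _ < (c / x.1.2).degree + x.1.2.degree := by
          apply WithBot.add_lt_add_left (degree_ne_bot.mpr hg)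
          rw [degree_eq_natDegree h2.ne_zero]
          exact h5
      _ = c.degree := by rw [← degree_mul, hk]
      _ = (c.natDegree : WithBot ℕ) := degree_eq_natDegree hc0
  · rintro ⟨⟨k₁, b₁⟩, a₁⟩ hx ⟨⟨k₂, b₂⟩, a₂⟩ hy hxy
    rw [mem_PAIRS hB0] at hx hy
    obtain ⟨-, h2, h3, h4, h5, h6⟩ := hx
    obtain ⟨-, i2, i3, i4, i5, i6⟩ := hy
    simp only at h2 h3 h4 h5 h6 i2 i3 i4 i5 i6 hxy
    have hk₁ := key _ h4
    have hk₂ := key _ i4
    have hgm₁ : (c / b₁).Monic := by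
      have : (c / b₁ * b₁).Monic := by rw [hk₁]; exact hc
      exact h2.of_mul_monic_right this
    have hgm₂ : (c / b₂).Monic := by
      have : (c / b₂ * b₂).Monic := by rw [hk₂]; exact hc
      exact i2.of_mul_monic_right this
    have hbb : c / b₁ * b₁ = c / b₂ * b₂ := by rw [hk₁, hk₂]
    have hd1 : c / b₂ ∣ c / b₁ := dvd_of_eq h6 hxy hbb
    have hd2 : c / b₁ ∣ c / b₂ := dvd_of_eq i6 hxy.symm hbb.symm
    have hg : c / b₁ = c / b₂ := eq_of_monic_of_associated hgm₁ hgm₂ (associated_of_dvd_dvd hd2 hd1)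
    have hg0 : c / b₂ ≠ 0 := hgm₂.ne_zero
    rw [hg] at hbb hxy
    have hb : b₁ = b₂ := mul_left_cancel₀ hg0 hbb
    have ha : a₁ = a₂ := mul_left_cancel₀ hg0 hxy
    subst hb ha
    rw [← h3, ← i3]
  · intro a ha
    rw [hB0.1] at ha
    obtain ⟨g, a', b, hg, hb, h1, h2, h3⟩ := exists_gcd a c hc
    have hdeg : c.natDegree = g.natDegree + b.natDegree := by
      rw [h2, natDegree_mul hg.ne_zero hb.ne_zero]
    have hbd : b ∣ c := ⟨g, by rw [h2, mul_comm]⟩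
    refine ⟨⟨⟨b.natDegree, b⟩, a'⟩, ?_, ?_⟩
    · rw [mem_PAIRS hB0]
      refine ⟨by simp only; omega, hb, rfl, hbd, ?_, h3⟩
      simp only
      rw [← degree_eq_natDegree hb.ne_zero]
      rw [← degree_eq_natDegree hc0, h1, h2, degree_mul, degree_mul] at ha
      by_contra hcon
      rw [not_lt] at hcon
      exact absurd ha (not_lt.mpr (by gcongr))
    · simp only
      have : c / b = g := by
        apply mul_right_cancel₀ hb.ne_zero
        rw [key _ hbd, h2]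
      rw [this, h1]

lemma sum_phi (hB0 : S_B0 F) (c : F[X]) (hc : c.Monic) :
    ∑ k ∈ Finset.range (c.natDegree + 1), ∑ b ∈ (MON F k).filter (fun b => b ∣ c), phi b =
      Fintype.card F ^ c.natDegree := by
  rw [← hB0.2.2.2.1, ← card_PAIRS hB0 c hc]
  unfold PAIRS DIV
  rw [Finset.card_sigma, Finset.sum_sigma]
  rfl

end XPH

open XPH in
theorem p_PH (F : Type) [Field F] [Fintype F] [CharP F 3] (hB0 : S_B0 F) (hCP : S_CP F) : S_PH F := by
  refine ⟨fun c hc => sum_phi hB0 c hc, fun b => ?_, ?_, ?_⟩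
  · rw [← hB0.2.2.2.1]
    exact Finset.card_filter_le _ _
  · unfold phi
    rw [Finset.filter_true_of_mem (fun a _ => isCoprime_one_right), hB0.2.2.2.1]
    simp
  · intro U m hU hm
    obtain ⟨h1, h2, h3⟩ := hCP.1 U hU
    have hiff : ∀ b : F[X], b ^ 3 ∣ U ↔ b ∣ cpart U :=
      fun b => ⟨h3 b, fun h => (pow_dvd_pow_of_dvd h 3).trans h2⟩
    have hcm : (cpart U).natDegree ≤ m := by
      have := natDegree_le_of_dvd h2 hU
      rw [natDegree_pow] at this
      omega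
    simp only [hiff]
    rw [← sum_phi hB0 (cpart U) h1]
    symm
    apply Finset.sum_subset (Finset.range_mono (by omega))
    intro k _ hk2
    rw [Finset.mem_range, not_lt] at hk2
    apply Finset.sum_eq_zero
    intro b hb
    rw [Finset.mem_filter, hB0.2.1] at hb
    exfalso
    have := natDegree_le_of_dvd hb.2 h1.ne_zero
    omega

end DH
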