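import Pool.Agent.H463.DH.Stm

/-! # DH R: the final theorem -/

open Polynomial
open scoped Classical

noncomputable section

namespace DH

namespace XR

theorem lim_aux {q C δ : ℝ} (hq : 1 < q) (hδ : 0 < δ) :
    ∃ g₀ : ℕ, ∀ g ≥ g₀, C * ((g : ℝ) + 1) ^ 3 / q ^ (g / 4) ≤ δ := by
  have hq0 : 0 < q := by linarith
  have hr : |1 / q| < 1 := by
    rw [abs_of_pos (by positivity), div_lt_one hq0]
    exact hq
  have h1 := tendsto_pow_const_mul_const_pow_of_abs_lt_one 3 hr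
  have h2 : Filter.Tendsto (fun m : ℕ => |C| * 64 * q * ((m : ℝ) ^ 3 * (1 / q) ^ m))
      Filter.atTop (nhds 0) := by
    have := h1.const_mul (|C| * 64 * q)
    rwa [mul_zero] at this
  obtain ⟨m0, hm0⟩ := Filter.eventually_atTop.1 ((tendsto_order.1 h2).2 δ hδ)
  refine ⟨4 * m0, fun g hg => ?_⟩
  have hm : m0 ≤ g / 4 + 1 := by omega
  have h3 := (hm0 _ hm).le
  have h4 : (g : ℝ) + 1 ≤ 4 * ((g / 4 + 1 : ℕ) : ℝ) := by
    have : g + 1 ≤ 4 * (g / 4 + 1) := by omega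
    exact_mod_cast this
  have h5 : ((g : ℝ) + 1) ^ 3 ≤ 64 * ((g / 4 + 1 : ℕ) : ℝ) ^ 3 := by
    calc ((g : ℝ) + 1) ^ 3 ≤ (4 * ((g / 4 + 1 : ℕ) : ℝ)) ^ 3 :=
          pow_le_pow_left₀ (by positivity) h4 3
      _ = _ := by ring
  have hqp : 0 < q ^ (g / 4) := by positivity
  calc C * ((g : ℝ) + 1) ^ 3 / q ^ (g / 4)
      ≤ |C| * (64 * ((g / 4 + 1 : ℕ) : ℝ) ^ 3) / q ^ (g / 4) := by
        apply div_le_div_of_nonneg_right _ hqp.le
        exact mul_le_mul (le_abs_self C) h5 (by positivity) (abs_nonneg C)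
    _ = |C| * 64 * q * (((g / 4 + 1 : ℕ) : ℝ) ^ 3 * (1 / q) ^ (g / 4 + 1)) := by
        rw [one_div, inv_pow, pow_succ]
        field_simp
        ring
    _ ≤ δ := h3

variable (F : Type) [Field F] [Fintype F] [CharP F 3]

theorem isSol_neg {f v : F[X]} (h : IsSol f v) : IsSol f (-v) := by
  unfold IsSol at h ⊢
  rw [mul_neg, derivative_neg, derivative_neg, h]
  ring

theorem ne_neg {v : F[X]} (h : v ≠ 0) : v ≠ -v := by
  intro e
  apply h
  have h3 : (3 : F[X]) = 0 := by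
    have := CharP.cast_eq_zero F[X] 3
    exact_mod_cast this
  have e2 : v + v = 0 := by
    nth_rewrite 2 [e]
    exact add_neg_cancel v
  calc v = 3 * v - (v + v) := by ring
    _ = 0 := by rw [h3, e2, zero_mul, sub_zero]

theorem two_le (hB1 : S_B1 F) {f : F[X]} (h : 0 < (solz f).card) : 2 ≤ (solz f).card := by
  obtain ⟨_, _, _, _, _, _, hsolz, _, _⟩ := hB1
  obtain ⟨v, hv⟩ := Finset.card_pos.1 h
  obtain ⟨hv0, hvs⟩ := (hsolz f v).1 hv
  have hv' : -v ∈ solz f := (hsolz f (-v)).2 ⟨neg_ne_zero.2 hv0, isSol_neg F hvs⟩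
  have hsub : ({v, -v} : Finset F[X]) ⊆ solz f := by
    intro w hw
    rw [Finset.mem_insert, Finset.mem_singleton] at hw
    rcases hw with rfl | rfl
    · exact hv
    · exact hv'
  have := Finset.card_le_card hsub
  rwa [Finset.card_pair (ne_neg F hv0)] at this

theorem good_of_mem (hB0 : S_B0 F) {g : ℕ} {f : F[X]} (hf : f ∈ SQF F (2 * g + 1)) : Good f := by
  unfold SQF at hf
  rw [Finset.mem_filter] at hf
  obtain ⟨hm, hs⟩ := hf
  obtain ⟨_, hMON, _, _, _, _⟩ := hB0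
  obtain ⟨h1, h2⟩ := (hMON _ f).1 hm
  exact ⟨h1, hs, h2 ▸ odd_two_mul_add_one g⟩

theorem cl3_eq (hA9 : S_A9 F) (hB0 : S_B0 F) (hB1 : S_B1 F) {g : ℕ} {f : F[X]}
    (hf : f ∈ SQF F (2 * g + 1)) : cl3 f = (solz f).card + 1 := by
  rw [hA9 f (good_of_mem F hB0 hf)]
  obtain ⟨_, _, _, _, _, _, _, h8, _⟩ := hB1
  exact h8 f

theorem one_lt_qq : 1 < qq F := by
  unfold qq
  have := Fintype.one_lt_card (α := F)
  exact_mod_cast this

end XR

theorem p_R (F : Type) [Field F] [Fintype F] [CharP F 3] (hA3 : S_A3 F) (hA9 : S_A9 F)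
    (hF9 : S_F9 F) (hG4 : S_G4 F) (hF5 : S_F5 F) (hB0 : S_B0 F) (hB1 : S_B1 F) : S_R F := by
  have hcl : ∀ (g : ℕ) (f : F[X]), f ∈ SQF F (2 * g + 1) → cl3 f = (solz f).card + 1 :=
    fun g f hf => XR.cl3_eq F hA9 hB0 hB1 hf
  have hq1 := XR.one_lt_qq F
  have hq0 : 0 < qq F := by linarith
  obtain ⟨Cst, hC0, hC⟩ := hF9
  have hcardq : (Fintype.card F : ℝ) = qq F := rfl
  have hsum : ∀ g : ℕ, ∑ f ∈ SQF F (2 * g + 1), (((solz f).card : ℝ) - 1) =
      ∑ f ∈ SQF F (2 * g + 1), ((solz f).card : ℝ) - ((SQF F (2 * g + 1)).card : ℝ) := by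
    intro g
    rw [Finset.sum_sub_distrib, Finset.sum_const, nsmul_eq_mul, mul_one]
  have hSQ : ∀ g : ℕ, 1 ≤ g → ((SQF F (2 * g + 1)).card : ℝ) =
      (1 - 1 / qq F) * qq F ^ (2 * g + 1) := by
    intro g hg
    rw [hF5.2 g hg, pow_succ]
    field_simp
  have hθ : 0 < 1 - 1 / qq F := by
    rw [sub_pos, div_lt_one hq0]; exact hq1
  -- small error
  have herr : ∀ δ : ℝ, 0 < δ → ∃ g₀ : ℕ, 1 ≤ g₀ ∧ ∀ g ≥ g₀,
      Cst * (g + 1) ^ 3 * qq F ^ (2 * g + 1) / qq F ^ (g / 4) ≤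
        δ * ((SQF F (2 * g + 1)).card : ℝ) := by
    intro δ hδ
    obtain ⟨g0, hg0⟩ := XR.lim_aux (C := Cst) hq1 (mul_pos hδ hθ)
    refine ⟨max g0 1, le_max_right _ _, fun g hg => ?_⟩
    have h1 := hg0 g ((le_max_left _ _).trans hg)
    have h2 : 1 ≤ g := (le_max_right _ _).trans hg
    rw [hSQ g h2]
    have hp : 0 < qq F ^ (2 * g + 1) := by positivity
    calc Cst * (g + 1) ^ 3 * qq F ^ (2 * g + 1) / qq F ^ (g / 4)
        = (Cst * (g + 1) ^ 3 / qq F ^ (g / 4)) * qq F ^ (2 * g + 1) := by ring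
      _ ≤ (δ * (1 - 1 / qq F)) * qq F ^ (2 * g + 1) :=
          mul_le_mul_of_nonneg_right h1 hp.le
      _ = _ := by ring
  refine ⟨?_, ⟨Cst, ?_⟩, ?_, ?_⟩
  · intro f h1 h2 h3
    exact hA3 f ⟨h1, h2, h3⟩
  · intro g
    have e : ∑ f ∈ SQF F (2 * g + 1), ((cl3 f : ℝ) - 2) =
        ∑ f ∈ SQF F (2 * g + 1), (((solz f).card : ℝ) - 1) := by
      refine Finset.sum_congr rfl fun f hf => ?_
      rw [hcl g f hf]
      push_cast
      ring
    rw [e]
    exact hC g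
  · intro ε hε
    obtain ⟨g0, hg01, hg0⟩ := herr (2 * ε) (by linarith)
    refine ⟨g0, fun g hg => ?_⟩
    have h1 := hg0 g hg
    have h2 := hC g
    rw [hsum g] at h2
    have h3 := (abs_le.1 h2).2
    -- count
    have h4 : 2 * (((SQF F (2 * g + 1)).filter (fun f => ¬ cl3 f = 1)).card : ℝ) ≤
        ∑ f ∈ SQF F (2 * g + 1), ((solz f).card : ℝ) := by
      calc 2 * (((SQF F (2 * g + 1)).filter (fun f => ¬ cl3 f = 1)).card : ℝ)
          = ∑ _f ∈ (SQF F (2 * g + 1)).filter (fun f => ¬ cl3 f = 1), (2 : ℝ) := by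
            rw [Finset.sum_const, nsmul_eq_mul, mul_comm]
        _ ≤ ∑ f ∈ (SQF F (2 * g + 1)).filter (fun f => ¬ cl3 f = 1), ((solz f).card : ℝ) := by
            refine Finset.sum_le_sum fun f hf => ?_
            rw [Finset.mem_filter] at hf
            have h5 : 0 < (solz f).card := by
              have := hcl g f hf.1
              have := hf.2
              omega
            exact_mod_cast XR.two_le F hB1 h5
        _ ≤ _ := by
            apply Finset.sum_le_sum_of_subset_of_nonneg (Finset.filter_subset _ _)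
            intro f _ _
            positivity
    have h5 : (((SQF F (2 * g + 1)).filter (fun f => cl3 f = 1)).card : ℝ) +
        (((SQF F (2 * g + 1)).filter (fun f => ¬ cl3 f = 1)).card : ℝ) =
        ((SQF F (2 * g + 1)).card : ℝ) := by
      have := Finset.card_filter_add_card_filter_not (s := SQF F (2 * g + 1)) (fun f => cl3 f = 1)
      exact_mod_cast this
    nlinarith
  · obtain ⟨g0, hg01, hg0⟩ := herr (1 / 2) (by norm_num)
    refine ⟨(1 - 1 / qq F) ^ 2 / (64 * qq F), by positivity, g0, fun g hg => ?_⟩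
    have hg1 : 1 ≤ g := hg01.trans hg
    have hg1' : (1 : ℝ) ≤ g := by exact_mod_cast hg1
    have h1 := hg0 g hg
    have h2 := hC g
    rw [hsum g] at h2
    have h3 := (abs_le.1 h2).1
    have h4 : (1 / 2) * ((SQF F (2 * g + 1)).card : ℝ) ≤
        ∑ f ∈ SQF F (2 * g + 1), ((solz f).card : ℝ) := by linarith
    set N := (SQF F (2 * g + 1)).filter (fun f => 1 < cl3 f) with hN
    have h5 : ∑ f ∈ SQF F (2 * g + 1), ((solz f).card : ℝ) = ∑ f ∈ N, ((solz f).card : ℝ) := by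
      symm
      apply Finset.sum_subset (Finset.filter_subset _ _)
      intro f hf hfN
      have h6 : ¬ 1 < cl3 f := fun h => hfN (Finset.mem_filter.2 ⟨hf, h⟩)
      have h7 := hcl g f hf
      have h8 : (solz f).card = 0 := by omega
      rw [h8, Nat.cast_zero]
    have h6 : (∑ f ∈ N, ((solz f).card : ℝ)) ^ 2 ≤ (N.card : ℝ) * ∑ f ∈ N, ((solz f).card : ℝ) ^ 2 :=
      sq_sum_le_card_mul_sum_sq
    have h7 : ∑ f ∈ N, ((solz f).card : ℝ) ^ 2 ≤ (8 * qq F * g + 8) * qq F ^ (2 * g + 1) := by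
      refine le_trans ?_ (hG4 g)
      apply Finset.sum_le_sum_of_subset_of_nonneg
      · exact (Finset.filter_subset _ _).trans (Finset.filter_subset _ _)
      · intro f _ _
        positivity
    have hp : 0 < qq F ^ (2 * g + 1) := by positivity
    have h8 : (8 * qq F * g + 8) * qq F ^ (2 * g + 1) ≤ 16 * qq F * g * qq F ^ (2 * g + 1) := by
      apply mul_le_mul_of_nonneg_right _ hp.le
      have : 1 ≤ qq F * g := by nlinarith
      nlinarith
    have h9 : ((1 / 2) * ((SQF F (2 * g + 1)).card : ℝ)) ^ 2 ≤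
        (N.card : ℝ) * (16 * qq F * g * qq F ^ (2 * g + 1)) := by
      calc ((1 / 2) * ((SQF F (2 * g + 1)).card : ℝ)) ^ 2
          ≤ (∑ f ∈ SQF F (2 * g + 1), ((solz f).card : ℝ)) ^ 2 :=
            pow_le_pow_left₀ (by positivity) h4 2
        _ = (∑ f ∈ N, ((solz f).card : ℝ)) ^ 2 := by rw [h5]
        _ ≤ (N.card : ℝ) * ∑ f ∈ N, ((solz f).card : ℝ) ^ 2 := h6
        _ ≤ _ := mul_le_mul_of_nonneg_left (h7.trans h8) (by positivity)
    rw [hSQ g hg1] at h9
    rw [hcardq]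
    have hg0' : (0 : ℝ) < g := by linarith
    have h10 : ((1 - 1 / qq F) ^ 2 * qq F ^ (2 * g + 1)) * qq F ^ (2 * g + 1) ≤
        ((N.card : ℝ) * (64 * qq F * g)) * qq F ^ (2 * g + 1) := by
      nlinarith [h9]
    have h11 := le_of_mul_le_mul_right h10 hp
    rw [div_mul_eq_mul_div, div_div, div_le_iff₀ (by positivity)]
    nlinarith [h11]

end DH
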