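import Pool.Agent.H463.DH.Stm

/-!
# SW : splitting `W = a W₁` by the gcd with `b` in a Moebius sum
-/

open Polynomial
open scoped Classical

noncomputable section

namespace DH

namespace XSW

variable {F : Type} [Field F]

/-- uniqueness of the splitting -/
theorem uniq {b a a' w w' : F[X]} (ha : a.Monic) (ha' : a'.Monic) (hab : a ∣ b) (ha'b : a' ∣ b)
    (hw : IsCoprime w b) (hw' : IsCoprime w' b) (h : a * w = a' * w') : a = a' ∧ w = w' := by
  have h1 : a ∣ a' := by
    have hc : IsCoprime a w' := (hw'.symm).of_isCoprime_of_dvd_left hab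
    exact hc.dvd_of_dvd_mul_right (Dvd.intro w h)
  have h2 : a' ∣ a := by
    have hc : IsCoprime a' w := (hw.symm).of_isCoprime_of_dvd_left ha'b
    exact hc.dvd_of_dvd_mul_right (Dvd.intro w' h.symm)
  have h3 : a = a' := Polynomial.eq_of_monic_of_associated ha ha' (associated_of_dvd_dvd h1 h2)
  refine ⟨h3, ?_⟩
  subst h3
  exact mul_left_cancel₀ ha.ne_zero h

/-- existence of the splitting for squarefree `W` -/
theorem exis {b W : F[X]} (hW : W.Monic) (hs : Squarefree W) :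
    ∃ a w : F[X], a.Monic ∧ w.Monic ∧ a ∣ b ∧ IsCoprime w b ∧ W = a * w := by
  set d := EuclideanDomain.gcd b W with hd
  have hd0 : d ≠ 0 := by
    intro h0
    have : (EuclideanDomain.gcd b W) ∣ W := EuclideanDomain.gcd_dvd_right b W
    rw [← hd, h0] at this
    exact hW.ne_zero (zero_dvd_iff.mp this)
  have ham : (normalize d).Monic := Polynomial.monic_normalize hd0
  have hab : normalize d ∣ b := by
    rw [normalize_dvd_iff]
    exact EuclideanDomain.gcd_dvd_left b W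
  have haW : normalize d ∣ W := by
    rw [normalize_dvd_iff]
    exact EuclideanDomain.gcd_dvd_right b W
  obtain ⟨w, hw⟩ := haW
  have hwm : w.Monic := by
    have h1 : (normalize d * w).Monic := hw ▸ hW
    exact Polynomial.Monic.of_mul_monic_left ham h1
  refine ⟨normalize d, w, ham, hwm, hab, ?_, hw⟩
  apply EuclideanDomain.isCoprime_of_dvd
  · rintro ⟨h1, -⟩
    exact hwm.ne_zero h1
  · intro y hy hy0 hyw hyb
    have hyW : y ∣ W := by
      rw [hw]
      exact Dvd.dvd.mul_left hyw _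
    have hya : y ∣ normalize d := by
      rw [dvd_normalize_iff]
      exact EuclideanDomain.dvd_gcd hyb hyW
    have h2 : y * y ∣ W := by
      rw [hw]
      exact mul_dvd_mul hya hyw
    exact hy (hs y h2)

end XSW

theorem p_SW (F : Type) [Field F] [Fintype F] [CharP F 3] (hB0 : S_B0 F) (hMU : S_MU F) : S_SW F := by
  intro b z m g g' hb hbm hg
  obtain ⟨-, hMON, -, -, -, -⟩ := hB0
  obtain ⟨-, -, hmul, -, -, -⟩ := hMU
  have hq : 0 < qq F := by
    unfold qq
    exact_mod_cast Fintype.card_pos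
  have hR : ∀ k ∈ Finset.range (m + 1), ∀ a ∈ (MON F k).filter (fun a => a ∣ b),
      g a * mu a / qq F ^ (2 * k) * Kb F b ((z : ℤ) - k) =
      ∑ w ∈ (Finset.range (z + 1)).filter (fun w => w + k ≤ z),
        ∑ W ∈ (MON F w).filter (fun W => IsCoprime W b),
          g a * mu a / qq F ^ (2 * k) * (mu W / qq F ^ (2 * w)) := by
    intro k _ a _
    unfold Kb
    have hset : (Finset.range (((z : ℤ) - k).toNat + 1)).filter (fun w : ℕ => (w : ℤ) ≤ (z : ℤ) - k) =
        (Finset.range (z + 1)).filter (fun w => w + k ≤ z) := by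
      ext w
      simp only [Finset.mem_filter, Finset.mem_range]
      constructor
      · rintro ⟨h1, h2⟩
        constructor <;> omega
      · rintro ⟨h1, h2⟩
        constructor <;> omega
    rw [hset, Finset.mul_sum]
    refine Finset.sum_congr rfl (fun w _ => ?_)
    rw [Finset.mul_sum]
  rw [Finset.sum_congr rfl (fun k hk => Finset.sum_congr rfl (fun a ha => hR k hk a ha))]
  rw [Finset.sum_sigma', Finset.sum_sigma', Finset.sum_sigma', Finset.sum_sigma']
  symm
  refine Finset.sum_bij_ne_zero (fun x _ _ => ⟨x.1.1.1 + x.1.2, x.1.1.2 * x.2⟩) ?_ ?_ ?_ ?_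
  · rintro ⟨⟨⟨k, a⟩, w⟩, W⟩ h1 h2
    simp only [Finset.mem_sigma, Finset.mem_filter, Finset.mem_range, hMON] at h1 ⊢
    obtain ⟨⟨⟨h3, ⟨h4, h5⟩, h6⟩, h7, h8⟩, ⟨h9, h10⟩, h11⟩ := h1
    refine ⟨by omega, h4.mul h9, ?_⟩
    rw [h4.natDegree_mul h9, h5, h10]
  · rintro ⟨⟨⟨k, a⟩, w⟩, W⟩ h1 - ⟨⟨⟨k', a'⟩, w'⟩, W'⟩ h1' - heq
    simp only [Finset.mem_sigma, Finset.mem_filter, Finset.mem_range, hMON] at h1 h1'
    obtain ⟨⟨⟨h3, ⟨h4, h5⟩, h6⟩, h7, h8⟩, ⟨h9, h10⟩, h11⟩ := h1
    obtain ⟨⟨⟨h3', ⟨h4', h5'⟩, h6'⟩, h7', h8'⟩, ⟨h9', h10'⟩, h11'⟩ := h1'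
    simp only [Sigma.mk.injEq] at heq
    have h12 : a * W = a' * W' := eq_of_heq heq.2
    obtain ⟨h13, h14⟩ := XSW.uniq h4 h4' h6 h6' h11 h11' h12
    subst h13
    subst h14
    subst h5
    subst h10
    subst h5'
    subst h10'
    rfl
  · rintro ⟨w, W⟩ h1 h2
    simp only [Finset.mem_sigma, Finset.mem_range, hMON] at h1
    obtain ⟨h3, h4, h5⟩ := h1
    have hs : Squarefree W := by
      by_contra hns
      apply h2
      have h0 : mu W = 0 := by
        unfold mu
        rw [if_neg hns]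
      show mu W / qq F ^ (2 * w) * g' W = 0
      rw [h0, zero_div, zero_mul]
    obtain ⟨a, W₁, ha, hW₁, hab, hcop, hWe⟩ := XSW.exis (b := b) h4 hs
    have hdeg : W.natDegree = a.natDegree + W₁.natDegree := by
      rw [hWe, ha.natDegree_mul hW₁]
    have hadeg : a.natDegree ≤ b.natDegree := Polynomial.natDegree_le_of_dvd hab hb.ne_zero
    have hmul' : mu W = mu a * mu W₁ := by
      rw [hWe]
      exact hmul a W₁ ha.ne_zero hW₁.ne_zero (IsCoprime.symm (hcop.of_isCoprime_of_dvd_right hab))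
    have hg' : g' W = g a := by
      rw [hWe]
      exact hg a W₁ ha hW₁ hab hcop
    refine ⟨⟨⟨⟨a.natDegree, a⟩, W₁.natDegree⟩, W₁⟩, ?_, ?_, ?_⟩
    · simp only [Finset.mem_sigma, Finset.mem_filter, Finset.mem_range, hMON]
      exact ⟨⟨⟨by omega, ⟨ha, trivial⟩, hab⟩, by omega, by omega⟩, ⟨hW₁, trivial⟩, hcop⟩
    · show g a * mu a / qq F ^ (2 * a.natDegree) * (mu W₁ / qq F ^ (2 * W₁.natDegree)) ≠ 0
      intro h0
      apply h2
      show mu W / qq F ^ (2 * w) * g' W = 0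
      rw [hmul', hg', ← h5, hdeg, mul_add, pow_add]
      have h7 : mu a * mu W₁ / (qq F ^ (2 * a.natDegree) * qq F ^ (2 * W₁.natDegree)) * g a =
          g a * mu a / qq F ^ (2 * a.natDegree) * (mu W₁ / qq F ^ (2 * W₁.natDegree)) := by
        field_simp
      rw [h7, h0]
    · show (⟨a.natDegree + W₁.natDegree, a * W₁⟩ : (_ : ℕ) × F[X]) = ⟨w, W⟩
      rw [← hdeg, h5, hWe]
  · rintro ⟨⟨⟨k, a⟩, w⟩, W⟩ h1 h2
    simp only [Finset.mem_sigma, Finset.mem_filter, Finset.mem_range, hMON] at h1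
    obtain ⟨⟨⟨h3, ⟨h4, h5⟩, h6⟩, h7, h8⟩, ⟨h9, h10⟩, h11⟩ := h1
    show g a * mu a / qq F ^ (2 * k) * (mu W / qq F ^ (2 * w)) =
      mu (a * W) / qq F ^ (2 * (k + w)) * g' (a * W)
    rw [hg a W h4 h9 h6 h11, hmul a W h4.ne_zero h9.ne_zero (IsCoprime.symm (h11.of_isCoprime_of_dvd_right h6)),
      mul_add, pow_add]
    field_simp

end DH
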