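import Pool.Agent.H463.DH.B0
import Pool.Agent.H463.DH.B1
import Pool.Agent.H463.DH.A1
import Pool.Agent.H463.DH.A2
import Pool.Agent.H463.DH.A3
import Pool.Agent.H463.DH.A4
import Pool.Agent.H463.DH.A5
import Pool.Agent.H463.DH.A6
import Pool.Agent.H463.DH.A7
import Pool.Agent.H463.DH.A8
import Pool.Agent.H463.DH.A9
import Pool.Agent.H463.DH.B2
import Pool.Agent.H463.DH.DC
import Pool.Agent.H463.DH.B3
import Pool.Agent.H463.DH.B4
import Pool.Agent.H463.DH.CP
import Pool.Agent.H463.DH.B5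
import Pool.Agent.H463.DH.PH
import Pool.Agent.H463.DH.MU
import Pool.Agent.H463.DH.TA
import Pool.Agent.H463.DH.KB
import Pool.Agent.H463.DH.L3
import Pool.Agent.H463.DH.SW
import Pool.Agent.H463.DH.ME1
import Pool.Agent.H463.DH.ME2
import Pool.Agent.H463.DH.F1
import Pool.Agent.H463.DH.F2
import Pool.Agent.H463.DH.F3
import Pool.Agent.H463.DH.F4
import Pool.Agent.H463.DH.F5
import Pool.Agent.H463.DH.F6
import Pool.Agent.H463.DH.F7
import Pool.Agent.H463.DH.F8
import Pool.Agent.H463.DH.F9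
import Pool.Agent.H463.DH.G0
import Pool.Agent.H463.DH.G1
import Pool.Agent.H463.DH.G2
import Pool.Agent.H463.DH.G3
import Pool.Agent.H463.DH.G4
import Pool.Agent.H463.DH.R

/-! All parts put together. -/

open Polynomial
open scoped Classical

namespace DH

theorem all (F : Type) [Field F] [Fintype F] [CharP F 3] : S_R F := by
  have b0 := p_B0 F
  have b1 := p_B1 F b0
  have a1 := p_A1 F
  have a2 := p_A2 F
  have a3 := p_A3 F
  have a4 := p_A4 F a1 a2 b1
  have a5 := p_A5 F a2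
  have a6 := p_A6 F a1 a5
  have a7 := p_A7 F a1 a2 a3 a4 a6
  have a8 := p_A8 F a1 a2
  have a9 := p_A9 F a1 a2 a3 a4 a7 a8 b1
  have b2 := p_B2 F b0
  have dc := p_DC F b0
  have b3 := p_B3 F b0 b1 b2 dc
  have b4 := p_B4 F b0 b1 b2 b3
  have cp := p_CP F
  have b5 := p_B5 F b0 b1 b4 cp
  have ph := p_PH F b0 cp
  have mu := p_MU F b0
  have ta := p_TA F b0
  have kb := p_KB F b0 mu
  have l3 := p_L3 F b0
  have sw := p_SW F b0 mu
  have me1 := p_ME1 F b0 cp ph l3 sw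
  have me2 := p_ME2 F b0 mu kb ta ph me1
  have f1 := p_F1 F b0 b1
  have f2 := p_F2 F b1
  have f3 := p_F3 F b0 f2
  have f4 := p_F4 F b0 b1 b5 cp f1
  have f5 := p_F5 F b0 mu
  have f6 := p_F6 F b0 b1 ta f3 f4
  have f7 := p_F7 F b0 b5 f1
  have f8 := p_F8
  have f9 := p_F9 F b1 f4 f5 f6 f7 f8 me2
  have g0 := p_G0 F b1
  have g1 := p_G1 F b1 cp
  have g2 := p_G2 F b0 g1
  have g3 := p_G3 F b0 b3 dc
  have g4 := p_G4 F b0 b1 g0 g2 g3 f4
  exact p_R F a3 a9 f9 g4 f5 b0 b1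

end DH
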