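import Pool.Agent.H463.DH.Stm2

/-!
# M4: decomposition of `c` (helper199 for helper463)
-/

open Polynomial
open scoped Classical

noncomputable section

namespace DH

namespace XM4

variable {F : Type} [Field F]

theorem dvd_of_pow {c D : F[X]} (hc : c ≠ 0)
    (h : ∀ (P : F[X]) (k : ℕ), Irreducible P → P ^ k ∣ c → P ^ k ∣ D) : c ∣ D := by
  revert hc h
  refine UniqueFactorizationMonoid.induction_on_coprime
    (P := fun c : F[X] => c ≠ 0 → (∀ (P : F[X]) (k : ℕ), Irreducible P → P ^ k ∣ c → P ^ k ∣ D) →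
      c ∣ D) c ?_ ?_ ?_ ?_
  · intro h
    exact absurd rfl h
  · intro x hx _ _
    exact hx.dvd
  · intro p i hp _ h
    exact h p i hp.irreducible dvd_rfl
  · intro x y hxy hx hy h0 h
    have hx0 : x ≠ 0 := left_ne_zero_of_mul h0
    have hy0 : y ≠ 0 := right_ne_zero_of_mul h0
    exact hxy.isCoprime.mul_dvd
      (hx hx0 fun P k hP hk => h P k hP (hk.mul_right y))
      (hy hy0 fun P k hP hk => h P k hP (hk.mul_left x))

theorem split {P u w : F[X]} (hP : Prime P) {n : ℕ} (h : P ^ n ∣ u * w)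
    (h1 : ¬ (P ∣ u ∧ P ∣ w)) : P ^ n ∣ u ∨ P ^ n ∣ w := by
  by_cases h2 : P ∣ u
  · exact Or.inl (hP.pow_dvd_of_dvd_mul_right n (fun h3 => h1 ⟨h2, h3⟩) h)
  · exact Or.inr (hP.pow_dvd_of_dvd_mul_left n h2 h)

theorem not_sq {P v : F[X]} (hP : Prime P) (hv : Squarefree v) : ¬ P ^ 2 ∣ v := by
  intro h
  rw [pow_two] at h
  exact hP.not_isUnit (hv P h)

end XM4

open XM4

theorem p_M4 (F : Type) [Field F] [Fintype F] [CharP F 3] (hCP : S_CP F) : S_M4 F := by
  intro v₁ v₂ c hv₁ hv₂ hne hne' hc hW hM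
  have h3 : (3 : F[X]) = 0 := by
    have := CharP.cast_eq_zero F[X] 3
    exact_mod_cast this
  obtain ⟨u, hu⟩ : ∃ u, u = v₁ - v₂ := ⟨_, rfl⟩
  obtain ⟨w, hw⟩ : ∃ w, w = v₁ + v₂ := ⟨_, rfl⟩
  have hu0 : u ≠ 0 := by rw [hu]; exact sub_ne_zero.2 hne
  have hw0 : w ≠ 0 := by
    rw [hw]
    intro h
    exact hne' (eq_neg_of_add_eq_zero_left h)
  have huw : v₁ = -(u + w) := by
    rw [hu, hw]
    linear_combination v₁ * h3
  have huw2 : v₂ = u - w := by
    rw [hu, hw]
    linear_combination v₂ * h3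
  have hMo : Mo v₁ v₂ = -(v₁ * v₂ * (u * w)) := by
    rw [hu, hw, Mo]
    ring
  have hv₁0 : v₁ ≠ 0 := hv₁.ne_zero
  have hv₂0 : v₂ ≠ 0 := hv₂.ne_zero
  obtain ⟨e, hem, hec, he1, he2, he3⟩ : ∃ e : F[X], e.Monic ∧ e ∣ c ∧ e ∣ v₁ ∧ e ∣ v₂ ∧
      ∀ P, P ∣ c → P ∣ v₁ → P ∣ v₂ → P ∣ e := by
    have h0 : EuclideanDomain.gcd c (EuclideanDomain.gcd v₁ v₂) ≠ 0 := fun h =>
      hc ((EuclideanDomain.gcd_eq_zero_iff.1 h).1)
    refine ⟨normalize (EuclideanDomain.gcd c (EuclideanDomain.gcd v₁ v₂)),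
      Polynomial.monic_normalize h0, ?_, ?_, ?_, ?_⟩
    · exact normalize_dvd_iff.2 (EuclideanDomain.gcd_dvd_left _ _)
    · exact normalize_dvd_iff.2 ((EuclideanDomain.gcd_dvd_right _ _).trans
        (EuclideanDomain.gcd_dvd_left _ _))
    · exact normalize_dvd_iff.2 ((EuclideanDomain.gcd_dvd_right _ _).trans
        (EuclideanDomain.gcd_dvd_right _ _))
    · intro P h1 h2 h4
      exact dvd_normalize_iff.2 (EuclideanDomain.dvd_gcd h1 (EuclideanDomain.dvd_gcd h2 h4))
  have he0 : e ≠ 0 := hem.ne_zero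
  obtain ⟨x, hx⟩ : e ∣ u := by rw [hu]; exact dvd_sub he1 he2
  obtain ⟨y, hy⟩ : e ∣ w := by rw [hw]; exact dvd_add he1 he2
  refine ⟨e, x, y, hem, hv₁.squarefree_of_dvd he1, by rw [← hu, hx], by rw [← hw, hy], ?_, ?_, ?_⟩
  · -- `e ∣ Wr x y`
    have h1 : Wr u w = e ^ 2 * Wr x y := by
      rw [hx, hy, Wr, Wr, derivative_mul, derivative_mul]
      ring
    have h2 : Wr u w = 2 * Wr v₁ v₂ := by
      rw [hu, hw, Wr, Wr, derivative_sub, derivative_add]
      ring
    have h4 : e ^ 3 ∣ e ^ 2 * Wr x y := by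
      rw [← h1, h2]
      exact ((pow_dvd_pow_of_dvd hec 3).trans hW).mul_left 2
    rw [pow_succ] at h4
    exact (mul_dvd_mul_iff_left (pow_ne_zero 2 he0)).1 h4
  · intro P hP hPe hPxy
    obtain ⟨h1, h2⟩ := hPxy
    apply not_sq hP.prime hv₁
    rw [huw, dvd_neg, pow_two]
    refine dvd_add ?_ ?_
    · rw [hx]; exact mul_dvd_mul hPe h1
    · rw [hy]; exact mul_dvd_mul hPe h2
  · rw [← hx, ← hy]
    obtain ⟨ha, ha3, hamax⟩ := hCP.1 u hu0
    obtain ⟨hb, hb3, hbmax⟩ := hCP.1 w hw0
    have key : c ∣ e * (cpart u * cpart w) := by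
      refine dvd_of_pow hc fun P k hPi hPk => ?_
      have hP := hPi.prime
      rcases Nat.eq_zero_or_pos k with hk | hk
      · rw [hk, pow_zero]
        exact one_dvd _
      have hPc : P ∣ c := (dvd_pow_self P hk.ne').trans hPk
      have hPM : P ^ (3 * k) ∣ v₁ * v₂ * (u * w) := by
        have h1 := (pow_dvd_pow_of_dvd hPk 3).trans hM
        rw [hMo, dvd_neg, ← pow_mul, mul_comm k 3] at h1
        exact h1
      have h2 : 2 ≤ 3 * k := by omega
      by_cases hP1 : P ∣ v₁
      · by_cases hP2 : P ∣ v₂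
        · -- both
          have hPe := he3 P hPc hP1 hP2
          obtain ⟨a₁, ha₁⟩ := hP1
          obtain ⟨a₂, ha₂⟩ := hP2
          have hn1 : ¬ P ∣ a₁ := fun h => not_sq hP hv₁ (by
            rw [ha₁, pow_two]; exact mul_dvd_mul_left P h)
          have hn2 : ¬ P ∣ a₂ := fun h => not_sq hP hv₂ (by
            rw [ha₂, pow_two]; exact mul_dvd_mul_left P h)
          obtain ⟨k, rfl⟩ : ∃ j, k = j + 1 := ⟨k - 1, by omega⟩
          rcases Nat.eq_zero_or_pos k with hk0 | hk0
          · rw [hk0, zero_add, pow_one]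
            exact hPe.mul_right _
          have hu' : u = P * (a₁ - a₂) := by rw [hu, ha₁, ha₂]; ring
          have hw' : w = P * (a₁ + a₂) := by rw [hw, ha₁, ha₂]; ring
          have h4 : P ^ 4 * P ^ (3 * k - 1) ∣ P ^ 4 * (a₁ * a₂ * ((a₁ - a₂) * (a₁ + a₂))) := by
            have e1 : P ^ 4 * P ^ (3 * k - 1) = P ^ (3 * (k + 1)) := by
              rw [← pow_add]
              congr 1
              omega
            have e2 : P ^ 4 * (a₁ * a₂ * ((a₁ - a₂) * (a₁ + a₂))) = v₁ * v₂ * (u * w) := by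
              rw [hu', hw', ha₁, ha₂]
              ring
            rw [e1, e2]
            exact hPM
          have h5 := (mul_dvd_mul_iff_left (pow_ne_zero 4 hP.ne_zero)).1 h4
          have h6 : ¬ P ∣ a₁ * a₂ := fun h => (hP.dvd_or_dvd h).elim hn1 hn2
          have h7 := hP.pow_dvd_of_dvd_mul_left _ h6 h5
          have h8 : ¬ (P ∣ a₁ - a₂ ∧ P ∣ a₁ + a₂) := by
            rintro ⟨h, h'⟩
            apply hn1
            have h9 := dvd_add h h'
            have e3 : a₁ = -((a₁ - a₂) + (a₁ + a₂)) := by linear_combination a₁ * h3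
            rw [e3, dvd_neg]
            exact h9
          have h9 : ∀ z : F[X], P ^ (3 * k - 1) ∣ z → (P ^ k) ^ 3 ∣ P * z := by
            intro z hz
            have e4 : (P ^ k) ^ 3 = P * P ^ (3 * k - 1) := by
              rw [← pow_mul, ← pow_succ']
              congr 1
              omega
            rw [e4]
            exact mul_dvd_mul_left P hz
          have h10 : P ^ k ∣ cpart u * cpart w := by
            rcases split hP h7 h8 with h | h
            · exact (hamax _ (by rw [hu']; exact h9 _ h)).mul_right _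
            · exact (hbmax _ (by rw [hw']; exact h9 _ h)).mul_left _
          rw [pow_succ']
          exact mul_dvd_mul hPe h10
        · -- only `v₁`
          exfalso
          have hPu : ¬ P ∣ u := fun h => hP2 (by
            have e1 : v₂ = v₁ - u := by rw [hu]; ring
            rw [e1]; exact dvd_sub hP1 h)
          have hPw : ¬ P ∣ w := fun h => hP2 (by
            have e1 : v₂ = w - v₁ := by rw [hw]; ring
            rw [e1]; exact dvd_sub h hP1)
          have h4 := hP.pow_dvd_of_dvd_mul_right _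
            (fun h => (hP.dvd_or_dvd h).elim hPu hPw) hPM
          have h5 := hP.pow_dvd_of_dvd_mul_right _ hP2 h4
          exact not_sq hP hv₁ ((pow_dvd_pow P h2).trans h5)
      · by_cases hP2 : P ∣ v₂
        · exfalso
          have hPu : ¬ P ∣ u := fun h => hP1 (by
            have e1 : v₁ = u + v₂ := by rw [hu]; ring
            rw [e1]; exact dvd_add h hP2)
          have hPw : ¬ P ∣ w := fun h => hP1 (by
            have e1 : v₁ = w - v₂ := by rw [hw]; ring
            rw [e1]; exact dvd_sub h hP2)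
          have h4 := hP.pow_dvd_of_dvd_mul_right _
            (fun h => (hP.dvd_or_dvd h).elim hPu hPw) hPM
          have h5 := hP.pow_dvd_of_dvd_mul_left _ hP1 h4
          exact not_sq hP hv₂ ((pow_dvd_pow P h2).trans h5)
        · -- none
          have h4 := hP.pow_dvd_of_dvd_mul_left _
            (fun h => (hP.dvd_or_dvd h).elim hP1 hP2) hPM
          have h5 : ¬ (P ∣ u ∧ P ∣ w) := by
            rintro ⟨h, h'⟩
            apply hP1
            rw [huw, dvd_neg]
            exact dvd_add h h'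
          refine Dvd.dvd.mul_left ?_ e
          rcases split hP h4 h5 with h | h
          · exact (hamax _ (by rw [← pow_mul, mul_comm k 3]; exact h)).mul_right _
          · exact (hbmax _ (by rw [← pow_mul, mul_comm k 3]; exact h)).mul_left _
    have h1 : e * (cpart u * cpart w) ≠ 0 :=
      mul_ne_zero he0 (mul_ne_zero ha.ne_zero hb.ne_zero)
    have h2 := natDegree_le_of_dvd key h1
    rw [natDegree_mul he0 (mul_ne_zero ha.ne_zero hb.ne_zero),
      natDegree_mul ha.ne_zero hb.ne_zero] at h2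
    omega

end DH
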