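import Pool.Agent.H463.DH.Stm2

/-!
# The second moment over squarefree solutions (statement M5)
-/

open Polynomial
open scoped Classical

noncomputable section

namespace DH

namespace XM5

variable {F : Type} [Field F] [Fintype F] [CharP F 3]

lemma qq_ge_one : (1 : ℝ) ≤ qq F := by
  unfold qq
  have h : 0 < Fintype.card F := Fintype.card_pos
  exact_mod_cast h

omit [CharP F 3] in
lemma qq_pos : (0 : ℝ) < qq F := by
  unfold qq
  have h : 0 < Fintype.card F := Fintype.card_pos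
  exact_mod_cast h

omit [CharP F 3] in
lemma Rz_nonneg (Z : ℕ) (e x : F[X]) : 0 ≤ Rz Z e x := by
  unfold Rz
  exact pow_nonneg (le_of_lt qq_pos) _

lemma three_eq_zero : (3 : F[X]) = 0 := by
  have h : ((3 : ℕ) : F[X]) = 0 := CharP.cast_eq_zero F[X] 3
  exact_mod_cast h

lemma two_ne_zero' : (2 : F[X]) ≠ 0 := by
  intro h
  have h3 := three_eq_zero (F := F)
  have h1 : (1 : F[X]) = 0 := by
    calc (1 : F[X]) = 3 - 2 := by ring
      _ = 0 := by rw [h3, h]; ring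
  exact one_ne_zero h1

omit [Fintype F] [CharP F 3] in
lemma Wr_mul (e x y : F[X]) : Wr (e * x) (e * y) = e ^ 2 * Wr x y := by
  unfold Wr
  rw [derivative_mul, derivative_mul]
  ring

omit [Fintype F] [CharP F 3] in
lemma Wr_sub_add (v₁ v₂ : F[X]) : Wr (v₁ - v₂) (v₁ + v₂) = 2 * Wr v₁ v₂ := by
  unfold Wr
  rw [derivative_sub, derivative_add]
  ring

omit [Fintype F] [CharP F 3] in
lemma Mo_eq (v₁ v₂ : F[X]) : Mo v₁ v₂ = - (v₁ * v₂ * (v₁ - v₂) * (v₁ + v₂)) := by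
  unfold Mo
  ring

omit [Fintype F] [CharP F 3] in
lemma Wr_natDegree_le (v₁ v₂ : F[X]) : (Wr v₁ v₂).natDegree ≤ v₁.natDegree + v₂.natDegree := by
  unfold Wr
  refine (natDegree_sub_le _ _).trans ?_
  refine max_le ?_ ?_
  · refine natDegree_mul_le.trans ?_
    have h := natDegree_derivative_le v₁
    omega
  · refine natDegree_mul_le.trans ?_
    have h := natDegree_derivative_le v₂
    omega

/-- the common part: existence of `(e, x, y)` for a pair having a common `f`. -/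
lemma key (hB0 : S_B0 F) (hG0 : S_G0 F) (hCP : S_CP F) (hM1 : S_M1 F) (hM2 : S_M2 F) (hM4 : S_M4 F)
    (g : ℕ) (hg : 1 ≤ g) (v₁ v₂ f₀ : F[X]) (hv₁ : v₁ ∈ VV F (g - 1)) (hv₂ : v₂ ∈ VV F (g - 1))
    (hne : v₂ ≠ v₁) (hne' : v₂ ≠ - v₁) (hf₀ : f₀ ∈ MON F (2 * g + 1)) (hs₁ : IsSol f₀ v₁) (hs₂ : IsSol f₀ v₂) :
    ∃ m ∈ Finset.range g, ∃ e ∈ (MON F m).filter (fun e => Squarefree e), ∃ x ∈ POLz F (g - m),
      ∃ y ∈ (POLz F (g - m)).filter (fun y => Cnd e x y),
        ((- (e * x + e * y), e * x - e * y) : F[X] × F[X]) = (v₁, v₂) ∧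
        (((MON F (2 * g + 1)).filter (fun f => IsSol f v₁ ∧ IsSol f v₂)).card : ℝ) ≤
          qq F ^ 3 * (qq F ^ m * (Rz (g - m) e x * Rz (g - m) e y)) := by
  obtain ⟨hB01, hB02, hB03, -, -, -⟩ := hB0
  unfold VV at hv₁ hv₂
  rw [Finset.mem_filter] at hv₁ hv₂
  obtain ⟨hv₁d, hv₁s⟩ := hv₁
  obtain ⟨hv₂d, hv₂s⟩ := hv₂
  rw [hB03] at hv₁d hv₂d
  obtain ⟨hv₁0, hv₁d⟩ := hv₁d
  obtain ⟨hv₂0, hv₂d⟩ := hv₂d
  rw [hB02] at hf₀
  obtain ⟨-, hfd⟩ := hf₀
  have hW : Wr v₁ v₂ ≠ 0 := by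
    intro h
    have h' : derivative v₁ * v₂ = v₁ * derivative v₂ := sub_eq_zero.mp h
    rcases hG0 f₀ v₁ v₂ hv₁0 hv₂0 hs₁ hs₂ h' with h1 | h1
    · exact hne h1.symm
    · apply hne'
      rw [h1, neg_neg]
  obtain ⟨hcMo, hdMo⟩ := hM1 g f₀ v₁ v₂ hfd hs₁ hs₂ hW
  obtain ⟨hcm, hcW, -⟩ := hCP.1 (Wr v₁ v₂) hW
  have hc0 : cpart (Wr v₁ v₂) ≠ 0 := hcm.ne_zero
  obtain ⟨e, x, y, hem, hes, hx, hy, heW, hP, hdeg⟩ := hM4 v₁ v₂ (cpart (Wr v₁ v₂)) hv₁s hv₂s (fun h => hne h.symm)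
    (fun h => hne' (by rw [h, neg_neg])) hc0 hcW hcMo
  have he0 : e ≠ 0 := hem.ne_zero
  have hu0 : e * x ≠ 0 := by
    rw [← hx]
    exact sub_ne_zero.mpr (fun h => hne h.symm)
  have hw0 : e * y ≠ 0 := by
    rw [← hy]
    intro h
    apply hne'
    exact eq_neg_of_add_eq_zero_right h
  have hx0 : x ≠ 0 := right_ne_zero_of_mul hu0
  have hy0 : y ≠ 0 := right_ne_zero_of_mul hw0
  have hdu : (e * x).natDegree = e.natDegree + x.natDegree := natDegree_mul he0 hx0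
  have hdw : (e * y).natDegree = e.natDegree + y.natDegree := natDegree_mul he0 hy0
  have hdu' : (e * x).natDegree ≤ g - 1 := by
    rw [← hx]
    refine (natDegree_sub_le _ _).trans ?_
    rw [hv₁d, hv₂d, max_self]
  have hdw' : (e * y).natDegree ≤ g - 1 := by
    rw [← hy]
    refine (natDegree_add_le _ _).trans ?_
    rw [hv₁d, hv₂d, max_self]
  have hWxy : Wr x y ≠ 0 := by
    intro h
    have h1 : Wr (v₁ - v₂) (v₁ + v₂) = 0 := by
      rw [hx, hy, Wr_mul, h, mul_zero]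
    rw [Wr_sub_add] at h1
    rcases mul_eq_zero.mp h1 with h2 | h2
    · exact two_ne_zero' h2
    · exact hW h2
  have hMod : (Mo v₁ v₂).natDegree = v₁.natDegree + v₂.natDegree + (e * x).natDegree + (e * y).natDegree := by
    rw [Mo_eq, natDegree_neg, hx, hy, natDegree_mul (mul_ne_zero (mul_ne_zero hv₁0 hv₂0) hu0) hw0,
      natDegree_mul (mul_ne_zero hv₁0 hv₂0) hu0, natDegree_mul hv₁0 hv₂0]
  have hWd : (Wr v₁ v₂).natDegree ≤ v₁.natDegree + v₂.natDegree := Wr_natDegree_le v₁ v₂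
  have hcd : 3 * (cpart (Wr v₁ v₂)).natDegree ≤ (Wr v₁ v₂).natDegree := by
    have h := natDegree_le_of_dvd hcW hW
    rwa [natDegree_pow] at h
  have hM2' := hM2 (2 * g + 1) v₁ v₂ (by omega) hW
  have h3 := three_eq_zero (F := F)
  refine ⟨e.natDegree, ?_, e, ?_, x, ?_, y, ?_, ?_, ?_⟩
  · rw [Finset.mem_range]; omega
  · rw [Finset.mem_filter, hB02]
    exact ⟨⟨hem, rfl⟩, hes⟩
  · unfold POLz
    rw [Finset.mem_filter, hB01]
    refine ⟨?_, hx0⟩
    rw [degree_eq_natDegree hx0]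
    have : x.natDegree < g - e.natDegree := by omega
    exact_mod_cast this
  · rw [Finset.mem_filter]
    unfold POLz
    rw [Finset.mem_filter, hB01]
    refine ⟨⟨?_, hy0⟩, hWxy, heW, hP⟩
    rw [degree_eq_natDegree hy0]
    have : y.natDegree < g - e.natDegree := by omega
    exact_mod_cast this
  · rw [← hx, ← hy]
    refine Prod.ext ?_ ?_
    · show -(v₁ - v₂ + (v₁ + v₂)) = v₁
      linear_combination (- v₁) * h3
    · show v₁ - v₂ - (v₁ + v₂) = v₂
      linear_combination (- v₂) * h3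
  · have hexp : (2 * g + 1 - 1 - ((Wr v₁ v₂).natDegree - 3 * (cpart (Wr v₁ v₂)).natDegree)) / 3 + 1 ≤
        3 + (e.natDegree + (((g - e.natDegree - 1 - x.natDegree) / 3 + (cpart (e * x)).natDegree) +
          ((g - e.natDegree - 1 - y.natDegree) / 3 + (cpart (e * y)).natDegree))) := by
      omega
    have h1 : (((MON F (2 * g + 1)).filter (fun f => IsSol f v₁ ∧ IsSol f v₂)).card : ℝ) ≤
        qq F ^ ((2 * g + 1 - 1 - ((Wr v₁ v₂).natDegree - 3 * (cpart (Wr v₁ v₂)).natDegree)) / 3 + 1) := by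
      unfold qq
      exact_mod_cast hM2'
    refine h1.trans ?_
    refine (pow_le_pow_right₀ qq_ge_one hexp).trans ?_
    unfold Rz
    rw [pow_add, pow_add, pow_add (qq F) (((g - e.natDegree - 1 - x.natDegree) / 3 + (cpart (e * x)).natDegree))]

/-- the sum of the terms -/
lemma single_le (g : ℕ) (p : F[X] × F[X]) (w : ℕ → F[X] → F[X] → F[X] → ℝ) (hw : ∀ m e x y, 0 ≤ w m e x y)
    (m : ℕ) (hm : m ∈ Finset.range g) (e : F[X]) (he : e ∈ (MON F m).filter (fun e => Squarefree e))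
    (x : F[X]) (hx : x ∈ POLz F (g - m)) (y : F[X]) (hy : y ∈ (POLz F (g - m)).filter (fun y => Cnd e x y))
    (hp : ((- (e * x + e * y), e * x - e * y) : F[X] × F[X]) = p) :
    w m e x y ≤ ∑ m ∈ Finset.range g, ∑ e ∈ (MON F m).filter (fun e => Squarefree e), ∑ x ∈ POLz F (g - m),
      ∑ y ∈ (POLz F (g - m)).filter (fun y => Cnd e x y),
        if ((- (e * x + e * y), e * x - e * y) : F[X] × F[X]) = p then w m e x y else 0 := by
  have hnn : ∀ m (e x y : F[X]), 0 ≤ (if ((- (e * x + e * y), e * x - e * y) : F[X] × F[X]) = p then w m e x y else 0) := by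
    intro m e x y
    split_ifs
    · exact hw m e x y
    · exact le_refl _
  have h4 : w m e x y ≤ ∑ y ∈ (POLz F (g - m)).filter (fun y => Cnd e x y),
        if ((- (e * x + e * y), e * x - e * y) : F[X] × F[X]) = p then w m e x y else 0 := by
    refine le_trans (le_of_eq ?_) (Finset.single_le_sum (f := fun y => if ((- (e * x + e * y), e * x - e * y) : F[X] × F[X]) = p then w m e x y else 0) (fun y _ => hnn m e x y) hy)
    simp only [hp, if_true]
  refine h4.trans ?_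
  have h3 := Finset.single_le_sum (f := fun x => ∑ y ∈ (POLz F (g - m)).filter (fun y => Cnd e x y),
        if ((- (e * x + e * y), e * x - e * y) : F[X] × F[X]) = p then w m e x y else 0)
        (fun x _ => Finset.sum_nonneg (fun y _ => hnn m e x y)) hx
  refine h3.trans ?_
  have h2 := Finset.single_le_sum (f := fun e => ∑ x ∈ POLz F (g - m), ∑ y ∈ (POLz F (g - m)).filter (fun y => Cnd e x y),
        if ((- (e * x + e * y), e * x - e * y) : F[X] × F[X]) = p then w m e x y else 0)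
        (fun e _ => Finset.sum_nonneg (fun x _ => Finset.sum_nonneg (fun y _ => hnn m e x y))) he
  refine h2.trans ?_
  exact Finset.single_le_sum (f := fun m => ∑ e ∈ (MON F m).filter (fun e => Squarefree e), ∑ x ∈ POLz F (g - m),
      ∑ y ∈ (POLz F (g - m)).filter (fun y => Cnd e x y),
        if ((- (e * x + e * y), e * x - e * y) : F[X] × F[X]) = p then w m e x y else 0)
        (fun m _ => Finset.sum_nonneg (fun e _ => Finset.sum_nonneg (fun x _ => Finset.sum_nonneg (fun y _ => hnn m e x y)))) hm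

/-- swapping the sums -/
lemma swap_le (g : ℕ) (E : Finset (F[X] × F[X])) (w : ℕ → F[X] → F[X] → F[X] → ℝ) (hw : ∀ m e x y, 0 ≤ w m e x y) :
    ∑ p ∈ E, ∑ m ∈ Finset.range g, ∑ e ∈ (MON F m).filter (fun e => Squarefree e), ∑ x ∈ POLz F (g - m),
      (∑ y ∈ (POLz F (g - m)).filter (fun y => Cnd e x y),
        if ((- (e * x + e * y), e * x - e * y) : F[X] × F[X]) = p then w m e x y else 0) ≤
    ∑ m ∈ Finset.range g, ∑ e ∈ (MON F m).filter (fun e => Squarefree e), ∑ x ∈ POLz F (g - m),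
      ∑ y ∈ (POLz F (g - m)).filter (fun y => Cnd e x y), w m e x y := by
  rw [Finset.sum_comm]
  refine Finset.sum_le_sum (fun m _ => ?_)
  rw [Finset.sum_comm]
  refine Finset.sum_le_sum (fun e _ => ?_)
  rw [Finset.sum_comm]
  refine Finset.sum_le_sum (fun x _ => ?_)
  rw [Finset.sum_comm]
  refine Finset.sum_le_sum (fun y _ => ?_)
  rw [Finset.sum_ite_eq]
  split_ifs
  · exact le_refl _
  · exact hw m e x y

/-- pairs up to sign: at most `2 #sol f` -/
lemma diag_le (hB1 : S_B1 F) (g : ℕ) (f : F[X]) :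
    (((VV F (g - 1)) ×ˢ (VV F (g - 1))).filter (fun p => (p.2 = p.1 ∨ p.2 = - p.1) ∧ (IsSol f p.1 ∧ IsSol f p.2))).card
      ≤ 2 * (sol f).card := by
  obtain ⟨-, -, -, -, -, hsol, -⟩ := hB1
  have hsub : (((VV F (g - 1)) ×ˢ (VV F (g - 1))).filter (fun p => (p.2 = p.1 ∨ p.2 = - p.1) ∧ (IsSol f p.1 ∧ IsSol f p.2)))
      ⊆ (sol f).image (fun v => (v, v)) ∪ (sol f).image (fun v => (v, - v)) := by
    intro p hp
    rw [Finset.mem_filter] at hp
    obtain ⟨-, hp1, hp2, -⟩ := hp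
    rw [Finset.mem_union, Finset.mem_image, Finset.mem_image]
    rcases hp1 with h | h
    · left
      exact ⟨p.1, (hsol f p.1).mpr hp2, Prod.ext rfl h.symm⟩
    · right
      exact ⟨p.1, (hsol f p.1).mpr hp2, Prod.ext rfl h.symm⟩
  refine (Finset.card_le_card hsub).trans ?_
  refine (Finset.card_union_le _ _).trans ?_
  have h1 := Finset.card_image_le (s := sol f) (f := fun v => ((v, v) : F[X] × F[X]))
  have h2 := Finset.card_image_le (s := sol f) (f := fun v => ((v, - v) : F[X] × F[X]))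
  omega

omit [CharP F 3] in
/-- `XX²` as a number of pairs -/
lemma XX_sq (g : ℕ) (f : F[X]) :
    (XX F g f) ^ 2 =
      (((VV F (g - 1)) ×ˢ (VV F (g - 1))).filter (fun p => (p.2 = p.1 ∨ p.2 = - p.1) ∧ (IsSol f p.1 ∧ IsSol f p.2))).card
      + (((VV F (g - 1)) ×ˢ (VV F (g - 1))).filter (fun p => ¬ (p.2 = p.1 ∨ p.2 = - p.1) ∧ (IsSol f p.1 ∧ IsSol f p.2))).card := by
  have h1 : (XX F g f) ^ 2 = (((VV F (g - 1)) ×ˢ (VV F (g - 1))).filter (fun p => IsSol f p.1 ∧ IsSol f p.2)).card := by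
    rw [Finset.filter_product, Finset.card_product, sq]
    rfl
  rw [h1, ← Finset.card_filter_add_card_filter_not (s := ((VV F (g - 1)) ×ˢ (VV F (g - 1))).filter (fun p => IsSol f p.1 ∧ IsSol f p.2))
    (fun p => (p.2 = p.1 ∨ p.2 = - p.1)), Finset.filter_filter, Finset.filter_filter]
  refine congrArg₂ (· + ·) ?_ ?_
  · refine congrArg Finset.card (Finset.filter_congr ?_)
    intro p _
    exact and_comm
  · refine congrArg Finset.card (Finset.filter_congr ?_)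
    intro p _
    exact and_comm

end XM5

open XM5 in
theorem p_M5 (F : Type) [Field F] [Fintype F] [CharP F 3] (hB0 : S_B0 F) (hB1 : S_B1 F) (hG0 : S_G0 F) (hF4 : S_F4 F)
    (hCP : S_CP F) (hM1 : S_M1 F) (hM2 : S_M2 F) (hM4 : S_M4 F) : S_M5 F := by
  intro g hg
  -- the sum over the pairs which are not equal up to sign
  have hoff : ∑ f ∈ MON F (2 * g + 1), ((((VV F (g - 1)) ×ˢ (VV F (g - 1))).filter
      (fun p => ¬ (p.2 = p.1 ∨ p.2 = - p.1) ∧ (IsSol f p.1 ∧ IsSol f p.2))).card : ℝ) ≤ qq F ^ 3 * TT F g := by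
    set E : Finset (F[X] × F[X]) := ((VV F (g - 1)) ×ˢ (VV F (g - 1))).filter
      (fun p => ¬ (p.2 = p.1 ∨ p.2 = - p.1)) with hE
    have h1 : ∑ f ∈ MON F (2 * g + 1), ((((VV F (g - 1)) ×ˢ (VV F (g - 1))).filter
        (fun p => ¬ (p.2 = p.1 ∨ p.2 = - p.1) ∧ (IsSol f p.1 ∧ IsSol f p.2))).card : ℝ) =
        ∑ p ∈ E, (((MON F (2 * g + 1)).filter (fun f => IsSol f p.1 ∧ IsSol f p.2)).card : ℝ) := by
      have h2 : ∀ f ∈ MON F (2 * g + 1), ((((VV F (g - 1)) ×ˢ (VV F (g - 1))).filter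
        (fun p => ¬ (p.2 = p.1 ∨ p.2 = - p.1) ∧ (IsSol f p.1 ∧ IsSol f p.2))).card : ℝ) =
        ∑ p ∈ E, if (IsSol f p.1 ∧ IsSol f p.2) then (1 : ℝ) else 0 := by
        intro f _
        rw [Finset.sum_boole, hE, Finset.filter_filter]
      rw [Finset.sum_congr rfl h2, Finset.sum_comm]
      refine Finset.sum_congr rfl (fun p _ => ?_)
      rw [Finset.sum_boole]
    rw [h1]
    set w : ℕ → F[X] → F[X] → F[X] → ℝ := fun m e x y => qq F ^ 3 * (qq F ^ m * (Rz (g - m) e x * Rz (g - m) e y)) with hw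
    have hwnn : ∀ m e x y, 0 ≤ w m e x y := by
      intro m e x y
      exact mul_nonneg (pow_nonneg (le_of_lt qq_pos) _) (mul_nonneg (pow_nonneg (le_of_lt qq_pos) _)
        (mul_nonneg (Rz_nonneg _ _ _) (Rz_nonneg _ _ _)))
    have hTT : qq F ^ 3 * TT F g = ∑ m ∈ Finset.range g, ∑ e ∈ (MON F m).filter (fun e => Squarefree e), ∑ x ∈ POLz F (g - m),
      ∑ y ∈ (POLz F (g - m)).filter (fun y => Cnd e x y), w m e x y := by
      unfold TT TT1
      simp only [Finset.mul_sum, hw]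
    rw [hTT]
    refine le_trans ?_ (swap_le g E w hwnn)
    refine Finset.sum_le_sum (fun p hp => ?_)
    rw [hE, Finset.mem_filter, Finset.mem_product] at hp
    obtain ⟨⟨hp1, hp2⟩, hp3⟩ := hp
    rw [not_or] at hp3
    by_cases hex : ∃ f₀ ∈ MON F (2 * g + 1), IsSol f₀ p.1 ∧ IsSol f₀ p.2
    · obtain ⟨f₀, hf₀, hs₁, hs₂⟩ := hex
      obtain ⟨m, hm, e, he, x, hx, y, hy, hpe, hle⟩ := key hB0 hG0 hCP hM1 hM2 hM4 g hg p.1 p.2 f₀ hp1 hp2 hp3.1 hp3.2 hf₀ hs₁ hs₂
      refine hle.trans ?_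
      exact single_le g p w hwnn m hm e he x hx y hy hpe
    · have h0 : (MON F (2 * g + 1)).filter (fun f => IsSol f p.1 ∧ IsSol f p.2) = ∅ := by
        rw [Finset.filter_eq_empty_iff]
        intro f hf hs
        exact hex ⟨f, hf, hs⟩
      rw [h0, Finset.card_empty, Nat.cast_zero]
      refine Finset.sum_nonneg (fun m _ => Finset.sum_nonneg (fun e _ => Finset.sum_nonneg (fun x _ => Finset.sum_nonneg (fun y _ => ?_))))
      split_ifs
      · exact hwnn m e x y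
      · exact le_refl _
  -- the diagonal part
  have hdiag : ∑ f ∈ MON F (2 * g + 1), ((((VV F (g - 1)) ×ˢ (VV F (g - 1))).filter
      (fun p => (p.2 = p.1 ∨ p.2 = - p.1) ∧ (IsSol f p.1 ∧ IsSol f p.2))).card : ℝ) ≤ 6 * qq F ^ (2 * g + 1) := by
    have h1 : ∑ f ∈ MON F (2 * g + 1), (((VV F (g - 1)) ×ˢ (VV F (g - 1))).filter
      (fun p => (p.2 = p.1 ∨ p.2 = - p.1) ∧ (IsSol f p.1 ∧ IsSol f p.2))).card ≤ 6 * Fintype.card F ^ (2 * g + 1) := by
      refine (Finset.sum_le_sum (fun f _ => diag_le hB1 g f)).trans ?_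
      rw [← Finset.mul_sum]
      have h2 := hF4 g
      calc 2 * ∑ f ∈ MON F (2 * g + 1), (sol f).card ≤ 2 * (3 * Fintype.card F ^ (2 * g + 1)) := Nat.mul_le_mul_left 2 h2
        _ = 6 * Fintype.card F ^ (2 * g + 1) := by ring
    unfold qq
    exact_mod_cast h1
  have hsum : ∑ f ∈ MON F (2 * g + 1), (XX F g f : ℝ) ^ 2 =
      ∑ f ∈ MON F (2 * g + 1), ((((VV F (g - 1)) ×ˢ (VV F (g - 1))).filter
        (fun p => (p.2 = p.1 ∨ p.2 = - p.1) ∧ (IsSol f p.1 ∧ IsSol f p.2))).card : ℝ) +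
      ∑ f ∈ MON F (2 * g + 1), ((((VV F (g - 1)) ×ˢ (VV F (g - 1))).filter
        (fun p => ¬ (p.2 = p.1 ∨ p.2 = - p.1) ∧ (IsSol f p.1 ∧ IsSol f p.2))).card : ℝ) := by
    rw [← Finset.sum_add_distrib]
    refine Finset.sum_congr rfl (fun f _ => ?_)
    have h := XX_sq (F := F) g f
    have h' := congrArg (fun k : ℕ => (k : ℝ)) h
    simp only [Nat.cast_pow, Nat.cast_add] at h'
    exact h'
  rw [hsum]
  exact add_le_add hdiag hoff

end DH
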