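import Pool.Agent.H463.DH.Stm2

/-!
# N1: the sum over the monic irreducible polynomials
-/

set_option autoImplicit false

open Polynomial
open scoped Classical

noncomputable section

namespace DH

namespace XN1

variable (F : Type) [Field F] [Fintype F] [CharP F 3]

theorem three_le : 3 ≤ Fintype.card F := by
  have h : ((Fintype.card F : ℕ) : F) = 0 := by
    rw [← Nat.cast_card_eq_zero (R := F)]
  have h2 : 3 ∣ Fintype.card F := (CharP.cast_eq_zero_iff F 3 _).1 h
  exact Nat.le_of_dvd Fintype.card_pos h2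

/-- the product of two linear factors -/
def gg (F : Type) [Field F] : Sym2 F → F[X] :=
  Sym2.lift ⟨fun a b => (X - C a) * (X - C b), fun _ _ => mul_comm _ _⟩

omit [Fintype F] [CharP F 3] in
theorem gg_inj : Function.Injective (gg F) := by
  intro s t
  induction s using Sym2.ind with
  | _ a b =>
  induction t using Sym2.ind with
  | _ c d =>
  intro h
  have h1 : (X - C a) * (X - C b) = (X - C c) * (X - C d) := h
  have h2 := congrArg (eval a) h1
  simp only [eval_mul, eval_sub, eval_X, eval_C, sub_self, zero_mul] at h2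
  rw [Sym2.eq_iff]
  rcases mul_eq_zero.1 h2.symm with h3 | h3
  · left
    have hac : a = c := sub_eq_zero.1 h3
    subst hac
    have h4 := mul_left_cancel₀ (X_sub_C_ne_zero a) h1
    refine ⟨rfl, ?_⟩
    have h5 := congrArg (eval b) h4
    simp only [eval_sub, eval_X, eval_C, sub_self] at h5
    exact sub_eq_zero.1 h5.symm
  · right
    have had : a = d := sub_eq_zero.1 h3
    subst had
    rw [mul_comm (X - C c)] at h1
    have h4 := mul_left_cancel₀ (X_sub_C_ne_zero a) h1
    refine ⟨rfl, ?_⟩
    have h5 := congrArg (eval b) h4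
    simp only [eval_sub, eval_X, eval_C, sub_self] at h5
    exact sub_eq_zero.1 h5.symm

variable {F}

omit [CharP F 3] in
theorem irr2 (hB0 : S_B0 F) :
    2 * ((MON F 2).filter (fun P => Irreducible P)).card + Fintype.card F ≤
      Fintype.card F ^ 2 := by
  have h1 : (Finset.univ : Finset (Sym2 F)).image (gg F) ⊆
      (MON F 2).filter (fun P => ¬ Irreducible P) := by
    intro f hf
    obtain ⟨s, -, rfl⟩ := Finset.mem_image.1 hf
    induction s using Sym2.ind with
    | _ a b =>
    have e : gg F s(a, b) = (X - C a) * (X - C b) := rfl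
    rw [e, Finset.mem_filter]
    constructor
    · rw [hB0.2.1]
      refine ⟨(monic_X_sub_C a).mul (monic_X_sub_C b), ?_⟩
      rw [(monic_X_sub_C a).natDegree_mul (monic_X_sub_C b), natDegree_X_sub_C,
        natDegree_X_sub_C]
    · intro h
      rcases h.isUnit_or_isUnit rfl with h | h
      · exact not_isUnit_X_sub_C a h
      · exact not_isUnit_X_sub_C b h
  have h2 := Finset.card_le_card h1
  rw [Finset.card_image_of_injective _ (gg_inj F), Finset.card_univ, Sym2.card] at h2
  have h3 := Finset.card_filter_add_card_filter_not (s := MON F 2) (fun P => Irreducible P)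
  rw [hB0.2.2.2.2.1 2] at h3
  have h4 : (Fintype.card F + 1).choose 2 * 2 = (Fintype.card F + 1) * Fintype.card F := by
    rw [Nat.choose_two_right, Nat.add_sub_cancel]
    apply Nat.div_mul_cancel
    rw [mul_comm]
    exact (Nat.even_mul_succ_self _).two_dvd
  have h5 : Fintype.card F ^ 2 = Fintype.card F * Fintype.card F := sq _
  have h6 : (Fintype.card F + 1) * Fintype.card F =
    Fintype.card F * Fintype.card F + Fintype.card F := by ring
  omega

end XN1

open XN1 in
theorem p_N1 (F : Type) [Field F] [Fintype F] [CharP F 3] (hB0 : S_B0 F) : S_N1 F := by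
  obtain ⟨q, hq⟩ : ∃ q : ℝ, q = qq F := ⟨_, rfl⟩
  have hq3 : (3 : ℝ) ≤ q := by
    rw [hq]
    unfold qq
    exact_mod_cast three_le F
  have hq0 : 0 < q := by linarith
  obtain ⟨a, ha⟩ : ∃ a : ℕ → ℝ, a = fun p =>
      ∑ _P ∈ (MON F p).filter (fun P => Irreducible P), 1 / qq F ^ (2 * p) := ⟨_, rfl⟩
  have ha' : ∀ p, a p = (((MON F p).filter (fun P => Irreducible P)).card : ℝ) / q ^ (2 * p) := by
    intro p
    rw [ha]
    simp only [Finset.sum_const, nsmul_eq_mul, hq]
    ring
  have ha0 : ∀ p, 0 ≤ a p := by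
    intro p
    rw [ha']
    positivity
  have hle : ∀ p, a p ≤ 1 / q ^ p := by
    intro p
    rw [ha']
    have h1 : (((MON F p).filter (fun P => Irreducible P)).card : ℝ) ≤ q ^ p := by
      have h2 := Finset.card_filter_le (MON F p) (fun P => Irreducible P)
      rw [hB0.2.2.2.2.1 p] at h2
      rw [hq]
      unfold qq
      exact_mod_cast h2
    rw [div_le_div_iff₀ (by positivity) (by positivity), one_mul]
    have e : q ^ (2 * p) = q ^ p * q ^ p := by rw [two_mul, pow_add]
    rw [e]
    exact mul_le_mul_of_nonneg_right h1 (by positivity)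
  have ha2 : a 2 ≤ (q - 1) / (2 * q ^ 3) := by
    rw [ha']
    have h1 : 2 * (((MON F 2).filter (fun P => Irreducible P)).card : ℝ) + q ≤ q ^ 2 := by
      have h2 := irr2 (F := F) hB0
      rw [hq]
      unfold qq
      exact_mod_cast h2
    rw [div_le_div_iff₀ (by positivity) (by positivity)]
    have h3 : 0 ≤ q ^ 3 := by positivity
    have h7 := mul_le_mul_of_nonneg_right h1 h3
    have e7 : (q - 1) * q ^ (2 * 2) = q ^ 2 * q ^ 3 - q * q ^ 3 := by ring
    rw [e7]
    linarith
  have ha1 : a 1 ≤ 1 / q := by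
    have := hle 1
    rwa [pow_one] at this
  have hq1 : 0 < q - 1 := by linarith
  -- induction
  have hind : ∀ m : ℕ, ∑ p ∈ Finset.Icc 1 (m + 2), a p ≤
      1 / q + (q - 1) / (2 * q ^ 3) + 1 / (q ^ 2 * (q - 1)) - 1 / (q ^ (m + 2) * (q - 1)) := by
    intro m
    induction m with
    | zero =>
      have e : Finset.Icc 1 (0 + 2) = {1, 2} := by decide
      rw [e, Finset.sum_pair (by norm_num)]
      have e2 : (q : ℝ) ^ (0 + 2) = q ^ 2 := by norm_num
      rw [e2]
      linarith
    | succ m ih =>
      have e : m + 1 + 2 = (m + 2) + 1 := by ring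
      rw [e, Finset.sum_Icc_succ_top (by omega)]
      have h1 := hle (m + 2 + 1)
      have h2 : 1 / q ^ (m + 2 + 1) = 1 / (q ^ (m + 2) * (q - 1)) -
          1 / (q ^ (m + 2 + 1) * (q - 1)) := by
        have h3 : q ^ (m + 2 + 1) = q ^ (m + 2) * q := pow_succ _ _
        rw [h3]
        field_simp
      linarith
  have hnum : 1 / q + (q - 1) / (2 * q ^ 3) + 1 / (q ^ 2 * (q - 1)) ≤ 23 / 54 := by
    have h1 : 1 / q ≤ 1 / 3 := one_div_le_one_div_of_le (by norm_num) hq3
    have h2 : (q - 1) / (2 * q ^ 3) ≤ 1 / 27 := by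
      rw [div_le_div_iff₀ (by positivity) (by norm_num)]
      nlinarith [mul_nonneg (sub_nonneg.2 hq3) (sq_nonneg q), sq_nonneg (q - 3)]
    have h3 : 1 / (q ^ 2 * (q - 1)) ≤ 1 / 18 := by
      apply one_div_le_one_div_of_le (by norm_num)
      nlinarith [mul_nonneg (sub_nonneg.2 hq3) (sq_nonneg q)]
    linarith
  intro m
  have hfin : ∑ p ∈ Finset.Icc 1 m, a p ≤ ∑ p ∈ Finset.Icc 1 (m + 2), a p :=
    Finset.sum_le_sum_of_subset_of_nonneg (Finset.Icc_subset_Icc_right (by omega))
      fun p _ _ => ha0 p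
  have h4 : 0 ≤ 1 / (q ^ (m + 2) * (q - 1)) := by positivity
  have h5 := hind m
  rw [ha] at hfin h5
  linarith

end DH
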