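import Pool.Agent.H463.DH.Stm2

/-! # Task DH N2 (helper662): squarefree polynomials of given degree -/

open Polynomial
open scoped Classical

noncomputable section

namespace DH

namespace XN2

variable (F : Type) [Field F] [Fintype F] [CharP F 3]

theorem card_mult (hB0 : S_B0 F) {n w : ℕ} (h : 2 * w ≤ n) {W : F[X]} (hW : W ∈ MON F w) :
    ((MON F n).filter (fun f => W ^ 2 ∣ f)).card = Fintype.card F ^ (n - 2 * w) := by
  obtain ⟨_, hmon, _, _, hcard, _⟩ := hB0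
  rw [← hcard (n - 2 * w)]
  have hW' := (hmon w W).1 hW
  have hW2 : (W ^ 2).Monic := hW'.1.pow 2
  have hd2 : (W ^ 2).natDegree = 2 * w := by rw [hW'.1.natDegree_pow, hW'.2]
  symm
  refine Finset.card_bij (fun h _ => W ^ 2 * h) ?_ ?_ ?_
  · intro g hg
    have hg' := (hmon _ g).1 hg
    rw [Finset.mem_filter, hmon]
    refine ⟨⟨hW2.mul hg'.1, ?_⟩, dvd_mul_right _ _⟩
    rw [hW2.natDegree_mul hg'.1, hd2, hg'.2]
    omega
  · intro a _ b _ hab
    exact mul_left_cancel₀ hW2.ne_zero hab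
  · intro f hf
    rw [Finset.mem_filter, hmon] at hf
    obtain ⟨⟨hf1, hf2⟩, g, rfl⟩ := hf
    have hg : g.Monic := hW2.of_mul_monic_left hf1
    refine ⟨g, (hmon _ g).2 ⟨hg, ?_⟩, rfl⟩
    rw [hW2.natDegree_mul hg, hd2] at hf2
    omega

theorem sqf_card (hB0 : S_B0 F) (hMU : S_MU F) (hF5 : S_F5 F) (d : ℕ) (hd : 2 ≤ d) :
    ((SQF F d).card : ℝ) = qq F ^ d - qq F ^ (d - 1) := by
  have h1 := hF5.1 d (d / 2) (fun _ => 1) (by omega)
  rw [Finset.sum_const, nsmul_eq_mul, mul_one] at h1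
  rw [h1]
  have h2 : ∀ w ∈ Finset.range (d / 2 + 1), ∑ W ∈ MON F w,
      mu W * ∑ f ∈ (MON F d).filter (fun f => W ^ 2 ∣ f), (1 : ℝ) =
      (if w = 0 then 1 else if w = 1 then - qq F else 0) * qq F ^ (d - 2 * w) := by
    intro w hw
    rw [Finset.mem_range] at hw
    have h3 : ∀ W ∈ MON F w, mu W * ∑ f ∈ (MON F d).filter (fun f => W ^ 2 ∣ f), (1 : ℝ) =
        mu W * qq F ^ (d - 2 * w) := by
      intro W hW
      rw [Finset.sum_const, nsmul_eq_mul, mul_one, card_mult F hB0 (by omega) hW, Nat.cast_pow]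
      rfl
    rw [Finset.sum_congr rfl h3, ← Finset.sum_mul, hMU.2.2.2.2.2 w]
  rw [Finset.sum_congr rfl h2]
  obtain ⟨k, hk⟩ : ∃ k, d / 2 = k + 1 := ⟨d / 2 - 1, by omega⟩
  obtain ⟨e, rfl⟩ : ∃ e, d = e + 2 := ⟨d - 2, by omega⟩
  rw [hk, Finset.sum_range_succ', Finset.sum_range_succ']
  have h4 : ∑ x ∈ Finset.range k, (if x + 1 + 1 = 0 then (1 : ℝ) else if x + 1 + 1 = 1 then - qq F
      else 0) * qq F ^ (e + 2 - 2 * (x + 1 + 1)) = 0 := by
    refine Finset.sum_eq_zero fun x _ => ?_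
    rw [if_neg (by omega), if_neg (by omega), zero_mul]
  rw [h4]
  have h5 : e + 2 - 2 * (0 + 1) = e := by omega
  have h6 : e + 2 - 2 * 0 = e + 2 := by omega
  have h7 : e + 2 - 1 = e + 1 := by omega
  rw [h5, h6, h7]
  simp only [zero_add, one_ne_zero, if_false, if_true, one_mul]
  ring

theorem sqf_C_mul {F : Type} [Field F] {c : F} (hc : c ≠ 0) (f : F[X]) :
    Squarefree (C c * f) ↔ Squarefree f := by
  have hu : IsUnit (C c : F[X]) := isUnit_C.2 (isUnit_iff_ne_zero.2 hc)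
  exact (associated_unit_mul_left f (C c) hu).squarefree_iff

theorem vv_card (hB0 : S_B0 F) (hMU : S_MU F) (hF5 : S_F5 F) (d : ℕ) (hd : 2 ≤ d) :
    ((VV F d).card : ℝ) = (qq F - 1) * (qq F ^ d - qq F ^ (d - 1)) := by
  rw [← sqf_card F hB0 hMU hF5 d hd]
  obtain ⟨_, hmon, hdeg, _⟩ := hB0
  have h1 : (VV F d).card = ((Finset.univ.filter (fun c : F => c ≠ 0)) ×ˢ (SQF F d)).card := by
    symm
    refine Finset.card_bij (fun x _ => C x.1 * x.2) ?_ ?_ ?_
    · rintro ⟨c, f⟩ hx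
      simp only [Finset.mem_product, Finset.mem_filter, Finset.mem_univ, true_and, SQF, hmon] at hx
      obtain ⟨hc, ⟨hf1, hf2⟩, hf3⟩ := hx
      rw [VV, Finset.mem_filter, hdeg]
      refine ⟨⟨mul_ne_zero (C_ne_zero.2 hc) hf1.ne_zero, ?_⟩, (sqf_C_mul hc f).2 hf3⟩
      rw [natDegree_C_mul hc, hf2]
    · rintro ⟨c, f⟩ hx ⟨c', f'⟩ hx' h
      simp only [Finset.mem_product, Finset.mem_filter, Finset.mem_univ, true_and, SQF, hmon] at hx hx'
      simp only at h
      have hl := congrArg leadingCoeff h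
      rw [leadingCoeff_mul, leadingCoeff_mul, leadingCoeff_C, leadingCoeff_C,
        hx.2.1.1.leadingCoeff, hx'.2.1.1.leadingCoeff, mul_one, mul_one] at hl
      subst hl
      rw [mul_left_cancel₀ (C_ne_zero.2 hx.1) h]
    · intro v hv
      rw [VV, Finset.mem_filter, hdeg] at hv
      obtain ⟨⟨hv0, hvd⟩, hv2⟩ := hv
      have hl : v.leadingCoeff ≠ 0 := leadingCoeff_ne_zero.2 hv0
      have e : C v.leadingCoeff * (C v.leadingCoeff⁻¹ * v) = v := by
        rw [← mul_assoc, ← C_mul, mul_inv_cancel₀ hl, C_1, one_mul]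
      refine ⟨⟨v.leadingCoeff, C v.leadingCoeff⁻¹ * v⟩, ?_, e⟩
      simp only [Finset.mem_product, Finset.mem_filter, Finset.mem_univ, true_and, SQF, hmon]
      refine ⟨hl, ⟨?_, ?_⟩, (sqf_C_mul (inv_ne_zero hl) v).2 hv2⟩
      · rw [Monic, leadingCoeff_mul, leadingCoeff_C, inv_mul_cancel₀ hl]
      · rw [natDegree_C_mul (inv_ne_zero hl), hvd]
  rw [h1, Finset.card_product, Nat.cast_mul]
  congr 1
  have h2 : (Finset.univ.filter (fun c : F => c ≠ 0)).card = Fintype.card F - 1 := by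
    rw [Finset.filter_ne' , Finset.card_erase_of_mem (Finset.mem_univ _), Finset.card_univ]
  rw [h2, Nat.cast_sub Fintype.card_pos, Nat.cast_one]
  rfl

end XN2

open XN2

theorem p_N2 (F : Type) [Field F] [Fintype F] [CharP F 3] (hB0 : S_B0 F) (hMU : S_MU F)
    (hF5 : S_F5 F) : S_N2 F := by
  refine ⟨vv_card F hB0 hMU hF5, fun d p P hP hPi hp hpd => ?_⟩
  rw [← vv_card F hB0 hMU hF5 (d - p) (by omega), Nat.cast_le]
  have hdeg := hB0.2.2.1
  refine Finset.card_le_card_of_injOn (fun v => v /ₘ P) ?_ ?_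
  · intro v hv
    rw [Finset.mem_coe, Finset.mem_filter, VV, Finset.mem_filter, hdeg] at hv
    obtain ⟨⟨⟨hv0, hvd⟩, hv2⟩, w, rfl⟩ := hv
    simp only
    rw [mul_divByMonic_cancel_left w hP, Finset.mem_coe, VV, Finset.mem_filter, hdeg]
    have hw : w ≠ 0 := right_ne_zero_of_mul hv0
    refine ⟨⟨hw, ?_⟩, hv2.of_mul_right⟩
    rw [natDegree_mul hP.ne_zero hw, hp] at hvd
    omega
  · intro v hv v' hv' h
    rw [Finset.mem_coe, Finset.mem_filter] at hv hv'
    obtain ⟨_, w, rfl⟩ := hv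
    obtain ⟨_, w', rfl⟩ := hv'
    simp only at h
    rw [mul_divByMonic_cancel_left w hP, mul_divByMonic_cancel_left w' hP] at h
    rw [h]

end DH
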