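import Pool.Agent.H463.DH.Stm2

/-!
# PP1: lower bound for the first moment over squarefree `v` (helper280 for helper463)
-/

open Polynomial
open scoped Classical

noncomputable section

namespace DH

namespace XPP1

variable {F : Type} [Field F] [Fintype F] [CharP F 3]

omit [CharP F 3] in
theorem q_pos : 0 < qq F := by
  unfold qq
  exact_mod_cast Fintype.card_pos

omit [CharP F 3] in
theorem q_one : 1 < qq F := by
  unfold qq
  exact_mod_cast Fintype.one_lt_card

omit [Fintype F] [CharP F 3] in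
/-- the degree of the cube part of `P² v` -/
theorem cpart_deg (hCP : S_CP F) {P v : F[X]} (hP : P.Monic) (hPi : Irreducible P)
    (hv : Squarefree v) (hv0 : v ≠ 0) : (cpart (P ^ 2 * v)).natDegree = 0 ∨
      (P ∣ v ∧ (cpart (P ^ 2 * v)).natDegree = P.natDegree) := by
  have h1 := hCP.1 (P ^ 2 * v) (mul_ne_zero (pow_ne_zero 2 hP.ne_zero) hv0)
  obtain ⟨hc, hd, -⟩ := h1
  set c := cpart (P ^ 2 * v) with hcdef
  by_cases hPc : P ∣ c
  · obtain ⟨c₁, hc₁⟩ := hPc
    right
    have h2 : P * c₁ ^ 3 ∣ v := by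
      have h3 : P ^ 2 * (P * c₁ ^ 3) ∣ P ^ 2 * v := by
        have : P ^ 2 * (P * c₁ ^ 3) = c ^ 3 := by rw [hc₁]; ring
        rw [this]
        exact hd
      exact (mul_dvd_mul_iff_left (pow_ne_zero 2 hP.ne_zero)).mp h3
    have h4 : IsUnit c₁ := by
      apply hv c₁
      refine dvd_trans ?_ h2
      exact ⟨P * c₁, by ring⟩
    have hc10 : c₁ ≠ 0 := h4.ne_zero
    refine ⟨dvd_trans (dvd_mul_right P _) h2, ?_⟩
    rw [hc₁, natDegree_mul hP.ne_zero hc10, natDegree_eq_zero_of_isUnit h4, add_zero]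
  · left
    have h2 : IsCoprime P c := (hPi.coprime_iff_not_dvd).mpr hPc
    have h3 : IsCoprime (c ^ 3) (P ^ 2) := (h2.symm.pow_left).pow_right
    have h4 : c ^ 3 ∣ v := h3.dvd_of_dvd_mul_left hd
    have h5 : IsUnit c := by
      apply hv c
      refine dvd_trans ?_ h4
      exact ⟨c, by ring⟩
    exact natDegree_eq_zero_of_isUnit h5

omit [CharP F 3] in
theorem cnt_val (hB5 : S_B5 F) (g : ℕ) (hg : 1 ≤ g) {P v : F[X]} (hP : P.Monic)
    (hPs : Squarefree P) (hv : v ≠ 0) (hvd : v.natDegree = g - 1) (h4 : 4 * P.natDegree ≤ g + 1) :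
    (cnt (2 * g + 1) P v : ℝ) =
      qq F ^ (g + 1) * (1 / qq F ^ (2 * P.natDegree)) * qq F ^ (cpart (P ^ 2 * v)).natDegree := by
  have h := hB5 (2 * g + 1) (g - 1) P v hP hPs hv hvd (by omega) (by omega)
  rw [h, if_neg (by omega)]
  have e1 : NN (2 * g + 1 + (g - 1)) = (g + 1) + (g - 1) := by
    unfold NN
    omega
  have hq : 0 < qq F := q_pos
  have hq1 : qq F ^ (g - 1) ≠ 0 := (pow_pos hq _).ne'
  have hq2 : qq F ^ (2 * P.natDegree) ≠ 0 := (pow_pos hq _).ne'
  rw [e1, pow_add, pow_add]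
  field_simp
  rw [← pow_add, add_comm]

omit [Fintype F] [CharP F 3] in
/-- the sum over `v` of the numbers of `f` is the sum over `f` of the numbers of `v` -/
theorem swap (S : Finset F[X]) (V : Finset F[X]) :
    ∑ f ∈ S, ((V.filter (fun v => IsSol f v)).card : ℝ) =
      ∑ v ∈ V, ((S.filter (fun f => IsSol f v)).card : ℝ) := by
  simp_rw [Finset.card_filter]
  push_cast
  rw [Finset.sum_comm]

omit [CharP F 3] in
theorem union_bound (hB0 : S_B0 F) (g : ℕ) (v : F[X]) :
    cnt (2 * g + 1) 1 v ≤ ((SQF F (2 * g + 1)).filter (fun f => IsSol f v)).card +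
      ∑ p ∈ Finset.Icc 1 g, ∑ P ∈ (MON F p).filter (fun P => Irreducible P), cnt (2 * g + 1) P v := by
  unfold cnt
  have hsub : (MON F (2 * g + 1)).filter (fun f => (1 : F[X]) ^ 2 ∣ f ∧ IsSol f v) ⊆
      (SQF F (2 * g + 1)).filter (fun f => IsSol f v) ∪
      (Finset.Icc 1 g).biUnion (fun p => ((MON F p).filter (fun P => Irreducible P)).biUnion
        (fun P => (MON F (2 * g + 1)).filter (fun f => P ^ 2 ∣ f ∧ IsSol f v))) := by
    intro f hf
    rw [Finset.mem_filter] at hf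
    obtain ⟨hfM, -, hfs⟩ := hf
    rw [Finset.mem_union]
    have hfM' := (hB0.2.1 _ _).mp hfM
    by_cases hs : Squarefree f
    · left
      unfold SQF
      rw [Finset.mem_filter, Finset.mem_filter]
      exact ⟨⟨hfM, hs⟩, hfs⟩
    · right
      rw [squarefree_iff_no_irreducibles hfM'.1.ne_zero] at hs
      push Not at hs
      obtain ⟨Q, hQ, hQf⟩ := hs
      have hQ0 : Q ≠ 0 := hQ.ne_zero
      have hass : Associated (normalize Q) Q := normalize_associated Q
      have hdvd : (normalize Q) ^ 2 ∣ f := by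
        refine dvd_trans ?_ hQf
        rw [pow_two]
        exact mul_dvd_mul hass.dvd hass.dvd
      have hmon : (normalize Q).Monic := monic_normalize hQ0
      have hirr : Irreducible (normalize Q) := hass.irreducible_iff.mpr hQ
      have hdeg : 2 * (normalize Q).natDegree ≤ 2 * g + 1 := by
        have h1 := natDegree_le_of_dvd hdvd hfM'.1.ne_zero
        rw [hmon.natDegree_pow, hfM'.2] at h1
        exact h1
      have hpos : 0 < (normalize Q).natDegree := hirr.natDegree_pos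
      rw [Finset.mem_biUnion]
      refine ⟨(normalize Q).natDegree, Finset.mem_Icc.mpr ⟨hpos, by omega⟩, ?_⟩
      rw [Finset.mem_biUnion]
      refine ⟨normalize Q, ?_, ?_⟩
      · rw [Finset.mem_filter, hB0.2.1]
        exact ⟨⟨hmon, rfl⟩, hirr⟩
      · rw [Finset.mem_filter]
        exact ⟨hfM, hdvd, hfs⟩
  refine (Finset.card_le_card hsub).trans ?_
  refine (Finset.card_union_le _ _).trans ?_
  apply Nat.add_le_add_left
  refine Finset.card_biUnion_le.trans ?_
  apply Finset.sum_le_sum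
  intro p _
  exact Finset.card_biUnion_le

/-- small primes -/
theorem small_P (hB0 : S_B0 F) (hB5 : S_B5 F) (hCP : S_CP F) (hN2 : S_N2 F) (g : ℕ) (hg : 4 ≤ g)
    {P : F[X]} (hP : P.Monic) (hPi : Irreducible P) (h4 : 4 * P.natDegree ≤ g) :
    ∑ v ∈ VV F (g - 1), (cnt (2 * g + 1) P v : ℝ) ≤
      2 * ((VV F (g - 1)).card : ℝ) * qq F ^ (g + 1) * (1 / qq F ^ (2 * P.natDegree)) := by
  have hq : 0 < qq F := q_pos
  have hpos : 0 < P.natDegree := hPi.natDegree_pos
  have h1 : ∀ v ∈ VV F (g - 1), (cnt (2 * g + 1) P v : ℝ) ≤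
      qq F ^ (g + 1) * (1 / qq F ^ (2 * P.natDegree)) * (1 + (if P ∣ v then qq F ^ P.natDegree else 0)) := by
    intro v hv
    unfold VV at hv
    rw [Finset.mem_filter, hB0.2.2.1] at hv
    obtain ⟨⟨hv0, hvd⟩, hvs⟩ := hv
    rw [cnt_val hB5 g (by omega) hP hPi.squarefree hv0 hvd (by omega)]
    apply mul_le_mul_of_nonneg_left _ (by positivity)
    rcases cpart_deg hCP hP hPi hvs hv0 with h | ⟨h, h'⟩
    · rw [h, pow_zero]
      have : (0 : ℝ) ≤ if P ∣ v then qq F ^ P.natDegree else 0 := by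
        split_ifs
        · positivity
        · exact le_refl _
      linarith
    · rw [h', if_pos h]
      linarith
  refine (Finset.sum_le_sum h1).trans ?_
  rw [← Finset.mul_sum, Finset.sum_add_distrib, Finset.sum_const, nsmul_eq_mul, mul_one,
    ← Finset.sum_filter, Finset.sum_const, nsmul_eq_mul]
  have h2 := hN2.2 (g - 1) P.natDegree P hP hPi rfl (by omega)
  have h3 := hN2.1 (g - 1) (by omega)
  have h4' : (((VV F (g - 1)).filter (fun v => P ∣ v)).card : ℝ) * qq F ^ P.natDegree ≤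
      ((VV F (g - 1)).card : ℝ) := by
    refine (mul_le_mul_of_nonneg_right h2 (by positivity)).trans (le_of_eq ?_)
    rw [h3, mul_assoc]
    congr 1
    rw [sub_mul, ← pow_add, ← pow_add]
    congr 2
    · omega
    · omega
  have h5 : (0 : ℝ) ≤ qq F ^ (g + 1) * (1 / qq F ^ (2 * P.natDegree)) := by positivity
  calc qq F ^ (g + 1) * (1 / qq F ^ (2 * P.natDegree)) * (((VV F (g - 1)).card : ℝ) +
        (((VV F (g - 1)).filter (fun v => P ∣ v)).card : ℝ) * qq F ^ P.natDegree)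
      ≤ qq F ^ (g + 1) * (1 / qq F ^ (2 * P.natDegree)) * (((VV F (g - 1)).card : ℝ) +
        ((VV F (g - 1)).card : ℝ)) := mul_le_mul_of_nonneg_left (by linarith) h5
    _ = 2 * ((VV F (g - 1)).card : ℝ) * qq F ^ (g + 1) * (1 / qq F ^ (2 * P.natDegree)) := by ring

omit [CharP F 3] in
/-- all primes, trivial bound -/
theorem large_P (hB1 : S_B1 F) (hF3 : S_F3 F) (hF4 : S_F4 F) (g : ℕ)
    {P : F[X]} (hP : P.Monic) (hPi : Irreducible P) (hg : P.natDegree ≤ g) :
    ∑ v ∈ VV F (g - 1), (cnt (2 * g + 1) P v : ℝ) ≤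
      9 * qq F ^ (2 * (g - P.natDegree) + 1) := by
  have h1 : ∑ v ∈ VV F (g - 1), (cnt (2 * g + 1) P v : ℝ) =
      ∑ f ∈ (MON F (2 * g + 1)).filter (fun f => P ^ 2 ∣ f),
        (((VV F (g - 1)).filter (fun v => IsSol f v)).card : ℝ) := by
    rw [swap]
    apply Finset.sum_congr rfl
    intro v _
    unfold cnt
    rw [Finset.filter_filter]
  have h2 : ∑ f ∈ (MON F (2 * g + 1)).filter (fun f => P ^ 2 ∣ f),
        (((VV F (g - 1)).filter (fun v => IsSol f v)).card : ℝ) ≤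
      ∑ f ∈ (MON F (2 * g + 1)).filter (fun f => P ^ 2 ∣ f), ((sol f).card : ℝ) := by
    apply Finset.sum_le_sum
    intro f _
    have : ((VV F (g - 1)).filter (fun v => IsSol f v)).card ≤ (sol f).card := by
      apply Finset.card_le_card
      intro v hv
      rw [hB1.2.2.2.2.2.1]
      exact (Finset.mem_filter.mp hv).2
    exact_mod_cast this
  have h3 := hF3 (2 * g + 1) P.natDegree P hP rfl (by omega)
  have h4 : UniqueFactorizationMonoid.normalizedFactors P = {normalize P} :=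
    UniqueFactorizationMonoid.normalizedFactors_irreducible hPi
  rw [h4, Multiset.card_singleton, pow_one] at h3
  have h5 := hF4 (g - P.natDegree)
  have h6 : 2 * g + 1 - 2 * P.natDegree = 2 * (g - P.natDegree) + 1 := by omega
  rw [h6] at h3
  have h7 : ∑ f ∈ (MON F (2 * g + 1)).filter (fun f => P ^ 2 ∣ f), (sol f).card ≤
      9 * Fintype.card F ^ (2 * (g - P.natDegree) + 1) := by
    refine h3.trans ?_
    calc 3 * ∑ f₁ ∈ MON F (2 * (g - P.natDegree) + 1), (sol f₁).card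
        ≤ 3 * (3 * Fintype.card F ^ (2 * (g - P.natDegree) + 1)) := Nat.mul_le_mul_left 3 h5
      _ = 9 * Fintype.card F ^ (2 * (g - P.natDegree) + 1) := by ring
  rw [h1]
  refine h2.trans ?_
  unfold qq
  exact_mod_cast h7

/-- the bound for one prime -/
theorem one_P (hB0 : S_B0 F) (hB1 : S_B1 F) (hB5 : S_B5 F) (hCP : S_CP F) (hF3 : S_F3 F)
    (hF4 : S_F4 F) (hN2 : S_N2 F) (g : ℕ) (hg : 4 ≤ g)
    {P : F[X]} (hP : P.Monic) (hPi : Irreducible P) (hPg : P.natDegree ≤ g) :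
    ∑ v ∈ VV F (g - 1), (cnt (2 * g + 1) P v : ℝ) ≤
      2 * ((VV F (g - 1)).card : ℝ) * qq F ^ (g + 1) * (1 / qq F ^ (2 * P.natDegree)) +
        9 * qq F ^ (2 * g + 1) / qq F ^ (g / 4) * (1 / qq F ^ P.natDegree) := by
  have hq : 0 < qq F := q_pos
  have hq1 : 1 < qq F := q_one
  have e1 : (0 : ℝ) ≤ 2 * ((VV F (g - 1)).card : ℝ) * qq F ^ (g + 1) *
      (1 / qq F ^ (2 * P.natDegree)) := by positivity
  have e2 : (0 : ℝ) ≤ 9 * qq F ^ (2 * g + 1) / qq F ^ (g / 4) * (1 / qq F ^ P.natDegree) := by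
    positivity
  rcases Nat.lt_or_ge g (4 * P.natDegree) with h | h
  · have h1 := large_P hB1 hF3 hF4 g hP hPi hPg
    have h2 : 9 * qq F ^ (2 * (g - P.natDegree) + 1) ≤
        9 * qq F ^ (2 * g + 1) / qq F ^ (g / 4) * (1 / qq F ^ P.natDegree) := by
      rw [mul_one_div, div_div, le_div_iff₀ (by positivity), mul_assoc, ← pow_add, ← pow_add]
      apply mul_le_mul_of_nonneg_left _ (by norm_num)
      apply pow_le_pow_right₀ hq1.le
      omega
    linarith
  · have h1 := small_P hB0 hB5 hCP hN2 g hg hP hPi h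
    linarith

/-- the error term is small -/
theorem lim (q : ℝ) (hq : 1 < q) (c : ℝ) (hc : 0 < c) :
    ∃ g₀ : ℕ, ∀ g ≥ g₀, 9 * (g : ℝ) / q ^ (g / 4) ≤ c := by
  have h1 : Filter.Tendsto (fun n : ℕ => (n : ℝ) * (1 / q) ^ n) Filter.atTop (nhds 0) :=
    tendsto_self_mul_const_pow_of_lt_one (by positivity) (by
      rw [div_lt_one (by linarith)]
      exact hq)
  have h2 := h1.eventually (gt_mem_nhds (show (0 : ℝ) < c / 63 by positivity))
  obtain ⟨m₀, hm₀⟩ := Filter.eventually_atTop.mp h2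
  refine ⟨4 * (m₀ + 1), fun g hg => ?_⟩
  have h3 : m₀ + 1 ≤ g / 4 := by omega
  have h4 := hm₀ (g / 4) (by omega)
  have h5 : (g : ℝ) ≤ 7 * ((g / 4 : ℕ) : ℝ) := by
    have : g ≤ 7 * (g / 4) := by omega
    exact_mod_cast this
  have hq0 : 0 < q ^ (g / 4) := by positivity
  rw [one_div, inv_pow, ← div_eq_mul_inv, div_lt_iff₀ hq0] at h4
  rw [div_le_iff₀ hq0]
  nlinarith

end XPP1

open XPP1 in
theorem p_PP1 (F : Type) [Field F] [Fintype F] [CharP F 3] (hB0 : S_B0 F) (hB1 : S_B1 F)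
    (hB5 : S_B5 F) (hCP : S_CP F) (hF3 : S_F3 F) (hF4 : S_F4 F) (hN1 : S_N1 F) (hN2 : S_N2 F) :
    S_PP1 F := by
  have hq : 0 < qq F := q_pos
  have hq1 : 1 < qq F := q_one
  have hc : 0 < 2 / 27 * ((qq F - 1) / qq F) ^ 2 := by
    have : 0 < qq F - 1 := by linarith
    positivity
  obtain ⟨g₀, hg₀⟩ := lim (qq F) hq1 _ hc
  refine ⟨2 / 27 * ((qq F - 1) / qq F) ^ 2, hc, max g₀ 4, fun g hg => ?_⟩
  have hg1 : g₀ ≤ g := (le_max_left _ _).trans hg
  have hg4 : 4 ≤ g := (le_max_right _ _).trans hg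
  have hlim := hg₀ g hg1
  -- the sum over `f` as a sum over `v`
  have e1 : ∑ f ∈ SQF F (2 * g + 1), (XX F g f : ℝ) =
      ∑ v ∈ VV F (g - 1), (((SQF F (2 * g + 1)).filter (fun f => IsSol f v)).card : ℝ) := by
    unfold XX
    exact swap _ _
  -- lower bound for each `v`
  have e2 : ∀ v ∈ VV F (g - 1), qq F ^ (g + 1) -
      ∑ p ∈ Finset.Icc 1 g, ∑ P ∈ (MON F p).filter (fun P => Irreducible P),
        (cnt (2 * g + 1) P v : ℝ) ≤
      (((SQF F (2 * g + 1)).filter (fun f => IsSol f v)).card : ℝ) := by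
    intro v hv
    unfold VV at hv
    rw [Finset.mem_filter, hB0.2.2.1] at hv
    obtain ⟨⟨hv0, hvd⟩, hvs⟩ := hv
    have h1 := union_bound hB0 g v
    have h2 : (cnt (2 * g + 1) 1 v : ℝ) ≤
        (((SQF F (2 * g + 1)).filter (fun f => IsSol f v)).card : ℝ) +
        ∑ p ∈ Finset.Icc 1 g, ∑ P ∈ (MON F p).filter (fun P => Irreducible P),
          (cnt (2 * g + 1) P v : ℝ) := by exact_mod_cast h1
    have h3 := cnt_val hB5 g (by omega) (P := 1) monic_one squarefree_one hv0 hvd (by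
      rw [natDegree_one]
      omega)
    rw [natDegree_one, mul_zero, pow_zero, div_one, mul_one] at h3
    have h4 : (1 : ℝ) ≤ qq F ^ (cpart ((1 : F[X]) ^ 2 * v)).natDegree := one_le_pow₀ hq1.le
    have h5 : qq F ^ (g + 1) ≤ (cnt (2 * g + 1) 1 v : ℝ) := by
      rw [h3]
      exact le_mul_of_one_le_right (by positivity) h4
    linarith
  have e3 := Finset.sum_le_sum e2
  rw [Finset.sum_sub_distrib, Finset.sum_const, nsmul_eq_mul, ← e1] at e3
  -- the sum over the primes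
  have e4 : ∑ v ∈ VV F (g - 1), ∑ p ∈ Finset.Icc 1 g,
      ∑ P ∈ (MON F p).filter (fun P => Irreducible P), (cnt (2 * g + 1) P v : ℝ) =
      ∑ p ∈ Finset.Icc 1 g, ∑ P ∈ (MON F p).filter (fun P => Irreducible P),
        ∑ v ∈ VV F (g - 1), (cnt (2 * g + 1) P v : ℝ) := by
    rw [Finset.sum_comm]
    apply Finset.sum_congr rfl
    intro p _
    rw [Finset.sum_comm]
  have e5 : ∑ p ∈ Finset.Icc 1 g, ∑ P ∈ (MON F p).filter (fun P => Irreducible P),
        ∑ v ∈ VV F (g - 1), (cnt (2 * g + 1) P v : ℝ) ≤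
      ∑ p ∈ Finset.Icc 1 g, ∑ _P ∈ (MON F p).filter (fun P => Irreducible P),
        (2 * ((VV F (g - 1)).card : ℝ) * qq F ^ (g + 1) * (1 / qq F ^ (2 * p)) +
        9 * qq F ^ (2 * g + 1) / qq F ^ (g / 4) * (1 / qq F ^ p)) := by
    apply Finset.sum_le_sum
    intro p hp
    apply Finset.sum_le_sum
    intro P hP
    rw [Finset.mem_Icc] at hp
    rw [Finset.mem_filter, hB0.2.1] at hP
    obtain ⟨⟨hPm, hPd⟩, hPi⟩ := hP
    have := one_P hB0 hB1 hB5 hCP hF3 hF4 hN2 g hg4 hPm hPi (by omega)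
    rw [hPd] at this
    exact this
  have e6 : ∑ p ∈ Finset.Icc 1 g, ∑ _P ∈ (MON F p).filter (fun P => Irreducible P),
        (2 * ((VV F (g - 1)).card : ℝ) * qq F ^ (g + 1) * (1 / qq F ^ (2 * p)) +
        9 * qq F ^ (2 * g + 1) / qq F ^ (g / 4) * (1 / qq F ^ p)) ≤
      2 * ((VV F (g - 1)).card : ℝ) * qq F ^ (g + 1) * (23 / 54) +
        9 * qq F ^ (2 * g + 1) / qq F ^ (g / 4) * g := by
    simp_rw [Finset.sum_add_distrib, ← Finset.mul_sum]
    apply add_le_add
    · exact mul_le_mul_of_nonneg_left (hN1 g) (by positivity)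
    · apply mul_le_mul_of_nonneg_left _ (by positivity)
      have h1 : ∀ p ∈ Finset.Icc 1 g, ∑ _P ∈ (MON F p).filter (fun P => Irreducible P),
          1 / qq F ^ p ≤ 1 := by
        intro p _
        rw [Finset.sum_const, nsmul_eq_mul]
        have h2 : ((MON F p).filter (fun P => Irreducible P)).card ≤ Fintype.card F ^ p := by
          rw [← hB0.2.2.2.2.1 p]
          exact Finset.card_filter_le _ _
        have h3 : (((MON F p).filter (fun P => Irreducible P)).card : ℝ) ≤ qq F ^ p := by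
          unfold qq
          exact_mod_cast h2
        rw [mul_one_div, div_le_one (by positivity)]
        exact h3
      refine (Finset.sum_le_sum h1).trans ?_
      rw [Finset.sum_const, Nat.card_Icc, nsmul_eq_mul, mul_one, Nat.add_sub_cancel]
  -- the number of the `v`
  have e7 : ((VV F (g - 1)).card : ℝ) * qq F ^ (g + 1) =
      ((qq F - 1) / qq F) ^ 2 * qq F ^ (2 * g + 1) := by
    rw [hN2.1 (g - 1) (by omega)]
    obtain ⟨k, rfl⟩ : ∃ k, g = k + 2 := ⟨g - 2, by omega⟩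
    have a1 : k + 2 - 1 = k + 1 := by omega
    have a2 : k + 1 - 1 = k := by omega
    rw [a1, a2, div_pow]
    field_simp
    ring
  have e8 : 9 * qq F ^ (2 * g + 1) / qq F ^ (g / 4) * g ≤
      2 / 27 * ((qq F - 1) / qq F) ^ 2 * qq F ^ (2 * g + 1) := by
    have : 9 * qq F ^ (2 * g + 1) / qq F ^ (g / 4) * g =
        9 * (g : ℝ) / qq F ^ (g / 4) * qq F ^ (2 * g + 1) := by ring
    rw [this]
    exact mul_le_mul_of_nonneg_right hlim (by positivity)
  rw [e4] at e3
  have e9 : 2 * ((VV F (g - 1)).card : ℝ) * qq F ^ (g + 1) * (23 / 54) =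
      23 / 27 * (((VV F (g - 1)).card : ℝ) * qq F ^ (g + 1)) := by ring
  rw [e9] at e6
  rw [e7] at e6 e3
  linarith

end DH
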