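import Pool.Agent.H463.DH.Stm2

/-!
# RP: a positive proportion of the class numbers is divisible by 3
-/

open Polynomial
open scoped Classical

noncomputable section

namespace DH

namespace XRP

variable {F : Type} [Field F] [Fintype F]

theorem qq_pos : 0 < qq F := by
  unfold qq
  exact_mod_cast Fintype.card_pos

theorem mem_SQF (hB0 : ∀ n (f : F[X]), f ∈ MON F n ↔ f.Monic ∧ f.natDegree = n) {n : ℕ} {f : F[X]}
    (hf : f ∈ SQF F n) : f.Monic ∧ f.natDegree = n ∧ Squarefree f := by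
  unfold SQF at hf
  rw [Finset.mem_filter, hB0] at hf
  exact ⟨hf.1.1, hf.1.2, hf.2⟩

end XRP

theorem p_RP (F : Type) [Field F] [Fintype F] [CharP F 3] (hB0 : S_B0 F) (hB1 : S_B1 F)
    (hA9 : S_A9 F) (hPP1 : S_PP1 F) (hM5 : S_M5 F) (hTT : S_TT F) : S_RP F := by
  obtain ⟨-, hMON, hDEG, -, hcMON, -⟩ := hB0
  obtain ⟨-, -, -, -, -, -, hsz, hsc, -⟩ := hB1
  obtain ⟨c, hc, g₀, hg₀⟩ := hPP1
  obtain ⟨C, hC, hTT⟩ := hTT
  have hq : 0 < qq F := XRP.qq_pos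
  have hK : 0 < 6 + qq F ^ 2 * C := by positivity
  refine ⟨c ^ 2 / (6 + qq F ^ 2 * C), by positivity, max g₀ 1, ?_⟩
  intro g hg
  have hg1 : 1 ≤ g := le_trans (le_max_right _ _) hg
  have hgg : g₀ ≤ g := le_trans (le_max_left _ _) hg
  set S := SQF F (2 * g + 1) with hS
  set Q := qq F ^ (2 * g + 1) with hQ
  have hQ0 : 0 < Q := by positivity
  -- nonzero `XX` gives an element of the filter
  have hne : ∀ f ∈ S, XX F g f ≠ 0 → 1 < cl3 f := by
    intro f hf hX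
    obtain ⟨hm, hd, hsq⟩ := XRP.mem_SQF hMON hf
    have hgood : Good f := ⟨hm, hsq, by rw [hd]; exact ⟨g, rfl⟩⟩
    rw [hA9 f hgood, hsc f]
    unfold XX at hX
    obtain ⟨v, hv⟩ := Finset.card_pos.1 (Nat.pos_of_ne_zero hX)
    rw [Finset.mem_filter] at hv
    obtain ⟨hv1, hv2⟩ := hv
    unfold VV at hv1
    rw [Finset.mem_filter, hDEG] at hv1
    have : v ∈ solz f := (hsz f v).2 ⟨hv1.1.1, hv2⟩
    have := Finset.card_pos.2 ⟨v, this⟩
    omega
  have h1 : ∑ f ∈ S, (XX F g f : ℝ) = ∑ f ∈ S.filter (fun f => 1 < cl3 f), (XX F g f : ℝ) := by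
    symm
    apply Finset.sum_filter_of_ne
    intro f hf hX
    exact hne f hf (by exact_mod_cast hX)
  have h2 : (∑ f ∈ S.filter (fun f => 1 < cl3 f), (XX F g f : ℝ)) ^ 2 ≤
      ((S.filter (fun f => 1 < cl3 f)).card : ℝ) *
        ∑ f ∈ S.filter (fun f => 1 < cl3 f), (XX F g f : ℝ) ^ 2 := by
    exact sq_sum_le_card_mul_sum_sq
  have hsub : S.filter (fun f => 1 < cl3 f) ⊆ MON F (2 * g + 1) := by
    intro f hf
    have hf' := Finset.mem_of_mem_filter f hf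
    rw [hS] at hf'
    unfold SQF at hf'
    exact Finset.mem_of_mem_filter f hf'
  have h3 : ∑ f ∈ S.filter (fun f => 1 < cl3 f), (XX F g f : ℝ) ^ 2 ≤
      ∑ f ∈ MON F (2 * g + 1), (XX F g f : ℝ) ^ 2 :=
    Finset.sum_le_sum_of_subset_of_nonneg hsub (fun _ _ _ => sq_nonneg _)
  have h4 : ∑ f ∈ MON F (2 * g + 1), (XX F g f : ℝ) ^ 2 ≤ (6 + qq F ^ 2 * C) * Q := by
    have h5 := hM5 g hg1
    have h6 : qq F ^ 3 * TT F g ≤ qq F ^ 3 * (C * qq F ^ (2 * g)) :=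
      mul_le_mul_of_nonneg_left (hTT g) (by positivity)
    have h7 : qq F ^ 3 * (C * qq F ^ (2 * g)) = qq F ^ 2 * C * Q := by
      rw [hQ, pow_succ]
      ring
    calc ∑ f ∈ MON F (2 * g + 1), (XX F g f : ℝ) ^ 2 ≤ 6 * Q + qq F ^ 3 * TT F g := h5
      _ ≤ 6 * Q + qq F ^ 2 * C * Q := by linarith
      _ = (6 + qq F ^ 2 * C) * Q := by ring
  have h8 : c * Q ≤ ∑ f ∈ S.filter (fun f => 1 < cl3 f), (XX F g f : ℝ) := by
    rw [← h1]
    exact hg₀ g hgg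
  have h9 : (c * Q) ^ 2 ≤ ((S.filter (fun f => 1 < cl3 f)).card : ℝ) * ((6 + qq F ^ 2 * C) * Q) := by
    calc (c * Q) ^ 2 ≤ (∑ f ∈ S.filter (fun f => 1 < cl3 f), (XX F g f : ℝ)) ^ 2 :=
          pow_le_pow_left₀ (by positivity) h8 2
      _ ≤ _ := h2
      _ ≤ _ := mul_le_mul_of_nonneg_left (h3.trans h4) (Nat.cast_nonneg _)
  -- the number of squarefree polynomials
  have h10 : (S.card : ℝ) ≤ Q := by
    have h11 : S.card ≤ (MON F (2 * g + 1)).card := by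
      rw [hS]
      exact Finset.card_filter_le _ _
    rw [hcMON] at h11
    have : (S.card : ℝ) ≤ ((Fintype.card F ^ (2 * g + 1) : ℕ) : ℝ) := by exact_mod_cast h11
    rw [hQ]
    unfold qq
    push_cast at this
    exact this
  have h12 : c ^ 2 * Q ≤ ((S.filter (fun f => 1 < cl3 f)).card : ℝ) * (6 + qq F ^ 2 * C) := by
    have h13 : (c ^ 2 * Q) * Q ≤
        (((S.filter (fun f => 1 < cl3 f)).card : ℝ) * (6 + qq F ^ 2 * C)) * Q := by
      calc (c ^ 2 * Q) * Q = (c * Q) ^ 2 := by ring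
        _ ≤ _ := h9
        _ = _ := by ring
    exact le_of_mul_le_mul_right h13 hQ0
  calc c ^ 2 / (6 + qq F ^ 2 * C) * (S.card : ℝ) ≤ c ^ 2 / (6 + qq F ^ 2 * C) * Q :=
        mul_le_mul_of_nonneg_left h10 (by positivity)
    _ = c ^ 2 * Q / (6 + qq F ^ 2 * C) := by ring
    _ ≤ ((S.filter (fun f => 1 < cl3 f)).card : ℝ) := by
        rw [div_le_iff₀ hK]
        exact h12

end DH
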