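import Pool.Agent.H463.DH.Stm2

/-!
# TS: bound for `TT1`, small degree of `e` (helper628)
-/

open Polynomial
open scoped Classical

noncomputable section

namespace DH

namespace XTS

variable {F : Type} [Field F] [Fintype F] [CharP F 3]

set_option linter.unusedSectionVars false

lemma qq_ge_one : (1 : ℝ) ≤ qq F := by
  unfold qq
  exact_mod_cast Fintype.card_pos

lemma qq_pos : (0 : ℝ) < qq F := lt_of_lt_of_le one_pos qq_ge_one

lemma Rz_nonneg (Z : ℕ) (e x : F[X]) : 0 ≤ Rz Z e x := by
  unfold Rz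
  exact pow_nonneg qq_pos.le _

/-- the gcd decomposition -/
lemma decomp {e x : F[X]} (he : e.Monic) (hs : Squarefree e) :
    ∃ h e' : F[X], h.Monic ∧ e'.Monic ∧ e = h * e' ∧ h ∣ x ∧ IsCoprime e' x := by
  set d := EuclideanDomain.gcd e x with hd
  have hd0 : d ≠ 0 := by
    intro h0
    exact he.ne_zero ((EuclideanDomain.gcd_eq_zero_iff.1 h0).1)
  have hn : Associated (normalize d) d := normalize_associated d
  have hde : normalize d ∣ e := hn.dvd.trans (EuclideanDomain.gcd_dvd_left e x)
  have hdx : normalize d ∣ x := hn.dvd.trans (EuclideanDomain.gcd_dvd_right e x)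
  have hm : (normalize d).Monic := monic_normalize hd0
  obtain ⟨e', he'⟩ := hde
  obtain ⟨x', hx'⟩ := hdx
  have he'm : e'.Monic := by
    apply hm.of_mul_monic_left
    rw [← he']
    exact he
  refine ⟨normalize d, e', hm, he'm, he', ⟨x', hx'⟩, ?_⟩
  -- coprime to the cofactor
  have hbez : ∃ a b : F[X], normalize d = e * a + x * b := by
    obtain ⟨k, hk⟩ := hn.symm.dvd
    have hg : d = e * EuclideanDomain.gcdA e x + x * EuclideanDomain.gcdB e x :=
      EuclideanDomain.gcd_eq_gcd_ab e x
    refine ⟨EuclideanDomain.gcdA e x * k, EuclideanDomain.gcdB e x * k, ?_⟩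
    calc normalize d = d * k := hk
      _ = (e * EuclideanDomain.gcdA e x + x * EuclideanDomain.gcdB e x) * k := by rw [← hg]
      _ = _ := by ring
  obtain ⟨a, b, hab⟩ := hbez
  have hcop1 : IsCoprime e' x' := by
    refine ⟨a, b, ?_⟩
    apply mul_left_cancel₀ hm.ne_zero
    have h1 : normalize d = (normalize d * e') * a + (normalize d * x') * b := by
      rw [← he', ← hx']; exact hab
    linear_combination -h1
  have hcop2 : IsCoprime e' (normalize d) := by
    rw [he'] at hs
    exact ((isRelPrime_iff_isCoprime.1 (squarefree_mul_iff.1 hs).1)).symm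
  rw [hx']
  exact hcop2.mul_right hcop1

lemma sq_dvd {e h x y : F[X]} (hh : h.Monic) (hsq : Squarefree h) (he : h ∣ e) (hx : h ∣ x)
    (hC : Cnd e x y) : h ^ 2 ∣ x := by
  obtain ⟨_, hW, hP⟩ := hC
  have hcop : IsCoprime h y := by
    rw [← isRelPrime_iff_isCoprime]
    intro d hd1 hd2
    by_contra hu
    have hd0 : d ≠ 0 := by
      rintro rfl
      exact hh.ne_zero (zero_dvd_iff.1 hd1)
    obtain ⟨P, hPi, hPd⟩ := WfDvdMonoid.exists_irreducible_factor hu hd0
    exact hP P hPi ((hPd.trans hd1).trans he) ⟨(hPd.trans hd1).trans hx, hPd.trans hd2⟩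
  have h1 : h ∣ derivative x * y := by
    have h2 : h ∣ Wr x y := he.trans hW
    have h3 : h ∣ x * derivative y := hx.mul_right _
    have h4 : derivative x * y = Wr x y + x * derivative y := by
      unfold Wr; ring
    rw [h4]
    exact dvd_add h2 h3
  have h5 : h ∣ derivative x := hcop.dvd_of_dvd_mul_right h1
  obtain ⟨x₁, rfl⟩ := hx
  have h6 : h ∣ derivative h * x₁ := by
    have h7 : derivative h * x₁ = derivative (h * x₁) - h * derivative x₁ := by
      rw [derivative_mul]; ring
    rw [h7]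
    exact dvd_sub h5 (dvd_mul_right _ _)
  have hsep : h.Separable := PerfectField.separable_iff_squarefree.2 hsq
  have h8 : h ∣ x₁ := hsep.dvd_of_dvd_mul_left h6
  rw [pow_two]
  exact mul_dvd_mul_left h h8

end XTS

theorem p_TS (F : Type) [Field F] [Fintype F] [CharP F 3] (hB0 : S_B0 F) (hYY : S_YY F)
    (hX0 : S_X0 F) : S_TS F := by
  intro g m e hmg he hsq
  obtain ⟨-, hMON, -, -, -, -⟩ := hB0
  obtain ⟨hem, hed⟩ := (hMON m e).1 he
  have hq := XTS.qq_pos (F := F)
  have hq1 := XTS.qq_ge_one (F := F)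
  set q : ℝ := qq F with hqdef
  set K : ℕ → ℝ := fun k => 3 * (tau e : ℝ) * q ^ (g - m) * q ^ k / q ^ m +
    2 * g * q ^ (2 * g / 3 + m) with hK
  have hK0 : ∀ k, 0 ≤ K k := by
    intro k
    simp only [hK]
    positivity
  -- the bound for one `x`
  have hx : ∀ x ∈ POLz F (g - m),
      ∑ y ∈ (POLz F (g - m)).filter (fun y => Cnd e x y), Rz (g - m) e x * Rz (g - m) e y ≤
      ∑ k ∈ Finset.range (m + 1), ∑ h ∈ (MON F k).filter (fun h => h ∣ e),
        (if h ^ 2 ∣ x then Rz (g - m) e x * K k else 0) := by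
    intro x hxm
    have hx0 : x ≠ 0 := (Finset.mem_filter.1 hxm).2
    have hRx := XTS.Rz_nonneg (g - m) e x
    have hterm : ∀ (k : ℕ) (h : F[X]),
        0 ≤ (if h ^ 2 ∣ x then Rz (g - m) e x * K k else 0) := by
      intro k h
      split_ifs
      · exact mul_nonneg hRx (hK0 k)
      · exact le_refl _
    by_cases hne : ((POLz F (g - m)).filter (fun y => Cnd e x y)).Nonempty
    · obtain ⟨y, hy⟩ := hne
      have hyC : Cnd e x y := (Finset.mem_filter.1 hy).2
      obtain ⟨h, e', hhm, he'm, hee, hhx, hcop⟩ := XTS.decomp (x := x) hem hsq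
      have hhe : h ∣ e := ⟨e', hee⟩
      have hhsq : Squarefree h := hsq.squarefree_of_dvd hhe
      have h2x : h ^ 2 ∣ x := XTS.sq_dvd hhm hhsq hhe hhx hyC
      have hYYx := hYY g m e h e' x hmg hem hhm he'm hsq hed hee hhx hcop hx0
      have hdeg : h.natDegree ≤ m := by
        rw [← hed]
        exact natDegree_le_of_dvd hhe hem.ne_zero
      rw [← Finset.mul_sum]
      calc Rz (g - m) e x * ∑ y ∈ (POLz F (g - m)).filter (fun y => Cnd e x y), Rz (g - m) e y ≤
          Rz (g - m) e x * K h.natDegree := mul_le_mul_of_nonneg_left hYYx hRx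
        _ = (if h ^ 2 ∣ x then Rz (g - m) e x * K h.natDegree else 0) := by rw [if_pos h2x]
        _ ≤ ∑ h' ∈ (MON F h.natDegree).filter (fun h => h ∣ e),
            (if h' ^ 2 ∣ x then Rz (g - m) e x * K h.natDegree else 0) := by
            apply Finset.single_le_sum (f := fun h' : F[X] =>
              (if h' ^ 2 ∣ x then Rz (g - m) e x * K h.natDegree else 0))
              (fun h' _ => hterm _ h')
            rw [Finset.mem_filter, hMON]
            exact ⟨⟨hhm, rfl⟩, hhe⟩
        _ ≤ _ := by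
            apply Finset.single_le_sum (f := fun k : ℕ =>
              ∑ h' ∈ (MON F k).filter (fun h => h ∣ e),
              (if h' ^ 2 ∣ x then Rz (g - m) e x * K k else 0))
              (fun k _ => Finset.sum_nonneg (fun h' _ => hterm k h'))
            rw [Finset.mem_range]
            omega
    · rw [Finset.not_nonempty_iff_eq_empty] at hne
      rw [hne, Finset.sum_empty]
      exact Finset.sum_nonneg (fun k _ => Finset.sum_nonneg (fun h _ => hterm k h))
  -- sum over `x`
  have htau : (tau e : ℝ) = ∑ k ∈ Finset.range (m + 1), ∑ _h ∈ (MON F k).filter (fun h => h ∣ e),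
      (1 : ℝ) := by
    unfold tau
    rw [hed]
    push_cast
    apply Finset.sum_congr rfl
    intro k _
    rw [Finset.sum_const, nsmul_eq_mul, mul_one]
  have hc : ∀ c : ℝ, ∑ k ∈ Finset.range (m + 1), ∑ _h ∈ (MON F k).filter (fun h => h ∣ e), c =
      (tau e : ℝ) * c := by
    intro c
    rw [htau, Finset.sum_mul]
    apply Finset.sum_congr rfl
    intro k _
    rw [Finset.sum_mul]
    apply Finset.sum_congr rfl
    intro h _
    rw [one_mul]
  have hkey : ∀ k ∈ Finset.range (m + 1), ∀ h ∈ (MON F k).filter (fun h => h ∣ e),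
      ∑ x ∈ POLz F (g - m), (if h ^ 2 ∣ x then Rz (g - m) e x * K k else 0) ≤
        9 * (tau e : ℝ) ^ 2 * q ^ (2 * (g - m)) / q ^ m +
          6 * g * (tau e : ℝ) * q ^ (g + 2 * g / 3) := by
    intro k _ h hh
    rw [Finset.mem_filter, hMON] at hh
    obtain ⟨⟨hhm, hhk⟩, hhe⟩ := hh
    rw [← Finset.sum_filter, ← Finset.sum_mul]
    have hX := hX0.2 (g - m) e h hem hsq hhm hhe
    rw [hhk] at hX
    have hqk : 1 ≤ q ^ k := one_le_pow₀ hq1
    calc (∑ x ∈ (POLz F (g - m)).filter (fun x => h ^ 2 ∣ x), Rz (g - m) e x) * K k ≤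
        (3 * (tau e : ℝ) * q ^ (g - m) / q ^ k) * K k :=
          mul_le_mul_of_nonneg_right hX (hK0 k)
      _ = 9 * (tau e : ℝ) ^ 2 * (q ^ (g - m) * q ^ (g - m)) / q ^ m +
          6 * g * (tau e : ℝ) * (q ^ (g - m) * q ^ (2 * g / 3 + m)) / q ^ k := by
          simp only [hK]
          field_simp
          ring
      _ ≤ 9 * (tau e : ℝ) ^ 2 * (q ^ (g - m) * q ^ (g - m)) / q ^ m +
          6 * g * (tau e : ℝ) * (q ^ (g - m) * q ^ (2 * g / 3 + m)) := by
          gcongr
          apply div_le_self _ hqk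
          positivity
      _ = _ := by
          have e1 : q ^ (g - m) * q ^ (g - m) = q ^ (2 * (g - m)) := by
            rw [← pow_add]; congr 1; ring
          have e2 : q ^ (g - m) * q ^ (2 * g / 3 + m) = q ^ (g + 2 * g / 3) := by
            rw [← pow_add]; congr 1; omega
          rw [e1, e2]
  unfold TT1
  calc ∑ x ∈ POLz F (g - m), ∑ y ∈ (POLz F (g - m)).filter (fun y => Cnd e x y),
        Rz (g - m) e x * Rz (g - m) e y ≤
      ∑ x ∈ POLz F (g - m), ∑ k ∈ Finset.range (m + 1),
        ∑ h ∈ (MON F k).filter (fun h => h ∣ e),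
        (if h ^ 2 ∣ x then Rz (g - m) e x * K k else 0) := Finset.sum_le_sum hx
    _ = ∑ k ∈ Finset.range (m + 1), ∑ h ∈ (MON F k).filter (fun h => h ∣ e),
        ∑ x ∈ POLz F (g - m), (if h ^ 2 ∣ x then Rz (g - m) e x * K k else 0) := by
        rw [Finset.sum_comm]
        apply Finset.sum_congr rfl
        intro k _
        rw [Finset.sum_comm]
    _ ≤ ∑ k ∈ Finset.range (m + 1), ∑ _h ∈ (MON F k).filter (fun h => h ∣ e),
        (9 * (tau e : ℝ) ^ 2 * q ^ (2 * (g - m)) / q ^ m +
          6 * g * (tau e : ℝ) * q ^ (g + 2 * g / 3)) :=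
        Finset.sum_le_sum (fun k hk => Finset.sum_le_sum (fun h hh => hkey k hk h hh))
    _ = (tau e : ℝ) * (9 * (tau e : ℝ) ^ 2 * q ^ (2 * (g - m)) / q ^ m +
          6 * g * (tau e : ℝ) * q ^ (g + 2 * g / 3)) := by
        exact hc _
    _ = _ := by ring

end DH
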