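import Pool.Agent.H463.DH.Stm2

/-!
# The bound `TT g ≤ C q^(2g)`
-/

open Polynomial
open scoped Classical

noncomputable section

namespace DH

namespace XTT

variable (F : Type) [Field F] [Fintype F] [CharP F 3]

omit [CharP F 3] in
theorem q_ge : (2 : ℝ) ≤ qq F := by
  unfold qq
  have h : 1 < Fintype.card F := Fintype.one_lt_card
  exact_mod_cast h

theorem bdd (r : ℝ) (hr : 1 < r) : ∃ B : ℝ, 0 < B ∧ ∀ g : ℕ, ((g : ℝ) + 1) ^ 5 ≤ B * r ^ g := by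
  have h1 := tendsto_pow_const_div_const_pow_of_one_lt 5 hr
  obtain ⟨B, hB⟩ := h1.bddAbove_range
  have hr0 : 0 < r := by linarith
  refine ⟨(|B| + 1) * r, by positivity, fun g => ?_⟩
  have h2 : ((g + 1 : ℕ) : ℝ) ^ 5 / r ^ (g + 1) ≤ B := hB ⟨g + 1, rfl⟩
  rw [div_le_iff₀ (by positivity)] at h2
  push_cast at h2
  calc ((g : ℝ) + 1) ^ 5 ≤ B * r ^ (g + 1) := h2
    _ ≤ (|B| + 1) * r ^ (g + 1) := by
        gcongr
        linarith [le_abs_self B]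
    _ = _ := by ring

theorem geom (s : ℝ) (h0 : 0 ≤ s) (h1 : s < 1) (n : ℕ) : ∑ i ∈ Finset.range n, s ^ i ≤ 1 / (1 - s) := by
  rw [le_div_iff₀ (by linarith), geom_sum_mul_neg]
  have : 0 ≤ s ^ n := by positivity
  linarith

omit [CharP F 3] in
/-- large `m` -/
theorem large (C₁ : ℝ) (hC₁ : 0 < C₁) (g m : ℕ) (hm : m < g) (h10 : g ≤ 10 * m)
    (h : ∑ e ∈ (MON F m).filter (fun e => Squarefree e), TT1 F (g - m) e ≤
      C₁ * (g + 1) ^ 4 * qq F ^ (2 * (g - m)) * qq F ^ (2 * (1 / 40 : ℝ) * (g : ℝ))) :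
    qq F ^ m * ∑ e ∈ (MON F m).filter (fun e => Squarefree e), TT1 F (g - m) e ≤
      C₁ * ((g : ℝ) + 1) ^ 4 * (qq F ^ (2 * g) * qq F ^ (-((g : ℝ) / 20))) := by
  have hq := q_ge F
  have hq0 : 0 < qq F := by linarith
  have hq1 : 1 ≤ qq F := by linarith
  have h10' : (g : ℝ) ≤ 10 * m := by exact_mod_cast h10
  calc qq F ^ m * ∑ e ∈ (MON F m).filter (fun e => Squarefree e), TT1 F (g - m) e
      ≤ qq F ^ m * (C₁ * (g + 1) ^ 4 * qq F ^ (2 * (g - m)) * qq F ^ (2 * (1 / 40 : ℝ) * (g : ℝ))) := by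
        gcongr
    _ = C₁ * ((g : ℝ) + 1) ^ 4 * (qq F ^ m * qq F ^ (2 * (g - m)) * qq F ^ (2 * (1 / 40 : ℝ) * (g : ℝ))) := by
        ring
    _ = C₁ * ((g : ℝ) + 1) ^ 4 * qq F ^ ((m : ℝ) + 2 * ((g : ℝ) - m) + 2 * (1 / 40 : ℝ) * (g : ℝ)) := by
        rw [Real.rpow_add hq0, Real.rpow_add hq0, Real.rpow_natCast]
        have e : qq F ^ (2 * ((g : ℝ) - m)) = qq F ^ (2 * (g - m)) := by
          rw [← Real.rpow_natCast]
          push_cast [Nat.cast_sub hm.le]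
          rfl
        rw [e]
    _ ≤ C₁ * ((g : ℝ) + 1) ^ 4 * qq F ^ (2 * (g : ℝ) + -((g : ℝ) / 20)) := by
        refine mul_le_mul_of_nonneg_left ?_ (by positivity)
        refine Real.rpow_le_rpow_of_exponent_le hq1 ?_
        linarith
    _ = _ := by
        rw [Real.rpow_add hq0]
        have e : qq F ^ (2 * (g : ℝ)) = qq F ^ (2 * g) := by
          rw [← Real.rpow_natCast]
          push_cast
          rfl
        rw [e]

omit [CharP F 3] in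
/-- small `m` -/
theorem small (C₂ : ℝ) (hC₂ : 0 < C₂) (g m : ℕ) (hm : m < g) (h10 : 10 * m < g)
    (hcard : (MON F m).card = Fintype.card F ^ m)
    (htau : ∀ e ∈ (MON F m).filter (fun e => Squarefree e), (tau e : ℝ) ≤ C₂ * qq F ^ ((m : ℝ) / 6))
    (h : ∀ e ∈ (MON F m).filter (fun e => Squarefree e), TT1 F (g - m) e ≤
      9 * (tau e : ℝ) ^ 3 * qq F ^ (2 * (g - m)) / qq F ^ m + 6 * g * (tau e : ℝ) ^ 2 * qq F ^ (g + 2 * g / 3)) :
    qq F ^ m * ∑ e ∈ (MON F m).filter (fun e => Squarefree e), TT1 F (g - m) e ≤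
      9 * C₂ ^ 3 * (qq F ^ (2 * g) * qq F ^ (-((m : ℝ) / 2))) +
        6 * g * C₂ ^ 2 * (qq F ^ (2 * g) * qq F ^ (-((g : ℝ) / 10))) := by
  have hq := q_ge F
  have hq0 : 0 < qq F := by linarith
  have hq1 : 1 ≤ qq F := by linarith
  have h10' : 10 * (m : ℝ) ≤ g := by exact_mod_cast h10.le
  have e1 : (qq F ^ ((m : ℝ) / 6)) ^ 3 = qq F ^ ((m : ℝ) / 2) := by
    rw [← Real.rpow_natCast, ← Real.rpow_mul hq0.le]
    congr 1
    push_cast
    ring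
  have e2 : (qq F ^ ((m : ℝ) / 6)) ^ 2 = qq F ^ ((m : ℝ) / 3) := by
    rw [← Real.rpow_natCast, ← Real.rpow_mul hq0.le]
    congr 1
    push_cast
    ring
  have hone : ∀ e ∈ (MON F m).filter (fun e => Squarefree e), TT1 F (g - m) e ≤
      9 * C₂ ^ 3 * (qq F ^ ((m : ℝ) / 2) * qq F ^ (2 * (g - m)) / qq F ^ m) +
        6 * g * C₂ ^ 2 * (qq F ^ ((m : ℝ) / 3) * qq F ^ (g + 2 * g / 3)) := by
    intro e he
    refine (h e he).trans ?_
    have h1 := htau e he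
    have h0 : (0 : ℝ) ≤ tau e := Nat.cast_nonneg _
    have h3 : (tau e : ℝ) ^ 3 ≤ C₂ ^ 3 * qq F ^ ((m : ℝ) / 2) := by
      calc (tau e : ℝ) ^ 3 ≤ (C₂ * qq F ^ ((m : ℝ) / 6)) ^ 3 := by gcongr
        _ = _ := by rw [mul_pow, e1]
    have h2 : (tau e : ℝ) ^ 2 ≤ C₂ ^ 2 * qq F ^ ((m : ℝ) / 3) := by
      calc (tau e : ℝ) ^ 2 ≤ (C₂ * qq F ^ ((m : ℝ) / 6)) ^ 2 := by gcongr
        _ = _ := by rw [mul_pow, e2]
    calc 9 * (tau e : ℝ) ^ 3 * qq F ^ (2 * (g - m)) / qq F ^ m + 6 * g * (tau e : ℝ) ^ 2 * qq F ^ (g + 2 * g / 3)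
        ≤ 9 * (C₂ ^ 3 * qq F ^ ((m : ℝ) / 2)) * qq F ^ (2 * (g - m)) / qq F ^ m +
          6 * g * (C₂ ^ 2 * qq F ^ ((m : ℝ) / 3)) * qq F ^ (g + 2 * g / 3) := by gcongr
      _ = _ := by ring
  obtain ⟨Bd, hBd⟩ : ∃ Bd, Bd = 9 * C₂ ^ 3 * (qq F ^ ((m : ℝ) / 2) * qq F ^ (2 * (g - m)) / qq F ^ m) +
        6 * g * C₂ ^ 2 * (qq F ^ ((m : ℝ) / 3) * qq F ^ (g + 2 * g / 3)) := ⟨_, rfl⟩
  rw [← hBd] at hone
  have hBd0 : 0 ≤ Bd := by rw [hBd]; positivity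
  have hsum : ∑ e ∈ (MON F m).filter (fun e => Squarefree e), TT1 F (g - m) e ≤ qq F ^ m * Bd := by
    calc ∑ e ∈ (MON F m).filter (fun e => Squarefree e), TT1 F (g - m) e
        ≤ ∑ _e ∈ (MON F m).filter (fun e => Squarefree e), Bd := Finset.sum_le_sum hone
      _ = (((MON F m).filter (fun e => Squarefree e)).card : ℝ) * Bd := by
          rw [Finset.sum_const, nsmul_eq_mul]
      _ ≤ ((MON F m).card : ℝ) * Bd := by
          gcongr
          exact Finset.filter_subset _ _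
      _ = qq F ^ m * Bd := by
          rw [hcard]
          unfold qq
          push_cast
          rfl
  have n1 : qq F ^ m = qq F ^ (m : ℝ) := (Real.rpow_natCast _ _).symm
  have n2 : qq F ^ (2 * (g - m)) = qq F ^ (2 * ((g : ℝ) - m)) := by
    rw [← Real.rpow_natCast]
    push_cast [Nat.cast_sub hm.le]
    rfl
  have n3 : qq F ^ (2 * g) = qq F ^ (2 * (g : ℝ)) := by
    rw [← Real.rpow_natCast]
    push_cast
    rfl
  have n4 : qq F ^ (g + 2 * g / 3) ≤ qq F ^ (5 * (g : ℝ) / 3) := by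
    rw [← Real.rpow_natCast]
    refine Real.rpow_le_rpow_of_exponent_le hq1 ?_
    push_cast
    have h5 : ((2 * g / 3 : ℕ) : ℝ) ≤ 2 * (g : ℝ) / 3 := by
      have := Nat.cast_div_le (α := ℝ) (m := 2 * g) (n := 3)
      push_cast at this
      exact this
    linarith
  have p1 : qq F ^ m * (qq F ^ m * (qq F ^ ((m : ℝ) / 2) * qq F ^ (2 * (g - m)) / qq F ^ m)) ≤
      qq F ^ (2 * g) * qq F ^ (-((m : ℝ) / 2)) := by
    have hm0 : qq F ^ m ≠ 0 := by positivity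
    have e3 : qq F ^ m * (qq F ^ m * (qq F ^ ((m : ℝ) / 2) * qq F ^ (2 * (g - m)) / qq F ^ m)) =
        qq F ^ m * (qq F ^ ((m : ℝ) / 2) * qq F ^ (2 * (g - m))) := by
      field_simp
    rw [e3, n1, n2, n3, ← Real.rpow_add hq0, ← Real.rpow_add hq0, ← Real.rpow_add hq0]
    refine Real.rpow_le_rpow_of_exponent_le hq1 ?_
    linarith
  have p2 : qq F ^ m * (qq F ^ m * (qq F ^ ((m : ℝ) / 3) * qq F ^ (g + 2 * g / 3))) ≤
      qq F ^ (2 * g) * qq F ^ (-((g : ℝ) / 10)) := by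
    calc qq F ^ m * (qq F ^ m * (qq F ^ ((m : ℝ) / 3) * qq F ^ (g + 2 * g / 3)))
        ≤ qq F ^ m * (qq F ^ m * (qq F ^ ((m : ℝ) / 3) * qq F ^ (5 * (g : ℝ) / 3))) := by gcongr
      _ ≤ _ := by
        rw [n1, n3, ← Real.rpow_add hq0, ← Real.rpow_add hq0, ← Real.rpow_add hq0, ← Real.rpow_add hq0]
        refine Real.rpow_le_rpow_of_exponent_le hq1 ?_
        linarith
  calc qq F ^ m * ∑ e ∈ (MON F m).filter (fun e => Squarefree e), TT1 F (g - m) e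
      ≤ qq F ^ m * (qq F ^ m * Bd) := by gcongr
    _ = 9 * C₂ ^ 3 * (qq F ^ m * (qq F ^ m * (qq F ^ ((m : ℝ) / 2) * qq F ^ (2 * (g - m)) / qq F ^ m))) +
        6 * g * C₂ ^ 2 * (qq F ^ m * (qq F ^ m * (qq F ^ ((m : ℝ) / 3) * qq F ^ (g + 2 * g / 3)))) := by
        rw [hBd]
        ring
    _ ≤ _ := by gcongr

end XTT

theorem p_TT (F : Type) [Field F] [Fintype F] [CharP F 3] (hB0 : S_B0 F) (hDB : S_DB F) (hTS : S_TS F)
    (hTL : S_TL F) : S_TT F := by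
  have hq := XTT.q_ge F
  have hq0 : 0 < qq F := by linarith
  have hq1 : 1 ≤ qq F := by linarith
  have hq1' : 1 < qq F := by linarith
  obtain ⟨C₁, hC₁, hL⟩ := hTL (1 / 40) (by norm_num)
  obtain ⟨C₂, hC₂, hD⟩ := hDB (1 / 6) (by norm_num)
  obtain ⟨_, hMON, _, _, hcard, _⟩ := hB0
  obtain ⟨r, hr⟩ : ∃ r : ℝ, r = qq F ^ (1 / 20 : ℝ) := ⟨_, rfl⟩
  have hr1 : 1 < r := by rw [hr]; exact Real.one_lt_rpow hq1' (by norm_num)
  obtain ⟨B, hB, hBr⟩ := XTT.bdd r hr1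
  obtain ⟨s, hs⟩ : ∃ s : ℝ, s = qq F ^ (-(1 / 2) : ℝ) := ⟨_, rfl⟩
  have hs0 : 0 < s := by rw [hs]; positivity
  have hs1 : s < 1 := by rw [hs]; exact Real.rpow_lt_one_of_one_lt_of_neg hq1' (by norm_num)
  have hs2 : 0 < 1 - s := by linarith
  refine ⟨C₁ * B + 9 * C₂ ^ 3 * (1 / (1 - s)) + 6 * C₂ ^ 2 * B, by positivity, fun g => ?_⟩
  obtain ⟨u, hu⟩ : ∃ u : ℝ, u = qq F ^ (-((g : ℝ) / 20)) := ⟨_, rfl⟩
  have hu0 : 0 < u := by rw [hu]; positivity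
  have hu' : qq F ^ (-((g : ℝ) / 10)) ≤ u := by
    rw [hu]
    refine Real.rpow_le_rpow_of_exponent_le hq1 ?_
    have : (0 : ℝ) ≤ g := Nat.cast_nonneg g
    linarith
  have hub : ((g : ℝ) + 1) ^ 5 * u ≤ B := by
    have h1 : r ^ g * u = 1 := by
      rw [hr, hu, ← Real.rpow_natCast, ← Real.rpow_mul hq0.le, ← Real.rpow_add hq0]
      have : (1 / 20 : ℝ) * (g : ℝ) + -((g : ℝ) / 20) = 0 := by ring
      rw [this, Real.rpow_zero]
    calc ((g : ℝ) + 1) ^ 5 * u ≤ B * r ^ g * u := by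
          gcongr
          exact hBr g
      _ = B * (r ^ g * u) := by ring
      _ = B := by rw [h1, mul_one]
  have hsm : ∀ m : ℕ, qq F ^ (-((m : ℝ) / 2)) = s ^ m := by
    intro m
    rw [hs, ← Real.rpow_natCast, ← Real.rpow_mul hq0.le]
    congr 1
    ring
  have hg0 : (0 : ℝ) ≤ g := Nat.cast_nonneg g
  have hm : ∀ m ∈ Finset.range g, ∑ e ∈ (MON F m).filter (fun e => Squarefree e), qq F ^ m * TT1 F (g - m) e ≤
      qq F ^ (2 * g) * (C₁ * (((g : ℝ) + 1) ^ 4 * u) + 9 * C₂ ^ 3 * s ^ m + 6 * C₂ ^ 2 * (((g : ℝ) + 1) * u)) := by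
    intro m hm
    rw [Finset.mem_range] at hm
    rw [← Finset.mul_sum]
    by_cases h10 : g ≤ 10 * m
    · refine (XTT.large F C₁ hC₁ g m hm h10 (hL g m hm)).trans ?_
      rw [← hu]
      have e : C₁ * ((g : ℝ) + 1) ^ 4 * (qq F ^ (2 * g) * u) = qq F ^ (2 * g) * (C₁ * (((g : ℝ) + 1) ^ 4 * u)) := by
        ring
      rw [e]
      refine mul_le_mul_of_nonneg_left ?_ (by positivity)
      have h1 : 0 ≤ 9 * C₂ ^ 3 * s ^ m := by positivity
      have h2 : 0 ≤ 6 * C₂ ^ 2 * (((g : ℝ) + 1) * u) := by positivity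
      linarith
    · refine (XTT.small F C₂ hC₂ g m hm (by omega) (hcard m) ?_ ?_).trans ?_
      · intro e he
        rw [Finset.mem_filter, hMON] at he
        have h1 := hD e he.1.1.ne_zero
        rw [he.1.2] at h1
        have e1 : (1 / 6 : ℝ) * (m : ℝ) = (m : ℝ) / 6 := by ring
        rw [e1] at h1
        exact h1
      · intro e he
        rw [Finset.mem_filter] at he
        exact hTS g m e hm he.1 he.2
      · rw [hsm m]
        calc 9 * C₂ ^ 3 * (qq F ^ (2 * g) * s ^ m) + 6 * g * C₂ ^ 2 * (qq F ^ (2 * g) * qq F ^ (-((g : ℝ) / 10)))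
            ≤ 9 * C₂ ^ 3 * (qq F ^ (2 * g) * s ^ m) + 6 * ((g : ℝ) + 1) * C₂ ^ 2 * (qq F ^ (2 * g) * u) := by
              gcongr
              linarith
          _ = qq F ^ (2 * g) * (9 * C₂ ^ 3 * s ^ m + 6 * C₂ ^ 2 * (((g : ℝ) + 1) * u)) := by ring
          _ ≤ _ := by
              refine mul_le_mul_of_nonneg_left ?_ (by positivity)
              have h1 : 0 ≤ C₁ * (((g : ℝ) + 1) ^ 4 * u) := by positivity
              linarith
  unfold TT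
  refine (Finset.sum_le_sum hm).trans ?_
  rw [← Finset.mul_sum, mul_comm (C₁ * B + 9 * C₂ ^ 3 * (1 / (1 - s)) + 6 * C₂ ^ 2 * B)]
  refine mul_le_mul_of_nonneg_left ?_ (by positivity)
  rw [Finset.sum_add_distrib, Finset.sum_add_distrib, Finset.sum_const, Finset.sum_const,
    Finset.card_range, nsmul_eq_mul, nsmul_eq_mul]
  have k1 : (g : ℝ) * (C₁ * (((g : ℝ) + 1) ^ 4 * u)) ≤ C₁ * B := by
    calc (g : ℝ) * (C₁ * (((g : ℝ) + 1) ^ 4 * u)) ≤ ((g : ℝ) + 1) * (C₁ * (((g : ℝ) + 1) ^ 4 * u)) := by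
          gcongr
          linarith
      _ = C₁ * (((g : ℝ) + 1) ^ 5 * u) := by ring
      _ ≤ _ := by gcongr
  have k2 : ∑ i ∈ Finset.range g, s ^ i ≤ 1 / (1 - s) := XTT.geom s hs0.le hs1 g
  have k3 : (g : ℝ) * (6 * C₂ ^ 2 * (((g : ℝ) + 1) * u)) ≤ 6 * C₂ ^ 2 * B := by
    have h1 : ((g : ℝ) + 1) ^ 2 ≤ ((g : ℝ) + 1) ^ 5 := pow_le_pow_right₀ (by linarith) (by norm_num)
    calc (g : ℝ) * (6 * C₂ ^ 2 * (((g : ℝ) + 1) * u)) ≤ ((g : ℝ) + 1) * (6 * C₂ ^ 2 * (((g : ℝ) + 1) * u)) := by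
          gcongr
          linarith
      _ = 6 * C₂ ^ 2 * (((g : ℝ) + 1) ^ 2 * u) := by ring
      _ ≤ 6 * C₂ ^ 2 * (((g : ℝ) + 1) ^ 5 * u) := by gcongr
      _ ≤ _ := by gcongr
  have k4 : ∑ i ∈ Finset.range g, 9 * C₂ ^ 3 * s ^ i ≤ 9 * C₂ ^ 3 * (1 / (1 - s)) := by
    rw [← Finset.mul_sum]
    gcongr
  exact add_le_add (add_le_add k1 k4) k3

end DH
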