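import Pool.Agent.H463.DH.Stm2

/-!
# X0 (helper236): sum over `x` of the weight
-/

open Polynomial
open scoped Classical

noncomputable section

namespace DH

namespace XX0

variable {F : Type} [Field F] [Fintype F]

theorem q1 : (1 : ℝ) ≤ qq F := by
  unfold qq
  exact_mod_cast Fintype.card_pos

theorem q0 : (0 : ℝ) < qq F := lt_of_lt_of_le one_pos q1

theorem cntdvd [CharP F 3] (hB0 : S_B0 F) (m : F[X]) (d : ℕ) (hm : m.Monic) :
    (((DEG F d).filter (fun x => m ∣ x)).card : ℝ) ≤ qq F ^ (d + 1) / qq F ^ m.natDegree := by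
  obtain ⟨-, -, hD, -, -, hDc⟩ := hB0
  have key : ∀ x ∈ (DEG F d).filter (fun x => m ∣ x), ∃ y : F[X], y ≠ 0 ∧ x = m * y ∧
      m.natDegree + y.natDegree = d := by
    intro x hx
    obtain ⟨h1, y, rfl⟩ := Finset.mem_filter.1 hx
    obtain ⟨h2, h3⟩ := (hD _ _).1 h1
    have hy : y ≠ 0 := by
      rintro rfl
      exact h2 (mul_zero _)
    refine ⟨y, hy, rfl, ?_⟩
    rw [← natDegree_mul hm.ne_zero hy, h3]
  by_cases hd : m.natDegree ≤ d
  · have hsub : (DEG F d).filter (fun x => m ∣ x) ⊆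
        (DEG F (d - m.natDegree)).image (fun y => m * y) := by
      intro x hx
      obtain ⟨y, h1, h2, h3⟩ := key x hx
      exact Finset.mem_image.2 ⟨y, (hD _ _).2 ⟨h1, by omega⟩, h2.symm⟩
    have h1 : ((DEG F d).filter (fun x => m ∣ x)).card ≤
        (Fintype.card F - 1) * Fintype.card F ^ (d - m.natDegree) :=
      (Finset.card_le_card hsub).trans (Finset.card_image_le.trans (le_of_eq (hDc _)))
    have h2 : ((DEG F d).filter (fun x => m ∣ x)).card ≤
        Fintype.card F ^ (d - m.natDegree + 1) := by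
      refine h1.trans ?_
      rw [pow_succ, mul_comm]
      exact Nat.mul_le_mul_left _ (Nat.sub_le _ _)
    have h3 : (((DEG F d).filter (fun x => m ∣ x)).card : ℝ) ≤
        qq F ^ (d - m.natDegree + 1) := by
      unfold qq
      exact_mod_cast h2
    rw [le_div_iff₀ (pow_pos q0 _)]
    calc _ ≤ qq F ^ (d - m.natDegree + 1) * qq F ^ m.natDegree :=
          mul_le_mul_of_nonneg_right h3 (pow_nonneg q0.le _)
      _ = qq F ^ (d + 1) := by
        rw [← pow_add]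
        congr 1
        omega
  · have hemp : (DEG F d).filter (fun x => m ∣ x) = ∅ := by
      rw [Finset.eq_empty_iff_forall_notMem]
      intro x hx
      obtain ⟨y, h1, h2, h3⟩ := key x hx
      omega
    rw [hemp, Finset.card_empty, Nat.cast_zero]
    exact div_nonneg (pow_nonneg q0.le _) (pow_nonneg q0.le _)

theorem sum_polz [CharP F 3] (hB0 : S_B0 F) (Z : ℕ) (f : F[X] → ℝ) :
    ∑ x ∈ POLz F Z, f x = ∑ d ∈ Finset.range Z, ∑ x ∈ DEG F d, f x := by
  obtain ⟨hP, -, hD, -, -, -⟩ := hB0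
  have hmaps : ∀ x ∈ POLz F Z, x.natDegree ∈ Finset.range Z := by
    intro x hx
    obtain ⟨h1, h2⟩ := Finset.mem_filter.1 hx
    rw [Finset.mem_range]
    exact (natDegree_lt_iff_degree_lt h2).2 ((hP _ _).1 h1)
  rw [← Finset.sum_fiberwise_of_maps_to hmaps]
  refine Finset.sum_congr rfl (fun d hd => ?_)
  refine Finset.sum_congr ?_ (fun _ _ => rfl)
  ext x
  rw [Finset.mem_filter, hD, POLz, Finset.mem_filter, hP]
  constructor
  · rintro ⟨⟨-, h2⟩, h3⟩
    exact ⟨h2, h3⟩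
  · rintro ⟨h2, h3⟩
    refine ⟨⟨?_, h2⟩, h3⟩
    rw [← natDegree_lt_iff_degree_lt h2, h3]
    exact Finset.mem_range.1 hd

theorem cp_le [CharP F 3] (hB0 : S_B0 F) (hCP : S_CP F) (e x : F[X]) (he : e ≠ 0) (hx : x ≠ 0)
    (M : ℕ) (hM : e.natDegree + x.natDegree ≤ M) :
    qq F ^ (cpart (e * x)).natDegree ≤ ∑ k ∈ Finset.range (M + 1), ∑ b ∈ MON F k,
      (if b ^ 3 ∣ e * x then qq F ^ k else 0) := by
  obtain ⟨h1, h2, -⟩ := hCP.1 (e * x) (mul_ne_zero he hx)
  have h3 : (cpart (e * x)).natDegree ≤ M := by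
    have h4 := natDegree_le_of_dvd h2 (mul_ne_zero he hx)
    rw [natDegree_pow, natDegree_mul he hx] at h4
    omega
  have hnn : ∀ (k : ℕ) (b : F[X]), 0 ≤ (if b ^ 3 ∣ e * x then qq F ^ k else 0 : ℝ) := by
    intro k b
    split_ifs
    · exact pow_nonneg q0.le _
    · exact le_rfl
  have hin : cpart (e * x) ∈ MON F (cpart (e * x)).natDegree := (hB0.2.1 _ _).2 ⟨h1, rfl⟩
  calc qq F ^ (cpart (e * x)).natDegree
      = (if (cpart (e * x)) ^ 3 ∣ e * x then qq F ^ (cpart (e * x)).natDegree else 0) := by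
        rw [if_pos h2]
    _ ≤ ∑ b ∈ MON F (cpart (e * x)).natDegree,
        (if b ^ 3 ∣ e * x then qq F ^ (cpart (e * x)).natDegree else 0) :=
        Finset.single_le_sum (f := fun b : F[X] =>
          (if b ^ 3 ∣ e * x then qq F ^ (cpart (e * x)).natDegree else 0 : ℝ))
          (fun b _ => hnn _ b) hin
    _ ≤ _ := Finset.single_le_sum (f := fun k => ∑ b ∈ MON F k,
          (if b ^ 3 ∣ e * x then qq F ^ k else 0 : ℝ))
          (fun k _ => Finset.sum_nonneg (fun b _ => hnn k b))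
          (Finset.mem_range.2 (Nat.lt_succ_of_le h3))

theorem part1 [CharP F 3] (hB0 : S_B0 F) (hCP : S_CP F) (hY3 : S_Y3 F) (Z : ℕ) (e : F[X])
    (he : e.Monic) (hs : Squarefree e) :
    ∑ x ∈ POLz F Z, Rz Z e x ≤ 3 * (tau e : ℝ) * qq F ^ Z := by
  obtain ⟨hY1, hY2, hY4⟩ := hY3
  -- the function `γ`
  have hγ : ∀ b : F[X], ∃ γ : F[X], b.Monic → ∃ e₂ b₁ : F[X], γ.Monic ∧ e₂.Monic ∧ b₁.Monic ∧
      e = γ * e₂ ∧ b = γ * b₁ ∧ IsCoprime e₂ b ∧ ∀ y : F[X], b ^ 3 ∣ e * y ↔ γ ^ 2 * b₁ ^ 3 ∣ y := by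
    intro b
    by_cases hb : b.Monic
    · obtain ⟨γ, e₂, b₁, h⟩ := hY1 e b he hs hb
      exact ⟨γ, fun _ => ⟨e₂, b₁, h⟩⟩
    · exact ⟨1, fun h => absurd h hb⟩
  choose γ hγ using hγ
  set M := e.natDegree + Z with hM
  have hYs := hY2 M e γ he (by
    intro b hb
    obtain ⟨e₂, b₁, h1, h2, h3, h4, h5, -⟩ := hγ b hb
    exact ⟨h1, ⟨b₁, h5⟩, ⟨e₂, h4⟩⟩)
  have hcnt : ∀ (d k : ℕ) (b : F[X]), b ∈ MON F k →
      qq F ^ k * (((DEG F d).filter (fun x => b ^ 3 ∣ e * x)).card : ℝ) ≤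
        qq F ^ (d + 1) * (qq F ^ (2 * (γ b).natDegree) / qq F ^ (2 * k)) := by
    intro d k b hb
    obtain ⟨hbm, hbk⟩ := (hB0.2.1 _ _).1 hb
    obtain ⟨e₂, b₁, h1, h2, h3, h4, h5, h6, h7⟩ := hγ b hbm
    have h8 : (DEG F d).filter (fun x => b ^ 3 ∣ e * x) =
        (DEG F d).filter (fun x => (γ b) ^ 2 * b₁ ^ 3 ∣ x) :=
      Finset.filter_congr (fun x _ => h7 x)
    have hmon : ((γ b) ^ 2 * b₁ ^ 3).Monic := (h1.pow 2).mul (h3.pow 3)
    have hdeg : ((γ b) ^ 2 * b₁ ^ 3).natDegree = 2 * (γ b).natDegree + 3 * b₁.natDegree := by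
      rw [(h1.pow 2).natDegree_mul (h3.pow 3), h1.natDegree_pow, h3.natDegree_pow]
    have hk : k = (γ b).natDegree + b₁.natDegree := by
      rw [← hbk]
      conv_lhs => rw [h5]
      rw [h1.natDegree_mul h3]
    have h9 := cntdvd hB0 _ d hmon
    rw [hdeg] at h9
    rw [h8]
    calc _ ≤ qq F ^ k * (qq F ^ (d + 1) / qq F ^ (2 * (γ b).natDegree + 3 * b₁.natDegree)) :=
          mul_le_mul_of_nonneg_left h9 (pow_nonneg q0.le _)
      _ = qq F ^ (d + 1) * (qq F ^ k / qq F ^ (2 * (γ b).natDegree + 3 * b₁.natDegree)) := by ring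
      _ ≤ _ := by
        refine mul_le_mul_of_nonneg_left ?_ (pow_nonneg q0.le _)
        rw [div_le_div_iff₀ (pow_pos q0 _) (pow_pos q0 _), ← pow_add, ← pow_add]
        exact pow_le_pow_right₀ q1 (by omega)
  have hdsum : ∀ d ∈ Finset.range Z, ∑ x ∈ DEG F d, Rz Z e x ≤
      qq F ^ ((Z - 1 - d) / 3) * qq F ^ (d + 1) * (3 / 2 * (tau e : ℝ)) := by
    intro d hd
    have hdZ := Finset.mem_range.1 hd
    have h1 : ∀ x ∈ DEG F d, Rz Z e x ≤ qq F ^ ((Z - 1 - d) / 3) *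
        ∑ k ∈ Finset.range (M + 1), ∑ b ∈ MON F k, (if b ^ 3 ∣ e * x then qq F ^ k else 0) := by
      intro x hx
      obtain ⟨hx0, hxd⟩ := (hB0.2.2.1 _ _).1 hx
      unfold Rz
      rw [hxd, pow_add]
      exact mul_le_mul_of_nonneg_left
        (cp_le hB0 hCP e x he.ne_zero hx0 M (by rw [hxd, hM]; omega)) (pow_nonneg q0.le _)
    calc ∑ x ∈ DEG F d, Rz Z e x ≤ ∑ x ∈ DEG F d, qq F ^ ((Z - 1 - d) / 3) *
          ∑ k ∈ Finset.range (M + 1), ∑ b ∈ MON F k, (if b ^ 3 ∣ e * x then qq F ^ k else 0) :=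
          Finset.sum_le_sum h1
      _ = qq F ^ ((Z - 1 - d) / 3) * ∑ k ∈ Finset.range (M + 1), ∑ b ∈ MON F k,
          qq F ^ k * (((DEG F d).filter (fun x => b ^ 3 ∣ e * x)).card : ℝ) := by
        rw [← Finset.mul_sum, Finset.sum_comm]
        congr 1
        refine Finset.sum_congr rfl (fun k _ => ?_)
        rw [Finset.sum_comm]
        refine Finset.sum_congr rfl (fun b _ => ?_)
        rw [← Finset.sum_filter, Finset.sum_const, nsmul_eq_mul, mul_comm]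
      _ ≤ qq F ^ ((Z - 1 - d) / 3) * ∑ k ∈ Finset.range (M + 1), ∑ b ∈ MON F k,
          qq F ^ (d + 1) * (qq F ^ (2 * (γ b).natDegree) / qq F ^ (2 * k)) :=
        mul_le_mul_of_nonneg_left (Finset.sum_le_sum (fun k _ =>
          Finset.sum_le_sum (fun b hb => hcnt d k b hb))) (pow_nonneg q0.le _)
      _ = qq F ^ ((Z - 1 - d) / 3) * (qq F ^ (d + 1) * ∑ k ∈ Finset.range (M + 1),
          ∑ b ∈ MON F k, qq F ^ (2 * (γ b).natDegree) / qq F ^ (2 * k)) := by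
        congr 1
        rw [Finset.mul_sum]
        refine Finset.sum_congr rfl (fun k _ => ?_)
        rw [Finset.mul_sum]
      _ ≤ qq F ^ ((Z - 1 - d) / 3) * (qq F ^ (d + 1) * (3 / 2 * (tau e : ℝ))) :=
        mul_le_mul_of_nonneg_left (mul_le_mul_of_nonneg_left hYs (pow_nonneg q0.le _))
          (pow_nonneg q0.le _)
      _ = _ := by rw [mul_assoc]
  rw [sum_polz hB0]
  have htau : (0 : ℝ) ≤ 3 / 2 * (tau e : ℝ) := by positivity
  calc _ ≤ ∑ d ∈ Finset.range Z, qq F ^ ((Z - 1 - d) / 3) * qq F ^ (d + 1) *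
        (3 / 2 * (tau e : ℝ)) := Finset.sum_le_sum hdsum
    _ = (∑ d ∈ Finset.range Z, qq F ^ ((Z - 1 - d) / 3) * qq F ^ (d + 1)) *
        (3 / 2 * (tau e : ℝ)) := by rw [Finset.sum_mul]
    _ ≤ 2 * qq F ^ Z * (3 / 2 * (tau e : ℝ)) := mul_le_mul_of_nonneg_right (hY4 Z) htau
    _ = _ := by ring

theorem tau_le {e' e : F[X]} (he : e ≠ 0) (h : e' ∣ e) : tau e' ≤ tau e := by
  unfold tau
  have h1 : e'.natDegree ≤ e.natDegree := natDegree_le_of_dvd h he
  refine (Finset.sum_le_sum (fun k _ => Finset.card_le_card ?_)).trans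
    (Finset.sum_le_sum_of_subset (Finset.range_mono (Nat.succ_le_succ h1)))
  intro a ha
  obtain ⟨h2, h3⟩ := Finset.mem_filter.1 ha
  exact Finset.mem_filter.2 ⟨h2, h3.trans h⟩

theorem cp_h [CharP F 3] (hCP : S_CP F) (h y : F[X]) (hh : h.Monic) (hy : y ≠ 0) :
    (cpart (h ^ 3 * y)).natDegree ≤ h.natDegree + (cpart y).natDegree := by
  have hne : h ^ 3 * y ≠ 0 := mul_ne_zero (pow_ne_zero _ hh.ne_zero) hy
  obtain ⟨h1, h2, h3⟩ := hCP.1 _ hne
  obtain ⟨k1, k2, k3⟩ := hCP.1 _ hy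
  obtain ⟨c, hc⟩ := h3 h (Dvd.intro _ rfl)
  have hc0 : c ≠ 0 := by
    rintro rfl
    rw [mul_zero] at hc
    exact h1.ne_zero hc
  have h4 : c ^ 3 ∣ y := by
    rw [hc, mul_pow] at h2
    exact (mul_dvd_mul_iff_left (pow_ne_zero 3 hh.ne_zero)).1 h2
  have h5 := natDegree_le_of_dvd (k3 c h4) k1.ne_zero
  rw [hc, natDegree_mul hh.ne_zero hc0]
  omega

theorem part2 [CharP F 3] (hB0 : S_B0 F) (hCP : S_CP F) (hY3 : S_Y3 F) (Z : ℕ) (e h : F[X])
    (he : e.Monic) (hs : Squarefree e) (hh : h.Monic) (hhe : h ∣ e) :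
    ∑ x ∈ (POLz F Z).filter (fun x => h ^ 2 ∣ x), Rz Z e x ≤
      3 * (tau e : ℝ) * qq F ^ Z / qq F ^ h.natDegree := by
  obtain ⟨e', rfl⟩ := hhe
  have he' : e'.Monic := hh.of_mul_monic_left he
  have hs' : Squarefree e' := hs.squarefree_of_dvd (Dvd.intro_left _ rfl)
  have hP := hB0.1
  have hh2 : h ^ 2 ≠ 0 := pow_ne_zero _ hh.ne_zero
  have key : ∀ x ∈ (POLz F Z).filter (fun x => h ^ 2 ∣ x), ∃ y : F[X], y ≠ 0 ∧ x = h ^ 2 * y ∧
      x.natDegree = 2 * h.natDegree + y.natDegree ∧ x.natDegree < Z := by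
    intro x hx
    obtain ⟨h1, y, rfl⟩ := Finset.mem_filter.1 hx
    obtain ⟨h2, h3⟩ := Finset.mem_filter.1 h1
    have hy : y ≠ 0 := by
      rintro rfl
      exact h3 (mul_zero _)
    refine ⟨y, hy, rfl, ?_, (natDegree_lt_iff_degree_lt h3).2 ((hP _ _).1 h2)⟩
    rw [natDegree_mul hh2 hy, natDegree_pow]
  have hRnn : ∀ (Z' : ℕ) (a x : F[X]), 0 ≤ Rz Z' a x := fun Z' a x => pow_nonneg q0.le _
  by_cases hZ : 2 * h.natDegree ≤ Z
  · have hsub : (POLz F Z).filter (fun x => h ^ 2 ∣ x) ⊆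
        (POLz F (Z - 2 * h.natDegree)).image (fun y => h ^ 2 * y) := by
      intro x hx
      obtain ⟨y, h1, h2, h3, h4⟩ := key x hx
      refine Finset.mem_image.2 ⟨y, Finset.mem_filter.2 ⟨(hP _ _).2 ?_, h1⟩, h2.symm⟩
      rw [← natDegree_lt_iff_degree_lt h1]
      omega
    have hle : ∀ y ∈ POLz F (Z - 2 * h.natDegree), Rz Z (h * e') (h ^ 2 * y) ≤
        qq F ^ h.natDegree * Rz (Z - 2 * h.natDegree) e' y := by
      intro y hy
      obtain ⟨h1, hy0⟩ := Finset.mem_filter.1 hy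
      unfold Rz
      rw [← pow_add]
      refine pow_le_pow_right₀ q1 ?_
      have h2 : h * e' * (h ^ 2 * y) = h ^ 3 * (e' * y) := by ring
      have h3 := cp_h hCP h (e' * y) hh (mul_ne_zero he'.ne_zero hy0)
      have h4 : (h ^ 2 * y).natDegree = 2 * h.natDegree + y.natDegree := by
        rw [natDegree_mul hh2 hy0, natDegree_pow]
      have h5 : Z - 1 - (2 * h.natDegree + y.natDegree) =
          Z - 2 * h.natDegree - 1 - y.natDegree := by omega
      rw [h2, h4, h5]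
      omega
    calc _ ≤ ∑ x ∈ (POLz F (Z - 2 * h.natDegree)).image (fun y => h ^ 2 * y),
          Rz Z (h * e') x :=
          Finset.sum_le_sum_of_subset_of_nonneg hsub (fun x _ _ => hRnn _ _ _)
      _ = ∑ y ∈ POLz F (Z - 2 * h.natDegree), Rz Z (h * e') (h ^ 2 * y) :=
          Finset.sum_image (fun a _ b _ hab => mul_left_cancel₀ hh2 hab)
      _ ≤ ∑ y ∈ POLz F (Z - 2 * h.natDegree),
          qq F ^ h.natDegree * Rz (Z - 2 * h.natDegree) e' y := Finset.sum_le_sum hle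
      _ = qq F ^ h.natDegree * ∑ y ∈ POLz F (Z - 2 * h.natDegree),
          Rz (Z - 2 * h.natDegree) e' y := by rw [Finset.mul_sum]
      _ ≤ qq F ^ h.natDegree * (3 * (tau e' : ℝ) * qq F ^ (Z - 2 * h.natDegree)) :=
          mul_le_mul_of_nonneg_left (part1 hB0 hCP hY3 _ _ he' hs') (pow_nonneg q0.le _)
      _ ≤ qq F ^ h.natDegree * (3 * (tau (h * e') : ℝ) * qq F ^ (Z - 2 * h.natDegree)) := by
          have h1 : (tau e' : ℝ) ≤ (tau (h * e') : ℝ) := by
            exact_mod_cast tau_le he.ne_zero (Dvd.intro_left _ rfl)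
          refine mul_le_mul_of_nonneg_left ?_ (pow_nonneg q0.le _)
          refine mul_le_mul_of_nonneg_right ?_ (pow_nonneg q0.le _)
          linarith
      _ = _ := by
          rw [eq_div_iff (pow_ne_zero _ q0.ne')]
          have h1 : qq F ^ Z = qq F ^ (Z - 2 * h.natDegree) * qq F ^ h.natDegree *
              qq F ^ h.natDegree := by
            rw [← pow_add, ← pow_add]
            congr 1
            omega
          rw [h1]
          ring
  · have hemp : (POLz F Z).filter (fun x => h ^ 2 ∣ x) = ∅ := by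
      rw [Finset.eq_empty_iff_forall_notMem]
      intro x hx
      obtain ⟨y, h1, h2, h3, h4⟩ := key x hx
      omega
    rw [hemp, Finset.sum_empty]
    have : (0 : ℝ) ≤ 3 * (tau (h * e') : ℝ) := by positivity
    exact div_nonneg (mul_nonneg this (pow_nonneg q0.le _)) (pow_nonneg q0.le _)

end XX0

theorem p_X0 (F : Type) [Field F] [Fintype F] [CharP F 3] (hB0 : S_B0 F) (hCP : S_CP F)
    (hY3 : S_Y3 F) : S_X0 F :=
  ⟨fun Z e he hs => XX0.part1 hB0 hCP hY3 Z e he hs,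
    fun Z e h he hs hh hhe => XX0.part2 hB0 hCP hY3 Z e h he hs hh hhe⟩

end DH
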