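import Pool.Agent.H463.DH.Stm2

open Polynomial
open scoped Classical

noncomputable section

namespace DH

theorem p_Y1 (F : Type) [Field F] [Fintype F] [CharP F 3] (hB2 : S_B2 F) : S_Y1 F := by
  intro e x y he hsq hco hW
  have he0 : e ≠ 0 := he.ne_zero
  obtain ⟨a, z, haz⟩ := hco.pow_left (m := 2)
  obtain ⟨A, B, hA, hB, k, hk⟩ := hB2.1 e (z * y) he0 hsq
  have hC : derivative (A ^ 3 + X * B ^ 3) = B ^ 3 := by
    rw [derivative_add, derivative_pow, derivative_mul, derivative_X, derivative_pow, one_mul]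
    have h4 : (C ((3 : ℕ) : F) : F[X]) = 0 := by
      rw [CharP.cast_eq_zero, C_0]
    rw [h4]
    ring
  -- `y = x (A ^ 3 + X B ^ 3) + e ^ 2 l`
  have hy : y = x * (A ^ 3 + X * B ^ 3) + e ^ 2 * (a * y - x * k) := by
    linear_combination (-y) * haz - x * hk
  have hy' : derivative y = derivative x * (A ^ 3 + X * B ^ 3) + x * B ^ 3 +
      (2 * e * derivative e * (a * y - x * k) + e ^ 2 * derivative (a * y - x * k)) := by
    conv_lhs => rw [hy]
    rw [derivative_add, derivative_mul, hC, derivative_mul, derivative_pow]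
    have h5 : (C ((2 : ℕ) : F) : F[X]) = 2 := by
      rw [Nat.cast_ofNat]
      rfl
    rw [h5]
    ring
  have h6 : e ∣ x ^ 2 * B ^ 3 := by
    obtain ⟨w, hw⟩ := hW
    unfold Wr at hw
    refine ⟨derivative x * e * (a * y - x * k) - x * (2 * derivative e * (a * y - x * k) +
      e * derivative (a * y - x * k)) - w, ?_⟩
    linear_combination (-1 : F[X]) * hw + derivative x * hy - x * hy'
  have h7 : e ∣ B ^ 3 := (hco.pow_right (n := 2)).dvd_of_dvd_mul_left h6
  have h8 : e ∣ B := (hsq.dvd_pow_iff_dvd (by norm_num)).1 h7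
  have h9 : B = 0 := eq_zero_of_dvd_of_degree_lt h8 hB
  refine ⟨A, hA, a * y - x * k, ?_⟩
  rw [h9] at hy
  linear_combination hy

end DH
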