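import Pool.Agent.H463.DH.Stm2

/-!
# Y2: counting polynomials in two residue conditions
-/

open Polynomial
open scoped Classical

noncomputable section

namespace DH

namespace XY2

variable {F : Type} [Field F]

theorem quot_mem {d : ℕ} {a b r y y₀ : F[X]} (ha : a.Monic) (hb : b.Monic) (hab : IsCoprime a b)
    (hy : y.natDegree = d) (hy₀ : y₀.natDegree = d) (h1 : a ∣ y) (h2 : b ∣ y - r)
    (h3 : a ∣ y₀) (h4 : b ∣ y₀ - r) :
    ∃ z : F[X], y - y₀ = a * b * z ∧ z.degree < ((d + 1 - (a.natDegree + b.natDegree) : ℕ) : WithBot ℕ) := by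
  have h5 : a ∣ y - y₀ := dvd_sub h1 h3
  have h6 : b ∣ y - y₀ := by
    have h7 : y - y₀ = (y - r) - (y₀ - r) := by ring
    rw [h7]
    exact dvd_sub h2 h4
  obtain ⟨z, hz⟩ := hab.mul_dvd h5 h6
  refine ⟨z, hz, ?_⟩
  by_cases hz0 : z = 0
  · rw [hz0, degree_zero]
    exact WithBot.bot_lt_coe _
  · rw [degree_eq_natDegree hz0]
    have h8 : (y - y₀).natDegree ≤ d := by
      refine (natDegree_sub_le _ _).trans ?_
      rw [hy, hy₀, max_self]
    have h9 : (a * b * z).natDegree = a.natDegree + b.natDegree + z.natDegree := by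
      rw [natDegree_mul (mul_ne_zero ha.ne_zero hb.ne_zero) hz0, natDegree_mul ha.ne_zero hb.ne_zero]
    rw [hz, h9] at h8
    exact_mod_cast (by omega : z.natDegree < d + 1 - (a.natDegree + b.natDegree))

end XY2

/-- **Y2.** -/
theorem p_Y2 (F : Type) [Field F] [Fintype F] [CharP F 3] (hB0 : S_B0 F) : S_Y2 F := by
  intro d a b r ha hb hab
  obtain ⟨hP, -, hD, hPc, -, -⟩ := hB0
  have hq1 : (1 : ℝ) ≤ qq F := by
    unfold qq
    exact_mod_cast Fintype.card_pos (α := F)
  have hq0 : (0 : ℝ) < qq F := by linarith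
  obtain ⟨S, hS⟩ : ∃ S, S = (DEG F d).filter (fun y => a ∣ y ∧ b ∣ y - r) := ⟨_, rfl⟩
  rw [← hS]
  have hpos : (0 : ℝ) ≤ qq F ^ (d + 1) / qq F ^ (a.natDegree + b.natDegree) := by positivity
  rcases S.eq_empty_or_nonempty with h0 | ⟨y₀, hy₀⟩
  · rw [h0, Finset.card_empty]
    push_cast
    linarith
  · have hmem : ∀ y ∈ S, y.natDegree = d ∧ a ∣ y ∧ b ∣ y - r := by
      intro y hy
      rw [hS, Finset.mem_filter, hD] at hy
      exact ⟨hy.1.2, hy.2⟩
    obtain ⟨h1, h2, h3⟩ := hmem y₀ hy₀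
    have key : ∀ y ∈ S, ∃ z : F[X], y - y₀ = a * b * z ∧
        z.degree < ((d + 1 - (a.natDegree + b.natDegree) : ℕ) : WithBot ℕ) := by
      intro y hy
      obtain ⟨g1, g2, g3⟩ := hmem y hy
      exact XY2.quot_mem ha hb hab g1 h1 g2 g3 h2 h3
    choose! z hz1 hz2 using key
    have hcard : S.card ≤ (POL F (d + 1 - (a.natDegree + b.natDegree))).card := by
      apply Finset.card_le_card_of_injOn z
      · intro y hy
        exact (hP _ _).2 (hz2 y hy)
      · intro y hy y' hy' hyy
        have e1 := hz1 y hy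
        have e2 := hz1 y' hy'
        rw [hyy, ← e2] at e1
        exact sub_left_injective e1
    rw [hPc] at hcard
    have h4 : (S.card : ℝ) ≤ qq F ^ (d + 1 - (a.natDegree + b.natDegree)) := by
      unfold qq
      exact_mod_cast hcard
    refine h4.trans ?_
    rcases le_total (a.natDegree + b.natDegree) (d + 1) with hle | hle
    · have h5 : qq F ^ (d + 1 - (a.natDegree + b.natDegree)) =
          qq F ^ (d + 1) / qq F ^ (a.natDegree + b.natDegree) := by
        rw [eq_div_iff (by positivity), ← pow_add, Nat.sub_add_cancel hle]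
      rw [h5]
      linarith
    · rw [Nat.sub_eq_zero_of_le hle, pow_zero]
      linarith

end DH
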