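import Pool.Agent.H463.DH.Stm2

open Polynomial
open scoped Classical

noncomputable section

namespace DH

namespace XY3

variable (F : Type) [Field F] [Fintype F] [CharP F 3]

theorem qq_ge : (3 : ℝ) ≤ qq F := by
  have h3 : (3 : ℕ) ≤ Fintype.card F := by
    obtain ⟨n, _, hn⟩ := FiniteField.card F 3
    rw [hn]
    calc 3 = 3 ^ 1 := by norm_num
      _ ≤ 3 ^ (n : ℕ) := Nat.pow_le_pow_right (by norm_num) n.pos
  have : ((3 : ℕ) : ℝ) ≤ (Fintype.card F : ℝ) := by exact_mod_cast h3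
  simpa [qq] using this

theorem part3 (Z : ℕ) :
    ∑ d ∈ Finset.range Z, qq F ^ ((Z - 1 - d) / 3) * qq F ^ (d + 1) ≤ 2 * qq F ^ Z := by
  have h3 := qq_ge F
  set q := qq F with hq
  have hq0 : 0 < q := by linarith
  induction Z using Nat.strong_induction_on with
  | _ Z ih =>
    rcases Z with _ | _ | _ | Z
    · simp
    · simp
      linarith
    · simp [Finset.sum_range_succ]
      nlinarith
    · rw [Finset.sum_range_succ, Finset.sum_range_succ, Finset.sum_range_succ]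
      have e1 : (Z + 1 + 1 + 1 - 1 - (Z + 1 + 1)) / 3 = 0 := by omega
      have e2 : (Z + 1 + 1 + 1 - 1 - (Z + 1)) / 3 = 0 := by omega
      have e3 : (Z + 1 + 1 + 1 - 1 - Z) / 3 = 0 := by omega
      rw [e1, e2, e3]
      have hs : ∑ d ∈ Finset.range Z, q ^ ((Z + 1 + 1 + 1 - 1 - d) / 3) * q ^ (d + 1) =
          q * ∑ d ∈ Finset.range Z, q ^ ((Z - 1 - d) / 3) * q ^ (d + 1) := by
        rw [Finset.mul_sum]
        refine Finset.sum_congr rfl fun d hd => ?_
        have hd' : d < Z := Finset.mem_range.1 hd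
        have e4 : (Z + 1 + 1 + 1 - 1 - d) / 3 = (Z - 1 - d) / 3 + 1 := by omega
        rw [e4, pow_succ]
        ring
      rw [hs]
      have hI := ih Z (by omega)
      have hI2 : q * ∑ d ∈ Finset.range Z, q ^ ((Z - 1 - d) / 3) * q ^ (d + 1) ≤ q * (2 * q ^ Z) :=
        mul_le_mul_of_nonneg_left hI hq0.le
      have hp : 0 < q ^ Z := pow_pos hq0 Z
      have e5 : q ^ (Z + 1 + 1 + 1) = q ^ Z * q ^ 3 := by ring
      have e6 : q ^ (Z + 1 + 1) = q ^ Z * q ^ 2 := by ring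
      have e7 : q ^ (Z + 1) = q ^ Z * q := by ring
      rw [e5, e6, e7]
      have h9 : q ^ 2 + 3 * q ≤ q ^ 3 := by nlinarith [mul_pos hq0 hq0]
      have h10 : q ^ Z * (q ^ 2 + 3 * q) ≤ q ^ Z * q ^ 3 := mul_le_mul_of_nonneg_left h9 hp.le
      nlinarith

theorem geo (r : ℝ) (h0 : 0 ≤ r) (h1 : r ≤ 1 / 3) (n : ℕ) : ∑ j ∈ Finset.range n, r ^ j ≤ 3 / 2 := by
  induction n with
  | zero => norm_num
  | succ n ih =>
    rw [Finset.sum_range_succ']
    have : ∑ j ∈ Finset.range n, r ^ (j + 1) = r * ∑ j ∈ Finset.range n, r ^ j := by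
      rw [Finset.mul_sum]
      refine Finset.sum_congr rfl fun d _ => by ring
    rw [this]
    have hs : 0 ≤ ∑ j ∈ Finset.range n, r ^ j := Finset.sum_nonneg fun i _ => pow_nonneg h0 i
    nlinarith

theorem part1 : ∀ e b : F[X], e.Monic → Squarefree e → b.Monic → ∃ γ e₂ b₁ : F[X], γ.Monic ∧ e₂.Monic ∧
    b₁.Monic ∧ e = γ * e₂ ∧ b = γ * b₁ ∧
    IsCoprime e₂ b ∧ ∀ y : F[X], b ^ 3 ∣ e * y ↔ γ ^ 2 * b₁ ^ 3 ∣ y := by
  intro e b he hsq hb
  have he0 : e ≠ 0 := he.ne_zero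
  have hg0 : EuclideanDomain.gcd b e ≠ 0 := by
    intro h
    exact he0 ((EuclideanDomain.gcd_eq_zero_iff.1 h).2)
  obtain ⟨g, hgdef⟩ : ∃ g, g = EuclideanDomain.gcd b e := ⟨_, rfl⟩
  rw [← hgdef] at hg0
  have hgl : g ∣ b := hgdef ▸ EuclideanDomain.gcd_dvd_left b e
  have hgr : g ∣ e := hgdef ▸ EuclideanDomain.gcd_dvd_right b e
  have hbez : g = b * EuclideanDomain.gcdA b e + e * EuclideanDomain.gcdB b e :=
    hgdef ▸ EuclideanDomain.gcd_eq_gcd_ab b e
  have hlc : g.leadingCoeff ≠ 0 := leadingCoeff_ne_zero.2 hg0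
  obtain ⟨γ, hγ⟩ : ∃ γ, γ = g * C (g.leadingCoeff)⁻¹ := ⟨_, rfl⟩
  have hγm : γ.Monic := hγ ▸ monic_mul_leadingCoeff_inv hg0
  have hgγ : g = γ * C g.leadingCoeff := by
    rw [hγ, mul_assoc, ← C_mul, inv_mul_cancel₀ hlc, C_1, mul_one]
  have hγg : γ ∣ g := ⟨_, hgγ⟩
  obtain ⟨e₂, he₂⟩ := hγg.trans hgr
  obtain ⟨b₁, hb₁⟩ := hγg.trans hgl
  have hγ0 : γ ≠ 0 := hγm.ne_zero
  have he₂m : e₂.Monic := by
    rw [he₂] at he
    exact Monic.of_mul_monic_left hγm he
  have hb₁m : b₁.Monic := by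
    rw [hb₁] at hb
    exact Monic.of_mul_monic_left hγm hb
  have hcop1 : IsCoprime e₂ b₁ := by
    refine ⟨EuclideanDomain.gcdB b e * C (g.leadingCoeff)⁻¹, EuclideanDomain.gcdA b e * C (g.leadingCoeff)⁻¹, ?_⟩
    apply mul_left_cancel₀ hγ0
    calc γ * (EuclideanDomain.gcdB b e * C (g.leadingCoeff)⁻¹ * e₂ + EuclideanDomain.gcdA b e * C (g.leadingCoeff)⁻¹ * b₁)
        = ((γ * b₁) * EuclideanDomain.gcdA b e + (γ * e₂) * EuclideanDomain.gcdB b e) * C (g.leadingCoeff)⁻¹ := by ring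
      _ = (b * EuclideanDomain.gcdA b e + e * EuclideanDomain.gcdB b e) * C (g.leadingCoeff)⁻¹ := by
          rw [← hb₁, ← he₂]
      _ = g * C (g.leadingCoeff)⁻¹ := by rw [← hbez]
      _ = γ * 1 := by rw [← hγ, mul_one]
  have hcop2 : IsCoprime e₂ γ := by
    have h1 : Squarefree (γ * e₂) := he₂ ▸ hsq
    have h2 := (squarefree_mul_iff.1 h1).1
    exact h2.isCoprime.symm
  have hcop : IsCoprime e₂ b := by
    rw [hb₁]
    exact hcop2.mul_right hcop1
  refine ⟨γ, e₂, b₁, hγm, he₂m, hb₁m, he₂, hb₁, hcop, fun y => ?_⟩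
  have hE : e * y = γ * (e₂ * y) := by rw [he₂, mul_assoc]
  have hB : b ^ 3 = γ * (γ ^ 2 * b₁ ^ 3) := by rw [hb₁]; ring
  rw [hE, hB, mul_dvd_mul_iff_left hγ0]
  have hc3 : IsCoprime (γ ^ 2 * b₁ ^ 3) e₂ := by
    exact (IsCoprime.mul_left (hcop2.symm.pow_left) (hcop1.symm.pow_left))
  exact ⟨fun h => hc3.dvd_of_dvd_mul_left h, fun h => h.mul_left e₂⟩

theorem part2 (hB0 : S_B0 F) : ∀ (M : ℕ) (e : F[X]) (γ : F[X] → F[X]), e.Monic →
    (∀ b : F[X], b.Monic → (γ b).Monic ∧ γ b ∣ b ∧ γ b ∣ e) →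
    ∑ k ∈ Finset.range (M + 1), ∑ b ∈ MON F k, qq F ^ (2 * (γ b).natDegree) / qq F ^ (2 * k) ≤
      3 / 2 * (tau e : ℝ) := by
  obtain ⟨-, hMON, -, -, hcard, -⟩ := hB0
  intro M e γ he hγ
  have h3 := qq_ge F
  have hqpos : 0 < qq F := by linarith
  have hq0 : qq F ≠ 0 := hqpos.ne'
  set D : Finset F[X] := (Finset.range (e.natDegree + 1)).biUnion (fun k => (MON F k).filter (fun a => a ∣ e)) with hD
  have hDcard : (D.card : ℝ) ≤ (tau e : ℝ) := by
    have : D.card ≤ tau e := Finset.card_biUnion_le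
    exact_mod_cast this
  have hDmem : ∀ b : F[X], b.Monic → γ b ∈ D := by
    intro b hb
    obtain ⟨h1, _, h3'⟩ := hγ b hb
    refine Finset.mem_biUnion.2 ⟨(γ b).natDegree, ?_, ?_⟩
    · exact Finset.mem_range.2 (Nat.lt_succ_of_le (natDegree_le_of_dvd h3' he.ne_zero))
    · exact Finset.mem_filter.2 ⟨(hMON _ _).2 ⟨h1, rfl⟩, h3'⟩
  have hDmon : ∀ a ∈ D, a.Monic := by
    intro a ha
    obtain ⟨k, _, hk⟩ := Finset.mem_biUnion.1 ha
    exact ((hMON k a).1 (Finset.mem_filter.1 hk).1).1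
  -- rewrite the inner sums
  have hinner : ∀ k, ∑ b ∈ MON F k, qq F ^ (2 * (γ b).natDegree) / qq F ^ (2 * k) =
      ∑ a ∈ D, ∑ b ∈ (MON F k).filter (fun b => γ b = a), qq F ^ (2 * a.natDegree) / qq F ^ (2 * k) := by
    intro k
    rw [← Finset.sum_fiberwise_of_maps_to (s := MON F k) (t := D) (g := γ)
      (fun b hb => hDmem b ((hMON k b).1 hb).1)]
    refine Finset.sum_congr rfl fun a _ => Finset.sum_congr rfl fun b hb => ?_
    rw [(Finset.mem_filter.1 hb).2]
  have hle : ∀ a ∈ D, ∑ k ∈ Finset.range (M + 1), ∑ b ∈ (MON F k).filter (fun b => γ b = a),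
      qq F ^ (2 * a.natDegree) / qq F ^ (2 * k) ≤ 3 / 2 := by
    intro a ha
    have ham := hDmon a ha
    have hk : ∀ k ∈ Finset.range (M + 1), ∑ b ∈ (MON F k).filter (fun b => γ b = a),
        qq F ^ (2 * a.natDegree) / qq F ^ (2 * k) ≤
        if a.natDegree ≤ k then (1 / qq F) ^ (k - a.natDegree) else 0 := by
      intro k _
      rw [Finset.sum_const, nsmul_eq_mul]
      by_cases hak : a.natDegree ≤ k
      · rw [if_pos hak]
        have hsub : (MON F k).filter (fun b => γ b = a) ⊆ (MON F (k - a.natDegree)).image (fun c => a * c) := by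
          intro b hb
          obtain ⟨hb1, hb2⟩ := Finset.mem_filter.1 hb
          obtain ⟨hbm, hbd⟩ := (hMON k b).1 hb1
          obtain ⟨_, hdv, _⟩ := hγ b hbm
          rw [hb2] at hdv
          obtain ⟨c, hc⟩ := hdv
          have hcm : c.Monic := by
            rw [hc] at hbm
            exact Monic.of_mul_monic_left ham hbm
          refine Finset.mem_image.2 ⟨c, (hMON _ _).2 ⟨hcm, ?_⟩, hc.symm⟩
          rw [hc, ham.natDegree_mul hcm] at hbd
          omega
        have hcd : ((MON F k).filter (fun b => γ b = a)).card ≤ Fintype.card F ^ (k - a.natDegree) := by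
          calc _ ≤ ((MON F (k - a.natDegree)).image (fun c => a * c)).card := Finset.card_le_card hsub
            _ ≤ (MON F (k - a.natDegree)).card := Finset.card_image_le
            _ = _ := hcard _
        have hcd' : (((MON F k).filter (fun b => γ b = a)).card : ℝ) ≤ qq F ^ (k - a.natDegree) := by
          have : (((MON F k).filter (fun b => γ b = a)).card : ℝ) ≤ ((Fintype.card F ^ (k - a.natDegree) : ℕ) : ℝ) := by
            exact_mod_cast hcd
          simpa [qq] using this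
        calc _ ≤ qq F ^ (k - a.natDegree) * (qq F ^ (2 * a.natDegree) / qq F ^ (2 * k)) :=
              mul_le_mul_of_nonneg_right hcd' (by positivity)
          _ = (1 / qq F) ^ (k - a.natDegree) := by
              obtain ⟨j, rfl⟩ := Nat.exists_eq_add_of_le hak
              rw [Nat.add_sub_cancel_left]
              have h1 : qq F ^ (2 * (a.natDegree + j)) = qq F ^ (2 * a.natDegree) * (qq F ^ j * qq F ^ j) := by ring
              rw [h1, one_div, inv_pow]
              have hA : qq F ^ (2 * a.natDegree) ≠ 0 := pow_ne_zero _ hq0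
              have hJ : qq F ^ j ≠ 0 := pow_ne_zero _ hq0
              field_simp
      · rw [if_neg hak]
        have : (MON F k).filter (fun b => γ b = a) = ∅ := by
          refine Finset.filter_eq_empty_iff.2 fun b hb hbe => ?_
          obtain ⟨hbm, hbd⟩ := (hMON k b).1 hb
          obtain ⟨_, hdv, _⟩ := hγ b hbm
          rw [hbe] at hdv
          have := natDegree_le_of_dvd hdv hbm.ne_zero
          omega
        rw [this]
        simp
    refine (Finset.sum_le_sum hk).trans ?_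
    rw [← Finset.sum_filter]
    have hfil : (Finset.range (M + 1)).filter (fun k => a.natDegree ≤ k) = Finset.Ico a.natDegree (M + 1) := by
      ext k
      simp only [Finset.mem_filter, Finset.mem_range, Finset.mem_Ico]
      tauto
    rw [hfil, Finset.sum_Ico_eq_sum_range]
    have : ∑ i ∈ Finset.range (M + 1 - a.natDegree), (1 / qq F) ^ (a.natDegree + i - a.natDegree) =
        ∑ i ∈ Finset.range (M + 1 - a.natDegree), (1 / qq F) ^ i := by
      refine Finset.sum_congr rfl fun i _ => ?_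
      rw [Nat.add_sub_cancel_left]
    rw [this]
    refine geo _ (by positivity) ?_ _
    rw [div_le_div_iff₀ hqpos (by norm_num)]
    linarith
  calc ∑ k ∈ Finset.range (M + 1), ∑ b ∈ MON F k, qq F ^ (2 * (γ b).natDegree) / qq F ^ (2 * k)
      = ∑ k ∈ Finset.range (M + 1), ∑ a ∈ D, ∑ b ∈ (MON F k).filter (fun b => γ b = a),
          qq F ^ (2 * a.natDegree) / qq F ^ (2 * k) := Finset.sum_congr rfl fun k _ => hinner k
    _ = ∑ a ∈ D, ∑ k ∈ Finset.range (M + 1), ∑ b ∈ (MON F k).filter (fun b => γ b = a),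
          qq F ^ (2 * a.natDegree) / qq F ^ (2 * k) := Finset.sum_comm
    _ ≤ ∑ _a ∈ D, (3 / 2 : ℝ) := Finset.sum_le_sum hle
    _ = D.card * (3 / 2 : ℝ) := by rw [Finset.sum_const, nsmul_eq_mul]
    _ ≤ 3 / 2 * (tau e : ℝ) := by linarith

end XY3

theorem p_Y3 (F : Type) [Field F] [Fintype F] [CharP F 3] (hB0 : S_B0 F) : S_Y3 F :=
  ⟨XY3.part1 F, XY3.part2 F hB0, XY3.part3 F⟩

end DH
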