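import Pool.Agent.H463.DH.All
import Pool.Agent.H463.DH.N1
import Pool.Agent.H463.DH.N2
import Pool.Agent.H463.DH.PP1
import Pool.Agent.H463.DH.M1
import Pool.Agent.H463.DH.M2
import Pool.Agent.H463.DH.M4
import Pool.Agent.H463.DH.M5
import Pool.Agent.H463.DH.DB
import Pool.Agent.H463.DH.Y1
import Pool.Agent.H463.DH.Y2
import Pool.Agent.H463.DH.Y3
import Pool.Agent.H463.DH.YY
import Pool.Agent.H463.DH.X0
import Pool.Agent.H463.DH.TS
import Pool.Agent.H463.DH.TL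
import Pool.Agent.H463.DH.TT
import Pool.Agent.H463.DH.RP

/-! All parts of the second part put together. -/

open Polynomial
open scoped Classical

namespace DH

theorem all2 (F : Type) [Field F] [Fintype F] [CharP F 3] : S_RP F := by
  have b0 := p_B0 F
  have b1 := p_B1 F b0
  have a1 := p_A1 F
  have a2 := p_A2 F
  have a3 := p_A3 F
  have a4 := p_A4 F a1 a2 b1
  have a5 := p_A5 F a2
  have a6 := p_A6 F a1 a5
  have a7 := p_A7 F a1 a2 a3 a4 a6
  have a8 := p_A8 F a1 a2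
  have a9 := p_A9 F a1 a2 a3 a4 a7 a8 b1
  have b2 := p_B2 F b0
  have dc := p_DC F b0
  have b3 := p_B3 F b0 b1 b2 dc
  have b4 := p_B4 F b0 b1 b2 b3
  have cp := p_CP F
  have b5 := p_B5 F b0 b1 b4 cp
  have mu := p_MU F b0
  have f1 := p_F1 F b0 b1
  have f2 := p_F2 F b1
  have f3 := p_F3 F b0 f2
  have f4 := p_F4 F b0 b1 b5 cp f1
  have f5 := p_F5 F b0 mu
  have g0 := p_G0 F b1
  have n1 := p_N1 F b0
  have n2 := p_N2 F b0 mu f5
  have pp1 := p_PP1 F b0 b1 b5 cp f3 f4 n1 n2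
  have m1 := p_M1 F cp
  have m2 := p_M2 F b0 b1 cp
  have m4 := p_M4 F cp
  have m5 := p_M5 F b0 b1 g0 f4 cp m1 m2 m4
  have db := p_DB F b0
  have y1 := p_Y1 F b2
  have y2 := p_Y2 F b0
  have y3 := p_Y3 F b0
  have yy := p_YY F b0 cp y1 y2 y3
  have x0 := p_X0 F b0 cp y3
  have ts := p_TS F b0 yy x0
  have tl := p_TL F b0 cp db
  have tt := p_TT F b0 db ts tl
  exact p_RP F b0 b1 a9 pp1 m5 tt

end DH
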