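import Pool.Agent.H463.DH.Stm4

/-!
# HB: comparison of `HH` with `TT1`
-/

set_option autoImplicit false

open Polynomial
open scoped Classical

noncomputable section

namespace DH

namespace XHB

variable {F : Type} [Field F] [Fintype F] [CharP F 3]

lemma one_le_qq (F : Type) [Field F] [Fintype F] : 1 ≤ qq F := by
  unfold qq
  exact_mod_cast Fintype.card_pos (α := F)

lemma qq_nonneg (F : Type) [Field F] [Fintype F] : 0 ≤ qq F := zero_le_one.trans (one_le_qq F)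

lemma DEG_sub (hB0 : S_B0 F) {d Z : ℕ} (h : d < Z) : DEG F d ⊆ POLz F Z := by
  intro x hx
  obtain ⟨h1, -, h3, -⟩ := hB0
  rw [h3] at hx
  unfold POLz
  rw [Finset.mem_filter, h1]
  refine ⟨?_, hx.1⟩
  rw [Polynomial.degree_eq_natDegree hx.1, hx.2]
  exact_mod_cast h

/-- the inner sum of `TT1` -/
def T (Z : ℕ) (e x : F[X]) : ℝ :=
  ∑ y ∈ (POLz F Z).filter (fun y => Cnd e x y), Rz Z e x * Rz Z e y

lemma Rz_nonneg (Z : ℕ) (e x : F[X]) : 0 ≤ Rz Z e x := by
  unfold Rz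
  exact pow_nonneg (qq_nonneg F) _

lemma T_nonneg (Z : ℕ) (e x : F[X]) : 0 ≤ T Z e x :=
  Finset.sum_nonneg fun y _ => mul_nonneg (Rz_nonneg Z e x) (Rz_nonneg Z e y)

lemma TT1_eq (Z : ℕ) (e : F[X]) : TT1 F Z e = ∑ x ∈ POLz F Z, T Z e x := rfl

lemma UU_nonneg (Z i : ℕ) (e : F[X]) : 0 ≤ UU F Z i e :=
  Finset.sum_nonneg fun _ _ => Finset.sum_nonneg fun _ _ => pow_nonneg (qq_nonneg F) _

lemma UU_le (hB0 : S_B0 F) {Z i : ℕ} (hi : i < Z) (e : F[X]) :
    qq F ^ (i / 3) * UU F Z i e ≤ ∑ x ∈ DEG F (Z - 1 - i), T Z e x := by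
  have h3 := hB0.2.2.1
  unfold UU
  rw [Finset.mul_sum]
  apply Finset.sum_le_sum
  intro x hx
  unfold T
  rw [Finset.mul_sum]
  have hsub : (DEG F (Z - 1)).filter (fun y => Cnd e x y) ⊆
      (POLz F Z).filter (fun y => Cnd e x y) :=
    Finset.filter_subset_filter _ (DEG_sub hB0 (by omega))
  refine le_trans (le_of_eq ?_) (Finset.sum_le_sum_of_subset_of_nonneg hsub
    fun y _ _ => mul_nonneg (Rz_nonneg Z e x) (Rz_nonneg Z e y))
  apply Finset.sum_congr rfl
  intro y hy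
  rw [Finset.mem_filter, h3] at hy
  rw [h3] at hx
  unfold Rz
  rw [hx.2, hy.1.2, ← pow_add, ← pow_add]
  congr 1
  have e1 : Z - 1 - (Z - 1 - i) = i := by omega
  have e2 : (Z - 1 - (Z - 1)) / 3 = 0 := by simp
  rw [e1, e2]
  ring

lemma VT_le (hB0 : S_B0 F) {g m : ℕ} (hm : m < g) (e : F[X]) :
    VT F g m e ≤ ∑ x ∈ DEG F (g - m - 1), T (g - m) e x := by
  have h3 := hB0.2.2.1
  unfold VT
  apply Finset.sum_le_sum
  intro x hx
  unfold T
  have hsub : (DEG F (g - m - 1)).filter (fun y => Cnd e x y ∧ TopR g (e * x) (e * y) ∧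
      1 ≤ m + (cpart (e * x)).natDegree + (cpart (e * y)).natDegree) ⊆
      (POLz F (g - m)).filter (fun y => Cnd e x y) := by
    intro y hy
    rw [Finset.mem_filter] at hy ⊢
    exact ⟨DEG_sub hB0 (by omega) hy.1, hy.2.1⟩
  refine le_trans (le_of_eq ?_) (Finset.sum_le_sum_of_subset_of_nonneg hsub
    fun y _ _ => mul_nonneg (Rz_nonneg (g - m) e x) (Rz_nonneg (g - m) e y))
  apply Finset.sum_congr rfl
  intro y hy
  rw [Finset.mem_filter, h3] at hy
  rw [h3] at hx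
  unfold Rz
  rw [hx.2, hy.1.2, ← pow_add]
  congr 1
  have e2 : (g - m - 1 - (g - m - 1)) / 3 = 0 := by simp
  rw [e2]
  ring

lemma sum_DEG_le (hB0 : S_B0 F) {Z d : ℕ} (hd : d < Z) (e : F[X]) :
    ∑ x ∈ DEG F d, T Z e x ≤ TT1 F Z e := by
  rw [TT1_eq]
  exact Finset.sum_le_sum_of_subset_of_nonneg (DEG_sub hB0 hd) fun x _ _ => T_nonneg Z e x

lemma sum_all_le (hB0 : S_B0 F) (Z : ℕ) (e : F[X]) (I : Finset ℕ) (hI : ∀ i ∈ I, i < Z) :
    ∑ i ∈ I, ∑ x ∈ DEG F (Z - 1 - i), T Z e x ≤ TT1 F Z e := by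
  have h3 := hB0.2.2.1
  rw [TT1_eq, ← Finset.sum_biUnion]
  · apply Finset.sum_le_sum_of_subset_of_nonneg ?_ fun x _ _ => T_nonneg Z e x
    intro x hx
    rw [Finset.mem_biUnion] at hx
    obtain ⟨i, hi, hx⟩ := hx
    have := hI i hi
    exact DEG_sub hB0 (by omega) hx
  · intro i hi j hj hij
    rw [Function.onFun, Finset.disjoint_left]
    intro x hx hy
    rw [h3] at hx hy
    have h1 := hI i hi
    have h2 := hI j hj
    have h4 := hx.2
    have h5 := hy.2
    omega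

end XHB

open XHB in
theorem p_HB (F : Type) [Field F] [Fintype F] [CharP F 3] (hB0 : S_B0 F) : S_HB F := by
  intro g m e hm _ _
  have hq := one_le_qq F
  have hq0 := qq_nonneg F
  set S := TT1 F (g - m) e with hS
  have hS0 : 0 ≤ S := by
    rw [hS, TT1_eq]
    exact Finset.sum_nonneg fun x _ => T_nonneg _ e x
  have h1 : VT F g m e ≤ S := (VT_le hB0 hm e).trans (sum_DEG_le hB0 (by omega) e)
  have h2 : m + 2 < g → UU F (g - m) 2 e ≤ S := by
    intro h
    have h3 := (UU_le hB0 (Z := g - m) (i := 2) (by omega) e).trans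
      (sum_DEG_le hB0 (by omega) e)
    simpa using h3
  have h3 : ∑ i ∈ (Finset.range (g - m)).filter (fun i => 3 ≤ i),
      2 * qq F ^ ((i + 4) / 3 + 1) * UU F (g - m) i e ≤ 2 * qq F ^ 3 * S := by
    have h4 : ∑ i ∈ (Finset.range (g - m)).filter (fun i => 3 ≤ i),
        ∑ x ∈ DEG F (g - m - 1 - i), T (g - m) e x ≤ S := by
      apply sum_all_le hB0
      intro i hi
      rw [Finset.mem_filter, Finset.mem_range] at hi
      exact hi.1
    refine le_trans ?_ (mul_le_mul_of_nonneg_left h4 (by positivity))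
    rw [Finset.mul_sum]
    apply Finset.sum_le_sum
    intro i hi
    rw [Finset.mem_filter, Finset.mem_range] at hi
    have h5 := UU_le hB0 (Z := g - m) hi.1 e
    have h6 : qq F ^ ((i + 4) / 3 + 1) ≤ qq F ^ (3 + i / 3) :=
      pow_le_pow_right₀ hq (by omega)
    calc 2 * qq F ^ ((i + 4) / 3 + 1) * UU F (g - m) i e
        ≤ 2 * qq F ^ (3 + i / 3) * UU F (g - m) i e :=
          mul_le_mul_of_nonneg_right (mul_le_mul_of_nonneg_left h6 (by norm_num))
            (UU_nonneg _ _ e)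
      _ = 2 * qq F ^ 3 * (qq F ^ (i / 3) * UU F (g - m) i e) := by rw [pow_add]; ring
      _ ≤ 2 * qq F ^ 3 * ∑ x ∈ DEG F (g - m - 1 - i), T (g - m) e x :=
          mul_le_mul_of_nonneg_left h5 (by positivity)
  have h7 : qq F ^ 2 ≤ qq F ^ 3 := pow_le_pow_right₀ hq (by norm_num)
  have h8 : qq F ^ 2 * VT F g m e ≤ qq F ^ 3 * S :=
    (mul_le_mul_of_nonneg_left h1 (by positivity)).trans (mul_le_mul_of_nonneg_right h7 hS0)
  have h9 : (if m + 2 < g then 2 * qq F ^ 2 * UU F (g - m) 2 e else 0) ≤ 2 * qq F ^ 3 * S := by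
    split_ifs with h
    · calc 2 * qq F ^ 2 * UU F (g - m) 2 e ≤ 2 * qq F ^ 2 * S :=
            mul_le_mul_of_nonneg_left (h2 h) (by positivity)
        _ ≤ 2 * qq F ^ 3 * S :=
            mul_le_mul_of_nonneg_right (mul_le_mul_of_nonneg_left h7 (by norm_num)) hS0
    · positivity
  unfold HH
  linarith

end DH
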