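import Pool.Agent.H463.DH.Stm4

/-!
# IN (helper791): the behaviour at infinity of a pair of solutions
-/

open Polynomial
open scoped Classical

noncomputable section

namespace DH

namespace XIN

variable {F : Type} [Field F]

theorem der_Wr (v₁ v₂ : F[X]) : derivative (Wr v₁ v₂) =
    derivative (derivative v₁) * v₂ - v₁ * derivative (derivative v₂) := by
  unfold Wr
  rw [derivative_sub, derivative_mul, derivative_mul]
  ring

theorem ident (f v₁ v₂ : F[X]) (h1 : IsSol f v₁) (h2 : IsSol f v₂) :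
    2 * derivative f * Wr v₁ v₂ + f * derivative (Wr v₁ v₂) = Mo v₁ v₂ := by
  rw [der_Wr]
  unfold IsSol at h1 h2
  rw [derivative_mul, derivative_add, derivative_mul, derivative_mul] at h1 h2
  unfold Wr Mo
  linear_combination v₂ * h1 - v₁ * h2

theorem three [CharP F 3] : (3 : F) = 0 := by
  have : ((3 : ℕ) : F) = 0 := CharP.cast_eq_zero F 3
  exact_mod_cast this

/-- The coefficient of `2 f' W + f W'` at `2g + D`. -/
theorem top {f W : F[X]} {g D : ℕ} (hf : f.Monic) (hd : f.natDegree = 2 * g + 1)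
    (hW : W.natDegree ≤ D) :
    (2 * derivative f * W + f * derivative W).coeff (2 * g + D) =
      ((4 * g + 2 + D : ℕ) : F) * W.coeff D := by
  have hf1 : f.coeff (2 * g + 1) = 1 := by
    rw [← hd]
    exact hf
  have h1 : (derivative f * W).coeff (2 * g + D) = (2 * (g : F) + 1) * W.coeff D := by
    have h2 : (derivative f).natDegree ≤ 2 * g := by
      have := natDegree_derivative_le f
      omega
    rw [coeff_mul_add_eq_of_natDegree_le h2 hW, coeff_derivative, hf1]
    push_cast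
    ring
  have h2 : (f * derivative W).coeff (2 * g + D) = (D : F) * W.coeff D := by
    cases D with
    | zero =>
      have h0 : W.natDegree = 0 := by omega
      rw [eq_C_of_natDegree_eq_zero h0, derivative_C, mul_zero, coeff_zero]
      simp
    | succ D =>
      have h3 : (derivative W).natDegree ≤ D := by
        have := natDegree_derivative_le W
        omega
      have e : 2 * g + (D + 1) = (2 * g + 1) + D := by omega
      rw [e, coeff_mul_add_eq_of_natDegree_le hd.le h3, coeff_derivative, hf1]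
      push_cast
      ring
  have h3 : (2 * derivative f * W : F[X]) = C 2 * (derivative f * W) := by
    rw [C_ofNat, mul_assoc]
  rw [coeff_add, h2, h3, coeff_C_mul, h1]
  push_cast
  ring

/-- The top coefficient of the Wronskian. -/
theorem Wr_top {v u : F[X]} {m d : ℕ} (hv : v.natDegree ≤ m + 1) (hu : u.natDegree ≤ d) :
    (Wr v u).coeff (m + d) = ((m : F) + 1 - d) * v.coeff (m + 1) * u.coeff d ∧
      (Wr v u).natDegree ≤ m + d := by
  have hv' : (derivative v).natDegree ≤ m := by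
    have := natDegree_derivative_le v
    omega
  have h1 : (derivative v * u).coeff (m + d) = ((m : F) + 1) * v.coeff (m + 1) * u.coeff d := by
    rw [coeff_mul_add_eq_of_natDegree_le hv' hu, coeff_derivative]
    ring
  have h2 : (v * derivative u).coeff (m + d) = (d : F) * v.coeff (m + 1) * u.coeff d ∧
      (v * derivative u).natDegree ≤ m + d := by
    cases d with
    | zero =>
      have h0 : u.natDegree = 0 := by omega
      have h00 : derivative u = 0 := by rw [eq_C_of_natDegree_eq_zero h0, derivative_C]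
      rw [h00, mul_zero, coeff_zero, natDegree_zero]
      refine ⟨by simp, Nat.zero_le _⟩
    | succ d =>
      have h3 : (derivative u).natDegree ≤ d := by
        have := natDegree_derivative_le u
        omega
      have e : m + (d + 1) = (m + 1) + d := by omega
      rw [e]
      refine ⟨?_, natDegree_mul_le.trans (Nat.add_le_add hv h3)⟩
      rw [coeff_mul_add_eq_of_natDegree_le hv h3, coeff_derivative]
      push_cast
      ring
  unfold Wr
  refine ⟨?_, ?_⟩
  · rw [coeff_sub, h1, h2.1]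
    ring
  · refine (natDegree_sub_le _ _).trans (max_le ?_ h2.2)
    exact natDegree_mul_le.trans (Nat.add_le_add hv' hu)

theorem Mo_eq (v₁ v₂ : F[X]) : Mo v₁ v₂ = -(v₁ * v₂ * ((v₁ - v₂) * (v₁ + v₂))) := by
  unfold Mo
  ring

theorem degM {v₁ v₂ : F[X]} (h1 : v₁ ≠ 0) (h2 : v₂ ≠ 0) (hu : v₁ - v₂ ≠ 0) (hw : v₁ + v₂ ≠ 0) :
    (Mo v₁ v₂).natDegree = v₁.natDegree + v₂.natDegree +
      ((v₁ - v₂).natDegree + (v₁ + v₂).natDegree) := by
  rw [Mo_eq, natDegree_neg, natDegree_mul (mul_ne_zero h1 h2) (mul_ne_zero hu hw),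
    natDegree_mul h1 h2, natDegree_mul hu hw]

/-- The case `i ∈ {1, 2}`, `j = 0`. -/
theorem key [CharP F 3] {f v₁ v₂ : F[X]} {m i : ℕ} (hf : f.Monic)
    (hd : f.natDegree = 2 * (m + 2) + 1) (h1 : v₁ ≠ 0) (h2 : v₂ ≠ 0) (n1 : v₁.natDegree = m + 1)
    (n2 : v₂.natDegree = m + 1) (hu : v₁ - v₂ ≠ 0) (hw : v₁ + v₂ ≠ 0)
    (du : (v₁ - v₂).natDegree + i = m + 1) (dw : (v₁ + v₂).natDegree = m + 1)
    (s1 : IsSol f v₁) (s2 : IsSol f v₂) (hi : i = 1 ∨ i = 2) :
    i ≠ 1 ∧ 2 * (m + 2) ≤ (Wr v₁ v₂).natDegree + 5 := by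
  obtain ⟨d, hd'⟩ : ∃ d, d = (v₁ - v₂).natDegree := ⟨_, rfl⟩
  have hdi : d + i = m + 1 := by rw [hd']; exact du
  have hWu : Wr v₁ v₂ = - Wr v₁ (v₁ - v₂) := by
    unfold Wr
    rw [derivative_sub]
    ring
  obtain ⟨ht, hdeg⟩ := Wr_top (v := v₁) (u := v₁ - v₂) (m := m) (d := d) n1.le hd'.ge
  have h3 : (3 : F) = 0 := three
  have hc : (Wr v₁ v₂).coeff (m + d) ≠ 0 := by
    rw [hWu, coeff_neg, ht, neg_ne_zero]
    refine mul_ne_zero (mul_ne_zero ?_ ?_) ?_
    · have h4 : ((d + i : ℕ) : F) = ((m + 1 : ℕ) : F) := by rw [hdi]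
      push_cast at h4
      have h5 : (m : F) + 1 - d = i := by linear_combination -h4
      rw [h5]
      rcases hi with rfl | rfl
      · rw [Nat.cast_one]
        exact one_ne_zero
      · intro h6
        push_cast at h6
        exact one_ne_zero (by linear_combination h3 - h6)
    · rw [← n1]
      exact leadingCoeff_ne_zero.2 h1
    · rw [hd']
      exact leadingCoeff_ne_zero.2 hu
  have hge : m + d ≤ (Wr v₁ v₂).natDegree := le_natDegree_of_ne_zero hc
  have hle : (Wr v₁ v₂).natDegree ≤ m + d := by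
    rw [hWu, natDegree_neg]
    exact hdeg
  have hL := top (g := m + 2) hf hd hle
  rw [ident f v₁ v₂ s1 s2] at hL
  have hM0 : (Mo v₁ v₂).coeff (2 * (m + 2) + (m + d)) = 0 := by
    refine coeff_eq_zero_of_natDegree_lt ?_
    rw [degM h1 h2 hu hw, n1, n2, dw, ← hd']
    omega
  rw [hM0] at hL
  have hz : ((4 * (m + 2) + 2 + (m + d) : ℕ) : F) = 0 := (mul_eq_zero.1 hL.symm).resolve_right hc
  refine ⟨?_, by rcases hi with rfl | rfl <;> omega⟩
  rintro rfl
  have hdm : d = m := by omega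
  rw [hdm] at hz
  push_cast at hz
  exact one_ne_zero (α := F) (by linear_combination hz - (2 * (m : F) + 3) * h3)

theorem sol_neg {f v : F[X]} (h : IsSol f v) : IsSol f (-v) := by
  unfold IsSol at h ⊢
  rw [mul_neg, derivative_neg, derivative_neg, h]
  ring

theorem Wr_neg (v₁ v₂ : F[X]) : Wr v₁ (-v₂) = - Wr v₁ v₂ := by
  unfold Wr
  rw [derivative_neg]
  ring

theorem Wr_pm [CharP F 3] (v₁ v₂ : F[X]) : Wr (v₁ - v₂) (v₁ + v₂) = - Wr v₁ v₂ := by
  have h3 : (3 : F[X]) = 0 := by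
    have : ((3 : ℕ) : F[X]) = 0 := CharP.cast_eq_zero F[X] 3
    exact_mod_cast this
  unfold Wr
  rw [derivative_sub, derivative_add]
  linear_combination (derivative v₁ * v₂ - v₁ * derivative v₂) * h3

theorem Mo_pm [CharP F 3] (v₁ v₂ : F[X]) : Mo (v₁ - v₂) (v₁ + v₂) = - Mo v₁ v₂ := by
  have h3 : (3 : F[X]) = 0 := by
    have : ((3 : ℕ) : F[X]) = 0 := CharP.cast_eq_zero F[X] 3
    exact_mod_cast this
  unfold Mo
  linear_combination (v₁ ^ 3 * v₂ - v₁ * v₂ ^ 3) * h3

end XIN

open XIN in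
theorem p_IN (F : Type) [Field F] [Fintype F] [CharP F 3] (hB0 : S_B0 F) (hTR : S_TR F) :
    S_IN F := by
  intro g f v₁ v₂ hg hf hd hv1 hv2 hne hne' s1 s2
  obtain ⟨m, rfl⟩ : ∃ m, g = m + 2 := ⟨g - 2, by omega⟩
  have hD := hB0.2.2.1
  have hP := hB0.1
  rw [hD] at hv1 hv2
  obtain ⟨h1, n1⟩ := hv1
  obtain ⟨h2, n2⟩ := hv2
  have n1' : v₁.natDegree = m + 1 := by omega
  have n2' : v₂.natDegree = m + 1 := by omega
  have hu : v₁ - v₂ ≠ 0 := sub_ne_zero.2 hne
  have hw : v₁ + v₂ ≠ 0 := fun h => hne' (eq_neg_of_add_eq_zero_left h)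
  have du : (v₁ - v₂).natDegree ≤ m + 1 :=
    (natDegree_sub_le _ _).trans (max_le n1'.le n2'.le)
  have dw : (v₁ + v₂).natDegree ≤ m + 1 :=
    (natDegree_add_le _ _).trans (max_le n1'.le n2'.le)
  have h3 : (3 : F) = 0 := three
  have h3' : (3 : F[X]) = 0 := by
    have : ((3 : ℕ) : F[X]) = 0 := CharP.cast_eq_zero F[X] 3
    exact_mod_cast this
  obtain ⟨i, hi⟩ : ∃ i, (v₁ - v₂).natDegree + i = m + 1 := ⟨m + 1 - (v₁ - v₂).natDegree, by omega⟩
  obtain ⟨j, hj⟩ : ∃ j, (v₁ + v₂).natDegree + j = m + 1 := ⟨m + 1 - (v₁ + v₂).natDegree, by omega⟩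
  have hij : i = 0 ∨ j = 0 := by
    by_contra hcon
    have hi0 : i ≠ 0 := fun h => hcon (Or.inl h)
    have hj0 : j ≠ 0 := fun h => hcon (Or.inr h)
    have e : v₁ = -((v₁ - v₂) + (v₁ + v₂)) := by linear_combination v₁ * h3'
    have hle : v₁.natDegree ≤ m := by
      rw [e, natDegree_neg]
      exact (natDegree_add_le _ _).trans (max_le (by omega) (by omega))
    omega
  have hpol : ∀ v : F[X], v.natDegree = m + 1 → v ∈ POL F (m + 2) := by
    intro v hv
    rw [hP]
    refine lt_of_le_of_lt degree_le_natDegree ?_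
    rw [hv]
    exact_mod_cast Nat.lt_succ_self (m + 1)
  obtain ⟨-, -, hWd⟩ := hTR (m + 2) v₁ v₂ hg (hpol v₁ n1') (hpol v₂ n2')
  have hid := ident f v₁ v₂ s1 s2
  have hTop : TopR (m + 2) v₁ v₂ := by
    unfold TopR
    have hL := top (g := m + 2) hf hd hWd
    rw [hid] at hL
    have e1 : 2 * (m + 2) + (2 * (m + 2) - 4) = 4 * (m + 2) - 4 := by omega
    have e2 : 2 * (m + 2) - 4 = 2 * m := by omega
    rw [e1] at hL
    rw [hL, e2]
    push_cast
    linear_combination (-(2 * (m : F) + 3) * (Wr v₁ v₂).coeff (2 * m)) * h3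
  have hTop' : TopR (m + 2) (v₁ - v₂) (v₁ + v₂) := by
    unfold TopR at hTop ⊢
    rw [Wr_pm, Mo_pm, coeff_neg, coeff_neg, hTop]
  have hM := degM h1 h2 hu hw
  have hMle : (Mo v₁ v₂).natDegree ≤ 2 * (m + 2) + (Wr v₁ v₂).natDegree := by
    rw [← hid]
    refine (natDegree_add_le _ _).trans (max_le ?_ ?_)
    · refine natDegree_mul_le.trans (Nat.add_le_add_right ?_ _)
      have h4 : (2 * derivative f : F[X]) = C 2 * derivative f := by
        rw [C_ofNat]
      rw [h4]
      refine (natDegree_C_mul_le _ _).trans ((natDegree_derivative_le f).trans ?_)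
      omega
    · by_cases h0 : (Wr v₁ v₂).natDegree = 0
      · have : derivative (Wr v₁ v₂) = 0 := by
          rw [eq_C_of_natDegree_eq_zero h0, derivative_C]
        rw [this, mul_zero, natDegree_zero]
        exact Nat.zero_le _
      · refine natDegree_mul_le.trans ?_
        have := natDegree_derivative_le (Wr v₁ v₂)
        omega
  have hk1 : j = 0 → (i = 1 ∨ i = 2) → i ≠ 1 ∧ 2 * (m + 2) ≤ (Wr v₁ v₂).natDegree + 5 :=
    fun hj0 hi12 => key hf hd h1 h2 n1' n2' hu hw hi (by omega) s1 s2 hi12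
  have hk2 : i = 0 → (j = 1 ∨ j = 2) → j ≠ 1 ∧ 2 * (m + 2) ≤ (Wr v₁ v₂).natDegree + 5 := by
    intro hi0 hj12
    have h := key (f := f) (v₁ := v₁) (v₂ := -v₂) (m := m) (i := j) hf hd h1 (neg_ne_zero.2 h2) n1'
      (by rw [natDegree_neg]; exact n2') (by rw [sub_neg_eq_add]; exact hw)
      (by rw [← sub_eq_add_neg]; exact hu) (by rw [sub_neg_eq_add]; exact hj)
      (by rw [← sub_eq_add_neg]; omega) s1 (sol_neg s2) hj12
    rw [Wr_neg, natDegree_neg] at h
    exact h
  refine ⟨i, j, by omega, by omega, hij, by omega, hTop, hTop', ?_, ?_⟩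
  · intro h
    rcases hij with h0 | h0
    · exact (hk2 h0 (by omega)).1 (by omega)
    · exact (hk1 h0 (by omega)).1 (by omega)
  · intro h
    rcases hij with h0 | h0
    · exact (hk2 h0 (by omega)).2
    · exact (hk1 h0 (by omega)).2

end DH
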