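import Pool.Agent.H463.DH.Stm4

/-!
# KS (helper344 for helper463): two bounds for partial sums
-/

open Polynomial
open scoped Classical

noncomputable section

namespace DH

namespace XKS

lemma summ : Summable (fun m : ℕ => ((m : ℝ) + 1) ^ 7 / 3 ^ m) := by
  have h := summable_pow_mul_geometric_of_norm_lt_one (R := ℝ) 7 (r := 1 / 3) (by
    rw [Real.norm_of_nonneg (by norm_num)]
    norm_num)
  have h1 := ((summable_nat_add_iff 1).2 h).mul_left 3
  refine h1.congr fun m => ?_
  push_cast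
  rw [pow_succ (1 / 3 : ℝ) m, one_div, inv_pow]
  field_simp

lemma nonneg (m : ℕ) : (0 : ℝ) ≤ ((m : ℝ) + 1) ^ 7 / 3 ^ m := by positivity

end XKS

open XKS

theorem p_KS : S_KS := by
  have hK : ∀ s : Finset ℕ, ∑ m ∈ s, ((m : ℝ) + 1) ^ 7 / 3 ^ m ≤ K7 := fun s =>
    summ.sum_le_tsum s fun m _ => nonneg m
  refine ⟨?_, fun q hq M => ⟨?_, ?_⟩⟩
  · have h := hK {0}
    rw [Finset.sum_singleton] at h
    norm_num at h
    exact h
  · refine (Finset.sum_le_sum fun m _ => ?_).trans (hK (Finset.range M))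
    exact div_le_div_of_nonneg_left (by positivity) (by positivity)
      (pow_le_pow_left₀ (by norm_num) hq m)
  · have hq0 : 0 < q := by linarith
    have h1 : ∑ m ∈ (Finset.range M).filter (fun m => 1 ≤ m), ((m : ℝ) + 1) ^ 7 / q ^ m ≤
        ∑ m ∈ (Finset.range M).filter (fun m => 1 ≤ m), 3 / q * (((m : ℝ) + 1) ^ 7 / 3 ^ m) := by
      refine Finset.sum_le_sum fun m hm => ?_
      obtain ⟨n, rfl⟩ : ∃ n, m = n + 1 := ⟨m - 1, by
        have := (Finset.mem_filter.1 hm).2
        omega⟩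
      have h2 : q * 3 ^ n ≤ q ^ (n + 1) := by
        rw [pow_succ, mul_comm]
        exact mul_le_mul_of_nonneg_right (pow_le_pow_left₀ (by norm_num) hq n) hq0.le
      have h3 : 3 / q * ((((n + 1 : ℕ) : ℝ) + 1) ^ 7 / 3 ^ (n + 1)) =
          (((n + 1 : ℕ) : ℝ) + 1) ^ 7 / (q * 3 ^ n) := by
        rw [pow_succ (3 : ℝ) n]
        field_simp
      rw [h3]
      exact div_le_div_of_nonneg_left (by positivity) (by positivity) h2
    refine h1.trans ?_
    rw [← Finset.mul_sum]
    have h4 := mul_le_mul_of_nonneg_left (hK ((Finset.range M).filter (fun m => 1 ≤ m)))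
      (show (0 : ℝ) ≤ 3 / q by positivity)
    refine h4.trans (le_of_eq ?_)
    ring

end DH
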