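import Pool.Agent.H463.DH.Stm4

/-!
# The number of pairs of squarefree solutions (statement M6)
-/

open Polynomial
open scoped Classical

noncomputable section

namespace DH

namespace XM6

variable {F : Type} [Field F] [Fintype F] [CharP F 3]

omit [CharP F 3] in
lemma qq_ge_one : (1 : ℝ) ≤ qq F := by
  unfold qq
  have h : 0 < Fintype.card F := Fintype.card_pos
  exact_mod_cast h

omit [CharP F 3] in
lemma qq_pos : (0 : ℝ) < qq F := by
  unfold qq
  have h : 0 < Fintype.card F := Fintype.card_pos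
  exact_mod_cast h

omit [CharP F 3] in
lemma qn (n : ℕ) : (0 : ℝ) ≤ qq F ^ n := pow_nonneg (le_of_lt qq_pos) _

lemma three_eq_zero : (3 : F[X]) = 0 := by
  have h : ((3 : ℕ) : F[X]) = 0 := CharP.cast_eq_zero F[X] 3
  exact_mod_cast h

lemma two_ne_zero' : (2 : F[X]) ≠ 0 := by
  intro h
  have h3 := three_eq_zero (F := F)
  have h1 : (1 : F[X]) = 0 := by
    calc (1 : F[X]) = 3 - 2 := by ring
      _ = 0 := by rw [h3, h]; ring
  exact one_ne_zero h1

omit [Fintype F] [CharP F 3] in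
lemma Wr_mul (e x y : F[X]) : Wr (e * x) (e * y) = e ^ 2 * Wr x y := by
  unfold Wr
  rw [derivative_mul, derivative_mul]
  ring

omit [Fintype F] [CharP F 3] in
lemma Wr_sub_add (v₁ v₂ : F[X]) : Wr (v₁ - v₂) (v₁ + v₂) = 2 * Wr v₁ v₂ := by
  unfold Wr
  rw [derivative_sub, derivative_add]
  ring

omit [Fintype F] [CharP F 3] in
lemma Wr_swap (x y : F[X]) : Wr y x = - Wr x y := by
  unfold Wr
  ring

omit [Fintype F] [CharP F 3] in
lemma Cnd_swap {e x y : F[X]} (h : Cnd e x y) : Cnd e y x := by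
  obtain ⟨h1, h2, h3⟩ := h
  refine ⟨?_, ?_, fun P hP hPe hh => h3 P hP hPe ⟨hh.2, hh.1⟩⟩
  · rw [Wr_swap]; exact neg_ne_zero.mpr h1
  · rw [Wr_swap]; exact (dvd_neg).mpr h2

omit [Fintype F] [CharP F 3] in
lemma Wr_natDegree_le (v₁ v₂ : F[X]) : (Wr v₁ v₂).natDegree ≤ v₁.natDegree + v₂.natDegree := by
  unfold Wr
  refine (natDegree_sub_le _ _).trans ?_
  refine max_le ?_ ?_
  · refine natDegree_mul_le.trans ?_
    have h := natDegree_derivative_le v₁
    omega
  · refine natDegree_mul_le.trans ?_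
    have h := natDegree_derivative_le v₂
    omega

/-- the pair of `(e, x, y)` -/
def ph (e x y : F[X]) : F[X] × F[X] := (- (e * x + e * y), e * x - e * y)

/-- the pair of `(e, y, x)` -/
def ph' (e x y : F[X]) : F[X] × F[X] := (- (e * x + e * y), - (e * x - e * y))

/-- the weight -/
def wt (e x y : F[X]) : ℝ := qq F ^ ((cpart (e * x)).natDegree + (cpart (e * y)).natDegree)

omit [CharP F 3] in
lemma wt_nonneg (e x y : F[X]) : 0 ≤ wt e x y := qn _

/-- the number of common `f` -/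
def Nf (g : ℕ) (v₁ v₂ : F[X]) : ℝ :=
  (((MON F (2 * g + 1)).filter (fun f => IsSol f v₁ ∧ IsSol f v₂)).card : ℝ)

lemma key (hB0 : S_B0 F) (hG0 : S_G0 F) (hCP : S_CP F) (hM1 : S_M1 F) (hM2 : S_M2 F) (hM4 : S_M4 F)
    (hIN : S_IN F) (g : ℕ) (hg : 2 ≤ g) (v₁ v₂ f₀ : F[X]) (hv₁ : v₁ ∈ VV F (g - 1)) (hv₂ : v₂ ∈ VV F (g - 1))
    (hne : v₁ ≠ v₂) (hne' : v₁ ≠ - v₂) (hf₀ : f₀ ∈ MON F (2 * g + 1)) (hs₁ : IsSol f₀ v₁) (hs₂ : IsSol f₀ v₂) :
    (TopR g v₁ v₂ ∧ Nf g v₁ v₂ ≤ qq F ^ 2) ∨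
    ∃ m ∈ Finset.range g, ∃ e ∈ (MON F m).filter (fun e => Squarefree e),
      (∃ x ∈ DEG F (g - m - 1), ∃ y ∈ (DEG F (g - m - 1)).filter (fun y => Cnd e x y ∧ TopR g (e * x) (e * y) ∧
          1 ≤ m + (cpart (e * x)).natDegree + (cpart (e * y)).natDegree),
        ph e x y = (v₁, v₂) ∧ Nf g v₁ v₂ ≤ qq F ^ m * (qq F ^ 2 * wt e x y)) ∨
      (∃ i : ℕ, 2 ≤ i ∧ m + i < g ∧ ∃ x ∈ DEG F (g - m - 1 - i),
        ∃ y ∈ (DEG F (g - m - 1)).filter (fun y => Cnd e x y),
        (ph e x y = (v₁, v₂) ∨ ph' e x y = (v₁, v₂)) ∧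
          Nf g v₁ v₂ ≤ qq F ^ m * (qq F ^ (if i = 2 then 2 else (i + 4) / 3 + 1) * wt e x y)) := by
  obtain ⟨hB01, hB02, hB03, -, -, -⟩ := hB0
  unfold VV at hv₁ hv₂
  rw [Finset.mem_filter] at hv₁ hv₂
  obtain ⟨hv₁D, hv₁s⟩ := hv₁
  obtain ⟨hv₂D, hv₂s⟩ := hv₂
  have hv₁D' := hv₁D
  have hv₂D' := hv₂D
  rw [hB03] at hv₁D hv₂D
  obtain ⟨hv₁0, hv₁d⟩ := hv₁D
  obtain ⟨hv₂0, hv₂d⟩ := hv₂D
  rw [hB02] at hf₀
  obtain ⟨hfm, hfd⟩ := hf₀
  have hW : Wr v₁ v₂ ≠ 0 := by
    intro h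
    have h' : derivative v₁ * v₂ = v₁ * derivative v₂ := sub_eq_zero.mp h
    rcases hG0 f₀ v₁ v₂ hv₁0 hv₂0 hs₁ hs₂ h' with h1 | h1
    · exact hne h1
    · exact hne' h1
  obtain ⟨hcMo, -⟩ := hM1 g f₀ v₁ v₂ hfd hs₁ hs₂ hW
  obtain ⟨hcm, hcW, -⟩ := hCP.1 (Wr v₁ v₂) hW
  have hc0 : cpart (Wr v₁ v₂) ≠ 0 := hcm.ne_zero
  obtain ⟨e, x, y, hem, hes, hx, hy, heW, hP, hdeg⟩ := hM4 v₁ v₂ (cpart (Wr v₁ v₂)) hv₁s hv₂s hne hne' hc0 hcW hcMo
  obtain ⟨i, j, hi, hj, hij, hWl, hT1, hT2, hn1, hn2⟩ := hIN g f₀ v₁ v₂ hg hfm hfd hv₁D' hv₂D' hne hne' hs₁ hs₂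
  have he0 : e ≠ 0 := hem.ne_zero
  have hu0 : e * x ≠ 0 := by
    rw [← hx]
    exact sub_ne_zero.mpr hne
  have hw0 : e * y ≠ 0 := by
    rw [← hy]
    intro h
    apply hne'
    exact eq_neg_of_add_eq_zero_left h
  have hx0 : x ≠ 0 := right_ne_zero_of_mul hu0
  have hy0 : y ≠ 0 := right_ne_zero_of_mul hw0
  have hdu : (e * x).natDegree = e.natDegree + x.natDegree := natDegree_mul he0 hx0
  have hdw : (e * y).natDegree = e.natDegree + y.natDegree := natDegree_mul he0 hy0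
  have hWxy : Wr x y ≠ 0 := by
    intro h
    have h1 : Wr (v₁ - v₂) (v₁ + v₂) = 0 := by
      rw [hx, hy, Wr_mul, h, mul_zero]
    rw [Wr_sub_add] at h1
    rcases mul_eq_zero.mp h1 with h2 | h2
    · exact two_ne_zero' h2
    · exact hW h2
  have hWd : (Wr v₁ v₂).natDegree ≤ v₁.natDegree + v₂.natDegree := Wr_natDegree_le v₁ v₂
  have hcd : 3 * (cpart (Wr v₁ v₂)).natDegree ≤ (Wr v₁ v₂).natDegree := by
    have h := natDegree_le_of_dvd hcW hW
    rwa [natDegree_pow] at h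
  have hM2' := hM2 (2 * g + 1) v₁ v₂ (by omega) hW
  have h3 := three_eq_zero (F := F)
  have hN : Nf g v₁ v₂ ≤
      qq F ^ ((2 * g + 1 - 1 - ((Wr v₁ v₂).natDegree - 3 * (cpart (Wr v₁ v₂)).natDegree)) / 3 + 1) := by
    unfold Nf qq
    exact_mod_cast hM2'
  have hCnd : Cnd e x y := ⟨hWxy, heW, hP⟩
  have hp1 : ph e x y = (v₁, v₂) := by
    unfold ph
    rw [← hx, ← hy]
    refine Prod.ext ?_ ?_
    · show -(v₁ - v₂ + (v₁ + v₂)) = v₁
      linear_combination (- v₁) * h3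
    · show v₁ - v₂ - (v₁ + v₂) = v₂
      linear_combination (- v₂) * h3
  have hp2 : ph' e y x = (v₁, v₂) := by
    rw [← hp1]
    unfold ph ph'
    refine Prod.ext ?_ ?_
    · show -(e * y + e * x) = -(e * x + e * y)
      ring
    · show -(e * y - e * x) = e * x - e * y
      ring
  rw [hx] at hi
  rw [hy] at hj
  have hwts : wt e y x = wt e x y := by
    unfold wt
    rw [add_comm]
  by_cases h0 : i + j = 0
  · have hi0 : i = 0 := by omega
    have hj0 : j = 0 := by omega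
    by_cases hdc : (cpart (Wr v₁ v₂)).natDegree = 0
    · left
      refine ⟨hT1, hN.trans (pow_le_pow_right₀ qq_ge_one ?_)⟩
      omega
    · right
      refine ⟨e.natDegree, ?_, e, ?_, Or.inl ⟨x, ?_, y, ?_, hp1, ?_⟩⟩
      · rw [Finset.mem_range]; omega
      · rw [Finset.mem_filter, hB02]
        exact ⟨⟨hem, rfl⟩, hes⟩
      · rw [hB03]
        exact ⟨hx0, by omega⟩
      · rw [Finset.mem_filter, hB03]
        refine ⟨⟨hy0, by omega⟩, hCnd, ?_, by omega⟩
        rw [← hx, ← hy]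
        exact hT2
      · refine hN.trans ?_
        unfold wt
        rw [← pow_add, ← pow_add]
        refine pow_le_pow_right₀ qq_ge_one ?_
        omega
  · right
    refine ⟨e.natDegree, ?_, e, ?_, Or.inr ?_⟩
    · rw [Finset.mem_range]; omega
    · rw [Finset.mem_filter, hB02]
      exact ⟨⟨hem, rfl⟩, hes⟩
    · have hexp : (2 * g + 1 - 1 - ((Wr v₁ v₂).natDegree - 3 * (cpart (Wr v₁ v₂)).natDegree)) / 3 + 1 ≤
          e.natDegree + ((if i + j = 2 then 2 else (i + j + 4) / 3 + 1) +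
            ((cpart (e * x)).natDegree + (cpart (e * y)).natDegree)) := by
        by_cases h2 : i + j = 2
        · rw [if_pos h2]
          have := hn2 h2
          omega
        · rw [if_neg h2]
          omega
      have hNN : Nf g v₁ v₂ ≤
          qq F ^ e.natDegree * (qq F ^ (if i + j = 2 then 2 else (i + j + 4) / 3 + 1) * wt e x y) := by
        refine hN.trans ?_
        unfold wt
        rw [← pow_add, ← pow_add]
        exact pow_le_pow_right₀ qq_ge_one hexp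
      refine ⟨i + j, by omega, by omega, ?_⟩
      rcases hij with hi0 | hj0
      · -- `y` has the smaller degree
        refine ⟨y, ?_, x, ?_, Or.inr hp2, ?_⟩
        · rw [hB03]
          exact ⟨hy0, by omega⟩
        · rw [Finset.mem_filter, hB03]
          exact ⟨⟨hx0, by omega⟩, Cnd_swap hCnd⟩
        · rw [hwts]
          exact hNN
      · refine ⟨x, ?_, y, ?_, Or.inl hp1, hNN⟩
        · rw [hB03]
          exact ⟨hx0, by omega⟩
        · rw [Finset.mem_filter, hB03]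
          exact ⟨⟨hy0, by omega⟩, hCnd⟩

/-- picking a term -/
lemma pick (ψ : F[X] → F[X] → F[X] × F[X]) (p : F[X] × F[X]) (S : Finset F[X]) (T : F[X] → Finset F[X])
    (w : F[X] → F[X] → ℝ) (hw : ∀ x y, 0 ≤ w x y) (x : F[X]) (hx : x ∈ S) (y : F[X]) (hy : y ∈ T x)
    (hp : ψ x y = p) : w x y ≤ ∑ x ∈ S, ∑ y ∈ T x, if ψ x y = p then w x y else 0 := by
  have hnn : ∀ x y, 0 ≤ (if ψ x y = p then w x y else 0) := by
    intro x y
    split_ifs
    · exact hw x y
    · exact le_refl _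
  have h1 : w x y ≤ ∑ y ∈ T x, if ψ x y = p then w x y else 0 := by
    refine le_trans (le_of_eq ?_) (Finset.single_le_sum (f := fun y => if ψ x y = p then w x y else 0)
      (fun y _ => hnn x y) hy)
    simp only [hp, if_true]
  refine h1.trans ?_
  exact Finset.single_le_sum (f := fun x => ∑ y ∈ T x, if ψ x y = p then w x y else 0)
    (fun x _ => Finset.sum_nonneg (fun y _ => hnn x y)) hx

/-- swapping the sums -/
lemma swap (ψ : F[X] → F[X] → F[X] × F[X]) (E : Finset (F[X] × F[X])) (S : Finset F[X])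
    (T : F[X] → Finset F[X]) (w : F[X] → F[X] → ℝ) (hw : ∀ x y, 0 ≤ w x y) :
    ∑ p ∈ E, (∑ x ∈ S, ∑ y ∈ T x, if ψ x y = p then w x y else 0) ≤ ∑ x ∈ S, ∑ y ∈ T x, w x y := by
  rw [Finset.sum_comm]
  refine Finset.sum_le_sum (fun x _ => ?_)
  rw [Finset.sum_comm]
  refine Finset.sum_le_sum (fun y _ => ?_)
  rw [Finset.sum_ite_eq]
  split_ifs
  · exact le_refl _
  · exact hw x y

/-- the part of `VT` which belongs to `p` -/
def VTp (g m : ℕ) (e : F[X]) (p : F[X] × F[X]) : ℝ :=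
  ∑ x ∈ DEG F (g - m - 1), ∑ y ∈ (DEG F (g - m - 1)).filter (fun y => Cnd e x y ∧ TopR g (e * x) (e * y) ∧
    1 ≤ m + (cpart (e * x)).natDegree + (cpart (e * y)).natDegree),
    if ph e x y = p then wt e x y else 0

/-- the part of `UU` which belongs to `p` -/
def UUp (ψ : F[X] → F[X] → F[X] → F[X] × F[X]) (Z i : ℕ) (e : F[X]) (p : F[X] × F[X]) : ℝ :=
  ∑ x ∈ DEG F (Z - 1 - i), ∑ y ∈ (DEG F (Z - 1)).filter (fun y => Cnd e x y),
    if ψ e x y = p then wt e x y else 0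

omit [CharP F 3] in
lemma VTp_nonneg (g m : ℕ) (e : F[X]) (p : F[X] × F[X]) : 0 ≤ VTp g m e p := by
  unfold VTp
  refine Finset.sum_nonneg (fun x _ => Finset.sum_nonneg (fun y _ => ?_))
  split_ifs
  · exact wt_nonneg e x y
  · exact le_refl _

omit [CharP F 3] in
lemma UUp_nonneg (ψ : F[X] → F[X] → F[X] → F[X] × F[X]) (Z i : ℕ) (e : F[X]) (p : F[X] × F[X]) :
    0 ≤ UUp ψ Z i e p := by
  unfold UUp
  refine Finset.sum_nonneg (fun x _ => Finset.sum_nonneg (fun y _ => ?_))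
  split_ifs
  · exact wt_nonneg e x y
  · exact le_refl _

/-- the part of `HH` which belongs to `p` -/
def HHp (g m : ℕ) (e : F[X]) (p : F[X] × F[X]) : ℝ :=
  qq F ^ 2 * VTp g m e p +
    (if m + 2 < g then qq F ^ 2 * (UUp ph (g - m) 2 e p + UUp ph' (g - m) 2 e p) else 0) +
    ∑ i ∈ (Finset.range (g - m)).filter (fun i => 3 ≤ i),
      qq F ^ ((i + 4) / 3 + 1) * (UUp ph (g - m) i e p + UUp ph' (g - m) i e p)

lemma HHp_parts (g m : ℕ) (e : F[X]) (p : F[X] × F[X]) :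
    0 ≤ qq F ^ 2 * VTp g m e p ∧
    0 ≤ (if m + 2 < g then qq F ^ 2 * (UUp ph (g - m) 2 e p + UUp ph' (g - m) 2 e p) else 0) ∧
    0 ≤ ∑ i ∈ (Finset.range (g - m)).filter (fun i => 3 ≤ i),
      qq F ^ ((i + 4) / 3 + 1) * (UUp ph (g - m) i e p + UUp ph' (g - m) i e p) := by
  refine ⟨mul_nonneg (qn _) (VTp_nonneg _ _ _ _), ?_, ?_⟩
  · split_ifs
    · exact mul_nonneg (qn _) (add_nonneg (UUp_nonneg _ _ _ _ _) (UUp_nonneg _ _ _ _ _))
    · exact le_refl _
  · exact Finset.sum_nonneg (fun i _ => mul_nonneg (qn _)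
      (add_nonneg (UUp_nonneg _ _ _ _ _) (UUp_nonneg _ _ _ _ _)))

lemma HHp_nonneg (g m : ℕ) (e : F[X]) (p : F[X] × F[X]) : 0 ≤ HHp g m e p := by
  obtain ⟨h1, h2, h3⟩ := HHp_parts g m e p
  unfold HHp
  linarith

lemma sum_VTp (g m : ℕ) (e : F[X]) (E : Finset (F[X] × F[X])) :
    ∑ p ∈ E, VTp g m e p ≤ VT F g m e := by
  unfold VTp VT
  exact swap (fun x y => ph e x y) E _ _ (fun x y => wt e x y) (fun x y => wt_nonneg e x y)

lemma sum_UUp (ψ : F[X] → F[X] → F[X] → F[X] × F[X]) (Z i : ℕ) (e : F[X]) (E : Finset (F[X] × F[X])) :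
    ∑ p ∈ E, UUp ψ Z i e p ≤ UU F Z i e := by
  unfold UUp UU
  exact swap (fun x y => ψ e x y) E _ _ (fun x y => wt e x y) (fun x y => wt_nonneg e x y)

lemma sum_HHp (g m : ℕ) (e : F[X]) (E : Finset (F[X] × F[X])) :
    ∑ p ∈ E, HHp g m e p ≤ HH F g m e := by
  unfold HHp HH
  rw [Finset.sum_add_distrib, Finset.sum_add_distrib]
  refine add_le_add (add_le_add ?_ ?_) ?_
  · rw [← Finset.mul_sum]
    exact mul_le_mul_of_nonneg_left (sum_VTp g m e E) (qn _)
  · by_cases h : m + 2 < g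
    · simp only [if_pos h]
      rw [← Finset.mul_sum, Finset.sum_add_distrib]
      have h1 := sum_UUp ph (g - m) 2 e E
      have h2 := sum_UUp ph' (g - m) 2 e E
      have h3 := mul_le_mul_of_nonneg_left (add_le_add h1 h2) (qn (F := F) 2)
      linarith
    · simp only [if_neg h, Finset.sum_const_zero, le_refl]
  · rw [Finset.sum_comm]
    refine Finset.sum_le_sum (fun i _ => ?_)
    rw [← Finset.mul_sum, Finset.sum_add_distrib]
    have h1 := sum_UUp ph (g - m) i e E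
    have h2 := sum_UUp ph' (g - m) i e E
    have h3 := mul_le_mul_of_nonneg_left (add_le_add h1 h2) (qn (F := F) ((i + 4) / 3 + 1))
    linarith

/-- the number of the `f` for a pair -/
lemma Nf_le (hB0 : S_B0 F) (hG0 : S_G0 F) (hCP : S_CP F) (hM1 : S_M1 F) (hM2 : S_M2 F) (hM4 : S_M4 F)
    (hIN : S_IN F) (g : ℕ) (hg : 2 ≤ g) (p : F[X] × F[X]) (hv₁ : p.1 ∈ VV F (g - 1)) (hv₂ : p.2 ∈ VV F (g - 1))
    (hne : p.1 ≠ p.2) (hne' : p.1 ≠ - p.2) :
    Nf g p.1 p.2 ≤ (if TopR g p.1 p.2 then qq F ^ 2 else 0) +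
      ∑ m ∈ Finset.range g, ∑ e ∈ (MON F m).filter (fun e => Squarefree e), qq F ^ m * HHp g m e p := by
  have hS : 0 ≤ ∑ m ∈ Finset.range g, ∑ e ∈ (MON F m).filter (fun e => Squarefree e),
      qq F ^ m * HHp g m e p :=
    Finset.sum_nonneg (fun m _ => Finset.sum_nonneg (fun e _ => mul_nonneg (qn _) (HHp_nonneg _ _ _ _)))
  have hT : 0 ≤ (if TopR g p.1 p.2 then qq F ^ 2 else 0) := by
    split_ifs
    · exact qn _
    · exact le_refl _
  by_cases hex : ∃ f₀ ∈ MON F (2 * g + 1), IsSol f₀ p.1 ∧ IsSol f₀ p.2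
  · obtain ⟨f₀, hf₀, hs₁, hs₂⟩ := hex
    rcases key hB0 hG0 hCP hM1 hM2 hM4 hIN g hg p.1 p.2 f₀ hv₁ hv₂ hne hne' hf₀ hs₁ hs₂ with
      ⟨h1, h2⟩ | ⟨m, hm, e, he, h⟩
    · rw [if_pos h1]
      linarith
    · have hle : qq F ^ m * HHp g m e p ≤ ∑ m ∈ Finset.range g,
          ∑ e ∈ (MON F m).filter (fun e => Squarefree e), qq F ^ m * HHp g m e p := by
        have h1 := Finset.single_le_sum (f := fun e => qq F ^ m * HHp g m e p)
          (fun e _ => mul_nonneg (qn _) (HHp_nonneg _ _ _ _)) he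
        refine h1.trans ?_
        exact Finset.single_le_sum (f := fun m => ∑ e ∈ (MON F m).filter (fun e => Squarefree e),
          qq F ^ m * HHp g m e p)
          (fun m _ => Finset.sum_nonneg (fun e _ => mul_nonneg (qn _) (HHp_nonneg _ _ _ _))) hm
      obtain ⟨q1, q2, q3⟩ := HHp_parts g m e p
      have hH : Nf g p.1 p.2 ≤ qq F ^ m * HHp g m e p := by
        rcases h with ⟨x, hx, y, hy, hpe, hN⟩ | ⟨i, hi2, hig, x, hx, y, hy, hpe, hN⟩
        · refine hN.trans (mul_le_mul_of_nonneg_left ?_ (qn _))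
          have h1 : wt e x y ≤ VTp g m e p :=
            pick (fun x y => ph e x y) p _ _ (fun x y => wt e x y) (fun x y => wt_nonneg e x y) x hx y hy hpe
          have h2 := mul_le_mul_of_nonneg_left h1 (qn (F := F) 2)
          unfold HHp
          linarith
        · refine hN.trans (mul_le_mul_of_nonneg_left ?_ (qn _))
          have h1 : wt e x y ≤ UUp ph (g - m) i e p + UUp ph' (g - m) i e p := by
            rcases hpe with hpe | hpe
            · have h1 : wt e x y ≤ UUp ph (g - m) i e p :=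
                pick (fun x y => ph e x y) p _ _ (fun x y => wt e x y) (fun x y => wt_nonneg e x y) x hx y hy hpe
              have h2 := UUp_nonneg ph' (g - m) i e p
              linarith
            · have h1 : wt e x y ≤ UUp ph' (g - m) i e p :=
                pick (fun x y => ph' e x y) p _ _ (fun x y => wt e x y) (fun x y => wt_nonneg e x y) x hx y hy hpe
              have h2 := UUp_nonneg ph (g - m) i e p
              linarith
          by_cases h2 : i = 2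
          · subst h2
            rw [if_pos rfl]
            have h3 := mul_le_mul_of_nonneg_left h1 (qn (F := F) 2)
            unfold HHp
            rw [if_pos hig] at q2 ⊢
            linarith
          · rw [if_neg h2]
            have h3 := mul_le_mul_of_nonneg_left h1 (qn (F := F) ((i + 4) / 3 + 1))
            have h4 := Finset.single_le_sum (s := (Finset.range (g - m)).filter (fun i => 3 ≤ i))
              (f := fun i => qq F ^ ((i + 4) / 3 + 1) * (UUp ph (g - m) i e p + UUp ph' (g - m) i e p))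
              (fun i _ => mul_nonneg (qn _) (add_nonneg (UUp_nonneg _ _ _ _ _) (UUp_nonneg _ _ _ _ _)))
              (a := i) (by rw [Finset.mem_filter, Finset.mem_range]; omega)
            unfold HHp
            linarith
      linarith
  · have h0 : (MON F (2 * g + 1)).filter (fun f => IsSol f p.1 ∧ IsSol f p.2) = ∅ := by
      rw [Finset.filter_eq_empty_iff]
      intro f hf hs
      exact hex ⟨f, hf, hs⟩
    unfold Nf
    rw [h0, Finset.card_empty, Nat.cast_zero]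
    linarith

end XM6

open XM6 in
theorem p_M6 (F : Type) [Field F] [Fintype F] [CharP F 3] (hB0 : S_B0 F) (hG0 : S_G0 F)
    (hCP : S_CP F) (hM1 : S_M1 F) (hM2 : S_M2 F) (hM4 : S_M4 F) (hIN : S_IN F) (hMN : S_MN F) : S_M6 F := by
  intro g hg
  set E : Finset (F[X] × F[X]) := ((VV F (g - 1)) ×ˢ (VV F (g - 1))).filter
    (fun p => p.1 ≠ p.2 ∧ p.1 ≠ - p.2) with hE
  have h1 : ∑ f ∈ MON F (2 * g + 1), (PR F g f : ℝ) = ∑ p ∈ E, Nf g p.1 p.2 := by
    have h2 : ∀ f ∈ MON F (2 * g + 1), (PR F g f : ℝ) =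
        ∑ p ∈ E, if (IsSol f p.1 ∧ IsSol f p.2) then (1 : ℝ) else 0 := by
      intro f _
      unfold PR
      rw [Finset.sum_boole, hE, Finset.filter_filter]
      refine congrArg (fun s : Finset (F[X] × F[X]) => (s.card : ℝ)) (Finset.filter_congr ?_)
      intro p _
      constructor
      · rintro ⟨a, b, c, d⟩
        exact ⟨⟨c, d⟩, a, b⟩
      · rintro ⟨⟨c, d⟩, a, b⟩
        exact ⟨a, b, c, d⟩
    rw [Finset.sum_congr rfl h2, Finset.sum_comm]
    refine Finset.sum_congr rfl (fun p _ => ?_)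
    rw [Finset.sum_boole]
    rfl
  rw [h1]
  have h2 : ∑ p ∈ E, Nf g p.1 p.2 ≤ ∑ p ∈ E, ((if TopR g p.1 p.2 then qq F ^ 2 else 0) +
      ∑ m ∈ Finset.range g, ∑ e ∈ (MON F m).filter (fun e => Squarefree e), qq F ^ m * HHp g m e p) := by
    refine Finset.sum_le_sum (fun p hp => ?_)
    rw [hE, Finset.mem_filter, Finset.mem_product] at hp
    exact Nf_le hB0 hG0 hCP hM1 hM2 hM4 hIN g hg p hp.1.1 hp.1.2 hp.2.1 hp.2.2
  refine h2.trans ?_
  rw [Finset.sum_add_distrib]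
  refine add_le_add ?_ ?_
  · have h3 : ∑ p ∈ E, (if TopR g p.1 p.2 then qq F ^ 2 else 0) =
        ((E.filter (fun p => TopR g p.1 p.2)).card : ℝ) * qq F ^ 2 := by
      rw [← Finset.sum_filter, Finset.sum_const, nsmul_eq_mul]
    have h4 : (E.filter (fun p => TopR g p.1 p.2)).card ≤ Fintype.card F ^ (2 * g - 1) := by
      refine le_trans (Finset.card_le_card ?_) (hMN g hg)
      intro p hp
      rw [Finset.mem_filter, hE, Finset.mem_filter, Finset.mem_product] at hp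
      rw [Finset.mem_filter, Finset.mem_product]
      unfold VV at hp
      rw [Finset.mem_filter, Finset.mem_filter] at hp
      exact ⟨⟨hp.1.1.1.1, hp.1.1.2.1⟩, hp.2⟩
    have h5 : ((E.filter (fun p => TopR g p.1 p.2)).card : ℝ) ≤ qq F ^ (2 * g - 1) := by
      unfold qq
      exact_mod_cast h4
    rw [h3]
    refine (mul_le_mul_of_nonneg_right h5 (qn _)).trans (le_of_eq ?_)
    rw [← pow_add]
    refine congrArg (fun n => qq F ^ n) ?_
    omega
  · rw [Finset.sum_comm]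
    refine Finset.sum_le_sum (fun m _ => ?_)
    rw [Finset.sum_comm]
    refine Finset.sum_le_sum (fun e _ => ?_)
    rw [← Finset.mul_sum]
    exact mul_le_mul_of_nonneg_left (sum_HHp g m e E) (qn _)

end DH
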