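import Pool.Agent.H463.DH.Stm4

open Polynomial
open scoped Classical

noncomputable section

namespace DH

theorem p_MN (F : Type) [Field F] [Fintype F] [CharP F 3] (hB0 : S_B0 F) (hTR : S_TR F) : S_MN F := by
  obtain ⟨hPOL, hMON, hDEG, cPOL, cMON, cDEG⟩ := hB0
  intro g hg
  have hmem : ∀ v : F[X], v ∈ DEG F (g - 1) → v ∈ POL F g ∧ v.coeff (g - 1) ≠ 0 := by
    intro v hv
    obtain ⟨hv0, hvd⟩ := (hDEG (g - 1) v).1 hv
    constructor
    · rw [hPOL, Polynomial.degree_eq_natDegree hv0, hvd]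
      exact_mod_cast (by omega : g - 1 < g)
    · have : v.leadingCoeff ≠ 0 := Polynomial.leadingCoeff_ne_zero.2 hv0
      rwa [Polynomial.leadingCoeff, hvd] at this
  have hcard : ((POL F g) ×ˢ (Finset.univ : Finset (F × (Fin (g - 2) → F)))).card =
      Fintype.card F ^ (2 * g - 1) := by
    rw [Finset.card_product, cPOL, Finset.card_univ, Fintype.card_prod, Fintype.card_fun,
      Fintype.card_fin, ← pow_succ', ← pow_add]
    apply congrArg
    omega
  rw [← hcard]
  refine Finset.card_le_card_of_injOn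
    (fun p : F[X] × F[X] => (p.1, (p.2.coeff (g - 1), fun i : Fin (g - 2) => p.2.coeff (i : ℕ)))) ?_ ?_
  · rintro ⟨u, w⟩ hp
    have hp' := (Finset.mem_filter.1 (Finset.mem_coe.1 hp)).1
    have hu := (Finset.mem_product.1 hp').1
    exact Finset.mem_coe.2 (Finset.mem_product.2 ⟨(hmem u hu).1, Finset.mem_univ _⟩)
  · rintro ⟨u, w⟩ hp ⟨u', w'⟩ hp' he
    obtain ⟨hp1, hp2⟩ := Finset.mem_filter.1 (Finset.mem_coe.1 hp)
    obtain ⟨hp1', hp2'⟩ := Finset.mem_filter.1 (Finset.mem_coe.1 hp')
    have hu := (Finset.mem_product.1 hp1).1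
    have hw := (Finset.mem_product.1 hp1).2
    have hw' := (Finset.mem_product.1 hp1').2
    have e1 : u = u' := congrArg (fun t => t.1) he
    subst e1
    have e2 : w.coeff (g - 1) = w'.coeff (g - 1) := congrArg (fun t => t.2.1) he
    have e3 : ∀ i : Fin (g - 2), w.coeff (i : ℕ) = w'.coeff (i : ℕ) := fun i =>
      congrFun (congrArg (fun t => t.2.2) he) i
    have hu0 := (hmem u hu).2
    obtain ⟨t1, t2, -⟩ := hTR g u w hg (hmem u hu).1 (hmem w hw).1
    obtain ⟨t1', t2', -⟩ := hTR g u w' hg (hmem u hu).1 (hmem w' hw').1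
    have k1 : (Wr u w).coeff (2 * g - 4) = (Mo u w).coeff (4 * g - 4) := hp2
    have k2 : (Wr u w').coeff (2 * g - 4) = (Mo u w').coeff (4 * g - 4) := hp2'
    rw [t1, t2] at k1
    rw [t1', t2', ← e2] at k2
    have e4 : w.coeff (g - 2) = w'.coeff (g - 2) := by
      apply mul_left_cancel₀ hu0
      linear_combination k1 - k2
    have e5 : w = w' := by
      ext i
      by_cases h1 : i < g - 2
      · exact e3 ⟨i, h1⟩
      · by_cases h2 : i = g - 2
        · rw [h2, e4]
        · by_cases h3 : i = g - 1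
          · rw [h3, e2]
          · have d1 := (hPOL g w).1 (hmem w hw).1
            have d2 := (hPOL g w').1 (hmem w' hw').1
            have hi : (g : WithBot ℕ) ≤ (i : WithBot ℕ) := by exact_mod_cast (by omega : g ≤ i)
            rw [Polynomial.coeff_eq_zero_of_degree_lt (lt_of_lt_of_le d1 hi),
              Polynomial.coeff_eq_zero_of_degree_lt (lt_of_lt_of_le d2 hi)]
    rw [e5]

end DH
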