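import Pool.Agent.H463.DH.Stm4

/-! # DH RX: the proportion `7/16 - K/q` -/

open Polynomial
open scoped Classical

noncomputable section

namespace DH

namespace XRX

theorem lim_aux {q C δ : ℝ} (hq : 1 < q) (hδ : 0 < δ) :
    ∃ g₀ : ℕ, ∀ g ≥ g₀, C * ((g : ℝ) + 1) ^ 3 / q ^ (g / 4) ≤ δ := by
  have hq0 : 0 < q := by linarith
  have hr : |1 / q| < 1 := by
    rw [abs_of_pos (by positivity), div_lt_one hq0]
    exact hq
  have h1 := tendsto_pow_const_mul_const_pow_of_abs_lt_one 3 hr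
  have h2 : Filter.Tendsto (fun m : ℕ => |C| * 64 * q * ((m : ℝ) ^ 3 * (1 / q) ^ m))
      Filter.atTop (nhds 0) := by
    have := h1.const_mul (|C| * 64 * q)
    rwa [mul_zero] at this
  obtain ⟨m0, hm0⟩ := Filter.eventually_atTop.1 ((tendsto_order.1 h2).2 δ hδ)
  refine ⟨4 * m0, fun g hg => ?_⟩
  have hm : m0 ≤ g / 4 + 1 := by omega
  have h3 := (hm0 _ hm).le
  have h4 : (g : ℝ) + 1 ≤ 4 * ((g / 4 + 1 : ℕ) : ℝ) := by
    have : g + 1 ≤ 4 * (g / 4 + 1) := by omega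
    exact_mod_cast this
  have h5 : ((g : ℝ) + 1) ^ 3 ≤ 64 * ((g / 4 + 1 : ℕ) : ℝ) ^ 3 := by
    calc ((g : ℝ) + 1) ^ 3 ≤ (4 * ((g / 4 + 1 : ℕ) : ℝ)) ^ 3 :=
          pow_le_pow_left₀ (by positivity) h4 3
      _ = _ := by ring
  have hqp : 0 < q ^ (g / 4) := by positivity
  calc C * ((g : ℝ) + 1) ^ 3 / q ^ (g / 4)
      ≤ |C| * (64 * ((g / 4 + 1 : ℕ) : ℝ) ^ 3) / q ^ (g / 4) := by
        apply div_le_div_of_nonneg_right _ hqp.le
        exact mul_le_mul (le_abs_self C) h5 (by positivity) (abs_nonneg C)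
    _ = |C| * 64 * q * (((g / 4 + 1 : ℕ) : ℝ) ^ 3 * (1 / q) ^ (g / 4 + 1)) := by
        rw [one_div, inv_pow, pow_succ]
        field_simp
        ring
    _ ≤ δ := h3

/-- The pointwise inequality. -/
theorem point {X P z : ℕ} (hXz : X ≤ z) (hP : X * X ≤ P + X + X) (hr : ∃ r : ℕ, z + 1 = 3 ^ r) :
    (X : ℝ) ≤ (if 0 < z then (1 : ℝ) else 0) + (1 / 16) * (P : ℝ) + (1 / 2) * (z : ℝ) := by
  have hPR : (X : ℝ) * X ≤ P + X + X := by exact_mod_cast hP
  have hXzR : (X : ℝ) ≤ z := by exact_mod_cast hXz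
  have hP0 : (0 : ℝ) ≤ P := Nat.cast_nonneg _
  have hX0 : (0 : ℝ) ≤ X := Nat.cast_nonneg _
  obtain ⟨r, hr⟩ := hr
  rcases r with _ | _ | r
  · rw [pow_zero] at hr
    have hz : z = 0 := by omega
    subst hz
    rw [if_neg (lt_irrefl 0)]
    have : (X : ℝ) ≤ 0 := by simpa using hXzR
    simp only [Nat.cast_zero, mul_zero, add_zero, zero_add]
    linarith
  · rw [zero_add, pow_one] at hr
    have hz : z = 2 := by omega
    subst hz
    rw [if_pos (by norm_num)]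
    push_cast at hXzR ⊢
    linarith
  · have h9 : 9 ≤ z + 1 := by
      rw [hr, pow_succ, pow_succ]
      have : 1 ≤ 3 ^ r := Nat.one_le_pow _ _ (by norm_num)
      omega
    have hz8 : (8 : ℝ) ≤ z := by
      have : 8 ≤ z := by omega
      exact_mod_cast this
    rw [if_pos (by omega)]
    rcases le_total X 8 with h | h
    · have hX8 : (X : ℝ) ≤ 8 := by exact_mod_cast h
      nlinarith [mul_nonneg (sub_nonneg.2 hX8) (by linarith : (0 : ℝ) ≤ 10 - X)]
    · have hX8 : (8 : ℝ) ≤ X := by exact_mod_cast h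
      nlinarith [mul_nonneg (sub_nonneg.2 hX8) (by linarith : (0 : ℝ) ≤ (X : ℝ) - 2)]

variable (F : Type) [Field F] [Fintype F] [CharP F 3]

theorem sq_le (g : ℕ) (f : F[X]) :
    XX F g f * XX F g f ≤ PR F g f + XX F g f + XX F g f := by
  unfold XX PR
  set A := (VV F (g - 1)).filter (fun v => IsSol f v) with hA
  set B := ((VV F (g - 1)) ×ˢ (VV F (g - 1))).filter
    (fun p => IsSol f p.1 ∧ IsSol f p.2 ∧ p.1 ≠ p.2 ∧ p.1 ≠ - p.2) with hB
  have hsub : A ×ˢ A ⊆ (B ∪ A.image (fun v => (v, v))) ∪ A.image (fun v => (v, -v)) := by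
    intro p hp
    rw [Finset.mem_product] at hp
    obtain ⟨h1, h2⟩ := hp
    have h1' := h1
    have h2' := h2
    rw [hA, Finset.mem_filter] at h1' h2'
    rw [Finset.mem_union, Finset.mem_union]
    by_cases e1 : p.1 = p.2
    · left
      right
      rw [Finset.mem_image]
      exact ⟨p.1, h1, Prod.ext rfl e1⟩
    · by_cases e2 : p.1 = -p.2
      · right
        rw [Finset.mem_image]
        refine ⟨p.1, h1, Prod.ext rfl ?_⟩
        show -p.1 = p.2
        rw [e2, neg_neg]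
      · left
        left
        rw [hB, Finset.mem_filter, Finset.mem_product]
        exact ⟨⟨h1'.1, h2'.1⟩, h1'.2, h2'.2, e1, e2⟩
  calc A.card * A.card = (A ×ˢ A).card := (Finset.card_product A A).symm
    _ ≤ ((B ∪ A.image (fun v => (v, v))) ∪ A.image (fun v => (v, -v))).card :=
        Finset.card_le_card hsub
    _ ≤ (B ∪ A.image (fun v => (v, v))).card + (A.image (fun v => (v, -v))).card :=
        Finset.card_union_le _ _
    _ ≤ (B.card + (A.image (fun v => (v, v))).card) + (A.image (fun v => (v, -v))).card :=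
        Nat.add_le_add_right (Finset.card_union_le _ _) _
    _ ≤ B.card + A.card + A.card :=
        Nat.add_le_add (Nat.add_le_add_left Finset.card_image_le _) Finset.card_image_le

theorem XX_le (hB0 : S_B0 F) (hB1 : S_B1 F) (g : ℕ) (f : F[X]) : XX F g f ≤ (solz f).card := by
  obtain ⟨_, _, hDEG, _, _, _⟩ := hB0
  obtain ⟨_, _, _, _, _, _, hsolz, _, _⟩ := hB1
  unfold XX
  apply Finset.card_le_card
  intro v hv
  rw [Finset.mem_filter] at hv
  obtain ⟨h1, h2⟩ := hv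
  unfold VV at h1
  rw [Finset.mem_filter, hDEG] at h1
  exact (hsolz f v).2 ⟨h1.1.1, h2⟩

theorem good_of_mem (hB0 : S_B0 F) {g : ℕ} {f : F[X]} (hf : f ∈ SQF F (2 * g + 1)) : Good f := by
  unfold SQF at hf
  rw [Finset.mem_filter] at hf
  obtain ⟨hm, hs⟩ := hf
  obtain ⟨_, hMON, _, _, _, _⟩ := hB0
  obtain ⟨h1, h2⟩ := (hMON _ f).1 hm
  exact ⟨h1, hs, h2 ▸ odd_two_mul_add_one g⟩

theorem cl3_eq (hA9 : S_A9 F) (hB0 : S_B0 F) (hB1 : S_B1 F) {g : ℕ} {f : F[X]}
    (hf : f ∈ SQF F (2 * g + 1)) : cl3 f = (solz f).card + 1 := by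
  rw [hA9 f (good_of_mem F hB0 hf)]
  obtain ⟨_, _, _, _, _, _, _, h8, _⟩ := hB1
  exact h8 f

theorem one_lt_qq : 1 < qq F := by
  unfold qq
  have := Fintype.one_lt_card (α := F)
  exact_mod_cast this

end XRX

theorem p_RX (F : Type) [Field F] [Fintype F] [CharP F 3] (hB0 : S_B0 F) (hB1 : S_B1 F)
    (hA9 : S_A9 F) (hC2 : S_C2 F) (hF9 : S_F9 F) (hF5 : S_F5 F) (hPQ : S_PQ F) (hSM : S_SM F)
    (hKS : S_KS) : S_RX F := by
  have hq1 := XRX.one_lt_qq F
  have hq0 : 0 < qq F := by linarith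
  have hK : 1 ≤ K7 := hKS.1
  obtain ⟨Cst, hC0, hC⟩ := hF9
  obtain ⟨g1, hPQ⟩ := hPQ
  obtain ⟨g2, hSM⟩ := hSM
  obtain ⟨g3, hg3⟩ := XRX.lim_aux (C := Cst) hq1 (show (0 : ℝ) < 1 / qq F by positivity)
  refine ⟨max (max g1 g2) (max g3 1), fun g hg => ?_⟩
  have hg1 : g1 ≤ g := le_trans (le_trans (le_max_left _ _) (le_max_left _ _)) hg
  have hg2 : g2 ≤ g := le_trans (le_trans (le_max_right _ _) (le_max_left _ _)) hg
  have hg3' : g3 ≤ g := le_trans (le_trans (le_max_left _ _) (le_max_right _ _)) hg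
  have hg4 : 1 ≤ g := le_trans (le_trans (le_max_right _ _) (le_max_right _ _)) hg
  have hPQ := hPQ g hg1
  have hSM := hSM g hg2
  have herr := hg3 g hg3'
  set S := SQF F (2 * g + 1) with hS
  set Q := qq F ^ (2 * g + 1) with hQ
  have hQ0 : 0 < Q := by positivity
  have hQq : qq F ^ (2 * g) = Q / qq F := by
    rw [hQ, pow_succ]
    field_simp
  -- the number of squarefree polynomials
  have hcard : (S.card : ℝ) = Q - Q / qq F := by
    rw [hS, hF5.2 g hg4, hQq]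
  have hQq0 : 0 < Q / qq F := by positivity
  have hcardQ : (S.card : ℝ) ≤ Q := by linarith
  -- the sum of z
  have hz : ∑ f ∈ S, ((solz f).card : ℝ) ≤ Q := by
    have h1 := (abs_le.1 (hC g)).2
    rw [Finset.sum_sub_distrib, Finset.sum_const, nsmul_eq_mul, mul_one] at h1
    have h2 : Cst * (g + 1) ^ 3 * qq F ^ (2 * g + 1) / qq F ^ (g / 4) ≤ Q / qq F := by
      calc Cst * (g + 1) ^ 3 * qq F ^ (2 * g + 1) / qq F ^ (g / 4)
          = (Cst * ((g : ℝ) + 1) ^ 3 / qq F ^ (g / 4)) * Q := by rw [hQ]; ring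
        _ ≤ (1 / qq F) * Q := mul_le_mul_of_nonneg_right herr hQ0.le
        _ = Q / qq F := by ring
    linarith
  -- the sum of PR
  have hPR : ∑ f ∈ S, (PR F g f : ℝ) ≤ Q + 150 * K7 * (Q / qq F) := by
    rw [← hQq]
    refine le_trans ?_ hSM
    apply Finset.sum_le_sum_of_subset_of_nonneg
    · rw [hS]
      unfold SQF
      exact Finset.filter_subset _ _
    · intro f _ _
      exact Nat.cast_nonneg _
  -- pointwise
  have hpt : ∀ f ∈ S, (XX F g f : ℝ) ≤ (if 1 < cl3 f then (1 : ℝ) else 0) +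
      (1 / 16) * (PR F g f : ℝ) + (1 / 2) * ((solz f).card : ℝ) := by
    intro f hf
    have e := XRX.cl3_eq F hA9 hB0 hB1 hf
    obtain ⟨r, hr⟩ := (hC2 f (XRX.good_of_mem F hB0 hf)).2.2
    have h1 := XRX.point (XRX.XX_le F hB0 hB1 g f) (XRX.sq_le F g f) ⟨r, by rw [← e, hr]⟩
    have h2 : (if 0 < (solz f).card then (1 : ℝ) else 0) = (if 1 < cl3 f then (1 : ℝ) else 0) := by
      by_cases h : 0 < (solz f).card
      · rw [if_pos h, if_pos (by omega)]
      · rw [if_neg h, if_neg (by omega)]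
    rw [h2] at h1
    exact h1
  have hsum : ∑ f ∈ S, (XX F g f : ℝ) ≤ ((S.filter (fun f => 1 < cl3 f)).card : ℝ) +
      (1 / 16) * ∑ f ∈ S, (PR F g f : ℝ) + (1 / 2) * ∑ f ∈ S, ((solz f).card : ℝ) := by
    refine le_trans (Finset.sum_le_sum hpt) ?_
    rw [Finset.sum_add_distrib, Finset.sum_add_distrib, ← Finset.mul_sum, ← Finset.mul_sum,
      Finset.sum_ite, Finset.sum_const_zero, add_zero, Finset.sum_const, nsmul_eq_mul, mul_one]
  set N := ((S.filter (fun f => 1 < cl3 f)).card : ℝ) with hN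
  have hN0 : 0 ≤ N := Nat.cast_nonneg _
  have hmain : (7 / 16 - 20 * K7 / qq F) * Q ≤ N := by
    have e1 : (7 / 16 - 20 * K7 / qq F) * Q = 7 / 16 * Q - 20 * (K7 * (Q / qq F)) := by ring
    have e2 : (1 - 6 / qq F) * Q = Q - 6 * (Q / qq F) := by ring
    rw [e1]
    rw [e2] at hPQ
    have e3 : Q / qq F ≤ K7 * (Q / qq F) := by nlinarith
    have e4 : 150 * K7 * (Q / qq F) = 150 * (K7 * (Q / qq F)) := by ring
    rw [e4] at hPR
    have e5 : 0 ≤ K7 * (Q / qq F) := by positivity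
    linarith
  rcases le_total 0 (7 / 16 - 20 * K7 / qq F) with h | h
  · exact le_trans (mul_le_mul_of_nonneg_left hcardQ h) hmain
  · exact le_trans (mul_nonpos_of_nonpos_of_nonneg h (Nat.cast_nonneg _)) hN0

end DH
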