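import Pool.Agent.H463.DH.Stm4

/-!
# The second moment bound (helper93 for helper463)
-/

open Polynomial
open scoped Classical

noncomputable section

namespace DH

namespace XSM

theorem q_ge3 (F : Type) [Field F] [Fintype F] [CharP F 3] : (3 : ℝ) ≤ qq F := by
  unfold qq
  obtain ⟨n, _, hn⟩ := FiniteField.card F 3
  rw [hn]
  have h : 3 ^ 1 ≤ 3 ^ (n : ℕ) := Nat.pow_le_pow_right (by norm_num) n.pos
  exact_mod_cast h

variable (F : Type) [Field F] [Fintype F]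

omit [Field F] in
theorem pw (hq1 : 1 ≤ qq F) (g m : ℕ) (h10 : 10 * m ≤ g) :
    qq F ^ (2 * m) * qq F ^ (g + 2 * g / 3) ≤ qq F ^ (2 * g) * qq F ^ (-((g : ℝ) / 20)) := by
  have hq0 : 0 < qq F := by linarith
  have n3 : qq F ^ (2 * g) = qq F ^ (2 * (g : ℝ)) := by
    rw [← Real.rpow_natCast]
    push_cast
    rfl
  have h10' : 10 * (m : ℝ) ≤ g := by exact_mod_cast h10
  have hg0 : (0 : ℝ) ≤ g := Nat.cast_nonneg g
  rw [← pow_add, n3, ← Real.rpow_add hq0, ← Real.rpow_natCast]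
  refine Real.rpow_le_rpow_of_exponent_le hq1 ?_
  have h5 : ((2 * g / 3 : ℕ) : ℝ) ≤ 2 * (g : ℝ) / 3 := by
    have := Nat.cast_div_le (α := ℝ) (m := 2 * g) (n := 3)
    push_cast at this
    exact this
  push_cast
  linarith

/-- large `m` -/
theorem large (hq : 3 ≤ qq F) (C₁ : ℝ) (hC₁ : 0 < C₁) (g m : ℕ) (hm : m < g) (h10 : g ≤ 10 * m)
    (h : ∑ e ∈ (MON F m).filter (fun e => Squarefree e), TT1 F (g - m) e ≤
      C₁ * (g + 1) ^ 4 * qq F ^ (2 * (g - m)) * qq F ^ (2 * (1 / 40 : ℝ) * (g : ℝ)))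
    (hH : ∀ e ∈ (MON F m).filter (fun e => Squarefree e), HH F g m e ≤ 5 * qq F ^ 3 * TT1 F (g - m) e) :
    ∑ e ∈ (MON F m).filter (fun e => Squarefree e), qq F ^ m * HH F g m e ≤
      5 * qq F ^ 3 * C₁ * ((g : ℝ) + 1) ^ 8 * (qq F ^ (2 * g) * qq F ^ (-((g : ℝ) / 20))) := by
  have hq0 : 0 < qq F := by linarith
  have hq1 : 1 ≤ qq F := by linarith
  have h10' : (g : ℝ) ≤ 10 * m := by exact_mod_cast h10
  have hg0 : (0 : ℝ) ≤ g := Nat.cast_nonneg g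
  have key : qq F ^ m * (qq F ^ (2 * (g - m)) * qq F ^ (2 * (1 / 40 : ℝ) * (g : ℝ))) ≤
      qq F ^ (2 * g) * qq F ^ (-((g : ℝ) / 20)) := by
    have e : qq F ^ (2 * (g - m)) = qq F ^ (2 * ((g : ℝ) - m)) := by
      rw [← Real.rpow_natCast]
      push_cast [Nat.cast_sub hm.le]
      rfl
    have e2 : qq F ^ (2 * g) = qq F ^ (2 * (g : ℝ)) := by
      rw [← Real.rpow_natCast]
      push_cast
      rfl
    rw [e, e2, ← Real.rpow_natCast (qq F) m, ← Real.rpow_add hq0, ← Real.rpow_add hq0,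
      ← Real.rpow_add hq0]
    refine Real.rpow_le_rpow_of_exponent_le hq1 ?_
    linarith
  have hp : ((g : ℝ) + 1) ^ 4 ≤ ((g : ℝ) + 1) ^ 8 := pow_le_pow_right₀ (by linarith) (by norm_num)
  obtain ⟨X, hX⟩ : ∃ X, X = qq F ^ (2 * g) * qq F ^ (-((g : ℝ) / 20)) := ⟨_, rfl⟩
  have hX0 : 0 ≤ X := by rw [hX]; positivity
  rw [← hX] at key ⊢
  calc ∑ e ∈ (MON F m).filter (fun e => Squarefree e), qq F ^ m * HH F g m e
      ≤ ∑ e ∈ (MON F m).filter (fun e => Squarefree e), qq F ^ m * (5 * qq F ^ 3 * TT1 F (g - m) e) := by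
        refine Finset.sum_le_sum fun e he => ?_
        exact mul_le_mul_of_nonneg_left (hH e he) (by positivity)
    _ = qq F ^ m * (5 * qq F ^ 3) * ∑ e ∈ (MON F m).filter (fun e => Squarefree e), TT1 F (g - m) e := by
        rw [Finset.mul_sum]
        refine Finset.sum_congr rfl fun e _ => ?_
        ring
    _ ≤ qq F ^ m * (5 * qq F ^ 3) *
        (C₁ * (g + 1) ^ 4 * qq F ^ (2 * (g - m)) * qq F ^ (2 * (1 / 40 : ℝ) * (g : ℝ))) :=
        mul_le_mul_of_nonneg_left h (by positivity)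
    _ = 5 * qq F ^ 3 * C₁ * ((g : ℝ) + 1) ^ 4 *
        (qq F ^ m * (qq F ^ (2 * (g - m)) * qq F ^ (2 * (1 / 40 : ℝ) * (g : ℝ)))) := by ring
    _ ≤ 5 * qq F ^ 3 * C₁ * ((g : ℝ) + 1) ^ 8 * X := by gcongr

/-- small `m ≥ 1` -/
theorem small (hq : 3 ≤ qq F) (g m : ℕ) (h10 : 10 * m < g)
    (hT : ∑ e ∈ (MON F m).filter (fun e => Squarefree e), (tau e : ℝ) ^ 3 ≤ ((m : ℝ) + 1) ^ 7 * qq F ^ m)
    (hH : ∀ e ∈ (MON F m).filter (fun e => Squarefree e), HH F g m e ≤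
      qq F ^ 2 * VT F g m e + 54 * (tau e : ℝ) ^ 3 * qq F ^ (2 * (g - m)) / qq F ^ m +
        36 * g * (tau e : ℝ) ^ 2 * qq F ^ (g + 2 * g / 3))
    (hV : ∀ e ∈ (MON F m).filter (fun e => Squarefree e), VT F g m e ≤
      9 * (tau e : ℝ) ^ 3 * qq F ^ (2 * (g - m)) / qq F ^ (m + 1) +
      12 * g * (tau e : ℝ) ^ 2 * qq F ^ (g + 2 * g / 3 + 2)) :
    ∑ e ∈ (MON F m).filter (fun e => Squarefree e), qq F ^ m * HH F g m e ≤
      qq F ^ (2 * g) * ((9 * qq F + 54) * (((m : ℝ) + 1) ^ 7 / qq F ^ m)) +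
        48 * qq F ^ 4 * ((g : ℝ) + 1) ^ 8 * (qq F ^ (2 * g) * qq F ^ (-((g : ℝ) / 20))) := by
  have hq0 : 0 < qq F := by linarith
  have hq1 : 1 ≤ qq F := by linarith
  have hg0 : (0 : ℝ) ≤ g := Nat.cast_nonneg g
  have hpw := pw F hq1 g m h10.le
  obtain ⟨X, hX⟩ : ∃ X, X = qq F ^ (2 * g) * qq F ^ (-((g : ℝ) / 20)) := ⟨_, rfl⟩
  have hX0 : 0 ≤ X := by rw [hX]; positivity
  rw [← hX] at hpw ⊢
  have eP : qq F ^ (2 * (g - m)) * (qq F ^ m * qq F ^ m) = qq F ^ (2 * g) := by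
    rw [← pow_add, ← pow_add]
    congr 1
    omega
  have eQ : qq F ^ (2 * m) = qq F ^ m * qq F ^ m := by
    rw [← pow_add]
    congr 1
    omega
  have e1 : qq F ^ (m + 1) = qq F ^ m * qq F := pow_succ _ _
  have e2 : qq F ^ (g + 2 * g / 3 + 2) = qq F ^ (g + 2 * g / 3) * qq F ^ 2 := pow_add _ _ _
  obtain ⟨Q, hQ⟩ : ∃ Q, Q = qq F ^ m := ⟨_, rfl⟩
  obtain ⟨W, hW⟩ : ∃ W, W = qq F ^ (2 * (g - m)) := ⟨_, rfl⟩
  obtain ⟨E, hE⟩ : ∃ E, E = qq F ^ (g + 2 * g / 3) := ⟨_, rfl⟩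
  obtain ⟨q, hqd⟩ : ∃ q, q = qq F := ⟨_, rfl⟩
  have hQ0 : 0 < Q := by rw [hQ]; positivity
  have hW0 : 0 < W := by rw [hW]; positivity
  have hE0 : 0 < E := by rw [hE]; positivity
  simp only [e1, e2] at hV
  rw [eQ] at hpw
  rw [← hE, ← hQ] at hpw
  rw [← hW, ← hQ] at eP
  simp only [← hQ, ← hW, ← hE] at hT hH hV ⊢
  rw [← hqd] at hq hq0 hq1
  simp only [← hqd] at hH hV ⊢ eP
  have hq4 : 1 ≤ q ^ 4 := one_le_pow₀ hq1
  have hone : ∀ e ∈ (MON F m).filter (fun e => Squarefree e), Q * HH F g m e ≤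
      Q * ((9 * q + 54) * (W / Q) + 48 * g * q ^ 4 * E) * (tau e : ℝ) ^ 3 := by
    intro e he
    have h1 := hH e he
    have h2 := hV e he
    have h0 : (0 : ℝ) ≤ tau e := Nat.cast_nonneg _
    have h3 : (tau e : ℝ) ^ 2 ≤ (tau e : ℝ) ^ 3 := by
      rcases Nat.eq_zero_or_pos (tau e) with h | h
      · rw [h]; norm_num
      · have h4 : (1 : ℝ) ≤ tau e := by exact_mod_cast h
        exact pow_le_pow_right₀ h4 (by norm_num)
    generalize (tau e : ℝ) = t at h0 h1 h2 h3 ⊢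
    rw [mul_assoc]
    refine mul_le_mul_of_nonneg_left ?_ hQ0.le
    refine h1.trans ?_
    have h5 : q ^ 2 * VT F g m e ≤ q ^ 2 * (9 * t ^ 3 * W / (Q * q) + 12 * g * t ^ 2 * (E * q ^ 2)) :=
      mul_le_mul_of_nonneg_left h2 (by positivity)
    have h6 : q ^ 2 * (9 * t ^ 3 * W / (Q * q) + 12 * g * t ^ 2 * (E * q ^ 2)) =
        9 * q * (W / Q) * t ^ 3 + 12 * g * q ^ 4 * E * t ^ 2 := by
      field_simp
    have h7 : 54 * t ^ 3 * W / Q = 54 * (W / Q) * t ^ 3 := by ring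
    have h8 : 12 * g * q ^ 4 * E * t ^ 2 ≤ 12 * g * q ^ 4 * E * t ^ 3 :=
      mul_le_mul_of_nonneg_left h3 (by positivity)
    have h9 : 36 * (g : ℝ) * t ^ 2 * E ≤ 36 * g * q ^ 4 * E * t ^ 3 := by
      calc 36 * (g : ℝ) * t ^ 2 * E = 36 * g * 1 * E * t ^ 2 := by ring
        _ ≤ 36 * g * q ^ 4 * E * t ^ 3 := by gcongr
    calc q ^ 2 * VT F g m e + 54 * t ^ 3 * W / Q + 36 * g * t ^ 2 * E
        ≤ (9 * q * (W / Q) * t ^ 3 + 12 * g * q ^ 4 * E * t ^ 3) + 54 * (W / Q) * t ^ 3 +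
          36 * g * q ^ 4 * E * t ^ 3 := by
          rw [h7]
          linarith
      _ = ((9 * q + 54) * (W / Q) + 48 * g * q ^ 4 * E) * t ^ 3 := by ring
  have hK0 : 0 ≤ Q * ((9 * q + 54) * (W / Q) + 48 * g * q ^ 4 * E) := by positivity
  have hm7 : ((m : ℝ) + 1) ^ 7 ≤ ((g : ℝ) + 1) ^ 7 := by
    have : (m : ℝ) ≤ g := by
      have : m ≤ g := by omega
      exact_mod_cast this
    gcongr
  calc ∑ e ∈ (MON F m).filter (fun e => Squarefree e), Q * HH F g m e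
      ≤ ∑ e ∈ (MON F m).filter (fun e => Squarefree e),
          Q * ((9 * q + 54) * (W / Q) + 48 * g * q ^ 4 * E) * (tau e : ℝ) ^ 3 := Finset.sum_le_sum hone
    _ = Q * ((9 * q + 54) * (W / Q) + 48 * g * q ^ 4 * E) *
          ∑ e ∈ (MON F m).filter (fun e => Squarefree e), (tau e : ℝ) ^ 3 := by rw [Finset.mul_sum]
    _ ≤ Q * ((9 * q + 54) * (W / Q) + 48 * g * q ^ 4 * E) * (((m : ℝ) + 1) ^ 7 * Q) :=
        mul_le_mul_of_nonneg_left hT hK0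
    _ = (W * (Q * Q)) * ((9 * q + 54) * (((m : ℝ) + 1) ^ 7 / Q)) +
          48 * q ^ 4 * (g * ((m : ℝ) + 1) ^ 7) * (Q * Q * E) := by
        field_simp
    _ = q ^ (2 * g) * ((9 * q + 54) * (((m : ℝ) + 1) ^ 7 / Q)) +
          48 * q ^ 4 * (g * ((m : ℝ) + 1) ^ 7) * (Q * Q * E) := by rw [eP]
    _ ≤ q ^ (2 * g) * ((9 * q + 54) * (((m : ℝ) + 1) ^ 7 / Q)) +
          48 * q ^ 4 * ((g : ℝ) + 1) ^ 8 * X := by
        have h10 : (g : ℝ) * ((m : ℝ) + 1) ^ 7 ≤ ((g : ℝ) + 1) ^ 8 := by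
          calc (g : ℝ) * ((m : ℝ) + 1) ^ 7 ≤ ((g : ℝ) + 1) * ((g : ℝ) + 1) ^ 7 :=
                mul_le_mul (by linarith) hm7 (by positivity) (by positivity)
            _ = _ := by ring
        gcongr

/-- `m = 0` -/
theorem zero (hq : 3 ≤ qq F) (g : ℕ) (hg : 2 ≤ g)
    (h1 : (MON F 0).filter (fun e => Squarefree e) = {1})
    (hT : ∑ e ∈ (MON F 0).filter (fun e => Squarefree e), (tau e : ℝ) ^ 3 ≤
      (((0 : ℕ) : ℝ) + 1) ^ 7 * qq F ^ 0)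
    (hH : HH F g 0 1 ≤
      qq F ^ 2 * VT F g 0 1 + 54 * (tau (1 : F[X]) : ℝ) ^ 3 * qq F ^ (2 * (g - 0)) / qq F ^ 0 +
        36 * g * (tau (1 : F[X]) : ℝ) ^ 2 * qq F ^ (g + 2 * g / 3))
    (hV : VT F g 0 (1 : F[X]) ≤ 8 * qq F ^ (2 * g - 2) + 8 * qq F ^ (g + 2 * g / 3 + 1)) :
    ∑ e ∈ (MON F 0).filter (fun e => Squarefree e), qq F ^ 0 * HH F g 0 e ≤
      62 * qq F ^ (2 * g) +
        (8 * qq F ^ 3 + 36) * ((g : ℝ) + 1) ^ 8 * (qq F ^ (2 * g) * qq F ^ (-((g : ℝ) / 20))) := by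
  have hq0 : 0 < qq F := by linarith
  have hq1 : 1 ≤ qq F := by linarith
  have hg0 : (0 : ℝ) ≤ g := Nat.cast_nonneg g
  have hpw := pw F hq1 g 0 (by omega)
  obtain ⟨X, hX⟩ : ∃ X, X = qq F ^ (2 * g) * qq F ^ (-((g : ℝ) / 20)) := ⟨_, rfl⟩
  have hX0 : 0 ≤ X := by rw [hX]; positivity
  rw [← hX] at hpw ⊢
  rw [h1, Finset.sum_singleton, pow_zero, mul_one] at hT
  rw [h1, Finset.sum_singleton, pow_zero, one_mul]
  rw [mul_zero, pow_zero, one_mul] at hpw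
  have h0 : (0 : ℝ) ≤ tau (1 : F[X]) := Nat.cast_nonneg _
  have ht3 : (tau (1 : F[X]) : ℝ) ^ 3 ≤ 1 := by
    refine hT.trans (le_of_eq ?_)
    norm_num
  have ht1 : (tau (1 : F[X]) : ℝ) ≤ 1 := (pow_le_one_iff_of_nonneg h0 (by norm_num)).mp ht3
  have ht2 : (tau (1 : F[X]) : ℝ) ^ 2 ≤ 1 := pow_le_one₀ h0 ht1
  generalize (tau (1 : F[X]) : ℝ) = t at *
  rw [Nat.sub_zero, pow_zero, div_one] at hH
  have e1 : qq F ^ 2 * qq F ^ (2 * g - 2) = qq F ^ (2 * g) := by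
    rw [← pow_add]
    congr 1
    omega
  have e2 : qq F ^ (g + 2 * g / 3 + 1) = qq F ^ (g + 2 * g / 3) * qq F := pow_succ _ _
  rw [e2] at hV
  obtain ⟨E, hE⟩ : ∃ E, E = qq F ^ (g + 2 * g / 3) := ⟨_, rfl⟩
  have hE0 : 0 < E := by rw [hE]; positivity
  rw [← hE] at hV hH hpw
  obtain ⟨P, hP⟩ : ∃ P, P = qq F ^ (2 * g) := ⟨_, rfl⟩
  have hP0 : 0 < P := by rw [hP]; positivity
  rw [← hP] at hH e1 ⊢
  have h5 : qq F ^ 2 * VT F g 0 1 ≤ 8 * P + 8 * qq F ^ 3 * E := by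
    calc qq F ^ 2 * VT F g 0 1 ≤ qq F ^ 2 * (8 * qq F ^ (2 * g - 2) + 8 * (E * qq F)) :=
          mul_le_mul_of_nonneg_left hV (by positivity)
      _ = 8 * (qq F ^ 2 * qq F ^ (2 * g - 2)) + 8 * qq F ^ 3 * E := by ring
      _ = 8 * P + 8 * qq F ^ 3 * E := by rw [e1]
  have h6 : 54 * t ^ 3 * P ≤ 54 * P := by nlinarith
  have h7 : 36 * (g : ℝ) * t ^ 2 * E ≤ 36 * g * E := by
    have : 36 * (g : ℝ) * E * t ^ 2 ≤ 36 * g * E * 1 := mul_le_mul_of_nonneg_left ht2 (by positivity)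
    linarith
  have hp8 : (1 : ℝ) ≤ ((g : ℝ) + 1) ^ 8 := one_le_pow₀ (by linarith)
  have hp8' : (g : ℝ) ≤ ((g : ℝ) + 1) ^ 8 := by
    calc (g : ℝ) ≤ ((g : ℝ) + 1) ^ 1 := by linarith
      _ ≤ _ := pow_le_pow_right₀ (by linarith) (by norm_num)
  have h8 : 8 * qq F ^ 3 * E ≤ 8 * qq F ^ 3 * (((g : ℝ) + 1) ^ 8 * X) := by
    refine mul_le_mul_of_nonneg_left ?_ (by positivity)
    calc E = 1 * E := by ring
      _ ≤ _ := mul_le_mul hp8 hpw hE0.le (by positivity)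
  have h9 : 36 * (g : ℝ) * E ≤ 36 * (((g : ℝ) + 1) ^ 8 * X) := by
    rw [mul_assoc]
    refine mul_le_mul_of_nonneg_left ?_ (by norm_num)
    exact mul_le_mul hp8' hpw hE0.le (by positivity)
  calc HH F g 0 1 ≤ qq F ^ 2 * VT F g 0 1 + 54 * t ^ 3 * P + 36 * g * t ^ 2 * E := hH
    _ ≤ (8 * P + 8 * qq F ^ 3 * (((g : ℝ) + 1) ^ 8 * X)) + 54 * P + 36 * (((g : ℝ) + 1) ^ 8 * X) := by
        linarith
    _ = _ := by ring

/-- the error term tends to zero -/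
theorem err (r D : ℝ) (hr : 1 < r) : ∃ g₀ : ℕ, ∀ g ≥ g₀, D * (((g : ℝ) + 1) ^ 9 / r ^ g) ≤ 1 := by
  have h1 := tendsto_pow_const_div_const_pow_of_one_lt 9 hr
  have h2 := (Filter.tendsto_add_atTop_iff_nat 1).mpr h1
  have h3 := h2.const_mul (D * r)
  rw [mul_zero] at h3
  have h4 := h3.eventually (gt_mem_nhds (zero_lt_one : (0 : ℝ) < 1))
  obtain ⟨g₀, hg₀⟩ := Filter.eventually_atTop.mp h4
  refine ⟨g₀, fun g hg => ?_⟩
  have h5 := hg₀ g hg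
  have hr0 : r ≠ 0 := by positivity
  have h6 : D * (((g : ℝ) + 1) ^ 9 / r ^ g) = D * r * ((((g + 1 : ℕ) : ℝ)) ^ 9 / r ^ (g + 1)) := by
    push_cast
    rw [pow_succ r g]
    field_simp
  rw [h6]
  exact h5.le

end XSM

theorem p_SM (F : Type) [Field F] [Fintype F] [CharP F 3] (hKS : S_KS) (hB0 : S_B0 F) (hT8 : S_T8 F)
    (hM6 : S_M6 F) (hH1 : S_H1 F) (hVB : S_VB F) (hV1 : S_V1 F) (hHB : S_HB F) (hTL : S_TL F) :
    S_SM F := by
  have hq := XSM.q_ge3 F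
  have hq0 : 0 < qq F := by linarith
  have hq1 : 1 ≤ qq F := by linarith
  have hq1' : 1 < qq F := by linarith
  obtain ⟨hK1, hKS⟩ := hKS
  obtain ⟨C₁, hC₁, hL⟩ := hTL (1 / 40) (by norm_num)
  obtain ⟨_, hMON, _, _, _, _⟩ := hB0
  obtain ⟨r, hr⟩ : ∃ r : ℝ, r = qq F ^ (1 / 20 : ℝ) := ⟨_, rfl⟩
  have hr1 : 1 < r := by rw [hr]; exact Real.one_lt_rpow hq1' (by norm_num)
  obtain ⟨D, hD⟩ : ∃ D, D = 8 * qq F ^ 3 + 36 + 48 * qq F ^ 4 + 5 * qq F ^ 3 * C₁ := ⟨_, rfl⟩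
  have hD0 : 0 < D := by rw [hD]; positivity
  obtain ⟨g₀, hg₀⟩ := XSM.err r D hr1
  have hone : (MON F 0).filter (fun e => Squarefree e) = {1} := by
    ext e
    rw [Finset.mem_filter, hMON, Finset.mem_singleton]
    constructor
    · rintro ⟨⟨h1, h2⟩, _⟩
      exact Polynomial.eq_one_of_monic_natDegree_zero h1 h2
    · rintro rfl
      exact ⟨⟨monic_one, natDegree_one⟩, squarefree_one⟩
  refine ⟨max g₀ 2, fun g hg => ?_⟩
  have hgg : g₀ ≤ g := (le_max_left _ _).trans hg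
  have hg2 : 2 ≤ g := (le_max_right _ _).trans hg
  have hg0 : (0 : ℝ) ≤ g := Nat.cast_nonneg g
  refine (hM6 g hg2).trans ?_
  refine add_le_add le_rfl ?_
  obtain ⟨u, hu⟩ : ∃ u : ℝ, u = qq F ^ (-((g : ℝ) / 20)) := ⟨_, rfl⟩
  have hu0 : 0 < u := by rw [hu]; positivity
  have hub : D * (((g : ℝ) + 1) ^ 9 * u) ≤ 1 := by
    have h1 : u = 1 / r ^ g := by
      have h2 : r ^ g * u = 1 := by
        rw [hr, hu, ← Real.rpow_natCast, ← Real.rpow_mul hq0.le, ← Real.rpow_add hq0]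
        have : (1 / 20 : ℝ) * (g : ℝ) + -((g : ℝ) / 20) = 0 := by ring
        rw [this, Real.rpow_zero]
      have hrg : 0 < r ^ g := by positivity
      rw [eq_div_iff hrg.ne', mul_comm]
      exact h2
    have h3 := hg₀ g hgg
    rw [h1, mul_one_div]
    exact h3
  have hm : ∀ m ∈ Finset.range g, ∑ e ∈ (MON F m).filter (fun e => Squarefree e), qq F ^ m * HH F g m e ≤
      qq F ^ (2 * g) * ((if m = 0 then 62 else 0) +
        (if 1 ≤ m then (9 * qq F + 54) * (((m : ℝ) + 1) ^ 7 / qq F ^ m) else 0) +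
        D * (((g : ℝ) + 1) ^ 8 * u)) := by
    intro m hm
    rw [Finset.mem_range] at hm
    have hPu : 0 ≤ ((g : ℝ) + 1) ^ 8 * (qq F ^ (2 * g) * u) := by positivity
    by_cases h0 : m = 0
    · subst h0
      have h1 := XSM.zero F hq g hg2 hone (hT8 0) (hH1 g 0 1 (by omega)
        ((hMON 0 1).mpr ⟨monic_one, natDegree_one⟩) squarefree_one) (hV1 g hg2)
      rw [← hu] at h1
      refine h1.trans ?_
      rw [if_pos rfl, if_neg (by norm_num)]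
      have h2 : (8 * qq F ^ 3 + 36) * (((g : ℝ) + 1) ^ 8 * (qq F ^ (2 * g) * u)) ≤
          D * (((g : ℝ) + 1) ^ 8 * (qq F ^ (2 * g) * u)) := by
        refine mul_le_mul_of_nonneg_right ?_ hPu
        rw [hD]
        have : 0 ≤ 48 * qq F ^ 4 + 5 * qq F ^ 3 * C₁ := by positivity
        linarith
      calc 62 * qq F ^ (2 * g) + (8 * qq F ^ 3 + 36) * ((g : ℝ) + 1) ^ 8 * (qq F ^ (2 * g) * u)
          = 62 * qq F ^ (2 * g) + (8 * qq F ^ 3 + 36) * (((g : ℝ) + 1) ^ 8 * (qq F ^ (2 * g) * u)) := by ring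
        _ ≤ 62 * qq F ^ (2 * g) + D * (((g : ℝ) + 1) ^ 8 * (qq F ^ (2 * g) * u)) := by linarith
        _ = _ := by ring
    · have h1m : 1 ≤ m := Nat.one_le_iff_ne_zero.mpr h0
      rw [if_neg h0, if_pos h1m, zero_add]
      by_cases h10 : g ≤ 10 * m
      · have h1 := XSM.large F hq C₁ hC₁ g m hm h10 (hL g m hm) (fun e he => by
          rw [Finset.mem_filter] at he
          exact hHB g m e hm he.1 he.2)
        rw [← hu] at h1
        refine h1.trans ?_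
        have h2 : 5 * qq F ^ 3 * C₁ * (((g : ℝ) + 1) ^ 8 * (qq F ^ (2 * g) * u)) ≤
            D * (((g : ℝ) + 1) ^ 8 * (qq F ^ (2 * g) * u)) := by
          refine mul_le_mul_of_nonneg_right ?_ hPu
          rw [hD]
          have : 0 ≤ 8 * qq F ^ 3 + 36 + 48 * qq F ^ 4 := by positivity
          linarith
        have h3 : 0 ≤ qq F ^ (2 * g) * ((9 * qq F + 54) * (((m : ℝ) + 1) ^ 7 / qq F ^ m)) := by positivity
        calc 5 * qq F ^ 3 * C₁ * ((g : ℝ) + 1) ^ 8 * (qq F ^ (2 * g) * u)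
            = 5 * qq F ^ 3 * C₁ * (((g : ℝ) + 1) ^ 8 * (qq F ^ (2 * g) * u)) := by ring
          _ ≤ qq F ^ (2 * g) * ((9 * qq F + 54) * (((m : ℝ) + 1) ^ 7 / qq F ^ m)) +
              D * (((g : ℝ) + 1) ^ 8 * (qq F ^ (2 * g) * u)) := by linarith
          _ = _ := by ring
      · have h1 := XSM.small F hq g m (by omega) (hT8 m) (fun e he => by
          rw [Finset.mem_filter] at he
          exact hH1 g m e (by omega) he.1 he.2) (fun e he => by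
          rw [Finset.mem_filter] at he
          exact hVB g m e (by omega) he.1 he.2)
        rw [← hu] at h1
        refine h1.trans ?_
        have h2 : 48 * qq F ^ 4 * (((g : ℝ) + 1) ^ 8 * (qq F ^ (2 * g) * u)) ≤
            D * (((g : ℝ) + 1) ^ 8 * (qq F ^ (2 * g) * u)) := by
          refine mul_le_mul_of_nonneg_right ?_ hPu
          rw [hD]
          have : 0 ≤ 8 * qq F ^ 3 + 36 + 5 * qq F ^ 3 * C₁ := by positivity
          linarith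
        calc qq F ^ (2 * g) * ((9 * qq F + 54) * (((m : ℝ) + 1) ^ 7 / qq F ^ m)) +
              48 * qq F ^ 4 * ((g : ℝ) + 1) ^ 8 * (qq F ^ (2 * g) * u)
            = qq F ^ (2 * g) * ((9 * qq F + 54) * (((m : ℝ) + 1) ^ 7 / qq F ^ m)) +
              48 * qq F ^ 4 * (((g : ℝ) + 1) ^ 8 * (qq F ^ (2 * g) * u)) := by ring
          _ ≤ qq F ^ (2 * g) * ((9 * qq F + 54) * (((m : ℝ) + 1) ^ 7 / qq F ^ m)) +
              D * (((g : ℝ) + 1) ^ 8 * (qq F ^ (2 * g) * u)) := by linarith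
          _ = _ := by ring
  refine (Finset.sum_le_sum hm).trans ?_
  rw [← Finset.mul_sum, mul_comm (150 * K7)]
  refine mul_le_mul_of_nonneg_left ?_ (by positivity)
  rw [Finset.sum_add_distrib, Finset.sum_add_distrib, Finset.sum_const, Finset.card_range, nsmul_eq_mul]
  have k1 : ∑ i ∈ Finset.range g, (if i = 0 then (62 : ℝ) else 0) ≤ 62 := by
    rw [Finset.sum_ite_eq' (Finset.range g) 0]
    split_ifs <;> norm_num
  have k2 : ∑ i ∈ Finset.range g, (if 1 ≤ i then (9 * qq F + 54) * (((i : ℝ) + 1) ^ 7 / qq F ^ i) else 0) ≤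
      81 * K7 := by
    rw [← Finset.sum_filter, ← Finset.mul_sum]
    calc (9 * qq F + 54) * ∑ i ∈ (Finset.range g).filter (fun i => 1 ≤ i), ((i : ℝ) + 1) ^ 7 / qq F ^ i
        ≤ (9 * qq F + 54) * (3 * K7 / qq F) :=
          mul_le_mul_of_nonneg_left (hKS (qq F) hq g).2 (by positivity)
      _ = (27 + 162 / qq F) * K7 := by field_simp; ring
      _ ≤ (27 + 54) * K7 := by
          refine mul_le_mul_of_nonneg_right ?_ (by linarith)
          have : 162 / qq F ≤ 54 := by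
            rw [div_le_iff₀ hq0]
            linarith
          linarith
      _ = 81 * K7 := by ring
  have k3 : (g : ℝ) * (D * (((g : ℝ) + 1) ^ 8 * u)) ≤ 1 := by
    calc (g : ℝ) * (D * (((g : ℝ) + 1) ^ 8 * u)) ≤ ((g : ℝ) + 1) * (D * (((g : ℝ) + 1) ^ 8 * u)) := by
          gcongr
          linarith
      _ = D * (((g : ℝ) + 1) ^ 9 * u) := by ring
      _ ≤ 1 := hub
  linarith

end DH
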