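import Pool.Agent.H463.DH.Stm4

/-!
helper297: the third moment of the divisor function over squarefree polynomials (T8).
-/

open Polynomial
open scoped Classical

noncomputable section

namespace DH

namespace XT8

open UniqueFactorizationMonoid

variable {F : Type} [Field F] [Fintype F]

theorem card_mult (hB0 : S_B0 F) {a : F[X]} {j : ℕ} (ha : a ∈ MON F j) (k : ℕ) :
    ((MON F k).filter (fun b => a ∣ b)).card = if j ≤ k then Fintype.card F ^ (k - j) else 0 := by
  obtain ⟨-, h2, -, -, h5, -⟩ := hB0
  obtain ⟨ham, had⟩ := (h2 j a).1 ha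
  split_ifs with h
  · have h3 : (MON F k).filter (fun b => a ∣ b) = (MON F (k - j)).image (fun c => a * c) := by
      ext b
      rw [Finset.mem_filter, h2, Finset.mem_image]
      constructor
      · rintro ⟨⟨hb, hbd⟩, c, rfl⟩
        have hc := Monic.of_mul_monic_left ham hb
        refine ⟨c, (h2 _ _).2 ⟨hc, ?_⟩, rfl⟩
        rw [ham.natDegree_mul hc] at hbd
        omega
      · rintro ⟨c, hc, rfl⟩
        obtain ⟨hc1, hc2⟩ := (h2 _ _).1 hc
        refine ⟨⟨ham.mul hc1, ?_⟩, dvd_mul_right _ _⟩
        rw [ham.natDegree_mul hc1]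
        omega
    rw [h3, Finset.card_image_of_injective _ (mul_right_injective₀ ham.ne_zero), h5]
  · rw [Finset.card_eq_zero, Finset.filter_eq_empty_iff]
    intro b hb hab
    obtain ⟨hb1, hb2⟩ := (h2 _ _).1 hb
    have h4 := natDegree_le_of_dvd hab hb1.ne_zero
    omega

/-- the monic divisors -/
def dv (W : F[X]) : Finset F[X] := (POL F (W.natDegree + 1)).filter (fun a => a.Monic ∧ a ∣ W)

theorem mem_dv (hB0 : S_B0 F) {W a : F[X]} (hW : W ≠ 0) : a ∈ dv W ↔ a.Monic ∧ a ∣ W := by
  unfold dv
  rw [Finset.mem_filter, hB0.1]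
  constructor
  · exact fun h => h.2
  · intro h
    refine ⟨?_, h⟩
    have h1 := natDegree_le_of_dvd h.2 hW
    refine degree_le_natDegree.trans_lt ?_
    exact_mod_cast Nat.lt_succ_of_le h1

theorem sum_dv (hB0 : S_B0 F) {W : F[X]} (hW : W ≠ 0) {m : ℕ} (hm : W.natDegree ≤ m)
    (f : F[X] → ℕ) : ∑ a ∈ dv W, f a =
      ∑ j ∈ Finset.range (m + 1), ∑ a ∈ (MON F j).filter (fun a => a ∣ W), f a := by
  have h1 : ∀ a ∈ dv W, a.natDegree ∈ Finset.range (m + 1) := by
    intro a ha
    have h2 := natDegree_le_of_dvd ((mem_dv hB0 hW).1 ha).2 hW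
    rw [Finset.mem_range]
    omega
  rw [← Finset.sum_fiberwise_of_maps_to h1]
  refine Finset.sum_congr rfl fun j _ => Finset.sum_congr ?_ fun _ _ => rfl
  ext a
  rw [Finset.mem_filter, Finset.mem_filter, mem_dv hB0 hW, hB0.2.1]
  tauto

omit [Fintype F] in
theorem nf_prod (T : Finset F[X]) (hT : ∀ p ∈ T, Irreducible p ∧ p.Monic) :
    normalizedFactors (∏ p ∈ T, p) = T.val := by
  have h1 : (∏ p ∈ T, p) = T.val.prod := by
    rw [Finset.prod_eq_multiset_prod, Multiset.map_id']
  rw [h1, normalizedFactors_multiset_prod _ (fun h => (hT 0 h).1.ne_zero rfl)]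
  have h2 : T.val.map normalizedFactors = T.val.map (fun p => ({p} : Multiset F[X])) := by
    refine Multiset.map_congr rfl fun p hp => ?_
    obtain ⟨h3, h4⟩ := hT p hp
    rw [normalizedFactors_irreducible h3, h4.normalize_eq_self]
  rw [h2, Multiset.sum_map_singleton]

/-- a lower bound for the divisor sums of squarefree polynomials -/
theorem pow_le (hB0 : S_B0 F) {W : F[X]} (hW : W.Monic) (hsq : Squarefree W) (x : ℕ) :
    (1 + x) ^ (Multiset.card (normalizedFactors W)) ≤
      ∑ a ∈ dv W, x ^ (Multiset.card (normalizedFactors a)) := by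
  have hW0 := hW.ne_zero
  set S : Finset F[X] := (normalizedFactors W).toFinset with hS
  have hnd : (normalizedFactors W).Nodup := (squarefree_iff_nodup_normalizedFactors hW0).1 hsq
  have hSv : S.val = normalizedFactors W := by
    rw [hS, Multiset.toFinset_val, hnd.dedup]
  have hSp : ∀ p ∈ S, Irreducible p ∧ p.Monic := by
    intro p hp
    have hp' : p ∈ normalizedFactors W := Multiset.mem_toFinset.1 hp
    refine ⟨irreducible_of_normalized_factor p hp', ?_⟩
    have h1 := normalize_normalized_factor p hp'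
    rw [← h1]
    exact monic_normalize (irreducible_of_normalized_factor p hp').ne_zero
  have hcard : S.card = Multiset.card (normalizedFactors W) := by
    rw [← hSv]
    rfl
  rw [← hcard]
  have h1 : (1 + x) ^ S.card = ∑ T ∈ S.powerset, x ^ T.card := by
    have h2 := Finset.prod_one_add (f := fun _ : F[X] => x) S
    rw [Finset.prod_const] at h2
    rw [h2]
    exact Finset.sum_congr rfl fun T _ => by rw [Finset.prod_const]
  have h3 : ∀ T ∈ S.powerset, normalizedFactors (∏ p ∈ T, p) = T.val := fun T hT =>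
    nf_prod T fun p hp => hSp p (Finset.mem_powerset.1 hT hp)
  have h4 : ∑ T ∈ S.powerset, x ^ T.card =
      ∑ T ∈ S.powerset, x ^ (Multiset.card (normalizedFactors (∏ p ∈ T, p))) :=
    Finset.sum_congr rfl fun T hT => by rw [h3 T hT]; rfl
  have h5 : Set.InjOn (fun T : Finset F[X] => ∏ p ∈ T, p) S.powerset := by
    intro T hT T' hT' h
    have h6 := congrArg normalizedFactors h
    simp only at h6
    rw [h3 T hT, h3 T' hT'] at h6
    exact Finset.val_injective h6
  have h7 : ∑ T ∈ S.powerset, x ^ (Multiset.card (normalizedFactors (∏ p ∈ T, p))) =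
      ∑ a ∈ S.powerset.image (fun T : Finset F[X] => ∏ p ∈ T, p),
        x ^ (Multiset.card (normalizedFactors a)) := by
    rw [Finset.sum_image h5]
  rw [h1, h4, h7]
  refine Finset.sum_le_sum_of_subset ?_
  intro a ha
  obtain ⟨T, hT, rfl⟩ := Finset.mem_image.1 ha
  have hTS := Finset.mem_powerset.1 hT
  rw [mem_dv hB0 hW0]
  refine ⟨monic_prod_of_monic _ _ fun p hp => (hSp p (hTS hp)).2, ?_⟩
  have h8 : (∏ p ∈ T, p) ∣ ∏ p ∈ S, p := Finset.prod_dvd_prod_of_subset _ _ _ hTS
  refine h8.trans ?_
  have h9 : (∏ p ∈ S, p) = (normalizedFactors W).prod := by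
    rw [Finset.prod_eq_multiset_prod, Multiset.map_id', hSv]
  rw [h9]
  exact (prod_normalizedFactors hW0).dvd

/-- number of prime factors -/
def om (a : F[X]) : ℕ := Multiset.card (normalizedFactors a)

theorem gk (hB0 : S_B0 F) (k : ℕ) : ∀ m : ℕ, ∑ e ∈ (MON F m).filter (fun e => Squarefree e),
    (k + 1) ^ (om e) ≤ (m + 1) ^ k * Fintype.card F ^ m := by
  have hmon : ∀ {k : ℕ} {W : F[X]}, W ∈ MON F k → W.Monic ∧ W.natDegree = k := fun {k W} h =>
    (hB0.2.1 k W).1 h
  induction k with
  | zero =>
    intro m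
    have h1 : ∑ e ∈ (MON F m).filter (fun e => Squarefree e), (0 + 1) ^ (om e) =
        ((MON F m).filter (fun e => Squarefree e)).card := by
      simp
    rw [h1, pow_zero, one_mul, ← hB0.2.2.2.2.1 m]
    exact Finset.card_le_card (Finset.filter_subset _ _)
  | succ k ih =>
    intro m
    have h1 : ∑ W ∈ (MON F m).filter (fun W => Squarefree W), (k + 1 + 1) ^ (om W) ≤
        ∑ W ∈ (MON F m).filter (fun W => Squarefree W), ∑ j ∈ Finset.range (m + 1),
          ∑ a ∈ ((MON F j).filter (fun a => Squarefree a)).filter (fun a => a ∣ W),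
            (k + 1) ^ (om a) := by
      refine Finset.sum_le_sum fun W hW => ?_
      rw [Finset.mem_filter] at hW
      obtain ⟨hWm, hWd⟩ := hmon hW.1
      have h2 := pow_le hB0 hWm hW.2 (k + 1)
      rw [sum_dv hB0 hWm.ne_zero hWd.le, add_comm 1 (k + 1)] at h2
      refine h2.trans (Finset.sum_le_sum fun j _ => ?_)
      refine Finset.sum_le_sum_of_subset ?_
      intro a ha
      rw [Finset.mem_filter] at ha
      rw [Finset.mem_filter, Finset.mem_filter]
      exact ⟨⟨ha.1, hW.2.squarefree_of_dvd ha.2⟩, ha.2⟩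
    refine h1.trans ?_
    rw [Finset.sum_comm]
    have h3 : ∀ j ∈ Finset.range (m + 1),
        ∑ W ∈ (MON F m).filter (fun W => Squarefree W),
          ∑ a ∈ ((MON F j).filter (fun a => Squarefree a)).filter (fun a => a ∣ W),
            (k + 1) ^ (om a) ≤ (m + 1) ^ k * Fintype.card F ^ m := by
      intro j hj
      rw [Finset.mem_range] at hj
      have h4 : ∑ W ∈ (MON F m).filter (fun W => Squarefree W),
          ∑ a ∈ ((MON F j).filter (fun a => Squarefree a)).filter (fun a => a ∣ W),
            (k + 1) ^ (om a) ≤ ∑ W ∈ MON F m,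
          ∑ a ∈ ((MON F j).filter (fun a => Squarefree a)).filter (fun a => a ∣ W),
            (k + 1) ^ (om a) := Finset.sum_le_sum_of_subset (Finset.filter_subset _ _)
      have h5 : ∑ W ∈ MON F m,
          ∑ a ∈ ((MON F j).filter (fun a => Squarefree a)).filter (fun a => a ∣ W),
            (k + 1) ^ (om a) = ∑ a ∈ (MON F j).filter (fun a => Squarefree a),
            (k + 1) ^ (om a) * ((MON F m).filter (fun W => a ∣ W)).card := by
        simp only [Finset.sum_filter (fun a => a ∣ _), Finset.card_filter, Finset.mul_sum]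
        rw [Finset.sum_comm]
        refine Finset.sum_congr rfl fun a _ => Finset.sum_congr rfl fun W _ => ?_
        rw [mul_ite, mul_one, mul_zero]
      have h6 : ∑ a ∈ (MON F j).filter (fun a => Squarefree a),
            (k + 1) ^ (om a) * ((MON F m).filter (fun W => a ∣ W)).card =
          (∑ a ∈ (MON F j).filter (fun a => Squarefree a), (k + 1) ^ (om a)) *
            Fintype.card F ^ (m - j) := by
        rw [Finset.sum_mul]
        refine Finset.sum_congr rfl fun a ha => ?_
        rw [card_mult hB0 (Finset.mem_filter.1 ha).1, if_pos (by omega)]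
      calc _ ≤ _ := h4
        _ = _ := h5
        _ = _ := h6
        _ ≤ ((j + 1) ^ k * Fintype.card F ^ j) * Fintype.card F ^ (m - j) :=
            Nat.mul_le_mul_right _ (ih j)
        _ = (j + 1) ^ k * Fintype.card F ^ m := by
            rw [mul_assoc, ← pow_add, Nat.add_sub_cancel' (by omega)]
        _ ≤ (m + 1) ^ k * Fintype.card F ^ m :=
            Nat.mul_le_mul_right _ (Nat.pow_le_pow_left (by omega) k)
    refine (Finset.sum_le_sum h3).trans ?_
    rw [Finset.sum_const, Finset.card_range, smul_eq_mul, ← mul_assoc, pow_succ' (m + 1) k]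

theorem tau_le (hB0 : S_B0 F) {e : F[X]} (he : e.Monic) (hsq : Squarefree e) :
    tau e ≤ 2 ^ (om e) := by
  have he0 := he.ne_zero
  have h1 : tau e = (dv e).card := by
    have h6 := sum_dv hB0 he0 le_rfl (fun _ => 1)
    simp only [← Finset.card_eq_sum_ones] at h6
    exact h6.symm
  rw [h1]
  have hnd : ∀ {a : F[X]}, a.Monic → a ∣ e → (normalizedFactors a).Nodup := fun {a} ha hd =>
    (squarefree_iff_nodup_normalizedFactors ha.ne_zero).1 (hsq.squarefree_of_dvd hd)
  have h2 : (normalizedFactors e).toFinset.card = om e := by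
    unfold om
    rw [Multiset.toFinset_card_of_nodup (hnd he dvd_rfl)]
  rw [← h2, ← Finset.card_powerset]
  refine Finset.card_le_card_of_injOn (fun a => (normalizedFactors a).toFinset) ?_ ?_
  · intro a ha
    obtain ⟨ham, had⟩ := (mem_dv hB0 he0).1 ha
    rw [Finset.mem_coe, Finset.mem_powerset]
    intro p hp
    rw [Multiset.mem_toFinset] at hp ⊢
    have h3 := (dvd_iff_normalizedFactors_le_normalizedFactors ham.ne_zero he0).1 had
    exact Multiset.mem_of_le h3 hp
  · intro a ha b hb hab
    obtain ⟨ham, had⟩ := (mem_dv hB0 he0).1 ha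
    obtain ⟨hbm, hbd⟩ := (mem_dv hB0 he0).1 hb
    have h3 : normalizedFactors a = normalizedFactors b := by
      have h4 := congrArg Finset.val hab
      simp only [Multiset.toFinset_val] at h4
      rwa [(hnd ham had).dedup, (hnd hbm hbd).dedup] at h4
    have h5 : Associated a b := by
      have h6 := prod_normalizedFactors ham.ne_zero
      have h7 := prod_normalizedFactors hbm.ne_zero
      rw [h3] at h6
      exact h6.symm.trans h7
    exact eq_of_monic_of_associated ham hbm h5

end XT8

theorem p_T8 (F : Type) [Field F] [Fintype F] [CharP F 3] (hB0 : S_B0 F) : S_T8 F := by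
  intro m
  have h1 := XT8.gk hB0 7 m
  have h2 : (((∑ e ∈ (MON F m).filter (fun e => Squarefree e), (7 + 1) ^ (XT8.om e) : ℕ)) : ℝ) ≤
      (((m + 1) ^ 7 * Fintype.card F ^ m : ℕ) : ℝ) := Nat.cast_le.2 h1
  push_cast at h2
  refine le_trans (Finset.sum_le_sum fun e he => ?_) h2
  rw [Finset.mem_filter] at he
  have h3 := XT8.tau_le hB0 ((hB0.2.1 m e).1 he.1).1 he.2
  have h4 : (tau e : ℝ) ≤ 2 ^ (XT8.om e) := by exact_mod_cast h3
  calc (tau e : ℝ) ^ 3 ≤ ((2 : ℝ) ^ (XT8.om e)) ^ 3 := by gcongr
    _ = 8 ^ (XT8.om e) := by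
        rw [← pow_mul, mul_comm, pow_mul]
        norm_num

end DH
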