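import Pool.Agent.H463.DH.Stm4

open Polynomial
open scoped Classical

noncomputable section

namespace DH

namespace XTR

variable {F : Type} [Field F]

lemma Xder_coeff (p : F[X]) (k : ℕ) : (X * derivative p).coeff k = (k : F) * p.coeff k := by
  cases k with
  | zero => simp
  | succ m => rw [coeff_X_mul, coeff_derivative]; push_cast; ring

lemma natDegree_T {n : ℕ} {p : F[X]} (hp : p.natDegree ≤ n) :
    (C ((n : F) + 1) * p - X * derivative p).natDegree ≤ n := by
  rw [natDegree_le_iff_coeff_eq_zero]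
  intro k hk
  rw [coeff_sub, coeff_C_mul, Xder_coeff, coeff_eq_zero_of_natDegree_lt (lt_of_le_of_lt hp hk)]
  simp

lemma coeff_T {n : ℕ} (p : F[X]) :
    (C ((n : F) + 1) * p - X * derivative p).coeff n = p.coeff n := by
  rw [coeff_sub, coeff_C_mul, Xder_coeff]
  ring

lemma decomp {n : ℕ} {u : F[X]} (hu : u.degree < ((n + 2 : ℕ) : WithBot ℕ)) :
    ∃ u1 : F[X], u1.natDegree ≤ n ∧ u1.coeff n = u.coeff n ∧
      u = C (u.coeff (n + 1)) * X ^ (n + 1) + u1 := by
  refine ⟨u - C (u.coeff (n + 1)) * X ^ (n + 1), ?_, ?_, by ring⟩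
  · rw [natDegree_le_iff_coeff_eq_zero]
    intro k hk
    rw [coeff_sub, coeff_C_mul, coeff_X_pow]
    rcases Nat.eq_or_lt_of_le (Nat.succ_le_of_lt hk) with h | h
    · have h' : k = n + 1 := h.symm
      rw [h', if_pos rfl]; ring
    · have h' : n + 2 ≤ k := h
      have h0 : u.coeff k = 0 := coeff_eq_zero_of_degree_lt (lt_of_lt_of_le hu (by exact_mod_cast h'))
      rw [h0, if_neg (by omega)]; ring
  · rw [coeff_sub, coeff_C_mul, coeff_X_pow, if_neg (by omega)]; ring

lemma natDegree_le_of_lt {n : ℕ} {u : F[X]} (hu : u.degree < ((n + 2 : ℕ) : WithBot ℕ)) :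
    u.natDegree ≤ n + 1 := by
  rw [natDegree_le_iff_coeff_eq_zero]
  intro k hk
  exact coeff_eq_zero_of_degree_lt (lt_of_lt_of_le hu (by exact_mod_cast hk))

lemma der_natDegree {n : ℕ} {p : F[X]} (hp : p.natDegree ≤ n) : (derivative p).natDegree ≤ n :=
  (natDegree_derivative_le p).trans ((Nat.sub_le _ _).trans hp)

lemma low {n : ℕ} {p r : F[X]} (hp : p.natDegree ≤ n) (hr : r.natDegree ≤ n) :
    (derivative p * r).natDegree ≤ n + n ∧ (derivative p * r).coeff (n + n) = 0 := by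
  refine ⟨natDegree_mul_le_of_le (der_natDegree hp) hr, ?_⟩
  rw [coeff_mul_add_eq_of_natDegree_le (der_natDegree hp) hr, coeff_derivative,
    coeff_eq_zero_of_natDegree_lt (Nat.lt_succ_of_le hp)]
  simp

lemma wr_eq (n : ℕ) (a c : F) (u1 w1 : F[X]) :
    Wr (C a * X ^ (n + 1) + u1) (C c * X ^ (n + 1) + w1) =
      X ^ n * (C a * (C ((n : F) + 1) * w1 - X * derivative w1) -
        C c * (C ((n : F) + 1) * u1 - X * derivative u1)) +
        (derivative u1 * w1 - derivative w1 * u1) := by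
  unfold Wr
  simp only [derivative_C_mul_X_pow, Nat.add_sub_cancel, C_mul, map_add, map_natCast,
    map_one, Nat.cast_add, Nat.cast_one]
  ring

lemma main (n : ℕ) (u w : F[X]) (hu : u.degree < ((n + 2 : ℕ) : WithBot ℕ))
    (hw : w.degree < ((n + 2 : ℕ) : WithBot ℕ)) :
    (Wr u w).coeff (n + n) = u.coeff (n + 1) * w.coeff n - u.coeff n * w.coeff (n + 1) ∧
    (Wr u w).natDegree ≤ n + n := by
  obtain ⟨u1, hu1, hu2, hu3⟩ := decomp hu
  obtain ⟨w1, hw1, hw2, hw3⟩ := decomp hw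
  have e : Wr u w = X ^ n * (C (u.coeff (n + 1)) * (C ((n : F) + 1) * w1 - X * derivative w1) -
        C (w.coeff (n + 1)) * (C ((n : F) + 1) * u1 - X * derivative u1)) +
        (derivative u1 * w1 - derivative w1 * u1) := by
    rw [← wr_eq, ← hu3, ← hw3]
  obtain ⟨l1, l2⟩ := low hu1 hw1
  obtain ⟨l3, l4⟩ := low hw1 hu1
  constructor
  · rw [e, coeff_add, coeff_X_pow_mul, coeff_sub, coeff_sub, coeff_C_mul, coeff_C_mul, coeff_T,
      coeff_T, l2, l4, hu2, hw2]
    ring
  · rw [e]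
    refine natDegree_add_le_of_degree_le (natDegree_mul_le_of_le (natDegree_X_pow_le n) ?_) ?_
    · refine (natDegree_sub_le _ _).trans (max_le ?_ ?_)
      · exact (natDegree_C_mul_le _ _).trans (natDegree_T hw1)
      · exact (natDegree_C_mul_le _ _).trans (natDegree_T hu1)
    · exact (natDegree_sub_le _ _).trans (max_le l1 l3)

lemma main_mo (n : ℕ) (u w : F[X]) (hu : u.natDegree ≤ n) (hw : w.natDegree ≤ n) :
    (Mo u w).coeff (4 * n) = u.coeff n * w.coeff n ^ 3 - u.coeff n ^ 3 * w.coeff n := by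
  have h1 : (w ^ 3).natDegree ≤ 3 * n := natDegree_pow_le_of_le 3 hw
  have h2 : (u ^ 3).natDegree ≤ 3 * n := natDegree_pow_le_of_le 3 hu
  have e1 : 4 * n = n + 3 * n := by ring
  have e2 : 4 * n = 3 * n + n := by ring
  unfold Mo
  rw [coeff_sub]
  congr 1
  · rw [e1, coeff_mul_add_eq_of_natDegree_le hu h1, coeff_pow_of_natDegree_le hw]
  · rw [e2, coeff_mul_add_eq_of_natDegree_le h2 hw, coeff_pow_of_natDegree_le hu]

end XTR

theorem p_TR (F : Type) [Field F] [Fintype F] [CharP F 3] (hB0 : S_B0 F) : S_TR F := by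
  intro g u w hg hu hw
  rw [hB0.1] at hu hw
  obtain ⟨n, rfl⟩ : ∃ n, g = n + 2 := ⟨g - 2, by omega⟩
  obtain ⟨m1, m2⟩ := XTR.main n u w hu hw
  have hu' : u.natDegree ≤ n + 1 := XTR.natDegree_le_of_lt hu
  have hw' : w.natDegree ≤ n + 1 := XTR.natDegree_le_of_lt hw
  have m3 := XTR.main_mo (n + 1) u w hu' hw'
  have e1 : 2 * (n + 2) - 4 = n + n := by omega
  have e2 : 4 * (n + 2) - 4 = 4 * (n + 1) := by omega
  have e3 : n + 2 - 1 = n + 1 := by omega
  have e4 : n + 2 - 2 = n := by omega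
  rw [e1, e2, e3, e4]
  exact ⟨m1, m3, m2⟩

end DH
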