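import Pool.Agent.H463.DH.Stm4

/-!
# V1: the case `e = 1` of the sum `VT`
-/

set_option autoImplicit false
set_option linter.unusedSectionVars false

open Polynomial
open scoped Classical

noncomputable section

namespace DH

namespace XV1

variable {F : Type} [Field F] [Fintype F] [CharP F 3]

theorem q3 : (3 : ℝ) ≤ qq F := by
  obtain ⟨n, hp, hn⟩ := FiniteField.card F 3
  unfold qq
  rw [hn]
  have h : 3 ≤ 3 ^ (n : ℕ) := by
    calc 3 = 3 ^ 1 := by norm_num
      _ ≤ 3 ^ (n : ℕ) := Nat.pow_le_pow_right (by norm_num) n.pos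
  exact_mod_cast h

theorem sum_le (hB0 : S_B0 F) (hCP : S_CP F) (S : Finset F[X]) (R : Finset ℕ)
    (hS : ∀ x ∈ S, x ≠ 0) (hR : ∀ x ∈ S, (cpart x).natDegree ∈ R) :
    ∑ x ∈ S, qq F ^ (cpart x).natDegree ≤
      ∑ β ∈ R, ∑ b ∈ MON F β, qq F ^ β * ((S.filter (fun x => b ^ 3 ∣ x)).card : ℝ) := by
  have hq : (0 : ℝ) ≤ qq F := by linarith [q3 (F := F)]
  have h1 : ∀ x ∈ S, qq F ^ (cpart x).natDegree ≤
      ∑ β ∈ R, ∑ b ∈ MON F β, if b ^ 3 ∣ x then qq F ^ β else 0 := by
    intro x hx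
    obtain ⟨hm, hd, _⟩ := hCP.1 x (hS x hx)
    have hmem : cpart x ∈ MON F (cpart x).natDegree := (hB0.2.1 _ _).2 ⟨hm, rfl⟩
    have h2 : qq F ^ (cpart x).natDegree ≤
        ∑ b ∈ MON F (cpart x).natDegree, if b ^ 3 ∣ x then qq F ^ (cpart x).natDegree else 0 := by
      have h3 := Finset.single_le_sum
        (f := fun b => if b ^ 3 ∣ x then qq F ^ (cpart x).natDegree else (0 : ℝ))
        (fun b _ => by
          by_cases hb : b ^ 3 ∣ x
          · simp only [hb, if_true]
            exact pow_nonneg hq _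
          · simp only [hb, if_false]
            exact le_refl _) hmem
      simpa only [hd, if_true] using h3
    refine h2.trans (Finset.single_le_sum
      (f := fun β => ∑ b ∈ MON F β, if b ^ 3 ∣ x then qq F ^ β else (0 : ℝ)) (fun β _ => ?_) (hR x hx))
    refine Finset.sum_nonneg fun b _ => ?_
    split_ifs
    · exact pow_nonneg hq _
    · exact le_refl _
  calc ∑ x ∈ S, qq F ^ (cpart x).natDegree
      ≤ ∑ x ∈ S, ∑ β ∈ R, ∑ b ∈ MON F β, (if b ^ 3 ∣ x then qq F ^ β else 0) :=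
        Finset.sum_le_sum h1
    _ = ∑ β ∈ R, ∑ b ∈ MON F β, qq F ^ β * ((S.filter (fun x => b ^ 3 ∣ x)).card : ℝ) := by
      rw [Finset.sum_comm]
      refine Finset.sum_congr rfl fun β _ => ?_
      rw [Finset.sum_comm]
      refine Finset.sum_congr rfl fun b _ => ?_
      rw [← Finset.sum_filter, Finset.sum_const, nsmul_eq_mul, mul_comm]

theorem count_pol (hB0 : S_B0 F) (n β : ℕ) (b : F[X]) (hb : b ∈ MON F β) :
    ((POL F n).filter (fun z => b ^ 3 ∣ z)).card ≤ Fintype.card F ^ (n - 3 * β) := by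
  obtain ⟨hm, hβ⟩ := (hB0.2.1 _ _).1 hb
  have hm3 : (b ^ 3).Monic := hm.pow 3
  have hdeg3 : (b ^ 3).natDegree = 3 * β := by rw [hm.natDegree_pow, hβ]
  have hdiv : ∀ z : F[X], b ^ 3 ∣ z → b ^ 3 * (z /ₘ b ^ 3) = z := by
    intro z hz
    have h := modByMonic_add_div z (b ^ 3)
    rw [(modByMonic_eq_zero_iff_dvd hm3).2 hz, zero_add] at h
    exact h
  rw [← hB0.2.2.2.1 (n - 3 * β)]
  refine Finset.card_le_card_of_injOn (fun z => z /ₘ b ^ 3) ?_ ?_
  · intro z hz
    rw [Finset.mem_coe, Finset.mem_filter] at hz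
    obtain ⟨hz1, hz2⟩ := hz
    rw [hB0.1] at hz1
    have h := hdiv z hz2
    rw [Finset.mem_coe, hB0.1]
    change (z /ₘ b ^ 3).degree < _
    by_cases hw : z /ₘ b ^ 3 = 0
    · rw [hw, degree_zero]
      exact WithBot.bot_lt_coe _
    · have hz0 : z ≠ 0 := by
        intro h0
        apply hw
        rw [h0, zero_divByMonic]
      have h1 : z.natDegree = 3 * β + (z /ₘ b ^ 3).natDegree := by
        conv_lhs => rw [← h]
        rw [natDegree_mul hm3.ne_zero hw, hdeg3]
      have h2 : z.natDegree < n := by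
        rw [degree_eq_natDegree hz0] at hz1
        exact_mod_cast hz1
      rw [degree_eq_natDegree hw]
      exact_mod_cast (by omega : (z /ₘ b ^ 3).natDegree < n - 3 * β)
  · intro z hz z' hz' h
    rw [Finset.mem_coe, Finset.mem_filter] at hz hz'
    simp only at h
    rw [← hdiv z hz.2, ← hdiv z' hz'.2, h]

theorem three_le (hB0 : S_B0 F) {d β : ℕ} {b x : F[X]} (hb : b ∈ MON F β) (hx : x ∈ DEG F d)
    (h : b ^ 3 ∣ x) : 3 * β ≤ d := by
  obtain ⟨hm, hβ⟩ := (hB0.2.1 _ _).1 hb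
  obtain ⟨hx0, hxd⟩ := (hB0.2.2.1 _ _).1 hx
  have h1 := natDegree_le_of_dvd h hx0
  rw [hm.natDegree_pow, hβ, hxd] at h1
  exact h1

theorem count_deg (hB0 : S_B0 F) (d β : ℕ) (b : F[X]) (hb : b ∈ MON F β) :
    (((DEG F d).filter (fun x => b ^ 3 ∣ x)).card : ℝ) ≤ qq F ^ (d + 1) / qq F ^ (3 * β) := by
  have hq : (0 : ℝ) < qq F := by linarith [q3 (F := F)]
  by_cases h : 3 * β ≤ d
  · have h1 : ((DEG F d).filter (fun x => b ^ 3 ∣ x)) ⊆ ((POL F (d + 1)).filter (fun x => b ^ 3 ∣ x)) := by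
      intro x hx
      rw [Finset.mem_filter] at hx ⊢
      refine ⟨?_, hx.2⟩
      obtain ⟨hx0, hxd⟩ := (hB0.2.2.1 _ _).1 hx.1
      rw [hB0.1, degree_eq_natDegree hx0, hxd]
      exact_mod_cast Nat.lt_succ_self d
    have h2 := (Finset.card_le_card h1).trans (count_pol hB0 (d + 1) β b hb)
    have h3 : (((DEG F d).filter (fun x => b ^ 3 ∣ x)).card : ℝ) ≤ qq F ^ (d + 1 - 3 * β) := by
      unfold qq
      exact_mod_cast h2
    refine h3.trans (le_of_eq ?_)
    rw [eq_div_iff (pow_pos hq _).ne', ← pow_add]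
    congr 1
    omega
  · have h1 : ((DEG F d).filter (fun x => b ^ 3 ∣ x)) = ∅ := by
      rw [Finset.filter_eq_empty_iff]
      intro x hx hd
      exact h (three_le hB0 hb hx hd)
    rw [h1, Finset.card_empty, Nat.cast_zero]
    positivity

theorem count_top (hB0 : S_B0 F) (d β : ℕ) (hd : 1 ≤ d) (b : F[X]) (hb : b ∈ MON F β) (φ : F → F) :
    (((DEG F d).filter (fun y => y.coeff (d - 1) = φ (y.coeff d) ∧ b ^ 3 ∣ y)).card : ℝ) ≤
      qq F ^ d / qq F ^ (3 * β) + qq F := by
  have hq : (0 : ℝ) < qq F := by linarith [q3 (F := F)]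
  have hq1 : (1 : ℝ) ≤ qq F := by linarith [q3 (F := F)]
  set S := (DEG F d).filter (fun y => y.coeff (d - 1) = φ (y.coeff d) ∧ b ^ 3 ∣ y) with hS
  have hfib : ∀ c : F, ((S.filter (fun y => y.coeff d = c)).card : ℝ) ≤
      qq F ^ (d - 1) / qq F ^ (3 * β) + 1 := by
    intro c
    rcases (S.filter (fun y => y.coeff d = c)).eq_empty_or_nonempty with he | ⟨y0, hy0⟩
    · rw [he, Finset.card_empty, Nat.cast_zero]
      positivity
    · have h1 : (S.filter (fun y => y.coeff d = c)).card ≤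
          ((POL F (d - 1)).filter (fun z => b ^ 3 ∣ z)).card := by
        refine Finset.card_le_card_of_injOn (fun y => y - y0) ?_ ?_
        · intro y hy
          rw [Finset.mem_coe] at hy
          rw [Finset.mem_coe, Finset.mem_filter, hB0.1]
          rw [hS, Finset.mem_filter, Finset.mem_filter] at hy hy0
          obtain ⟨⟨hy1, hy2, hy3⟩, hy4⟩ := hy
          obtain ⟨⟨hz1, hz2, hz3⟩, hz4⟩ := hy0
          refine ⟨?_, dvd_sub hy3 hz3⟩
          rw [degree_lt_iff_coeff_zero]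
          intro m hm
          rw [coeff_sub]
          have hyd := ((hB0.2.2.1 _ _).1 hy1).2
          have hzd := ((hB0.2.2.1 _ _).1 hz1).2
          rcases Nat.lt_trichotomy m d with h | h | h
          · have hmd : m = d - 1 := by omega
            rw [hmd, hy2, hz2, hy4, hz4, sub_self]
          · rw [h, hy4, hz4, sub_self]
          · rw [coeff_eq_zero_of_natDegree_lt (by omega), coeff_eq_zero_of_natDegree_lt (by omega),
              sub_self]
        · intro y _ y' _ h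
          exact sub_left_injective h
      have h2 := h1.trans (count_pol hB0 (d - 1) β b hb)
      have h3 : ((S.filter (fun y => y.coeff d = c)).card : ℝ) ≤ qq F ^ (d - 1 - 3 * β) := by
        unfold qq
        exact_mod_cast h2
      refine h3.trans ?_
      by_cases h : 3 * β ≤ d - 1
      · have h4 : qq F ^ (d - 1 - 3 * β) = qq F ^ (d - 1) / qq F ^ (3 * β) := by
          rw [eq_div_iff (pow_pos hq _).ne', ← pow_add]
          congr 1
          omega
        rw [h4]
        linarith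
      · have h4 : d - 1 - 3 * β = 0 := by omega
        rw [h4, pow_zero]
        have : (0 : ℝ) ≤ qq F ^ (d - 1) / qq F ^ (3 * β) := by positivity
        linarith
  have hcard : (S.card : ℝ) = ∑ c : F, ((S.filter (fun y => y.coeff d = c)).card : ℝ) := by
    have h := Finset.card_eq_sum_card_fiberwise (s := S) (t := (Finset.univ : Finset F))
      (f := fun y : F[X] => y.coeff d) (fun y _ => by simp)
    exact_mod_cast h
  rw [hcard]
  calc ∑ c : F, ((S.filter (fun y => y.coeff d = c)).card : ℝ)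
      ≤ ∑ _c : F, (qq F ^ (d - 1) / qq F ^ (3 * β) + 1) := Finset.sum_le_sum fun c _ => hfib c
    _ = qq F * (qq F ^ (d - 1) / qq F ^ (3 * β) + 1) := by
        rw [Finset.sum_const, nsmul_eq_mul, Finset.card_univ]
        rfl
    _ = qq F ^ d / qq F ^ (3 * β) + qq F := by
        have h : qq F ^ d = qq F * qq F ^ (d - 1) := by
          rw [← pow_succ']
          congr 1
          omega
        rw [h]
        ring

theorem card_mon (hB0 : S_B0 F) (β : ℕ) : ((MON F β).card : ℝ) = qq F ^ β := by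
  rw [hB0.2.2.2.2.1 β]
  unfold qq
  push_cast
  rfl

theorem geo (x : ℝ) (hx : 3 ≤ x) (B : ℕ) : ∑ β ∈ Finset.range (B + 1), 1 / x ^ β ≤ 3 / 2 := by
  have h : ∀ n : ℕ, ∑ β ∈ Finset.range n, 1 / x ^ β ≤ 3 / 2 - (1 / 2) / x ^ n * 3 / x * x := by
    intro n
    induction n with
    | zero =>
      have : x ≠ 0 := by linarith
      simp only [Finset.range_zero, Finset.sum_empty, pow_zero, div_one]
      field_simp
      norm_num
    | succ n ih =>
      have hx0 : (0 : ℝ) < x := by linarith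
      rw [Finset.sum_range_succ]
      have h1 : (0 : ℝ) < 1 / x ^ n := by positivity
      have h2 : (1 / 2) / x ^ n * 3 / x * x = 3 / 2 * (1 / x ^ n) := by
        field_simp
      have h3 : (1 / 2) / x ^ (n + 1) * 3 / x * x = 3 / 2 * (1 / x ^ n) * (1 / x) := by
        rw [pow_succ]
        field_simp
      rw [h2] at ih
      rw [h3]
      have h4 : 1 / x ≤ 1 / 3 := one_div_le_one_div_of_le (by norm_num) hx
      nlinarith
  have hx0 : (0 : ℝ) < x := by linarith
  have h5 := h (B + 1)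
  have h6 : (0 : ℝ) ≤ (1 / 2) / x ^ (B + 1) * 3 / x * x := by positivity
  linarith

theorem geo2 (x : ℝ) (hx : 3 ≤ x) (B : ℕ) : ∑ β ∈ Finset.range (B + 1), x ^ (2 * β) ≤ 2 * x ^ (2 * B) := by
  induction B with
  | zero => simp
  | succ n ih =>
    rw [Finset.sum_range_succ]
    have h1 : (0 : ℝ) < x ^ (2 * n) := by
      have : (0 : ℝ) < x := by linarith
      positivity
    have h2 : x ^ (2 * (n + 1)) = x ^ 2 * x ^ (2 * n) := by
      rw [← pow_add]
      congr 1
      ring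
    rw [h2]
    have h3 : (2 : ℝ) ≤ x ^ 2 := by nlinarith
    have h4 : 2 * x ^ (2 * n) ≤ x ^ 2 * x ^ (2 * n) := mul_le_mul_of_nonneg_right h3 h1.le
    linarith

/-- the ranges of the degrees of the cube parts -/
def R0 (d : ℕ) : Finset ℕ := Finset.range (d / 3 + 1)

/-- the same without `0` -/
def R1 (d : ℕ) : Finset ℕ := (R0 d).filter (fun β => 1 ≤ β)

theorem sumR0 (x : ℝ) (hx : 3 ≤ x) (d : ℕ) : ∑ β ∈ R0 d, 1 / x ^ β ≤ 3 / 2 := geo x hx _

theorem sumR1 (x : ℝ) (hx : 3 ≤ x) (d : ℕ) : ∑ β ∈ R1 d, 1 / x ^ β ≤ 3 / 2 / x := by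
  have hx0 : (0 : ℝ) < x := by linarith
  have h0 : R1 d = (Finset.range (d / 3)).image (fun β => β + 1) := by
    ext β
    simp only [R1, R0, Finset.mem_filter, Finset.mem_range, Finset.mem_image]
    constructor
    · intro h
      exact ⟨β - 1, by omega, by omega⟩
    · rintro ⟨a, h1, h2⟩
      omega
  rw [h0, Finset.sum_image (fun a _ b _ h => by simpa using h)]
  have h1 : ∀ β : ℕ, 1 / x ^ (β + 1) = 1 / x ^ β * (1 / x) := by
    intro β
    rw [pow_succ]
    field_simp
  simp_rw [h1]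
  rw [← Finset.sum_mul]
  have h2 : ∑ β ∈ Finset.range (d / 3), 1 / x ^ β ≤ 3 / 2 := by
    refine le_trans ?_ (geo x hx (d / 3))
    rw [Finset.sum_range_succ]
    have : (0 : ℝ) ≤ 1 / x ^ (d / 3) := by positivity
    linarith
  calc (∑ β ∈ Finset.range (d / 3), 1 / x ^ β) * (1 / x) ≤ 3 / 2 * (1 / x) :=
        mul_le_mul_of_nonneg_right h2 (by positivity)
    _ = 3 / 2 / x := by ring

theorem sumQ (x : ℝ) (hx : 3 ≤ x) (d : ℕ) (R : Finset ℕ) (hR : R ⊆ R0 d) :
    ∑ β ∈ R, x ^ (2 * β) ≤ 2 * x ^ (2 * (d / 3)) := by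
  refine le_trans (Finset.sum_le_sum_of_subset_of_nonneg hR fun β _ _ => ?_) (geo2 x hx (d / 3))
  have : (0 : ℝ) < x := by linarith
  positivity

theorem mem_R0 (hB0 : S_B0 F) (hCP : S_CP F) {d : ℕ} {x : F[X]} (hx : x ∈ DEG F d) :
    (cpart x).natDegree ∈ R0 d := by
  obtain ⟨hx0, _⟩ := (hB0.2.2.1 _ _).1 hx
  obtain ⟨hm, hd, _⟩ := hCP.1 x hx0
  have h := three_le hB0 ((hB0.2.1 _ _).2 ⟨hm, rfl⟩) hx hd
  rw [R0, Finset.mem_range]
  omega

theorem sumA (hB0 : S_B0 F) (hCP : S_CP F) (d : ℕ) (R : Finset ℕ) (s : ℝ)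
    (hs : ∑ β ∈ R, 1 / qq F ^ β ≤ s) :
    ∑ x ∈ (DEG F d).filter (fun x => (cpart x).natDegree ∈ R), qq F ^ (cpart x).natDegree ≤
      s * qq F ^ (d + 1) := by
  have hq : (0 : ℝ) < qq F := by linarith [q3 (F := F)]
  refine (sum_le hB0 hCP _ R (fun x hx => ((hB0.2.2.1 _ _).1 (Finset.mem_filter.1 hx).1).1)
    (fun x hx => (Finset.mem_filter.1 hx).2)).trans ?_
  calc ∑ β ∈ R, ∑ b ∈ MON F β, qq F ^ β *
        ((((DEG F d).filter (fun x => (cpart x).natDegree ∈ R)).filter (fun x => b ^ 3 ∣ x)).card : ℝ)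
      ≤ ∑ β ∈ R, ∑ _b ∈ MON F β, qq F ^ β * (qq F ^ (d + 1) / qq F ^ (3 * β)) := by
        refine Finset.sum_le_sum fun β _ => Finset.sum_le_sum fun b hb => ?_
        refine mul_le_mul_of_nonneg_left ?_ (pow_pos hq _).le
        refine le_trans ?_ (count_deg hB0 d β b hb)
        exact_mod_cast Finset.card_le_card
          (Finset.filter_subset_filter _ (Finset.filter_subset _ _))
    _ = ∑ β ∈ R, qq F ^ (d + 1) * (1 / qq F ^ β) := by
        refine Finset.sum_congr rfl fun β _ => ?_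
        rw [Finset.sum_const, nsmul_eq_mul, card_mon hB0]
        have h : qq F ^ (3 * β) = qq F ^ β * qq F ^ β * qq F ^ β := by
          rw [← pow_add, ← pow_add]
          congr 1
          ring
        rw [h]
        field_simp
    _ ≤ s * qq F ^ (d + 1) := by
        rw [← Finset.mul_sum, mul_comm]
        exact mul_le_mul_of_nonneg_right hs (pow_pos hq _).le

theorem sumB (hB0 : S_B0 F) (hCP : S_CP F) (d : ℕ) (hd : 1 ≤ d) (φ : F → F) (R : Finset ℕ)
    (hR : R ⊆ R0 d) (s : ℝ) (hs : ∑ β ∈ R, 1 / qq F ^ β ≤ s) :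
    ∑ y ∈ (DEG F d).filter (fun y => y.coeff (d - 1) = φ (y.coeff d) ∧ (cpart y).natDegree ∈ R),
      qq F ^ (cpart y).natDegree ≤ s * qq F ^ d + 2 * (qq F * qq F ^ (2 * (d / 3))) := by
  have hq : (0 : ℝ) < qq F := by linarith [q3 (F := F)]
  refine (sum_le hB0 hCP _ R (fun x hx => ((hB0.2.2.1 _ _).1 (Finset.mem_filter.1 hx).1).1)
    (fun x hx => (Finset.mem_filter.1 hx).2.2)).trans ?_
  calc ∑ β ∈ R, ∑ b ∈ MON F β, qq F ^ β *
        ((((DEG F d).filter (fun y => y.coeff (d - 1) = φ (y.coeff d) ∧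
          (cpart y).natDegree ∈ R)).filter (fun x => b ^ 3 ∣ x)).card : ℝ)
      ≤ ∑ β ∈ R, ∑ _b ∈ MON F β, qq F ^ β * (qq F ^ d / qq F ^ (3 * β) + qq F) := by
        refine Finset.sum_le_sum fun β _ => Finset.sum_le_sum fun b hb => ?_
        refine mul_le_mul_of_nonneg_left ?_ (pow_pos hq _).le
        refine le_trans ?_ (count_top hB0 d β hd b hb φ)
        have hsub : (((DEG F d).filter (fun y => y.coeff (d - 1) = φ (y.coeff d) ∧
            (cpart y).natDegree ∈ R)).filter (fun x => b ^ 3 ∣ x)) ⊆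
            (DEG F d).filter (fun y => y.coeff (d - 1) = φ (y.coeff d) ∧ b ^ 3 ∣ y) := by
          intro y hy
          rw [Finset.mem_filter, Finset.mem_filter] at hy
          rw [Finset.mem_filter]
          exact ⟨hy.1.1, hy.1.2.1, hy.2⟩
        exact_mod_cast Finset.card_le_card hsub
    _ = ∑ β ∈ R, (qq F ^ d * (1 / qq F ^ β) + qq F * qq F ^ (2 * β)) := by
        refine Finset.sum_congr rfl fun β _ => ?_
        rw [Finset.sum_const, nsmul_eq_mul, card_mon hB0]
        have h : qq F ^ (3 * β) = qq F ^ β * qq F ^ β * qq F ^ β := by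
          rw [← pow_add, ← pow_add]
          congr 1
          ring
        have h' : qq F ^ (2 * β) = qq F ^ β * qq F ^ β := by
          rw [← pow_add]
          congr 1
          ring
        rw [h, h']
        field_simp
    _ ≤ s * qq F ^ d + 2 * (qq F * qq F ^ (2 * (d / 3))) := by
        rw [Finset.sum_add_distrib, ← Finset.mul_sum, ← Finset.mul_sum]
        have h1 : qq F ^ d * ∑ β ∈ R, 1 / qq F ^ β ≤ qq F ^ d * s :=
          mul_le_mul_of_nonneg_left hs (pow_pos hq _).le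
        have h2 : qq F * ∑ β ∈ R, qq F ^ (2 * β) ≤ qq F * (2 * qq F ^ (2 * (d / 3))) :=
          mul_le_mul_of_nonneg_left (sumQ (qq F) q3 d R hR) hq.le
        nlinarith

end XV1

open XV1

theorem p_V1 (F : Type) [Field F] [Fintype F] [CharP F 3] (hB0 : S_B0 F) (hTR : S_TR F)
    (hCP : S_CP F) : S_V1 F := by
  intro g hg
  have hq3 : (3 : ℝ) ≤ qq F := q3
  have hq : (0 : ℝ) < qq F := by linarith
  have hq1 : (1 : ℝ) ≤ qq F := by linarith
  obtain ⟨d, rfl⟩ : ∃ d, g = d + 1 := ⟨g - 1, by omega⟩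
  have hd : 1 ≤ d := by omega
  unfold VT
  simp only [Nat.sub_zero, Nat.add_sub_cancel, one_mul, Nat.zero_add]
  set E : ℝ := qq F * qq F ^ (2 * (d / 3)) with hE
  have hE0 : 0 < E := by positivity
  -- the function giving the second coefficient
  have hphi : ∀ x ∈ DEG F d, ∃ φ : F → F, ∀ y ∈ DEG F d, TopR (d + 1) x y →
      y.coeff (d - 1) = φ (y.coeff d) := by
    intro x hx
    obtain ⟨hx0, hxd⟩ := (hB0.2.2.1 _ _).1 hx
    have ha : x.coeff d ≠ 0 := by
      rw [← hxd]
      exact leadingCoeff_ne_zero.2 hx0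
    refine ⟨fun b => (x.coeff (d - 1) * b + x.coeff d * b ^ 3 - x.coeff d ^ 3 * b) / x.coeff d,
      fun y hy hT => ?_⟩
    have hpol : ∀ z ∈ DEG F d, z ∈ POL F (d + 1) := by
      intro z hz
      obtain ⟨hz0, hzd⟩ := (hB0.2.2.1 _ _).1 hz
      rw [hB0.1, degree_eq_natDegree hz0, hzd]
      exact_mod_cast Nat.lt_succ_self d
    obtain ⟨h1, h2, _⟩ := hTR (d + 1) x y (by omega) (hpol x hx) (hpol y hy)
    have e1 : d + 1 - 1 = d := by omega
    have e2 : d + 1 - 2 = d - 1 := by omega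
    rw [e1, e2] at h1
    rw [e1] at h2
    unfold TopR at hT
    rw [h1, h2] at hT
    simp only
    rw [eq_div_iff ha]
    linear_combination hT
  have hin : ∀ x ∈ DEG F d,
      ∑ y ∈ (DEG F d).filter (fun y => Cnd 1 x y ∧ TopR (d + 1) x y ∧
          1 ≤ (cpart x).natDegree + (cpart y).natDegree),
        qq F ^ ((cpart x).natDegree + (cpart y).natDegree) ≤
      (if (cpart x).natDegree ∈ R1 d then qq F ^ (cpart x).natDegree * (3 / 2 * qq F ^ d + 2 * E) else 0) +
        qq F ^ (cpart x).natDegree * (3 / 2 / qq F * qq F ^ d + 2 * E) := by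
    intro x hx
    obtain ⟨φ, hφ⟩ := hphi x hx
    have hw : 0 < qq F ^ (cpart x).natDegree := pow_pos hq _
    have hx0 := mem_R0 hB0 hCP hx
    by_cases hc : (cpart x).natDegree ∈ R1 d
    · rw [if_pos hc]
      have h1 : ∑ y ∈ (DEG F d).filter (fun y => Cnd 1 x y ∧ TopR (d + 1) x y ∧
          1 ≤ (cpart x).natDegree + (cpart y).natDegree),
          qq F ^ ((cpart x).natDegree + (cpart y).natDegree) ≤
          ∑ y ∈ (DEG F d).filter (fun y => y.coeff (d - 1) = φ (y.coeff d) ∧ (cpart y).natDegree ∈ R0 d),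
            qq F ^ ((cpart x).natDegree + (cpart y).natDegree) := by
        refine Finset.sum_le_sum_of_subset_of_nonneg ?_ fun y _ _ => (pow_pos hq _).le
        intro y hy
        rw [Finset.mem_filter] at hy ⊢
        exact ⟨hy.1, hφ y hy.1 hy.2.2.1, mem_R0 hB0 hCP hy.1⟩
      simp only [pow_add] at h1 ⊢
      rw [← Finset.mul_sum] at h1
      rw [← Finset.mul_sum] at h1 ⊢
      have h2 := sumB hB0 hCP d hd φ (R0 d) (Finset.Subset.refl _) (3 / 2) (sumR0 (qq F) hq3 d)
      have h3 := mul_le_mul_of_nonneg_left h2 hw.le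
      have h4 : 0 ≤ qq F ^ (cpart x).natDegree * (3 / 2 / qq F * qq F ^ d + 2 * E) := by positivity
      linarith
    · rw [if_neg hc, zero_add]
      have hx1 : (cpart x).natDegree = 0 := by
        by_contra hne
        exact hc (Finset.mem_filter.2 ⟨hx0, by omega⟩)
      have h1 : ∑ y ∈ (DEG F d).filter (fun y => Cnd 1 x y ∧ TopR (d + 1) x y ∧
          1 ≤ (cpart x).natDegree + (cpart y).natDegree),
          qq F ^ ((cpart x).natDegree + (cpart y).natDegree) ≤
          ∑ y ∈ (DEG F d).filter (fun y => y.coeff (d - 1) = φ (y.coeff d) ∧ (cpart y).natDegree ∈ R1 d),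
            qq F ^ ((cpart x).natDegree + (cpart y).natDegree) := by
        refine Finset.sum_le_sum_of_subset_of_nonneg ?_ fun y _ _ => (pow_pos hq _).le
        intro y hy
        rw [Finset.mem_filter] at hy ⊢
        refine ⟨hy.1, hφ y hy.1 hy.2.2.1, Finset.mem_filter.2 ⟨mem_R0 hB0 hCP hy.1, ?_⟩⟩
        have := hy.2.2.2
        omega
      simp only [pow_add] at h1 ⊢
      rw [← Finset.mul_sum] at h1
      rw [← Finset.mul_sum] at h1 ⊢
      have h2 := sumB hB0 hCP d hd φ (R1 d) (Finset.filter_subset _ _) (3 / 2 / qq F)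
        (sumR1 (qq F) hq3 d)
      have h3 := mul_le_mul_of_nonneg_left h2 hw.le
      linarith
  refine (Finset.sum_le_sum hin).trans ?_
  rw [Finset.sum_add_distrib, ← Finset.sum_filter, ← Finset.sum_mul, ← Finset.sum_mul]
  have hA1 := sumA hB0 hCP d (R1 d) (3 / 2 / qq F) (sumR1 (qq F) hq3 d)
  have hA0 : ∑ x ∈ DEG F d, qq F ^ (cpart x).natDegree ≤ 3 / 2 * qq F ^ (d + 1) := by
    have h := sumA hB0 hCP d (R0 d) (3 / 2) (sumR0 (qq F) hq3 d)
    have he : (DEG F d).filter (fun x => (cpart x).natDegree ∈ R0 d) = DEG F d :=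
      Finset.filter_true_of_mem fun x hx => mem_R0 hB0 hCP hx
    rwa [he] at h
  have hB0' : (0 : ℝ) ≤ 3 / 2 * qq F ^ d + 2 * E := by positivity
  have hB1' : (0 : ℝ) ≤ 3 / 2 / qq F * qq F ^ d + 2 * E := by positivity
  have h1 := mul_le_mul_of_nonneg_right hA1 hB0'
  have h2 := mul_le_mul_of_nonneg_right hA0 hB1'
  refine (add_le_add h1 h2).trans ?_
  -- the final computation
  have hp1 : qq F ^ (d + 1) = qq F * qq F ^ d := by rw [pow_succ, mul_comm]
  have hEle : E ≤ qq F ^ (2 * (d + 1) / 3 + 1) := by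
    rw [hE, ← pow_succ']
    exact pow_le_pow_right₀ hq1 (by omega)
  have hG : qq F ^ (d + 1 + 2 * (d + 1) / 3 + 1) = qq F * qq F ^ d * qq F ^ (2 * (d + 1) / 3 + 1) := by
    rw [← hp1, ← pow_add]
    rfl
  have hD : qq F ^ (2 * (d + 1) - 2) = qq F ^ d * qq F ^ d := by
    rw [← pow_add]
    congr 1
    omega
  rw [hG, hD, hp1]
  set Q := qq F with hQ
  set P := Q ^ d with hP
  have hP0 : 0 < P := pow_pos hq _
  have e1 : 3 / 2 / Q * (Q * P) = 3 / 2 * P := by
    field_simp
  rw [e1]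
  have e2 : 3 / 2 * (Q * P) * (3 / 2 / Q * P + 2 * E) = 9 / 4 * (P * P) + 3 * (Q * P) * E := by
    field_simp
    ring
  rw [e2]
  have h5 : P * E ≤ Q * P * E := by
    have : P * 1 ≤ P * Q := mul_le_mul_of_nonneg_left hq1 hP0.le
    have h6 := mul_le_mul_of_nonneg_right this hE0.le
    linarith
  have h6 : Q * P * E ≤ Q * P * Q ^ (2 * (d + 1) / 3 + 1) :=
    mul_le_mul_of_nonneg_left hEle (by positivity)
  have h7 : 0 < P * P := by positivity
  nlinarith

end DH
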