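import Pool.Agent.H463.DH.Stm4

/-!
# VB: bound for `VT` (helper864, after `TS` of helper628)
-/

open Polynomial
open scoped Classical

noncomputable section

namespace DH

namespace XVB

variable {F : Type} [Field F] [Fintype F] [CharP F 3]

set_option linter.unusedSectionVars false

lemma qq_ge_one : (1 : ℝ) ≤ qq F := by
  unfold qq
  exact_mod_cast Fintype.card_pos

lemma qq_pos : (0 : ℝ) < qq F := lt_of_lt_of_le one_pos qq_ge_one

lemma Rz_nonneg (Z : ℕ) (e x : F[X]) : 0 ≤ Rz Z e x := by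
  unfold Rz
  exact pow_nonneg qq_pos.le _

/-- the gcd decomposition -/
lemma decomp {e x : F[X]} (he : e.Monic) (hs : Squarefree e) :
    ∃ h e' : F[X], h.Monic ∧ e'.Monic ∧ e = h * e' ∧ h ∣ x ∧ IsCoprime e' x := by
  set d := EuclideanDomain.gcd e x with hd
  have hd0 : d ≠ 0 := by
    intro h0
    exact he.ne_zero ((EuclideanDomain.gcd_eq_zero_iff.1 h0).1)
  have hn : Associated (normalize d) d := normalize_associated d
  have hde : normalize d ∣ e := hn.dvd.trans (EuclideanDomain.gcd_dvd_left e x)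
  have hdx : normalize d ∣ x := hn.dvd.trans (EuclideanDomain.gcd_dvd_right e x)
  have hm : (normalize d).Monic := monic_normalize hd0
  obtain ⟨e', he'⟩ := hde
  obtain ⟨x', hx'⟩ := hdx
  have he'm : e'.Monic := by
    apply hm.of_mul_monic_left
    rw [← he']
    exact he
  refine ⟨normalize d, e', hm, he'm, he', ⟨x', hx'⟩, ?_⟩
  -- coprime to the cofactor
  have hbez : ∃ a b : F[X], normalize d = e * a + x * b := by
    obtain ⟨k, hk⟩ := hn.symm.dvd
    have hg : d = e * EuclideanDomain.gcdA e x + x * EuclideanDomain.gcdB e x :=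
      EuclideanDomain.gcd_eq_gcd_ab e x
    refine ⟨EuclideanDomain.gcdA e x * k, EuclideanDomain.gcdB e x * k, ?_⟩
    calc normalize d = d * k := hk
      _ = (e * EuclideanDomain.gcdA e x + x * EuclideanDomain.gcdB e x) * k := by rw [← hg]
      _ = _ := by ring
  obtain ⟨a, b, hab⟩ := hbez
  have hcop1 : IsCoprime e' x' := by
    refine ⟨a, b, ?_⟩
    apply mul_left_cancel₀ hm.ne_zero
    have h1 : normalize d = (normalize d * e') * a + (normalize d * x') * b := by
      rw [← he', ← hx']; exact hab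
    linear_combination -h1
  have hcop2 : IsCoprime e' (normalize d) := by
    rw [he'] at hs
    exact ((isRelPrime_iff_isCoprime.1 (squarefree_mul_iff.1 hs).1)).symm
  rw [hx']
  exact hcop2.mul_right hcop1

lemma sq_dvd {e h x y : F[X]} (hh : h.Monic) (hsq : Squarefree h) (he : h ∣ e) (hx : h ∣ x)
    (hC : Cnd e x y) : h ^ 2 ∣ x := by
  obtain ⟨_, hW, hP⟩ := hC
  have hcop : IsCoprime h y := by
    rw [← isRelPrime_iff_isCoprime]
    intro d hd1 hd2
    by_contra hu
    have hd0 : d ≠ 0 := by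
      rintro rfl
      exact hh.ne_zero (zero_dvd_iff.1 hd1)
    obtain ⟨P, hPi, hPd⟩ := WfDvdMonoid.exists_irreducible_factor hu hd0
    exact hP P hPi ((hPd.trans hd1).trans he) ⟨(hPd.trans hd1).trans hx, hPd.trans hd2⟩
  have h1 : h ∣ derivative x * y := by
    have h2 : h ∣ Wr x y := he.trans hW
    have h3 : h ∣ x * derivative y := hx.mul_right _
    have h4 : derivative x * y = Wr x y + x * derivative y := by
      unfold Wr; ring
    rw [h4]
    exact dvd_add h2 h3
  have h5 : h ∣ derivative x := hcop.dvd_of_dvd_mul_right h1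
  obtain ⟨x₁, rfl⟩ := hx
  have h6 : h ∣ derivative h * x₁ := by
    have h7 : derivative h * x₁ = derivative (h * x₁) - h * derivative x₁ := by
      rw [derivative_mul]; ring
    rw [h7]
    exact dvd_sub h5 (dvd_mul_right _ _)
  have hsep : h.Separable := PerfectField.separable_iff_squarefree.2 hsq
  have h8 : h ∣ x₁ := hsep.dvd_of_dvd_mul_left h6
  rw [pow_two]
  exact mul_dvd_mul_left h h8

/-- the product with `e` has degree `g - 1` -/
lemma mem_POL (hB0 : S_B0 F) {g m : ℕ} (hmg : m + 2 ≤ g) {e x : F[X]} (he : e.Monic)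
    (hed : e.natDegree = m) (hx : x ∈ DEG F (g - m - 1)) : e * x ∈ POL F g := by
  obtain ⟨hPOL, -, hDEG, -, -, -⟩ := hB0
  obtain ⟨hx0, hxd⟩ := (hDEG _ _).1 hx
  rw [hPOL]
  have h1 : e * x ≠ 0 := mul_ne_zero he.ne_zero hx0
  rw [← natDegree_lt_iff_degree_lt h1, natDegree_mul he.ne_zero hx0, hed, hxd]
  omega

/-- the top coefficient -/
lemma top_coeff {g m : ℕ} (hmg : m + 2 ≤ g) {e x : F[X]} (he : e.Monic)
    (hed : e.natDegree = m) (hxd : x.natDegree = g - m - 1) :
    (e * x).coeff (g - 1) = x.coeff (g - m - 1) := by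
  have h1 : g - 1 = m + (g - m - 1) := by omega
  have h2 : e.coeff m = 1 := by
    rw [← hed]
    exact he.coeff_natDegree
  rw [h1, coeff_mul_add_eq_of_natDegree_le hed.le (by omega), h2, one_mul]

/-- the top relation determines the second coefficient -/
lemma second (hB0 : S_B0 F) (hTR : S_TR F) {g m : ℕ} (hmg : m + 2 ≤ g) {e x y y' : F[X]}
    (he : e.Monic) (hed : e.natDegree = m) (hx : x ∈ DEG F (g - m - 1))
    (hy : y ∈ DEG F (g - m - 1)) (hy' : y' ∈ DEG F (g - m - 1))
    (h1 : TopR g (e * x) (e * y)) (h2 : TopR g (e * x) (e * y'))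
    (h3 : y.coeff (g - m - 1) = y'.coeff (g - m - 1)) :
    y.coeff (g - m - 2) = y'.coeff (g - m - 2) := by
  have hux := mem_POL hB0 hmg he hed hx
  have huy := mem_POL hB0 hmg he hed hy
  have huy' := mem_POL hB0 hmg he hed hy'
  obtain ⟨-, -, hDEG, -, -, -⟩ := hB0
  obtain ⟨hx0, hxd⟩ := (hDEG _ _).1 hx
  obtain ⟨hy0, hyd⟩ := (hDEG _ _).1 hy
  obtain ⟨hy'0, hy'd⟩ := (hDEG _ _).1 hy'
  obtain ⟨a1, a2, -⟩ := hTR g (e * x) (e * y) (by omega) hux huy
  obtain ⟨b1, b2, -⟩ := hTR g (e * x) (e * y') (by omega) hux huy'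
  unfold TopR at h1 h2
  rw [a1, a2, top_coeff hmg he hed hyd] at h1
  rw [b1, b2, top_coeff hmg he hed hy'd, ← h3] at h2
  have hu : (e * x).coeff (g - 1) ≠ 0 := by
    rw [top_coeff hmg he hed hxd, ← hxd]
    exact leadingCoeff_ne_zero.2 hx0
  have h4 : (e * x).coeff (g - 1) * (e * y).coeff (g - 2) =
      (e * x).coeff (g - 1) * (e * y').coeff (g - 2) := by
    linear_combination h1 - h2
  have h5 : (e * y).coeff (g - 2) = (e * y').coeff (g - 2) := mul_left_cancel₀ hu h4
  have h6 : (e * (y - y')).coeff (g - 2) = 0 := by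
    rw [mul_sub, coeff_sub, h5, sub_self]
  have h7 : (y - y').natDegree ≤ g - m - 2 := by
    rw [natDegree_le_iff_coeff_eq_zero]
    intro N hN
    rw [coeff_sub]
    by_cases hN2 : N = g - m - 1
    · rw [hN2, h3, sub_self]
    · rw [coeff_eq_zero_of_natDegree_lt (by omega), coeff_eq_zero_of_natDegree_lt (by omega),
        sub_zero]
  have h8 : g - 2 = m + (g - m - 2) := by omega
  have h9 : e.coeff m = 1 := by
    rw [← hed]
    exact he.coeff_natDegree
  rw [h8, coeff_mul_add_eq_of_natDegree_le hed.le h7, h9, one_mul, coeff_sub] at h6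
  exact sub_eq_zero.1 h6

/-- the second coefficient as a function of the first -/
lemma exists_phi (hB0 : S_B0 F) (hTR : S_TR F) {g m : ℕ} (hmg : m + 2 ≤ g) {e x : F[X]}
    (he : e.Monic) (hed : e.natDegree = m) (hx : x ∈ DEG F (g - m - 1)) :
    ∃ φ : F → F, ∀ y ∈ DEG F (g - m - 1), TopR g (e * x) (e * y) →
      y.coeff (g - m - 2) = φ (y.coeff (g - m - 1)) := by
  refine ⟨fun b => if h : ∃ y ∈ DEG F (g - m - 1), TopR g (e * x) (e * y) ∧
    y.coeff (g - m - 1) = b then h.choose.coeff (g - m - 2) else 0, ?_⟩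
  intro y hy hT
  have hex : ∃ y' ∈ DEG F (g - m - 1), TopR g (e * x) (e * y') ∧
    y'.coeff (g - m - 1) = y.coeff (g - m - 1) := ⟨y, hy, hT, rfl⟩
  change _ = if h : _ then _ else _
  rw [dif_pos hex]
  obtain ⟨h1, h2, h3⟩ := hex.choose_spec
  exact second hB0 hTR hmg he hed hx hy h1 hT h2 h3.symm

/-- `DEG ⊆ POLz` -/
lemma DEG_sub (hB0 : S_B0 F) {Z : ℕ} (hZ : 1 ≤ Z) : DEG F (Z - 1) ⊆ POLz F Z := by
  obtain ⟨hPOL, -, hDEG, -, -, -⟩ := hB0
  intro x hx
  obtain ⟨hx0, hxd⟩ := (hDEG _ _).1 hx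
  unfold POLz
  rw [Finset.mem_filter, hPOL, ← natDegree_lt_iff_degree_lt hx0, hxd]
  exact ⟨by omega, hx0⟩

end XVB

theorem p_VB (F : Type) [Field F] [Fintype F] [CharP F 3] (hB0 : S_B0 F) (hTR : S_TR F)
    (hYT : S_YT F) (hX0 : S_X0 F) : S_VB F := by
  intro g m e hmg he hsq
  have hB0' := hB0
  obtain ⟨-, hMON, hDEG, -, -, -⟩ := hB0'
  obtain ⟨hem, hed⟩ := (hMON m e).1 he
  have hq := XVB.qq_pos (F := F)
  have hq1 := XVB.qq_ge_one (F := F)
  set q : ℝ := qq F with hqdef
  set K : ℕ → ℝ := fun k => 3 * (tau e : ℝ) * q ^ (g - m - 1) * q ^ k / q ^ m +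
    4 * g * q ^ (2 * g / 3 + m + 2) with hK
  have hK0 : ∀ k, 0 ≤ K k := by
    intro k
    simp only [hK]
    positivity
  have hterm : ∀ (x : F[X]) (k : ℕ) (h : F[X]),
      0 ≤ (if h ^ 2 ∣ x then Rz (g - m) e x * K k else 0) := by
    intro x k h
    split_ifs
    · exact mul_nonneg (XVB.Rz_nonneg (g - m) e x) (hK0 k)
    · exact le_refl _
  -- the bound for one `x`
  have hx : ∀ x ∈ DEG F (g - m - 1),
      ∑ y ∈ (DEG F (g - m - 1)).filter (fun y => Cnd e x y ∧ TopR g (e * x) (e * y) ∧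
        1 ≤ m + (cpart (e * x)).natDegree + (cpart (e * y)).natDegree),
        q ^ ((cpart (e * x)).natDegree + (cpart (e * y)).natDegree) ≤
      ∑ k ∈ Finset.range (m + 1), ∑ h ∈ (MON F k).filter (fun h => h ∣ e),
        (if h ^ 2 ∣ x then Rz (g - m) e x * K k else 0) := by
    intro x hxm
    obtain ⟨hx0, hxd⟩ := (hDEG _ _).1 hxm
    have hRx := XVB.Rz_nonneg (g - m) e x
    have hRx2 : Rz (g - m) e x = q ^ (cpart (e * x)).natDegree := by
      unfold Rz
      rw [hxd, Nat.sub_self, Nat.zero_div, zero_add]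
    by_cases hne : ((DEG F (g - m - 1)).filter (fun y => Cnd e x y ∧ TopR g (e * x) (e * y) ∧
        1 ≤ m + (cpart (e * x)).natDegree + (cpart (e * y)).natDegree)).Nonempty
    · obtain ⟨y, hy⟩ := hne
      have hyC : Cnd e x y := (Finset.mem_filter.1 hy).2.1
      obtain ⟨h, e', hhm, he'm, hee, hhx, hcop⟩ := XVB.decomp (x := x) hem hsq
      have hhe : h ∣ e := ⟨e', hee⟩
      have hhsq : Squarefree h := hsq.squarefree_of_dvd hhe
      have h2x : h ^ 2 ∣ x := XVB.sq_dvd hhm hhsq hhe hhx hyC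
      obtain ⟨φ, hφ⟩ := XVB.exists_phi hB0 hTR hmg hem hed hxm
      have hYTx := hYT g m e h e' x φ hmg hem hhm he'm hsq hed hee hhx hcop hx0
      have hdeg : h.natDegree ≤ m := by
        rw [← hed]
        exact natDegree_le_of_dvd hhe hem.ne_zero
      have hsub : ((DEG F (g - m - 1)).filter (fun y => Cnd e x y ∧ TopR g (e * x) (e * y) ∧
          1 ≤ m + (cpart (e * x)).natDegree + (cpart (e * y)).natDegree)) ⊆
          (DEG F (g - m - 1)).filter (fun y => Cnd e x y ∧
            y.coeff (g - m - 2) = φ (y.coeff (g - m - 1))) := by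
        intro y hy
        rw [Finset.mem_filter] at hy ⊢
        exact ⟨hy.1, hy.2.1, hφ y hy.1 hy.2.2.1⟩
      calc ∑ y ∈ (DEG F (g - m - 1)).filter (fun y => Cnd e x y ∧ TopR g (e * x) (e * y) ∧
            1 ≤ m + (cpart (e * x)).natDegree + (cpart (e * y)).natDegree),
            q ^ ((cpart (e * x)).natDegree + (cpart (e * y)).natDegree) ≤
          ∑ y ∈ (DEG F (g - m - 1)).filter (fun y => Cnd e x y ∧
            y.coeff (g - m - 2) = φ (y.coeff (g - m - 1))),
            q ^ ((cpart (e * x)).natDegree + (cpart (e * y)).natDegree) :=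
            Finset.sum_le_sum_of_subset_of_nonneg hsub (fun y _ _ => pow_nonneg hq.le _)
        _ = Rz (g - m) e x * ∑ y ∈ (DEG F (g - m - 1)).filter (fun y => Cnd e x y ∧
            y.coeff (g - m - 2) = φ (y.coeff (g - m - 1))), q ^ (cpart (e * y)).natDegree := by
            rw [hRx2, Finset.mul_sum]
            refine Finset.sum_congr rfl fun y _ => ?_
            rw [pow_add]
        _ ≤ Rz (g - m) e x * K h.natDegree := mul_le_mul_of_nonneg_left hYTx hRx
        _ = (if h ^ 2 ∣ x then Rz (g - m) e x * K h.natDegree else 0) := by rw [if_pos h2x]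
        _ ≤ ∑ h' ∈ (MON F h.natDegree).filter (fun h => h ∣ e),
            (if h' ^ 2 ∣ x then Rz (g - m) e x * K h.natDegree else 0) := by
            apply Finset.single_le_sum (f := fun h' : F[X] =>
              (if h' ^ 2 ∣ x then Rz (g - m) e x * K h.natDegree else 0))
              (fun h' _ => hterm x _ h')
            rw [Finset.mem_filter, hMON]
            exact ⟨⟨hhm, rfl⟩, hhe⟩
        _ ≤ _ := by
            apply Finset.single_le_sum (f := fun k : ℕ =>
              ∑ h' ∈ (MON F k).filter (fun h => h ∣ e),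
              (if h' ^ 2 ∣ x then Rz (g - m) e x * K k else 0))
              (fun k _ => Finset.sum_nonneg (fun h' _ => hterm x k h'))
            rw [Finset.mem_range]
            omega
    · rw [Finset.not_nonempty_iff_eq_empty] at hne
      rw [hne, Finset.sum_empty]
      exact Finset.sum_nonneg (fun k _ => Finset.sum_nonneg (fun h _ => hterm x k h))
  -- sum over `x`
  have htau : (tau e : ℝ) = ∑ k ∈ Finset.range (m + 1), ∑ _h ∈ (MON F k).filter (fun h => h ∣ e),
      (1 : ℝ) := by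
    unfold tau
    rw [hed]
    push_cast
    apply Finset.sum_congr rfl
    intro k _
    rw [Finset.sum_const, nsmul_eq_mul, mul_one]
  have hc : ∀ c : ℝ, ∑ k ∈ Finset.range (m + 1), ∑ _h ∈ (MON F k).filter (fun h => h ∣ e), c =
      (tau e : ℝ) * c := by
    intro c
    rw [htau, Finset.sum_mul]
    apply Finset.sum_congr rfl
    intro k _
    rw [Finset.sum_mul]
    apply Finset.sum_congr rfl
    intro h _
    rw [one_mul]
  have hkey : ∀ k ∈ Finset.range (m + 1), ∀ h ∈ (MON F k).filter (fun h => h ∣ e),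
      ∑ x ∈ POLz F (g - m), (if h ^ 2 ∣ x then Rz (g - m) e x * K k else 0) ≤
        9 * (tau e : ℝ) ^ 2 * q ^ (2 * (g - m)) / q ^ (m + 1) +
          12 * g * (tau e : ℝ) * q ^ (g + 2 * g / 3 + 2) := by
    intro k _ h hh
    rw [Finset.mem_filter, hMON] at hh
    obtain ⟨⟨hhm, hhk⟩, hhe⟩ := hh
    rw [← Finset.sum_filter, ← Finset.sum_mul]
    have hX := hX0.2 (g - m) e h hem hsq hhm hhe
    rw [hhk] at hX
    have hqk : 1 ≤ q ^ k := one_le_pow₀ hq1
    calc (∑ x ∈ (POLz F (g - m)).filter (fun x => h ^ 2 ∣ x), Rz (g - m) e x) * K k ≤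
        (3 * (tau e : ℝ) * q ^ (g - m) / q ^ k) * K k :=
          mul_le_mul_of_nonneg_right hX (hK0 k)
      _ = 9 * (tau e : ℝ) ^ 2 * (q ^ (g - m) * q ^ (g - m - 1)) / q ^ m +
          12 * g * (tau e : ℝ) * (q ^ (g - m) * q ^ (2 * g / 3 + m + 2)) / q ^ k := by
          simp only [hK]
          field_simp
          ring
      _ ≤ 9 * (tau e : ℝ) ^ 2 * (q ^ (g - m) * q ^ (g - m - 1)) / q ^ m +
          12 * g * (tau e : ℝ) * (q ^ (g - m) * q ^ (2 * g / 3 + m + 2)) := by
          gcongr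
          apply div_le_self _ hqk
          positivity
      _ = _ := by
          have e1 : q ^ (g - m) * q ^ (g - m - 1) * q = q ^ (2 * (g - m)) := by
            rw [← pow_add, ← pow_succ]; congr 1; omega
          have e2 : q ^ (g - m) * q ^ (2 * g / 3 + m + 2) = q ^ (g + 2 * g / 3 + 2) := by
            rw [← pow_add]; congr 1; omega
          rw [e2, ← e1]
          congr 1
          rw [pow_succ q m]
          field_simp
  have hsub := XVB.DEG_sub hB0 (Z := g - m) (by omega)
  unfold VT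
  calc ∑ x ∈ DEG F (g - m - 1), ∑ y ∈ (DEG F (g - m - 1)).filter (fun y => Cnd e x y ∧
        TopR g (e * x) (e * y) ∧
        1 ≤ m + (cpart (e * x)).natDegree + (cpart (e * y)).natDegree),
        q ^ ((cpart (e * x)).natDegree + (cpart (e * y)).natDegree) ≤
      ∑ x ∈ DEG F (g - m - 1), ∑ k ∈ Finset.range (m + 1),
        ∑ h ∈ (MON F k).filter (fun h => h ∣ e),
        (if h ^ 2 ∣ x then Rz (g - m) e x * K k else 0) := Finset.sum_le_sum hx
    _ ≤ ∑ x ∈ POLz F (g - m), ∑ k ∈ Finset.range (m + 1),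
        ∑ h ∈ (MON F k).filter (fun h => h ∣ e),
        (if h ^ 2 ∣ x then Rz (g - m) e x * K k else 0) :=
        Finset.sum_le_sum_of_subset_of_nonneg hsub (fun x _ _ =>
          Finset.sum_nonneg (fun k _ => Finset.sum_nonneg (fun h _ => hterm x k h)))
    _ = ∑ k ∈ Finset.range (m + 1), ∑ h ∈ (MON F k).filter (fun h => h ∣ e),
        ∑ x ∈ POLz F (g - m), (if h ^ 2 ∣ x then Rz (g - m) e x * K k else 0) := by
        rw [Finset.sum_comm]
        apply Finset.sum_congr rfl
        intro k _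
        rw [Finset.sum_comm]
    _ ≤ ∑ k ∈ Finset.range (m + 1), ∑ _h ∈ (MON F k).filter (fun h => h ∣ e),
        (9 * (tau e : ℝ) ^ 2 * q ^ (2 * (g - m)) / q ^ (m + 1) +
          12 * g * (tau e : ℝ) * q ^ (g + 2 * g / 3 + 2)) :=
        Finset.sum_le_sum (fun k hk => Finset.sum_le_sum (fun h hh => hkey k hk h hh))
    _ = (tau e : ℝ) * (9 * (tau e : ℝ) ^ 2 * q ^ (2 * (g - m)) / q ^ (m + 1) +
          12 * g * (tau e : ℝ) * q ^ (g + 2 * g / 3 + 2)) := by
        exact hc _
    _ = _ := by ring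

end DH
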