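import Pool.Agent.H463.DH.Stm4

set_option autoImplicit false

open Polynomial
open scoped Classical

noncomputable section

namespace DH.XYT

variable {F : Type} [Field F] [Fintype F]

lemma q2 : (2 : ℝ) ≤ qq F := by
  unfold qq
  exact_mod_cast Fintype.one_lt_card

lemma q0 : (0 : ℝ) < qq F := by
  have := q2 (F := F)
  linarith

lemma geo (x : ℝ) (hx : 2 ≤ x) (K : ℕ) : ∑ k ∈ Finset.range (K + 1), x ^ k ≤ 2 * x ^ K := by
  induction K with
  | zero => simp
  | succ K ih =>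
    rw [Finset.sum_range_succ]
    have h1 : 0 ≤ x ^ K := by positivity
    have h2 : 2 * x ^ K ≤ x ^ (K + 1) := by
      rw [pow_succ]
      nlinarith
    linarith

/-- (Y2') the count with the second coefficient determined by the first -/
lemma y2c (hB0 : S_B0 F) (φ : F → F) (d : ℕ) (hd : 1 ≤ d) (a b r : F[X]) (ha : a.Monic) (hb : b.Monic)
    (hab : IsCoprime a b) :
    (((DEG F d).filter (fun y => y.coeff (d - 1) = φ (y.coeff d) ∧ a ∣ y ∧ b ∣ y - r)).card : ℝ) ≤
      qq F ^ d / qq F ^ (a.natDegree + b.natDegree) + qq F := by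
  have hq := q0 (F := F)
  have hq2 := q2 (F := F)
  set T := (DEG F d).filter (fun y => y.coeff (d - 1) = φ (y.coeff d) ∧ a ∣ y ∧ b ∣ y - r) with hT
  have h1 : T.card = ∑ c : F, (T.filter (fun y => y.coeff d = c)).card :=
    Finset.card_eq_sum_card_fiberwise (fun y _ => Finset.mem_coe.2 (Finset.mem_univ _))
  have h2 : ∀ c : F, ((T.filter (fun y => y.coeff d = c)).card : ℝ) ≤
      qq F ^ (d - 1) / qq F ^ (a.natDegree + b.natDegree) + 1 := by
    intro c
    rcases Finset.eq_empty_or_nonempty (T.filter (fun y => y.coeff d = c)) with hemp | ⟨y₀, hy₀⟩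
    · rw [hemp, Finset.card_empty, Nat.cast_zero]
      positivity
    have hab' : (a * b).Monic := ha.mul hb
    have hdeg : (a * b).natDegree = a.natDegree + b.natDegree := ha.natDegree_mul hb
    have h3 : T.filter (fun y => y.coeff d = c) ⊆
        (POL F (d - 1 - (a.natDegree + b.natDegree))).image (fun z => y₀ + a * b * z) := by
      intro y hy
      have key : ∀ y ∈ T.filter (fun y => y.coeff d = c), y ≠ 0 ∧ y.natDegree = d ∧ y.coeff d = c ∧
          y.coeff (d - 1) = φ c ∧ a ∣ y ∧ b ∣ y - r := by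
        intro y hy
        rw [Finset.mem_filter, hT, Finset.mem_filter, hB0.2.2.1] at hy
        obtain ⟨⟨⟨g1, g2⟩, g3, g4, g5⟩, g6⟩ := hy
        rw [g6] at g3
        exact ⟨g1, g2, g6, g3, g4, g5⟩
      obtain ⟨k1, k2, k3, k4, k5, k6⟩ := key y hy
      obtain ⟨l1, l2, l3, l4, l5, l6⟩ := key y₀ hy₀
      have hdiv : a * b ∣ y - y₀ := by
        refine hab.mul_dvd (dvd_sub k5 l5) ?_
        have := dvd_sub k6 l6
        rwa [sub_sub_sub_cancel_right] at this
      obtain ⟨z, hz⟩ := hdiv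
      have hy' : y = y₀ + a * b * z := by rw [← hz]; ring
      rw [Finset.mem_image]
      refine ⟨z, ?_, hy'.symm⟩
      rw [hB0.1]
      by_cases hz0 : z = 0
      · rw [hz0, degree_zero]
        exact WithBot.bot_lt_coe _
      have hne : y - y₀ ≠ 0 := by
        rw [hz]
        exact mul_ne_zero hab'.ne_zero hz0
      have hlt : (y - y₀).degree < ((d - 1 : ℕ) : WithBot ℕ) := by
        rw [degree_lt_iff_coeff_zero]
        intro n hn
        rw [coeff_sub]
        rcases Nat.lt_or_ge d n with hn1 | hn1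
        · rw [coeff_eq_zero_of_natDegree_lt (by omega), coeff_eq_zero_of_natDegree_lt (by omega),
            sub_zero]
        · have : n = d ∨ n = d - 1 := by omega
          rcases this with rfl | rfl
          · rw [k3, l3, sub_self]
          · rw [k4, l4, sub_self]
      have hnd : (y - y₀).natDegree < d - 1 := by
        rw [natDegree_lt_iff_degree_lt hne]; exact hlt
      rw [hz, hab'.natDegree_mul' hz0, hdeg] at hnd
      rw [degree_eq_natDegree hz0]
      exact_mod_cast (by omega : z.natDegree < d - 1 - (a.natDegree + b.natDegree))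
    have h4 : (T.filter (fun y => y.coeff d = c)).card ≤
        Fintype.card F ^ (d - 1 - (a.natDegree + b.natDegree)) := by
      refine (Finset.card_le_card h3).trans (Finset.card_image_le.trans ?_)
      rw [hB0.2.2.2.1]
    have h5 : ((T.filter (fun y => y.coeff d = c)).card : ℝ) ≤
        qq F ^ (d - 1 - (a.natDegree + b.natDegree)) := by
      unfold qq
      exact_mod_cast h4
    refine h5.trans ?_
    rcases Nat.le_total (a.natDegree + b.natDegree) (d - 1) with h6 | h6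
    · rw [pow_sub₀ _ hq.ne' h6, ← div_eq_mul_inv]
      linarith
    · rw [Nat.sub_eq_zero_of_le h6, pow_zero]
      have : 0 ≤ qq F ^ (d - 1) / qq F ^ (a.natDegree + b.natDegree) := by positivity
      linarith
  rw [h1]
  push_cast
  refine (Finset.sum_le_card_nsmul _ _ _ (fun c _ => h2 c)).trans (le_of_eq ?_)
  rw [Finset.card_univ, nsmul_eq_mul]
  have h7 : qq F ^ d = qq F * qq F ^ (d - 1) := by
    rw [← pow_succ']
    congr 1
    omega
  rw [h7]
  have h8 : (Fintype.card F : ℝ) = qq F := rfl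
  rw [h8]
  ring

/-- the number of `y` for given `b` and `d` -/
lemma count [CharP F 3] (hB0 : S_B0 F) (hY1 : S_Y1 F) (φ : F → F) (m : ℕ) (e h e' x : F[X])
    (he' : e'.Monic) (hes : Squarefree e) (hem : e.natDegree = m)
    (hh : h.Monic) (hehe : e = h * e') (hhx : h ∣ x) (hcop : IsCoprime e' x)
    (d k : ℕ) (hd1 : 1 ≤ d) (b γ e₂ b₁ : F[X]) (hbk : b.natDegree = k)
    (hγ : γ.Monic) (hb₁ : b₁.Monic) (heγ : e = γ * e₂) (hbγ : b = γ * b₁)
    (hc2 : IsCoprime e₂ b) (hiff : ∀ y : F[X], b ^ 3 ∣ e * y ↔ γ ^ 2 * b₁ ^ 3 ∣ y) :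
    (((DEG F d).filter (fun y => (Cnd e x y ∧ y.coeff (d - 1) = φ (y.coeff d)) ∧ b ^ 3 ∣ e * y)).card : ℝ) ≤
      qq F ^ d * (qq F ^ h.natDegree / qq F ^ m) *
        (qq F ^ (2 * γ.natDegree) / qq F ^ (2 * k)) / qq F ^ k +
        (if 3 * k ≤ d + m then qq F ^ (m + 1) else 0) := by
  have hq := q0 (F := F)
  have hq2 := q2 (F := F)
  rcases Finset.eq_empty_or_nonempty ((DEG F d).filter (fun y => (Cnd e x y ∧ y.coeff (d - 1) = φ (y.coeff d)) ∧ b ^ 3 ∣ e * y)) with
    hemp | ⟨y₀, hy₀⟩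
  · rw [hemp, Finset.card_empty, Nat.cast_zero]
    have h1 : (0 : ℝ) ≤ if 3 * k ≤ d + m then qq F ^ (m + 1) else 0 := by
      split_ifs <;> positivity
    positivity
  rw [Finset.mem_filter] at hy₀
  obtain ⟨hyd, ⟨hyc, hyf⟩, hyb⟩ := hy₀
  have hsqγ : Squarefree γ := hes.squarefree_of_dvd ⟨e₂, heγ⟩
  have hsqe' : Squarefree e' := hes.squarefree_of_dvd ⟨h, by rw [hehe, mul_comm]⟩
  have hγ0 : γ ≠ 0 := hγ.ne_zero
  -- `γ` is coprime to `h`
  have hγh : IsCoprime γ h := by
    by_contra hno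
    have hnu : ¬ IsUnit (EuclideanDomain.gcd γ h) := by
      intro hu
      exact hno (EuclideanDomain.gcd_isUnit_iff.mp hu)
    have hg0 : EuclideanDomain.gcd γ h ≠ 0 := by
      intro hz
      rw [EuclideanDomain.gcd_eq_zero_iff] at hz
      exact hγ0 hz.1
    obtain ⟨P, hP, hPd⟩ := WfDvdMonoid.exists_irreducible_factor hnu hg0
    have hPγ : P ∣ γ := hPd.trans (EuclideanDomain.gcd_dvd_left _ _)
    have hPh : P ∣ h := hPd.trans (EuclideanDomain.gcd_dvd_right _ _)
    have hPy : P ∣ y₀ := by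
      have h1 := (hiff y₀).mp hyb
      refine (hPγ.trans ?_).trans h1
      exact ⟨γ * b₁ ^ 3, by ring⟩
    exact hyc.2.2 P hP (hPγ.trans ⟨e₂, heγ⟩) ⟨hPh.trans hhx, hPy⟩
  have hγe' : γ ∣ e' := by
    have h1 : γ ∣ h * e' := ⟨e₂, by rw [← hehe, heγ]⟩
    exact hγh.dvd_of_dvd_mul_left h1
  obtain ⟨e'', he''⟩ := hγe'
  have he''m : e''.Monic := hγ.of_mul_monic_left (by rw [← he'']; exact he')
  have he₂ : e₂ = h * e'' := by
    have h1 : γ * e₂ = γ * (h * e'') := by
      rw [← heγ, hehe, he'']; ring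
    exact mul_left_cancel₀ hγ0 h1
  have hc3 : IsCoprime e'' b := by
    have h1 : e'' ∣ e₂ := ⟨h, by rw [he₂]; ring⟩
    exact hc2.of_isCoprime_of_dvd_left h1
  have hc4 : IsCoprime (γ ^ 2 * b₁ ^ 3) (e'' ^ 2) := by
    have h1 : IsCoprime e'' γ := hc3.of_isCoprime_of_dvd_right ⟨b₁, hbγ⟩
    have h2 : IsCoprime e'' b₁ := hc3.of_isCoprime_of_dvd_right ⟨γ, by rw [hbγ, mul_comm]⟩
    exact (IsCoprime.mul_right (h1.pow (m := 2) (n := 2)) (h2.pow (m := 2) (n := 3))).symm
  have hmonb : (γ ^ 2 * b₁ ^ 3).Monic := (hγ.pow 2).mul (hb₁.pow 3)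
  have hmone : (e'' ^ 2).Monic := he''m.pow 2
  -- degrees
  have hdm : m = h.natDegree + (γ.natDegree + e''.natDegree) := by
    rw [← hem, hehe, he'', hh.natDegree_mul (hγ.mul he''m), hγ.natDegree_mul he''m]
  have hdk : k = γ.natDegree + b₁.natDegree := by
    rw [← hbk, hbγ, hγ.natDegree_mul hb₁]
  have hdb : (γ ^ 2 * b₁ ^ 3).natDegree = 2 * γ.natDegree + 3 * b₁.natDegree := by
    rw [(hγ.pow 2).natDegree_mul (hb₁.pow 3), hγ.natDegree_pow, hb₁.natDegree_pow]
  have hde : (e'' ^ 2).natDegree = 2 * e''.natDegree := he''m.natDegree_pow 2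
  have hbd : 2 * γ.natDegree + 3 * b₁.natDegree ≤ d := by
    have h1 := (hB0.2.2.1 d y₀).mp hyd
    have h2 := Polynomial.natDegree_le_of_dvd ((hiff y₀).mp hyb) h1.1
    rw [hdb, h1.2] at h2
    exact h2
  have h3k : 3 * k ≤ d + m := by omega
  rw [if_pos h3k]
  -- covering
  have hcov : (DEG F d).filter (fun y => (Cnd e x y ∧ y.coeff (d - 1) = φ (y.coeff d)) ∧ b ^ 3 ∣ e * y) ⊆
      (POL F e''.natDegree).biUnion (fun A => (DEG F d).filter
        (fun y => y.coeff (d - 1) = φ (y.coeff d) ∧ γ ^ 2 * b₁ ^ 3 ∣ y ∧ e'' ^ 2 ∣ y - x * (γ * A) ^ 3)) := by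
    intro y hy
    rw [Finset.mem_filter] at hy
    obtain ⟨hy1, ⟨hy2, hyf⟩, hy3⟩ := hy
    rw [Finset.mem_biUnion]
    have hWr : e' ∣ Wr x y := by
      refine Dvd.dvd.trans ?_ hy2.2.1
      exact ⟨h, by rw [hehe, mul_comm]⟩
    obtain ⟨A, hA1, hA2⟩ := hY1 e' x y he' hsqe' hcop hWr
    have hby := (hiff y).mp hy3
    have hγy : γ ∣ y := by
      refine Dvd.dvd.trans ?_ hby
      exact ⟨γ * b₁ ^ 3, by ring⟩
    have hγA : γ ∣ A := by
      have h1 : γ ∣ x * A ^ 3 := by
        have h2 : γ ∣ y - x * A ^ 3 := by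
          refine Dvd.dvd.trans ?_ hA2
          exact ⟨e'' * e', by rw [he'']; ring⟩
        have h3 := dvd_sub hγy h2
        rwa [sub_sub_cancel] at h3
      have h4 : IsCoprime γ x := hcop.of_isCoprime_of_dvd_left ⟨e'', he''⟩
      have h5 : γ ∣ A ^ 3 := h4.dvd_of_dvd_mul_left h1
      exact (hsqγ.dvd_pow_iff_dvd (by norm_num)).mp h5
    obtain ⟨A₁, hA₁⟩ := hγA
    refine ⟨A₁, ?_, ?_⟩
    · rw [hB0.1]
      rw [hA₁, he'', Polynomial.degree_mul, Polynomial.degree_mul] at hA1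
      have h6 : γ.degree ≠ ⊥ := Polynomial.degree_ne_bot.mpr hγ0
      have h7 : A₁.degree < e''.degree := by
        by_contra hcon
        push Not at hcon
        have h8 := add_le_add_right hcon γ.degree
        exact absurd hA1 (not_lt.mpr h8)
      rwa [Polynomial.degree_eq_natDegree he''m.ne_zero] at h7
    · rw [Finset.mem_filter]
      refine ⟨hy1, hyf, hby, ?_⟩
      rw [← hA₁]
      refine Dvd.dvd.trans ?_ hA2
      exact pow_dvd_pow_of_dvd ⟨γ, by rw [he'', mul_comm]⟩ 2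
  have hN : (((DEG F d).filter (fun y => (Cnd e x y ∧ y.coeff (d - 1) = φ (y.coeff d)) ∧ b ^ 3 ∣ e * y)).card : ℝ) ≤
      qq F ^ e''.natDegree *
        (qq F ^ d / qq F ^ ((2 * γ.natDegree + 3 * b₁.natDegree) + 2 * e''.natDegree) + qq F) := by
    have h1 : (((DEG F d).filter (fun y => (Cnd e x y ∧ y.coeff (d - 1) = φ (y.coeff d)) ∧ b ^ 3 ∣ e * y)).card : ℝ) ≤
        ∑ A ∈ POL F e''.natDegree, (((DEG F d).filter
        (fun y => y.coeff (d - 1) = φ (y.coeff d) ∧ γ ^ 2 * b₁ ^ 3 ∣ y ∧ e'' ^ 2 ∣ y - x * (γ * A) ^ 3)).card : ℝ) := by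
      have h2 := (Finset.card_le_card hcov).trans Finset.card_biUnion_le
      exact_mod_cast h2
    refine h1.trans ?_
    have h3 : ∀ A ∈ POL F e''.natDegree, (((DEG F d).filter
        (fun y => y.coeff (d - 1) = φ (y.coeff d) ∧ γ ^ 2 * b₁ ^ 3 ∣ y ∧ e'' ^ 2 ∣ y - x * (γ * A) ^ 3)).card : ℝ) ≤
        qq F ^ d / qq F ^ ((2 * γ.natDegree + 3 * b₁.natDegree) + 2 * e''.natDegree) + qq F := by
      intro A _
      have h4 := y2c hB0 φ d hd1 (γ ^ 2 * b₁ ^ 3) (e'' ^ 2) (x * (γ * A) ^ 3) hmonb hmone hc4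
      rw [hdb, hde] at h4
      exact h4
    refine (Finset.sum_le_card_nsmul _ _ _ h3).trans (le_of_eq ?_)
    rw [nsmul_eq_mul, hB0.2.2.2.1]
    unfold qq
    push_cast
    ring
  refine hN.trans ?_
  rw [mul_add]
  apply add_le_add
  · apply le_of_eq
    have hd1 : qq F ^ m = qq F ^ h.natDegree * (qq F ^ γ.natDegree * qq F ^ e''.natDegree) := by
      rw [hdm, pow_add, pow_add]
    have hk1 : qq F ^ k = qq F ^ γ.natDegree * qq F ^ b₁.natDegree := by
      rw [hdk, pow_add]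
    have hk2 : qq F ^ (2 * k) = (qq F ^ γ.natDegree * qq F ^ b₁.natDegree) ^ 2 := by
      rw [mul_comm, pow_mul, hk1]
    rw [hd1, hk1, hk2]
    have hne := hq.ne'
    rw [pow_add (qq F) (2 * γ.natDegree + 3 * b₁.natDegree), pow_add (qq F) (2 * γ.natDegree),
      mul_comm 2 γ.natDegree, mul_comm 3 b₁.natDegree, mul_comm 2 e''.natDegree, pow_mul, pow_mul,
      pow_mul]
    have n1 : qq F ^ h.natDegree ≠ 0 := pow_ne_zero _ hne
    have n2 : qq F ^ γ.natDegree ≠ 0 := pow_ne_zero _ hne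
    have n3 : qq F ^ b₁.natDegree ≠ 0 := pow_ne_zero _ hne
    have n4 : qq F ^ e''.natDegree ≠ 0 := pow_ne_zero _ hne
    generalize qq F ^ h.natDegree = u1 at *
    generalize qq F ^ γ.natDegree = u2 at *
    generalize qq F ^ b₁.natDegree = u3 at *
    generalize qq F ^ e''.natDegree = u4 at *
    field_simp
  · rw [← pow_succ]
    apply pow_le_pow_right₀ (by linarith)
    omega

end DH.XYT

namespace DH

open XYT in
theorem p_YT (F : Type) [Field F] [Fintype F] [CharP F 3] (hB0 : S_B0 F) (hCP : S_CP F)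
    (hY1 : S_Y1 F) (hY3 : S_Y3 F) : S_YT F := by
  intro g m e h e' x φ hmg he hh he' hes hem hehe hhx hcop hx
  have hq := q0 (F := F)
  have hq2 := q2 (F := F)
  have hq1 : (1 : ℝ) ≤ qq F := by linarith
  -- the function `γ`
  let γf : F[X] → F[X] := fun b => if hb : b.Monic then (hY3.1 e b he hes hb).choose else 1
  have hγspec : ∀ b : F[X], b.Monic → ∃ e₂ b₁ : F[X], (γf b).Monic ∧ e₂.Monic ∧ b₁.Monic ∧
      e = γf b * e₂ ∧ b = γf b * b₁ ∧ IsCoprime e₂ b ∧
      ∀ y : F[X], b ^ 3 ∣ e * y ↔ (γf b) ^ 2 * b₁ ^ 3 ∣ y := by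
    intro b hb
    have h1 := (hY3.1 e b he hes hb).choose_spec
    have h2 : γf b = (hY3.1 e b he hes hb).choose := dif_pos hb
    rw [h2]
    exact h1
  have hγsum := hY3.2.1 g e γf he (fun b hb => by
    obtain ⟨e₂, b₁, h1, _, _, h4, h5, _⟩ := hγspec b hb
    exact ⟨h1, ⟨b₁, h5⟩, ⟨e₂, h4⟩⟩)
  have hgm : g - m - 2 = g - m - 1 - 1 := by omega
  rw [hgm]
  obtain ⟨d, hd⟩ : ∃ d, d = g - m - 1 := ⟨_, rfl⟩
  rw [← hd]
  have hd1 : 1 ≤ d := by omega
  have hdg : d + m < g := by omega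
  -- Step A
  have hA : ∀ y ∈ (DEG F d).filter (fun y => Cnd e x y ∧ y.coeff (d - 1) = φ (y.coeff d)),
      qq F ^ (cpart (e * y)).natDegree ≤
      ∑ k ∈ Finset.range (g + 1), ∑ b ∈ MON F k, (if b ^ 3 ∣ e * y then qq F ^ k else 0) := by
    intro y hy
    rw [Finset.mem_filter, hB0.2.2.1] at hy
    obtain ⟨⟨hy0, hyd⟩, hy2⟩ := hy
    have hey : e * y ≠ 0 := mul_ne_zero he.ne_zero hy0
    obtain ⟨hc1, hc2, hc3⟩ := hCP.1 (e * y) hey
    have hdeg : 3 * (cpart (e * y)).natDegree ≤ m + y.natDegree := by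
      have h1 := Polynomial.natDegree_le_of_dvd hc2 hey
      rw [hc1.natDegree_pow, Polynomial.natDegree_mul he.ne_zero hy0, hem] at h1
      exact h1
    have hk : (cpart (e * y)).natDegree ∈ Finset.range (g + 1) := by
      rw [Finset.mem_range]; omega
    have hnn : ∀ k ∈ Finset.range (g + 1), 0 ≤ ∑ b ∈ MON F k,
        (if b ^ 3 ∣ e * y then qq F ^ k else 0) := by
      intro k _
      apply Finset.sum_nonneg
      intro b _
      split_ifs <;> positivity
    refine le_trans ?_ (Finset.single_le_sum hnn hk)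
    have hb : cpart (e * y) ∈ MON F (cpart (e * y)).natDegree := by
      rw [hB0.2.1]; exact ⟨hc1, rfl⟩
    have hnn2 : ∀ b ∈ MON F (cpart (e * y)).natDegree, 0 ≤
        (if b ^ 3 ∣ e * y then qq F ^ (cpart (e * y)).natDegree else 0) := by
      intro b _
      split_ifs <;> positivity
    refine le_trans (le_of_eq ?_) (Finset.single_le_sum hnn2 hb)
    rw [if_pos hc2]
  -- Step B
  have hB : ∑ y ∈ (DEG F d).filter (fun y => Cnd e x y ∧ y.coeff (d - 1) = φ (y.coeff d)),
      qq F ^ (cpart (e * y)).natDegree ≤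
      ∑ k ∈ Finset.range (g + 1), ∑ b ∈ MON F k, qq F ^ k *
          (((DEG F d).filter (fun y => (Cnd e x y ∧ y.coeff (d - 1) = φ (y.coeff d)) ∧
            b ^ 3 ∣ e * y)).card : ℝ) := by
    refine (Finset.sum_le_sum hA).trans ?_
    rw [Finset.sum_comm]
    apply Finset.sum_le_sum
    intro k _
    rw [Finset.sum_comm]
    apply Finset.sum_le_sum
    intro b _
    rw [← Finset.sum_filter, Finset.filter_filter, Finset.sum_const, nsmul_eq_mul, mul_comm]
  refine hB.trans ?_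
  have h1 : ∑ k ∈ Finset.range (g + 1), ∑ b ∈ MON F k, qq F ^ k *
        (((DEG F d).filter (fun y => (Cnd e x y ∧ y.coeff (d - 1) = φ (y.coeff d)) ∧
          b ^ 3 ∣ e * y)).card : ℝ) ≤
      ∑ k ∈ Finset.range (g + 1), ∑ b ∈ MON F k,
        ((qq F ^ d * (qq F ^ h.natDegree / qq F ^ m)) *
          (qq F ^ (2 * (γf b).natDegree) / qq F ^ (2 * k)) +
          qq F ^ k * (if 3 * k ≤ d + m then qq F ^ (m + 1) else 0)) := by
    apply Finset.sum_le_sum
    intro k _
    apply Finset.sum_le_sum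
    intro b hb
    rw [hB0.2.1] at hb
    obtain ⟨e₂, b₁, g1, g2, g3, g4, g5, g6, g7⟩ := hγspec b hb.1
    have h2 := count hB0 hY1 φ m e h e' x he' hes hem hh hehe hhx hcop d k hd1 b (γf b) e₂ b₁
      hb.2 g1 g3 g4 g5 g6 g7
    have hk0 : qq F ^ k ≠ 0 := by positivity
    refine (mul_le_mul_of_nonneg_left h2 (by positivity)).trans (le_of_eq ?_)
    rw [mul_add]
    congr 1
    generalize qq F ^ (2 * (γf b).natDegree) / qq F ^ (2 * k) = w1
    generalize qq F ^ h.natDegree / qq F ^ m = w2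
    field_simp
  refine h1.trans ?_
  simp only [Finset.sum_add_distrib]
  have htau : (0 : ℝ) ≤ (tau e : ℝ) := Nat.cast_nonneg _
  apply add_le_add
  · simp only [← Finset.mul_sum]
    refine (mul_le_mul_of_nonneg_left hγsum (by positivity)).trans ?_
    have h2 : 0 ≤ qq F ^ d * (qq F ^ h.natDegree / qq F ^ m) * (tau e : ℝ) := by positivity
    have h3 : 3 * (tau e : ℝ) * qq F ^ d * qq F ^ h.natDegree / qq F ^ m =
        3 * (qq F ^ d * (qq F ^ h.natDegree / qq F ^ m) * (tau e : ℝ)) := by ring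
    rw [h3]
    linarith
  · have h3 : ∀ k ∈ Finset.range (g + 1), ∑ b ∈ MON F k,
        qq F ^ k * (if 3 * k ≤ d + m then qq F ^ (m + 1) else 0) =
        if 3 * k ≤ d + m then qq F ^ (m + 1) * (qq F ^ 2) ^ k else 0 := by
      intro k _
      rw [Finset.sum_const, nsmul_eq_mul, hB0.2.2.2.2.1]
      split_ifs
      · unfold qq
        push_cast
        rw [← pow_mul]
        ring
      · simp
    rw [Finset.sum_congr rfl h3, ← Finset.sum_filter, ← Finset.mul_sum]
    have h4 : ∑ k ∈ (Finset.range (g + 1)).filter (fun k => 3 * k ≤ d + m), (qq F ^ 2) ^ k ≤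
        2 * (qq F ^ 2) ^ ((d + m) / 3) := by
      refine le_trans ?_ (geo (qq F ^ 2) (by nlinarith) ((d + m) / 3))
      apply Finset.sum_le_sum_of_subset_of_nonneg
      · intro k hk
        rw [Finset.mem_filter] at hk
        rw [Finset.mem_range]
        omega
      · intro k _ _
        positivity
    refine (mul_le_mul_of_nonneg_left h4 (by positivity)).trans ?_
    have h5 : qq F ^ (m + 1) * (2 * (qq F ^ 2) ^ ((d + m) / 3)) =
        2 * qq F ^ (m + 1 + 2 * ((d + m) / 3)) := by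
      rw [pow_add _ (m + 1), ← pow_mul]
      ring
    rw [h5]
    have h6 : (2 : ℝ) ≤ 4 * g := by
      have : (1 : ℝ) ≤ (g : ℝ) := by exact_mod_cast (by omega : 1 ≤ g)
      linarith
    refine mul_le_mul h6 ?_ (by positivity) (by positivity)
    apply pow_le_pow_right₀ hq1
    omega

end DH
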