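import Pool.Agent.H463.DH.All2
import Pool.Agent.H463.DH.C1
import Pool.Agent.H463.DH.C2
import Pool.Agent.H463.DH.KS
import Pool.Agent.H463.DH.T8
import Pool.Agent.H463.DH.PQ
import Pool.Agent.H463.DH.TR
import Pool.Agent.H463.DH.IN
import Pool.Agent.H463.DH.MN
import Pool.Agent.H463.DH.TI
import Pool.Agent.H463.DH.YT
import Pool.Agent.H463.DH.VB
import Pool.Agent.H463.DH.V1
import Pool.Agent.H463.DH.M6
import Pool.Agent.H463.DH.HB
import Pool.Agent.H463.DH.H1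
import Pool.Agent.H463.DH.SM
import Pool.Agent.H463.DH.RX

/-! All parts of the fourth part put together. -/

open Polynomial
open scoped Classical

namespace DH

theorem all4 (F : Type) [Field F] [Fintype F] [CharP F 3] : S_RX F := by
  have b0 := p_B0 F
  have b1 := p_B1 F b0
  have a1 := p_A1 F
  have a2 := p_A2 F
  have a3 := p_A3 F
  have a4 := p_A4 F a1 a2 b1
  have a5 := p_A5 F a2
  have a6 := p_A6 F a1 a5
  have a7 := p_A7 F a1 a2 a3 a4 a6
  have a8 := p_A8 F a1 a2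
  have a9 := p_A9 F a1 a2 a3 a4 a7 a8 b1
  have b2 := p_B2 F b0
  have dc := p_DC F b0
  have b3 := p_B3 F b0 b1 b2 dc
  have b4 := p_B4 F b0 b1 b2 b3
  have cp := p_CP F
  have b5 := p_B5 F b0 b1 b4 cp
  have mu := p_MU F b0
  have ta := p_TA F b0
  have kb := p_KB F b0 mu
  have ph := p_PH F b0 cp
  have l3 := p_L3 F b0
  have sw := p_SW F b0 mu
  have me1 := p_ME1 F b0 cp ph l3 sw
  have me2 := p_ME2 F b0 mu kb ta ph me1
  have f1 := p_F1 F b0 b1
  have f2 := p_F2 F b1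
  have f3 := p_F3 F b0 f2
  have f4 := p_F4 F b0 b1 b5 cp f1
  have f5 := p_F5 F b0 mu
  have f6 := p_F6 F b0 b1 ta f3 f4
  have f7 := p_F7 F b0 b5 f1
  have f8 := p_F8
  have f9 := p_F9 F b1 f4 f5 f6 f7 f8 me2
  have g0 := p_G0 F b1
  have n1 := p_N1 F b0
  have n2 := p_N2 F b0 mu f5
  have m1 := p_M1 F cp
  have m2 := p_M2 F b0 b1 cp
  have m4 := p_M4 F cp
  have db := p_DB F b0
  have y1 := p_Y1 F b2
  have y2 := p_Y2 F b0
  have y3 := p_Y3 F b0
  have yy := p_YY F b0 cp y1 y2 y3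
  have x0 := p_X0 F b0 cp y3
  have tl := p_TL F b0 cp db
  have c1 := p_C1 F a2 a3
  have c2 := p_C2 F a2 c1
  have ks := p_KS
  have t8 := p_T8 F b0
  have pq := p_PQ F b0 b1 b5 cp f3 f4 n2
  have tr := p_TR F b0
  have i1 := p_IN F b0 tr
  have mn := p_MN F b0 tr
  have ti := p_TI F b0 yy x0
  have yt := p_YT F b0 cp y1 y3
  have vb := p_VB F b0 tr yt x0
  have v1 := p_V1 F b0 tr cp
  have m6 := p_M6 F b0 g0 cp m1 m2 m4 i1 mn
  have hb := p_HB F b0
  have h1 := p_H1 F ti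
  have sm := p_SM F ks b0 t8 m6 h1 vb v1 hb tl
  exact p_RX F b0 b1 a9 c2 f9 f5 pq sm ks

end DH
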