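import Pool.Agent.H463.DH.Stm5

open Polynomial
open scoped Classical

noncomputable section

namespace DH

namespace XE1

variable {F : Type} [Field F]

/-- quotients by a power of the variable that agree -/
theorem sub_deg (r : ℕ) (A B : F[X]) (h : A /ₘ X ^ r = B /ₘ X ^ r) : (A - B).degree < r := by
  have hX : (X ^ r : F[X]).Monic := monic_X_pow r
  have hA := modByMonic_add_div A (X ^ r)
  have hB := modByMonic_add_div B (X ^ r)
  have e : A - B = A %ₘ X ^ r - B %ₘ X ^ r := by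
    calc A - B = (A %ₘ X ^ r + X ^ r * (A /ₘ X ^ r)) - (B %ₘ X ^ r + X ^ r * (B /ₘ X ^ r)) := by
          rw [hA, hB]
      _ = A %ₘ X ^ r - B %ₘ X ^ r := by rw [h]; ring
  rw [e]
  have h1 := degree_modByMonic_lt A hX
  have h2 := degree_modByMonic_lt B hX
  rw [degree_X_pow] at h1 h2
  exact lt_of_le_of_lt (degree_sub_le _ _) (max_lt h1 h2)

theorem quo_mon (r : ℕ) (G : F[X]) (hG : G.Monic) (hd : G.natDegree = 2 * r) :
    (G /ₘ X ^ r).Monic ∧ (G /ₘ X ^ r).natDegree = r := by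
  have hX : (X ^ r : F[X]).Monic := monic_X_pow r
  constructor
  · rw [Monic, leadingCoeff_divByMonic_of_monic hX]
    · exact hG
    · rw [degree_X_pow, degree_eq_natDegree hG.ne_zero, hd]
      exact_mod_cast (by omega : r ≤ 2 * r)
  · rw [natDegree_divByMonic _ hX, natDegree_X_pow, hd]
    omega

theorem sq_deg (r : ℕ) (T : F[X]) (hT : T.Monic) (hd : T.natDegree = r) :
    (T ^ 2).Monic ∧ (T ^ 2).natDegree = 2 * r := by
  exact ⟨hT.pow 2, by rw [hT.natDegree_pow, hd]⟩

end XE1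

variable (F : Type) [Field F] [Fintype F] [CharP F 3]

theorem p_E1 (hB0 : S_B0 F) : S_E1 F := by
  intro r G hG hd
  obtain ⟨-, hMON, -, -, -, -⟩ := hB0
  have h2 : (2 : F) ≠ 0 := by
    intro h
    have h3 : ((2 : ℕ) : F) = 0 := by exact_mod_cast h
    rw [CharP.cast_eq_zero_iff F 3 2] at h3
    revert h3
    norm_num
  have hmaps : Set.MapsTo (fun T : F[X] => (T ^ 2) /ₘ X ^ r) (MON F r : Set F[X])
      (MON F r : Set F[X]) := by
    intro T hT
    rw [Finset.mem_coe, hMON] at hT ⊢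
    have h := XE1.sq_deg r T hT.1 hT.2
    exact XE1.quo_mon r _ h.1 h.2
  have hinj : Set.InjOn (fun T : F[X] => (T ^ 2) /ₘ X ^ r) (MON F r : Set F[X]) := by
    intro T₁ hT₁ T₂ hT₂ h
    rw [Finset.mem_coe, hMON] at hT₁ hT₂
    by_contra hne
    have h1 := XE1.sub_deg r _ _ h
    have e : T₁ ^ 2 - T₂ ^ 2 = (T₁ - T₂) * (T₁ + T₂) := by ring
    rw [e, degree_mul] at h1
    have hc : (T₁ + T₂).coeff r = 2 := by
      rw [coeff_add]
      have a1 : T₁.coeff r = 1 := by
        have := hT₁.1.coeff_natDegree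
        rw [hT₁.2] at this
        exact this
      have a2 : T₂.coeff r = 1 := by
        have := hT₂.1.coeff_natDegree
        rw [hT₂.2] at this
        exact this
      rw [a1, a2]
      norm_num
    have h3 : (r : WithBot ℕ) ≤ (T₁ + T₂).degree := by
      apply le_degree_of_ne_zero
      rw [hc]
      exact h2
    have h4 : (0 : WithBot ℕ) ≤ (T₁ - T₂).degree := zero_le_degree_iff.mpr (sub_ne_zero.mpr hne)
    have h5 : (r : WithBot ℕ) ≤ (T₁ - T₂).degree + (T₁ + T₂).degree := by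
      calc (r : WithBot ℕ) = 0 + (r : WithBot ℕ) := (zero_add _).symm
        _ ≤ _ := add_le_add h4 h3
    exact absurd (lt_of_le_of_lt h5 h1) (lt_irrefl _)
  have hsurj := Finset.surjOn_of_injOn_of_card_le _ hmaps hinj le_rfl
  have hGm : (G /ₘ X ^ r) ∈ (MON F r : Set F[X]) := by
    rw [Finset.mem_coe, hMON]
    exact XE1.quo_mon r G hG hd
  obtain ⟨T, hT, hTG⟩ := hsurj hGm
  rw [Finset.mem_coe, hMON] at hT
  exact ⟨T, hT.1, hT.2, XE1.sub_deg r _ _ hTG.symm⟩

end DH
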