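import Pool.Agent.H463.DH.Stm5

open Polynomial
open scoped Classical

noncomputable section

namespace DH

namespace XE2

lemma norm_eq {F : Type} [Field F] (f : F[X]) (x : OO f) :
    QuadraticAlgebra.norm x = x.re ^ 2 - f * x.im ^ 2 := by
  rw [QuadraticAlgebra.norm_def]
  ring

lemma sq_ne {F : Type} [Field F] {f : F[X]} (hs : Squarefree f) (hd : 0 < f.natDegree) :
    ∀ (n : ℕ) (a b : F[X]), b.natDegree = n → b ≠ 0 → a ^ 2 ≠ f * b ^ 2 := by
  have hf0 : f ≠ 0 := by
    intro h
    subst h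
    simp at hd
  have hrad : IsRadical f := hs.isRadical
  intro n
  induction n using Nat.strong_induction_on with
  | _ n ih =>
    intro a b hn hb hab
    obtain ⟨a', rfl⟩ : f ∣ a := hrad 2 a ⟨b ^ 2, hab⟩
    have h1 : f * a' ^ 2 = b ^ 2 := by
      apply mul_left_cancel₀ hf0
      rw [← hab]
      ring
    obtain ⟨b', rfl⟩ : f ∣ b := hrad 2 b ⟨a' ^ 2, h1.symm⟩
    have h2 : a' ^ 2 = f * b' ^ 2 := by
      apply mul_left_cancel₀ hf0
      rw [h1]
      ring
    have hb' : b' ≠ 0 := right_ne_zero_of_mul hb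
    have h3 : (f * b').natDegree = f.natDegree + b'.natDegree := natDegree_mul hf0 hb'
    exact ih b'.natDegree (by omega) a' b' rfl hb' h2

lemma norm_zero_iff {F : Type} [Field F] {f : F[X]} (hs : Squarefree f) (hd : 0 < f.natDegree)
    (x : OO f) (h : x.re ^ 2 - f * x.im ^ 2 = 0) : x = 0 := by
  by_cases hb : x.im = 0
  · rw [hb] at h
    have h1 : x.re ^ 2 = 0 := by
      have h2 : x.re ^ 2 - f * 0 ^ 2 = x.re ^ 2 := by ring
      exact h2.symm.trans h
    exact QuadraticAlgebra.ext (pow_eq_zero_iff (two_ne_zero) |>.1 h1) hb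
  · exact absurd (sub_eq_zero.1 h) (sq_ne hs hd _ x.re x.im rfl hb)

end XE2

open XE2 in
theorem p_E2 (F : Type) [Field F] [Fintype F] [CharP F 3] : S_E2 F := by
  intro f hf
  obtain ⟨-, hs, -, hd⟩ := hf
  have hunit : ∀ u : OO f, IsUnit u ↔ ∃ c : F, c ≠ 0 ∧ u.re ^ 2 - f * u.im ^ 2 = C c := by
    intro u
    rw [QuadraticAlgebra.isUnit_iff_norm_isUnit, norm_eq, Polynomial.isUnit_iff]
    constructor
    · rintro ⟨c, hc, h⟩
      exact ⟨c, hc.ne_zero, h.symm⟩
    · rintro ⟨c, hc, h⟩
      exact ⟨c, hc.isUnit, h.symm⟩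
  refine ⟨?_, hunit, ?_, ?_⟩
  · have hnz : NoZeroDivisors (OO f) := by
      constructor
      intro x y hxy
      have h1 : QuadraticAlgebra.norm x * QuadraticAlgebra.norm y = 0 := by
        rw [← map_mul, hxy, QuadraticAlgebra.norm_zero]
      rcases mul_eq_zero.mp h1 with h | h
      · exact Or.inl (norm_zero_iff hs hd x (by rw [← norm_eq]; exact h))
      · exact Or.inr (norm_zero_iff hs hd y (by rw [← norm_eq]; exact h))
    exact NoZeroDivisors.to_isDomain _
  · intro u hu h
    exact hu (norm_zero_iff hs hd u h)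
  · intro u hu him
    obtain ⟨c, hc, h⟩ := (hunit u).1 hu
    have hf0 : f ≠ 0 := by
      intro h
      subst h
      simp at hd
    have h1 : u.re ^ 2 = f * u.im ^ 2 + C c := by
      rw [← h]
      ring
    have h2 := congrArg natDegree h1
    rw [natDegree_pow, natDegree_add_C, natDegree_mul hf0 (pow_ne_zero 2 him), natDegree_pow] at h2
    exact h2

end DH
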