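import Pool.Agent.H463.DH.Stm5

/-!
# DH-E3 (helper409 for helper463, adapted from A3 of helper668): `F[X][s]`, `s ^ 2 = f`, is a Dedekind
domain for `f` monic squarefree of even positive degree
-/

open Polynomial
open scoped Classical

noncomputable section

namespace DH

namespace XE3

variable {F : Type} [Field F]

/-- coprime parts -/
theorem exists_coprime (d b : F[X]) (hd : d ≠ 0) :
    ∃ g d' b' : F[X], g ≠ 0 ∧ d = g * d' ∧ b = g * b' ∧ IsCoprime d' b' := by
  obtain ⟨d', hd'⟩ := EuclideanDomain.gcd_dvd_left d b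
  obtain ⟨b', hb'⟩ := EuclideanDomain.gcd_dvd_right d b
  have hg : EuclideanDomain.gcd d b ≠ 0 := by
    intro h
    rw [h, zero_mul] at hd'
    exact hd hd'
  refine ⟨EuclideanDomain.gcd d b, d', b', hg, hd', hb', ?_⟩
  refine ⟨EuclideanDomain.gcdA d b, EuclideanDomain.gcdB d b, ?_⟩
  have h1 := EuclideanDomain.gcd_eq_gcd_ab d b
  have h2 : EuclideanDomain.gcd d b * (EuclideanDomain.gcdA d b * d' + EuclideanDomain.gcdB d b * b') =
      EuclideanDomain.gcd d b * 1 := by
    calc EuclideanDomain.gcd d b * (EuclideanDomain.gcdA d b * d' + EuclideanDomain.gcdB d b * b') =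
        (EuclideanDomain.gcd d b * d') * EuclideanDomain.gcdA d b +
        (EuclideanDomain.gcd d b * b') * EuclideanDomain.gcdB d b := by ring
      _ = d * EuclideanDomain.gcdA d b + b * EuclideanDomain.gcdB d b := by rw [← hd', ← hb']
      _ = _ := by rw [← h1, mul_one]
  exact mul_left_cancel₀ hg h2

theorem sq_dvd (f d b : F[X]) (hf : Squarefree f) (hd : d ≠ 0) (h : d ^ 2 ∣ f * b ^ 2) : d ∣ b := by
  obtain ⟨g, d', b', hg, rfl, rfl, hc⟩ := exists_coprime d b hd
  obtain ⟨c, hc'⟩ := h
  have h1 : f * b' ^ 2 = d' ^ 2 * c := by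
    have h2 : g ^ 2 * (f * b' ^ 2) = g ^ 2 * (d' ^ 2 * c) := by
      linear_combination hc'
    exact mul_left_cancel₀ (pow_ne_zero 2 hg) h2
  have h2 : d' ^ 2 ∣ f := by
    have h3 : IsCoprime (d' ^ 2) (b' ^ 2) := hc.pow
    exact h3.dvd_of_dvd_mul_right ⟨c, h1⟩
  have h3 : IsUnit d' := hf d' (by rw [← sq]; exact h2)
  exact mul_dvd_mul_left g (h3.dvd)

theorem norm_ne (f : F[X]) (hsq : Squarefree f) (hpos : 0 < f.natDegree) (x : OO f) (hx : x ≠ 0) :
    QuadraticAlgebra.norm x ≠ 0 := by
  intro h
  rw [QuadraticAlgebra.norm_def] at h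
  have h1 : x.re * x.re = f * (x.im * x.im) := by linear_combination h
  by_cases him : x.im = 0
  · rw [him] at h1
    have h2 : x.re = 0 := by
      have : x.re * x.re = 0 := by rw [h1]; ring
      exact mul_self_eq_zero.1 this
    exact hx (QuadraticAlgebra.ext h2 him)
  · have h3 : x.im ∣ x.re := by
      refine sq_dvd 1 x.im x.re squarefree_one him ⟨f, ?_⟩
      linear_combination h1
    obtain ⟨c, hc⟩ := h3
    rw [hc] at h1
    have h4 : c * c = f := by
      have h5 : (x.im * x.im) * (c * c) = (x.im * x.im) * f := by linear_combination h1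
      exact mul_left_cancel₀ (mul_ne_zero him him) h5
    have h6 : IsUnit c := hsq c ⟨1, by rw [mul_one, h4]⟩
    have h7 : IsUnit f := by
      rw [← h4]
      exact h6.mul h6
    exact hpos.ne' (natDegree_eq_zero_of_isUnit h7)

theorem isDomain (f : F[X]) (hsq : Squarefree f) (hpos : 0 < f.natDegree) : IsDomain (OO f) := by
  have : NoZeroDivisors (OO f) := by
    refine ⟨fun {x y} hxy => ?_⟩
    by_contra h
    push Not at h
    have h1 : QuadraticAlgebra.norm (x * y) = 0 := by rw [hxy, QuadraticAlgebra.norm_zero]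
    rw [map_mul] at h1
    exact mul_ne_zero (norm_ne f hsq hpos x h.1) (norm_ne f hsq hpos y h.2) h1
  exact NoZeroDivisors.to_isDomain (OO f)

/-- integral elements of the form `r / d` are polynomials -/
theorem dvd_of_integral {K : Type} [Field K] [Algebra F[X] K]
    (hinj : Function.Injective (algebraMap F[X] K)) (z : K) (r d : F[X]) (hd : d ≠ 0)
    (hz : IsIntegral F[X] z) (h : algebraMap F[X] K d * z = algebraMap F[X] K r) : d ∣ r := by
  have hinj' : Function.Injective (Algebra.ofId F[X] K) := hinj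
  let φ : FractionRing F[X] →ₐ[F[X]] K := IsFractionRing.liftAlgHom hinj'
  have hφ : ∀ p : F[X], φ (algebraMap F[X] (FractionRing F[X]) p) = algebraMap F[X] K p :=
    fun p => φ.commutes p
  have hdK : algebraMap F[X] K d ≠ 0 := by
    intro h1
    exact hd (hinj (by rw [h1, map_zero]))
  have hdQ : algebraMap F[X] (FractionRing F[X]) d ≠ 0 := by
    intro h1
    apply hdK
    rw [← hφ, h1, map_zero]
  set w : FractionRing F[X] := algebraMap F[X] (FractionRing F[X]) r /
    algebraMap F[X] (FractionRing F[X]) d with hw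
  have h1 : φ w = z := by
    rw [hw, map_div₀, hφ, hφ, div_eq_iff hdK, ← h, mul_comm]
  have h2 : IsIntegral F[X] w := by
    rw [← isIntegral_algHom_iff φ φ.toRingHom.injective, h1]
    exact hz
  obtain ⟨y, hy⟩ := IsIntegrallyClosed.isIntegral_iff.1 h2
  refine ⟨y, ?_⟩
  have h3 : algebraMap F[X] (FractionRing F[X]) r = algebraMap F[X] (FractionRing F[X]) (d * y) := by
    rw [map_mul, hy, hw, mul_div_cancel₀ _ hdQ]
  exact IsFractionRing.injective F[X] (FractionRing F[X]) h3

end XE3

theorem p_E3 (F : Type) [Field F] [Fintype F] [CharP F 3] : S_E3 F := by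
  intro f hf
  obtain ⟨-, hsq, -, hpos⟩ := hf
  have hdom : IsDomain (OO f) := XE3.isDomain f hsq hpos
  rw [isDedekindDomain_iff (OO f) (FractionRing (OO f))]
  refine ⟨hdom, IsNoetherianRing.of_finite F[X] (OO f), Ring.DimensionLEOne.of_isIntegral F[X] (OO f),
    fun {x} hx => ?_⟩
  have hinjB : Function.Injective (algebraMap (OO f) (FractionRing (OO f))) := IsFractionRing.injective (OO f) (FractionRing (OO f))
  have hinj : Function.Injective (algebraMap F[X] (FractionRing (OO f))) := by
    rw [IsScalarTower.algebraMap_eq F[X] (OO f) (FractionRing (OO f))]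
    exact hinjB.comp QuadraticAlgebra.algebraMap_injective
  have hxF : IsIntegral F[X] x := isIntegral_trans x hx
  have hcast : ∀ p : F[X], algebraMap F[X] (FractionRing (OO f)) p = algebraMap (OO f) (FractionRing (OO f)) (algebraMap F[X] (OO f) p) :=
    fun p => IsScalarTower.algebraMap_apply F[X] (OO f) (FractionRing (OO f)) p
  -- a representation with a polynomial denominator
  obtain ⟨y, d, hd, hxy⟩ : ∃ (y : OO f) (d : F[X]), d ≠ 0 ∧
      algebraMap F[X] (FractionRing (OO f)) d * x = algebraMap (OO f) (FractionRing (OO f)) y := by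
    obtain ⟨p, q, hq, rfl⟩ := IsFractionRing.div_surjective (OO f) x
    have hq0 : q ≠ 0 := nonZeroDivisors.ne_zero hq
    refine ⟨star q * p, QuadraticAlgebra.norm q, XE3.norm_ne f hsq hpos q hq0, ?_⟩
    have hqK : algebraMap (OO f) (FractionRing (OO f)) q ≠ 0 := fun h => hq0 (hinjB (by rw [h, map_zero]))
    rw [hcast, QuadraticAlgebra.algebraMap_norm_eq_mul_star, map_mul, map_mul]
    field_simp
  -- conjugation
  let σ : (FractionRing (OO f)) ≃+* (FractionRing (OO f)) := IsFractionRing.ringEquivOfRingEquiv (starRingAut (R := OO f))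
  have hσ : ∀ z : OO f, σ (algebraMap (OO f) (FractionRing (OO f)) z) = algebraMap (OO f) (FractionRing (OO f)) (star z) := fun z =>
    IsFractionRing.ringEquivOfRingEquiv_algebraMap _ z
  have hστ : ∀ p : F[X], σ (algebraMap F[X] (FractionRing (OO f)) p) = algebraMap F[X] (FractionRing (OO f)) p := by
    intro p
    rw [hcast, hσ]
    congr 1
    refine QuadraticAlgebra.ext ?_ ?_
    · simp
    · simp
  have hσx : IsIntegral F[X] (σ x) := by
    refine IsIntegral.map_of_comp_eq (RingHom.id F[X]) σ.toRingHom ?_ hxF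
    ext p
    · simp [hστ]
    · simp [hστ]
  have hxy' : algebraMap F[X] (FractionRing (OO f)) d * σ x = algebraMap (OO f) (FractionRing (OO f)) (star y) := by
    rw [← hσ, ← hxy, map_mul, hστ]
  -- the real part
  have h2 : (2 : F[X]) = -1 := by
    have h3 : (3 : F[X]) = 0 := by
      have : ((3 : ℕ) : F[X]) = 0 := CharP.cast_eq_zero F[X] 3
      exact_mod_cast this
    linear_combination h3
  have hda : d ∣ y.re := by
    have h3 : d ∣ 2 * y.re := by
      refine XE3.dvd_of_integral hinj (x + σ x) (2 * y.re) d hd (hxF.add hσx) ?_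
      rw [mul_add, hxy, hxy', ← map_add, hcast]
      congr 1
      refine QuadraticAlgebra.ext ?_ ?_
      · simp
        ring
      · simp
    rw [h2, neg_one_mul, dvd_neg] at h3
    exact h3
  obtain ⟨a1, ha1⟩ := hda
  -- the imaginary part
  have hdb : d ∣ y.im := by
    refine XE3.sq_dvd f d y.im hsq hd ?_
    have h3 : algebraMap F[X] (FractionRing (OO f)) d * (x - algebraMap F[X] (FractionRing (OO f)) a1) =
        algebraMap (OO f) (FractionRing (OO f)) ⟨0, y.im⟩ := by
      rw [mul_sub, hxy, ← map_mul, ← ha1, hcast, ← map_sub]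
      congr 1
      refine QuadraticAlgebra.ext ?_ ?_
      · simp
      · simp
    refine XE3.dvd_of_integral hinj ((x - algebraMap F[X] (FractionRing (OO f)) a1) ^ 2) _ _ (pow_ne_zero 2 hd)
      ((hxF.sub isIntegral_algebraMap).pow 2) ?_
    rw [map_pow, ← mul_pow, h3, hcast, ← map_pow]
    congr 1
    refine QuadraticAlgebra.ext ?_ ?_
    · simp [sq, mul_assoc]
    · simp [sq]
  obtain ⟨b1, hb1⟩ := hdb
  refine ⟨⟨a1, b1⟩, ?_⟩
  have hdK : algebraMap F[X] (FractionRing (OO f)) d ≠ 0 := fun h => hd (hinj (by rw [h, map_zero]))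
  apply mul_left_cancel₀ hdK
  rw [hxy, hcast, ← map_mul]
  congr 1
  refine QuadraticAlgebra.ext ?_ ?_
  · simp [ha1]
  · simp [hb1]

end DH
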