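import Pool.Agent.H463.DH.Stm5

open Polynomial
open scoped Classical

noncomputable section

namespace DH

namespace XE4

variable {F : Type} [Field F] [Fintype F] [CharP F 3]

omit [Fintype F] in
theorem three : (3 : F[X]) = 0 := by
  have h : ((3 : ℕ) : F[X]) = 0 := CharP.cast_eq_zero F[X] 3
  exact_mod_cast h

omit [Fintype F] in
theorem threeO (f : F[X]) : (3 : OO f) = 0 :=
  QuadraticAlgebra.ext (show (3 : F[X]) = 0 from three) rfl

omit [Fintype F] in
theorem cube (f a c : F[X]) : (⟨a, c⟩ : OO f) ^ 3 = ⟨a ^ 3, c ^ 3 * f⟩ := by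
  have h3 : (3 : F[X]) = 0 := three
  rw [pow_succ, pow_two]
  apply QuadraticAlgebra.ext
  · simp only [QuadraticAlgebra.re_mul, QuadraticAlgebra.im_mul]
    linear_combination (f * a * c ^ 2) * h3
  · simp only [QuadraticAlgebra.re_mul, QuadraticAlgebra.im_mul]
    linear_combination (a ^ 2 * c) * h3

omit [Fintype F] in
theorem first (hB : ∀ G : F[X], derivative G = 0 ↔ ∃ A : F[X], G = A ^ 3) (f : F[X])
    (hf : f.Monic) (hs : Squarefree f) (x : OO f) (hx : dl f x = 0) : ∃ y : OO f, x = y ^ 3 := by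
  have h3 : (3 : F[X]) = 0 := three
  have hf0 : f ≠ 0 := hf.ne_zero
  have h1 : derivative x.im * f - x.im * derivative f = 0 := congrArg QuadraticAlgebra.re hx
  have h2 : derivative x.re = 0 := congrArg QuadraticAlgebra.im hx
  obtain ⟨a, ha⟩ := (hB _).1 h2
  have h4 : derivative (x.im * f ^ 2) = 0 := by
    rw [derivative_mul, pow_two, derivative_mul]
    linear_combination f * h1 + (x.im * f * derivative f) * h3
  obtain ⟨c, hc⟩ := (hB _).1 h4
  have h5 : f ∣ c := by
    apply hs.isRadical 3 c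
    rw [← hc, pow_two]
    exact ⟨x.im * f, by ring⟩
  obtain ⟨d, rfl⟩ := h5
  have h6 : x.im = d ^ 3 * f := by
    have : f ^ 2 * x.im = f ^ 2 * (d ^ 3 * f) := by
      linear_combination hc
    exact mul_left_cancel₀ (pow_ne_zero 2 hf0) this
  refine ⟨⟨a, d⟩, ?_⟩
  rw [cube]
  exact QuadraticAlgebra.ext ha h6

end XE4

theorem p_E4 (F : Type) [Field F] [Fintype F] [CharP F 3] (hA1 : S_A1 F) (hE2 : S_E2 F)
    (hB1 : S_B1 F) : S_E4 F := by
  intro f hf
  have h1 := fun x hx => XE4.first hB1.1 f hf.1 hf.2.1 x hx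
  refine ⟨h1, ?_⟩
  intro p q hp hq hpq
  obtain ⟨-, hmul, -, -, -, -⟩ := hA1 f
  have : IsDomain (OO f) := (hE2 f hf).1
  have h3 : (3 : OO f) = 0 := XE4.threeO f
  have h2 : dl f (p * (p * q)) = 0 := by
    rw [hmul, hmul]
    linear_combination p * hpq + (p * q * dl f p) * h3
  obtain ⟨y, hy⟩ := h1 _ h2
  refine ⟨p, y, hp, ?_, ?_⟩
  · intro h0
    rw [h0] at hy
    have : p * (p * q) = 0 := by
      rw [hy]
      ring
    exact mul_ne_zero hp (mul_ne_zero hp hq) this
  · rw [← hy]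
    ring

end DH
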