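import Pool.Agent.H463.DH.Stm5

/-!
# Task E8 (helper928; copied from task A8 of helper415): an ideal `I` with `I ^ 3 = (h)` gives a solution `v`,
real quadratic case
-/

open Polynomial
open scoped Classical

noncomputable section

namespace DH

namespace XE8

set_option linter.unusedSectionVars false

variable {F : Type} [Field F] [Fintype F] [CharP F 3]

theorem three_zero : (3 : F[X]) = 0 := by
  have h : ((3 : ℕ) : F[X]) = 0 := by
    have h1 : ((3 : ℕ) : F) = 0 := CharP.cast_eq_zero F 3
    rw [← map_natCast (C : F →+* F[X]) 3, h1, map_zero]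
  exact_mod_cast h

theorem three_zero' (f : F[X]) : (3 : OO f) = 0 := by
  have h : ((3 : ℕ) : OO f) = algebraMap F[X] (OO f) ((3 : ℕ) : F[X]) := (map_natCast _ 3).symm
  have h2 : ((3 : ℕ) : F[X]) = 0 := by
    have := three_zero (F := F)
    exact_mod_cast this
  rw [h2, map_zero] at h
  exact_mod_cast h

theorem cc_mul (f v w : F[X]) : cc f v * cc f w = cc f (v * w) := by
  ext <;> simp [cc]

theorem cc_add (f v w : F[X]) : cc f v + cc f w = cc f (v + w) := by
  ext <;> simp [cc]

theorem cc_inj {f v : F[X]} (h : cc f v = 0) : v = 0 := congrArg QuadraticAlgebra.re h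

/-- `h` divides `δ h` -/
theorem dvd_dl (hA1 : S_A1 F) {f : F[X]} [IsDomain (OO f)] {h : OO f} (hh : h ≠ 0)
    {I : Ideal (OO f)} (hI : I ^ 3 = Ideal.span {h}) : h ∣ dl f h := by
  obtain ⟨hadd, hmul, hcube, -, -, -⟩ := hA1 f
  have h3 := three_zero' f
  have key : ∀ t ∈ I * I ^ 2, ∃ c, t ^ 3 = h ^ 3 * c ∧ h ∣ c * dl f h := by
    intro t ht
    refine Submodule.mul_induction_on ht ?_ ?_
    · intro x hx y hy
      have hx3 : x ^ 3 ∈ Ideal.span {h} := by
        rw [← hI]
        exact Ideal.pow_mem_pow hx 3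
      have hy3 : y ^ 3 ∈ Ideal.span {h ^ 2} := by
        rw [← Ideal.span_singleton_pow, ← hI, ← pow_mul, mul_comm 3 2, pow_mul]
        exact Ideal.pow_mem_pow hy 3
      obtain ⟨b, hb⟩ := Ideal.mem_span_singleton.1 hx3
      obtain ⟨a, ha⟩ := Ideal.mem_span_singleton.1 hy3
      refine ⟨a * b, ?_, ?_⟩
      · rw [mul_pow, hb, ha]
        ring
      · have h1 : dl f (h ^ 2 * a) = 0 := by rw [← ha, hcube]
        rw [hmul, sq, hmul] at h1
        have h2 : h * (h * dl f a - a * dl f h) = 0 := by
          linear_combination h1 - h * a * dl f h * h3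
        have h4 := (mul_eq_zero.1 h2).resolve_left hh
        exact ⟨dl f a * b, by linear_combination -b * h4⟩
    · rintro x y ⟨c, hc, hc'⟩ ⟨c', hd, hd'⟩
      refine ⟨c + c', ?_, ?_⟩
      · linear_combination hc + hd + (x ^ 2 * y + x * y ^ 2) * h3
      · rw [add_mul]
        exact dvd_add hc' hd'
  have hm : h ∈ I * I ^ 2 := by
    have e : I * I ^ 2 = I ^ 3 := by ring
    rw [e, hI]
    exact Ideal.mem_span_singleton_self h
  obtain ⟨c, hc, hc'⟩ := key h hm
  have h5 : h ^ 3 * (c - 1) = 0 := by linear_combination -hc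
  have h6 := (mul_eq_zero.1 h5).resolve_left (pow_ne_zero 3 hh)
  have h7 : c = 1 := sub_eq_zero.1 h6
  rwa [h7, one_mul] at hc'

/-- the factor is a polynomial -/
theorem im_zero {f : F[X]} [IsDomain (OO f)] {h w : OO f} (hh : h ≠ 0)
    (hw : dl f h = h * w) : w.im = 0 := by
  have h3 := three_zero (F := F)
  have e1 : derivative h.im * f - h.im * derivative f = h.re * w.re + f * h.im * w.im := by
    have := congrArg QuadraticAlgebra.re hw
    simpa [dl] using this
  have e2 : derivative h.re = h.re * w.im + h.im * w.re := by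
    have := congrArg QuadraticAlgebra.im hw
    simpa [dl] using this
  obtain ⟨N, hN⟩ : ∃ N : F[X], N = h.re ^ 2 - f * h.im ^ 2 := ⟨_, rfl⟩
  have hN0 : N ≠ 0 := by
    intro h0
    have h4 : h * (⟨h.re, -h.im⟩ : OO f) = 0 := by
      refine QuadraticAlgebra.ext ?_ ?_
      · rw [QuadraticAlgebra.re_mul]
        show h.re * h.re + f * h.im * -h.im = 0
        linear_combination h0 - hN
      · rw [QuadraticAlgebra.im_mul]
        show h.re * -h.im + h.im * h.re + 0 * h.im * -h.im = 0
        ring
    rcases mul_eq_zero.1 h4 with h5 | h5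
    · exact hh h5
    · apply hh
      have h6 : h.re = 0 := congrArg QuadraticAlgebra.re h5
      have h7 : -h.im = 0 := congrArg QuadraticAlgebra.im h5
      exact QuadraticAlgebra.ext h6 (neg_eq_zero.1 h7)
  have hN' : derivative N = 2 * w.im * N := by
    rw [hN, derivative_sub, derivative_pow, derivative_mul, derivative_pow]
    simp only [Nat.cast_ofNat, map_ofNat]
    linear_combination 2 * h.re * e2 - 2 * h.im * e1 - derivative f * h.im ^ 2 * h3
  by_contra hb
  have h2 : (2 : F[X]) ≠ 0 := by
    intro h2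
    have : (1 : F[X]) = 0 := by linear_combination h3 - h2
    exact one_ne_zero this
  have h4 : (2 * w.im * N).degree ≥ N.degree := by
    rw [degree_mul]
    have h5 : 0 ≤ (2 * w.im).degree := zero_le_degree_iff.2 (mul_ne_zero h2 hb)
    exact le_add_of_nonneg_left h5
  rw [← hN'] at h4
  exact absurd (degree_derivative_lt hN0) (not_lt.2 h4)

/-- the equation -/
theorem sol_of (hA1 : S_A1 F) {f : F[X]} [IsDomain (OO f)] {h : OO f} (hh : h ≠ 0) {v : F[X]}
    (hv : dl f h = cc f v * h) : IsSol f v := by
  obtain ⟨hadd, hmul, -, -, hthree, hcc⟩ := hA1 f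
  have h3 := three_zero' f
  obtain ⟨D, hD⟩ : ∃ D : OO f, D = ⟨0, derivative v⟩ := ⟨_, rfl⟩
  have hcc' : dl f (cc f v) = D := by rw [hcc, hD]
  have e2 : dl f (dl f h) = (cc f v * cc f v + D) * h := by
    rw [hv, hmul, hv, hcc']
    ring
  have eD : dl f D = cc f (derivative (derivative v) * f - derivative v * derivative f) := by
    rw [hD]
    ext
    · simp [dl, cc]
    · simp [dl, cc]
  have e3 : dl f (dl f (dl f h)) = h * (cc f v * cc f v * cc f v +
      cc f (derivative (derivative v) * f - derivative v * derivative f)) := by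
    rw [e2, hmul, hadd, hmul, hcc', eD, hv]
    linear_combination cc f v * D * h * h3
  have e4 : h * (cc f v * cc f v * cc f v +
      cc f (derivative (derivative v) * f - derivative v * derivative f) +
        cc f (derivative (derivative f)) * cc f v) = 0 := by
    have e5 := hthree h
    rw [e3, hv] at e5
    linear_combination e5
  have e6 := (mul_eq_zero.1 e4).resolve_left hh
  rw [cc_mul, cc_mul, cc_mul, cc_add, cc_add] at e6
  have e7 := cc_inj e6
  unfold IsSol
  rw [derivative_mul, derivative_add, derivative_mul, derivative_mul]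
  linear_combination e7 + derivative f * derivative v * three_zero (F := F)

end XE8

theorem p_E8 (F : Type) [Field F] [Fintype F] [CharP F 3] (hA1 : S_A1 F) (hE2 : S_E2 F) :
    S_E8 F := by
  intro f hf h hh I hI
  have := (hE2 f hf).1
  obtain ⟨w, hw⟩ := XE8.dvd_dl hA1 hh hI
  have h0 := XE8.im_zero hh hw
  have hv : dl f h = cc f w.re * h := by
    rw [hw, mul_comm]
    congr 1
    exact QuadraticAlgebra.ext rfl h0
  exact ⟨w.re, XE8.sol_of hA1 hh hv, hv⟩

end DH
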