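import Pool.Agent.H463.DH.Stm5

open Polynomial
open scoped Classical

noncomputable section

namespace DH

namespace XE9

open nonZeroDivisors

/-- the cube of ideals is injective in a Dedekind domain -/
lemma cube_inj {R : Type*} [CommRing R] [IsDomain R] [IsDedekindDomain R] {I J : Ideal R}
    (h : I ^ 3 = J ^ 3) : I = J := by
  apply le_antisymm
  · rw [← Ideal.dvd_iff_le]
    exact (UniqueFactorizationMonoid.pow_dvd_pow_iff_dvd (by norm_num)).1 (dvd_of_eq h.symm)
  · rw [← Ideal.dvd_iff_le]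
    exact (UniqueFactorizationMonoid.pow_dvd_pow_iff_dvd (by norm_num)).1 (dvd_of_eq h)

lemma mk0_cube {R : Type*} [CommRing R] [IsDomain R] [IsDedekindDomain R] (I : (Ideal R)⁰) :
    ClassGroup.mk0 I ^ 3 = 1 ↔ ∃ h : R, (I : Ideal R) ^ 3 = Ideal.span {h} := by
  have hm : (I : Ideal R) ^ 3 ∈ (Ideal R)⁰ := pow_mem I.2 3
  have h1 : (I ^ 3 : (Ideal R)⁰) = ⟨(I : Ideal R) ^ 3, hm⟩ :=
    Subtype.ext (SubmonoidClass.coe_pow I 3)
  rw [← map_pow, h1, ClassGroup.mk0_eq_one_iff hm]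
  constructor
  · rintro ⟨⟨h, hh⟩⟩
    exact ⟨h, hh⟩
  · rintro ⟨h, hh⟩
    exact ⟨⟨h, hh⟩⟩

variable {F : Type} [Field F] [Fintype F] [CharP F 3]

/-- the relation between solutions and classes -/
def R (f : F[X]) [IsDomain (OO f)] [IsDedekindDomain (OO f)] (v : F[X]) (c : ClassGroup (OO f)) :
    Prop :=
  ∃ h : OO f, h ≠ 0 ∧ dl f h = cc f v * h ∧
    ∃ I : (Ideal (OO f))⁰, (I : Ideal (OO f)) ^ 3 = Ideal.span {h} ∧ ClassGroup.mk0 I = c

lemma exists_c (hE7 : S_E7 F) {f : F[X]} (hf : GoodR f) [IsDomain (OO f)] [IsDedekindDomain (OO f)]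
    {v : F[X]} (hv : IsSol f v) : ∃ c, R f v c := by
  obtain ⟨h, h0, hd, I, hI⟩ := hE7 f hf v hv
  have hI0 : I ≠ 0 := by
    intro hz
    rw [hz] at hI
    have : Ideal.span {h} = (⊥ : Ideal (OO f)) := by
      rw [← hI]; simp
    exact h0 (Ideal.span_singleton_eq_bot.1 this)
  exact ⟨ClassGroup.mk0 ⟨I, mem_nonZeroDivisors_iff_ne_zero.2 hI0⟩, h, h0, hd,
    ⟨I, mem_nonZeroDivisors_iff_ne_zero.2 hI0⟩, hI, rfl⟩

lemma cube_eq_one {f : F[X]} [IsDomain (OO f)] [IsDedekindDomain (OO f)]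
    {v : F[X]} {c : ClassGroup (OO f)} (h : R f v c) : c ^ 3 = 1 := by
  obtain ⟨h, h0, hd, I, hI, rfl⟩ := h
  exact (mk0_cube I).2 ⟨h, hI⟩

lemma exists_v (hE8 : S_E8 F) {f : F[X]} (hf : GoodR f) [IsDomain (OO f)] [IsDedekindDomain (OO f)]
    {c : ClassGroup (OO f)} (hc : c ^ 3 = 1) : ∃ v, IsSol f v ∧ R f v c := by
  obtain ⟨I, rfl⟩ := ClassGroup.mk0_surjective c
  obtain ⟨h, hh'⟩ := (mk0_cube I).1 hc
  have h0 : h ≠ 0 := by
    intro hz
    rw [hz] at hh'
    have h1 : (I : Ideal (OO f)) ^ 3 = 0 := by rw [hh']; simp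
    exact nonZeroDivisors.coe_ne_zero I (pow_eq_zero_iff (by norm_num) |>.1 h1)
  obtain ⟨v, hv, hd⟩ := hE8 f hf h h0 I hh'
  exact ⟨v, hv, h, h0, hd, I, hh', rfl⟩

lemma uniq_c (hE4 : S_E4 F) {f : F[X]} (hf : GoodR f) [IsDomain (OO f)] [IsDedekindDomain (OO f)]
    {v : F[X]} {c c' : ClassGroup (OO f)} (h1 : R f v c) (h2 : R f v c') : c = c' := by
  obtain ⟨h, h0, hd, I, hI, rfl⟩ := h1
  obtain ⟨h', h0', hd', I', hI', rfl⟩ := h2
  obtain ⟨c, e, hc, he, hce⟩ := (hE4 f hf).2 h h' h0 h0' (by rw [hd, hd']; ring)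
  rw [ClassGroup.mk0_eq_mk0_iff]
  refine ⟨e, c, he, hc, ?_⟩
  apply cube_inj
  rw [mul_pow, mul_pow, hI, hI', Ideal.span_singleton_pow, Ideal.span_singleton_pow,
    Ideal.span_singleton_mul_span_singleton, Ideal.span_singleton_mul_span_singleton,
    mul_comm, hce, mul_comm]

lemma cc_sub (f v w : F[X]) : cc f (v - w) = cc f v - cc f w := by
  ext <;> simp [cc]

lemma cc_add (f v w : F[X]) : cc f (v + w) = cc f v + cc f w := by
  ext <;> simp [cc]

lemma rel_u (hA1 : S_A1 F) {f : F[X]} [IsDomain (OO f)]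
    [IsDedekindDomain (OO f)]
    {v v' : F[X]} {c : ClassGroup (OO f)} (h1 : R f v c) (h2 : R f v' c) :
    ∃ u : OO f, IsUnit u ∧ dl f u = cc f (v' - v) * u := by
  obtain ⟨h, h0, hd, I, hI, hc⟩ := h1
  obtain ⟨h', h0', hd', I', hI', hc'⟩ := h2
  rw [← hc', ClassGroup.mk0_eq_mk0_iff] at hc
  obtain ⟨x, y, hx, hy, hxy⟩ := hc
  have h3 : Ideal.span {x ^ 3 * h} = Ideal.span {y ^ 3 * h'} := by
    have := congrArg (fun J => J ^ 3) hxy
    simp only [mul_pow, hI, hI', Ideal.span_singleton_pow,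
      Ideal.span_singleton_mul_span_singleton] at this
    exact this
  rw [Ideal.span_singleton_eq_span_singleton] at h3
  obtain ⟨u, hu⟩ := h3
  obtain ⟨-, hmul, -, hcube, -, hcc⟩ := hA1 f
  have e1 : dl f (x ^ 3 * (h * u)) = x ^ 3 * (h * dl f u + u * (cc f v * h)) := by
    rw [hcube, hmul, hd]
  have e2 : dl f (y ^ 3 * h') = y ^ 3 * (cc f v' * h') := by
    rw [hcube, hd']
  have e3 : x ^ 3 * (h * u) = y ^ 3 * h' := by rw [← hu]; ring
  rw [e3, e2] at e1
  have hne : x ^ 3 * h ≠ 0 := mul_ne_zero (pow_ne_zero _ hx) h0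
  have e4 : (x ^ 3 * h) * (dl f (u : OO f) - (cc f v' - cc f v) * u) = 0 := by
    have h5 : y ^ 3 * (cc f v' * h') = cc f v' * (x ^ 3 * (h * u)) := by rw [e3]; ring
    rw [h5] at e1
    linear_combination -e1
  have e5 := (mul_eq_zero.1 e4).resolve_left hne
  refine ⟨u, u.isUnit, ?_⟩
  rw [cc_sub]
  exact sub_eq_zero.1 e5

lemma rel_add (hA1 : S_A1 F) {f : F[X]} [IsDomain (OO f)]
    [IsDedekindDomain (OO f)]
    {v w : F[X]} {c : ClassGroup (OO f)} (h1 : R f v c)
    (hu : ∃ u : OO f, IsUnit u ∧ dl f u = cc f w * u) : R f (v + w) c := by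
  obtain ⟨h, h0, hd, I, hI, hc⟩ := h1
  obtain ⟨u, hu, hdu⟩ := hu
  obtain ⟨-, hmul, -, hcube, -, hcc⟩ := hA1 f
  refine ⟨u * h, mul_ne_zero hu.ne_zero h0, ?_, I, ?_, hc⟩
  · rw [hmul, hd, hdu, cc_add]; ring
  · rw [hI, Ideal.span_singleton_eq_span_singleton]
    obtain ⟨u', rfl⟩ := hu
    exact ⟨u', mul_comm _ _⟩

lemma sol_add {f v w : F[X]} (hv : IsSol f v) (hw : IsSol f w) : IsSol f (v + w) := by
  unfold IsSol at *
  rw [mul_add, derivative_add, derivative_add, hv, hw, add_pow_char]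
  ring

lemma sol_neg {f w : F[X]} (hw : IsSol f w) : IsSol f (-w) := by
  unfold IsSol at *
  rw [mul_neg, derivative_neg, derivative_neg, hw]
  ring

end XE9

open XE9 in
/-- **E9** -/
theorem p_E9 (F : Type) [Field F] [Fintype F] [CharP F 3] (hA1 : S_A1 F) (hE2 : S_E2 F)
    (hE3 : S_E3 F) (hE4 : S_E4 F) (hE7 : S_E7 F) (hE8 : S_E8 F) (hEU : S_EU F) (hB1 : S_B1 F) :
    S_E9 F := by
  intro f hf
  haveI hdom : IsDomain (OO f) := (hE2 f hf).1
  haveI hded : IsDedekindDomain (OO f) := hE3 f hf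
  obtain ⟨-, -, -, -, -, hsol, -, -, -⟩ := hB1
  obtain ⟨v₀, hv0, hs0, hEUv⟩ := hEU f hf
  unfold cl3
  rw [dif_pos hdom]
  have hex : ∀ v : {v // v ∈ sol f}, ∃ c : ClassGroup (OO f), R f v.1 c := fun v =>
    exists_c hE7 hf ((hsol f v.1).1 v.2)
  choose g hg using hex
  let G : {v // v ∈ sol f} → {c : ClassGroup (OO f) // c ^ 3 = 1} :=
    fun v => ⟨g v, cube_eq_one (hg v)⟩
  have hGs : Function.Surjective G := by
    rintro ⟨c, hc⟩
    obtain ⟨v, hv, hR⟩ := exists_v hE8 hf hc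
    refine ⟨⟨v, (hsol f v).2 hv⟩, ?_⟩
    apply Subtype.ext
    exact uniq_c hE4 hf (hg ⟨v, (hsol f v).2 hv⟩) hR
  haveI hfinT : Finite {c : ClassGroup (OO f) // c ^ 3 = 1} := Finite.of_surjective G hGs
  letI : Fintype {c : ClassGroup (OO f) // c ^ 3 = 1} := Fintype.ofFinite _
  have hfib : ∀ c : {c : ClassGroup (OO f) // c ^ 3 = 1},
      (Finset.univ.filter (fun v : {v // v ∈ sol f} => G v = c)).card = 3 := by
    intro c
    obtain ⟨v₁, hv₁⟩ := hGs c
    have hR1 : R f v₁.1 c.1 := by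
      have := hg v₁
      have h2 : g v₁ = c.1 := congrArg Subtype.val hv₁
      rw [h2] at this
      exact this
    have hs1 : IsSol f v₁.1 := (hsol f _).1 v₁.2
    have hsp : IsSol f (v₁.1 + v₀) := sol_add hs1 hs0
    have hsm : IsSol f (v₁.1 + -v₀) := sol_add hs1 (sol_neg hs0)
    have hRp : R f (v₁.1 + v₀) c.1 := rel_add hA1 hR1 ((hEUv v₀).2 (Or.inr (Or.inl rfl)))
    have hRm : R f (v₁.1 + -v₀) c.1 := rel_add hA1 hR1 ((hEUv (-v₀)).2 (Or.inr (Or.inr rfl)))
    have hset : (Finset.univ.filter (fun v : {v // v ∈ sol f} => G v = c)).card =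
        ({v₁.1, v₁.1 + v₀, v₁.1 + -v₀} : Finset F[X]).card := by
      rw [← Finset.card_map (Function.Embedding.subtype _)]
      apply congrArg
      apply Finset.ext
      intro v
      simp only [Finset.mem_map, Finset.mem_filter, Finset.mem_univ, true_and,
        Function.Embedding.subtype_apply, Finset.mem_insert, Finset.mem_singleton]
      constructor
      · rintro ⟨w, hw, rfl⟩
        have hRw : R f w.1 c.1 := by
          have := hg w
          have h2 : g w = c.1 := congrArg Subtype.val hw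
          rw [h2] at this
          exact this
        rcases (hEUv _).1 (rel_u hA1 hR1 hRw) with h | h | h
        · left
          exact sub_eq_zero.1 h
        · right; left
          rw [← h]; ring
        · right; right
          rw [← h]; ring
      · have key : ∀ v, IsSol f v → R f v c.1 → ∃ a : {v // v ∈ sol f}, G a = c ∧ a.1 = v := by
          intro v hv hR
          refine ⟨⟨v, (hsol f v).2 hv⟩, ?_, rfl⟩
          apply Subtype.ext
          exact uniq_c hE4 hf (hg ⟨v, (hsol f v).2 hv⟩) hR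
        rintro (rfl | rfl | rfl)
        · exact key _ hs1 hR1
        · exact key _ hsp hRp
        · exact key _ hsm hRm
    rw [hset]
    have h3 : (3 : F[X]) = 0 := CharP.cast_eq_zero F[X] 3
    have h12 : v₁.1 ≠ v₁.1 + v₀ := by
      intro h
      exact hv0 (by linear_combination -h)
    have h13 : v₁.1 ≠ v₁.1 + -v₀ := by
      intro h
      exact hv0 (by linear_combination h)
    have h23 : v₁.1 + v₀ ≠ v₁.1 + -v₀ := by
      intro h
      exact hv0 (by linear_combination -h + v₀ * h3)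
    rw [Finset.card_insert_of_notMem, Finset.card_insert_of_notMem, Finset.card_singleton]
    · rw [Finset.mem_singleton]
      exact h23
    · rw [Finset.mem_insert, Finset.mem_singleton]
      rintro (h | h)
      · exact h12 h
      · exact h13 h
  have hcard := Finset.card_eq_sum_card_fiberwise (s := (Finset.univ : Finset {v // v ∈ sol f}))
    (t := (Finset.univ : Finset {c : ClassGroup (OO f) // c ^ 3 = 1})) (f := G)
    (fun x _ => Finset.mem_coe.2 (Finset.mem_univ _))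
  rw [Finset.sum_congr rfl (fun c _ => hfib c), Finset.sum_const, smul_eq_mul, Finset.card_univ,
    Finset.card_univ, Fintype.card_coe] at hcard
  rw [hcard, Nat.card_eq_fintype_card, mul_comm]
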