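import Pool.Agent.H463.DH.Stm5

/-!
# EA: approximation for Pell's equation
-/

open Polynomial
open scoped Classical

noncomputable section

namespace DH

namespace XEA

theorem mul_lt {F : Type} [Field F] {p q : F[X]} {i j : ℕ} (hp : p.natDegree ≤ i)
    (hq : q.degree < (j : WithBot ℕ)) : (p * q).degree < ((i + j : ℕ) : WithBot ℕ) := by
  by_cases h0 : p = 0
  · subst h0
    rw [zero_mul, degree_zero]
    exact WithBot.bot_lt_coe _
  by_cases h1 : q = 0
  · subst h1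
    rw [mul_zero, degree_zero]
    exact WithBot.bot_lt_coe _
  rw [degree_eq_natDegree h1] at hq
  have hq' : q.natDegree < j := by exact_mod_cast hq
  rw [degree_mul, degree_eq_natDegree h0, degree_eq_natDegree h1]
  have h2 : p.natDegree + q.natDegree < i + j := by omega
  exact_mod_cast h2

theorem key (F : Type) [Field F] [Fintype F] [CharP F 3] (hB0 : S_B0 F) (k : ℕ) (T : F[X]) :
    ∃ b a R : F[X], b ≠ 0 ∧ b.natDegree ≤ k ∧ b * T = R + X ^ (2 * k) * a ∧
      R.degree < (k : WithBot ℕ) := by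
  obtain ⟨hPOL, -, -, hcard, -, -⟩ := hB0
  have hmon : (X ^ (2 * k) : F[X]).Monic := monic_X_pow _
  have hmonk : (X ^ k : F[X]).Monic := monic_X_pow _
  have hRdeg : ∀ b : F[X], ((b * T) %ₘ X ^ (2 * k)).degree < ((2 * k : ℕ) : WithBot ℕ) := by
    intro b
    have h := degree_modByMonic_lt (b * T) hmon
    rwa [degree_X_pow] at h
  have hmaps : ∀ b ∈ POL F (k + 1), ((b * T) %ₘ X ^ (2 * k)) /ₘ X ^ k ∈ POL F k := by
    intro b _
    rw [hPOL]
    by_cases h0 : ((b * T) %ₘ X ^ (2 * k)) /ₘ X ^ k = 0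
    · rw [h0, degree_zero]
      exact WithBot.bot_lt_coe _
    have hR0 : (b * T) %ₘ X ^ (2 * k) ≠ 0 := by
      intro h
      apply h0
      rw [h, zero_divByMonic]
    have h1 := hRdeg b
    rw [degree_eq_natDegree hR0] at h1
    have h2 : ((b * T) %ₘ X ^ (2 * k)).natDegree < 2 * k := by exact_mod_cast h1
    rw [degree_eq_natDegree h0]
    have h3 := natDegree_divByMonic ((b * T) %ₘ X ^ (2 * k)) hmonk
    rw [natDegree_X_pow] at h3
    have h4 : (((b * T) %ₘ X ^ (2 * k)) /ₘ X ^ k).natDegree < k := by omega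
    exact_mod_cast h4
  have hlt : (POL F k).card < (POL F (k + 1)).card := by
    rw [hcard, hcard]
    exact Nat.pow_lt_pow_right Fintype.one_lt_card (Nat.lt_succ_self k)
  obtain ⟨b₁, h₁, b₂, h₂, hne, heq⟩ :=
    Finset.exists_ne_map_eq_of_card_lt_of_maps_to hlt hmaps
  refine ⟨b₁ - b₂, ((b₁ - b₂) * T) /ₘ X ^ (2 * k), ((b₁ - b₂) * T) %ₘ X ^ (2 * k),
    sub_ne_zero.2 hne, ?_, (modByMonic_add_div _ _).symm, ?_⟩
  · rw [hPOL] at h₁ h₂
    have h3 : (b₁ - b₂).degree < ((k + 1 : ℕ) : WithBot ℕ) :=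
      lt_of_le_of_lt (degree_sub_le _ _) (max_lt h₁ h₂)
    rw [degree_eq_natDegree (sub_ne_zero.2 hne)] at h3
    have h4 : (b₁ - b₂).natDegree < k + 1 := by exact_mod_cast h3
    omega
  · have e : ((b₁ - b₂) * T) %ₘ X ^ (2 * k) =
        ((b₁ * T) %ₘ X ^ (2 * k)) %ₘ X ^ k - ((b₂ * T) %ₘ X ^ (2 * k)) %ₘ X ^ k := by
      have e1 := modByMonic_add_div ((b₁ * T) %ₘ X ^ (2 * k)) (X ^ k : F[X])
      have e2 := modByMonic_add_div ((b₂ * T) %ₘ X ^ (2 * k)) (X ^ k : F[X])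
      rw [sub_mul, sub_modByMonic]
      have e3 : ((b₁ * T) %ₘ X ^ (2 * k)) /ₘ X ^ k = ((b₂ * T) %ₘ X ^ (2 * k)) /ₘ X ^ k := heq
      rw [e3] at e1
      linear_combination e2 - e1
    rw [e]
    have d1 := degree_modByMonic_lt ((b₁ * T) %ₘ X ^ (2 * k)) hmonk
    have d2 := degree_modByMonic_lt ((b₂ * T) %ₘ X ^ (2 * k)) hmonk
    rw [degree_X_pow] at d1 d2
    exact lt_of_le_of_lt (degree_sub_le _ _) (max_lt d1 d2)

end XEA

theorem p_EA (F : Type) [Field F] [Fintype F] [CharP F 3] (hB0 : S_B0 F) (hE1 : S_E1 F) :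
    S_EA F := by
  intro m k f hm hf hfd
  have hG : (f * X ^ (4 * k)).Monic := hf.mul (monic_X_pow _)
  have hGd : (f * X ^ (4 * k)).natDegree = 2 * (m + 2 * k) := by
    rw [hf.natDegree_mul (monic_X_pow _), natDegree_X_pow, hfd]
    ring
  obtain ⟨T, hT, hTd, hTG⟩ := hE1 (m + 2 * k) _ hG hGd
  obtain ⟨b, a, R, hb, hbk, hbT, hR⟩ := XEA.key F hB0 k T
  have hRk : R.natDegree ≤ k := by
    by_cases h0 : R = 0
    · rw [h0, natDegree_zero]
      exact Nat.zero_le _
    · rw [degree_eq_natDegree h0] at hR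
      have h1 : R.natDegree < k := by exact_mod_cast hR
      omega
  have hid : (a ^ 2 - f * b ^ 2) * X ^ (4 * k) =
      (- b ^ 2) * (f * X ^ (4 * k) - T ^ 2) + ((- (2 * (b * T))) * R + R * R) := by
    have h4 : (X ^ (4 * k) : F[X]) = (X ^ (2 * k)) ^ 2 := by
      rw [← pow_mul]
      congr 1
      ring
    rw [h4]
    linear_combination (-(X ^ (2 * k) * a) - b * T + R) * hbT
  have hbd : ∀ D : ℕ, 2 * b.natDegree + (m + 2 * k) ≤ D → b.natDegree + (m + 2 * k) + k ≤ D →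
      2 * k ≤ D → ((a ^ 2 - f * b ^ 2) * X ^ (4 * k)).degree < (D : WithBot ℕ) := by
    intro D hD1 hD2 hD3
    rw [hid]
    have n1 : (- b ^ 2).natDegree ≤ 2 * b.natDegree := by
      rw [natDegree_neg, natDegree_pow]
    have n2 : (- (2 * (b * T))).natDegree ≤ b.natDegree + (m + 2 * k) := by
      rw [natDegree_neg]
      have h2 : (2 : F[X]) = C 2 := (map_ofNat C 2).symm
      rw [h2]
      refine (natDegree_C_mul_le _ _).trans ?_
      refine natDegree_mul_le.trans ?_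
      rw [hTd]
    have t1 : ((- b ^ 2) * (f * X ^ (4 * k) - T ^ 2)).degree < (D : WithBot ℕ) :=
      lt_of_lt_of_le (XEA.mul_lt n1 hTG) (by exact_mod_cast hD1)
    have t2 : ((- (2 * (b * T))) * R).degree < (D : WithBot ℕ) :=
      lt_of_lt_of_le (XEA.mul_lt n2 hR) (by exact_mod_cast hD2)
    have t3 : (R * R).degree < (D : WithBot ℕ) :=
      lt_of_lt_of_le (XEA.mul_lt hRk hR) (by
        have : k + k ≤ D := by omega
        exact_mod_cast this)
    exact lt_of_le_of_lt (degree_add_le _ _)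
      (max_lt t1 (lt_of_le_of_lt (degree_add_le _ _) (max_lt t2 t3)))
  have hdeg : ∀ D : ℕ, a ^ 2 - f * b ^ 2 ≠ 0 →
      ((a ^ 2 - f * b ^ 2) * X ^ (4 * k)).degree < (D : WithBot ℕ) →
        (a ^ 2 - f * b ^ 2).natDegree + 4 * k < D := by
    intro D h0 h
    rw [degree_mul, degree_X_pow, degree_eq_natDegree h0] at h
    exact_mod_cast h
  refine ⟨a, b, hb, hbk, ?_, ?_⟩
  · by_cases h0 : a ^ 2 - f * b ^ 2 = 0
    · rw [h0, degree_zero]
      exact WithBot.bot_lt_coe _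
    · have h1 := hdeg (m + 4 * k) h0 (hbd (m + 4 * k) (by omega) (by omega) (by omega))
      rw [degree_eq_natDegree h0]
      have h2 : (a ^ 2 - f * b ^ 2).natDegree < m := by omega
      exact_mod_cast h2
  · intro h0
    by_contra hcon
    have h1 := hdeg (4 * k) h0 (hbd (4 * k) (by omega) (by omega) (by omega))
    omega

end DH
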