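import Pool.Agent.H463.DH.Stm5

/-!
# The number of monic `f` of degree `2 g + 2` with `W ^ 2 ∣ f` and `(f v)'' = - v ^ 3`, `deg v = g`
-/

open Polynomial
open scoped Classical

noncomputable section

namespace DH

namespace XEB

variable {F : Type} [Field F] [CharP F 3]

theorem three_F : (3 : F) = 0 := by
  exact_mod_cast CharP.cast_eq_zero F 3

theorem d_cube (c : F[X]) : derivative (c ^ 3) = 0 := by
  have h : C ((3 : ℕ) : F) = 0 := by rw [CharP.cast_eq_zero, C_0]
  rw [derivative_pow, h, zero_mul, zero_mul]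

theorem dd_cube_mul (c G : F[X]) :
    derivative (derivative (c ^ 3 * G)) = c ^ 3 * derivative (derivative G) := by
  rw [derivative_mul, d_cube, zero_mul, zero_add, derivative_mul, d_cube, zero_mul, zero_add]

theorem dd_X2 : derivative (derivative (X ^ 2 : F[X])) = -1 := by
  have h2 : (2 : F) = -1 := by
    have := three_F (F := F)
    linear_combination this
  have h3 : C ((2 : ℕ) : F) = -1 := by
    rw [Nat.cast_ofNat, h2, map_neg, map_one]
  rw [derivative_X_pow, h3]
  simp

theorem dd_X2_cube (u : F[X]) : derivative (derivative (X ^ 2 * u ^ 3)) = - u ^ 3 := by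
  rw [mul_comm, dd_cube_mul, dd_X2]
  ring

/-- the coefficients at exponents `2` mod `3` vanish -/
theorem coeff_two (G : F[X]) (hG : derivative (derivative G) = 0) (k : ℕ) :
    G.coeff (3 * k + 2) = 0 := by
  have h : (derivative (derivative G)).coeff (3 * k) = 0 := by rw [hG, coeff_zero]
  rw [coeff_derivative, coeff_derivative] at h
  push_cast at h
  have h3 := three_F (F := F)
  have h1 : 3 * k + 1 + 1 = 3 * k + 2 := rfl
  rw [h1] at h
  linear_combination (-h) + (G.coeff (3 * k + 2)) * (1 + 3 * (k : F) ^ 2 + 3 * (k : F)) * h3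

/-- the number of `G` of degree less than `3 k + 2` with second derivative `0` in a residue class -/
theorem card_lt [Fintype F] (hB0 : S_B0 F) (hB4 : S_B4 F) (W : F[X]) (hW : W ≠ 0)
    (hf : CubeFree W) (k : ℕ) (hk : 2 * W.natDegree ≤ 3 * k + 2) (r : F[X]) :
    W.natDegree ≤ 2 * k + 2 ∧
    ((POL F (3 * k + 2)).filter (fun G => derivative (derivative G) = 0 ∧ W ∣ G - r)).card =
      Fintype.card F ^ (2 * k + 2 - W.natDegree) := by
  obtain ⟨hPOL, -⟩ := hB0
  have hNN : NN (3 * k + 3) = 2 * k + 2 := by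
    unfold NN
    omega
  have hj := hB4 W hW hf (3 * k + 3) (by omega) (by omega) 1 one_ne_zero
  rw [hNN] at hj
  obtain ⟨hD, h0⟩ := hj 0
  obtain ⟨-, hr⟩ := hj r
  refine ⟨hD, ?_⟩
  have hpos : 0 < Fintype.card F ^ (2 * k + 2 - W.natDegree) := pow_pos Fintype.card_pos _
  rw [← h0] at hpos
  obtain ⟨K, hK⟩ := Finset.card_pos.mp hpos
  rw [Finset.mem_filter, hPOL, sub_zero] at hK
  obtain ⟨hKd, hK2, hKc, hKW⟩ := hK
  rw [← hr]
  refine Finset.card_bij (fun G _ => G + K) ?_ ?_ ?_
  · intro G hG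
    rw [Finset.mem_filter, hPOL] at hG
    obtain ⟨hGd, hG2, hGW⟩ := hG
    rw [Finset.mem_filter, hPOL]
    refine ⟨?_, ?_, ?_, ?_⟩
    · refine lt_of_le_of_lt (degree_add_le _ _) (max_lt ?_ hKd)
      refine hGd.trans ?_
      exact_mod_cast (by omega : 3 * k + 2 < 3 * k + 3 + 1)
    · rw [derivative_add, derivative_add, hG2, hK2, add_zero]
    · have h1 : G.coeff (3 * k + 3) = 0 := by
        refine coeff_eq_zero_of_degree_lt (hGd.trans ?_)
        exact_mod_cast (by omega : 3 * k + 2 < 3 * k + 3)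
      rw [coeff_add, h1, hKc, zero_add]
    · have h1 : G + K - r = (G - r) + K := by ring
      rw [h1]
      exact dvd_add hGW hKW
  · intro G _ G' _ h
    exact add_right_cancel h
  · intro H hH
    rw [Finset.mem_filter, hPOL] at hH
    obtain ⟨hHd, hH2, hHc, hHW⟩ := hH
    refine ⟨H - K, ?_, sub_add_cancel H K⟩
    have h2 : derivative (derivative (H - K)) = 0 := by
      rw [derivative_sub, derivative_sub, hH2, hK2, sub_zero]
    rw [Finset.mem_filter, hPOL]
    refine ⟨?_, h2, ?_⟩
    · rw [degree_lt_iff_coeff_zero]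
      intro m hm
      rcases Nat.lt_or_ge m (3 * k + 3) with hm1 | hm1
      · have hm2 : m = 3 * k + 2 := by omega
        rw [hm2]
        exact coeff_two _ h2 k
      · rcases Nat.lt_or_ge m (3 * k + 3 + 1) with hm3 | hm3
        · have hm4 : m = 3 * k + 3 := by omega
          rw [hm4, coeff_sub, hHc, hKc, sub_self]
        · have e1 := (degree_lt_iff_coeff_zero H (3 * k + 3 + 1)).1 hHd m hm3
          have e2 := (degree_lt_iff_coeff_zero K (3 * k + 3 + 1)).1 hKd m hm3
          rw [coeff_sub, e1, e2, sub_self]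
    · have h1 : H - K - r = (H - r) - K := by ring
      rw [h1]
      exact dvd_sub hHW hKW

end XEB

open XEB in
/-- **EB.** -/
theorem p_EB (F : Type) [Field F] [Fintype F] [CharP F 3] (hB0 : S_B0 F)
    (hB4 : S_B4 F) (hCP : S_CP F) : S_EB F := by
  intro g W v hWm hWs hv hvd hbig
  have hB0' := hB0
  obtain ⟨hPOL, hMON, -⟩ := hB0'
  obtain ⟨hC1, hC2, hC3⟩ := hCP
  have hq : (0 : ℝ) < qq F := by
    unfold qq
    exact_mod_cast Fintype.card_pos
  obtain ⟨a, ha⟩ : ∃ a, a = v.leadingCoeff := ⟨_, rfl⟩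
  have ha0 : a ≠ 0 := by rw [ha]; exact leadingCoeff_ne_zero.2 hv
  have hX2 : (X ^ 2 * v ^ 3).natDegree = 3 * g + 2 := by
    rw [natDegree_mul (pow_ne_zero _ X_ne_zero) (pow_ne_zero _ hv), natDegree_X_pow,
      natDegree_pow, hvd]
    omega
  have hX2l : (X ^ 2 * v ^ 3).leadingCoeff = a ^ 3 := by
    rw [leadingCoeff_mul, leadingCoeff_pow, leadingCoeff_pow, leadingCoeff_X, one_pow, one_mul, ha]
  have hX2c : (X ^ 2 * v ^ 3).coeff (3 * g + 2) = a ^ 3 := by
    rw [← hX2l, leadingCoeff, hX2]
  have hX20 : X ^ 2 * v ^ 3 ≠ 0 := mul_ne_zero (pow_ne_zero _ X_ne_zero) (pow_ne_zero _ hv)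
  -- facts on solutions
  have hfact : ∀ f : F[X], f.Monic → f.natDegree = 2 * g + 2 → IsSol f v →
      derivative (derivative (f * v - X ^ 2 * v ^ 3)) = 0 ∧ a ^ 3 = a ∧
      (f * v - X ^ 2 * v ^ 3).degree < ((3 * g + 2 : ℕ) : WithBot ℕ) := by
    intro f hfm hfd hsol
    have h1 : derivative (derivative (f * v - X ^ 2 * v ^ 3)) = 0 := by
      unfold IsSol at hsol
      rw [derivative_sub, derivative_sub, hsol, dd_X2_cube, sub_self]
    have h2 := coeff_two _ h1 g
    have hfvd : (f * v).natDegree = 3 * g + 2 := by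
      rw [natDegree_mul hfm.ne_zero hv, hfd, hvd]
      omega
    have hfvc : (f * v).coeff (3 * g + 2) = a := by
      rw [← hfvd]
      change (f * v).leadingCoeff = a
      rw [leadingCoeff_mul, hfm.leadingCoeff, one_mul, ha]
    rw [coeff_sub, hfvc, hX2c] at h2
    refine ⟨h1, by linear_combination -h2, ?_⟩
    rw [degree_lt_iff_coeff_zero]
    intro m hm
    rcases Nat.lt_or_ge m (3 * g + 3) with hm1 | hm1
    · have hm2 : m = 3 * g + 2 := by omega
      rw [hm2]
      exact coeff_two _ h1 g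
    · rw [coeff_sub, coeff_eq_zero_of_natDegree_lt (by omega : (f * v).natDegree < m),
        coeff_eq_zero_of_natDegree_lt (by omega : (X ^ 2 * v ^ 3).natDegree < m), sub_self]
  by_cases hone : v.leadingCoeff ^ 2 = 1
  swap
  · rw [if_neg hone]
    have h0 : cnt (2 * g + 2) W v = 0 := by
      unfold cnt
      rw [Finset.card_eq_zero, Finset.filter_eq_empty_iff]
      intro f hf hcon
      obtain ⟨hfm, hfd⟩ := (hMON _ f).1 hf
      obtain ⟨-, h3, -⟩ := hfact f hfm hfd hcon.2
      apply hone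
      rw [← ha]
      have h4 : a * (a ^ 2 - 1) = 0 := by linear_combination h3
      have h5 := (mul_eq_zero.1 h4).resolve_left ha0
      linear_combination h5
    rw [h0]
    norm_num
  · rw [if_pos hone]
    rw [← ha] at hone
    have ha3 : a ^ 3 = a := by linear_combination a * hone
    have hW0 : W ≠ 0 := hWm.ne_zero
    have hU0 : W ^ 2 * v ≠ 0 := mul_ne_zero (pow_ne_zero _ hW0) hv
    obtain ⟨hcm, hcd, -⟩ := hC1 _ hU0
    have hcv := hC3 W v hWs hv
    obtain ⟨W₁, hW₁⟩ := hcd
    have hfree := hC2 _ W₁ hU0 hW₁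
    have hcle := natDegree_le_of_dvd hcv hv
    obtain ⟨v₁, hv₁⟩ := hcv
    obtain ⟨c, hc⟩ : ∃ c, c = cpart (W ^ 2 * v) := ⟨_, rfl⟩
    rw [← hc] at hcm hW₁ hv₁ hcle ⊢
    have hc0 : c ≠ 0 := hcm.ne_zero
    have hW₁0 : W₁ ≠ 0 := by
      intro h
      rw [h, mul_zero] at hW₁
      exact hU0 hW₁
    have hdeg : 2 * W.natDegree + g = 3 * c.natDegree + W₁.natDegree := by
      have h1 := congrArg natDegree hW₁
      rw [natDegree_mul (pow_ne_zero _ hW0) hv, natDegree_pow,
        natDegree_mul (pow_ne_zero _ hc0) hW₁0, natDegree_pow, hvd] at h1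
      exact h1
    obtain ⟨k, hk⟩ : ∃ k, g = k + c.natDegree := ⟨g - c.natDegree, by omega⟩
    obtain ⟨hD, hcard⟩ := card_lt hB0 hB4 W₁ hW₁0 hfree k (by omega) (-(X ^ 2 * v₁ ^ 3))
    have hv3 : v ^ 3 = c ^ 3 * v₁ ^ 3 := by
      conv_lhs => rw [hv₁]
      ring
    have hcdeg : (c ^ 3).degree = ((3 * c.natDegree : ℕ) : WithBot ℕ) := by
      rw [degree_eq_natDegree (pow_ne_zero _ hc0), natDegree_pow]
    -- the two sets have the same image
    have himg : ((MON F (2 * g + 2)).filter (fun f => W ^ 2 ∣ f ∧ IsSol f v)).image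
          (fun f => f * v) =
        ((POL F (3 * k + 2)).filter (fun G => derivative (derivative G) = 0 ∧
          W₁ ∣ G - -(X ^ 2 * v₁ ^ 3))).image (fun G => c ^ 3 * (G + X ^ 2 * v₁ ^ 3)) := by
      ext H
      rw [Finset.mem_image, Finset.mem_image]
      constructor
      · rintro ⟨f, hf, rfl⟩
        rw [Finset.mem_filter, hMON] at hf
        obtain ⟨⟨hfm, hfd⟩, ⟨s, hs⟩, hsol⟩ := hf
        have hfv : f * v = c ^ 3 * (W₁ * s) := by
          rw [hs, ← mul_assoc, ← hW₁]
          ring
        have hG3 : c ^ 3 * (W₁ * s - X ^ 2 * v₁ ^ 3) = f * v - X ^ 2 * v ^ 3 := by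
          rw [hfv, hv3]
          ring
        obtain ⟨d1, -, d2⟩ := hfact f hfm hfd hsol
        rw [← hG3] at d1 d2
        refine ⟨W₁ * s - X ^ 2 * v₁ ^ 3, ?_, ?_⟩
        · rw [Finset.mem_filter, hPOL]
          refine ⟨?_, ?_, ?_⟩
          · by_cases hG0 : W₁ * s - X ^ 2 * v₁ ^ 3 = 0
            · rw [hG0, degree_zero]
              exact WithBot.bot_lt_coe _
            · have e1 : (c ^ 3 * (W₁ * s - X ^ 2 * v₁ ^ 3)).natDegree < 3 * g + 2 := by
                rw [degree_eq_natDegree (mul_ne_zero (pow_ne_zero _ hc0) hG0)] at d2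
                exact_mod_cast d2
              rw [natDegree_mul (pow_ne_zero _ hc0) hG0, natDegree_pow] at e1
              rw [degree_eq_natDegree hG0]
              exact_mod_cast (by omega : (W₁ * s - X ^ 2 * v₁ ^ 3).natDegree < 3 * k + 2)
          · rw [dd_cube_mul] at d1
            exact (mul_eq_zero.1 d1).resolve_left (pow_ne_zero _ hc0)
          · exact ⟨s, by ring⟩
        · rw [sub_add_cancel, hfv]
      · rintro ⟨G, hG, rfl⟩
        rw [Finset.mem_filter, hPOL] at hG
        obtain ⟨hGd, hG2, s, hs⟩ := hG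
        rw [sub_neg_eq_add] at hs
        have hH : c ^ 3 * (G + X ^ 2 * v₁ ^ 3) = c ^ 3 * G + X ^ 2 * v ^ 3 := by
          rw [hv3]
          ring
        have hfv : W ^ 2 * s * v = c ^ 3 * (G + X ^ 2 * v₁ ^ 3) := by
          rw [hs, ← mul_assoc, ← hW₁]
          ring
        have hcG : (c ^ 3 * G).degree < (X ^ 2 * v ^ 3).degree := by
          rw [degree_eq_natDegree hX20, hX2]
          by_cases hG0 : G = 0
          · rw [hG0, mul_zero, degree_zero]
            exact WithBot.bot_lt_coe _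
          · rw [degree_eq_natDegree hG0] at hGd
            have h1 : G.natDegree < 3 * k + 2 := by exact_mod_cast hGd
            rw [degree_eq_natDegree (mul_ne_zero (pow_ne_zero _ hc0) hG0),
              natDegree_mul (pow_ne_zero _ hc0) hG0, natDegree_pow]
            exact_mod_cast (by omega : 3 * c.natDegree + G.natDegree < 3 * g + 2)
        have e1 : (c ^ 3 * G + X ^ 2 * v ^ 3).natDegree = 3 * g + 2 := by
          rw [← hX2]
          exact natDegree_eq_of_degree_eq (degree_add_eq_right_of_degree_lt hcG)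
        have e2 : (c ^ 3 * G + X ^ 2 * v ^ 3).leadingCoeff = a := by
          rw [leadingCoeff_add_of_degree_lt hcG, hX2l, ha3]
        rw [← hH, ← hfv] at e1 e2
        have hf0 : W ^ 2 * s ≠ 0 := by
          intro h0
          rw [h0, zero_mul, natDegree_zero] at e1
          omega
        rw [natDegree_mul hf0 hv, hvd] at e1
        rw [leadingCoeff_mul, ← ha] at e2
        refine ⟨W ^ 2 * s, ?_, hfv⟩
        rw [Finset.mem_filter, hMON]
        refine ⟨⟨?_, by omega⟩, ⟨s, rfl⟩, ?_⟩
        · have h1 : (W ^ 2 * s).leadingCoeff * a = 1 * a := by rw [e2, one_mul]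
          exact mul_right_cancel₀ ha0 h1
        · unfold IsSol
          rw [hfv, hH, derivative_add, derivative_add, dd_cube_mul, hG2, mul_zero, zero_add,
            dd_X2_cube]
    have hcnt : cnt (2 * g + 2) W v = Fintype.card F ^ (2 * k + 2 - W₁.natDegree) := by
      rw [← hcard]
      unfold cnt
      have h1 := congrArg Finset.card himg
      rw [Finset.card_image_of_injective _ (fun x y hxy => mul_right_cancel₀ hv hxy),
        Finset.card_image_of_injective _ (fun x y hxy => by
          have h2 := mul_left_cancel₀ (pow_ne_zero 3 hc0) hxy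
          exact add_right_cancel h2)] at h1
      exact h1
    rw [hcnt, eq_div_iff (pow_ne_zero _ hq.ne')]
    push_cast
    change qq F ^ (2 * k + 2 - W₁.natDegree) * qq F ^ (2 * W.natDegree + g) = _
    rw [← pow_add, ← pow_add]
    congr 1
    omega

end DH
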