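import Pool.Agent.H463.DH.Stm5

/-!
# EC : the class group of `F[X][√f]`, `f` of even degree (adapted from C1, C2)
-/

open Polynomial
open scoped Classical

noncomputable section

namespace DH

namespace XEC

theorem fin {F : Type} [Field F] [Fintype F] (f : F[X]) [hd : IsDomain (OO f)]
    (hD : IsDedekindDomain (OO f)) : Finite (ClassGroup (OO f)) := by
  have h := ClassGroup.fintypeOfAdmissibleOfAlgebraic (R := F[X]) (S := OO f)
    (QuadraticAlgebra.basis f 0) (cardPowDegreeIsAdmissible (Fq := F))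
  exact Finite.of_fintype _

theorem pw (G : Type) [CommGroup G] [Finite G] :
    (∃ r : ℕ, Nat.card {c : G // c ^ 3 = 1} = 3 ^ r) ∧ Nat.card {c : G // c ^ 3 = 1} ∣ Nat.card G ∧
      (3 ∣ Nat.card G → 1 < Nat.card {c : G // c ^ 3 = 1}) := by
  let H : Subgroup G := (powMonoidHom 3 : G →* G).ker
  have hmem : ∀ c : G, c ∈ H ↔ c ^ 3 = 1 := by
    intro c
    show c ∈ (powMonoidHom 3 : G →* G).ker ↔ _
    rw [MonoidHom.mem_ker, powMonoidHom_apply]
  have hcard : Nat.card {c : G // c ^ 3 = 1} = Nat.card H :=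
    Nat.card_congr (Equiv.subtypeEquivRight fun c => (hmem c).symm)
  have : Fact (Nat.Prime 3) := ⟨Nat.prime_three⟩
  have hp : IsPGroup 3 H := by
    intro g
    refine ⟨1, ?_⟩
    rw [pow_one]
    apply Subtype.ext
    rw [SubmonoidClass.coe_pow]
    exact (hmem g.1).1 g.2
  refine ⟨?_, ?_, ?_⟩
  · rw [hcard]
    exact IsPGroup.iff_card.1 hp
  · rw [hcard]
    exact Subgroup.card_subgroup_dvd_card H
  · intro h3
    obtain ⟨x, hx⟩ := exists_prime_orderOf_dvd_card' (G := G) 3 h3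
    rw [hcard]
    rw [Finite.one_lt_card_iff_nontrivial]
    refine ⟨⟨⟨x, (hmem x).2 (by rw [← hx]; exact pow_orderOf_eq_one x)⟩, 1, ?_⟩⟩
    intro h
    have h1 : x = 1 := Subtype.ext_iff.1 h
    rw [h1, orderOf_one] at hx
    omega

theorem grp (G : Type) [CommGroup G] [Finite G] :
    (Nat.card {c : G // c ^ 3 = 1} = 1 ↔ ¬ 3 ∣ Nat.card G) ∧
      (1 < Nat.card {c : G // c ^ 3 = 1} ↔ 3 ∣ Nat.card G) ∧
      ∃ r : ℕ, Nat.card {c : G // c ^ 3 = 1} = 3 ^ r := by
  obtain ⟨⟨r, hr⟩, h1, h2⟩ := pw G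
  have key : ¬ 3 ∣ Nat.card G → Nat.card {c : G // c ^ 3 = 1} = 1 := by
    intro h
    rcases Nat.eq_zero_or_pos r with h0 | h0
    · rw [hr, h0, pow_zero]
    · exact absurd ((dvd_pow_self 3 h0.ne').trans (hr ▸ h1)) h
  refine ⟨⟨fun h h3 => ?_, key⟩, ⟨fun h => ?_, h2⟩, ⟨r, hr⟩⟩
  · have := h2 h3
    omega
  · by_contra h3
    have := key h3
    omega

end XEC

theorem p_EC (F : Type) [Field F] [Fintype F] [CharP F 3] (hE2 : S_E2 F) (hE3 : S_E3 F) : S_EC F := by
  intro f hf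
  have hd : IsDomain (OO f) := (hE2 f hf).1
  have hded : IsDedekindDomain (OO f) := hE3 f hf
  have hfin : Finite (ClassGroup (OO f)) := XEC.fin f hded
  have e1 : cln f = Nat.card (ClassGroup (OO f)) := by
    unfold cln
    rw [dif_pos hd]
  have e2 : cl3 f = Nat.card {c : ClassGroup (OO f) // c ^ 3 = 1} := by
    unfold cl3
    rw [dif_pos hd]
  rw [e1, e2]
  exact ⟨Nat.card_pos, XEC.grp (ClassGroup (OO f))⟩

end DH
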