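import Pool.Agent.H463.DH.Stm5

/-!
# EF4: the upper bound for the first moment over all monic polynomials, even degree (adapted from F4 by helper722)
-/

open Polynomial
open scoped Classical

noncomputable section

namespace DH

namespace XEF4

set_option linter.unusedSectionVars false

variable (F : Type) [Field F] [Fintype F]

theorem two_le_card : 2 ≤ Fintype.card F := Fintype.one_lt_card

/-- the telescoping sum -/
theorem geo1 (q d : ℕ) (hq : 2 ≤ q) (m : ℕ) (hm : m ≤ d + 1) :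
    ∑ k ∈ Finset.range m, (q - 1) * q ^ (d - k) + q ^ (d + 1 - m) = q ^ (d + 1) := by
  induction m with
  | zero => simp
  | succ m ih =>
    have h1 := ih (by omega)
    rw [Finset.sum_range_succ, ← h1, add_assoc]
    congr 1
    have h2 : d + 1 - m = (d - m) + 1 := by omega
    have h3 : d + 1 - (m + 1) = d - m := by omega
    rw [h2, h3, pow_succ]
    obtain ⟨r, rfl⟩ : ∃ r, q = r + 1 := ⟨q - 1, by omega⟩
    rw [Nat.add_sub_cancel]
    ring

theorem geo2 (q : ℕ) (hq : 2 ≤ q) (m : ℕ) : q * ∑ k ∈ Finset.range m, q ^ k ≤ 2 * q ^ m := by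
  induction m with
  | zero => simp
  | succ m ih =>
    rw [Finset.sum_range_succ, mul_add, pow_succ]
    have h1 : 2 * q ^ m ≤ q * q ^ m := Nat.mul_le_mul_right _ hq
    nlinarith

/-- the number of multiples of `c ^ 3` -/
theorem mult (hB0 : S_B0 F) (d k : ℕ) (c : F[X]) (hc : c.Monic) (hk : c.natDegree = k)
    (hkd : 3 * k ≤ d) :
    ((DEG F d).filter (fun v => c ^ 3 ∣ v)).card ≤
      (Fintype.card F - 1) * Fintype.card F ^ (d - 3 * k) := by
  obtain ⟨-, -, hD, -, -, hDc⟩ := hB0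
  rw [← hDc]
  have hsub : (DEG F d).filter (fun v => c ^ 3 ∣ v) ⊆
      (DEG F (d - 3 * k)).image (fun v => c ^ 3 * v) := by
    intro v hv
    obtain ⟨hv1, hv2⟩ := Finset.mem_filter.1 hv
    obtain ⟨hv0, hvd⟩ := (hD d v).1 hv1
    obtain ⟨v1, rfl⟩ := hv2
    rw [Finset.mem_image]
    refine ⟨v1, (hD _ _).2 ?_, rfl⟩
    have h1 : v1 ≠ 0 := right_ne_zero_of_mul hv0
    refine ⟨h1, ?_⟩
    rw [Polynomial.natDegree_mul (pow_ne_zero 3 hc.ne_zero) h1, Polynomial.natDegree_pow, hk] at hvd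
    omega
  exact (Finset.card_le_card hsub).trans Finset.card_image_le

/-- the weights -/
theorem weight (hB0 : S_B0 F) (hCP : S_CP F) (d : ℕ) :
    ∑ v ∈ DEG F d, Fintype.card F ^ (cpart v).natDegree ≤ Fintype.card F ^ (d + 1) := by
  have hB0' := hB0
  obtain ⟨-, hM, hD, -, hMc, -⟩ := hB0'
  set q := Fintype.card F with hqdef
  have hq : 2 ≤ q := two_le_card F
  have h1 : ∀ v ∈ DEG F d, q ^ (cpart v).natDegree ≤
      ∑ k ∈ Finset.range (d / 3 + 1), ∑ c ∈ MON F k, if c ^ 3 ∣ v then q ^ k else 0 := by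
    intro v hv
    obtain ⟨hv0, hvd⟩ := (hD d v).1 hv
    obtain ⟨hc1, hc2, -⟩ := hCP.1 v hv0
    have hdeg : 3 * (cpart v).natDegree ≤ d := by
      have h2 := Polynomial.natDegree_le_of_dvd hc2 hv0
      rw [Polynomial.natDegree_pow, hvd] at h2
      exact h2
    have hk : (cpart v).natDegree ∈ Finset.range (d / 3 + 1) := by
      rw [Finset.mem_range]
      omega
    refine le_trans ?_ (Finset.single_le_sum (f := fun k =>
      ∑ c ∈ MON F k, if c ^ 3 ∣ v then q ^ k else 0) (fun _ _ => Nat.zero_le _) hk)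
    have hcm : cpart v ∈ MON F (cpart v).natDegree := (hM _ _).2 ⟨hc1, rfl⟩
    refine le_trans ?_ (Finset.single_le_sum (f := fun c =>
      if c ^ 3 ∣ v then q ^ (cpart v).natDegree else 0) (fun _ _ => Nat.zero_le _) hcm)
    rw [if_pos hc2]
  refine (Finset.sum_le_sum h1).trans ?_
  rw [Finset.sum_comm]
  have h2 : ∀ k ∈ Finset.range (d / 3 + 1),
      ∑ v ∈ DEG F d, ∑ c ∈ MON F k, (if c ^ 3 ∣ v then q ^ k else 0) ≤
        (q - 1) * q ^ (d - k) := by
    intro k hk
    have hk3 : 3 * k ≤ d := by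
      have := Finset.mem_range.1 hk
      omega
    rw [Finset.sum_comm]
    have h3 : ∀ c ∈ MON F k, ∑ v ∈ DEG F d, (if c ^ 3 ∣ v then q ^ k else 0) ≤
        ((q - 1) * q ^ (d - 3 * k)) * q ^ k := by
      intro c hc
      obtain ⟨hc1, hc2⟩ := (hM k c).1 hc
      rw [← Finset.sum_filter, Finset.sum_const, smul_eq_mul]
      exact Nat.mul_le_mul_right _ (mult F hB0 d k c hc1 hc2 hk3)
    refine (Finset.sum_le_sum h3).trans ?_
    rw [Finset.sum_const, smul_eq_mul, hMc]
    have h4 : q ^ (d - k) = q ^ k * q ^ (d - 3 * k) * q ^ k := by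
      rw [← pow_add, ← pow_add]
      congr 1
      omega
    rw [h4]
    exact le_of_eq (by ring)
  refine (Finset.sum_le_sum h2).trans ?_
  have h5 := geo1 q d hq (d / 3 + 1) (by omega)
  omega


theorem three_le_card [CharP F 3] : 3 ≤ Fintype.card F := by
  have h1 : ((Fintype.card F : ℕ) : F) = 0 := by
    simp
  have h2 : 3 ∣ Fintype.card F := (CharP.cast_eq_zero_iff F 3 _).1 h1
  exact Nat.le_of_dvd Fintype.card_pos h2

/-- the polynomials with leading coefficient `1` or `-1` -/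
theorem card_pm (hB0 : S_B0 F) (e : ℕ) :
    ((DEG F e).filter (fun v => v.leadingCoeff ^ 2 = 1)).card ≤ 2 * Fintype.card F ^ e := by
  obtain ⟨-, hM, hD, -, hMc, -⟩ := hB0
  have hsub : (DEG F e).filter (fun v => v.leadingCoeff ^ 2 = 1) ⊆
      MON F e ∪ (MON F e).image (fun v => - v) := by
    intro v hv
    obtain ⟨hv1, hv2⟩ := Finset.mem_filter.1 hv
    obtain ⟨hv0, hvd⟩ := (hD e v).1 hv1
    rw [Finset.mem_union, Finset.mem_image]
    rcases (eq_or_eq_neg_of_sq_eq_sq v.leadingCoeff 1 (hv2.trans (one_pow 2).symm)) with h | h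
    · left
      exact (hM _ _).2 ⟨h, hvd⟩
    · right
      refine ⟨-v, (hM _ _).2 ⟨?_, ?_⟩, neg_neg v⟩
      · rw [Polynomial.Monic, Polynomial.leadingCoeff_neg, h, neg_neg]
      · rw [Polynomial.natDegree_neg, hvd]
  refine (Finset.card_le_card hsub).trans ((Finset.card_union_le _ _).trans ?_)
  have h1 : ((MON F e).image (fun v => - v)).card ≤ (MON F e).card := Finset.card_image_le
  rw [hMc] at h1 ⊢
  omega

/-- the number of multiples of `c ^ 3` with leading coefficient `1` or `-1` -/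
theorem mult2 (hB0 : S_B0 F) (d k : ℕ) (c : F[X]) (hc : c.Monic) (hk : c.natDegree = k)
    (hkd : 3 * k ≤ d) :
    (((DEG F d).filter (fun v => v.leadingCoeff ^ 2 = 1)).filter (fun v => c ^ 3 ∣ v)).card ≤
      2 * Fintype.card F ^ (d - 3 * k) := by
  refine le_trans ?_ (card_pm F hB0 (d - 3 * k))
  obtain ⟨-, -, hD, -, -, -⟩ := hB0
  have hsub : ((DEG F d).filter (fun v => v.leadingCoeff ^ 2 = 1)).filter (fun v => c ^ 3 ∣ v) ⊆
      ((DEG F (d - 3 * k)).filter (fun v => v.leadingCoeff ^ 2 = 1)).image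
        (fun v => c ^ 3 * v) := by
    intro v hv
    obtain ⟨hv1, hv2⟩ := Finset.mem_filter.1 hv
    obtain ⟨hv3, hv4⟩ := Finset.mem_filter.1 hv1
    obtain ⟨hv0, hvd⟩ := (hD d v).1 hv3
    obtain ⟨v1, rfl⟩ := hv2
    have h1 : v1 ≠ 0 := right_ne_zero_of_mul hv0
    rw [Finset.mem_image]
    refine ⟨v1, Finset.mem_filter.2 ⟨(hD _ _).2 ⟨h1, ?_⟩, ?_⟩, rfl⟩
    · rw [Polynomial.natDegree_mul (pow_ne_zero 3 hc.ne_zero) h1, Polynomial.natDegree_pow, hk]
        at hvd
      omega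
    · rw [Polynomial.leadingCoeff_mul, Polynomial.leadingCoeff_pow, hc.leadingCoeff, one_pow,
        one_mul] at hv4
      exact hv4
  exact (Finset.card_le_card hsub).trans Finset.card_image_le

/-- the weights, leading coefficient `1` or `-1` -/
theorem weight2 [CharP F 3] (hB0 : S_B0 F) (hCP : S_CP F) (d : ℕ) :
    ∑ v ∈ (DEG F d).filter (fun v => v.leadingCoeff ^ 2 = 1),
      Fintype.card F ^ (cpart v).natDegree ≤ 3 * Fintype.card F ^ d := by
  have hB0' := hB0
  obtain ⟨-, hM, hD, -, hMc, -⟩ := hB0'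
  have hq3 : 3 ≤ Fintype.card F := three_le_card F
  set q := Fintype.card F with hqdef
  have hq : 2 ≤ q := by omega
  set S := (DEG F d).filter (fun v => v.leadingCoeff ^ 2 = 1) with hS
  have h1 : ∀ v ∈ S, q ^ (cpart v).natDegree ≤
      ∑ k ∈ Finset.range (d / 3 + 1), ∑ c ∈ MON F k, if c ^ 3 ∣ v then q ^ k else 0 := by
    intro v hv
    obtain ⟨hv0, hvd⟩ := (hD d v).1 (Finset.mem_filter.1 hv).1
    obtain ⟨hc1, hc2, -⟩ := hCP.1 v hv0
    have hdeg : 3 * (cpart v).natDegree ≤ d := by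
      have h2 := Polynomial.natDegree_le_of_dvd hc2 hv0
      rw [Polynomial.natDegree_pow, hvd] at h2
      exact h2
    have hk : (cpart v).natDegree ∈ Finset.range (d / 3 + 1) := by
      rw [Finset.mem_range]
      omega
    refine le_trans ?_ (Finset.single_le_sum (f := fun k =>
      ∑ c ∈ MON F k, if c ^ 3 ∣ v then q ^ k else 0) (fun _ _ => Nat.zero_le _) hk)
    have hcm : cpart v ∈ MON F (cpart v).natDegree := (hM _ _).2 ⟨hc1, rfl⟩
    refine le_trans ?_ (Finset.single_le_sum (f := fun c =>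
      if c ^ 3 ∣ v then q ^ (cpart v).natDegree else 0) (fun _ _ => Nat.zero_le _) hcm)
    rw [if_pos hc2]
  have h2 : ∀ k ∈ Finset.range (d / 3 + 1),
      ∑ v ∈ S, ∑ c ∈ MON F k, (if c ^ 3 ∣ v then q ^ k else 0) ≤ 2 * q ^ (d - k) := by
    intro k hk
    have hk3 : 3 * k ≤ d := by
      have := Finset.mem_range.1 hk
      omega
    rw [Finset.sum_comm]
    have h3 : ∀ c ∈ MON F k, ∑ v ∈ S, (if c ^ 3 ∣ v then q ^ k else 0) ≤
        (2 * q ^ (d - 3 * k)) * q ^ k := by
      intro c hc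
      obtain ⟨hc1, hc2⟩ := (hM k c).1 hc
      rw [← Finset.sum_filter, Finset.sum_const, smul_eq_mul]
      exact Nat.mul_le_mul_right _ (mult2 F hB0 d k c hc1 hc2 hk3)
    refine (Finset.sum_le_sum h3).trans ?_
    rw [Finset.sum_const, smul_eq_mul, hMc]
    have h4 : q ^ (d - k) = q ^ k * q ^ (d - 3 * k) * q ^ k := by
      rw [← pow_add, ← pow_add]
      congr 1
      omega
    rw [h4]
    exact le_of_eq (by ring)
  have h5 : ∑ v ∈ S, q ^ (cpart v).natDegree ≤
      ∑ k ∈ Finset.range (d / 3 + 1), 2 * q ^ (d - k) := by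
    refine (Finset.sum_le_sum h1).trans ?_
    rw [Finset.sum_comm]
    exact Finset.sum_le_sum h2
  have h6 := geo1 q d hq (d / 3 + 1) (by omega)
  rw [← Finset.mul_sum] at h5 h6
  have h7 : (q - 1) * ∑ k ∈ Finset.range (d / 3 + 1), q ^ (d - k) ≤ q * q ^ d := by
    rw [pow_succ] at h6
    rw [mul_comm q]
    omega
  refine h5.trans ?_
  obtain ⟨r, hr⟩ : ∃ r, q = r + 3 := ⟨q - 3, by omega⟩
  have h8 : q - 1 = r + 2 := by omega
  rw [h8] at h7
  refine Nat.le_of_mul_le_mul_left (c := r + 2) ?_ (by omega)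
  calc (r + 2) * (2 * ∑ k ∈ Finset.range (d / 3 + 1), q ^ (d - k))
      = 2 * ((r + 2) * ∑ k ∈ Finset.range (d / 3 + 1), q ^ (d - k)) := by ring
    _ ≤ 2 * (q * q ^ d) := Nat.mul_le_mul_left _ h7
    _ = (2 * q) * q ^ d := by ring
    _ ≤ (3 * (r + 2)) * q ^ d := Nat.mul_le_mul_right _ (by omega)
    _ = (r + 2) * (3 * q ^ d) := by ring

/-- the exponents -/
theorem expo (q g : ℕ) :
    ∑ d ∈ (Finset.range g).filter (fun d => (2 * g + 2 + d) % 3 ≠ 2), q ^ NN (2 * g + 2 + d) ≤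
      ∑ k ∈ Finset.range (2 * g + 2), q ^ k := by
  have hinj : Set.InjOn (fun d => NN (2 * g + 2 + d))
      ((Finset.range g).filter (fun d => (2 * g + 2 + d) % 3 ≠ 2) : Finset ℕ) := by
    intro a ha b hb hab
    have ha' := (Finset.mem_filter.1 (Finset.mem_coe.1 ha)).2
    have hb' := (Finset.mem_filter.1 (Finset.mem_coe.1 hb)).2
    simp only [NN] at hab
    omega
  rw [← Finset.sum_image (f := fun k => q ^ k) hinj]
  refine Finset.sum_le_sum_of_subset ?_
  intro k hk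
  obtain ⟨d, hd, rfl⟩ := Finset.mem_image.1 hk
  obtain ⟨hd1, hd2⟩ := Finset.mem_filter.1 hd
  have hd3 := Finset.mem_range.1 hd1
  rw [Finset.mem_range]
  simp only [NN]
  omega

end XEF4

open XEF4 in
theorem p_EF4 (F : Type) [Field F] [Fintype F] [CharP F 3] (hB0 : S_B0 F) (hB1 : S_B1 F)
    (hB5 : S_B5 F) (hCP : S_CP F) (hEB : S_EB F) (hEF1 : S_EF1 F) : S_EF4 F := by
  intro g
  have hq : 2 ≤ Fintype.card F := two_le_card F
  have hqR : (0 : ℝ) < (Fintype.card F : ℝ) := by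
    have : 0 < Fintype.card F := by omega
    exact_mod_cast this
  obtain ⟨-, -, hD, -, hMc, -⟩ := id hB0
  obtain ⟨-, -, -, -, -, -, -, hsz, -⟩ := hB1
  have h1 : ∑ f ∈ MON F (2 * g + 2), (sol f).card =
      ∑ f ∈ MON F (2 * g + 2), (solz f).card + Fintype.card F ^ (2 * g + 2) := by
    rw [Finset.sum_congr rfl fun f _ => hsz f, Finset.sum_add_distrib, Finset.sum_const, hMc,
      smul_eq_mul, mul_one]
  have h2 := hEF1 g 1
  have h3 : (MON F (2 * g + 2)).filter (fun f => (1 : F[X]) ^ 2 ∣ f) = MON F (2 * g + 2) := by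
    rw [Finset.filter_true_of_mem]
    intro f _
    rw [one_pow]
    exact one_dvd f
  rw [h3, Finset.sum_range_succ] at h2
  have h4 : ∀ d ∈ Finset.range g, ((∑ v ∈ DEG F d, cnt (2 * g + 2) 1 v : ℕ) : ℝ) ≤
      if (2 * g + 2 + d) % 3 ≠ 2 then
        (Fintype.card F : ℝ) * (Fintype.card F : ℝ) ^ NN (2 * g + 2 + d) else 0 := by
    intro d hd
    have hd' := Finset.mem_range.1 hd
    have h5 : ∀ v ∈ DEG F d, ((cnt (2 * g + 2) 1 v : ℕ) : ℝ) =
        if (2 * g + 2 + d) % 3 = 2 then 0 else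
          (Fintype.card F : ℝ) ^ NN (2 * g + 2 + d) * (Fintype.card F : ℝ) ^ (cpart v).natDegree /
            (Fintype.card F : ℝ) ^ d := by
      intro v hv
      obtain ⟨hv0, hvd⟩ := (hD d v).1 hv
      have h6 := hB5 (2 * g + 2) d 1 v Polynomial.monic_one squarefree_one hv0 hvd (by omega)
        (by rw [Polynomial.natDegree_one]; omega)
      rw [h6, one_pow, one_mul, Polynomial.natDegree_one, mul_zero, zero_add]
      rfl
    rw [Nat.cast_sum, Finset.sum_congr rfl h5]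
    by_cases hc : (2 * g + 2 + d) % 3 = 2
    · simp [hc]
    · simp only [if_neg hc, if_pos hc, ne_eq]
      rw [← Finset.sum_div, ← Finset.mul_sum, div_le_iff₀ (pow_pos hqR d)]
      have h7 : (∑ v ∈ DEG F d, (Fintype.card F : ℝ) ^ (cpart v).natDegree) ≤
          (Fintype.card F : ℝ) ^ (d + 1) := by
        exact_mod_cast weight F hB0 hCP d
      calc (Fintype.card F : ℝ) ^ NN (2 * g + 2 + d) *
          ∑ v ∈ DEG F d, (Fintype.card F : ℝ) ^ (cpart v).natDegree
          ≤ (Fintype.card F : ℝ) ^ NN (2 * g + 2 + d) * (Fintype.card F : ℝ) ^ (d + 1) :=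
            mul_le_mul_of_nonneg_left h7 (pow_nonneg hqR.le _)
        _ = (Fintype.card F : ℝ) * (Fintype.card F : ℝ) ^ NN (2 * g + 2 + d) *
          (Fintype.card F : ℝ) ^ d := by
            rw [pow_succ]
            ring
  have h8 : ((∑ d ∈ Finset.range g, ∑ v ∈ DEG F d, cnt (2 * g + 2) 1 v : ℕ) : ℝ) ≤
      ((2 * Fintype.card F ^ (2 * g + 2) : ℕ) : ℝ) := by
    have h9 : ((∑ d ∈ Finset.range g, ∑ v ∈ DEG F d, cnt (2 * g + 2) 1 v : ℕ) : ℝ) ≤
        ∑ d ∈ Finset.range g, if (2 * g + 2 + d) % 3 ≠ 2 then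
          (Fintype.card F : ℝ) * (Fintype.card F : ℝ) ^ NN (2 * g + 2 + d) else 0 := by
      rw [Nat.cast_sum]
      exact Finset.sum_le_sum h4
    refine h9.trans ?_
    rw [← Finset.sum_filter, ← Finset.mul_sum]
    have h10 : Fintype.card F *
        ∑ d ∈ (Finset.range g).filter (fun d => (2 * g + 2 + d) % 3 ≠ 2),
          Fintype.card F ^ NN (2 * g + 2 + d) ≤ 2 * Fintype.card F ^ (2 * g + 2) :=
      (Nat.mul_le_mul_left _ (expo (Fintype.card F) g)).trans (geo2 _ hq _)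
    exact_mod_cast h10
  have h11 : ∑ d ∈ Finset.range g, ∑ v ∈ DEG F d, cnt (2 * g + 2) 1 v ≤
      2 * Fintype.card F ^ (2 * g + 2) := by
    exact_mod_cast h8
  have h12 : ((∑ v ∈ DEG F g, cnt (2 * g + 2) 1 v : ℕ) : ℝ) ≤
      ((3 * Fintype.card F ^ (2 * g + 2) : ℕ) : ℝ) := by
    have h13 : ∀ v ∈ DEG F g, ((cnt (2 * g + 2) 1 v : ℕ) : ℝ) =
        if v.leadingCoeff ^ 2 = 1 then
          (Fintype.card F : ℝ) ^ (2 * g + 2) * (Fintype.card F : ℝ) ^ (cpart v).natDegree /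
            (Fintype.card F : ℝ) ^ g else 0 := by
      intro v hv
      obtain ⟨hv0, hvd⟩ := (hD g v).1 hv
      have h6 := hEB g 1 v Polynomial.monic_one squarefree_one hv0 hvd
        (by rw [Polynomial.natDegree_one]; omega)
      rw [h6, one_pow, one_mul, Polynomial.natDegree_one, mul_zero, zero_add]
      rfl
    rw [Nat.cast_sum, Finset.sum_congr rfl h13, ← Finset.sum_filter, ← Finset.sum_div,
      ← Finset.mul_sum, div_le_iff₀ (pow_pos hqR g)]
    have h7 : (∑ v ∈ (DEG F g).filter (fun v => v.leadingCoeff ^ 2 = 1),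
        (Fintype.card F : ℝ) ^ (cpart v).natDegree) ≤ 3 * (Fintype.card F : ℝ) ^ g := by
      exact_mod_cast weight2 F hB0 hCP g
    calc (Fintype.card F : ℝ) ^ (2 * g + 2) *
        ∑ v ∈ (DEG F g).filter (fun v => v.leadingCoeff ^ 2 = 1),
          (Fintype.card F : ℝ) ^ (cpart v).natDegree
        ≤ (Fintype.card F : ℝ) ^ (2 * g + 2) * (3 * (Fintype.card F : ℝ) ^ g) :=
          mul_le_mul_of_nonneg_left h7 (pow_nonneg hqR.le _)
      _ = ((3 * Fintype.card F ^ (2 * g + 2) : ℕ) : ℝ) * (Fintype.card F : ℝ) ^ g := by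
          push_cast
          ring
  have h14 : ∑ v ∈ DEG F g, cnt (2 * g + 2) 1 v ≤ 3 * Fintype.card F ^ (2 * g + 2) := by
    exact_mod_cast h12
  rw [h1]
  omega

end DH
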