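import Pool.Agent.H463.DH.Stm5

/-!
# EF7 (helper675 for helper463, after F7 by helper388): the main part of the sieve, real case
-/

open Polynomial
open scoped Classical

noncomputable section

namespace DH

variable (F : Type) [Field F] [Fintype F] [CharP F 3]

namespace XEF7

omit [CharP F 3] in
theorem qq_one : 1 < qq F := by
  unfold qq
  exact_mod_cast Fintype.one_lt_card

omit [CharP F 3] in
theorem qq_pos : 0 < qq F := by
  have := qq_one F
  linarith

omit [Fintype F] [CharP F 3] in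
variable {F} in
theorem cpart_congr {U V : F[X]} (h : ∀ b : F[X], b ^ 3 ∣ U ↔ b ^ 3 ∣ V) : cpart U = cpart V := by
  have e : IsCpart U = IsCpart V := by
    funext c
    unfold IsCpart
    simp only [h]
  unfold cpart
  rw [e]

omit [Fintype F] [CharP F 3] in
variable {F} in
theorem cpart_smul (W v : F[X]) {a : F} (ha : a ≠ 0) :
    cpart (W ^ 2 * (C a * v)) = cpart (W ^ 2 * v) := by
  refine cpart_congr fun b => ?_
  have e : W ^ 2 * (C a * v) = C a * (W ^ 2 * v) := by ring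
  rw [e]
  exact (isUnit_C.2 ha.isUnit).dvd_mul_left

/-- the sum over the polynomials with a given leading coefficient -/
def A (g : ℕ) (W : F[X]) (c : F) : ℝ :=
  ∑ v ∈ (DEG F g).filter (fun v => v.leadingCoeff = c), qq F ^ (cpart (W ^ 2 * v)).natDegree

omit [CharP F 3] in
theorem A_const (hB0 : S_B0 F) (g : ℕ) (W : F[X]) {c : F} (hc : c ≠ 0) : A F g W c = A F g W 1 := by
  have hc' : c⁻¹ ≠ 0 := inv_ne_zero hc
  have key : ∀ (a b : F) (v : F[X]), a ≠ 0 →
      v ∈ (DEG F g).filter (fun v => v.leadingCoeff = b) →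
      C a * v ∈ (DEG F g).filter (fun v => v.leadingCoeff = a * b) := by
    intro a b v ha hv
    rw [Finset.mem_filter] at hv ⊢
    obtain ⟨h1, h2⟩ := hv
    obtain ⟨h3, h4⟩ := (hB0.2.2.1 g v).1 h1
    refine ⟨(hB0.2.2.1 g _).2 ⟨mul_ne_zero (C_ne_zero.2 ha) h3, ?_⟩, ?_⟩
    · rw [natDegree_C_mul ha, h4]
    · rw [leadingCoeff_mul, leadingCoeff_C, h2]
  unfold A
  refine Finset.sum_bij' (fun v _ => C c⁻¹ * v) (fun v _ => C c * v) ?_ ?_ ?_ ?_ ?_
  · intro v hv
    have := key c⁻¹ c v hc' hv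
    rwa [inv_mul_cancel₀ hc] at this
  · intro v hv
    have := key c 1 v hc hv
    rwa [mul_one] at this
  · intro v _
    rw [← mul_assoc, ← C_mul, mul_inv_cancel₀ hc, C_1, one_mul]
  · intro v _
    rw [← mul_assoc, ← C_mul, inv_mul_cancel₀ hc, C_1, one_mul]
  · intro v _
    rw [cpart_smul W v hc']

omit [CharP F 3] in
theorem A_zero (hB0 : S_B0 F) (g : ℕ) (W : F[X]) : A F g W 0 = 0 := by
  unfold A
  refine Finset.sum_eq_zero fun v hv => ?_
  rw [Finset.mem_filter] at hv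
  exact absurd (leadingCoeff_eq_zero.1 hv.2) ((hB0.2.2.1 g v).1 hv.1).1

omit [CharP F 3] in
theorem fib (hB0 : S_B0 F) (g : ℕ) (W : F[X]) (p : F → ℝ) :
    ∑ v ∈ DEG F g, p v.leadingCoeff * qq F ^ (cpart (W ^ 2 * v)).natDegree =
      (∑ c ∈ Finset.univ.erase (0 : F), p c) * A F g W 1 := by
  have h1 : ∑ v ∈ DEG F g, p v.leadingCoeff * qq F ^ (cpart (W ^ 2 * v)).natDegree =
      ∑ c : F, ∑ v ∈ (DEG F g).filter (fun v => v.leadingCoeff = c),
        p v.leadingCoeff * qq F ^ (cpart (W ^ 2 * v)).natDegree :=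
    (Finset.sum_fiberwise_of_maps_to (g := fun v : F[X] => v.leadingCoeff)
      (fun v _ => Finset.mem_univ _) _).symm
  have h2 : ∀ c : F, ∑ v ∈ (DEG F g).filter (fun v => v.leadingCoeff = c),
        p v.leadingCoeff * qq F ^ (cpart (W ^ 2 * v)).natDegree = p c * A F g W c := by
    intro c
    unfold A
    rw [Finset.mul_sum]
    refine Finset.sum_congr rfl fun v hv => ?_
    rw [(Finset.mem_filter.1 hv).2]
  rw [h1, Finset.sum_congr rfl fun c _ => h2 c,
    ← Finset.add_sum_erase Finset.univ _ (Finset.mem_univ (0 : F)), A_zero F hB0, mul_zero, zero_add,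
    Finset.sum_mul]
  refine Finset.sum_congr rfl fun c hc => ?_
  rw [A_const F hB0 g W (Finset.ne_of_mem_erase hc)]

omit [Fintype F] in
theorem one_ne : (1 : F) ≠ -1 := by
  intro h
  have h3 : ((3 : ℕ) : F) = 0 := CharP.cast_eq_zero F 3
  have h4 : (1 : F) = 0 := by
    push_cast at h3
    linear_combination h3 - h
  exact one_ne_zero h4

theorem sq_one : (∑ c ∈ Finset.univ.erase (0 : F), if c ^ 2 = 1 then (1 : ℝ) else 0) = 2 := by
  rw [← Finset.sum_filter]
  have e : (Finset.univ.erase (0 : F)).filter (fun c => c ^ 2 = 1) = {1, -1} := by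
    ext c
    rw [Finset.mem_filter, Finset.mem_insert, Finset.mem_singleton, pow_two, mul_self_eq_one_iff]
    constructor
    · exact fun h => h.2
    · intro h
      refine ⟨Finset.mem_erase.2 ⟨?_, Finset.mem_univ _⟩, h⟩
      rcases h with h | h
      · rw [h]
        exact one_ne_zero
      · rw [h]
        exact neg_ne_zero.2 one_ne_zero
  rw [e, Finset.sum_const, Finset.card_pair (one_ne F)]
  norm_num

/-- the polynomials of degree `g` -/
theorem top (hB0 : S_B0 F) (g : ℕ) (W : F[X]) :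
    ∑ v ∈ DEG F g, (if v.leadingCoeff ^ 2 = 1 then qq F ^ (cpart (W ^ 2 * v)).natDegree else 0) =
      2 / (qq F - 1) * ∑ v ∈ DEG F g, qq F ^ (cpart (W ^ 2 * v)).natDegree := by
  have h1 := fib F hB0 g W fun c => if c ^ 2 = 1 then (1 : ℝ) else 0
  have h2 := fib F hB0 g W fun _ => (1 : ℝ)
  rw [sq_one] at h1
  have h3 : ∑ _c ∈ Finset.univ.erase (0 : F), (1 : ℝ) = qq F - 1 := by
    rw [Finset.sum_const, Finset.card_erase_of_mem (Finset.mem_univ _), Finset.card_univ,
      nsmul_eq_mul, mul_one, Nat.cast_sub (Fintype.card_pos), Nat.cast_one]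
    rfl
  rw [h3] at h2
  have h4 : qq F - 1 ≠ 0 := by
    have := qq_one F
    linarith
  have h5 : ∑ v ∈ DEG F g, (if v.leadingCoeff ^ 2 = 1 then qq F ^ (cpart (W ^ 2 * v)).natDegree
      else 0) = 2 * A F g W 1 := by
    rw [← h1]
    refine Finset.sum_congr rfl fun v _ => ?_
    by_cases hv : v.leadingCoeff ^ 2 = 1
    · simp only [if_pos hv, one_mul]
    · simp only [if_neg hv, zero_mul]
  have h6 : ∑ v ∈ DEG F g, qq F ^ (cpart (W ^ 2 * v)).natDegree = (qq F - 1) * A F g W 1 := by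
    rw [← h2]
    refine Finset.sum_congr rfl fun v _ => ?_
    rw [one_mul]
  rw [h5, h6]
  field_simp

omit [CharP F 3] in
/-- the contribution of one `W` and one `d < g` -/
theorem one (hB0 : S_B0 F) (hB5 : S_B5 F) {g z w d : ℕ} (hz : 4 * z ≤ g) (hw : w < z + 1)
    (hd : d < g) {W : F[X]} (hW : W ∈ MON F w) :
    mu W * ∑ v ∈ DEG F d, (cnt (2 * g + 2) W v : ℝ) =
      if (2 * g + 2 + d) % 3 = 2 then 0 else
        qq F ^ (NN (2 * g + 2 + d)) * (mu W / qq F ^ (2 * w + d) *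
          ∑ v ∈ DEG F d, qq F ^ (cpart (W ^ 2 * v)).natDegree) := by
  by_cases hsq : Squarefree W
  · obtain ⟨hWm, hWw⟩ := (hB0.2.1 w W).1 hW
    have h1 : ∀ v ∈ DEG F d, (cnt (2 * g + 2) W v : ℝ) = if (2 * g + 2 + d) % 3 = 2 then 0 else
        qq F ^ (NN (2 * g + 2 + d)) * qq F ^ ((cpart (W ^ 2 * v)).natDegree) /
          qq F ^ (2 * w + d) := by
      intro v hv
      obtain ⟨hv0, hvd⟩ := (hB0.2.2.1 d v).1 hv
      have h2 := hB5 (2 * g + 2) d W v hWm hsq hv0 hvd (by omega) (by rw [hWw]; omega)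
      rw [hWw] at h2
      exact h2
    rw [Finset.sum_congr rfl h1]
    by_cases hc : (2 * g + 2 + d) % 3 = 2
    · simp only [if_pos hc, Finset.sum_const_zero, mul_zero]
    · simp only [if_neg hc]
      rw [Finset.mul_sum, Finset.mul_sum, Finset.mul_sum]
      refine Finset.sum_congr rfl fun v _ => ?_
      ring
  · have h0 : mu W = 0 := by
      unfold mu
      rw [if_neg hsq]
    rw [h0]
    simp

/-- the contribution of one `W` and `d = g` -/
theorem two (hB0 : S_B0 F) (hEB : S_EB F) {g z w : ℕ} (hz : 4 * z ≤ g) (hw : w < z + 1)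
    {W : F[X]} (hW : W ∈ MON F w) :
    mu W * ∑ v ∈ DEG F g, (cnt (2 * g + 2) W v : ℝ) =
      qq F ^ (2 * g + 2) * (2 / (qq F - 1)) * (mu W / qq F ^ (2 * w + g) *
          ∑ v ∈ DEG F g, qq F ^ (cpart (W ^ 2 * v)).natDegree) := by
  by_cases hsq : Squarefree W
  · obtain ⟨hWm, hWw⟩ := (hB0.2.1 w W).1 hW
    have h1 : ∀ v ∈ DEG F g, (cnt (2 * g + 2) W v : ℝ) = qq F ^ (2 * g + 2) / qq F ^ (2 * w + g) *
        (if v.leadingCoeff ^ 2 = 1 then qq F ^ (cpart (W ^ 2 * v)).natDegree else 0) := by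
      intro v hv
      obtain ⟨hv0, hvd⟩ := (hB0.2.2.1 g v).1 hv
      have h2 := hEB g W v hWm hsq hv0 hvd (by rw [hWw]; omega)
      rw [hWw] at h2
      rw [h2]
      by_cases hl : v.leadingCoeff ^ 2 = 1
      · rw [if_pos hl, if_pos hl]
        ring
      · rw [if_neg hl, if_neg hl, mul_zero]
    rw [Finset.sum_congr rfl h1, ← Finset.mul_sum, top F hB0]
    ring
  · have h0 : mu W = 0 := by
      unfold mu
      rw [if_neg hsq]
    rw [h0]
    simp

end XEF7

open XEF7 in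
theorem p_EF7 (hB0 : S_B0 F) (hB5 : S_B5 F) (hEF1 : S_EF1 F) (hEB : S_EB F) : S_EF7 F := by
  intro g z hz
  have h1 : ∀ w ∈ Finset.range (z + 1), ∀ W ∈ MON F w,
      mu W * ∑ f ∈ (MON F (2 * g + 2)).filter (fun f => W ^ 2 ∣ f), ((solz f).card : ℝ) =
      (∑ d ∈ Finset.range g, if (2 * g + 2 + d) % 3 = 2 then 0 else
        qq F ^ (NN (2 * g + 2 + d)) * (mu W / qq F ^ (2 * w + d) *
          ∑ v ∈ DEG F d, qq F ^ (cpart (W ^ 2 * v)).natDegree)) +
        qq F ^ (2 * g + 2) * (2 / (qq F - 1)) * (mu W / qq F ^ (2 * w + g) *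
          ∑ v ∈ DEG F g, qq F ^ (cpart (W ^ 2 * v)).natDegree) := by
    intro w hw W hW
    rw [Finset.mem_range] at hw
    have h2 : ∑ f ∈ (MON F (2 * g + 2)).filter (fun f => W ^ 2 ∣ f), ((solz f).card : ℝ) =
        ∑ d ∈ Finset.range (g + 1), ∑ v ∈ DEG F d, (cnt (2 * g + 2) W v : ℝ) := by
      have h3 := hEF1 g W
      exact_mod_cast h3
    rw [h2, Finset.sum_range_succ, mul_add, two F hB0 hEB hz hw hW, Finset.mul_sum]
    refine congrArg (fun x : ℝ => x + _) ?_
    refine Finset.sum_congr rfl fun d hd => ?_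
    rw [Finset.mem_range] at hd
    exact one F hB0 hB5 hz hw hd hW
  have h4 : ∑ w ∈ Finset.range (z + 1), ∑ W ∈ MON F w,
      mu W * ∑ f ∈ (MON F (2 * g + 2)).filter (fun f => W ^ 2 ∣ f), ((solz f).card : ℝ) =
      (∑ w ∈ Finset.range (z + 1), ∑ W ∈ MON F w,
        ∑ d ∈ Finset.range g, if (2 * g + 2 + d) % 3 = 2 then 0 else
        qq F ^ (NN (2 * g + 2 + d)) * (mu W / qq F ^ (2 * w + d) *
          ∑ v ∈ DEG F d, qq F ^ (cpart (W ^ 2 * v)).natDegree)) +
      ∑ w ∈ Finset.range (z + 1), ∑ W ∈ MON F w,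
        qq F ^ (2 * g + 2) * (2 / (qq F - 1)) * (mu W / qq F ^ (2 * w + g) *
          ∑ v ∈ DEG F g, qq F ^ (cpart (W ^ 2 * v)).natDegree) := by
    rw [← Finset.sum_add_distrib]
    refine Finset.sum_congr rfl fun w hw => ?_
    rw [← Finset.sum_add_distrib]
    exact Finset.sum_congr rfl fun W hW => h1 w hw W hW
  have h6 : ∑ w ∈ Finset.range (z + 1), ∑ W ∈ MON F w,
        qq F ^ (2 * g + 2) * (2 / (qq F - 1)) * (mu W / qq F ^ (2 * w + g) *
          ∑ v ∈ DEG F g, qq F ^ (cpart (W ^ 2 * v)).natDegree) =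
      qq F ^ (2 * g + 2) * (2 / (qq F - 1)) * Md F g z := by
    unfold Md
    rw [Finset.mul_sum]
    refine Finset.sum_congr rfl fun w _ => ?_
    rw [Finset.mul_sum]
  rw [h4, h6, Finset.sum_filter]
  refine congrArg (fun x : ℝ => x + _) ?_
  have h5 : ∀ w ∈ Finset.range (z + 1), (∑ W ∈ MON F w,
        ∑ d ∈ Finset.range g, if (2 * g + 2 + d) % 3 = 2 then 0 else
        qq F ^ (NN (2 * g + 2 + d)) * (mu W / qq F ^ (2 * w + d) *
          ∑ v ∈ DEG F d, qq F ^ (cpart (W ^ 2 * v)).natDegree)) =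
      ∑ d ∈ Finset.range g, ∑ W ∈ MON F w, if (2 * g + 2 + d) % 3 = 2 then 0 else
        qq F ^ (NN (2 * g + 2 + d)) * (mu W / qq F ^ (2 * w + d) *
          ∑ v ∈ DEG F d, qq F ^ (cpart (W ^ 2 * v)).natDegree) := fun w _ => Finset.sum_comm
  rw [Finset.sum_congr rfl h5, Finset.sum_comm]
  refine Finset.sum_congr rfl fun d _ => ?_
  by_cases hc : (2 * g + 2 + d) % 3 = 2
  · simp only [if_pos hc, Finset.sum_const_zero]
    rw [if_neg (by simpa using hc)]
  · simp only [if_neg hc]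
    rw [if_pos hc]
    unfold Md
    rw [Finset.mul_sum]
    refine Finset.sum_congr rfl fun w _ => ?_
    rw [Finset.mul_sum]

end DH
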