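import Pool.Agent.H463.DH.Stm5

/-!
# Task EF8 (helper225, after F8 by helper980): the weights
-/

set_option autoImplicit false

open Polynomial
open scoped Classical

noncomputable section

namespace DH

namespace XEF8

lemma NN_succ (M : ℕ) : NN (M + 1) = if M % 3 ≠ 2 then NN M + 1 else NN M := by
  unfold NN
  split_ifs with h <;> omega

/-- telescoping -/
lemma tele {q : ℕ} (a g : ℕ) :
    ((q : ℝ) - 1) * ∑ d ∈ (Finset.range g).filter (fun d => (a + d) % 3 ≠ 2), (q : ℝ) ^ (NN (a + d)) =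
      (q : ℝ) ^ (NN (a + g)) - (q : ℝ) ^ (NN a) := by
  induction g with
  | zero => simp
  | succ g ih =>
    rw [Finset.range_add_one, Finset.filter_insert]
    split_ifs with h
    · rw [Finset.sum_insert (by simp), mul_add, ih, ← add_assoc, NN_succ, if_pos h, pow_succ]
      ring
    · rw [ih, ← add_assoc, NN_succ, if_neg h]

end XEF8

open XEF8 in
theorem p_EF8 : S_EF8 := by
  intro q hq
  have hq3 : (3 : ℝ) ≤ q := by exact_mod_cast hq
  have hq1 : (1 : ℝ) ≤ q := by linarith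
  have hq0 : (0 : ℝ) < q := by linarith
  refine ⟨fun g => ?_, fun g z hz => ?_, fun g z hz => ?_⟩
  · rw [eq_div_iff (by linarith), mul_comm, tele]
    congr 2
    unfold NN
    omega
  · have hB : 0 ≤ 2 * (q : ℝ) ^ 4 * (q : ℝ) ^ (2 * g + 2) / (q : ℝ) ^ z := by positivity
    have hterm : ∀ d ∈ Finset.range g, (q : ℝ) ^ (NN (2 * g + 2 + d)) *
        (((d : ℝ) + 1) ^ 2 * (1 / (q : ℝ) ^ z + 1 / (q : ℝ) ^ (d / 3))) ≤
        ((g : ℝ) + 1) ^ 2 * (2 * (q : ℝ) ^ 4 * (q : ℝ) ^ (2 * g + 2) / (q : ℝ) ^ z) := by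
      intro d hd
      rw [Finset.mem_range] at hd
      have hd' : (d : ℝ) ≤ g := by exact_mod_cast hd.le
      have h1 : (q : ℝ) ^ (NN (2 * g + 2 + d)) * (1 / (q : ℝ) ^ z) ≤
          (q : ℝ) ^ 4 * (q : ℝ) ^ (2 * g + 2) / (q : ℝ) ^ z := by
        rw [mul_one_div]
        apply div_le_div_of_nonneg_right _ (by positivity)
        rw [← pow_add]
        apply pow_le_pow_right₀ hq1
        unfold NN
        omega
      have h2 : (q : ℝ) ^ (NN (2 * g + 2 + d)) * (1 / (q : ℝ) ^ (d / 3)) ≤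
          (q : ℝ) ^ 4 * (q : ℝ) ^ (2 * g + 2) / (q : ℝ) ^ z := by
        rw [mul_one_div, div_le_div_iff₀ (by positivity) (by positivity), ← pow_add, ← pow_add,
          ← pow_add]
        apply pow_le_pow_right₀ hq1
        unfold NN
        omega
      have h3 : ((d : ℝ) + 1) ^ 2 ≤ ((g : ℝ) + 1) ^ 2 := by gcongr
      calc (q : ℝ) ^ (NN (2 * g + 2 + d)) *
            (((d : ℝ) + 1) ^ 2 * (1 / (q : ℝ) ^ z + 1 / (q : ℝ) ^ (d / 3))) =
            ((d : ℝ) + 1) ^ 2 * ((q : ℝ) ^ (NN (2 * g + 2 + d)) * (1 / (q : ℝ) ^ z) +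
              (q : ℝ) ^ (NN (2 * g + 2 + d)) * (1 / (q : ℝ) ^ (d / 3))) := by ring
        _ ≤ ((d : ℝ) + 1) ^ 2 * ((q : ℝ) ^ 4 * (q : ℝ) ^ (2 * g + 2) / (q : ℝ) ^ z +
              (q : ℝ) ^ 4 * (q : ℝ) ^ (2 * g + 2) / (q : ℝ) ^ z) :=
            mul_le_mul_of_nonneg_left (add_le_add h1 h2) (sq_nonneg _)
        _ = ((d : ℝ) + 1) ^ 2 * (2 * (q : ℝ) ^ 4 * (q : ℝ) ^ (2 * g + 2) / (q : ℝ) ^ z) := by ring
        _ ≤ _ := mul_le_mul_of_nonneg_right h3 hB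
    refine (Finset.sum_le_sum hterm).trans ?_
    rw [Finset.sum_const, Finset.card_range, nsmul_eq_mul]
    have h4 : (g : ℝ) ≤ (g : ℝ) + 1 := by linarith
    calc (g : ℝ) * (((g : ℝ) + 1) ^ 2 * (2 * (q : ℝ) ^ 4 * (q : ℝ) ^ (2 * g + 2) / (q : ℝ) ^ z)) ≤
          ((g : ℝ) + 1) * (((g : ℝ) + 1) ^ 2 *
            (2 * (q : ℝ) ^ 4 * (q : ℝ) ^ (2 * g + 2) / (q : ℝ) ^ z)) :=
          mul_le_mul_of_nonneg_right h4 (by positivity)
      _ = _ := by ring
  · unfold NN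
    omega

end DH
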