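import Pool.Agent.H463.DH.Stm5

/-!
# DH EF9: the first moment in the real quadratic case (helper763, after helper643)
-/

open Polynomial
open scoped Classical

noncomputable section

namespace DH

namespace XEF9

variable (F : Type) [Field F] [Fintype F] [CharP F 3]

theorem card_ge : 3 ≤ Fintype.card F := by
  obtain ⟨n, hp, hn⟩ := FiniteField.card F 3
  rw [hn]
  calc 3 = 3 ^ 1 := rfl
    _ ≤ 3 ^ (n : ℕ) := Nat.pow_le_pow_right (by norm_num) n.pos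

omit [CharP F 3] in
/-- the trivial bound -/
theorem triv (hB1 : S_B1 F) (hEF4 : S_EF4 F) (g : ℕ) :
    |∑ f ∈ SQF F (2 * g + 2), (((solz f).card : ℝ) - 3)| ≤ 18 * qq F ^ (2 * g + 2) := by
  have h1 : |∑ f ∈ SQF F (2 * g + 2), (((solz f).card : ℝ) - 3)| ≤
      ∑ f ∈ SQF F (2 * g + 2), 3 * ((sol f).card : ℝ) := by
    refine (Finset.abs_sum_le_sum_abs _ _).trans (Finset.sum_le_sum fun f _ => ?_)
    have h2 := hB1.2.2.2.2.2.2.2.1 f
    rw [h2]
    push_cast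
    have h3 : (0 : ℝ) ≤ (solz f).card := Nat.cast_nonneg _
    rw [abs_le]
    constructor <;> linarith
  have h2 : ∑ f ∈ SQF F (2 * g + 2), 3 * ((sol f).card : ℝ) ≤
      ∑ f ∈ MON F (2 * g + 2), 3 * ((sol f).card : ℝ) :=
    Finset.sum_le_sum_of_subset_of_nonneg (Finset.filter_subset _ _)
      (fun f _ _ => by positivity)
  have h3 : ∑ f ∈ MON F (2 * g + 2), ((sol f).card : ℝ) ≤ 6 * qq F ^ (2 * g + 2) := by
    unfold qq
    exact_mod_cast hEF4 g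
  simp only [← Finset.mul_sum] at h1 h2
  linarith

theorem split {z g : ℕ} (hz : z ≤ g) (a : ℕ → ℝ) :
    ∑ w ∈ Finset.range (g + 1), a w = ∑ w ∈ Finset.range (z + 1), a w +
      ∑ w ∈ (Finset.range (g + 1)).filter (fun w => z < w), a w := by
  rw [← Finset.sum_filter_add_sum_filter_not (Finset.range (g + 1)) (fun w => z < w), add_comm]
  congr 1
  refine Finset.sum_congr ?_ fun _ _ => rfl
  ext w
  rw [Finset.mem_filter, Finset.mem_range, Finset.mem_range]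
  omega

/-- the case `z ≥ 1` -/
theorem main (hF5 : S_F5 F) (hEF5 : S_EF5 F) (hEF6 : S_EF6 F) (hEF7 : S_EF7 F) (hEF8 : S_EF8) (hME2 : S_ME2 F)
    {g z : ℕ} (hz1 : 1 ≤ z) (hz : 4 * z ≤ g) :
    |∑ f ∈ SQF F (2 * g + 2), (((solz f).card : ℝ) - 3)| ≤
      (16 * qq F ^ 5 + 16 * qq F + 49) * (g + 1) ^ 3 * qq F ^ (2 * g + 2) / qq F ^ z := by
  have hq3 := card_ge F
  obtain ⟨f1, f2, f3⟩ := hEF8 (Fintype.card F) hq3
  have hqr : (3 : ℝ) ≤ qq F := by
    unfold qq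
    exact_mod_cast hq3
  have hq0 : (0 : ℝ) < qq F := by linarith
  have hq1 : (0 : ℝ) < qq F - 1 := by linarith
  have f1' := f1 g
  have f2' := f2 g z hz
  have f3' := f3 g z hz
  change _ = (qq F ^ (2 * g + 2) - qq F ^ (NN (2 * g + 2))) / (qq F - 1) at f1'
  change ∑ d ∈ (Finset.range g).filter (fun d => (2 * g + 2 + d) % 3 ≠ 2),
    qq F ^ (NN (2 * g + 2 + d)) = _ at f1'
  change ∑ d ∈ Finset.range g, qq F ^ (NN (2 * g + 2 + d)) *
      (((d : ℝ) + 1) ^ 2 * (1 / qq F ^ z + 1 / qq F ^ (d / 3))) ≤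
        2 * qq F ^ 4 * ((g : ℝ) + 1) ^ 3 * qq F ^ (2 * g + 2) / qq F ^ z at f2'
  have hzg : z ≤ g + 1 := by omega
  set D : Finset ℕ := (Finset.range g).filter (fun d => (2 * g + 2 + d) % 3 ≠ 2) with hD
  set κ : ℝ := (qq F - 1) * (1 - 1 / qq F) with hκ
  set R : ℝ := ((g : ℝ) + 1) ^ 3 * qq F ^ (2 * g + 2) / qq F ^ z with hR
  have hR0 : 0 < R := by positivity
  have hg0 : (0 : ℝ) ≤ g := Nat.cast_nonneg _
  -- the sieve
  have h1 := hF5.1 (2 * g + 2) (g + 1) (fun f => ((solz f).card : ℝ)) (by omega)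
  rw [split hzg] at h1
  rw [hEF7 g z hz] at h1
  have h6 := hEF6 g z hzg
  have e6 : 6 * ((g : ℝ) + 2) ^ 3 * qq F ^ (2 * g + 2) / qq F ^ z ≤ 48 * R := by
    have a1 : ((g : ℝ) + 2) ^ 3 ≤ (2 * ((g : ℝ) + 1)) ^ 3 := pow_le_pow_left₀ (by positivity) (by linarith) 3
    have a2 : 0 < qq F ^ (2 * g + 2) / qq F ^ z := by positivity
    calc 6 * ((g : ℝ) + 2) ^ 3 * qq F ^ (2 * g + 2) / qq F ^ z =
        6 * ((g : ℝ) + 2) ^ 3 * (qq F ^ (2 * g + 2) / qq F ^ z) := by ring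
      _ ≤ 6 * (2 * ((g : ℝ) + 1)) ^ 3 * (qq F ^ (2 * g + 2) / qq F ^ z) :=
        mul_le_mul_of_nonneg_right (by linarith) a2.le
      _ = 48 * R := by
        rw [hR]
        ring
  replace h6 := h6.trans e6
  set tail : ℝ := ∑ w ∈ (Finset.range (g + 1 + 1)).filter (fun w => z < w), ∑ W ∈ MON F w,
      mu W * ∑ f ∈ (MON F (2 * g + 2)).filter (fun f => W ^ 2 ∣ f), ((solz f).card : ℝ) with htail
  have h6' : |tail| ≤ 48 * R := h6
  have h2 : ∑ f ∈ SQF F (2 * g + 2), (((solz f).card : ℝ) - 3) =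
      ∑ f ∈ SQF F (2 * g + 2), ((solz f).card : ℝ) - 3 * (SQF F (2 * g + 2)).card := by
    rw [Finset.sum_sub_distrib, Finset.sum_const, nsmul_eq_mul, mul_comm (3 : ℝ)]
  -- the main sum
  have h3 : ∑ d ∈ D, qq F ^ (NN (2 * g + 2 + d)) * Md F d z =
      κ * ∑ d ∈ D, qq F ^ (NN (2 * g + 2 + d)) +
        ∑ d ∈ D, qq F ^ (NN (2 * g + 2 + d)) * (Md F d z - κ) := by
    rw [Finset.mul_sum, ← Finset.sum_add_distrib]
    refine Finset.sum_congr rfl fun d _ => ?_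
    ring
  have h4 : |∑ d ∈ D, qq F ^ (NN (2 * g + 2 + d)) * (Md F d z - κ)| ≤ 16 * qq F ^ 5 * R := by
    calc |∑ d ∈ D, qq F ^ (NN (2 * g + 2 + d)) * (Md F d z - κ)|
        ≤ ∑ d ∈ D, |qq F ^ (NN (2 * g + 2 + d)) * (Md F d z - κ)| :=
          Finset.abs_sum_le_sum_abs _ _
      _ ≤ ∑ d ∈ D, 8 * qq F * (qq F ^ (NN (2 * g + 2 + d)) *
          (((d : ℝ) + 1) ^ 2 * (1 / qq F ^ z + 1 / qq F ^ (d / 3)))) := by
        refine Finset.sum_le_sum fun d _ => ?_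
        rw [abs_mul, abs_of_pos (pow_pos hq0 _)]
        have h5 := mul_le_mul_of_nonneg_left (hME2 d z hz1)
          (pow_pos hq0 (NN (2 * g + 2 + d))).le
        refine h5.trans (le_of_eq ?_)
        ring
      _ ≤ ∑ d ∈ Finset.range g, 8 * qq F * (qq F ^ (NN (2 * g + 2 + d)) *
          (((d : ℝ) + 1) ^ 2 * (1 / qq F ^ z + 1 / qq F ^ (d / 3)))) :=
        Finset.sum_le_sum_of_subset_of_nonneg (Finset.filter_subset _ _)
          (fun d _ _ => by positivity)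
      _ = 8 * qq F * ∑ d ∈ Finset.range g, (qq F ^ (NN (2 * g + 2 + d)) *
          (((d : ℝ) + 1) ^ 2 * (1 / qq F ^ z + 1 / qq F ^ (d / 3)))) := by
        rw [Finset.mul_sum]
      _ ≤ 8 * qq F * (2 * qq F ^ 4 * ((g : ℝ) + 1) ^ 3 * qq F ^ (2 * g + 2) / qq F ^ z) :=
        mul_le_mul_of_nonneg_left f2' (by positivity)
      _ = 16 * qq F ^ 5 * R := by
        rw [hR]
        ring
  -- the degree `g`
  have hc : 2 / (qq F - 1) ≤ 1 := by
    rw [div_le_one hq1]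
    linarith
  have hc0 : 0 ≤ 2 / (qq F - 1) := by positivity
  have h10 : |qq F ^ (2 * g + 2) * (2 / (qq F - 1)) * (Md F g z - κ)| ≤ 16 * qq F * R := by
    rw [abs_mul, abs_of_nonneg (mul_nonneg (pow_pos hq0 _).le hc0)]
    have a1 : (1 : ℝ) / qq F ^ (g / 3) ≤ 1 / qq F ^ z :=
      one_div_le_one_div_of_le (pow_pos hq0 _) (pow_le_pow_right₀ (by linarith) (by omega))
    have a2 : |Md F g z - κ| ≤ 8 * qq F * ((g : ℝ) + 1) ^ 2 * (2 * (1 / qq F ^ z)) :=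
      (hME2 g z hz1).trans (mul_le_mul_of_nonneg_left (by linarith) (by positivity))
    have a3 : ((g : ℝ) + 1) ^ 2 ≤ ((g : ℝ) + 1) ^ 3 := pow_le_pow_right₀ (by linarith) (by norm_num)
    calc qq F ^ (2 * g + 2) * (2 / (qq F - 1)) * |Md F g z - κ|
        ≤ qq F ^ (2 * g + 2) * 1 * (8 * qq F * ((g : ℝ) + 1) ^ 2 * (2 * (1 / qq F ^ z))) := by
          apply mul_le_mul _ a2 (abs_nonneg _) (by positivity)
          exact mul_le_mul_of_nonneg_left hc (pow_pos hq0 _).le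
      _ ≤ qq F ^ (2 * g + 2) * 1 * (8 * qq F * ((g : ℝ) + 1) ^ 3 * (2 * (1 / qq F ^ z))) := by gcongr
      _ = 16 * qq F * R := by
        rw [hR]
        ring
  have h5 : κ * ((qq F ^ (2 * g + 2) - qq F ^ (NN (2 * g + 2))) / (qq F - 1)) =
      qq F ^ (2 * g + 2) - qq F ^ (2 * g + 1) - (1 - 1 / qq F) * qq F ^ (NN (2 * g + 2)) := by
    have hq1' : qq F - 1 ≠ 0 := hq1.ne'
    have e1 : qq F ^ (2 * g + 2) = qq F ^ (2 * g + 1) * qq F := pow_succ _ _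
    rw [hκ, e1]
    field_simp
  have h5' : qq F ^ (2 * g + 2) * (2 / (qq F - 1)) * κ = 2 * (qq F ^ (2 * g + 2) - qq F ^ (2 * g + 1)) := by
    have hq1' : qq F - 1 ≠ 0 := hq1.ne'
    have e1 : qq F ^ (2 * g + 2) = qq F ^ (2 * g + 1) * qq F := pow_succ _ _
    rw [hκ, e1]
    field_simp
  have h7 : |(1 - 1 / qq F) * qq F ^ (NN (2 * g + 2))| ≤ R := by
    have h8 : 0 ≤ 1 - 1 / qq F := by
      rw [sub_nonneg, div_le_one hq0]
      linarith
    have h9 : 1 - 1 / qq F ≤ 1 := by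
      have : 0 ≤ 1 / qq F := by positivity
      linarith
    rw [abs_of_nonneg (mul_nonneg h8 (pow_pos hq0 _).le)]
    have h10 : qq F ^ (NN (2 * g + 2)) ≤ qq F ^ (2 * g + 2) / qq F ^ z := by
      rw [le_div_iff₀ (pow_pos hq0 _), ← pow_add]
      exact pow_le_pow_right₀ (by linarith) f3'
    have h11 : (1 : ℝ) ≤ ((g : ℝ) + 1) ^ 3 :=
      one_le_pow₀ (by linarith)
    have h12 : 0 < qq F ^ (2 * g + 2) / qq F ^ z := by positivity
    calc (1 - 1 / qq F) * qq F ^ (NN (2 * g + 2)) ≤ 1 * (qq F ^ (2 * g + 2) / qq F ^ z) :=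
          mul_le_mul h9 h10 (pow_pos hq0 _).le zero_le_one
      _ ≤ ((g : ℝ) + 1) ^ 3 * (qq F ^ (2 * g + 2) / qq F ^ z) :=
          mul_le_mul_of_nonneg_right h11 h12.le
      _ = R := by
        rw [hR]
        ring
  have h8 : ∑ f ∈ SQF F (2 * g + 2), (((solz f).card : ℝ) - 3) =
      (∑ d ∈ D, qq F ^ (NN (2 * g + 2 + d)) * (Md F d z - κ) -
        (1 - 1 / qq F) * qq F ^ (NN (2 * g + 2))) +
        (qq F ^ (2 * g + 2) * (2 / (qq F - 1)) * (Md F g z - κ) + tail) := by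
    have e2 : qq F ^ (2 * g + 2) * (2 / (qq F - 1)) * (Md F g z - κ) =
        qq F ^ (2 * g + 2) * (2 / (qq F - 1)) * Md F g z -
          qq F ^ (2 * g + 2) * (2 / (qq F - 1)) * κ := by ring
    rw [h2, h1, hEF5 g, h3, f1', h5, e2, h5']
    ring
  rw [h8]
  have h9 : (16 * qq F ^ 5 + 16 * qq F + 49) * ((g : ℝ) + 1) ^ 3 * qq F ^ (2 * g + 2) / qq F ^ z =
      (16 * qq F ^ 5 * R + R) + (16 * qq F * R + 48 * R) := by
    rw [hR]
    ring
  rw [h9]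
  refine (abs_add_le _ _).trans (add_le_add ?_ ?_)
  · exact (abs_sub _ _).trans (add_le_add h4 h7)
  · exact (abs_add_le _ _).trans (add_le_add h10 h6')

end XEF9

/-- **EF9** -/
theorem p_EF9 (F : Type) [Field F] [Fintype F] [CharP F 3] (hF5 : S_F5 F) (hEF4 : S_EF4 F)
    (hEF5 : S_EF5 F) (hEF6 : S_EF6 F) (hEF7 : S_EF7 F) (hEF8 : S_EF8) (hME2 : S_ME2 F)
    (hB1 : S_B1 F) : S_EF9 F := by
  have hq3 := XEF9.card_ge F
  have hqr : (3 : ℝ) ≤ qq F := by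
    unfold qq
    exact_mod_cast hq3
  have hq0 : (0 : ℝ) < qq F := by linarith
  refine ⟨16 * qq F ^ 5 + 16 * qq F + 49, by positivity, fun g => ?_⟩
  rcases Nat.eq_zero_or_pos (g / 4) with h0 | h0
  · rw [h0, pow_zero, div_one]
    refine (XEF9.triv F hB1 hEF4 g).trans ?_
    have h1 : (1 : ℝ) ≤ ((g : ℝ) + 1) ^ 3 :=
      one_le_pow₀ (by have : (0 : ℝ) ≤ g := Nat.cast_nonneg _; linarith)
    have h2 : (18 : ℝ) ≤ 16 * qq F ^ 5 + 16 * qq F + 49 := by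
      have : 0 < qq F ^ 5 := by positivity
      linarith
    apply mul_le_mul_of_nonneg_right _ (pow_pos hq0 _).le
    nlinarith
  · exact XEF9.main F hF5 hEF5 hEF6 hEF7 hEF8 hME2 h0 (by omega)

end DH
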