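import Pool.Agent.H463.DH.Stm5

open Polynomial
open scoped Classical

noncomputable section

namespace DH

namespace XEN

/-- composition of two solutions -/
lemma compose {F : Type} [Field F] (f N a₁ b₁ a₂ b₂ : F[X]) (hN : N ≠ 0)
    (h1 : a₁ ^ 2 - f * b₁ ^ 2 = N) (h2 : a₂ ^ 2 - f * b₂ ^ 2 = N) (ha : N ∣ a₂ - a₁)
    (hb : N ∣ b₂ - b₁) (hdeg : b₁.natDegree < b₂.natDegree) :
    ∃ x y : F[X], x ^ 2 - f * y ^ 2 = 1 ∧ y ≠ 0 := by
  obtain ⟨s, hs⟩ := ha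
  obtain ⟨t, ht⟩ := hb
  have e1 : a₂ = a₁ + N * s := by rw [← hs]; ring
  have e2 : b₂ = b₁ + N * t := by rw [← ht]; ring
  have hX : a₁ * a₂ - f * b₁ * b₂ = N * (1 + a₁ * s - f * b₁ * t) := by
    rw [e1, e2]
    linear_combination h1
  have hY : b₁ * a₂ - a₁ * b₂ = N * (b₁ * s - a₁ * t) := by
    rw [e1, e2]
    ring
  refine ⟨1 + a₁ * s - f * b₁ * t, b₁ * s - a₁ * t, ?_, ?_⟩
  · have h3 : N ^ 2 * ((1 + a₁ * s - f * b₁ * t) ^ 2 - f * (b₁ * s - a₁ * t) ^ 2) = N ^ 2 * 1 := by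
      have h4 : (a₁ * a₂ - f * b₁ * b₂) ^ 2 - f * (b₁ * a₂ - a₁ * b₂) ^ 2 = N * N := by
        have h5 : (a₁ * a₂ - f * b₁ * b₂) ^ 2 - f * (b₁ * a₂ - a₁ * b₂) ^ 2 =
            (a₁ ^ 2 - f * b₁ ^ 2) * (a₂ ^ 2 - f * b₂ ^ 2) := by ring
        rw [h5, h1, h2]
      rw [hX, hY] at h4
      linear_combination h4
    exact mul_left_cancel₀ (pow_ne_zero 2 hN) h3
  · intro hy
    have h3 : N ^ 2 * ((1 + a₁ * s - f * b₁ * t) ^ 2) = N ^ 2 * 1 := by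
      have h4 : (a₁ * a₂ - f * b₁ * b₂) ^ 2 - f * (b₁ * a₂ - a₁ * b₂) ^ 2 = N * N := by
        have h5 : (a₁ * a₂ - f * b₁ * b₂) ^ 2 - f * (b₁ * a₂ - a₁ * b₂) ^ 2 =
            (a₁ ^ 2 - f * b₁ ^ 2) * (a₂ ^ 2 - f * b₂ ^ 2) := by ring
        rw [h5, h1, h2]
      rw [hX, hY, hy] at h4
      linear_combination h4
    have h4 := mul_left_cancel₀ (pow_ne_zero 2 hN) h3
    rw [hy, mul_zero] at hY
    have h5 : b₁ * N = b₂ * (N * (1 + a₁ * s - f * b₁ * t)) := by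
      rw [← hX]
      have h6 : b₁ * N = b₁ * (a₂ ^ 2 - f * b₂ ^ 2) := by rw [h2]
      rw [h6]
      linear_combination a₂ * hY
    have h7 : b₁ = b₂ * (1 + a₁ * s - f * b₁ * t) := by
      have h8 : N * b₁ = N * (b₂ * (1 + a₁ * s - f * b₁ * t)) := by
        linear_combination h5
      exact mul_left_cancel₀ hN h8
    have h9 : (1 + a₁ * s - f * b₁ * t) = 1 ∨ (1 + a₁ * s - f * b₁ * t) = -1 := by
      have h10 : ((1 + a₁ * s - f * b₁ * t) - 1) * ((1 + a₁ * s - f * b₁ * t) + 1) = 0 := by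
        linear_combination h4
      rcases mul_eq_zero.mp h10 with h | h
      · exact Or.inl (sub_eq_zero.mp h)
      · exact Or.inr (eq_neg_of_add_eq_zero_left h)
    rcases h9 with h9 | h9
    · rw [h9, mul_one] at h7
      rw [h7] at hdeg
      exact lt_irrefl _ hdeg
    · rw [h9, mul_neg, mul_one] at h7
      rw [h7, natDegree_neg] at hdeg
      exact lt_irrefl _ hdeg

end XEN

open XEN in
theorem p_EN (F : Type) [Field F] [Fintype F] [CharP F 3] (hB0 : S_B0 F) (hEA : S_EA F)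
    (hE2 : S_E2 F) : S_EN F := by
  intro f hf
  obtain ⟨hmon, hsq, heven, hpos⟩ := id hf
  obtain ⟨m, hm⟩ := heven
  have hm2 : f.natDegree = 2 * m := by omega
  have hm1 : 1 ≤ m := by omega
  obtain ⟨hdom, hunit, hnz, -⟩ := hE2 f hf
  have hNz : ∀ a b : F[X], b ≠ 0 → a ^ 2 - f * b ^ 2 ≠ 0 := by
    intro a b hb
    refine hnz ⟨a, b⟩ ?_
    intro h
    exact hb (congrArg QuadraticAlgebra.im h)
  have hex : ∀ n : ℕ, ∃ a b : F[X], b ≠ 0 ∧ (a ^ 2 - f * b ^ 2).degree < m ∧ n < b.natDegree := by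
    intro n
    obtain ⟨a, b, hb, -, hd, hk⟩ := hEA m (n + m) f hm1 hmon hm2
    refine ⟨a, b, hb, hd, ?_⟩
    have := hk (hNz a b hb)
    omega
  choose A B hB hd hn using hex
  have hP : ∀ g : F[X], g.degree < m → g ∈ POL F m := fun g hg => (hB0.1 m g).mpr hg
  have hmod : ∀ (n : ℕ) (g : F[X]), g % (A n ^ 2 - f * B n ^ 2) ∈ POL F m := by
    intro n g
    exact hP _ ((EuclideanDomain.mod_lt g (hNz (A n) (B n) (hB n))).trans (hd n))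
  let ψ : ℕ → {x // x ∈ POL F m} × {x // x ∈ POL F m} × {x // x ∈ POL F m} := fun n =>
    (⟨A n ^ 2 - f * B n ^ 2, hP _ (hd n)⟩, ⟨A n % (A n ^ 2 - f * B n ^ 2), hmod n _⟩,
      ⟨B n % (A n ^ 2 - f * B n ^ 2), hmod n _⟩)
  obtain ⟨y, hy⟩ := Finite.exists_infinite_fiber ψ
  have hS : (ψ ⁻¹' {y}).Infinite := Set.infinite_coe_iff.mp hy
  obtain ⟨n₁, h1⟩ := hS.nonempty
  obtain ⟨n₂, h2, h12⟩ := hS.exists_gt (B n₁).natDegree
  have h1' : ψ n₁ = y := h1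
  have h2' : ψ n₂ = y := h2
  have heq : ψ n₁ = ψ n₂ := h1'.trans h2'.symm
  have q1 : A n₁ ^ 2 - f * B n₁ ^ 2 = A n₂ ^ 2 - f * B n₂ ^ 2 :=
    congrArg (fun z => (z.1 : F[X])) heq
  have q2 : A n₁ % (A n₁ ^ 2 - f * B n₁ ^ 2) = A n₂ % (A n₂ ^ 2 - f * B n₂ ^ 2) :=
    congrArg (fun z => (z.2.1 : F[X])) heq
  have q3 : B n₁ % (A n₁ ^ 2 - f * B n₁ ^ 2) = B n₂ % (A n₂ ^ 2 - f * B n₂ ^ 2) :=
    congrArg (fun z => (z.2.2 : F[X])) heq
  rw [← q1] at q2 q3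
  have dvd : ∀ g h N : F[X], g % N = h % N → N ∣ h - g := by
    intro g h N e
    refine ⟨h / N - g / N, ?_⟩
    have e1 := EuclideanDomain.div_add_mod h N
    have e2 := EuclideanDomain.div_add_mod g N
    rw [e] at e2
    linear_combination e2 - e1
  obtain ⟨x, y, hxy, hy0⟩ := compose f (A n₁ ^ 2 - f * B n₁ ^ 2) (A n₁) (B n₁) (A n₂) (B n₂)
    (hNz _ _ (hB n₁)) rfl q1.symm (dvd _ _ _ q2) (dvd _ _ _ q3) (h12.trans (hn n₂))
  refine ⟨⟨x, y⟩, (hunit _).mpr ⟨1, one_ne_zero, ?_⟩, hy0⟩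
  rw [map_one]
  exact hxy

end DH
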