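import Pool.Agent.H463.DH.Stm5

/-! # DH ER: real quadratic function fields, the final theorem (average `4/3`, proportion `5/6`) -/

open Polynomial
open scoped Classical

noncomputable section

namespace DH

namespace XER

theorem lim_aux {q C δ : ℝ} (hq : 1 < q) (hδ : 0 < δ) :
    ∃ g₀ : ℕ, ∀ g ≥ g₀, C * ((g : ℝ) + 1) ^ 3 / q ^ (g / 4) ≤ δ := by
  have hq0 : 0 < q := by linarith
  have hr : |1 / q| < 1 := by
    rw [abs_of_pos (by positivity), div_lt_one hq0]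
    exact hq
  have h1 := tendsto_pow_const_mul_const_pow_of_abs_lt_one 3 hr
  have h2 : Filter.Tendsto (fun m : ℕ => |C| * 64 * q * ((m : ℝ) ^ 3 * (1 / q) ^ m))
      Filter.atTop (nhds 0) := by
    have := h1.const_mul (|C| * 64 * q)
    rwa [mul_zero] at this
  obtain ⟨m0, hm0⟩ := Filter.eventually_atTop.1 ((tendsto_order.1 h2).2 δ hδ)
  refine ⟨4 * m0, fun g hg => ?_⟩
  have hm : m0 ≤ g / 4 + 1 := by omega
  have h3 := (hm0 _ hm).le
  have h4 : (g : ℝ) + 1 ≤ 4 * ((g / 4 + 1 : ℕ) : ℝ) := by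
    have : g + 1 ≤ 4 * (g / 4 + 1) := by omega
    exact_mod_cast this
  have h5 : ((g : ℝ) + 1) ^ 3 ≤ 64 * ((g / 4 + 1 : ℕ) : ℝ) ^ 3 := by
    calc ((g : ℝ) + 1) ^ 3 ≤ (4 * ((g / 4 + 1 : ℕ) : ℝ)) ^ 3 :=
          pow_le_pow_left₀ (by positivity) h4 3
      _ = _ := by ring
  have hqp : 0 < q ^ (g / 4) := by positivity
  calc C * ((g : ℝ) + 1) ^ 3 / q ^ (g / 4)
      ≤ |C| * (64 * ((g / 4 + 1 : ℕ) : ℝ) ^ 3) / q ^ (g / 4) := by
        apply div_le_div_of_nonneg_right _ hqp.le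
        exact mul_le_mul (le_abs_self C) h5 (by positivity) (abs_nonneg C)
    _ = |C| * 64 * q * (((g / 4 + 1 : ℕ) : ℝ) ^ 3 * (1 / q) ^ (g / 4 + 1)) := by
        rw [one_div, inv_pow, pow_succ]
        field_simp
        ring
    _ ≤ δ := h3

variable (F : Type) [Field F] [Fintype F] [CharP F 3]

theorem good_of_mem (hB0 : S_B0 F) {g : ℕ} {f : F[X]} (hf : f ∈ SQF F (2 * g + 2)) : GoodR f := by
  unfold SQF at hf
  rw [Finset.mem_filter] at hf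
  obtain ⟨hm, hs⟩ := hf
  obtain ⟨_, hMON, _, _, _, _⟩ := hB0
  obtain ⟨h1, h2⟩ := (hMON _ f).1 hm
  refine ⟨h1, hs, ?_, ?_⟩
  · rw [h2]
    exact ⟨g + 1, by ring⟩
  · rw [h2]
    omega

theorem cl3_eq (hE9 : S_E9 F) (hB0 : S_B0 F) (hB1 : S_B1 F) {g : ℕ} {f : F[X]}
    (hf : f ∈ SQF F (2 * g + 2)) : 3 * cl3 f = (solz f).card + 1 := by
  rw [← hE9 f (good_of_mem F hB0 hf)]
  obtain ⟨_, _, _, _, _, _, _, h8, _⟩ := hB1
  exact h8 f

theorem one_lt_qq : 1 < qq F := by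
  unfold qq
  have := Fintype.one_lt_card (α := F)
  exact_mod_cast this

end XER

theorem p_ER (F : Type) [Field F] [Fintype F] [CharP F 3] (hB0 : S_B0 F) (hB1 : S_B1 F)
    (hE9 : S_E9 F) (hEC : S_EC F) (hEF9 : S_EF9 F) (hEF5 : S_EF5 F) : S_ER F := by
  have hcl : ∀ (g : ℕ) (f : F[X]), f ∈ SQF F (2 * g + 2) → 3 * cl3 f = (solz f).card + 1 :=
    fun g f hf => XER.cl3_eq F hE9 hB0 hB1 hf
  have hq1 := XER.one_lt_qq F
  have hq0 : 0 < qq F := by linarith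
  obtain ⟨Cst, hC0, hC⟩ := hEF9
  have hcardq : (Fintype.card F : ℝ) = qq F := rfl
  have hSQ : ∀ g : ℕ, ((SQF F (2 * g + 2)).card : ℝ) = (1 - 1 / qq F) * qq F ^ (2 * g + 2) := by
    intro g
    rw [hEF5 g, pow_succ _ (2 * g + 1)]
    field_simp
  have hθ : 0 < 1 - 1 / qq F := by
    rw [sub_pos, div_lt_one hq0]; exact hq1
  have herr : ∀ δ : ℝ, 0 < δ → ∃ g₀ : ℕ, ∀ g ≥ g₀,
      Cst * (g + 1) ^ 3 * qq F ^ (2 * g + 2) / qq F ^ (g / 4) ≤
        δ * ((SQF F (2 * g + 2)).card : ℝ) := by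
    intro δ hδ
    obtain ⟨g0, hg0⟩ := XER.lim_aux (C := Cst) hq1 (mul_pos hδ hθ)
    refine ⟨g0, fun g hg => ?_⟩
    have h1 := hg0 g hg
    rw [hSQ g]
    have hp : 0 < qq F ^ (2 * g + 2) := by positivity
    calc Cst * (g + 1) ^ 3 * qq F ^ (2 * g + 2) / qq F ^ (g / 4)
        = (Cst * (g + 1) ^ 3 / qq F ^ (g / 4)) * qq F ^ (2 * g + 2) := by ring
      _ ≤ (δ * (1 - 1 / qq F)) * qq F ^ (2 * g + 2) :=
          mul_le_mul_of_nonneg_right h1 hp.le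
      _ = _ := by ring
  have hE : ∀ g : ℕ, ∑ f ∈ SQF F (2 * g + 2), ((cl3 f : ℝ) - 4 / 3) =
      (1 / 3) * ∑ f ∈ SQF F (2 * g + 2), (((solz f).card : ℝ) - 3) := by
    intro g
    rw [Finset.mul_sum]
    refine Finset.sum_congr rfl fun f hf => ?_
    have h1 : (3 : ℝ) * (cl3 f : ℝ) = ((solz f).card : ℝ) + 1 := by
      exact_mod_cast hcl g f hf
    linarith
  have hB : ∀ g : ℕ, |∑ f ∈ SQF F (2 * g + 2), ((cl3 f : ℝ) - 4 / 3)| ≤
      Cst * (g + 1) ^ 3 * qq F ^ (2 * g + 2) / qq F ^ (g / 4) := by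
    intro g
    rw [hE g, abs_mul]
    have h1 : |(1 / 3 : ℝ)| ≤ 1 := by
      rw [abs_of_pos (by norm_num)]
      norm_num
    calc |(1 / 3 : ℝ)| * |∑ f ∈ SQF F (2 * g + 2), (((solz f).card : ℝ) - 3)|
        ≤ 1 * |∑ f ∈ SQF F (2 * g + 2), (((solz f).card : ℝ) - 3)| :=
          mul_le_mul_of_nonneg_right h1 (abs_nonneg _)
      _ = |∑ f ∈ SQF F (2 * g + 2), (((solz f).card : ℝ) - 3)| := one_mul _
      _ ≤ _ := hC g
  refine ⟨⟨Cst, hB⟩, ?_⟩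
  intro ε hε
  obtain ⟨g0, hg0⟩ := herr (2 * ε) (by linarith)
  refine ⟨g0, fun g hg => ?_⟩
  have h1 := hg0 g hg
  have h3 := (abs_le.1 (hB g)).2
  set S := SQF F (2 * g + 2) with hS
  have h5 : ((S.filter (fun f => cl3 f = 1)).card : ℝ) +
      ((S.filter (fun f => ¬ cl3 f = 1)).card : ℝ) = (S.card : ℝ) := by
    have := Finset.card_filter_add_card_filter_not (s := S) (fun f => cl3 f = 1)
    exact_mod_cast this
  -- the pointwise bound
  have h6 : ∑ f ∈ S, (2 * (if ¬ cl3 f = 1 then (1 : ℝ) else 0) - 1 / 3) ≤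
      ∑ f ∈ S, ((cl3 f : ℝ) - 4 / 3) := by
    refine Finset.sum_le_sum fun f hf => ?_
    obtain ⟨_, _, _, r, hr⟩ := hEC f (XER.good_of_mem F hB0 hf)
    by_cases h : cl3 f = 1
    · rw [if_neg (not_not.2 h), h]
      norm_num
    · rw [if_pos h]
      have hr0 : r ≠ 0 := by
        rintro rfl
        exact h (by rw [hr, pow_zero])
      have h7 : 3 ≤ cl3 f := by
        rw [hr]
        calc 3 = 3 ^ 1 := (pow_one 3).symm
          _ ≤ 3 ^ r := Nat.pow_le_pow_right (by norm_num) (Nat.one_le_iff_ne_zero.2 hr0)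
      have h8 : (3 : ℝ) ≤ (cl3 f : ℝ) := by exact_mod_cast h7
      linarith
  have h7 : ∑ f ∈ S, (2 * (if ¬ cl3 f = 1 then (1 : ℝ) else 0) - 1 / 3) =
      2 * ((S.filter (fun f => ¬ cl3 f = 1)).card : ℝ) - (S.card : ℝ) * (1 / 3) := by
    rw [Finset.sum_sub_distrib, Finset.sum_const, nsmul_eq_mul, ← Finset.mul_sum,
      Finset.sum_boole]
  rw [h7] at h6
  linarith

end DH
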