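import Pool.Agent.H463.DH.Stm5

open Polynomial
open scoped Classical

noncomputable section

namespace DH

namespace XEU

variable {F : Type} [Field F]

lemma three [CharP F 3] : (3 : F[X]) = 0 := by
  have h : ((3 : ℕ) : F[X]) = 0 := CharP.cast_eq_zero F[X] 3
  exact_mod_cast h

lemma two_ne [CharP F 3] : (2 : F) ≠ 0 := by
  intro h
  have h3 : ((3 : ℕ) : F) = 0 := CharP.cast_eq_zero F 3
  have h4 : (3 : F) = 0 := by exact_mod_cast h3
  have h5 : (1 : F) = 3 - 2 := by norm_num
  rw [h, h4, sub_zero] at h5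
  exact one_ne_zero h5

lemma three_oo [CharP F 3] (f : F[X]) : (3 : OO f) = 0 := by
  have h := three (F := F)
  have e : (3 : OO f) = 1 + (1 + 1) := by norm_num
  rw [e]
  ext1
  · rw [QuadraticAlgebra.re_add, QuadraticAlgebra.re_add, QuadraticAlgebra.re_zero,
      QuadraticAlgebra.re_one]
    linear_combination h
  · rw [QuadraticAlgebra.im_add, QuadraticAlgebra.im_add, QuadraticAlgebra.im_zero,
      QuadraticAlgebra.im_one]
    ring

lemma step_deg [CharP F 3] (f a b α β : F[X]) (c γ : F) (h1 : a ^ 2 - f * b ^ 2 = C c)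
    (h2 : α ^ 2 - f * β ^ 2 = C γ) (hα : 1 ≤ α.natDegree) (hle : α.natDegree ≤ a.natDegree) :
    (a * α + f * b * β).natDegree < a.natDegree ∨ (a * α - f * b * β).natDegree < a.natDegree := by
  by_contra hcon
  push Not at hcon
  obtain ⟨hp, hr⟩ := hcon
  obtain ⟨p, hpd⟩ : ∃ p, p = a * α + f * b * β := ⟨_, rfl⟩
  obtain ⟨r, hrd⟩ : ∃ r, r = a * α - f * b * β := ⟨_, rfl⟩
  rw [← hpd] at hp
  rw [← hrd] at hr
  have hp0 : p ≠ 0 := by
    rintro h0
    rw [h0, natDegree_zero] at hp
    omega
  have hr0 : r ≠ 0 := by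
    rintro h0
    rw [h0, natDegree_zero] at hr
    omega
  have ha0 : a ≠ 0 := by
    rintro h0
    rw [h0, natDegree_zero] at hle
    omega
  have hα0 : α ≠ 0 := by
    rintro h0
    rw [h0, natDegree_zero] at hα
    omega
  have e1 : p * r = C c * α ^ 2 + C γ * a ^ 2 - C c * C γ := by
    rw [hpd, hrd, ← h1, ← h2]
    ring
  have d1 : (p * r).natDegree = p.natDegree + r.natDegree := natDegree_mul hp0 hr0
  have d2 : (p * r).natDegree ≤ 2 * a.natDegree := by
    rw [e1]
    refine (natDegree_sub_le _ _).trans (max_le ((natDegree_add_le _ _).trans (max_le ?_ ?_)) ?_)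
    · refine (natDegree_C_mul_le _ _).trans ?_
      rw [natDegree_pow]
      omega
    · refine (natDegree_C_mul_le _ _).trans ?_
      rw [natDegree_pow]
    · rw [← C_mul, natDegree_C]
      omega
  have e2 : p + r = C 2 * (a * α) := by
    rw [hpd, hrd]
    have : (C (2 : F) : F[X]) = 2 := map_ofNat C 2
    rw [this]
    ring
  have d3 : (p + r).natDegree = a.natDegree + α.natDegree := by
    rw [e2, natDegree_C_mul two_ne, natDegree_mul ha0 hα0]
  have d4 := natDegree_add_le p r
  rw [d3] at d4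
  have d5 : max p.natDegree r.natDegree ≤ a.natDegree := max_le (by omega) (by omega)
  omega

lemma comb {R : Type} [CommRing R] [IsDomain R] (h3 : (3 : R) = 0) (V u D e De : R)
    (he : e ≠ 0) (hDe : De = V * e)
    (h : u * De + e * D = 0 ∨ u * De + e * D = V * (u * e) ∨ u * De + e * D = -V * (u * e)) :
    D = 0 ∨ D = V * u ∨ D = -V * u := by
  rw [hDe] at h
  rcases h with h | h | h
  · refine Or.inr (Or.inr (mul_left_cancel₀ he ?_))
    linear_combination h
  · refine Or.inl (mul_left_cancel₀ he ?_)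
    linear_combination h
  · refine Or.inr (Or.inl (mul_left_cancel₀ he ?_))
    linear_combination h - (V * u * e) * h3

lemma dl_im_zero (f : F[X]) (u : OO f) (h1 : u.im = 0) (h2 : u.re.natDegree = 0) :
    dl f u = 0 := by
  have h3 : derivative u.re = 0 := by
    rw [eq_C_of_natDegree_eq_zero h2, derivative_C]
  ext1
  · simp [dl, h1]
  · simp [dl, h3]

lemma cc_neg (f v : F[X]) : -(cc f v) = cc f (-v) := by
  ext1
  · simp [cc]
  · simp [cc]

lemma cc_zero (f : F[X]) : cc f 0 = 0 := by
  ext1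
  · simp [cc]
  · simp [cc]

end XEU

open XEU in
theorem p_EU (F : Type) [Field F] [Fintype F] [CharP F 3] (hA1 : S_A1 F) (hE2 : S_E2 F)
    (hEN : S_EN F) (hE4 : S_E4 F) (hE8 : S_E8 F) : S_EU F := by
  intro f hf
  obtain ⟨hdom, hunit, -, hdeg⟩ := hE2 f hf
  have := hdom
  obtain ⟨-, hmul, -, -, -, -⟩ := hA1 f
  -- a unit of minimal degree
  obtain ⟨ε, hε, hεim, hmin⟩ : ∃ ε : OO f, IsUnit ε ∧ ε.im ≠ 0 ∧
      ∀ u : OO f, IsUnit u → u.im ≠ 0 → ε.re.natDegree ≤ u.re.natDegree := by
    have hex : ∃ d : ℕ, ∃ u : OO f, IsUnit u ∧ u.im ≠ 0 ∧ u.re.natDegree = d := by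
      obtain ⟨u, hu, hui⟩ := hEN f hf
      exact ⟨_, u, hu, hui, rfl⟩
    obtain ⟨ε, h1, h2, h3⟩ := Nat.find_spec hex
    refine ⟨ε, h1, h2, fun u hu hui => ?_⟩
    rw [h3]
    exact Nat.find_min' hex ⟨u, hu, hui, rfl⟩
  have hα : 1 ≤ ε.re.natDegree := by
    have h1 := hdeg ε hε hεim
    have h2 := hf.2.2.2
    omega
  obtain ⟨γ, hγ0, hγ⟩ := (hunit ε).1 hε
  have hε0 : ε ≠ 0 := hε.ne_zero
  obtain ⟨v₀, hsol, hv₀⟩ := hE8 f hf ε hε0 ⊤ (by
    rw [Ideal.span_singleton_eq_top.2 hε, ← Ideal.one_eq_top, one_pow])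
  -- the conjugate
  obtain ⟨εb, hεb⟩ : ∃ εb : OO f, εb = ⟨ε.re, - ε.im⟩ := ⟨_, rfl⟩
  have hbre : εb.re = ε.re := by rw [hεb]
  have hbim : εb.im = - ε.im := by rw [hεb]
  have hbu : IsUnit εb := by
    rw [hunit]
    refine ⟨γ, hγ0, ?_⟩
    rw [hbre, hbim, ← hγ]
    ring
  have hb0 : εb ≠ 0 := hbu.ne_zero
  have hre := congrArg QuadraticAlgebra.re hv₀
  have him := congrArg QuadraticAlgebra.im hv₀
  simp only [dl, cc, QuadraticAlgebra.re_mul, QuadraticAlgebra.im_mul, zero_mul, mul_zero,
    add_zero] at hre him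
  have hvb : dl f εb = -(cc f v₀) * εb := by
    rw [cc_neg]
    ext1
    · simp only [dl, cc, QuadraticAlgebra.re_mul, zero_mul, mul_zero, add_zero, hbre, hbim,
        derivative_neg]
      linear_combination -hre
    · simp only [dl, cc, QuadraticAlgebra.im_mul, zero_mul, mul_zero, add_zero, hbre, hbim]
      linear_combination him
  have key : ∀ n : ℕ, ∀ u : OO f, u.re.natDegree = n → IsUnit u →
      dl f u = 0 ∨ dl f u = cc f v₀ * u ∨ dl f u = -(cc f v₀) * u := by
    intro n
    induction n using Nat.strong_induction_on with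
    | _ n ih =>
      intro u hun hu
      obtain ⟨c, hc0, hc⟩ := (hunit u).1 hu
      by_cases hui : u.im = 0
      · refine Or.inl (dl_im_zero f u hui ?_)
        rw [hui] at hc
        have h1 := congrArg natDegree hc
        rw [natDegree_C] at h1
        have e : u.re ^ 2 - f * 0 ^ 2 = u.re ^ 2 := by ring
        rw [e, natDegree_pow] at h1
        omega
      · have h1 := step_deg f u.re u.im ε.re ε.im c γ hc hγ hα (hmin u hu hui)
        rw [hun] at h1
        rcases h1 with h1 | h1
        · have e : (u * ε).re = u.re * ε.re + f * u.im * ε.im := by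
            rw [QuadraticAlgebra.re_mul]
          rw [← e] at h1
          have h2 := ih _ h1 (u * ε) rfl (hu.mul hε)
          rw [hmul] at h2
          exact comb (three_oo f) (cc f v₀) u (dl f u) ε (dl f ε) hε0 hv₀ h2
        · have e : (u * εb).re = u.re * ε.re - f * u.im * ε.im := by
            rw [QuadraticAlgebra.re_mul, hbre, hbim]
            ring
          rw [← e] at h1
          have h2 := ih _ h1 (u * εb) rfl (hu.mul hbu)
          rw [hmul] at h2
          have h3 := comb (three_oo f) (-(cc f v₀)) u (dl f u) εb (dl f εb) hb0 hvb (by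
            rw [neg_neg]
            rcases h2 with h2 | h2 | h2
            · exact Or.inl h2
            · exact Or.inr (Or.inr h2)
            · exact Or.inr (Or.inl h2))
          rw [neg_neg] at h3
          rcases h3 with h3 | h3 | h3
          · exact Or.inl h3
          · exact Or.inr (Or.inr h3)
          · exact Or.inr (Or.inl h3)
  refine ⟨v₀, ?_, hsol, ?_⟩
  · intro h0
    rw [h0, cc_zero, zero_mul] at hv₀
    obtain ⟨y, hy⟩ := (hE4 f hf).1 ε hv₀
    have hyu : IsUnit y := by
      rw [hy] at hε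
      exact (isUnit_pow_iff (by norm_num)).1 hε
    have h3 := three (F := F)
    have hy3 : y ^ 3 = y * (y * y) := by ring
    have e1 : ε.re = y.re ^ 3 := by
      rw [hy, hy3]
      simp only [QuadraticAlgebra.re_mul, QuadraticAlgebra.im_mul, zero_mul, add_zero]
      linear_combination (f * y.re * y.im ^ 2) * h3
    have e2 : ε.im = f * y.im ^ 3 := by
      rw [hy, hy3]
      simp only [QuadraticAlgebra.re_mul, QuadraticAlgebra.im_mul, zero_mul, add_zero]
      linear_combination (y.re ^ 2 * y.im) * h3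
    have hyi : y.im ≠ 0 := by
      intro h
      rw [h] at e2
      exact hεim (by rw [e2]; ring)
    have h4 := hmin y hyu hyi
    rw [e1, natDegree_pow] at h4 hα
    omega
  · intro v
    constructor
    · rintro ⟨u, hu, hv⟩
      have hu0 : u ≠ 0 := hu.ne_zero
      rcases key _ u rfl hu with h1 | h1 | h1
      · left
        rw [hv] at h1
        have h2 : cc f v * u = cc f 0 * u := by rw [h1, cc_zero, zero_mul]
        exact congrArg QuadraticAlgebra.re (mul_right_cancel₀ hu0 h2)
      · right; left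
        rw [hv] at h1
        exact congrArg QuadraticAlgebra.re (mul_right_cancel₀ hu0 h1)
      · right; right
        rw [hv, cc_neg] at h1
        exact congrArg QuadraticAlgebra.re (mul_right_cancel₀ hu0 h1)
    · rintro (rfl | rfl | rfl)
      · refine ⟨1, isUnit_one, ?_⟩
        rw [cc_zero, zero_mul]
        refine dl_im_zero f 1 (QuadraticAlgebra.im_one) ?_
        rw [QuadraticAlgebra.re_one, natDegree_one]
      · exact ⟨ε, hε, hv₀⟩
      · exact ⟨εb, hbu, by rw [← cc_neg]; exact hvb⟩

end DH
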