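import Pool.Agent.H463.DH.All
import Pool.Agent.H463.DH.E1
import Pool.Agent.H463.DH.EA
import Pool.Agent.H463.DH.E2
import Pool.Agent.H463.DH.EN
import Pool.Agent.H463.DH.E3
import Pool.Agent.H463.DH.E4
import Pool.Agent.H463.DH.E6
import Pool.Agent.H463.DH.E7
import Pool.Agent.H463.DH.E8
import Pool.Agent.H463.DH.EU
import Pool.Agent.H463.DH.E9
import Pool.Agent.H463.DH.EC
import Pool.Agent.H463.DH.EB
import Pool.Agent.H463.DH.EF1
import Pool.Agent.H463.DH.EF4
import Pool.Agent.H463.DH.EF5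
import Pool.Agent.H463.DH.EF6
import Pool.Agent.H463.DH.EF7
import Pool.Agent.H463.DH.EF8
import Pool.Agent.H463.DH.EF9
import Pool.Agent.H463.DH.ER

/-! All parts of the fifth part (real quadratic function fields) put together. -/

open Polynomial
open scoped Classical

namespace DH

theorem e3c (F : Type) [Field F] [Fintype F] [CharP F 3] : S_E3 F ∧ S_EC F := by
  have e2 := p_E2 F
  have e3 := p_E3 F
  exact ⟨e3, p_EC F e2 e3⟩

theorem ef5 (F : Type) [Field F] [Fintype F] [CharP F 3] : S_EF5 F := by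
  have b0 := p_B0 F
  have mu := p_MU F b0
  have f5 := p_F5 F b0 mu
  exact p_EF5 F b0 mu f5

theorem all5 (F : Type) [Field F] [Fintype F] [CharP F 3] : S_ER F := by
  have b0 := p_B0 F
  have b1 := p_B1 F b0
  have a1 := p_A1 F
  have e1 := p_E1 F b0
  have ea := p_EA F b0 e1
  have e2 := p_E2 F
  have en := p_EN F b0 ea e2
  have e3 := p_E3 F
  have e4 := p_E4 F a1 e2 b1
  have e6 := p_E6 F a1 e2
  have e7 := p_E7 F a1 e2 e3 e4 e6
  have e8 := p_E8 F a1 e2
  have eu := p_EU F a1 e2 en e4 e8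
  have e9 := p_E9 F a1 e2 e3 e4 e7 e8 eu b1
  have ec := p_EC F e2 e3
  have b2 := p_B2 F b0
  have dc := p_DC F b0
  have b3 := p_B3 F b0 b1 b2 dc
  have b4 := p_B4 F b0 b1 b2 b3
  have cp := p_CP F
  have b5 := p_B5 F b0 b1 b4 cp
  have ph := p_PH F b0 cp
  have mu := p_MU F b0
  have ta := p_TA F b0
  have kb := p_KB F b0 mu
  have l3 := p_L3 F b0
  have sw := p_SW F b0 mu
  have me1 := p_ME1 F b0 cp ph l3 sw
  have me2 := p_ME2 F b0 mu kb ta ph me1
  have f2 := p_F2 F b1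
  have f3 := p_F3 F b0 f2
  have f5 := p_F5 F b0 mu
  have eb := p_EB F b0 b4 cp
  have ef1 := p_EF1 F b0 b1
  have ef4 := p_EF4 F b0 b1 b5 cp eb ef1
  have ef5' := p_EF5 F b0 mu f5
  have ef6 := p_EF6 F b0 b1 ta f3 ef4
  have ef7 := p_EF7 F b0 b5 ef1 eb
  have ef8 := p_EF8
  have ef9 := p_EF9 F f5 ef4 ef5' ef6 ef7 ef8 me2 b1
  exact p_ER F b0 b1 e9 ec ef9 ef5'

end DH
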