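import Pool.Agent.H463.DH.Stm6

/-!
# I1: from `(a f v)'' = - v^3` to `(f w)'' = - beta w^3`
-/

open Polynomial
open scoped Classical

noncomputable section

namespace DH

namespace XI1

theorem cube_surj (F : Type) [Field F] [Fintype F] [CharP F 3] (x : F) : ∃ β : F, β ^ 3 = x := by
  have : Fact (Nat.Prime 3) := ⟨by norm_num⟩
  have hinj : Function.Injective (fun x : F => x ^ 3) := fun y z h => frobenius_inj F 3 h
  exact Finite.surjective_of_injective hinj x

theorem key {F : Type} [Field F] (a β : F) (ha : a ≠ 0) (hb : β ≠ 0) (h : β ^ 3 = a⁻¹)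
    (f v : F[X]) : IsSolB β f (C β * v) ↔ IsSol (C a * f) v := by
  unfold IsSolB IsSol
  have h1 : f * (C β * v) = C β * (f * v) := by ring
  have h2 : C a * f * v = C a * (f * v) := by ring
  have h3 : -(C β * (C β * v) ^ 3) = C β * (-(C a⁻¹ * v ^ 3)) := by
    rw [mul_pow, ← C_pow, h]
    ring
  rw [h1, h2, h3, derivative_C_mul, derivative_C_mul, derivative_C_mul, derivative_C_mul]
  have hCb : (C β : F[X]) ≠ 0 := C_ne_zero.2 hb
  have hCa : (C a : F[X]) ≠ 0 := C_ne_zero.2 ha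
  constructor
  · intro h4
    rw [mul_left_cancel₀ hCb h4]
    have h5 : (C a : F[X]) * C a⁻¹ = 1 := by
      rw [← C_mul, mul_inv_cancel₀ ha, C_1]
    linear_combination (-(v ^ 3)) * h5
  · intro h4
    congr 1
    apply mul_left_cancel₀ hCa
    rw [h4]
    have h5 : (C a : F[X]) * C a⁻¹ = 1 := by
      rw [← C_mul, mul_inv_cancel₀ ha, C_1]
    linear_combination (v ^ 3) * h5

end XI1

theorem p_I1 (F : Type) [Field F] [Fintype F] [CharP F 3] (hB0 : S_B0 F) : S_I1 F := by
  intro a ha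
  have ha0 : a ≠ 0 := by
    rintro rfl
    exact ha IsSquare.zero
  obtain ⟨β, hβ⟩ := XI1.cube_surj F a⁻¹
  have hβ0 : β ≠ 0 := by
    rintro rfl
    rw [zero_pow (by norm_num)] at hβ
    exact ha0 (inv_eq_zero.1 hβ.symm)
  refine ⟨β, ?_, ?_⟩
  · rintro ⟨r, hr⟩
    apply ha
    refine ⟨(r ^ 3)⁻¹, ?_⟩
    have h1 : a⁻¹ = r ^ 3 * r ^ 3 := by
      rw [← hβ, hr]
      ring
    rw [← mul_inv, ← h1, inv_inv]
  · intro f hf
    obtain ⟨hP, -⟩ := hB0
    have hd : (C a * f).natDegree = f.natDegree := natDegree_C_mul ha0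
    have hdeg : ∀ (c : F) (v : F[X]), c ≠ 0 → (C c * v).degree = v.degree := fun c v hc =>
      degree_C_mul hc
    have h6 : ∀ w : F[X], C β * (C β⁻¹ * w) = w := by
      intro w
      rw [← mul_assoc, ← C_mul, mul_inv_cancel₀ hβ0, C_1, one_mul]
    have h7 : ∀ w : F[X], C β⁻¹ * (C β * w) = w := by
      intro w
      rw [← mul_assoc, ← C_mul, inv_mul_cancel₀ hβ0, C_1, one_mul]
    refine Finset.card_bij' (fun v _ => C β * v) (fun w _ => C β⁻¹ * w) ?_ ?_ ?_ ?_
    · intro v hv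
      obtain ⟨h1, h2⟩ := Finset.mem_filter.1 hv
      refine Finset.mem_filter.2 ⟨?_, ?_⟩
      · rw [hP, hd] at h1
        rw [hP, hdeg β v hβ0]
        exact h1
      · exact (XI1.key a β ha0 hβ0 hβ f v).2 h2
    · intro w hw
      obtain ⟨h1, h2⟩ := Finset.mem_filter.1 hw
      refine Finset.mem_filter.2 ⟨?_, ?_⟩
      · rw [hP] at h1
        rw [hP, hd, hdeg β⁻¹ w (inv_ne_zero hβ0)]
        exact h1
      · apply (XI1.key a β ha0 hβ0 hβ f _).1
        rw [h6]
        exact h2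
    · intro v _
      exact h7 v
    · intro w _
      exact h6 w

end DH
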