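import Pool.Agent.H463.DH.Stm6

open Polynomial
open scoped Classical

noncomputable section

namespace DH

namespace XI2

lemma norm_eq {F : Type} [Field F] (f : F[X]) (x : OO f) :
    QuadraticAlgebra.norm x = x.re * x.re - f * x.im * x.im := by
  rw [QuadraticAlgebra.norm_def]
  ring

lemma natDegree_right {F : Type} [Field F] {f b : F[X]} (hf : 0 < f.natDegree) (hb : b ≠ 0) :
    0 < (f * b * b).natDegree := by
  have hf0 : f ≠ 0 := by
    intro h
    subst h
    simp at hf
  rw [natDegree_mul (mul_ne_zero hf0 hb) hb, natDegree_mul hf0 hb]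
  omega

lemma norm_natDegree {F : Type} [Field F] {f a b : F[X]} (hf : ¬ IsSquare f.leadingCoeff)
    (hb : b ≠ 0) : (f * b * b).natDegree ≤ (a * a - f * b * b).natDegree := by
  rcases lt_trichotomy (a * a).natDegree (f * b * b).natDegree with h | h | h
  · rw [natDegree_sub_eq_right_of_natDegree_lt h]
  · refine le_natDegree_of_ne_zero ?_
    rw [coeff_sub]
    have h1 : (a * a).coeff (f * b * b).natDegree = a.leadingCoeff * a.leadingCoeff := by
      rw [← h, coeff_natDegree, leadingCoeff_mul]
    have h2 : (f * b * b).coeff (f * b * b).natDegree =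
        f.leadingCoeff * b.leadingCoeff * b.leadingCoeff := by
      rw [coeff_natDegree, leadingCoeff_mul, leadingCoeff_mul]
    rw [h1, h2]
    intro h3
    have hb0 : b.leadingCoeff ≠ 0 := leadingCoeff_ne_zero.2 hb
    refine hf ⟨a.leadingCoeff / b.leadingCoeff, ?_⟩
    field_simp
    have h4 := sub_eq_zero.1 h3
    rw [pow_two, pow_two, h4]
    ring
  · rw [natDegree_sub_eq_left_of_natDegree_lt h]
    exact h.le

lemma norm_zero_iff {F : Type} [Field F] {f : F[X]} (hd : 0 < f.natDegree)
    (hf : ¬ IsSquare f.leadingCoeff) (x : OO f)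
    (h : QuadraticAlgebra.norm x = 0) : x = 0 := by
  rw [norm_eq] at h
  by_cases hb : x.im = 0
  · rw [hb] at h
    simp only [mul_zero, sub_zero, mul_self_eq_zero] at h
    exact QuadraticAlgebra.ext h hb
  · exfalso
    have h1 := norm_natDegree (a := x.re) hf hb
    rw [h] at h1
    have h2 := natDegree_right hd hb
    rw [natDegree_zero] at h1
    omega

end XI2

open XI2 in
theorem p_I2 (F : Type) [Field F] [Fintype F] [CharP F 3] : S_I2 F := by
  intro f hf
  have hd := hf.2.2.1
  have hsq := hf.2.2.2
  refine ⟨?_, ?_⟩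
  · have hnz : NoZeroDivisors (OO f) := by
      constructor
      intro x y hxy
      have h1 : QuadraticAlgebra.norm x * QuadraticAlgebra.norm y = 0 := by
        rw [← map_mul, hxy, QuadraticAlgebra.norm_zero]
      rcases mul_eq_zero.mp h1 with h | h
      · exact Or.inl (norm_zero_iff hd hsq x h)
      · exact Or.inr (norm_zero_iff hd hsq y h)
    exact NoZeroDivisors.to_isDomain _
  · intro u hu
    have h1 : IsUnit (QuadraticAlgebra.norm u) := QuadraticAlgebra.isUnit_iff_norm_isUnit.mp hu
    have h2 := natDegree_eq_zero_of_isUnit h1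
    rw [norm_eq] at h1 h2
    by_cases hb : u.im = 0
    · rw [hb] at h1
      simp only [mul_zero, sub_zero] at h1
      have h3 : IsUnit u.re := isUnit_of_mul_isUnit_left h1
      obtain ⟨c, hc, hcu⟩ := Polynomial.isUnit_iff.mp h3
      refine ⟨c, hc.ne_zero, ?_⟩
      exact QuadraticAlgebra.ext hcu.symm hb
    · exfalso
      have h3 := norm_natDegree (a := u.re) hsq hb
      rw [h2] at h3
      have h4 := natDegree_right hd hb
      omega

end DH
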