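import Pool.Agent.H463.DH.Stm6

/-!
# I6: the solutions of `δ h = v h` generate the unit ideal, inert case (after E6 by helper789, A5 by helper358 and A6 by helper113)
-/

open Polynomial
open scoped Classical

noncomputable section

namespace DH

namespace XI6

section five

variable {F : Type} [Field F]

/-- `cc f` as a ring homomorphism -/
def ccH (f : F[X]) : F[X] →+* OO f where
  toFun := cc f
  map_one' := rfl
  map_mul' a b := by ext <;> simp [cc]
  map_zero' := by ext <;> simp [cc]
  map_add' a b := by ext <;> simp [cc]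

theorem ccH_apply (f a : F[X]) : ccH f a = cc f a := rfl

theorem ccH_inj (f : F[X]) : Function.Injective (ccH f) := by
  intro a b h
  have := congrArg QuadraticAlgebra.re h
  simpa [ccH_apply, cc] using this

/-- the generator `s` -/
def ss (f : F[X]) : OO f := ⟨0, 1⟩

theorem ss_mul (f : F[X]) : ss f * ss f = cc f f := by
  ext <;> simp [ss, cc]

theorem dl_cc (f a : F[X]) : dl f (cc f a) = cc f (derivative a) * ss f := by
  ext <;> simp [dl, cc, ss]

theorem dl_ss (f : F[X]) : dl f (ss f) = - cc f (derivative f) := by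
  ext <;> simp [dl, cc, ss]

/-- norm -/
theorem nrm_mul (f : F[X]) (x : OO f) :
    x * (⟨x.re, - x.im⟩ : OO f) = cc f (x.re ^ 2 - f * x.im ^ 2) := by
  refine QuadraticAlgebra.ext ?_ ?_
  · rw [QuadraticAlgebra.re_mul]
    show x.re * x.re + f * x.im * (-x.im) = x.re ^ 2 - f * x.im ^ 2
    ring
  · rw [QuadraticAlgebra.im_mul]
    show x.re * (-x.im) + x.im * x.re + 0 * x.im * (-x.im) = 0
    ring

theorem five (F : Type) [Field F] [Fintype F] [CharP F 3] (hI2 : S_I2 F) :
    ∀ f : F[X], GoodI f → ∀ Q : Ideal (OO f), Q.IsMaximal → ∃ π : OO f, π ∈ Q ∧ dl f π ∉ Q := by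
  intro f hf Q hQ
  obtain ⟨hdom, hu⟩ := hI2 f hf
  have hQp : Q.IsPrime := hQ.isPrime
  -- `Q ≠ ⊥`
  have hQ0 : Q ≠ ⊥ := by
    intro h0
    have hX : ¬ IsUnit (cc f X) := by
      intro h
      obtain ⟨c, _, hc⟩ := hu _ h
      have h1 : (X : F[X]) = C c := congrArg QuadraticAlgebra.re hc
      have h2 := congrArg natDegree h1
      rw [natDegree_X, natDegree_C] at h2
      omega
    have hne : Ideal.span {cc f X} ≠ ⊤ := by
      rw [Ne, Ideal.span_singleton_eq_top]
      exact hX
    have := hQ.eq_of_le hne (by rw [h0]; exact bot_le)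
    rw [h0] at this
    have h1 : cc f X = 0 := by
      rw [← Ideal.span_singleton_eq_bot]
      exact this.symm
    have h2 : ccH f X = ccH f 0 := by rw [map_zero]; exact h1
    exact X_ne_zero (ccH_inj f h2)
  -- the prime ideal of `F[X]` below `Q`
  have hp : (Ideal.comap (ccH f) Q).IsPrime := Ideal.comap_isPrime _ _
  have hp0 : Ideal.comap (ccH f) Q ≠ ⊥ := by
    obtain ⟨x, hxQ, hx0⟩ := Submodule.exists_mem_ne_zero_of_ne_bot hQ0
    intro h
    have hmem : x.re ^ 2 - f * x.im ^ 2 ∈ Ideal.comap (ccH f) Q := by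
      rw [Ideal.mem_comap, ccH_apply, ← nrm_mul]
      exact Q.mul_mem_right _ hxQ
    rw [h, Ideal.mem_bot] at hmem
    have h1 := nrm_mul f x
    rw [hmem] at h1
    have h2 : x * (⟨x.re, - x.im⟩ : OO f) = 0 := by
      rw [h1]; exact map_zero (ccH f)
    rcases mul_eq_zero.1 h2 with h3 | h3
    · exact hx0 h3
    · apply hx0
      have e1 := congrArg QuadraticAlgebra.re h3
      have e2 := congrArg QuadraticAlgebra.im h3
      simp at e1 e2
      ext
      · rw [e1]; rfl
      · rw [e2]; rfl
  set P : F[X] := Submodule.IsPrincipal.generator (Ideal.comap (ccH f) Q) with hP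
  have hPp : Prime P := Submodule.IsPrincipal.prime_generator_of_isPrime _ hp0
  have hPm : P ∈ Ideal.comap (ccH f) Q := Submodule.IsPrincipal.generator_mem _
  rw [Ideal.mem_comap, ccH_apply] at hPm
  have hsepP : P.Separable := PerfectField.separable_of_irreducible hPp.irreducible
  have hsepf : f.Separable := PerfectField.separable_iff_squarefree.2 hf.1
  have key : ∀ g : F[X], g.Separable → cc f g ∈ Q → cc f (derivative g) ∉ Q := by
    intro g hg h1 h2
    obtain ⟨a, b, hab⟩ := hg
    apply hQp.ne_top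
    rw [Ideal.eq_top_iff_one]
    have : (1 : OO f) = ccH f a * cc f g + ccH f b * cc f (derivative g) := by
      rw [← ccH_apply, ← ccH_apply, ← map_mul, ← map_mul, ← map_add, hab, map_one]
    rw [this]
    exact Q.add_mem (Q.mul_mem_left _ h1) (Q.mul_mem_left _ h2)
  by_cases hs : ss f ∈ Q
  · refine ⟨ss f, hs, ?_⟩
    rw [dl_ss]
    intro h
    have hff : cc f f ∈ Q := by rw [← ss_mul]; exact Q.mul_mem_left _ hs
    exact key f hsepf hff (neg_mem_iff.1 h)
  · refine ⟨cc f P, hPm, ?_⟩
    rw [dl_cc]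
    intro h
    rcases hQp.mem_or_mem h with h1 | h1
    · exact key P hsepP hPm h1
    · exact hs h1

end five

theorem threeX (F : Type) [Field F] [CharP F 3] : (3 : F[X]) = 0 := by
  have h2 : ((3 : ℕ) : F[X]) = 0 := CharP.cast_eq_zero F[X] 3
  exact_mod_cast h2

theorem three (F : Type) [Field F] [CharP F 3] (f : F[X]) : (3 : OO f) = 0 := by
  have h1 := threeX F
  have h4 : (algebraMap F[X] (OO f)) 3 = 0 := by rw [h1, map_zero]
  rw [← h4]
  exact (map_ofNat (algebraMap F[X] (OO f)) 3).symm

theorem third (F : Type) [Field F] [CharP F 3] (p : F[X]) :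
    derivative (derivative (derivative p)) = 0 := by
  have h2 : ((3 : ℕ) : F) = 0 := CharP.cast_eq_zero F 3
  ext n
  simp only [coeff_derivative, coeff_zero]
  have h3 : ((n : F) + 1 + 1 + 1) * (((n : F) + 1 + 1) * ((n : F) + 1)) = 0 := by
    have h4 : (3 : F) = 0 := by exact_mod_cast h2
    have h5 : ∃ m : ℕ, (n + 1 + 1 + 1) * ((n + 1 + 1) * (n + 1)) = 3 * m := by
      rcases (by omega : n % 3 = 0 ∨ n % 3 = 1 ∨ n % 3 = 2) with h | h | h
      · obtain ⟨j, hj⟩ : ∃ j, n = 3 * j := ⟨n / 3, by omega⟩
        exact ⟨(j + 1) * ((n + 1 + 1) * (n + 1)), by subst hj; ring⟩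
      · obtain ⟨j, hj⟩ : ∃ j, n = 3 * j + 1 := ⟨n / 3, by omega⟩
        exact ⟨(n + 1 + 1 + 1) * ((j + 1) * (n + 1)), by subst hj; ring⟩
      · obtain ⟨j, hj⟩ : ∃ j, n = 3 * j + 2 := ⟨n / 3, by omega⟩
        exact ⟨(n + 1 + 1 + 1) * ((n + 1 + 1) * (j + 1)), by subst hj; ring⟩
    obtain ⟨m, hm⟩ := h5
    have h6 : (((n + 1 + 1 + 1) * ((n + 1 + 1) * (n + 1)) : ℕ) : F) = ((3 * m : ℕ) : F) := by rw [hm]
    push_cast at h6
    rw [h6, h4, zero_mul]
  push_cast
  linear_combination (p.coeff (n + 1 + 1 + 1)) * h3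

end XI6

theorem p_I6 (F : Type) [Field F] [Fintype F] [CharP F 3] (hA1 : S_A1 F) (hI2 : S_I2 F) : S_I6 F := by
  have hA5 := XI6.five F hI2
  intro f hf v hv
  obtain ⟨a1, a2, -, -, a5, a6⟩ := hA1 f
  have h3 := XI6.three F f
  set g : OO f := cc f v with hg
  set c : OO f := cc f (derivative (derivative f)) with hc
  have hdc : dl f c = 0 := by
    rw [hc, a6, XI6.third]
    rfl
  have hsol : dl f (dl f g) + g ^ 3 + c * g = 0 := by
    have e1 : dl f (dl f g) = cc f (derivative (derivative v) * f - derivative v * derivative f) := by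
      rw [hg, a6]
      unfold dl cc
      simp
    have e2 : g ^ 3 = cc f (v ^ 3) := by
      rw [hg]
      unfold cc
      ext <;> simp [pow_succ]
    have e3 : c * g = cc f (derivative (derivative f) * v) := by
      rw [hc, hg]
      unfold cc
      ext <;> simp
    rw [e1, e2, e3]
    have h4 : derivative (derivative v) * f - derivative v * derivative f + v ^ 3 +
        derivative (derivative f) * v = 0 := by
      have h5 : derivative (derivative (f * v)) = - v ^ 3 := hv
      simp only [derivative_mul, derivative_add] at h5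
      have h6 := XI6.threeX F
      linear_combination h5 - derivative v * derivative f * h6
    have h7 : cc f (derivative (derivative v) * f - derivative v * derivative f) + cc f (v ^ 3) +
        cc f (derivative (derivative f) * v) = cc f (derivative (derivative v) * f -
        derivative v * derivative f + v ^ 3 + derivative (derivative f) * v) := by
      unfold cc
      ext <;> simp
    rw [h7, h4]
    rfl
  have asub : ∀ x y : OO f, dl f (x - y) = dl f x - dl f y := fun x y =>
    (AddMonoidHom.mk' (dl f) a1).map_sub x y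
  have hmem : ∀ x : OO f, dl f (dl f x) - (g * dl f x + g * dl f x) - dl f g * x + g * (g * x) + c * x ∈
      {h : OO f | dl f h = g * h} := by
    intro x
    show dl f (dl f (dl f x) - (g * dl f x + g * dl f x) - dl f g * x + g * (g * x) + c * x) =
      g * (dl f (dl f x) - (g * dl f x + g * dl f x) - dl f g * x + g * (g * x) + c * x)
    rw [a1, a1, asub, asub, a1, a5, a2 g (dl f x), a2 (dl f g) x, a2 g (g * x), a2 g x, a2 c x, hdc]
    linear_combination (-g * dl f (dl f x) + g ^ 2 * dl f x + x * g * dl f g - dl f g * dl f x) * h3 - x * hsol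
  by_contra hne
  obtain ⟨Q, hQ, hle⟩ := Ideal.exists_le_maximal _ hne
  obtain ⟨p, hp, hdp⟩ := hA5 f hf Q hQ
  have h4 := hle (Ideal.subset_span (hmem (p * p)))
  have e1 : dl f (p * p) = p * dl f p + p * dl f p := a2 p p
  have e2 : dl f (dl f (p * p)) = (p * dl f (dl f p) + dl f p * dl f p) + (p * dl f (dl f p) + dl f p * dl f p) := by
    rw [e1, a1, a2]
  rw [e2, e1] at h4
  have h5 : dl f p * dl f p ∈ Q := by
    have h6 := Q.mul_mem_left 2 h4
    have h7 : p * (-(2 * (dl f (dl f p) + dl f (dl f p)) - 2 * (g * dl f p + g * dl f p + (g * dl f p + g * dl f p)) -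
        2 * (dl f g * p) + 2 * (g * (g * p)) + 2 * (c * p))) ∈ Q := Q.mul_mem_right _ hp
    have h8 := Q.add_mem h6 h7
    have e3 : dl f p * dl f p = 2 * (p * dl f (dl f p) + dl f p * dl f p + (p * dl f (dl f p) + dl f p * dl f p) -
        (g * (p * dl f p + p * dl f p) + g * (p * dl f p + p * dl f p)) - dl f g * (p * p) + g * (g * (p * p)) +
        c * (p * p)) + p * (-(2 * (dl f (dl f p) + dl f (dl f p)) - 2 * (g * dl f p + g * dl f p +
        (g * dl f p + g * dl f p)) - 2 * (dl f g * p) + 2 * (g * (g * p)) + 2 * (c * p))) := by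
      linear_combination (-(dl f p * dl f p)) * h3
    rw [e3]
    exact h8
  rcases hQ.isPrime.mem_or_mem h5 with h6 | h6
  · exact hdp h6
  · exact hdp h6

end DH

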