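import Pool.Agent.H463.DH.Stm6

/-!
# I7: a solution `v` of `(f v)'' = - v ^ 3` gives an ideal `I` with `I ^ 3` principal
-/

open Polynomial
open scoped Classical
open scoped Pointwise

noncomputable section

namespace DH

namespace XI7

/-- the algebra behind I7 in a Dedekind domain -/
theorem core {O : Type} [CommRing O] [IsDomain O] [IsIntegrallyClosed O] (t : Finset O)
    (ht : Ideal.span (t : Set O) = ⊤) (h₀ : O)
    (hc : ∀ m ∈ t, ∃ c e : O, e ≠ 0 ∧ m * e ^ 3 = h₀ * c ^ 3) :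
    ∃ (b : O) (I : Ideal O), b ≠ 0 ∧ I ^ 3 = Ideal.span {h₀ * b ^ 9} := by
  have hc' : ∀ m : O, ∃ c e : O, m ∈ t → e ≠ 0 ∧ m * e ^ 3 = h₀ * c ^ 3 := by
    intro m
    by_cases hm : m ∈ t
    · obtain ⟨c, e, h⟩ := hc m hm
      exact ⟨c, e, fun _ => h⟩
    · exact ⟨0, 0, fun h => absurd h hm⟩
  choose c e hce using hc'
  set b : O := ∏ m ∈ t, e m with hb
  set a : O → O := fun m => c m * ∏ j ∈ t.erase m, e j with ha
  have hb0 : b ≠ 0 := Finset.prod_ne_zero_iff.2 (fun m hm => (hce m hm).1)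
  have hba : ∀ m ∈ t, b ^ 3 * m = h₀ * a m ^ 3 := by
    intro m hm
    have h1 : b = e m * ∏ j ∈ t.erase m, e j := (Finset.mul_prod_erase t e hm).symm
    have h2 := (hce m hm).2
    simp only [ha]
    rw [h1, mul_pow, mul_pow]
    calc e m ^ 3 * (∏ j ∈ t.erase m, e j) ^ 3 * m
        = (m * e m ^ 3) * (∏ j ∈ t.erase m, e j) ^ 3 := by ring
      _ = (h₀ * c m ^ 3) * (∏ j ∈ t.erase m, e j) ^ 3 := by rw [h2]
      _ = _ := by ring
  set T : Set O := a '' (t : Set O) with hT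
  set J : Ideal O := Ideal.span T with hJ
  have hJ3 : J ^ 3 = Ideal.span (T * T * T) := by
    rw [pow_succ, pow_two, hJ, Ideal.span_mul_span', Ideal.span_mul_span']
  have key : Ideal.span {h₀} * J ^ 3 = Ideal.span {b ^ 3} := by
    apply le_antisymm
    · rw [hJ3, Ideal.span_mul_span', Ideal.span_le]
      intro y hy
      obtain ⟨y1, hy1, y2, hy2, rfl⟩ := Set.mem_mul.1 hy
      obtain ⟨y3, hy3, z3, hz3, rfl⟩ := Set.mem_mul.1 hy2
      obtain ⟨z1, hz1, z2, hz2, rfl⟩ := Set.mem_mul.1 hy3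
      obtain ⟨m1, hm1, rfl⟩ := hz1
      obtain ⟨m2, hm2, rfl⟩ := hz2
      obtain ⟨m3, hm3, rfl⟩ := hz3
      rw [Set.mem_singleton_iff] at hy1
      subst hy1
      rw [SetLike.mem_coe, Ideal.mem_span_singleton]
      rw [← IsIntegrallyClosed.pow_dvd_pow_iff (three_ne_zero)]
      refine ⟨m1 * m2 * m3, ?_⟩
      have e1 := hba m1 (Finset.mem_coe.1 hm1)
      have e2 := hba m2 (Finset.mem_coe.1 hm2)
      have e3 := hba m3 (Finset.mem_coe.1 hm3)
      calc (y1 * (a m1 * a m2 * a m3)) ^ 3 =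
          (y1 * a m1 ^ 3) * (y1 * a m2 ^ 3) * (y1 * a m3 ^ 3) := by ring
        _ = (b ^ 3 * m1) * (b ^ 3 * m2) * (b ^ 3 * m3) := by rw [e1, e2, e3]
        _ = _ := by ring
    · rw [Ideal.span_singleton_le_iff_mem]
      have h1 : (1 : O) ∈ Ideal.span (t : Set O) := by rw [ht]; trivial
      obtain ⟨x, _, hx⟩ := Submodule.mem_span_finset.1 h1
      have h2 : b ^ 3 = ∑ m ∈ t, x m * (h₀ * a m ^ 3) := by
        calc b ^ 3 = b ^ 3 * ∑ m ∈ t, x m • m := by rw [hx, mul_one]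
          _ = ∑ m ∈ t, x m * (b ^ 3 * m) := by
            rw [Finset.mul_sum]
            exact Finset.sum_congr rfl (fun m _ => by rw [smul_eq_mul]; ring)
          _ = _ := Finset.sum_congr rfl (fun m hm => by rw [hba m hm])
      rw [h2]
      apply Ideal.sum_mem
      intro m hm
      have hJm : a m ∈ J := Ideal.subset_span (Set.mem_image_of_mem a (Finset.mem_coe.2 hm))
      apply Ideal.mul_mem_left
      exact Ideal.mul_mem_mul (Ideal.mem_span_singleton_self h₀) (Ideal.pow_mem_pow hJm 3)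
  refine ⟨b, Ideal.span {b} * Ideal.span {h₀} * J ^ 2, hb0, ?_⟩
  have e1 : (Ideal.span {b} * Ideal.span {h₀} * J ^ 2) ^ 3 =
      Ideal.span {b} ^ 3 * Ideal.span {h₀} * (Ideal.span {h₀} * J ^ 3) ^ 2 := by ring
  rw [e1, key, Ideal.span_singleton_pow, Ideal.span_singleton_pow,
    Ideal.span_singleton_mul_span_singleton, Ideal.span_singleton_mul_span_singleton]
  congr 2
  ring

end XI7

theorem p_I7 (F : Type) [Field F] [Fintype F] [CharP F 3] (hA1 : S_A1 F) (hI2 : S_I2 F)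
    (hI3 : S_I3 F) (hI4 : S_I4 F) (hI6 : S_I6 F) : S_I7 F := by
  intro f hf v hv
  have hD : IsDomain (OO f) := (hI2 f hf).1
  have hDD : IsDedekindDomain (OO f) := hI3 f hf
  have h6 := hI6 f hf v hv
  obtain ⟨t, hts, htop⟩ := (Ideal.span_eq_top_iff_finite _).1 h6
  obtain ⟨h₀, hh₀, hne⟩ : ∃ h₀ ∈ t, h₀ ≠ 0 := by
    by_contra hcon
    push Not at hcon
    have h1 : Ideal.span (t : Set (OO f)) ≤ ⊥ := by
      rw [Ideal.span_le]
      intro x hx
      rw [SetLike.mem_coe, Ideal.mem_bot]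
      exact hcon x (Finset.mem_coe.1 hx)
    rw [htop] at h1
    exact bot_ne_top (le_antisymm bot_le h1)
  have hm0 : ∀ m ∈ t, dl f m = cc f v * m := fun m hm => hts (Finset.mem_coe.2 hm)
  have hc : ∀ m ∈ t, ∃ c e : OO f, e ≠ 0 ∧ m * e ^ 3 = h₀ * c ^ 3 := by
    intro m hm
    by_cases hmz : m = 0
    · refine ⟨0, 1, one_ne_zero, ?_⟩
      rw [hmz]
      ring
    · obtain ⟨c, e, _, he, h⟩ := (hI4 f hf).2 m h₀ hmz hne (by
        rw [hm0 m hm, hm0 h₀ hh₀]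
        ring)
      exact ⟨c, e, he, h⟩
  obtain ⟨b, I, hb, hI⟩ := XI7.core t htop h₀ hc
  refine ⟨h₀ * b ^ 9, mul_ne_zero hne (pow_ne_zero 9 hb), ?_, I, hI⟩
  have e1 : h₀ * b ^ 9 = (b ^ 3) ^ 3 * h₀ := by ring
  rw [e1, (hA1 f).2.2.2.1 (b ^ 3) h₀, hm0 h₀ hh₀]
  ring

end DH
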