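import Pool.Agent.H463.DH.Stm6

open Polynomial
open scoped Classical

noncomputable section

namespace DH

namespace XI9

open nonZeroDivisors

/-- the cube of ideals is injective in a Dedekind domain -/
lemma cube_inj {R : Type*} [CommRing R] [IsDomain R] [IsDedekindDomain R] {I J : Ideal R}
    (h : I ^ 3 = J ^ 3) : I = J := by
  apply le_antisymm
  · rw [← Ideal.dvd_iff_le]
    exact (UniqueFactorizationMonoid.pow_dvd_pow_iff_dvd (by norm_num)).1 (dvd_of_eq h.symm)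
  · rw [← Ideal.dvd_iff_le]
    exact (UniqueFactorizationMonoid.pow_dvd_pow_iff_dvd (by norm_num)).1 (dvd_of_eq h)

lemma mk0_cube {R : Type*} [CommRing R] [IsDomain R] [IsDedekindDomain R] (I : (Ideal R)⁰) :
    ClassGroup.mk0 I ^ 3 = 1 ↔ ∃ h : R, (I : Ideal R) ^ 3 = Ideal.span {h} := by
  have hm : (I : Ideal R) ^ 3 ∈ (Ideal R)⁰ := pow_mem I.2 3
  have h1 : (I ^ 3 : (Ideal R)⁰) = ⟨(I : Ideal R) ^ 3, hm⟩ :=
    Subtype.ext (SubmonoidClass.coe_pow I 3)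
  rw [← map_pow, h1, ClassGroup.mk0_eq_one_iff hm]
  constructor
  · rintro ⟨⟨h, hh⟩⟩
    exact ⟨h, hh⟩
  · rintro ⟨h, hh⟩
    exact ⟨⟨h, hh⟩⟩

variable {F : Type} [Field F] [Fintype F] [CharP F 3]

/-- the relation between solutions and classes -/
def R (f : F[X]) [IsDomain (OO f)] [IsDedekindDomain (OO f)] (v : F[X]) (c : ClassGroup (OO f)) :
    Prop :=
  ∃ h : OO f, h ≠ 0 ∧ dl f h = cc f v * h ∧
    ∃ I : (Ideal (OO f))⁰, (I : Ideal (OO f)) ^ 3 = Ideal.span {h} ∧ ClassGroup.mk0 I = c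

lemma exists_c (hI7 : S_I7 F) {f : F[X]} (hf : GoodI f) [IsDomain (OO f)] [IsDedekindDomain (OO f)]
    {v : F[X]} (hv : IsSol f v) : ∃ c, R f v c := by
  obtain ⟨h, h0, hd, I, hI⟩ := hI7 f hf v hv
  have hI0 : I ≠ 0 := by
    intro hz
    rw [hz] at hI
    have : Ideal.span {h} = (⊥ : Ideal (OO f)) := by
      rw [← hI]; simp
    exact h0 (Ideal.span_singleton_eq_bot.1 this)
  exact ⟨ClassGroup.mk0 ⟨I, mem_nonZeroDivisors_iff_ne_zero.2 hI0⟩, h, h0, hd,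
    ⟨I, mem_nonZeroDivisors_iff_ne_zero.2 hI0⟩, hI, rfl⟩

lemma cube_eq_one {f : F[X]} [IsDomain (OO f)] [IsDedekindDomain (OO f)]
    {v : F[X]} {c : ClassGroup (OO f)} (h : R f v c) : c ^ 3 = 1 := by
  obtain ⟨h, h0, hd, I, hI, rfl⟩ := h
  exact (mk0_cube I).2 ⟨h, hI⟩

lemma exists_v (hI8 : S_I8 F) {f : F[X]} (hf : GoodI f) [IsDomain (OO f)] [IsDedekindDomain (OO f)]
    {c : ClassGroup (OO f)} (hc : c ^ 3 = 1) : ∃ v, IsSol f v ∧ R f v c := by
  obtain ⟨I, rfl⟩ := ClassGroup.mk0_surjective c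
  obtain ⟨h, hh'⟩ := (mk0_cube I).1 hc
  have h0 : h ≠ 0 := by
    intro hz
    rw [hz] at hh'
    have h1 : (I : Ideal (OO f)) ^ 3 = 0 := by rw [hh']; simp
    exact nonZeroDivisors.coe_ne_zero I (pow_eq_zero_iff (by norm_num) |>.1 h1)
  obtain ⟨v, hv, hd⟩ := hI8 f hf h h0 I hh'
  exact ⟨v, hv, h, h0, hd, I, hh', rfl⟩

lemma uniq_c (hI4 : S_I4 F) {f : F[X]} (hf : GoodI f) [IsDomain (OO f)] [IsDedekindDomain (OO f)]
    {v : F[X]} {c c' : ClassGroup (OO f)} (h1 : R f v c) (h2 : R f v c') : c = c' := by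
  obtain ⟨h, h0, hd, I, hI, rfl⟩ := h1
  obtain ⟨h', h0', hd', I', hI', rfl⟩ := h2
  obtain ⟨c, e, hc, he, hce⟩ := (hI4 f hf).2 h h' h0 h0' (by rw [hd, hd']; ring)
  rw [ClassGroup.mk0_eq_mk0_iff]
  refine ⟨e, c, he, hc, ?_⟩
  apply cube_inj
  rw [mul_pow, mul_pow, hI, hI', Ideal.span_singleton_pow, Ideal.span_singleton_pow,
    Ideal.span_singleton_mul_span_singleton, Ideal.span_singleton_mul_span_singleton,
    mul_comm, hce, mul_comm]

lemma uniq_v (hA1 : S_A1 F) (hI2 : S_I2 F) {f : F[X]} (hf : GoodI f) [IsDomain (OO f)]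
    [IsDedekindDomain (OO f)]
    {v v' : F[X]} {c : ClassGroup (OO f)} (h1 : R f v c) (h2 : R f v' c) : v = v' := by
  obtain ⟨h, h0, hd, I, hI, hc⟩ := h1
  obtain ⟨h', h0', hd', I', hI', hc'⟩ := h2
  rw [← hc', ClassGroup.mk0_eq_mk0_iff] at hc
  obtain ⟨x, y, hx, hy, hxy⟩ := hc
  have h3 : Ideal.span {x ^ 3 * h} = Ideal.span {y ^ 3 * h'} := by
    have := congrArg (fun J => J ^ 3) hxy
    simp only [mul_pow, hI, hI', Ideal.span_singleton_pow,
      Ideal.span_singleton_mul_span_singleton] at this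
    exact this
  rw [Ideal.span_singleton_eq_span_singleton] at h3
  obtain ⟨u, hu⟩ := h3
  obtain ⟨a, ha, hua⟩ := (hI2 f hf).2 u u.isUnit
  obtain ⟨-, hmul, -, hcube, -, hcc⟩ := hA1 f
  have hdu : dl f (u : OO f) = 0 := by
    rw [hua, hcc, derivative_C]
    rfl
  have e1 : dl f (x ^ 3 * (h * u)) = x ^ 3 * (u * (cc f v * h)) := by
    rw [hcube, hmul, hdu, hd]; ring
  have e2 : dl f (y ^ 3 * h') = y ^ 3 * (cc f v' * h') := by
    rw [hcube, hd']
  have e3 : x ^ 3 * (h * u) = y ^ 3 * h' := by rw [← hu]; ring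
  rw [e3, e2] at e1
  have e4 : (cc f v' - cc f v) * (y ^ 3 * h') = 0 := by
    have : y ^ 3 * (cc f v' * h') = cc f v * (x ^ 3 * (h * u)) := by rw [e1]; ring
    rw [e3] at this
    linear_combination this
  have hne : y ^ 3 * h' ≠ 0 := mul_ne_zero (pow_ne_zero _ hy) h0'
  have e5 : cc f v' = cc f v := by
    have := (mul_eq_zero.1 e4).resolve_right hne
    exact sub_eq_zero.1 this
  have := congrArg QuadraticAlgebra.re e5
  exact this.symm

end XI9

open XI9 in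
/-- **I9** -/
theorem p_I9 (F : Type) [Field F] [Fintype F] [CharP F 3] (hA1 : S_A1 F) (hI2 : S_I2 F)
    (hI3 : S_I3 F) (hI4 : S_I4 F) (hI7 : S_I7 F) (hI8 : S_I8 F) (hB1 : S_B1 F) : S_I9 F := by
  intro f hf
  haveI hdom : IsDomain (OO f) := (hI2 f hf).1
  haveI hded : IsDedekindDomain (OO f) := hI3 f hf
  obtain ⟨-, -, -, -, -, hsol, -, -, -⟩ := hB1
  unfold cl3
  rw [dif_pos hdom]
  have hex : ∀ v : {v // v ∈ sol f}, ∃ c : ClassGroup (OO f), R f v.1 c := fun v =>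
    exists_c hI7 hf ((hsol f v.1).1 v.2)
  choose g hg using hex
  have hbij : Function.Bijective
      (fun v : {v // v ∈ sol f} => (⟨g v, cube_eq_one (hg v)⟩ :
        {c : ClassGroup (OO f) // c ^ 3 = 1})) := by
    constructor
    · intro v v' hvv
      have h1 : g v = g v' := congrArg Subtype.val hvv
      have h2 := hg v'
      rw [← h1] at h2
      exact Subtype.ext (uniq_v hA1 hI2 hf (hg v) h2)
    · rintro ⟨c, hc⟩
      obtain ⟨v, hv, hR⟩ := exists_v hI8 hf hc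
      refine ⟨⟨v, (hsol f v).2 hv⟩, ?_⟩
      apply Subtype.ext
      exact uniq_c hI4 hf (hg ⟨v, (hsol f v).2 hv⟩) hR
  have := Nat.card_congr (Equiv.ofBijective _ hbij)
  rw [← this]
  simp

end DH
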