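import Pool.Agent.H463.DH.Stm6

/-!
# Degrees of solutions, inert case
-/

set_option autoImplicit false

open Polynomial
open scoped Classical

noncomputable section

namespace DH

namespace XIB1

variable {F : Type} [Field F]

theorem cast_zero_iff [CharP F 3] (n : ℕ) : ((n : ℕ) : F) = 0 ↔ 3 ∣ n := CharP.cast_eq_zero_iff F 3 n

theorem coeff2 (G : F[X]) (n : ℕ) : (derivative (derivative G)).coeff n =
    G.coeff (n + 2) * (((n + 2) * (n + 1) : ℕ) : F) := by
  rw [coeff_derivative, coeff_derivative]
  push_cast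
  ring

theorem sol_ne {β : F} (hβ : β ≠ 0) {f v : F[X]} (hv : v ≠ 0) (h : IsSolB β f v) :
    derivative (derivative (f * v)) ≠ 0 := by
  unfold IsSolB at h
  rw [h]
  exact neg_ne_zero.2 (mul_ne_zero (C_ne_zero.2 hβ) (pow_ne_zero 3 hv))

theorem sol_deg {β : F} (hβ : β ≠ 0) {f v : F[X]} (h : IsSolB β f v) :
    (derivative (derivative (f * v))).natDegree = 3 * v.natDegree := by
  unfold IsSolB at h
  rw [h, natDegree_neg, natDegree_C_mul hβ, natDegree_pow]

theorem deg_fv {β : F} (hβ : β ≠ 0) {f v : F[X]} (hv : v ≠ 0) (h : IsSolB β f v) :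
    (f * v).natDegree = f.natDegree + v.natDegree := by
  have h1 := sol_ne hβ hv h
  have hf : f ≠ 0 := by
    intro h2
    rw [h2, zero_mul] at h1
    simp at h1
  exact natDegree_mul hf hv

theorem bound {β : F} (hβ : β ≠ 0) {f v : F[X]} (hv : v ≠ 0) (h : IsSolB β f v) :
    2 * v.natDegree + 2 ≤ f.natDegree := by
  have h1 := sol_ne hβ hv h
  have h2 := sol_deg hβ h
  have h3 := deg_fv hβ hv h
  have h4 : derivative (f * v) ≠ 0 := by
    intro h5
    rw [h5] at h1
    simp at h1
  have h5 : (f * v).natDegree ≠ 0 := by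
    intro h6
    exact h4 (derivative_of_natDegree_zero h6)
  have h6 : (derivative (f * v)).natDegree ≠ 0 := by
    intro h7
    exact h1 (derivative_of_natDegree_zero h7)
  have h7 := natDegree_derivative_lt h5
  have h8 := natDegree_derivative_lt h6
  omega

theorem top_coeff [CharP F 3] {β : F} {f v : F[X]} {g : ℕ} (hf : f.Monic)
    (hfd : f.natDegree = 2 * g + 2) (hv : v ≠ 0) (h : IsSolB β f v) (hd : v.natDegree = g) :
    IsSquare β := by
  unfold IsSolB at h
  have h1 : (derivative (derivative (f * v))).coeff (3 * g) = (-(C β * v ^ 3)).coeff (3 * g) := by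
    rw [h]
  rw [coeff2, coeff_neg, coeff_C_mul] at h1
  have h2 : (v ^ 3).coeff (3 * g) = v.leadingCoeff ^ 3 := by
    rw [← hd]
    exact coeff_pow_mul_natDegree v 3
  have h3 : (f * v).coeff (3 * g + 2) = v.leadingCoeff := by
    have e : 3 * g + 2 = f.natDegree + v.natDegree := by
      rw [hfd, hd]
      ring
    rw [e, coeff_mul_degree_add_degree, hf.leadingCoeff, one_mul]
  have h4 : (((3 * g + 2) * (3 * g + 1) : ℕ) : F) = -1 := by
    have e : (((3 * g + 2) * (3 * g + 1) : ℕ) : F) + 1 = 0 := by
      have e1 : (((3 * g + 2) * (3 * g + 1) : ℕ) : F) + 1 =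
          ((3 * (3 * g ^ 2 + 3 * g + 1) : ℕ) : F) := by
        push_cast
        ring
      rw [e1, cast_zero_iff]
      exact Dvd.intro _ rfl
    exact eq_neg_of_add_eq_zero_left e
  rw [h2, h3, h4] at h1
  have hl : v.leadingCoeff ≠ 0 := leadingCoeff_ne_zero.2 hv
  have h5 : β * v.leadingCoeff ^ 2 = 1 := by
    apply mul_right_cancel₀ hl
    linear_combination h1
  refine ⟨v.leadingCoeff⁻¹, ?_⟩
  field_simp
  linear_combination h5

end XIB1

open XIB1 in
theorem p_IB1 (F : Type) [Field F] [Fintype F] [CharP F 3] (hB0 : S_B0 F) : S_IB1 F := by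
  intro β hβ
  have hβ0 : β ≠ 0 := by
    rintro rfl
    exact hβ ⟨0, (mul_zero 0).symm⟩
  refine ⟨?_, ?_, ?_⟩
  · intro g f v hf hfd hv h
    have h1 := bound hβ0 hv h
    rw [hfd] at h1
    have h2 : v.natDegree ≠ g := fun hd => hβ (top_coeff hf hfd hv h hd)
    omega
  · intro n f v hn hv h
    rw [← hn]
    exact bound hβ0 hv h
  · intro f
    have hz : (0 : F[X]) ∈ solB β f := by
      unfold solB
      rw [Finset.mem_filter, hB0.1]
      refine ⟨?_, ?_⟩
      · rw [degree_zero]
        exact WithBot.bot_lt_coe _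
      · unfold IsSolB
        simp
    have h0 : solB β f = insert 0 (solzB β f) := by
      ext v
      rw [Finset.mem_insert]
      constructor
      · intro h
        by_cases hv : v = 0
        · exact Or.inl hv
        · refine Or.inr ?_
          unfold solB at h
          unfold solzB
          rw [Finset.mem_filter] at h ⊢
          exact ⟨h.1, hv, h.2⟩
      · rintro (h | h)
        · rw [h]
          exact hz
        · unfold solzB at h
          unfold solB
          rw [Finset.mem_filter] at h ⊢
          exact ⟨h.1, h.2.2⟩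
    rw [h0, Finset.card_insert_of_notMem]
    unfold solzB
    rw [Finset.mem_filter]
    exact fun h => h.2.1 rfl

end DH
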