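import Pool.Agent.H463.DH.Stm6

open Polynomial
open scoped Classical

namespace DH

namespace XIF1

theorem solz_card (F : Type) [Field F] [Fintype F] [CharP F 3] (hB0 : S_B0 F) (hIB1 : S_IB1 F)
    (β : F) (hβ : ¬ IsSquare β) (g : ℕ) (f : F[X]) (hm : f.Monic) (hf : f.natDegree = 2 * g + 2) :
    (solzB β f).card = ∑ d ∈ Finset.range g, ((DEG F d).filter (fun v => IsSolB β f v)).card := by
  obtain ⟨hP, -, hD, -⟩ := hB0
  obtain ⟨h5, -, -⟩ := hIB1 β hβ
  have H : ∀ v ∈ solzB β f, v.natDegree ∈ Finset.range g := by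
    intro v hv
    obtain ⟨-, hv0, hvs⟩ := Finset.mem_filter.mp hv
    exact Finset.mem_range.mpr (h5 g f v hm hf hv0 hvs)
  rw [Finset.card_eq_sum_card_fiberwise (f := fun v : F[X] => v.natDegree)
    (t := Finset.range g) H]
  refine Finset.sum_congr rfl fun d hd => ?_
  have hdg : d < g := Finset.mem_range.mp hd
  congr 1
  ext v
  rw [Finset.mem_filter, Finset.mem_filter, solzB, Finset.mem_filter, hD, hP, hf]
  constructor
  · rintro ⟨⟨-, h1, h2⟩, h3⟩
    exact ⟨⟨h1, h3⟩, h2⟩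
  · rintro ⟨⟨h1, h3⟩, h2⟩
    refine ⟨⟨?_, h1, h2⟩, h3⟩
    rw [degree_eq_natDegree h1, h3]
    exact_mod_cast (by omega : d < 2 * g + 2)

end XIF1

theorem p_IF1 (F : Type) [Field F] [Fintype F] [CharP F 3] (hB0 : S_B0 F) (hIB1 : S_IB1 F) :
    S_IF1 F := by
  intro β hβ g W
  have h1 : ∀ f ∈ (MON F (2 * g + 2)).filter (fun f => W ^ 2 ∣ f), (solzB β f).card =
      ∑ d ∈ Finset.range g, ∑ v ∈ DEG F d, (if IsSolB β f v then 1 else 0) := by
    intro f hf
    obtain ⟨hm, hdeg⟩ := (hB0.2.1 _ f).mp (Finset.mem_filter.mp hf).1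
    rw [XIF1.solz_card F hB0 hIB1 β hβ g f hm hdeg]
    refine Finset.sum_congr rfl fun d _ => ?_
    rw [Finset.card_filter]
  rw [Finset.sum_congr rfl h1, Finset.sum_comm]
  refine Finset.sum_congr rfl fun d _ => ?_
  rw [Finset.sum_comm]
  refine Finset.sum_congr rfl fun v _ => ?_
  rw [← Finset.card_filter, Finset.filter_filter]
  rfl

end DH
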