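import Pool.Agent.H463.DH.Stm6

/-!
# Task IF3: the bound by the number of prime factors, with `β` (helper8, for helper463)
-/

set_option linter.all false

open Polynomial
open scoped Classical

noncomputable section

namespace DH

namespace XIF3

variable {F : Type} [Field F] [CharP F 3]

theorem three_eq : (3 : F[X]) = 0 := by
  have h : ((3 : ℕ) : F[X]) = 0 := CharP.cast_eq_zero F[X] 3
  exact_mod_cast h

theorem sub_cube (v w : F[X]) : (v - w) ^ 3 = v ^ 3 - w ^ 3 := by
  linear_combination (-(v ^ 2 * w) + v * w ^ 2) * (three_eq : (3 : F[X]) = 0)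

theorem der_cube_mul (P g : F[X]) : derivative (P ^ 3 * g) = P ^ 3 * derivative g := by
  rw [derivative_mul, derivative_pow]
  have h : (C ((3 : ℕ) : F) : F[X]) = 0 := by
    rw [CharP.cast_eq_zero, C_0]
  rw [h]
  ring

theorem isSol_sub {β : F} {f v w : F[X]} (hv : IsSolB β f v) (hw : IsSolB β f w) :
    IsSolB β f (v - w) := by
  unfold IsSolB at *
  rw [mul_sub, derivative_sub, derivative_sub, hv, hw, sub_cube]
  ring

theorem isSol_of_mul {β : F} {P f u : F[X]} (hP : P ≠ 0) (h : IsSolB β (P ^ 2 * f) (P * u)) :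
    IsSolB β f u := by
  unfold IsSolB at *
  have e : P ^ 2 * f * (P * u) = P ^ 3 * (f * u) := by ring
  rw [e, der_cube_mul, der_cube_mul] at h
  have h3 : P ^ 3 ≠ 0 := pow_ne_zero _ hP
  apply mul_left_cancel₀ h3
  rw [h]
  ring

theorem dvd_of_sol {β : F} {P f v : F[X]} (h : IsSolB β (P ^ 2 * f) v) :
    P ∣ C β * v ^ 3 - (derivative P ^ 2 * f) * v := by
  unfold IsSolB at h
  have e : P ^ 2 * f * v = P * (P * (f * v)) := by ring
  obtain ⟨g, hg⟩ : ∃ g, g = f * v := ⟨_, rfl⟩
  rw [e, ← hg] at h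
  simp only [derivative_mul, derivative_add] at h
  refine ⟨-(derivative (derivative P) * g + derivative (derivative P) * g +
    derivative P * derivative g + derivative P * derivative g + derivative P * derivative g +
    derivative P * derivative g + P * derivative (derivative g)), ?_⟩
  have h3 := (three_eq : (3 : F[X]) = 0)
  linear_combination h - (derivative P ^ 2 * g) * h3 + derivative P ^ 2 * hg

theorem dvd_of_sol' {β : F} (hβ : β ≠ 0) {P f v : F[X]} (h : IsSolB β (P ^ 2 * f) v) :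
    P ∣ v ^ 3 - (C β⁻¹ * (derivative P ^ 2 * f)) * v := by
  have h1 := (dvd_of_sol h).mul_left (C β⁻¹)
  have h2 : C β⁻¹ * (C β * v ^ 3 - (derivative P ^ 2 * f) * v) =
      v ^ 3 - (C β⁻¹ * (derivative P ^ 2 * f)) * v := by
    have h3 : (C β⁻¹ : F[X]) * C β = 1 := by
      rw [← C_mul, inv_mul_cancel₀ hβ, C_1]
    linear_combination (v ^ 3) * h3
  rwa [h2] at h1

variable [Fintype F]

theorem mem_solB (hB0 : S_B0 F) (hIB1 : S_IB1 F) {β : F} (hβ : ¬ IsSquare β) (f v : F[X]) :
    v ∈ solB β f ↔ IsSolB β f v := by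
  unfold solB
  rw [Finset.mem_filter]
  refine ⟨fun h => h.2, fun h => ⟨?_, h⟩⟩
  rw [hB0.1]
  by_cases hv : v = 0
  · rw [hv, degree_zero]
    exact WithBot.bot_lt_coe _
  · have h1 := (hIB1 β hβ).2.1 f.natDegree f v rfl hv h
    rw [degree_eq_natDegree hv]
    exact_mod_cast (by omega : v.natDegree < f.natDegree)

theorem card_two (hB0 : S_B0 F) (hIB1 : S_IB1 F) {β : F} (hβ : ¬ IsSquare β) (P f : F[X])
    (hP : Irreducible P) : (solB β (P ^ 2 * f)).card ≤ 3 * (solB β f).card := by
  have hsol := mem_solB hB0 hIB1 hβ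
  have hβ0 : β ≠ 0 := by
    rintro rfl
    exact hβ ⟨0, by simp⟩
  have : Fact (Irreducible P) := ⟨hP⟩
  set c : AdjoinRoot P := AdjoinRoot.mk P (C β⁻¹ * (derivative P ^ 2 * f)) with hc
  set R : (AdjoinRoot P)[X] := X ^ 3 - C c * X with hR
  have hRd : R.natDegree = 3 := by
    rw [hR]
    compute_degree!
  have hR0 : R ≠ 0 := by
    intro h
    rw [h, natDegree_zero] at hRd
    exact absurd hRd (by norm_num)
  have hTc : R.roots.toFinset.card ≤ 3 := by
    calc R.roots.toFinset.card ≤ Multiset.card R.roots := Multiset.toFinset_card_le _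
      _ ≤ R.natDegree := card_roots' R
      _ = 3 := hRd
  have hmaps : ∀ v ∈ solB β (P ^ 2 * f), AdjoinRoot.mk P v ∈ R.roots.toFinset := by
    intro v hv
    rw [Multiset.mem_toFinset, mem_roots hR0, IsRoot.def, hR]
    rw [eval_sub, eval_pow, eval_X, eval_mul, eval_C, eval_X, hc, ← map_pow, ← map_mul, ← map_sub,
      AdjoinRoot.mk_eq_zero]
    exact dvd_of_sol' hβ0 ((hsol _ _).1 hv)
  have hfib : ∀ b ∈ R.roots.toFinset,
      ((solB β (P ^ 2 * f)).filter (fun v => AdjoinRoot.mk P v = b)).card ≤ (solB β f).card := by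
    intro b _
    rcases ((solB β (P ^ 2 * f)).filter
      (fun v => AdjoinRoot.mk P v = b)).eq_empty_or_nonempty with he | ⟨v₀, hv₀⟩
    · rw [he, Finset.card_empty]
      exact Nat.zero_le _
    · rw [Finset.mem_filter] at hv₀
      apply Finset.card_le_card_of_injOn (fun v => (v - v₀) / P)
      · intro v hv
        rw [Finset.mem_coe, Finset.mem_filter] at hv
        have hd : P ∣ v - v₀ := by
          rw [← AdjoinRoot.mk_eq_zero, map_sub, hv.2, hv₀.2, sub_self]
        have he : P * ((v - v₀) / P) = v - v₀ := EuclideanDomain.mul_div_cancel' hP.ne_zero hd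
        rw [Finset.mem_coe, hsol]
        apply isSol_of_mul hP.ne_zero
        rw [he]
        exact isSol_sub ((hsol _ _).1 hv.1) ((hsol _ _).1 hv₀.1)
      · intro v hv w hw hvw
        rw [Finset.mem_coe, Finset.mem_filter] at hv hw
        have hd : P ∣ v - v₀ := by
          rw [← AdjoinRoot.mk_eq_zero, map_sub, hv.2, hv₀.2, sub_self]
        have hd' : P ∣ w - v₀ := by
          rw [← AdjoinRoot.mk_eq_zero, map_sub, hw.2, hv₀.2, sub_self]
        have he : P * ((v - v₀) / P) = v - v₀ := EuclideanDomain.mul_div_cancel' hP.ne_zero hd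
        have he' : P * ((w - v₀) / P) = w - v₀ := EuclideanDomain.mul_div_cancel' hP.ne_zero hd'
        have h1 : v - v₀ = w - v₀ := by
          rw [← he, ← he']
          exact congrArg (fun z => P * z) hvw
        exact sub_left_injective h1
  calc (solB β (P ^ 2 * f)).card ≤ (solB β f).card * R.roots.toFinset.card :=
        Finset.card_le_mul_card_image_of_maps_to hmaps _ hfib
    _ ≤ (solB β f).card * 3 := Nat.mul_le_mul_left _ hTc
    _ = 3 * (solB β f).card := mul_comm _ _

theorem card_le (hB0 : S_B0 F) (hIB1 : S_IB1 F) {β : F} (hβ : ¬ IsSquare β) (f : F[X])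
    (s : Multiset F[X]) (hs : ∀ P ∈ s, Irreducible P) :
    (solB β (s.prod ^ 2 * f)).card ≤ 3 ^ (Multiset.card s) * (solB β f).card := by
  induction s using Multiset.induction_on with
  | empty => simp
  | cons P s ih =>
    have h1 : ∀ Q ∈ s, Irreducible Q := fun Q hQ => hs Q (Multiset.mem_cons_of_mem hQ)
    have h2 := ih h1
    have hP : Irreducible P := hs P (Multiset.mem_cons_self P s)
    have h5 := card_two hB0 hIB1 hβ P (s.prod ^ 2 * f) hP
    have h6 : (P ::ₘ s).prod ^ 2 * f = P ^ 2 * (s.prod ^ 2 * f) := by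
      rw [Multiset.prod_cons]
      ring
    rw [h6, Multiset.card_cons, pow_succ]
    calc (solB β (P ^ 2 * (s.prod ^ 2 * f))).card ≤ 3 * (solB β (s.prod ^ 2 * f)).card := h5
      _ ≤ 3 * (3 ^ (Multiset.card s) * (solB β f).card) := Nat.mul_le_mul_left _ h2
      _ = 3 ^ (Multiset.card s) * 3 * (solB β f).card := by ring

theorem card_le_monic (hB0 : S_B0 F) (hIB1 : S_IB1 F) {β : F} (hβ : ¬ IsSquare β) (f : F[X])
    {W : F[X]} (hW : W.Monic) :
    (solB β (W ^ 2 * f)).card ≤
      3 ^ (Multiset.card (UniqueFactorizationMonoid.normalizedFactors W)) * (solB β f).card := by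
  have h1 := card_le hB0 hIB1 hβ f (UniqueFactorizationMonoid.normalizedFactors W)
    (fun P hP => UniqueFactorizationMonoid.irreducible_of_normalized_factor P hP)
  rwa [UniqueFactorizationMonoid.prod_normalizedFactors_eq hW.ne_zero, hW.normalize_eq_self] at h1

theorem filter_eq (hB0 : S_B0 F) {n w : ℕ} {W : F[X]} (hW : W.Monic) (hw : W.natDegree = w)
    (hn : 2 * w ≤ n) : (MON F n).filter (fun f => W ^ 2 ∣ f) =
      (MON F (n - 2 * w)).image (fun f₁ => W ^ 2 * f₁) := by
  obtain ⟨-, hM, -⟩ := hB0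
  have hW2 : (W ^ 2).Monic := hW.pow 2
  have hd : (W ^ 2).natDegree = 2 * w := by rw [hW.natDegree_pow, hw]
  ext f
  rw [Finset.mem_filter, Finset.mem_image, hM]
  constructor
  · rintro ⟨⟨hf, hfn⟩, g, rfl⟩
    have hg : g.Monic := Polynomial.Monic.of_mul_monic_left hW2 hf
    refine ⟨g, (hM _ _).2 ⟨hg, ?_⟩, rfl⟩
    rw [hW2.natDegree_mul hg, hd] at hfn
    omega
  · rintro ⟨g, hg, rfl⟩
    rw [hM] at hg
    refine ⟨⟨hW2.mul hg.1, ?_⟩, dvd_mul_right _ _⟩
    rw [hW2.natDegree_mul hg.1, hd, hg.2]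
    omega

end XIF3

theorem p_IF3 (F : Type) [Field F] [Fintype F] [CharP F 3] (hB0 : S_B0 F) (hIB1 : S_IB1 F) :
    S_IF3 F := by
  intro β hβ n w W hW hw hn
  rw [XIF3.filter_eq hB0 hW hw hn, Finset.sum_image, Finset.mul_sum]
  · exact Finset.sum_le_sum fun f _ => XIF3.card_le_monic hB0 hIB1 hβ f hW
  · intro a _ b _ hab
    exact mul_left_cancel₀ (pow_ne_zero 2 hW.ne_zero) hab

end DH
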