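import Pool.Agent.H463.DH.Stm6

/-!
# IF7 (helper118 for helper463, after F7 by helper388): the main part of the sieve, inert case
-/

open Polynomial
open scoped Classical

noncomputable section

namespace DH

variable (F : Type) [Field F] [Fintype F] [CharP F 3]

namespace XIF7

omit [CharP F 3] in
theorem qq_pos : 0 < qq F := by
  unfold qq
  exact_mod_cast Fintype.card_pos

/-- the contribution of one `W` and one `d` -/
theorem one (hB0 : S_B0 F) (hB5 : S_IB5 F) {β : F} (hβ : β ≠ 0) {g z w d : ℕ} (hz : 4 * z ≤ g) (hw : w < z + 1)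
    (hd : d < g) {W : F[X]} (hW : W ∈ MON F w) :
    mu W * ∑ v ∈ DEG F d, (cntB β (2 * g + 2) W v : ℝ) =
      if (2 * g + 2 + d) % 3 = 2 then 0 else
        qq F ^ (NN (2 * g + 2 + d)) * (mu W / qq F ^ (2 * w + d) *
          ∑ v ∈ DEG F d, qq F ^ (cpart (W ^ 2 * v)).natDegree) := by
  by_cases hsq : Squarefree W
  · obtain ⟨hWm, hWw⟩ := (hB0.2.1 w W).1 hW
    have h1 : ∀ v ∈ DEG F d, (cntB β (2 * g + 2) W v : ℝ) = if (2 * g + 2 + d) % 3 = 2 then 0 else
        qq F ^ (NN (2 * g + 2 + d)) * qq F ^ ((cpart (W ^ 2 * v)).natDegree) /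
          qq F ^ (2 * w + d) := by
      intro v hv
      obtain ⟨hv0, hvd⟩ := (hB0.2.2.1 d v).1 hv
      have h2 := hB5 β (2 * g + 2) d W v hβ hWm hsq hv0 hvd (by omega) (by rw [hWw]; omega)
      rw [hWw] at h2
      exact h2
    rw [Finset.sum_congr rfl h1]
    by_cases hc : (2 * g + 2 + d) % 3 = 2
    · simp only [if_pos hc, Finset.sum_const_zero, mul_zero]
    · simp only [if_neg hc]
      rw [Finset.mul_sum, Finset.mul_sum, Finset.mul_sum]
      refine Finset.sum_congr rfl fun v _ => ?_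
      ring
  · have h0 : mu W = 0 := by
      unfold mu
      rw [if_neg hsq]
    rw [h0]
    simp

end XIF7

open XIF7 in
theorem p_IF7 (hB0 : S_B0 F) (hIB5 : S_IB5 F) (hIF1 : S_IF1 F) : S_IF7 F := by
  intro β hβ g z hz
  have hβ0 : β ≠ 0 := by
    rintro rfl
    exact hβ (IsSquare.zero)
  have h1 : ∀ w ∈ Finset.range (z + 1), ∀ W ∈ MON F w,
      mu W * ∑ f ∈ (MON F (2 * g + 2)).filter (fun f => W ^ 2 ∣ f), ((solzB β f).card : ℝ) =
      ∑ d ∈ Finset.range g, if (2 * g + 2 + d) % 3 = 2 then 0 else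
        qq F ^ (NN (2 * g + 2 + d)) * (mu W / qq F ^ (2 * w + d) *
          ∑ v ∈ DEG F d, qq F ^ (cpart (W ^ 2 * v)).natDegree) := by
    intro w hw W hW
    rw [Finset.mem_range] at hw
    have h2 : ∑ f ∈ (MON F (2 * g + 2)).filter (fun f => W ^ 2 ∣ f), ((solzB β f).card : ℝ) =
        ∑ d ∈ Finset.range g, ∑ v ∈ DEG F d, (cntB β (2 * g + 2) W v : ℝ) := by
      have h3 := hIF1 β hβ g W
      exact_mod_cast h3
    rw [h2, Finset.mul_sum]
    refine Finset.sum_congr rfl fun d hd => ?_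
    rw [Finset.mem_range] at hd
    exact one F hB0 hIB5 hβ0 hz hw hd hW
  have h4 : ∑ w ∈ Finset.range (z + 1), ∑ W ∈ MON F w,
      mu W * ∑ f ∈ (MON F (2 * g + 2)).filter (fun f => W ^ 2 ∣ f), ((solzB β f).card : ℝ) =
      ∑ w ∈ Finset.range (z + 1), ∑ W ∈ MON F w,
        ∑ d ∈ Finset.range g, if (2 * g + 2 + d) % 3 = 2 then 0 else
        qq F ^ (NN (2 * g + 2 + d)) * (mu W / qq F ^ (2 * w + d) *
          ∑ v ∈ DEG F d, qq F ^ (cpart (W ^ 2 * v)).natDegree) :=
    Finset.sum_congr rfl fun w hw => Finset.sum_congr rfl fun W hW => h1 w hw W hW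
  rw [h4, Finset.sum_filter]
  have h5 : ∀ w ∈ Finset.range (z + 1), (∑ W ∈ MON F w,
        ∑ d ∈ Finset.range g, if (2 * g + 2 + d) % 3 = 2 then 0 else
        qq F ^ (NN (2 * g + 2 + d)) * (mu W / qq F ^ (2 * w + d) *
          ∑ v ∈ DEG F d, qq F ^ (cpart (W ^ 2 * v)).natDegree)) =
      ∑ d ∈ Finset.range g, ∑ W ∈ MON F w, if (2 * g + 2 + d) % 3 = 2 then 0 else
        qq F ^ (NN (2 * g + 2 + d)) * (mu W / qq F ^ (2 * w + d) *
          ∑ v ∈ DEG F d, qq F ^ (cpart (W ^ 2 * v)).natDegree) := fun w _ => Finset.sum_comm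
  rw [Finset.sum_congr rfl h5, Finset.sum_comm]
  refine Finset.sum_congr rfl fun d _ => ?_
  by_cases hc : (2 * g + 2 + d) % 3 = 2
  · simp only [if_pos hc, Finset.sum_const_zero]
    rw [if_neg (by simpa using hc)]
  · simp only [if_neg hc]
    rw [if_pos hc]
    unfold Md
    rw [Finset.mul_sum]
    refine Finset.sum_congr rfl fun w _ => ?_
    rw [Finset.mul_sum]

end DH
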