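import Pool.Agent.H463.DH.Stm6

/-! # DH IR: the inert imaginary case, the final theorem (average `2`) -/

open Polynomial
open scoped Classical

noncomputable section

namespace DH

namespace XIR

theorem mem_SQF {F : Type} [Field F] [Fintype F] [CharP F 3] (hB0 : S_B0 F) {n : ℕ} {f : F[X]}
    (hf : f ∈ SQF F n) : f.Monic ∧ f.natDegree = n ∧ Squarefree f := by
  obtain ⟨_, hMON, _, _, _, _⟩ := hB0
  unfold SQF at hf
  rw [Finset.mem_filter, hMON] at hf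
  exact ⟨hf.1.1, hf.1.2, hf.2⟩

theorem good_of_mem {F : Type} [Field F] [Fintype F] [CharP F 3] (hB0 : S_B0 F) {a : F}
    (ha : ¬ IsSquare a) {g : ℕ} {f : F[X]} (hf : f ∈ SQF F (2 * g + 2)) : GoodI (C a * f) := by
  obtain ⟨hm, hd, hs⟩ := mem_SQF hB0 hf
  have ha0 : a ≠ 0 := by
    rintro rfl
    exact ha ⟨0, by rw [mul_zero]⟩
  have hu : IsUnit (C a : F[X]) := isUnit_C.2 (isUnit_iff_ne_zero.2 ha0)
  have hdeg : (C a * f).natDegree = 2 * g + 2 := by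
    rw [natDegree_C_mul ha0, hd]
  refine ⟨?_, ?_, ?_, ?_⟩
  · intro x hx
    exact hs x ((hu.dvd_mul_left).1 hx)
  · rw [hdeg]
    exact ⟨g + 1, by ring⟩
  · rw [hdeg]
    omega
  · rw [leadingCoeff_mul, leadingCoeff_C, hm.leadingCoeff, mul_one]
    exact ha

end XIR

theorem p_IR (F : Type) [Field F] [Fintype F] [CharP F 3] (hB0 : S_B0 F) (hI9 : S_I9 F)
    (hI1 : S_I1 F) (hIB1 : S_IB1 F) (hIF9 : S_IF9 F) : S_IR F := by
  intro a ha
  obtain ⟨β, hβ, hab⟩ := hI1 a ha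
  obtain ⟨_, _, hsz⟩ := hIB1 β hβ
  obtain ⟨Cst, _, hC⟩ := hIF9 β hβ
  refine ⟨Cst, fun g => ?_⟩
  have e : ∑ f ∈ SQF F (2 * g + 2), ((cl3 (C a * f) : ℝ) - 2) =
      ∑ f ∈ SQF F (2 * g + 2), (((solzB β f).card : ℝ) - 1) := by
    refine Finset.sum_congr rfl fun f hf => ?_
    have h1 : cl3 (C a * f) = (solzB β f).card + 1 := by
      rw [hI9 _ (XIR.good_of_mem hB0 ha hf), hab f (XIR.mem_SQF hB0 hf).1.ne_zero, hsz f]
    rw [h1]
    push_cast
    ring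
  rw [e]
  exact hC g

end DH
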