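import Pool.Agent.H463.DH.All5
import Pool.Agent.H463.DH.I1
import Pool.Agent.H463.DH.I2
import Pool.Agent.H463.DH.I3
import Pool.Agent.H463.DH.I4
import Pool.Agent.H463.DH.I6
import Pool.Agent.H463.DH.I7
import Pool.Agent.H463.DH.I8
import Pool.Agent.H463.DH.I9
import Pool.Agent.H463.DH.IC
import Pool.Agent.H463.DH.IB1
import Pool.Agent.H463.DH.IB5
import Pool.Agent.H463.DH.IF1
import Pool.Agent.H463.DH.IF3
import Pool.Agent.H463.DH.IF4
import Pool.Agent.H463.DH.IF6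
import Pool.Agent.H463.DH.IF7
import Pool.Agent.H463.DH.IF9
import Pool.Agent.H463.DH.IR

/-! All parts of the sixth part (the infinite place is inert) put together. -/

open Polynomial
open scoped Classical

namespace DH

theorem i3c (F : Type) [Field F] [Fintype F] [CharP F 3] : S_I3 F ∧ S_IC F := by
  have i2 := p_I2 F
  have i3 := p_I3 F
  exact ⟨i3, p_IC F i2 i3⟩

theorem all6 (F : Type) [Field F] [Fintype F] [CharP F 3] : S_IR F := by
  have b0 := p_B0 F
  have b1 := p_B1 F b0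
  have a1 := p_A1 F
  have i1 := p_I1 F b0
  have i2 := p_I2 F
  have i3 := p_I3 F
  have i4 := p_I4 F a1 i2 b1
  have i6 := p_I6 F a1 i2
  have i7 := p_I7 F a1 i2 i3 i4 i6
  have i8 := p_I8 F a1 i2
  have i9 := p_I9 F a1 i2 i3 i4 i7 i8 b1
  have b2 := p_B2 F b0
  have dc := p_DC F b0
  have b3 := p_B3 F b0 b1 b2 dc
  have b4 := p_B4 F b0 b1 b2 b3
  have cp := p_CP F
  have ph := p_PH F b0 cp
  have mu := p_MU F b0
  have ta := p_TA F b0
  have kb := p_KB F b0 mu
  have l3 := p_L3 F b0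
  have sw := p_SW F b0 mu
  have me1 := p_ME1 F b0 cp ph l3 sw
  have me2 := p_ME2 F b0 mu kb ta ph me1
  have f5 := p_F5 F b0 mu
  have ib1 := p_IB1 F b0
  have ib5 := p_IB5 F b0 b1 b4 cp
  have if1 := p_IF1 F b0 ib1
  have if3 := p_IF3 F b0 ib1
  have if4 := p_IF4 F b0 ib1 ib5 cp if1
  have if6 := p_IF6 F b0 ib1 ta if3 if4
  have if7 := p_IF7 F b0 ib5 if1
  have if9 := p_IF9 F f5 (ef5 F) p_EF8 if4 if6 if7 me2 ib1
  exact p_IR F b0 i9 i1 ib1 if9

end DH
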