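import Pool.Agent.H463.DH.Stm

open Polynomial
open scoped Classical

noncomputable section

namespace DH

namespace XB0

variable {F : Type} [Field F] [Fintype F]

omit [Fintype F] in
theorem coeff_sum (n : ℕ) (c : Fin n → F) (k : ℕ) :
    (∑ i : Fin n, C (c i) * X ^ (i : ℕ) : F[X]).coeff k = if h : k < n then c ⟨k, h⟩ else 0 := by
  rw [finsetSum_coeff]
  simp only [coeff_C_mul_X_pow]
  split_ifs with h
  · rw [Finset.sum_eq_single (⟨k, h⟩ : Fin n)]
    · simp
    · intro b _ hb
      rw [if_neg]
      intro h'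
      exact hb (Fin.ext h'.symm)
    · intro h'
      exact absurd (Finset.mem_univ _) h'
  · refine Finset.sum_eq_zero fun i _ => ?_
    rw [if_neg]
    intro h'
    exact h (h' ▸ i.2)

theorem mem_POL (n : ℕ) (g : F[X]) : g ∈ POL F n ↔ g.degree < n := by
  unfold POL
  rw [Finset.mem_image]
  constructor
  · rintro ⟨c, -, rfl⟩
    exact degree_sum_fin_lt c
  · intro h
    refine ⟨fun i => g.coeff i, Finset.mem_univ _, ?_⟩
    ext k
    rw [coeff_sum]
    split_ifs with hk
    · rfl
    · rw [coeff_eq_zero_of_degree_lt]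
      refine h.trans_le ?_
      exact_mod_cast not_lt.1 hk

theorem card_POL (n : ℕ) : (POL F n).card = Fintype.card F ^ n := by
  unfold POL
  rw [Finset.card_image_of_injective]
  · rw [Finset.card_univ, Fintype.card_fun, Fintype.card_fin]
  · intro c c' h
    funext i
    have h1 := congrArg (fun g : F[X] => g.coeff (i : ℕ)) h
    simp only [coeff_sum, dif_pos i.2] at h1
    exact h1

theorem mem_DEG (d : ℕ) (v : F[X]) : v ∈ DEG F d ↔ v ≠ 0 ∧ v.natDegree = d := by
  unfold DEG
  rw [Finset.mem_filter, mem_POL]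
  constructor
  · exact fun h => h.2
  · intro h
    refine ⟨?_, h⟩
    rw [degree_eq_natDegree h.1, h.2]
    exact_mod_cast Nat.lt_succ_self d

theorem DEG_eq (d : ℕ) : DEG F d = POL F (d + 1) \ POL F d := by
  ext v
  rw [mem_DEG, Finset.mem_sdiff, mem_POL, mem_POL]
  constructor
  · rintro ⟨h1, h2⟩
    rw [degree_eq_natDegree h1, h2]
    exact ⟨by exact_mod_cast Nat.lt_succ_self d, lt_irrefl _⟩
  · rintro ⟨h1, h2⟩
    have h0 : v ≠ 0 := by
      rintro rfl
      apply h2
      rw [degree_zero]
      exact WithBot.bot_lt_coe d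
    refine ⟨h0, ?_⟩
    rw [degree_eq_natDegree h0] at h1 h2
    have h3 : v.natDegree < d + 1 := by exact_mod_cast h1
    have h4 : ¬ v.natDegree < d := fun h => h2 (by exact_mod_cast h)
    omega

end XB0

theorem p_B0 (F : Type) [Field F] [Fintype F] [CharP F 3] : S_B0 F := by
  refine ⟨fun n g => XB0.mem_POL n g, ?_, fun d v => XB0.mem_DEG d v, fun n => XB0.card_POL n,
    ?_, ?_⟩
  · intro n f
    unfold MON
    rw [Finset.mem_image]
    constructor
    · rintro ⟨g, hg, rfl⟩
      rw [XB0.mem_POL] at hg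
      refine ⟨monic_X_pow_add hg, ?_⟩
      have h1 : (X ^ n + g : F[X]).degree = n := by
        rw [degree_add_eq_left_of_degree_lt]
        · exact degree_X_pow n
        · rw [degree_X_pow]
          exact hg
      exact natDegree_eq_of_degree_eq_some h1
    · rintro ⟨h1, h2⟩
      refine ⟨f - X ^ n, ?_, by ring⟩
      rw [XB0.mem_POL]
      have h3 : f.degree = n := by
        rw [degree_eq_natDegree h1.ne_zero, h2]
      rw [← h3]
      refine degree_sub_lt_left ?_ h1.ne_zero ?_
      · rw [h3, degree_X_pow]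
      · rw [h1.leadingCoeff, leadingCoeff_X_pow]
  · intro n
    unfold MON
    rw [Finset.card_image_of_injective _ (add_right_injective _), XB0.card_POL]
  · intro d
    rw [XB0.DEG_eq, Finset.card_sdiff_of_subset, XB0.card_POL, XB0.card_POL, pow_succ,
      Nat.sub_mul, one_mul, mul_comm]
    intro g hg
    rw [XB0.mem_POL] at hg ⊢
    refine hg.trans_le ?_
    exact_mod_cast Nat.le_succ d

end DH
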