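import Pool.Agent.H463.DH.Stm

/-!
# The number of monic `f` with `W ^ 2 ∣ f` and `(f v)'' = - v ^ 3`
-/

open Polynomial
open scoped Classical

noncomputable section

namespace DH

namespace XB5

variable {F : Type} [Field F] [CharP F 3]

theorem three_F : (3 : F) = 0 := by
  exact_mod_cast CharP.cast_eq_zero F 3

theorem d_cube (c : F[X]) : derivative (c ^ 3) = 0 := by
  have h : C ((3 : ℕ) : F) = 0 := by rw [CharP.cast_eq_zero, C_0]
  rw [derivative_pow, h, zero_mul, zero_mul]

theorem dd_cube_mul (c G : F[X]) :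
    derivative (derivative (c ^ 3 * G)) = c ^ 3 * derivative (derivative G) := by
  rw [derivative_mul, d_cube, zero_mul, zero_add, derivative_mul, d_cube, zero_mul, zero_add]

theorem dd_X2 : derivative (derivative (X ^ 2 : F[X])) = -1 := by
  have h2 : (2 : F) = -1 := by
    have := three_F (F := F)
    linear_combination this
  have h3 : C ((2 : ℕ) : F) = -1 := by
    rw [Nat.cast_ofNat, h2, map_neg, map_one]
  rw [derivative_X_pow, h3]
  simp

theorem dd_X2_cube (u : F[X]) : derivative (derivative (X ^ 2 * u ^ 3)) = - u ^ 3 := by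
  rw [mul_comm, dd_cube_mul, dd_X2]
  ring

theorem NN_add (j e : ℕ) : NN (j + 3 * e) = NN j + 2 * e := by
  unfold NN
  omega

omit [CharP F 3] in
/-- leading coefficients of a sum -/
theorem lead_add {A B : F[X]} {N : ℕ} (hA : A.natDegree = N) (hB : B.natDegree < N) :
    (A + B).natDegree = N ∧ (A + B).leadingCoeff = A.leadingCoeff := by
  have h1 : B.natDegree < A.natDegree := by omega
  have h2 : B.degree < A.degree := by
    apply degree_lt_degree h1
  exact ⟨by rw [natDegree_add_eq_left_of_natDegree_lt h1, hA],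
    leadingCoeff_add_of_degree_lt' h2⟩

end XB5

open XB5 in
/-- **B5.** -/
theorem p_B5 (F : Type) [Field F] [Fintype F] [CharP F 3] (hB0 : S_B0 F) (hB1 : S_B1 F)
    (hB4 : S_B4 F) (hCP : S_CP F) : S_B5 F := by
  intro n d W v hWm hWs hv hvd hn hbig
  obtain ⟨hPOL, hMON, -⟩ := hB0
  obtain ⟨-, -, -, -, -, -, -, -, h9⟩ := hB1
  obtain ⟨hC1, hC2, hC3⟩ := hCP
  have hq : (0 : ℝ) < qq F := by
    unfold qq
    exact_mod_cast Fintype.card_pos
  by_cases hmod : (n + d) % 3 = 2
  · rw [if_pos hmod]
    have h0 : cnt n W v = 0 := by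
      unfold cnt
      rw [Finset.card_eq_zero, Finset.filter_eq_empty_iff]
      intro f hf hcon
      obtain ⟨hfm, hfd⟩ := (hMON n f).1 hf
      have h1 := h9 f v hv hcon.2 (by rw [hfd, hvd]; exact hmod)
      omega
    rw [h0]
    norm_num
  · rw [if_neg hmod]
    have hW0 : W ≠ 0 := hWm.ne_zero
    have hU0 : W ^ 2 * v ≠ 0 := mul_ne_zero (pow_ne_zero _ hW0) hv
    obtain ⟨hcm, hcd, -⟩ := hC1 _ hU0
    have hcv := hC3 W v hWs hv
    obtain ⟨W₁, hW₁⟩ := hcd
    have hfree := hC2 _ W₁ hU0 hW₁
    obtain ⟨v₁, hv₁⟩ := hcv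
    obtain ⟨c, hc⟩ : ∃ c, c = cpart (W ^ 2 * v) := ⟨_, rfl⟩
    rw [← hc] at hcm hW₁ hv₁ ⊢
    have hc0 : c ≠ 0 := hcm.ne_zero
    have hW₁0 : W₁ ≠ 0 := by
      intro h
      rw [h, mul_zero] at hW₁
      exact hU0 hW₁
    have hdeg : 2 * W.natDegree + d = 3 * c.natDegree + W₁.natDegree := by
      have h1 := congrArg natDegree hW₁
      rw [natDegree_mul (pow_ne_zero _ hW0) hv, natDegree_pow,
        natDegree_mul (pow_ne_zero _ hc0) hW₁0, natDegree_pow, hvd] at h1
      exact h1
    obtain ⟨j, hj⟩ : ∃ j, n + d = j + 3 * c.natDegree := ⟨n + d - 3 * c.natDegree, by omega⟩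
    have hj1 : 2 * W₁.natDegree + 1 ≤ j := by omega
    have hj2 : j % 3 ≠ 2 := by omega
    obtain ⟨a, ha⟩ : ∃ a, a = v.leadingCoeff := ⟨_, rfl⟩
    have ha0 : a ≠ 0 := by rw [ha]; exact leadingCoeff_ne_zero.2 hv
    obtain ⟨hD, hcard⟩ := hB4 W₁ hW₁0 hfree j hj1 hj2 a ha0 (-(X ^ 2 * v₁ ^ 3))
    have hv3 : v ^ 3 = c ^ 3 * v₁ ^ 3 := by
      conv_lhs => rw [hv₁]
      ring
    have hX2 : (X ^ 2 * v ^ 3).natDegree = 2 + 3 * d := by
      rw [natDegree_mul (pow_ne_zero _ X_ne_zero) (pow_ne_zero _ hv), natDegree_X_pow,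
        natDegree_pow, hvd]
    -- the two sets have the same image
    have himg : ((MON F n).filter (fun f => W ^ 2 ∣ f ∧ IsSol f v)).image (fun f => f * v) =
        ((POL F (j + 1)).filter (fun G => derivative (derivative G) = 0 ∧ G.coeff j = a ∧
          W₁ ∣ G - -(X ^ 2 * v₁ ^ 3))).image (fun G => c ^ 3 * (G + X ^ 2 * v₁ ^ 3)) := by
      ext H
      rw [Finset.mem_image, Finset.mem_image]
      constructor
      · rintro ⟨f, hf, rfl⟩
        rw [Finset.mem_filter, hMON] at hf
        obtain ⟨⟨hfm, hfd⟩, ⟨s, hs⟩, hsol⟩ := hf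
        have hf0 : f ≠ 0 := hfm.ne_zero
        have hfv : f * v = c ^ 3 * (W₁ * s) := by
          rw [hs, ← mul_assoc, ← hW₁]
          ring
        have hG3 : c ^ 3 * (W₁ * s - X ^ 2 * v₁ ^ 3) = f * v + -(X ^ 2 * v ^ 3) := by
          rw [hfv, hv3]
          ring
        have hfvd : (f * v).natDegree = n + d := by
          rw [natDegree_mul hf0 hv, hfd, hvd]
        have hneg : (-(X ^ 2 * v ^ 3)).natDegree < n + d := by
          rw [natDegree_neg, hX2]
          omega
        obtain ⟨e1, e2⟩ := lead_add hfvd hneg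
        have hlc : (f * v).leadingCoeff = a := by
          rw [leadingCoeff_mul, hfm.leadingCoeff, one_mul, ha]
        rw [← hG3] at e1 e2
        have hG0 : W₁ * s - X ^ 2 * v₁ ^ 3 ≠ 0 := by
          intro h0
          rw [h0, mul_zero, natDegree_zero] at e1
          omega
        rw [natDegree_mul (pow_ne_zero _ hc0) hG0, natDegree_pow] at e1
        rw [leadingCoeff_mul, leadingCoeff_pow, hcm.leadingCoeff, one_pow, one_mul, hlc] at e2
        have e3 : (W₁ * s - X ^ 2 * v₁ ^ 3).natDegree = j := by omega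
        refine ⟨W₁ * s - X ^ 2 * v₁ ^ 3, ?_, ?_⟩
        · rw [Finset.mem_filter, hPOL]
          refine ⟨?_, ?_, ?_, ?_⟩
          · rw [degree_eq_natDegree hG0, e3]
            exact_mod_cast Nat.lt_succ_self j
          · have h1 := dd_cube_mul c (W₁ * s - X ^ 2 * v₁ ^ 3)
            rw [hG3] at h1
            unfold IsSol at hsol
            rw [derivative_add, derivative_add, hsol, derivative_neg, derivative_neg,
              dd_X2_cube, neg_neg, neg_add_cancel] at h1
            exact (mul_eq_zero.1 h1.symm).resolve_left (pow_ne_zero _ hc0)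
          · rw [leadingCoeff, e3] at e2
            exact e2
          · exact ⟨s, by ring⟩
        · rw [sub_add_cancel, hfv]
      · rintro ⟨G, hG, rfl⟩
        rw [Finset.mem_filter, hPOL] at hG
        obtain ⟨hGd, hG2, hGc, s, hs⟩ := hG
        rw [sub_neg_eq_add] at hs
        have hG0 : G ≠ 0 := by
          intro h0
          rw [h0, coeff_zero] at hGc
          exact ha0 hGc.symm
        have hGj : G.natDegree = j := by
          apply le_antisymm
          · rw [degree_eq_natDegree hG0] at hGd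
            have h1 : G.natDegree < j + 1 := by exact_mod_cast hGd
            omega
          · apply le_natDegree_of_ne_zero
            rw [hGc]
            exact ha0
        have hH : c ^ 3 * (G + X ^ 2 * v₁ ^ 3) = c ^ 3 * G + X ^ 2 * v ^ 3 := by
          rw [hv3]
          ring
        have hfv : W ^ 2 * s * v = c ^ 3 * (G + X ^ 2 * v₁ ^ 3) := by
          rw [hs, ← mul_assoc, ← hW₁]
          ring
        have hcG : (c ^ 3 * G).natDegree = n + d := by
          rw [natDegree_mul (pow_ne_zero _ hc0) hG0, natDegree_pow, hGj]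
          omega
        obtain ⟨e1, e2⟩ := lead_add hcG (B := X ^ 2 * v ^ 3) (by rw [hX2]; omega)
        have hlG : G.leadingCoeff = a := by
          rw [leadingCoeff, hGj, hGc]
        rw [leadingCoeff_mul, leadingCoeff_pow, hcm.leadingCoeff, one_pow, one_mul, hlG] at e2
        rw [← hH, ← hfv] at e1 e2
        have hf0 : W ^ 2 * s ≠ 0 := by
          intro h0
          rw [h0, zero_mul, natDegree_zero] at e1
          omega
        rw [natDegree_mul hf0 hv, hvd] at e1
        rw [leadingCoeff_mul, ← ha] at e2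
        refine ⟨W ^ 2 * s, ?_, hfv⟩
        rw [Finset.mem_filter, hMON]
        refine ⟨⟨?_, by omega⟩, ⟨s, rfl⟩, ?_⟩
        · have h1 : (W ^ 2 * s).leadingCoeff * a = 1 * a := by rw [e2, one_mul]
          exact mul_right_cancel₀ ha0 h1
        · unfold IsSol
          rw [hfv, hH, derivative_add, derivative_add, dd_cube_mul, hG2, mul_zero, zero_add,
            dd_X2_cube]
    have hcnt : cnt n W v = Fintype.card F ^ (NN j - W₁.natDegree) := by
      rw [← hcard]
      unfold cnt
      have h1 := congrArg Finset.card himg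
      rw [Finset.card_image_of_injective _ (fun x y hxy => mul_right_cancel₀ hv hxy),
        Finset.card_image_of_injective _ (fun x y hxy => by
          have h2 := mul_left_cancel₀ (pow_ne_zero 3 hc0) hxy
          exact add_right_cancel h2)] at h1
      exact h1
    rw [hcnt, hj, NN_add, eq_div_iff (pow_ne_zero _ hq.ne')]
    push_cast
    change qq F ^ (NN j - W₁.natDegree) * qq F ^ (2 * W.natDegree + d) = _
    rw [← pow_add, ← pow_add]
    congr 1
    omega

end DH
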