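import Mathlib

/-!
# Class groups of quadratic function fields in characteristic 3: definitions

`F` is a finite field of characteristic 3, `q = #F`.  For `f ∈ F[X]` the order `OO f = F[X][s]`, `s ^ 2 = f`,
is `QuadraticAlgebra F[X] f 0`; an element is `⟨a, b⟩ = a + b s`.
-/

open Polynomial
open scoped Classical

noncomputable section

namespace DH

/-- The polynomials of degree `< n` (a finite set). -/
def POL (F : Type) [Field F] [Fintype F] (n : ℕ) : Finset F[X] :=
  (Finset.univ : Finset (Fin n → F)).image (fun c => ∑ i : Fin n, C (c i) * X ^ (i : ℕ))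

/-- The monic polynomials of degree `n`. -/
def MON (F : Type) [Field F] [Fintype F] (n : ℕ) : Finset F[X] :=
  (POL F n).image (fun g => X ^ n + g)

/-- The nonzero polynomials of degree exactly `d`. -/
def DEG (F : Type) [Field F] [Fintype F] (d : ℕ) : Finset F[X] :=
  (POL F (d + 1)).filter (fun v => v ≠ 0 ∧ v.natDegree = d)

/-- The monic squarefree polynomials of degree `n`. -/
def SQF (F : Type) [Field F] [Fintype F] (n : ℕ) : Finset F[X] :=
  (MON F n).filter (fun f => Squarefree f)

/-- `q = #F` as a real number. -/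
def qq (F : Type) [Fintype F] : ℝ := (Fintype.card F : ℝ)

/-- `NN M` is the number of `j < M` with `j % 3 ≠ 2`. -/
def NN (M : ℕ) : ℕ := M - M / 3

/-- The equation `(f v)'' = - v ^ 3`. -/
def IsSol {F : Type} [Field F] (f v : F[X]) : Prop :=
  derivative (derivative (f * v)) = - v ^ 3

/-- All solutions `v` of `(f v)'' = - v ^ 3` (including `v = 0`). -/
def sol {F : Type} [Field F] [Fintype F] (f : F[X]) : Finset F[X] :=
  (POL F f.natDegree).filter (fun v => IsSol f v)

/-- The nonzero solutions. -/
def solz {F : Type} [Field F] [Fintype F] (f : F[X]) : Finset F[X] :=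
  (POL F f.natDegree).filter (fun v => v ≠ 0 ∧ IsSol f v)

/-- The number of monic `f` of degree `n` with `W ^ 2 ∣ f` and `(f v)'' = - v ^ 3`. -/
def cnt {F : Type} [Field F] [Fintype F] (n : ℕ) (W v : F[X]) : ℕ :=
  ((MON F n).filter (fun f => W ^ 2 ∣ f ∧ IsSol f v)).card

/-- The Moebius function (used for monic `W` only). -/
def mu {F : Type} [Field F] (W : F[X]) : ℝ :=
  if Squarefree W then (-1) ^ (Multiset.card (UniqueFactorizationMonoid.normalizedFactors W)) else 0

/-- Euler's function: the number of `a` of degree `< deg b` coprime to `b`. -/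
def phi {F : Type} [Field F] [Fintype F] (b : F[X]) : ℕ :=
  ((POL F b.natDegree).filter (fun a => IsCoprime a b)).card

/-- `c` is the largest monic polynomial whose cube divides `U`. -/
def IsCpart {F : Type} [Field F] (U c : F[X]) : Prop :=
  c.Monic ∧ c ^ 3 ∣ U ∧ ∀ b : F[X], b ^ 3 ∣ U → b ∣ c

/-- The largest monic polynomial whose cube divides `U` (for `U ≠ 0`). -/
def cpart {F : Type} [Field F] (U : F[X]) : F[X] :=
  if h : ∃ c, IsCpart U c then h.choose else 1

/-- Cube-free polynomials. -/
def CubeFree {F : Type} [Field F] (W : F[X]) : Prop :=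
  ∀ b : F[X], b ^ 3 ∣ W → IsUnit b

/-- The ring `F[X][s]`, `s ^ 2 = f`; the element `a + b s` is `⟨a, b⟩`. -/
abbrev OO {F : Type} [Field F] (f : F[X]) : Type := QuadraticAlgebra F[X] f 0

/-- The derivation `δ (a + b s) = (b' f - b f') + a' s` of `OO f` (characteristic 3). -/
def dl {F : Type} [Field F] (f : F[X]) (x : OO f) : OO f :=
  ⟨derivative x.im * f - x.im * derivative f, derivative x.re⟩

/-- The polynomial `v` as an element of `OO f`. -/
def cc {F : Type} [Field F] (f v : F[X]) : OO f := ⟨v, 0⟩

/-- monic, squarefree, of odd degree. -/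
def Good {F : Type} [Field F] (f : F[X]) : Prop := f.Monic ∧ Squarefree f ∧ Odd f.natDegree

/-- The number of ideal classes `c` of the domain `OO f` with `c ^ 3 = 1`
(the value `0` if `OO f` is not a domain is never used: `OO f` is a Dedekind domain for `f` squarefree of odd degree). -/
def cl3 {F : Type} [Field F] (f : F[X]) : ℕ :=
  if _h : IsDomain (OO f) then Nat.card {c : ClassGroup (OO f) // c ^ 3 = 1} else 0

end DH
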