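import Pool.Agent.H463.DH.Stm5

/-! # Task DH EF5 (helper980): the number of monic squarefree polynomials of even degree -/

open Polynomial
open scoped Classical

noncomputable section

namespace DH

namespace XEF5

variable (F : Type) [Field F] [Fintype F] [CharP F 3]

theorem card_mult (hB0 : S_B0 F) {n w : ℕ} (h : 2 * w ≤ n) {W : F[X]} (hW : W ∈ MON F w) :
    ((MON F n).filter (fun f => W ^ 2 ∣ f)).card = Fintype.card F ^ (n - 2 * w) := by
  obtain ⟨_, hmon, _, _, hcard, _⟩ := hB0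
  rw [← hcard (n - 2 * w)]
  have hW' := (hmon w W).1 hW
  have hW2 : (W ^ 2).Monic := hW'.1.pow 2
  have hd2 : (W ^ 2).natDegree = 2 * w := by rw [hW'.1.natDegree_pow, hW'.2]
  symm
  refine Finset.card_bij (fun h _ => W ^ 2 * h) ?_ ?_ ?_
  · intro g hg
    have hg' := (hmon _ g).1 hg
    rw [Finset.mem_filter, hmon]
    refine ⟨⟨hW2.mul hg'.1, ?_⟩, dvd_mul_right _ _⟩
    rw [hW2.natDegree_mul hg'.1, hd2, hg'.2]
    omega
  · intro a _ b _ hab
    exact mul_left_cancel₀ hW2.ne_zero hab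
  · intro f hf
    rw [Finset.mem_filter, hmon] at hf
    obtain ⟨⟨hf1, hf2⟩, g, rfl⟩ := hf
    have hg : g.Monic := hW2.of_mul_monic_left hf1
    refine ⟨g, (hmon _ g).2 ⟨hg, ?_⟩, rfl⟩
    rw [hW2.natDegree_mul hg, hd2] at hf2
    omega

end XEF5

open XEF5

theorem p_EF5 (F : Type) [Field F] [Fintype F] [CharP F 3] (hB0 : S_B0 F) (hMU : S_MU F)
    (hF5 : S_F5 F) : S_EF5 F := by
  intro g
  have h1 := hF5.1 (2 * g + 2) (g + 1) (fun _ => 1) (by omega)
  rw [Finset.sum_const, nsmul_eq_mul, mul_one] at h1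
  rw [h1]
  have h2 : ∀ w ∈ Finset.range (g + 1 + 1), ∑ W ∈ MON F w,
      mu W * ∑ f ∈ (MON F (2 * g + 2)).filter (fun f => W ^ 2 ∣ f), (1 : ℝ) =
      (if w = 0 then 1 else if w = 1 then - qq F else 0) * qq F ^ (2 * g + 2 - 2 * w) := by
    intro w hw
    rw [Finset.mem_range] at hw
    have h3 : ∀ W ∈ MON F w, mu W * ∑ f ∈ (MON F (2 * g + 2)).filter (fun f => W ^ 2 ∣ f), (1 : ℝ) =
        mu W * qq F ^ (2 * g + 2 - 2 * w) := by
      intro W hW
      rw [Finset.sum_const, nsmul_eq_mul, mul_one, card_mult F hB0 (by omega) hW, Nat.cast_pow]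
      rfl
    rw [Finset.sum_congr rfl h3, ← Finset.sum_mul, hMU.2.2.2.2.2 w]
  rw [Finset.sum_congr rfl h2]
  rw [Finset.sum_range_succ', Finset.sum_range_succ']
  have h4 : ∑ x ∈ Finset.range g, (if x + 1 + 1 = 0 then (1 : ℝ) else if x + 1 + 1 = 1 then - qq F
      else 0) * qq F ^ (2 * g + 2 - 2 * (x + 1 + 1)) = 0 := by
    refine Finset.sum_eq_zero fun x _ => ?_
    rw [if_neg (by omega), if_neg (by omega), zero_mul]
  rw [h4]
  have h5 : 2 * g + 2 - 2 * (0 + 1) = 2 * g := by omega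
  have h6 : 2 * g + 2 - 2 * 0 = 2 * g + 2 := by omega
  rw [h5, h6]
  simp only [zero_add, one_ne_zero, if_false, if_true, one_mul]
  ring

end DH
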