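import Pool.Agent.H463.DH.Stm4

/-!
# H1: the geometric sum (by helper538)
-/

open Polynomial
open scoped Classical

noncomputable section

namespace DH

namespace XH1

lemma three_le (F : Type) [Field F] [Fintype F] [CharP F 3] : 3 ≤ qq F := by
  obtain ⟨n, -, h⟩ := FiniteField.card F 3
  unfold qq
  rw [h]
  have h1 : (3 : ℝ) ^ 1 ≤ 3 ^ (n : ℕ) := pow_le_pow_right₀ (by norm_num) n.pos
  push_cast
  linarith

lemma blk {q : ℝ} (hq : 3 ≤ q) (M : ℕ) :
    ∑ i ∈ Finset.range (3 * M), q ^ ((i + 3 + 4) / 3 + 1) / q ^ (i + 3) ≤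
      15 / 8 * (1 - (1 / 9) ^ M) := by
  have hq0 : 0 < q := by linarith
  induction M with
  | zero => simp
  | succ M ih =>
    have e : 3 * (M + 1) = 3 * M + 1 + 1 + 1 := by ring
    rw [e, Finset.sum_range_succ, Finset.sum_range_succ, Finset.sum_range_succ]
    have h1 : (3 * M + 3 + 4) / 3 + 1 = M + 3 := by omega
    have h2 : (3 * M + 1 + 3 + 4) / 3 + 1 = M + 3 := by omega
    have h3 : (3 * M + 1 + 1 + 3 + 4) / 3 + 1 = M + 4 := by omega
    rw [h1, h2, h3]
    have g1 : q ^ (M + 3) / q ^ (3 * M + 3) = (1 / q ^ 2) ^ M := by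
      rw [one_div_pow, div_eq_div_iff (by positivity) (by positivity)]
      ring
    have g2 : q ^ (M + 3) / q ^ (3 * M + 1 + 3) = (1 / q ^ 2) ^ M * (1 / q) := by
      rw [one_div_pow, div_mul_div_comm, div_eq_div_iff (by positivity) (by positivity)]
      ring
    have g3 : q ^ (M + 4) / q ^ (3 * M + 1 + 1 + 3) = (1 / q ^ 2) ^ M * (1 / q) := by
      rw [one_div_pow, div_mul_div_comm, div_eq_div_iff (by positivity) (by positivity)]
      ring
    have g4 : (1 / q ^ 2) ^ M ≤ (1 / 9) ^ M := by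
      refine pow_le_pow_left₀ (by positivity) ?_ M
      refine one_div_le_one_div_of_le (by norm_num) ?_
      nlinarith
    have g5 : 1 / q ≤ 1 / 3 := one_div_le_one_div_of_le (by norm_num) hq
    have g6 : (1 / q ^ 2) ^ M * (1 / q) ≤ (1 / 9) ^ M * (1 / 3) :=
      mul_le_mul g4 g5 (by positivity) (by positivity)
    rw [g1, g2, g3]
    have g7 : ((1 : ℝ) / 9) ^ (M + 1) = (1 / 9) ^ M * (1 / 9) := pow_succ _ _
    rw [g7]
    linarith

lemma geo {q : ℝ} (hq : 3 ≤ q) (N : ℕ) :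
    ∑ i ∈ (Finset.range N).filter (fun i => 3 ≤ i), q ^ ((i + 4) / 3 + 1) / q ^ i ≤ 2 := by
  have hq0 : 0 < q := by linarith
  have h1 := blk hq N
  have h2 : ∑ i ∈ (Finset.range N).filter (fun i => 3 ≤ i), q ^ ((i + 4) / 3 + 1) / q ^ i ≤
      ∑ i ∈ (Finset.range (3 * N)).map (addRightEmbedding 3), q ^ ((i + 4) / 3 + 1) / q ^ i := by
    refine Finset.sum_le_sum_of_subset_of_nonneg ?_ fun i _ _ => by positivity
    intro i hi
    rw [Finset.mem_filter, Finset.mem_range] at hi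
    rw [Finset.mem_map]
    refine ⟨i - 3, Finset.mem_range.2 (by omega), ?_⟩
    simp only [addRightEmbedding_apply]
    omega
  rw [Finset.sum_map] at h2
  simp only [addRightEmbedding_apply] at h2
  have h3 : (0 : ℝ) ≤ (1 / 9) ^ N := by positivity
  linarith

end XH1

open XH1

theorem p_H1 (F : Type) [Field F] [Fintype F] [CharP F 3] (hTI : S_TI F) : S_H1 F := by
  intro g m e hm he hs
  have hq := three_le F
  obtain ⟨q, hqd⟩ : ∃ q : ℝ, q = qq F := ⟨_, rfl⟩
  rw [← hqd] at hq ⊢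
  have hq0 : 0 < q := by linarith
  obtain ⟨A, hA⟩ : ∃ A : ℝ, A = (tau e : ℝ) ^ 3 * q ^ (2 * (g - m)) / q ^ m := ⟨_, rfl⟩
  obtain ⟨B, hB⟩ : ∃ B : ℝ, B = (g : ℝ) * (tau e : ℝ) ^ 2 * q ^ (g + 2 * g / 3) := ⟨_, rfl⟩
  have hA0 : 0 ≤ A := by rw [hA]; positivity
  have hB0 : 0 ≤ B := by rw [hB]; positivity
  have hU : ∀ i, m + i < g → UU F (g - m) i e ≤ (9 * A + 6 * B) / q ^ i := by
    intro i hi
    have h := hTI g m i e hi he hs
    rw [← hqd] at h
    refine h.trans (le_of_eq ?_)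
    rw [hA, hB, pow_add q m i]
    field_simp
  obtain ⟨W, hW⟩ : ∃ W : ℝ, W = 9 * A + 6 * B := ⟨_, rfl⟩
  have hW0 : 0 ≤ W := by rw [hW]; positivity
  rw [← hW] at hU
  have t2 : (if m + 2 < g then 2 * q ^ 2 * UU F (g - m) 2 e else 0) ≤ 2 * W := by
    split_ifs with h
    · have h1 := mul_le_mul_of_nonneg_left (hU 2 h) (show 0 ≤ 2 * q ^ 2 by positivity)
      refine h1.trans (le_of_eq ?_)
      field_simp
    · positivity
  have t3 : ∑ i ∈ (Finset.range (g - m)).filter (fun i => 3 ≤ i),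
      2 * q ^ ((i + 4) / 3 + 1) * UU F (g - m) i e ≤ 4 * W := by
    have h1 : ∑ i ∈ (Finset.range (g - m)).filter (fun i => 3 ≤ i),
        2 * q ^ ((i + 4) / 3 + 1) * UU F (g - m) i e ≤
        ∑ i ∈ (Finset.range (g - m)).filter (fun i => 3 ≤ i),
        2 * W * (q ^ ((i + 4) / 3 + 1) / q ^ i) := by
      refine Finset.sum_le_sum fun i hi => ?_
      rw [Finset.mem_filter, Finset.mem_range] at hi
      have h2 := mul_le_mul_of_nonneg_left (hU i (by omega))
        (show 0 ≤ 2 * q ^ ((i + 4) / 3 + 1) by positivity)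
      refine h2.trans (le_of_eq ?_)
      field_simp
    refine h1.trans ?_
    rw [← Finset.mul_sum]
    have h3 := mul_le_mul_of_nonneg_left (geo hq (g - m)) (show 0 ≤ 2 * W by positivity)
    linarith
  have e1 : 54 * (tau e : ℝ) ^ 3 * q ^ (2 * (g - m)) / q ^ m +
      36 * g * (tau e : ℝ) ^ 2 * q ^ (g + 2 * g / 3) = 6 * W := by
    rw [hW, hA, hB]
    ring
  unfold HH
  rw [← hqd]
  linarith

end DH
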