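import Pool.Agent.H463.DH.Stm6

/-!
# DH IF6 : the tail of the sieve, inert infinite place
-/

open Polynomial
open scoped Classical

noncomputable section

namespace DH

namespace XIF6

lemma abs_mu_le {F : Type} [Field F] (W : F[X]) : |mu W| ≤ if Squarefree W then 1 else 0 := by
  unfold mu
  split_ifs with h
  · rw [abs_pow, abs_neg, abs_one, one_pow]
  · rw [abs_zero]

section

variable {F : Type} [Field F] [Fintype F] [CharP F 3]

omit [CharP F 3] in
lemma solz_le (hB1 : S_IB1 F) (β : F) (hβ : ¬ IsSquare β) (f : F[X]) :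
    (solzB β f).card ≤ (solB β f).card := by
  have h := (hB1 β hβ).2.2 f
  omega

omit [CharP F 3] in
lemma small_sum (hB0 : S_B0 F) (hB1 : S_IB1 F) (hEF4 : S_IF4 F) (β : F) (hβ : ¬ IsSquare β)
    (n : ℕ) (hn : Even n) :
    ∑ f ∈ MON F n, (solB β f).card ≤ 6 * Fintype.card F ^ n := by
  obtain ⟨k, hk⟩ := hn
  rcases Nat.eq_zero_or_pos k with h0 | h0
  · have hn0 : n = 0 := by omega
    subst hn0
    have h1 : ∀ f ∈ MON F 0, (solB β f).card ≤ 1 := by
      intro f hf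
      obtain ⟨-, hd⟩ := (hB0.2.1 0 f).1 hf
      have h2 := (hB1 β hβ).2.2 f
      have h3 : (solzB β f).card = 0 := by
        rw [Finset.card_eq_zero]
        refine Finset.eq_empty_of_forall_notMem (fun v hv => ?_)
        unfold solzB at hv
        rw [Finset.mem_filter] at hv
        have h4 := (hB1 β hβ).2.1 0 f v hd hv.2.1 hv.2.2
        omega
      omega
    calc ∑ f ∈ MON F 0, (solB β f).card ≤ ∑ _f ∈ MON F 0, 1 := Finset.sum_le_sum h1
      _ = (MON F 0).card := by rw [Finset.sum_const, smul_eq_mul, mul_one]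
      _ = 1 := by rw [hB0.2.2.2.2.1 0, pow_zero]
      _ ≤ 6 * Fintype.card F ^ 0 := by rw [pow_zero]; omega
  · have e : n = 2 * (k - 1) + 2 := by omega
    rw [e]
    exact (hEF4 β hβ (k - 1)).trans (Nat.mul_le_mul_right _ (by omega))

omit [CharP F 3] in
/-- the bound for one squarefree `W` -/
lemma one_W (hB0 : S_B0 F) (hB1 : S_IB1 F) (hF3 : S_IF3 F) (hF4 : S_IF4 F) (β : F)
    (hβ : ¬ IsSquare β) (g w : ℕ)
    (hw : w ≤ g + 1) (W : F[X]) (hW : W ∈ MON F w) :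
    ∑ f ∈ (MON F (2 * g + 2)).filter (fun f => W ^ 2 ∣ f), (solzB β f).card ≤
      3 ^ (Multiset.card (UniqueFactorizationMonoid.normalizedFactors W)) *
        (6 * Fintype.card F ^ (2 * g + 2 - 2 * w)) := by
  obtain ⟨hm, hd⟩ := (hB0.2.1 w W).1 hW
  have h3 := hF3 β hβ (2 * g + 2) w W hm hd (by omega)
  calc ∑ f ∈ (MON F (2 * g + 2)).filter (fun f => W ^ 2 ∣ f), (solzB β f).card
      ≤ ∑ f ∈ (MON F (2 * g + 2)).filter (fun f => W ^ 2 ∣ f), (solB β f).card :=
        Finset.sum_le_sum (fun f _ => solz_le hB1 β hβ f)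
    _ ≤ 3 ^ (Multiset.card (UniqueFactorizationMonoid.normalizedFactors W)) *
          ∑ f₁ ∈ MON F (2 * g + 2 - 2 * w), (solB β f₁).card := h3
    _ ≤ _ := Nat.mul_le_mul_left _ (small_sum hB0 hB1 hF4 β hβ _ ⟨g + 1 - w, by omega⟩)

omit [CharP F 3] in
/-- the bound for one degree `w` -/
lemma one_w (hB0 : S_B0 F) (hB1 : S_IB1 F) (hTA : S_TA F) (hF3 : S_IF3 F) (hF4 : S_IF4 F)
    (β : F) (hβ : ¬ IsSquare β) (g w : ℕ)
    (hw : w ≤ g + 1) :
    ∑ W ∈ (MON F w).filter (fun W => Squarefree W),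
      ∑ f ∈ (MON F (2 * g + 2)).filter (fun f => W ^ 2 ∣ f), (solzB β f).card ≤
      (w + 1) ^ 2 * Fintype.card F ^ w * (6 * Fintype.card F ^ (2 * g + 2 - 2 * w)) := by
  calc _ ≤ ∑ W ∈ (MON F w).filter (fun W => Squarefree W),
        3 ^ (Multiset.card (UniqueFactorizationMonoid.normalizedFactors W)) *
        (6 * Fintype.card F ^ (2 * g + 2 - 2 * w)) :=
        Finset.sum_le_sum (fun W hW => one_W hB0 hB1 hF3 hF4 β hβ g w hw W (Finset.mem_filter.1 hW).1)
    _ = (∑ W ∈ (MON F w).filter (fun W => Squarefree W),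
        3 ^ (Multiset.card (UniqueFactorizationMonoid.normalizedFactors W))) *
        (6 * Fintype.card F ^ (2 * g + 2 - 2 * w)) := by rw [Finset.sum_mul]
    _ ≤ _ := Nat.mul_le_mul_right _ (hTA.2 w)

omit [CharP F 3] in
/-- the same with the Moebius function, over the reals -/
lemma one_w_real (hB0 : S_B0 F) (hB1 : S_IB1 F) (hTA : S_TA F) (hF3 : S_IF3 F) (hF4 : S_IF4 F)
    (β : F) (hβ : ¬ IsSquare β) (g w : ℕ) (hw : w ≤ g + 1) :
    |∑ W ∈ MON F w,
      mu W * ∑ f ∈ (MON F (2 * g + 2)).filter (fun f => W ^ 2 ∣ f), ((solzB β f).card : ℝ)| ≤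
      ((w : ℝ) + 1) ^ 2 * qq F ^ w * (6 * qq F ^ (2 * g + 2 - 2 * w)) := by
  have h0 : ∀ W : F[X],
      0 ≤ ∑ f ∈ (MON F (2 * g + 2)).filter (fun f => W ^ 2 ∣ f), ((solzB β f).card : ℝ) :=
    fun W => Finset.sum_nonneg (fun f _ => Nat.cast_nonneg _)
  calc |∑ W ∈ MON F w,
      mu W * ∑ f ∈ (MON F (2 * g + 2)).filter (fun f => W ^ 2 ∣ f), ((solzB β f).card : ℝ)|
      ≤ ∑ W ∈ MON F w, |mu W *
          ∑ f ∈ (MON F (2 * g + 2)).filter (fun f => W ^ 2 ∣ f), ((solzB β f).card : ℝ)| :=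
        Finset.abs_sum_le_sum_abs _ _
    _ ≤ ∑ W ∈ MON F w, (if Squarefree W then
          ∑ f ∈ (MON F (2 * g + 2)).filter (fun f => W ^ 2 ∣ f), ((solzB β f).card : ℝ) else 0) := by
        refine Finset.sum_le_sum (fun W _ => ?_)
        rw [abs_mul, abs_of_nonneg (h0 W)]
        have h1 := abs_mu_le W
        have h2 := mul_le_mul_of_nonneg_right h1 (h0 W)
        refine h2.trans (le_of_eq ?_)
        split_ifs
        · rw [one_mul]
        · rw [zero_mul]
    _ = ∑ W ∈ (MON F w).filter (fun W => Squarefree W),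
          ∑ f ∈ (MON F (2 * g + 2)).filter (fun f => W ^ 2 ∣ f), ((solzB β f).card : ℝ) := by
        rw [Finset.sum_filter]
    _ ≤ _ := by
        have h := one_w hB0 hB1 hTA hF3 hF4 β hβ g w hw
        have h' : ((∑ W ∈ (MON F w).filter (fun W => Squarefree W),
            ∑ f ∈ (MON F (2 * g + 2)).filter (fun f => W ^ 2 ∣ f), (solzB β f).card : ℕ) : ℝ) ≤
            (((w + 1) ^ 2 * Fintype.card F ^ w * (6 * Fintype.card F ^ (2 * g + 2 - 2 * w)) : ℕ) : ℝ) := by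
          exact_mod_cast h
        push_cast at h'
        unfold qq
        exact h'

omit [CharP F 3] in
lemma one_le_qq : (1 : ℝ) ≤ qq F := by
  unfold qq
  exact_mod_cast (Fintype.card_pos : 0 < Fintype.card F)

end

end XIF6

open XIF6 in
theorem p_IF6 (F : Type) [Field F] [Fintype F] [CharP F 3] (hB0 : S_B0 F) (hB1 : S_IB1 F)
    (hTA : S_TA F) (hF3 : S_IF3 F) (hF4 : S_IF4 F) : S_IF6 F := by
  intro β hβ g z hz
  have hq : (1 : ℝ) ≤ qq F := one_le_qq
  have hq0 : (0 : ℝ) < qq F := lt_of_lt_of_le one_pos hq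
  have key : ∀ w ∈ (Finset.range (g + 2)).filter (fun w => z < w),
      |∑ W ∈ MON F w,
        mu W * ∑ f ∈ (MON F (2 * g + 2)).filter (fun f => W ^ 2 ∣ f), ((solzB β f).card : ℝ)| ≤
        6 * ((g : ℝ) + 2) ^ 2 * (qq F ^ (2 * g + 2) / qq F ^ z) := by
    intro w hw
    rw [Finset.mem_filter, Finset.mem_range] at hw
    obtain ⟨hwg, hzw⟩ := hw
    have hwg' : w ≤ g + 1 := by omega
    refine (one_w_real hB0 hB1 hTA hF3 hF4 β hβ g w hwg').trans ?_
    have h1 : ((w : ℝ) + 1) ^ 2 ≤ ((g : ℝ) + 2) ^ 2 := by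
      have : (w : ℝ) ≤ g + 1 := by exact_mod_cast hwg'
      have hw0 : (0 : ℝ) ≤ w := Nat.cast_nonneg _
      exact pow_le_pow_left₀ (by linarith) (by linarith) 2
    have h2 : qq F ^ w * qq F ^ (2 * g + 2 - 2 * w) ≤ qq F ^ (2 * g + 2) / qq F ^ z := by
      rw [le_div_iff₀ (pow_pos hq0 _), ← pow_add, ← pow_add]
      exact pow_le_pow_right₀ hq (by omega)
    calc ((w : ℝ) + 1) ^ 2 * qq F ^ w * (6 * qq F ^ (2 * g + 2 - 2 * w))
        = (6 * ((w : ℝ) + 1) ^ 2) * (qq F ^ w * qq F ^ (2 * g + 2 - 2 * w)) := by ring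
      _ ≤ (6 * ((g : ℝ) + 2) ^ 2) * (qq F ^ (2 * g + 2) / qq F ^ z) := by
          refine mul_le_mul ?_ h2 ?_ ?_
          · linarith
          · exact mul_nonneg (pow_nonneg hq0.le _) (pow_nonneg hq0.le _)
          · positivity
  calc |∑ w ∈ (Finset.range (g + 2)).filter (fun w => z < w), ∑ W ∈ MON F w,
      mu W * ∑ f ∈ (MON F (2 * g + 2)).filter (fun f => W ^ 2 ∣ f), ((solzB β f).card : ℝ)|
      ≤ ∑ w ∈ (Finset.range (g + 2)).filter (fun w => z < w), |∑ W ∈ MON F w,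
          mu W * ∑ f ∈ (MON F (2 * g + 2)).filter (fun f => W ^ 2 ∣ f), ((solzB β f).card : ℝ)| :=
        Finset.abs_sum_le_sum_abs _ _
    _ ≤ ∑ _w ∈ (Finset.range (g + 2)).filter (fun w => z < w),
          6 * ((g : ℝ) + 2) ^ 2 * (qq F ^ (2 * g + 2) / qq F ^ z) := Finset.sum_le_sum key
    _ = (((Finset.range (g + 2)).filter (fun w => z < w)).card : ℝ) *
          (6 * ((g : ℝ) + 2) ^ 2 * (qq F ^ (2 * g + 2) / qq F ^ z)) := by
        rw [Finset.sum_const, nsmul_eq_mul]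
    _ ≤ ((g : ℝ) + 2) * (6 * ((g : ℝ) + 2) ^ 2 * (qq F ^ (2 * g + 2) / qq F ^ z)) := by
        refine mul_le_mul_of_nonneg_right ?_ (by positivity)
        have h := Finset.card_filter_le (Finset.range (g + 2)) (fun w => z < w)
        rw [Finset.card_range] at h
        exact_mod_cast h
    _ = 6 * (g + 2) ^ 3 * qq F ^ (2 * g + 2) / qq F ^ z := by ring

end DH
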