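import Pool.Agent.H463.DH.Stm4

/-! Transport of the counts along an isomorphism of the constant fields. -/

open Polynomial
open scoped Classical

noncomputable section

namespace DH

variable {F F' : Type} [Field F] [Fintype F] [CharP F 3] [Field F'] [Fintype F'] [CharP F' 3]

theorem isSol_map (e : F ≃+* F') (f v : F[X]) :
    IsSol (mapEquiv e f) (mapEquiv e v) ↔ IsSol f v := by
  unfold IsSol
  have h1 : derivative (derivative (mapEquiv e f * mapEquiv e v)) =
      mapEquiv e (derivative (derivative (f * v))) := by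
    rw [← map_mul]
    simp only [mapEquiv_apply, derivative_map]
  rw [h1, show - (mapEquiv e v) ^ 3 = mapEquiv e (- v ^ 3) by rw [map_neg, map_pow]]
  exact (mapEquiv e).injective.eq_iff

theorem sol_card_map (hB1 : S_B1 F) (hB1' : S_B1 F') (e : F ≃+* F') (f : F[X]) :
    (sol (mapEquiv e f)).card = (sol f).card := by
  symm
  refine Finset.card_bij' (fun v _ => mapEquiv e v) (fun v _ => (mapEquiv e).symm v) ?_ ?_ ?_ ?_
  · intro v hv
    rw [hB1'.2.2.2.2.2.1, isSol_map]
    exact (hB1.2.2.2.2.2.1 f v).1 hv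
  · intro v hv
    rw [hB1.2.2.2.2.2.1, ← isSol_map e, RingEquiv.apply_symm_apply]
    exact (hB1'.2.2.2.2.2.1 _ v).1 hv
  · intro v _
    exact (mapEquiv e).symm_apply_apply v
  · intro v _
    exact (mapEquiv e).apply_symm_apply v

theorem mem_SQF_map (hB0 : S_B0 F) (hB0' : S_B0 F') (e : F ≃+* F') (n : ℕ) (f : F[X]) :
    mapEquiv e f ∈ SQF F' n ↔ f ∈ SQF F n := by
  unfold SQF
  rw [Finset.mem_filter, Finset.mem_filter, hB0.2.1, hB0'.2.1]
  have h1 : (mapEquiv e f).Monic ↔ f.Monic := by
    rw [mapEquiv_apply]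
    exact monic_map_iff
  have h2 : (mapEquiv e f).natDegree = f.natDegree := by
    rw [mapEquiv_apply]
    exact natDegree_map_eq_of_injective e.injective f
  have h3 : Squarefree (mapEquiv e f) ↔ Squarefree f := by
    constructor
    · intro h x hx
      have := h (mapEquiv e x) (by rw [← map_mul]; exact (_root_.map_dvd_iff (mapEquiv e)).2 hx)
      exact (MulEquiv.isUnit_map (mapEquiv e).toMulEquiv).1 this
    · intro h x hx
      obtain ⟨y, rfl⟩ := (mapEquiv e).surjective x
      rw [← map_mul] at hx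
      have h4 : y * y ∣ f := (_root_.map_dvd_iff (mapEquiv e)).1 hx
      exact (h y h4).map (mapEquiv e)
  rw [h1, h2, h3]

/-- The counts depend only on the isomorphism class of the field. -/
theorem iso_counts (hB0 : S_B0 F) (hB0' : S_B0 F') (hB1 : S_B1 F) (hB1' : S_B1 F')
    (hA9 : S_A9 F) (hA9' : S_A9 F') (e : F ≃+* F') (g : ℕ) :
    (SQF F (2 * g + 1)).card = (SQF F' (2 * g + 1)).card ∧
    ((SQF F (2 * g + 1)).filter (fun f => 1 < cl3 f)).card =
      ((SQF F' (2 * g + 1)).filter (fun f => 1 < cl3 f)).card := by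
  have hgood : ∀ f ∈ SQF F (2 * g + 1), Good f := by
    intro f hf
    unfold SQF at hf
    rw [Finset.mem_filter, hB0.2.1] at hf
    exact ⟨hf.1.1, hf.2, ⟨g, hf.1.2⟩⟩
  have hgood' : ∀ f ∈ SQF F' (2 * g + 1), Good f := by
    intro f hf
    unfold SQF at hf
    rw [Finset.mem_filter, hB0'.2.1] at hf
    exact ⟨hf.1.1, hf.2, ⟨g, hf.1.2⟩⟩
  have hcl : ∀ f ∈ SQF F (2 * g + 1), cl3 (mapEquiv e f) = cl3 f := by
    intro f hf
    rw [hA9 f (hgood f hf), hA9' _ (hgood' _ ((mem_SQF_map hB0 hB0' e _ f).2 hf)),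
      sol_card_map hB1 hB1' e]
  constructor
  · refine Finset.card_bij' (fun v _ => mapEquiv e v) (fun v _ => (mapEquiv e).symm v) ?_ ?_ ?_ ?_
    · intro f hf
      exact (mem_SQF_map hB0 hB0' e _ f).2 hf
    · intro f hf
      rw [← mem_SQF_map hB0 hB0' e, RingEquiv.apply_symm_apply]
      exact hf
    · intro v _
      exact (mapEquiv e).symm_apply_apply v
    · intro v _
      exact (mapEquiv e).apply_symm_apply v
  · refine Finset.card_bij' (fun v _ => mapEquiv e v) (fun v _ => (mapEquiv e).symm v) ?_ ?_ ?_ ?_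
    · intro f hf
      rw [Finset.mem_filter] at hf ⊢
      exact ⟨(mem_SQF_map hB0 hB0' e _ f).2 hf.1, by rw [hcl f hf.1]; exact hf.2⟩
    · intro f hf
      rw [Finset.mem_filter] at hf ⊢
      have h5 : (mapEquiv e).symm f ∈ SQF F (2 * g + 1) := by
        rw [← mem_SQF_map hB0 hB0' e, RingEquiv.apply_symm_apply]
        exact hf.1
      refine ⟨h5, ?_⟩
      rw [← hcl _ h5, RingEquiv.apply_symm_apply]
      exact hf.2
    · intro v _
      exact (mapEquiv e).symm_apply_apply v
    · intro v _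
      exact (mapEquiv e).apply_symm_apply v

end DH
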