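import Pool.Agent.H463.DH.Defs

/-!
# Class groups of quadratic function fields in characteristic 3: the statements (as `Prop`s) with paper proofs

Every board task is: prove `theorem DH.p_XX : S_XX F` (with the listed `S_..` as hypotheses where the docstring says so).
`F` is a finite field of characteristic 3 (so the Frobenius is surjective on `F`, and `3 = 0` in `F[X]`).
-/

open Polynomial
open scoped Classical

noncomputable section

namespace DH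

variable (F : Type) [Field F] [Fintype F] [CharP F 3]

/-! ## Part 0 : basic facts -/

/-- **B0a** (finite sets of polynomials). -/
def S_B0 : Prop :=
  (∀ n (g : F[X]), g ∈ POL F n ↔ g.degree < n) ∧
  (∀ n (f : F[X]), f ∈ MON F n ↔ f.Monic ∧ f.natDegree = n) ∧
  (∀ d (v : F[X]), v ∈ DEG F d ↔ v ≠ 0 ∧ v.natDegree = d) ∧
  (∀ n, (POL F n).card = Fintype.card F ^ n) ∧
  (∀ n, (MON F n).card = Fintype.card F ^ n) ∧
  (∀ d, (DEG F d).card = (Fintype.card F - 1) * Fintype.card F ^ d)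

/-- **B0b** Cubes and solutions.
(1) `G' = 0` iff `G` is a cube.  (2) `G'' = 0` iff `G = A ^ 3 + X * B ^ 3`.  (3) `G''' = 0` always.
(4) `#{G : deg G < M, G'' = 0} = q ^ NN M` (the coefficients of `X ^ j` with `j % 3 = 2` vanish, the others are free).
(5) if `v ≠ 0`, `(f v)'' = - v ^ 3`, then `2 deg v + 2 ≤ deg f` (degrees: `3 deg v ≤ deg f + deg v - 2`),
(6),(7) so `sol f`, `solz f` contain all (nonzero) solutions.  (8) `#sol f = #solz f + 1` (0 is a solution).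
(9) if moreover `deg f + deg v` is `2 mod 3` then `deg f = 2 deg v + 2` (then `(f v)''` has degree `deg f + deg v - 2` exactly). -/
def S_B1 : Prop :=
  (∀ G : F[X], derivative G = 0 ↔ ∃ A : F[X], G = A ^ 3) ∧
  (∀ G : F[X], derivative (derivative G) = 0 ↔ ∃ A B : F[X], G = A ^ 3 + X * B ^ 3) ∧
  (∀ G : F[X], derivative (derivative (derivative G)) = 0) ∧
  (∀ M, ((POL F M).filter (fun G => derivative (derivative G) = 0)).card = Fintype.card F ^ NN M) ∧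
  (∀ f v : F[X], v ≠ 0 → IsSol f v → 2 * v.natDegree + 2 ≤ f.natDegree) ∧
  (∀ f v : F[X], v ∈ sol f ↔ IsSol f v) ∧
  (∀ f v : F[X], v ∈ solz f ↔ v ≠ 0 ∧ IsSol f v) ∧
  (∀ f : F[X], (sol f).card = (solz f).card + 1) ∧
  (∀ f v : F[X], v ≠ 0 → IsSol f v → (f.natDegree + v.natDegree) % 3 = 2 → f.natDegree = 2 * v.natDegree + 2)

/-! ## Part 1 : the class group.  `O = OO f`, `δ = dl f` -/

/-- **A1** `δ` is an additive derivation killing cubes, with `δ³ = - f'' δ`, and `δ (cc v x) = v δ x + v' s x`.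
Proof: coordinates and `ring`-like computations with `3 = 0`, `derivative`-rules, and `f''' = 0` (every third derivative
vanishes in characteristic 3).  For the cube: `δ(x³) = 3 x² δ x = 0` from Leibniz. -/
def S_A1 : Prop :=
  ∀ f : F[X],
    (∀ x y : OO f, dl f (x + y) = dl f x + dl f y) ∧
    (∀ x y : OO f, dl f (x * y) = x * dl f y + y * dl f x) ∧
    (∀ x : OO f, dl f (x ^ 3) = 0) ∧
    (∀ x y : OO f, dl f (x ^ 3 * y) = x ^ 3 * dl f y) ∧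
    (∀ x : OO f, dl f (dl f (dl f x)) = - cc f (derivative (derivative f)) * dl f x) ∧
    (∀ v : F[X], dl f (cc f v) = ⟨0, derivative v⟩)

/-- **A2** For `f` monic of odd degree `O` is a domain, and its units are the nonzero constants.
Proof: for `x = a + b s` put `N x = a² - f b²`; it is multiplicative, and `deg a²` is even, `deg (f b²)` odd, so
`deg N x = max (2 deg a) (deg f + 2 deg b)` and `N x = 0` only for `x = 0`; if `x` is a unit `N x` is a nonzero constant,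
so `b = 0` and `a` is constant. -/
def S_A2 : Prop :=
  ∀ f : F[X], Good f → IsDomain (OO f) ∧ ∀ u : OO f, IsUnit u → ∃ a : F, a ≠ 0 ∧ u = cc f (C a)

/-- **A3** For `f` monic squarefree of odd degree `O` is a Dedekind domain.
Proof (one way): `K = QuadraticAlgebra (RatFunc F) f 0` is a field (`f` is not a square in `F(X)`: odd degree); `O` embeds in
`K` with fraction field `K`; an element `x = a + b s` of `K` integral over `F[X]` has `2a` and `a² - f b²` integral over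
`F[X]` (conjugation `a + b s ↦ a - b s` is an automorphism of `K` over `F[X]`), hence `a ∈ F[X]`, `f b² ∈ F[X]`, so
`b ∈ F[X]` as `f` is squarefree: `O` is the integral closure of `F[X]` in the finite separable extension `K / F(X)`, and
`IsIntegralClosure.isDedekindDomain` applies.  Any other proof is fine. -/
def S_A3 : Prop :=
  ∀ f : F[X], Good f → IsDedekindDomain (OO f)

/-- **A4** (uses A1, A2, B1) for `f` good: `δ x = 0` implies that `x` is a cube in `O`; and if `h₁, h₂ ≠ 0` have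
`h₁ δ h₂ = h₂ δ h₁` then `h₁ e ^ 3 = h₂ c ^ 3` for some `c, e ≠ 0`.
Proof: `x = a + b s`, `a' = 0` so `a = a₁ ^ 3`; `b' f = b f'` gives `(b f²)' = f (b' f + 2 b f') = f (b' f - b f') = 0`, so
`b f² = c ^ 3`, `f ∣ c` (squarefree), `c = f c₁`, `b = f c₁ ^ 3`, `b s = (c₁ s) ^ 3`, and `a₁ ^ 3 + (c₁ s) ^ 3 = (a₁ + c₁ s) ^ 3`.
Second part: `δ(h₁² h₂) = 2 h₁ h₂ δ h₁ + h₁² δ h₂ = 3 h₁ h₂ δ h₁ = 0`, so `h₁² h₂ = c ^ 3`, `c ≠ 0`, and
`h₂ h₁ ^ 3 = h₁ c ^ 3`; so take `e := c` and `c := h₁`. -/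
def S_A4 : Prop :=
  ∀ f : F[X], Good f →
    (∀ x : OO f, dl f x = 0 → ∃ y : OO f, x = y ^ 3) ∧
    (∀ h₁ h₂ : OO f, h₁ ≠ 0 → h₂ ≠ 0 → h₁ * dl f h₂ = h₂ * dl f h₁ →
      ∃ c e : OO f, c ≠ 0 ∧ e ≠ 0 ∧ h₁ * e ^ 3 = h₂ * c ^ 3)

/-- **A5** (uses A1, A2, B1) for `f` good every maximal ideal `Q` of `O` contains `π` with `δ π ∉ Q`.
Proof: `Q` contains a nonzero polynomial (`Q ≠ 0` since `O` is not a field, `cc X` is not a unit by A2; take `x ≠ 0` in `Q`,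
its norm `x * conj x = cc (a² - f b²)` is in `Q`).  Let `P ≠ 0` be a polynomial of minimal degree with `cc P ∈ Q`.
If `P' = 0` then `P = R ^ 3`, `cc R ∈ Q` (prime), `deg R < deg P` unless `P` is constant, i.e. a unit: contradiction.
So `P' ≠ 0` has smaller degree and `cc P' ∉ Q`.  If `s ∉ Q` then `δ (cc P) = P' s ∉ Q`: take `π = P`.
If `s ∈ Q` then `f = s² ∈ Q` and `δ s = - f'`; if `f' ∈ Q` too then `1 ∈ Q` because `f` squarefree and `F` perfect give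
`IsCoprime f f'`; so take `π = s`. -/
def S_A5 : Prop :=
  ∀ f : F[X], Good f → ∀ Q : Ideal (OO f), Q.IsMaximal → ∃ π : OO f, π ∈ Q ∧ dl f π ∉ Q

/-- **A6** (uses A1, A5) for `f` good and `(f v)'' = - v ^ 3` the elements `h` with `δ h = v h` generate the unit ideal.
Proof: `T x = δ x - v x` satisfies `T³ = - f'' T` (from A1: `δ³ = - f'' δ`, so `T³ = - f'' δ - δ²(v) - v³`,
`δ² v = δ(v' s) = v'' f - v' f'`, and `(f v)'' = f'' v - f' v' + f v'' = - v³` in characteristic 3);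
also `T (f'' x) = f'' T x` as `δ (f'') = f''' s = 0`.
Hence `T ((T² + f'') x) = 0`, i.e. `(T² + f'') x` is in the set, for all `x`.  If the ideal were proper it would lie in a
maximal `Q`; take `π ∈ Q`, `δ π ∉ Q` (A5) and `x = π²`: `δ x = 2 π δ π`, `δ² x = 2 (δ π)² + 2 π δ² π`, so
`(T² + f'') x = δ² x - 2 v δ x - (δ v) x + v² x + f'' x ≡ 2 (δ π)²` mod `Q`, not in `Q` (`2 = -1` is a unit): contradiction. -/
def S_A6 : Prop :=
  ∀ f : F[X], Good f → ∀ v : F[X], IsSol f v →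
    Ideal.span {h : OO f | dl f h = cc f v * h} = ⊤

/-- **A7** (uses A1, A2, A3, A4, A6) for `f` good and `(f v)'' = - v ^ 3` there are `h ≠ 0` with `δ h = v h` and an ideal
`I` with `I ^ 3 = (h)`.
Proof: by A6 write `1 = ∑ x_i m_i` (finite), `δ m_i = v m_i`; some `m_i ≠ 0`, call it `h₀`.  For every `i` with `m_i ≠ 0` A4
(second part: `h₀ δ m_i = v h₀ m_i = m_i δ h₀`) gives `m_i e_i ^ 3 = h₀ c_i ^ 3`, `e_i ≠ 0` (for `m_i = 0` take `c_i = 0`,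
`e_i = 1`); with `b = ∏ e_i ≠ 0` and `a_i = c_i ∏_{j ≠ i} e_j` we get `b ^ 3 m_i = h₀ a_i ^ 3`.  Let `J = (a_i)`.  Then
`(h₀) J ^ 3 = (b ^ 3)`: first `b ^ 3 = ∑ x_i b ^ 3 m_i = ∑ x_i h₀ a_i ^ 3 ∈ (h₀) J ^ 3`; second for generators
`(h₀ a_j a_k a_l) ^ 3 = (b ^ 3) ^ 3 m_j m_k m_l`, so `(b ^ 3) ^ 3 ∣ (h₀ a_j a_k a_l) ^ 3`, hence `b ^ 3 ∣ h₀ a_j a_k a_l` as `O`
is integrally closed (`IsIntegrallyClosed.pow_dvd_pow_iff`).  Finally `I := (b) (h₀) J ^ 2`, `h := h₀ b ^ 9`: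
`I ^ 3 = (b ^ 3 h₀) ((h₀) J ^ 3) ^ 2 = (b ^ 3 h₀ b ^ 6) = (h)` and `δ h = b ^ 9 δ h₀ = v h`. -/
def S_A7 : Prop :=
  ∀ f : F[X], Good f → ∀ v : F[X], IsSol f v →
    ∃ h : OO f, h ≠ 0 ∧ dl f h = cc f v * h ∧ ∃ I : Ideal (OO f), I ^ 3 = Ideal.span {h}

/-- **A8** (uses A1, A2) for `f` good, `h ≠ 0` and `I ^ 3 = (h)` there is `v` with `δ h = v h` and `(f v)'' = - v ^ 3`.
Proof: `h ∈ I ^ 3 = I * I ^ 2`, so `h = ∑ x_i y_i` (finite), `x_i ∈ I`, `y_i ∈ I ^ 2`; `x_i ^ 3 = h b_i`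
(`x_i ^ 3 ∈ I ^ 3 = (h)`) and `y_i ^ 3 = h² a_i` (`y_i ^ 3 ∈ I ^ 6 = (h²)`).
In characteristic 3 `h ^ 3 = ∑ x_i ^ 3 y_i ^ 3 = h ^ 3 ∑ a_i b_i`, so `∑ a_i b_i = 1`.  Apply `δ` to `y_i ^ 3 = h² a_i`:
`0 = 2 h (δ h) a_i + h² δ a_i`, so `h δ a_i = a_i δ h` (as `-2 = 1`, `h ≠ 0`, `O` a domain).
Hence `δ h = ∑ b_i a_i δ h = h w` with `w = ∑ b_i δ a_i`.
Write `w = α + β s`, `N = h * conj h = a² - f b² ∈ F[X]`, `N ≠ 0` (`conj (a + b s) = a - b s`, `δ (conj x) = - conj (δ x)`):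
`N' s = δ N = δ h conj h + h δ (conj h) = N (w - conj w) = 2 β s N`, so `N' = 2 β N` and `β = 0` by degrees.
So `δ h = v h`, `v = α`; `δ² h = (v' s + v²) h`, `δ³ h = (v'' f - v' f' + v³) h` and `δ³ h = - f'' δ h = - f'' v h`, so
`f v'' - f' v' + f'' v = - v³`, and the left side is `(f v)''` in characteristic 3. -/
def S_A8 : Prop :=
  ∀ f : F[X], Good f → ∀ h : OO f, h ≠ 0 → ∀ I : Ideal (OO f), I ^ 3 = Ideal.span {h} →
    ∃ v : F[X], IsSol f v ∧ dl f h = cc f v * h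

/-- **A9** (uses A1, A2, A3, A4, A7, A8, B1) for `f` good the number of ideal classes `c` with `c ^ 3 = 1` equals the number of
solutions `v` of `(f v)'' = - v ^ 3`.
Proof: use `ClassGroup.mk0`.  Relation `R v c`: there are `h ≠ 0`, `I` nonzero ideal, `I ^ 3 = (h)`, `δ h = v h`, class of `I`
is `c`.  Every solution `v` has some `c` (A7); `c` is unique: `h, I` and `h', I'` with the same `v` have `h δ h' = h' δ h`, so by A4
`h e ^ 3 = h' c ^ 3`, `(I (e)) ^ 3 = (I' (c)) ^ 3`, so `I (e) = I' (c)` (unique factorization of ideals) and the classes agree;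
`c ^ 3 = 1` clear.  Every `c` with `c ^ 3 = 1` has some solution `v`: `c = mk0 I`, `I ^ 3` principal, nonzero, A8.
`v` is unique: if `(x) I = (y) I'` with `x, y ≠ 0` then `(x ^ 3 h) = (y ^ 3 h')`, `x ^ 3 h = u y ^ 3 h'` with `u` a unit, a constant
by A2, so `δ u = 0`, and applying `δ`: `x ^ 3 v h = u y ^ 3 v' h' = v' x ^ 3 h`, so `v = v'`.  So `R` is a bijection. -/
def S_A9 : Prop :=
  ∀ f : F[X], Good f → cl3 f = (sol f).card

/-! ## Part 2 : polynomials `G` with `G'' = 0` in residue classes -/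

/-- **B2** (uses B0, B1) for `V ≠ 0` squarefree every residue class mod `V²` contains `A³ + X B³` with `deg A, deg B < deg V`;
and for `W ≠ 0` cube-free every residue class mod `W` contains `A³ + X B³` with `deg A, deg B ≤ deg W`.
Proof: the map `(A, B) ↦ A³ + X B³` mod `V²` on pairs of polynomials of degree `< deg V` is injective (it is additive; if
`V² ∣ A³ + X B³` then, differentiating, `V ∣ B³`, so `V ∣ B` (squarefree), `B = 0`, then `V² ∣ A³`, `V ∣ A³`, `V ∣ A`, `A = 0`) and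
both sides have `q ^ (2 deg V)` elements, so it is surjective.  For `W` cube-free take `V` = the product of the distinct
prime factors of `W` (the radical), `W ∣ V²`, `deg V ≤ deg W`; if `deg V = 0`, `W` is a unit and everything is trivial. -/
def S_B2 : Prop :=
  (∀ V r : F[X], V ≠ 0 → Squarefree V → ∃ A B : F[X], A.degree < V.degree ∧ B.degree < V.degree ∧
      V ^ 2 ∣ A ^ 3 + X * B ^ 3 - r) ∧
  (∀ W r : F[X], W ≠ 0 → CubeFree W → ∃ A B : F[X], A.natDegree ≤ W.natDegree ∧ B.natDegree ≤ W.natDegree ∧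
      W ∣ A ^ 3 + X * B ^ 3 - r)

/-- **DC** (uses B0) a subspace `K` of `F[X]`: the number of its elements of degree `< M` is `q` to the number of degrees `< M` of
nonzero elements of `K`.  Proof: induction on `M`: if no element has degree `M` nothing changes; otherwise fix `k ∈ K` of degree
`M`, and `(c, G) ↦ c k + G` is a bijection from `F × K_{<M}` to `K_{<M+1}`. -/
def S_DC : Prop :=
  ∀ (K : Submodule F F[X]) (M : ℕ),
    ((POL F M).filter (fun G => G ∈ K)).card =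
      Fintype.card F ^ ((Finset.range M).filter (fun j => ∃ G ∈ K, G ≠ 0 ∧ G.natDegree = j)).card

/-- **B3** (uses B0, B1, B2, DC) `W ≠ 0` cube-free of degree `D`.  In the `F[X³]`-module `K` of the `G` with `G'' = 0`, `W ∣ G`
(degrees of nonzero elements are `0` or `1` mod 3) there are elements `k₀, k₁` of minimal degrees `e₀ ≡ 0`, `e₁ ≡ 1` mod 3, and
`e₀ + e₁ = 3 D + 1`.
Proof: both classes occur (`W ^ 3` and `X W ^ 3`).  The degrees occurring are exactly `e₀ + 3 i`, `e₁ + 3 i` (multiply by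
`X ^ (3 i)`).  For `M` large (`M = 3 (D + e₀ + e₁ + 1)`, say) DC gives `#K_{<M} = q ^ a`, `a` = number of
`j < M` which are `e₀ + 3 i` or `e₁ + 3 i`, and B1(4), B2 give `#K_{<M} = q ^ (NN M - D)` (the additive map `G ↦ G mod W` from
`{deg G < M, G'' = 0}` onto the `q ^ D` residue classes, kernel `K_{<M}`).  So `NN M - a = D`, and
`NN M - a` counts the `j ≡ 0`, `j < e₀` and the `j ≡ 1`, `j < e₁`: it is `e₀ / 3 + (e₁ - 1) / 3 = (e₀ + e₁ - 1) / 3`. -/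
def S_B3 : Prop :=
  ∀ W : F[X], W ≠ 0 → CubeFree W → ∃ k₀ k₁ : F[X],
    derivative (derivative k₀) = 0 ∧ derivative (derivative k₁) = 0 ∧ W ∣ k₀ ∧ W ∣ k₁ ∧ k₀ ≠ 0 ∧ k₁ ≠ 0 ∧
    k₀.natDegree % 3 = 0 ∧ k₁.natDegree % 3 = 1 ∧ k₀.natDegree + k₁.natDegree = 3 * W.natDegree + 1 ∧
    (∀ G : F[X], G ≠ 0 → derivative (derivative G) = 0 → W ∣ G →
      (G.natDegree % 3 = 0 ∧ k₀.natDegree ≤ G.natDegree) ∨ (G.natDegree % 3 = 1 ∧ k₁.natDegree ≤ G.natDegree))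

/-- **B4** (uses B0, B1, B2, B3) `W ≠ 0` cube-free of degree `D`, `j ≥ 2 D + 1`, `j % 3 ≠ 2`, `a ≠ 0`, any `r`: the number of `G` with
`G'' = 0`, degree exactly `j`, leading coefficient `a`, `W ∣ G - r` is `q ^ (NN j - D)` (`D ≤ NN j`).
Proof: in B3 `e₀, e₁ ≥ D` (as `W ∣ k_i ≠ 0`) so `e₀, e₁ ≤ 2 D + 1`: every degree `≥ 2 D + 1` which is not `2` mod 3 is the
degree of an element of `K = {G : G'' = 0, W ∣ G}` (with any leading coefficient).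
By B2 there is `G₀`, `G₀'' = 0`, `W ∣ G₀ - r`; subtracting elements of `K` we may assume `deg G₀ ≤ 2 D`
(the leading exponent of a polynomial with `G'' = 0` is never `2` mod 3), so every residue class mod `W` contains such an element:
the additive map `{deg G < j, G'' = 0} → F[X]/W` is onto, its kernel `K_{<j}` has `q ^ (NN j) / q ^ D` elements; and with a fixed
`k ∈ K` of degree `j` and leading coefficient `a` the set in question is `k + G₀ + K_{<j}`. -/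
def S_B4 : Prop :=
  ∀ W : F[X], W ≠ 0 → CubeFree W → ∀ j : ℕ, 2 * W.natDegree + 1 ≤ j → j % 3 ≠ 2 → ∀ a : F, a ≠ 0 → ∀ r : F[X],
    W.natDegree ≤ NN j ∧
    ((POL F (j + 1)).filter (fun G => derivative (derivative G) = 0 ∧ G.coeff j = a ∧ W ∣ G - r)).card =
      Fintype.card F ^ (NN j - W.natDegree)

/-- **CP** the cube part: for `U ≠ 0` `cpart U` is the largest monic `c` with `c³ ∣ U`: `IsCpart U (cpart U)`; the cofactor of
`(cpart U)³` is cube-free; and for `W` squarefree, `v ≠ 0`: `cpart (W² v) ∣ v`.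
Proof: unique factorization: `c = ∏ P ^ ⌊v_P(U) / 3⌋`.  If `U = c³ W₁` and `b³ ∣ W₁` then `(c b)³ ∣ U`, `c b ∣ c`, `b` unit.
Last: `c³ ∣ W² v`; for every prime `P`, `e = v_P(c) ≥ 1`: `3 e ≤ 2 v_P(W) + v_P(v) ≤ 2 + v_P(v)`, so `v_P(v) ≥ 3 e - 2 ≥ e`. -/
def S_CP : Prop :=
  (∀ U : F[X], U ≠ 0 → IsCpart U (cpart U)) ∧
  (∀ U W₁ : F[X], U ≠ 0 → U = (cpart U) ^ 3 * W₁ → CubeFree W₁) ∧
  (∀ W v : F[X], Squarefree W → v ≠ 0 → cpart (W ^ 2 * v) ∣ v)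

/-- **B5** (uses B0, B1, B4, CP) the number of monic `f` of degree `n` with `W² ∣ f` and `(f v)'' = - v³`.
Proof: `U = W² v`.  `f ↦ F₀ = f v` is a bijection to the `F₀` of degree `n + d`, leading coefficient that of `v`, with `U ∣ F₀`
and `F₀'' = - v³`; `F₀ = G + X² v³` with `G'' = 0` (because `(X² v³)'' = 2 v³ = - v³`), and `deg (X² v³) = 3 d + 2 < n + d`,
so `G` has degree `n + d` and the leading coefficient of `v`.  In particular `(n + d) % 3 ≠ 2` or there is none.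
The condition is `U ∣ G + X² v³`.  Let `c = cpart U`, `U = c³ W₁`, `W₁` cube-free, `c ∣ v`, so `c³ ∣ v³`, `c³ ∣ G`,
`G = c³ G₁`, `G₁'' = 0`, and the condition becomes `W₁ ∣ G₁ + X² (v/c)³`.  Now apply B4 with `W₁` of degree
`D = 2 w + d - 3 deg c`, `j = n + d - 3 deg c ≥ 2 D + 1`, and `NN (n + d) = NN j + 2 deg c`. -/
def S_B5 : Prop :=
  ∀ (n d : ℕ) (W v : F[X]), W.Monic → Squarefree W → v ≠ 0 → v.natDegree = d → 2 * d + 3 ≤ n →
    2 * (2 * W.natDegree + d) + 1 ≤ n + d →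
    (cnt n W v : ℝ) = if (n + d) % 3 = 2 then 0 else
      qq F ^ (NN (n + d)) * qq F ^ ((cpart (W ^ 2 * v)).natDegree) / qq F ^ (2 * W.natDegree + d)

/-! ## Part 3 : arithmetic functions -/

/-- **PH** (uses B0) `∑_{b ∣ c, b monic} φ(b) = q ^ deg c` for `c` monic; `φ(b) ≤ q ^ deg b`, `φ(1) = 1`; and so, by CP, for `U ≠ 0`
`∑_{b monic, b³ ∣ U} φ(b) = q ^ deg (cpart U)` (uses CP).
Proof: the `a` with `deg a < deg c` are classified by `g = gcd (a, c)` (monic), `a = g a'`, `c = g b`, `deg a' < deg b`,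
`a'` coprime to `b`.  `b³ ∣ U` iff `b ∣ cpart U`.  (`U.natDegree` is an upper bound for the degrees of the `b`.) -/
def S_PH : Prop :=
  (∀ c : F[X], c.Monic → ∑ k ∈ Finset.range (c.natDegree + 1), ∑ b ∈ (MON F k).filter (fun b => b ∣ c), phi b =
      Fintype.card F ^ c.natDegree) ∧
  (∀ b : F[X], phi b ≤ Fintype.card F ^ b.natDegree) ∧ (phi (1 : F[X]) = 1) ∧
  (∀ (U : F[X]) (m : ℕ), U ≠ 0 → U.natDegree ≤ m →
    ∑ k ∈ Finset.range (m + 1), ∑ b ∈ (MON F k).filter (fun b => b ^ 3 ∣ U), phi b =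
      Fintype.card F ^ (cpart U).natDegree)

/-- **MU** (uses B0) Moebius function.  (1) `|mu W| ≤ 1`, `mu 1 = 1`; (2) `mu (a w) = mu a * mu w` for coprime `a, w` (nonzero);
(3) `∑_{W monic, W² ∣ f} mu W = [f squarefree]` for `f` monic of degree `n` (all `W` have degree `≤ n`);
(4) `∑_{a monic, a ∣ b} mu a = [b = 1]` for `b` monic of degree `≤ m`;
(5) `∑_{W monic of degree w} mu W = 1, - q, 0` for `w = 0, 1, ≥ 2` (sum (4) over all monic `b` of degree `k`).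
Proof of (3), (4): the `W` with `mu W ≠ 0` are the products of subsets of the finite set of primes `P` with `P² ∣ f`
(resp. `P ∣ b`), and `∑_{T ⊆ S} (-1)^{#T} = [S = ∅]`. -/
def S_MU : Prop :=
  (∀ W : F[X], |mu W| ≤ 1) ∧ (mu (1 : F[X]) = 1) ∧
  (∀ a w : F[X], a ≠ 0 → w ≠ 0 → IsCoprime a w → mu (a * w) = mu a * mu w) ∧
  (∀ (n m : ℕ) (f : F[X]), f.Monic → f.natDegree = n → n ≤ 2 * m + 1 →
    ∑ w ∈ Finset.range (m + 1), ∑ W ∈ (MON F w).filter (fun W => W ^ 2 ∣ f), mu W = if Squarefree f then 1 else 0) ∧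
  (∀ (m : ℕ) (b : F[X]), b.Monic → b.natDegree ≤ m →
    ∑ w ∈ Finset.range (m + 1), ∑ a ∈ (MON F w).filter (fun a => a ∣ b), mu a = if b = 1 then 1 else 0) ∧
  (∀ w, ∑ W ∈ MON F w, mu W = if w = 0 then 1 else if w = 1 then - qq F else 0)

/-- **TA** (uses B0) divisor sums.  (1) `∑_{b monic of degree k} #{a monic, a ∣ b} = (k + 1) q ^ k` (pairs `(a, b / a)`);
(2) `∑_{W monic squarefree of degree w} 3 ^ Ω(W) ≤ (w + 1)² q ^ w`: a squarefree `W` has `3 ^ Ω(W)` ordered factorizations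
`W = A B C` (monic), and there are `(w + 1)(w + 2)/2 q ^ w ≤ (w + 1)² q ^ w` triples of monic `A, B, C` with `deg (A B C) = w`. -/
def S_TA : Prop :=
  (∀ k m : ℕ, k ≤ m → ∑ b ∈ MON F k, (∑ j ∈ Finset.range (m + 1), ((MON F j).filter (fun a => a ∣ b)).card) =
      (k + 1) * Fintype.card F ^ k) ∧
  (∀ w, ∑ W ∈ (MON F w).filter (fun W => Squarefree W),
      3 ^ (Multiset.card (UniqueFactorizationMonoid.normalizedFactors W)) ≤ (w + 1) ^ 2 * Fintype.card F ^ w)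

/-- the partial sums `K_b(m) = ∑_{w ≤ m} ∑_{W monic of degree w, coprime to b} mu W q^{-2w}` -/
def Kb (b : F[X]) (m : ℤ) : ℝ :=
  ∑ w ∈ (Finset.range (m.toNat + 1)).filter (fun w : ℕ => (w : ℤ) ≤ m),
    ∑ W ∈ (MON F w).filter (fun W => IsCoprime W b), mu W / qq F ^ (2 * w)

/-- **KB** (uses B0, MU) `|K_b(m)| ≤ 2`; `|K_b(z - a) - K_b(z)| ≤ 2 q^{a - z}` for natural numbers `a, z`; `K_1(z) = 1 - 1/q` for `z ≥ 1`.
Proof: the degree `w` part is at most `q^{-w}` in absolute value; `∑_{w ≥ 0} q^{-w} ≤ 3/2 ≤ 2`,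
`∑_{w > z - a} q^{-w} ≤ q^{-(z-a)}` if `a ≤ z`, and for `a > z` the first is an empty sum, `|K_b(z)| ≤ 2`.  Last: MU (5). -/
def S_KB : Prop :=
  (∀ (b : F[X]) (m : ℤ), |Kb F b m| ≤ 2) ∧
  (∀ (b : F[X]) (z a : ℕ), |Kb F b ((z : ℤ) - a) - Kb F b z| ≤ 2 * qq F ^ a / qq F ^ z) ∧
  (∀ z : ℕ, 1 ≤ z → Kb F 1 z = 1 - 1 / qq F)

/-- **L3** (uses B0) (1) `W = a W₁` squarefree, `b = a b₁`, `W₁` coprime to `b`: `b³ ∣ W² v` iff `a b₁³ ∣ v`.
(2) the number of `v` of degree `d` divisible by a monic `m` of degree `k` is `(q - 1) q ^ (d - k)` if `k ≤ d`, else `0`.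
Proof of (1): `a³ b₁³ ∣ a² W₁² v` iff `a b₁³ ∣ W₁² v` iff `a b₁³ ∣ v`, as `W₁` is coprime to `a b₁³`. -/
def S_L3 : Prop :=
  (∀ a b₁ W₁ v : F[X], a ≠ 0 → IsCoprime W₁ (a * b₁) →
    ((a * b₁) ^ 3 ∣ (a * W₁) ^ 2 * v ↔ a * b₁ ^ 3 ∣ v)) ∧
  (∀ (m : F[X]) (d : ℕ), m.Monic →
    ((DEG F d).filter (fun v => m ∣ v)).card =
      if m.natDegree ≤ d then (Fintype.card F - 1) * Fintype.card F ^ (d - m.natDegree) else 0)

/-- **SW** (uses B0, MU) for `b` monic and any `g : F[X] → ℝ` (a function of the divisor `a`): the sum over monic `W` of degree `≤ z`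
of `mu W q^{-2 deg W} g(gcd(b, W))` equals `∑_{a ∣ b} g(a) mu a q^{-2 deg a} K_b(z - deg a)`.  Here the gcd condition is written
`W = a W₁`, `a ∣ b`, `W₁` coprime to `b`.  `g'` is any function of `W` with `g' (a W₁) = g a` in that situation.
Proof: a squarefree monic `W` is uniquely `a W₁` with `a ∣ b` monic and `W₁` monic coprime to `b` (`a = gcd (b, W)`), then
`mu W = mu a mu W₁`; both sides are supported on squarefree `a`, `W₁`.  (`m` is an upper bound for `deg b`.) -/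
def S_SW : Prop :=
  ∀ (b : F[X]) (z m : ℕ) (g g' : F[X] → ℝ), b.Monic → b.natDegree ≤ m →
    (∀ a W₁ : F[X], a.Monic → W₁.Monic → a ∣ b → IsCoprime W₁ b → g' (a * W₁) = g a) →
    ∑ w ∈ Finset.range (z + 1), ∑ W ∈ MON F w, mu W / qq F ^ (2 * w) * g' W =
      ∑ k ∈ Finset.range (m + 1), ∑ a ∈ (MON F k).filter (fun a => a ∣ b),
        g a * mu a / qq F ^ (2 * k) * Kb F b ((z : ℤ) - k)

/-- The weighted sum of the first moment. -/
def Md (d z : ℕ) : ℝ :=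
  ∑ w ∈ Finset.range (z + 1), ∑ W ∈ MON F w,
    mu W / qq F ^ (2 * w + d) * ∑ v ∈ DEG F d, qq F ^ (cpart (W ^ 2 * v)).natDegree

/-- **ME1** (uses B0, PH, CP, L3, SW, MU) exact formula:
`M_d = (q-1) ∑_{b monic, deg b ≤ d} φ(b) q^{-3 deg b} ∑_{a ∣ b monic, 3 deg b ≤ d + 2 deg a} mu a K_b(z - deg a)`.
Proof: `q^{deg cpart(W² v)} = ∑_{b³ ∣ W² v} φ(b)` (PH; for squarefree `W`, the only ones that matter).  Swap sums: for fixed `b` and
squarefree `W` with `a = gcd (b, W)` (`b = a b₁`, `W = a W₁`, `W₁` coprime to `b` as `W` is squarefree)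
`#{v of degree d : b³ ∣ W² v} = (q-1) q^{d - 3 deg b + 2 deg a}` if `3 deg b ≤ d + 2 deg a`, else `0` (L3; in particular it is `0`
if `deg b > d`).  Then SW with `g a = [3 deg b ≤ d + 2 deg a] (q-1) q^{2 deg a - 3 deg b}`, where `q^{2 deg a}` cancels. -/
def S_ME1 : Prop :=
  ∀ d z : ℕ, Md F d z = (qq F - 1) * ∑ k ∈ Finset.range (d + 1), ∑ b ∈ MON F k,
    (phi b : ℝ) / qq F ^ (3 * k) *
      ∑ j ∈ (Finset.range (k + 1)).filter (fun j => 3 * k ≤ d + 2 * j),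
        ∑ a ∈ (MON F j).filter (fun a => a ∣ b), mu a * Kb F b ((z : ℤ) - j)

/-- **ME2** (uses B0, MU, KB, TA, PH, ME1) `|M_d - (q-1)(1 - 1/q)| ≤ 8 q (d+1)² (q^{-z} + q^{-⌊d/3⌋})` for `z ≥ 1`.
Proof: in ME1 replace `K_b(z - deg a)` by `K_b(z)`: error at most
`(q-1) ∑_{k ≤ d} ∑_{b ∈ MON k} q^{-2k} ∑_{a ∣ b} 2 q^{k - z} ≤ (q-1) ∑_{k ≤ d} 2 (k+1) q^{-z} ≤ 2 (q-1) (d+1)² q^{-z}` (`φ(b) ≤ q^k`,
TA (1)).  For `b` with `3 deg b ≤ d` the inner condition is empty and `∑_{a ∣ b} mu a = [b = 1]`: only `b = 1` remains, giving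
`K_1(z) = 1 - 1/q`.  For `b` with `3 deg b > d` bound trivially: `∑_{k > d/3, k ≤ d} q^{-2k} · 2 · (k+1) q^k ≤ 2 (d+1)² q^{-⌊d/3⌋}`. -/
def S_ME2 : Prop :=
  ∀ d z : ℕ, 1 ≤ z →
    |Md F d z - (qq F - 1) * (1 - 1 / qq F)| ≤ 8 * qq F * (d + 1) ^ 2 * (1 / qq F ^ z + 1 / qq F ^ (d / 3))

/-! ## Part 4 : the first moment -/

/-- **F1** (uses B0, B1) `∑_{f monic of degree 2g+1, W² ∣ f} #solz f = ∑_{d < g} ∑_{v of degree d} cnt (2g+1) W v` (swap sums; degrees of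
nonzero solutions are `≤ g - 1` by B1 (5)). -/
def S_F1 : Prop :=
  ∀ (g : ℕ) (W : F[X]), ∑ f ∈ (MON F (2 * g + 1)).filter (fun f => W ^ 2 ∣ f), (solz f).card =
    ∑ d ∈ Finset.range g, ∑ v ∈ DEG F d, cnt (2 * g + 1) W v

/-- **F2** (uses B0, B1) for `P` irreducible and `f ≠ 0`: `#sol (P² f) ≤ 3 #sol f`.
Proof: `sol (P² f)` is an additive group (`v ↦ (P² f v)'' + v³` is additive).  The solutions divisible by `P`, `v = P v₁`, correspond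
to `v₁ ∈ sol f` (`(P³ f v₁)'' = P³ (f v₁)''`).  Two solutions of `P² f` congruent mod `P` differ by one divisible by `P`,
so it is enough that the solutions fall into at most 3 classes mod `P`: mod `P`, `(P² f v)'' ≡ 2 (P')² f v = - (P')² f v`, so
`v³ ≡ (P')² f v`, i.e. `v ≡ 0` or `v² ≡ (P')² f` mod `P` (`P` prime), and `v² ≡ c` has at most 2 solutions mod the prime `P`. -/
def S_F2 : Prop :=
  ∀ P f : F[X], Irreducible P → f ≠ 0 → (sol (P ^ 2 * f)).card ≤ 3 * (sol f).card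

/-- **F3** (uses B0, F2) `#sol (W² f) ≤ 3 ^ Ω(W) #sol f` for `W` monic, `f ≠ 0` (induction over the normalized factors), and so
`∑_{f ∈ MON n, W² ∣ f} #sol f ≤ 3 ^ Ω(W) ∑_{f₁ ∈ MON (n - 2w)} #sol f₁` for `W` monic of degree `w`, `2 w ≤ n`. -/
def S_F3 : Prop :=
  ∀ (n w : ℕ) (W : F[X]), W.Monic → W.natDegree = w → 2 * w ≤ n →
    ∑ f ∈ (MON F n).filter (fun f => W ^ 2 ∣ f), (sol f).card ≤
      3 ^ (Multiset.card (UniqueFactorizationMonoid.normalizedFactors W)) * ∑ f₁ ∈ MON F (n - 2 * w), (sol f₁).card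

/-- **F4** (uses B0, B1, B5, CP, F1) `∑_{f ∈ MON (2g+1)} #sol f ≤ 3 q^{2g+1}`.
Proof: `#sol = #solz + 1`.  F1 with `W = 1` and B5 (`cnt ≤ q^{NN(n+d)} q^{deg cpart v - d}`, zero if `(n+d) % 3 = 2`; the conditions
`2 d + 3 ≤ n`, `2 d + 1 ≤ n + d` hold for `d ≤ g - 1`).  `∑_{v of degree d} q^{deg cpart v} ≤ ∑_{c monic, 3 deg c ≤ d} q^{deg c} #{v : c³ ∣ v}
≤ ∑_k q^k q^k (q-1) q^{d - 3k} ≤ q · q^d` (`k` = degree of `c`).  So the sum is at most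
`q ∑_{d < g, (n+d) % 3 ≠ 2} q^{NN (n+d)}`, and for `M = n + d ≤ 3 g` with `M % 3 ≠ 2` the numbers `NN M` are distinct and `≤ 2 g`:
at most `q ∑_{k ≤ 2g} q^k ≤ q · q^{2g+1}/(q-1) ≤ 2 q^{2g+1}`. -/
def S_F4 : Prop :=
  ∀ g : ℕ, ∑ f ∈ MON F (2 * g + 1), (sol f).card ≤ 3 * Fintype.card F ^ (2 * g + 1)

/-- **F5** (uses B0, MU) the sieve: for any `X : F[X] → ℝ`
`∑_{f ∈ MON n squarefree} X f = ∑_{w ≤ m} ∑_{W ∈ MON w} mu W ∑_{f ∈ MON n, W² ∣ f} X f` (`n ≤ 2 m + 1`);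
`#{f ∈ MON (2g+1) squarefree} = q^{2g+1} - q^{2g}` for `g ≥ 1`. -/
def S_F5 : Prop :=
  (∀ (n m : ℕ) (Y : F[X] → ℝ), n ≤ 2 * m + 1 → ∑ f ∈ SQF F n, Y f =
    ∑ w ∈ Finset.range (m + 1), ∑ W ∈ MON F w, mu W * ∑ f ∈ (MON F n).filter (fun f => W ^ 2 ∣ f), Y f) ∧
  (∀ g : ℕ, 1 ≤ g → ((SQF F (2 * g + 1)).card : ℝ) = qq F ^ (2 * g + 1) - qq F ^ (2 * g))

/-- **F6** (uses F5, F3, F4, TA, MU, B0, B1) the tail: for `z ≤ g`
`|∑_{z < w ≤ g} ∑_{W ∈ MON w} mu W ∑_{f ∈ MON n, W² ∣ f} #solz f| ≤ 3 (g+1)³ q^{n - z}`, `n = 2g+1`: each `w` gives at most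
`(w+1)² q^w · 3 q^{n - 2w} = 3 (w+1)² q^{n-w}`. -/
def S_F6 : Prop :=
  ∀ g z : ℕ, z ≤ g →
    |∑ w ∈ (Finset.range (g + 1)).filter (fun w => z < w), ∑ W ∈ MON F w,
      mu W * ∑ f ∈ (MON F (2 * g + 1)).filter (fun f => W ^ 2 ∣ f), ((solz f).card : ℝ)| ≤
      3 * (g + 1) ^ 3 * qq F ^ (2 * g + 1) / qq F ^ z

/-- **F7** (uses B0, B5, F1, MU) the main part: for `4 z ≤ g` and `n = 2g+1`
`∑_{w ≤ z} ∑_{W ∈ MON w} mu W ∑_{f ∈ MON n, W² ∣ f} #solz f = ∑_{d < g, (n+d) % 3 ≠ 2} q^{NN (n+d)} M_d`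
(B5 applies for squarefree `W` since `n + d - (4 w + 2 d + 1) = 2 g - d - 4 w ≥ 2 g - (g - 1) - g ≥ 0`; for other `W`, `mu W = 0`). -/
def S_F7 : Prop :=
  ∀ g z : ℕ, 4 * z ≤ g →
    ∑ w ∈ Finset.range (z + 1), ∑ W ∈ MON F w,
      mu W * ∑ f ∈ (MON F (2 * g + 1)).filter (fun f => W ^ 2 ∣ f), ((solz f).card : ℝ) =
    ∑ d ∈ (Finset.range g).filter (fun d => (2 * g + 1 + d) % 3 ≠ 2), qq F ^ (NN (2 * g + 1 + d)) * Md F d z

/-- **F8** (pure real analysis; `q ≥ 3` a natural number) the weights: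
(1) `∑_{d < g, (2g+1+d) % 3 ≠ 2} q^{NN (2g+1+d)} = (q^{2g+1} - q^{NN (2g+1)})/(q-1)`: when `M` runs over the `M < 3 g + 1` with
`M % 3 ≠ 2`, `NN M` runs over `0, 1, …, 2 g` once each, and `NN (2g+1)` of them come from `M < 2 g + 1`;
(2) `∑_{d < g} q^{NN (2g+1+d)} (d+1)² (q^{-z} + q^{-⌊d/3⌋}) ≤ 2 q² (g+1)³ q^{2g+1} / q^z` for `4 z ≤ g`:
`NN (2g+1+d) ≤ 2 g` for `d < g`, and `NN (2g+1+d) - ⌊d/3⌋ ≤ (5 g + 5)/3 ≤ 2g+1 - z + 2` (rounding down);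
(3) `NN (2g+1) ≤ 2 g + 1 - z` for `4 z ≤ g`. -/
def S_F8 : Prop :=
  ∀ q : ℕ, 3 ≤ q →
    (∀ g : ℕ, ∑ d ∈ (Finset.range g).filter (fun d => (2 * g + 1 + d) % 3 ≠ 2), (q : ℝ) ^ (NN (2 * g + 1 + d)) =
      ((q : ℝ) ^ (2 * g + 1) - (q : ℝ) ^ (NN (2 * g + 1))) / ((q : ℝ) - 1)) ∧
    (∀ g z : ℕ, 4 * z ≤ g → ∑ d ∈ Finset.range g, (q : ℝ) ^ (NN (2 * g + 1 + d)) *
      ((d + 1) ^ 2 * (1 / (q : ℝ) ^ z + 1 / (q : ℝ) ^ (d / 3))) ≤
        2 * (q : ℝ) ^ 2 * (g + 1) ^ 3 * (q : ℝ) ^ (2 * g + 1) / (q : ℝ) ^ z) ∧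
    (∀ g z : ℕ, 4 * z ≤ g → NN (2 * g + 1) + z ≤ 2 * g + 1)

/-- **F9** (uses F5, F6, F7, F8, ME2, F4, B0, B1) THE FIRST MOMENT: there is `C` with
`|∑_{f ∈ SQF (2g+1)} #solz f - #SQF (2g+1)| ≤ C (g+1)³ q^{2g+1} / q^{⌊g/4⌋}` for all `g`.
Proof: `z = ⌊g/4⌋`.  For `z = 0` (`g < 4`) everything is at most `C` (finitely many `g`; use F4: both terms are `≤ 3 q^{2g+1}`).
For `z ≥ 1` split the sum of F5 (`m = g`) at `z`: F6 for `w > z`, F7 for `w ≤ z`, where by ME2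
`M_d = (q-1)(1-1/q) + O(8 q (d+1)² (q^{-z} + q^{-⌊d/3⌋}))`; F8 (1) gives the main term
`(1 - 1/q)(q^{2g+1} - q^{NN(2g+1)}) = q^{2g+1} - q^{2g} - (1 - 1/q) q^{NN (2g+1)}`, F8 (3), (2) bound the errors. -/
def S_F9 : Prop :=
  ∃ Cst : ℝ, 0 < Cst ∧ ∀ g : ℕ,
    |∑ f ∈ SQF F (2 * g + 1), (((solz f).card : ℝ) - 1)| ≤ Cst * (g + 1) ^ 3 * qq F ^ (2 * g + 1) / qq F ^ (g / 4)

/-! ## Part 5 : the second moment (upper bound) -/

/-- **G0** (uses B1) two nonzero solutions for the same `f` with cube ratio (`v₁' v₂ = v₁ v₂'`) are equal up to sign.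
Proof: `(v₁ v₂²)' = v₂ (v₁' v₂ + 2 v₁ v₂') = 3 v₁ v₂ v₂' = 0`, so `v₁ v₂² = c³`; `v₂³ (f v₁)'' = (f v₁ v₂³)'' = (f c³ v₂)'' = c³ (f v₂)''`
gives `v₁³ v₂³ = c³ v₂³`, `v₁ = c` (cube roots are unique), so `v₁ v₂² = v₁³`, `v₂² = v₁²`. -/
def S_G0 : Prop :=
  ∀ f v₁ v₂ : F[X], v₁ ≠ 0 → v₂ ≠ 0 → IsSol f v₁ → IsSol f v₂ →
    derivative v₁ * v₂ = v₁ * derivative v₂ → v₁ = v₂ ∨ v₁ = - v₂

/-- **G1** (uses B0, B1, CP) let `v₁' v₂ ≠ v₁ v₂'`, and let some `h₀ ≠ 0` satisfy `(h₀ v₁)'' = (h₀ v₂)'' = 0`.  Then there is `f₀` monic,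
cube-free, `deg f₀ ≤ deg h₀`, such that for all `h`: `(h v₁)'' = (h v₂)'' = 0` iff `h = f₀ c³` for some `c`.
Proof: `h₀ = c₀³ f₁`, `c₀ = cpart h₀`, `f₁` cube-free; `f₀` = `f₁` made monic (constants are cubes).  `(f₀ v_i)'' = 0` since
`c₀³ (f₁ v_i)'' = (h₀ v_i)'' = 0`; so `f₀ c³` is in the set.  Let `h ≠ 0` be in the set: claim `h f₀' = h' f₀`.
Put `x = f₀ v₁`, `y = f₀ v₂`: `x'' = y'' = 0`, `x' y - x y' = f₀² (v₁' v₂ - v₁ v₂') ≠ 0`.  With `ρ = h / f₀` (multiply by `f₀³`, a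
polynomial with derivative 0, to avoid fractions: `ρ₁ := h f₀²`, `ρ₁ x = f₀³ h v₁`, so `(ρ₁ x)'' = f₀³ (h v₁)'' = 0`, and the same for
`y`): `ρ₁'' x + 2 ρ₁' x' = 0`, `ρ₁'' y + 2 ρ₁' y' = 0`; eliminating, `2 ρ₁' (x' y - x y') = 0`, so `(h f₀²)' = 0`,
`h f₀² = c³`; as `f₀` is cube-free, `f₀ ∣ c`?  For a prime `P`: `v_P(h) + 2 v_P(f₀) ≡ 0` mod 3, so `v_P(h) ≡ v_P(f₀)` mod 3 and
`v_P (f₀) ≤ 2` gives `v_P(h) ≥ v_P(f₀)`: so `f₀ ∣ h` and `h / f₀` is a cube (`(h/f₀) f₀³ = c³`, so `f₀³ ∣ c³`, `f₀ ∣ c`). -/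
def S_G1 : Prop :=
  ∀ v₁ v₂ h₀ : F[X], derivative v₁ * v₂ ≠ v₁ * derivative v₂ → h₀ ≠ 0 →
    derivative (derivative (h₀ * v₁)) = 0 → derivative (derivative (h₀ * v₂)) = 0 →
    ∃ f₀ : F[X], f₀.Monic ∧ CubeFree f₀ ∧ f₀.natDegree ≤ h₀.natDegree ∧
      ∀ h : F[X], (derivative (derivative (h * v₁)) = 0 ∧ derivative (derivative (h * v₂)) = 0) ↔ ∃ c : F[X], h = f₀ * c ^ 3

/-- **G2** (uses B0, B1, G1) for `v₁, v₂` with `v₁' v₂ ≠ v₁ v₂'`: the number of monic `f` of degree `n` (`n ≥ 1`) with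
`(f v_i)'' = - v_i³` for `i = 1, 2` is at most `1 + ∑_{f₀} q^{(n - 1 - deg f₀)/3 + 1}` where `f₀` runs over the monic cube-free polynomials
of degree `< n` with `(f₀ v₁)'' = (f₀ v₂)'' = 0` (natural division).
Proof: two such `f` differ by `h` of degree `< n` with `(h v_i)'' = 0`.  If only `h = 0` is possible the number is `≤ 1`.  Otherwise
G1 gives `f₀` of degree `≤ deg h < n`; all the differences are `f₀ c³` with `3 deg c ≤ n - 1 - deg f₀`: at most `q^{(n-1-deg f₀)/3+1}`. -/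
def S_G2 : Prop :=
  ∀ (n : ℕ) (v₁ v₂ : F[X]), 1 ≤ n → derivative v₁ * v₂ ≠ v₁ * derivative v₂ →
    ((MON F n).filter (fun f => IsSol f v₁ ∧ IsSol f v₂)).card ≤
      1 + ∑ s ∈ Finset.range n, ∑ _f₀ ∈ (MON F s).filter (fun f₀ => CubeFree f₀ ∧
        derivative (derivative (f₀ * v₁)) = 0 ∧ derivative (derivative (f₀ * v₂)) = 0),
        Fintype.card F ^ ((n - 1 - s) / 3 + 1)

/-- **G3** (uses B0, B1, B3, DC) `f₀` monic cube-free of degree `s`; suppose there are `v₁, v₂` of degree `< g` with `(f₀ v_i)'' = 0` and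
`v₁' v₂ ≠ v₁ v₂'`.  Then `s < 2 g` and `#{v : deg v < g, (f₀ v)'' = 0} = q^{NN (g+s) - s}` (`s ≤ NN (g + s)`).
Proof: `v ↦ G = f₀ v` is a bijection to `K_{<g+s}`, `K = {G : G'' = 0, f₀ ∣ G}` of B3 (`W = f₀`), with `k₀, k₁` of degrees
`e₀, e₁`.  Claim `e₀ < g + s` and `e₁ < g + s`.  Otherwise all nonzero elements of `K_{<g+s}` have degrees in one class mod 3, say
that of `k` (`k = k₀` or `k₁`, of minimal degree), and by division (subtract `λ X^{3i} k`, which stays in `K_{<g+s}`) every element is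
`k` times a polynomial in `X³`, i.e. `k u³`; then `f₀ v₁ = k u₁³`, `f₀ v₂ = k u₂³`, so `v₁ u₂³ = v₂ u₁³` (`k ≠ 0`...) and
`v₁' v₂ = v₁ v₂'`, contradiction.  By DC the number is `q^a`, `a` = number of `j < g + s` of the form `e₀ + 3 i` or `e₁ + 3 i`;
since `e₀, e₁ < g + s` (and so all the missing ones are `< g + s`), `a = NN (g+s) - (e₀/3 + (e₁-1)/3) = NN (g+s) - s`.
Finally `3 s + 1 = e₀ + e₁ ≤ 2 (g + s) - 3`. -/
def S_G3 : Prop :=
  ∀ (g s : ℕ) (f₀ v₁ v₂ : F[X]), f₀.Monic → f₀.natDegree = s → CubeFree f₀ →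
    v₁ ∈ POL F g → v₂ ∈ POL F g → derivative v₁ * v₂ ≠ v₁ * derivative v₂ →
    derivative (derivative (f₀ * v₁)) = 0 → derivative (derivative (f₀ * v₂)) = 0 →
    s < 2 * g ∧ s ≤ NN (g + s) ∧
    ((POL F g).filter (fun v => derivative (derivative (f₀ * v)) = 0)).card = Fintype.card F ^ (NN (g + s) - s)

/-- **G4** (uses B0, B1, G0, G2, G3, F4) THE SECOND MOMENT BOUND: `∑_{f ∈ MON (2g+1)} (#solz f)² ≤ (8 q g + 8) q^{2g+1}`.
Proof: `n = 2g+1`.  The left side counts triples `(f, v₁, v₂)`.  Those with `v₁' v₂ = v₁ v₂'`: by G0 `v₂ = ± v₁`, at most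
`2 ∑ #solz f ≤ 6 q^n` (F4).  The others: `v₁, v₂` of degree `< g`; by G2 at most
`∑_{(v₁,v₂)} 1 + ∑_{s < n} ∑_{f₀ ∈ MON s cube-free} #{(v₁, v₂) ∈ K_g(f₀)², v₁' v₂ ≠ v₁ v₂'} q^{(n-1-s)/3+1}`,
`K_g(f₀) = {v : deg v < g, (f₀ v)'' = 0}`.  First term `q^{2g}`.  For the second, by G3 only `s < 2 g` occurs and
the number of pairs is at most `q^{2 (NN (g+s) - s)}` (or `0`); with `#MON s = q^s` the exponent for given `s` is
`s + 2 NN(g+s) - 2 s + (2g-s)/3 + 1 ≤ 2 g + 2` as `NN M ≤ (2M+2)/3`.  Sum over `s < 2g`: `2 g q^{2g+2}`. -/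
def S_G4 : Prop :=
  ∀ g : ℕ, ∑ f ∈ MON F (2 * g + 1), ((solz f).card : ℝ) ^ 2 ≤ (8 * qq F * g + 8) * qq F ^ (2 * g + 1)

/-! ## Part 6 : the result -/

/-- **R** (uses A2, A3, A9, F9, G4, F5, B0, B1) the final theorem.
(1) is `A2, A3`; (2) F9 with A9 (`cl3 f - 2 = #sol f - 2 = #solz f - 1`);
(3) `#solz f ≥ 2` whenever it is nonzero (`v` and `-v`), so `#{f : solz f ≠ ∅} ≤ (1/2) ∑ #solz f ≤ (1/2 + ε) #SQF` for large `g`, as
`(g+1)³ q^{-⌊g/4⌋} → 0` and `#SQF (2g+1) = (1 - 1/q) q^{2g+1}`;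
(4) Cauchy-Schwarz: `(∑_{SQF} #solz f)² ≤ #{f ∈ SQF : solz f ≠ ∅} · ∑ (#solz f)²`, the first sum is `≥ (1/2) #SQF` for large `g` (F9),
the last is `≤ (8 q g + 8) q^{2g+1}` (G4). -/
def S_R : Prop :=
  (∀ f : F[X], f.Monic → Squarefree f → Odd f.natDegree → IsDedekindDomain (OO f)) ∧
  (∃ Cst : ℝ, ∀ g : ℕ, |∑ f ∈ SQF F (2 * g + 1), ((cl3 f : ℝ) - 2)| ≤
      Cst * (g + 1) ^ 3 * (Fintype.card F : ℝ) ^ (2 * g + 1) / (Fintype.card F : ℝ) ^ (g / 4)) ∧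
  (∀ ε : ℝ, 0 < ε → ∃ g₀ : ℕ, ∀ g ≥ g₀, (1 / 2 - ε) * ((SQF F (2 * g + 1)).card : ℝ) ≤
      (((SQF F (2 * g + 1)).filter (fun f => cl3 f = 1)).card : ℝ)) ∧
  (∃ c : ℝ, 0 < c ∧ ∃ g₀ : ℕ, ∀ g ≥ g₀, c * (Fintype.card F : ℝ) ^ (2 * g + 1) / g ≤
      (((SQF F (2 * g + 1)).filter (fun f => 1 < cl3 f)).card : ℝ))

end DH
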