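import Pool.Agent.H463.DH.Stm3

/-!
# Fourth part: a nearly sharp second moment, and the proportion `7/16 - K/q` of class numbers divisible by 3

Statements (as `Prop`s) with paper proofs.  `S_B0, S_YY, S_TL …` are statements of `Stm.lean`, `Stm2.lean`, all already proved.
-/

open Polynomial
open scoped Classical

noncomputable section

namespace DH

/-- `K7 = ∑ (m+1)^7 / 3^m`, an absolute constant. -/
def K7 : ℝ := ∑' m : ℕ, ((m : ℝ) + 1) ^ 7 / 3 ^ m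

/-- **KS** (real analysis) Proof: the series converges (`summable_pow_mul_geometric_of_norm_lt_one` or ratio test); partial sums of
nonnegative terms; for `m ≥ 1` `1/q^m = (1/q) (1/q^{m-1}) ≤ (3/q) (1/3^m)`. -/
def S_KS : Prop :=
  1 ≤ K7 ∧ ∀ q : ℝ, 3 ≤ q → ∀ M : ℕ,
    (∑ m ∈ Finset.range M, ((m : ℝ) + 1) ^ 7 / q ^ m ≤ K7) ∧
    (∑ m ∈ (Finset.range M).filter (fun m => 1 ≤ m), ((m : ℝ) + 1) ^ 7 / q ^ m ≤ 3 * K7 / q)

variable (F : Type) [Field F] [Fintype F] [CharP F 3]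

/-- **T8** (uses B0) Proof: for `e` squarefree (monic) `tau e = 2^Ω(e)`, `tau(e)³ = 8^Ω(e)`.  By induction on `k ≥ 1`:
`∑_{e ∈ MON m squarefree} k^Ω(e) ≤ (m+1)^(k-1) q^m`: `(k+1)^Ω(e) = ∑_{a ∣ e monic} k^Ω(a)` (binomial), the `a` are squarefree, `e = a b`,
so the sum for `k+1` is at most `∑_{j ≤ m} (∑_{a ∈ MON j sqf} k^Ω(a)) q^{m-j} ≤ ∑_{j ≤ m} (j+1)^(k-1) q^m ≤ (m+1)^k q^m`.  (The file
`helper463_DH_TA.lean` has the case `k = 3`.) -/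
def S_T8 : Prop :=
  ∀ m : ℕ, ∑ e ∈ (MON F m).filter (fun e => Squarefree e), (tau e : ℝ) ^ 3 ≤ ((m : ℝ) + 1) ^ 7 * qq F ^ m

/-- **PQ** (uses B0, B1, B5, CP, F3, F4, N2) sharper form of PP1 (copy `helper463_DH_PP1.lean` and change constants).
Proof: as PP1, `n = 2g+1`, `d = g-1`, `V = VV d`: `∑_{f ∈ SQF n} XX g f ≥ ∑_{v ∈ V} (cnt n 1 v - ∑_{P monic irreducible, deg P ≤ g} cnt n P v)`.
(i) `cnt n 1 v = q^{g+1}`.  (ii) the `P` of degree `p` with `4 p ≤ g` contribute at most `2 q^{g+1} #V q^{-2p}` each, in total at most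
`2 q^{g+1} #V ∑_{p ≥ 1} q^p q^{-2p} = 2 q^{g+1} #V/(q-1) ≤ (3/q) q^{g+1} #V`.  (iii) `g < 4 p`: total `≤ 9 (g+1) q^n / q^{g/4}`.
(iv) `#V = (q-1)² q^{g-2} = (1-1/q)² q^g`.  So the sum is `≥ (1-1/q)² (1-3/q) q^{2g+1} - 9 (g+1) q^{2g+1}/q^{g/4} ≥ (1 - 6/q) q^{2g+1}`
for large `g` (`(1-1/q)²(1-3/q) ≥ 1 - 5/q`). -/
def S_PQ : Prop :=
  ∃ g₀ : ℕ, ∀ g ≥ g₀, (1 - 6 / qq F) * qq F ^ (2 * g + 1) ≤ ∑ f ∈ SQF F (2 * g + 1), (XX F g f : ℝ)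

/-- The number of pairs of squarefree solutions of degree `g - 1`, different up to sign. -/
def PR (g : ℕ) (f : F[X]) : ℕ :=
  (((VV F (g - 1)) ×ˢ (VV F (g - 1))).filter (fun p => IsSol f p.1 ∧ IsSol f p.2 ∧ p.1 ≠ p.2 ∧ p.1 ≠ - p.2)).card

variable {F} in
/-- The relation between the two highest coefficients. -/
def TopR (g : ℕ) (u w : F[X]) : Prop := (Wr u w).coeff (2 * g - 4) = (Mo u w).coeff (4 * g - 4)

/-- **TR** (uses B0) top coefficients of `Wr u w = u' w - u w'` and `Mo u w = u w³ - u³ w` for `deg u, deg w < g` (`POL F g`), `g ≥ 2`.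
Proof: `Wr` has coefficients `∑_{i+j=k+1} (i - j) u_i w_j`; `k = 2g-3`: only `i = j = g-1`, factor 0; `k = 2g-4`:
`(i,j) = (g-1,g-2)` gives `+1`, `(g-2,g-1)` gives `-1`. -/
def S_TR : Prop :=
  ∀ (g : ℕ) (u w : F[X]), 2 ≤ g → u ∈ POL F g → w ∈ POL F g →
    (Wr u w).coeff (2 * g - 4) = u.coeff (g - 1) * w.coeff (g - 2) - u.coeff (g - 2) * w.coeff (g - 1) ∧
    (Mo u w).coeff (4 * g - 4) = u.coeff (g - 1) * w.coeff (g - 1) ^ 3 - u.coeff (g - 1) ^ 3 * w.coeff (g - 1) ∧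
    (Wr u w).natDegree ≤ 2 * g - 4

/-- **IN** (uses B0, TR; the identity `2 f' Wr + f Wr' = Mo` for two solutions is proved in `helper463_DH_M1.lean`, copy it)
behaviour at infinity of a pair of solutions of degree `g-1` of a common monic `f` of degree `2g+1`.
Proof: `u = v₁ - v₂`, `w = v₁ + v₂` have degrees `g-1-i`, `g-1-j`; as `v₁ = -(u+w)` has degree `g-1`, `i = 0` or `j = 0`.
`Wr u w = - Wr v₁ v₂`, `Mo u w = - Mo v₁ v₂` (characteristic 3), so TopR for `(v₁,v₂)` and `(u,w)` are equivalent; coefficient `4g-4` of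
`2 f' Wr + f Wr' = Mo`: `(2(2g+1) + (2g-4)) Wr_{2g-4} = Wr_{2g-4}` (`6g - 2 = 1` in characteristic 3; `deg Wr ≤ 2g-4` by TR): TopR.
`Mo = - v₁ v₂ u w ≠ 0` has degree `4(g-1) - i - j ≤ 2g + deg Wr`: this is `2g ≤ deg Wr + i + j + 4`.
Now let (by symmetry `v₂ → -v₂`) `j = 0`, `i ≥ 1` not divisible by 3, `d = g-1-i = deg u`.  `Wr v₁ v₂ = - Wr v₁ u`, and the coefficient of `Wr v₁ u`
at `g-2+d` is `((g-1) - d) a u_d = i a u_d ≠ 0` (`a, u_d` leading coefficients): `deg Wr = g-2+d = 2g-3-i`.  The coefficient of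
`2 f' Wr + f Wr'` at `2g + deg Wr = 4g-3-i` is `(2(2g+1) + (2g-3-i)) lc = -(1+i) lc`, and it is 0 since `deg Mo = 4g-4-i`; so `3 ∣ 1+i`:
`i ≠ 1`, and for `i = 2` `deg Wr = 2g-5`. -/
def S_IN : Prop :=
  ∀ (g : ℕ) (f v₁ v₂ : F[X]), 2 ≤ g → f.Monic → f.natDegree = 2 * g + 1 → v₁ ∈ DEG F (g - 1) → v₂ ∈ DEG F (g - 1) →
    v₁ ≠ v₂ → v₁ ≠ - v₂ → IsSol f v₁ → IsSol f v₂ →
    ∃ i j : ℕ, (v₁ - v₂).natDegree + i = g - 1 ∧ (v₁ + v₂).natDegree + j = g - 1 ∧ (i = 0 ∨ j = 0) ∧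
      2 * g ≤ (Wr v₁ v₂).natDegree + i + j + 4 ∧ TopR g v₁ v₂ ∧ TopR g (v₁ - v₂) (v₁ + v₂) ∧
      i + j ≠ 1 ∧ (i + j = 2 → 2 * g ≤ (Wr v₁ v₂).natDegree + 5)

/-- **MN** (uses B0, TR) Proof: `v₁`: `(q-1) q^{g-1}` choices with coefficients `a ≠ 0, a₁` at `g-1`, `g-2`; for `v₂` choose the leading
coefficient `b ≠ 0` (`q-1`) and the coefficients below `g-2` (`q^{g-2}`), the coefficient `b₁` at `g-2` is determined by
`a b₁ - a₁ b = a b³ - a³ b`.  `(q-1)² q^{2g-3} ≤ q^{2g-1}`. -/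
def S_MN : Prop :=
  ∀ g : ℕ, 2 ≤ g → (((DEG F (g - 1)) ×ˢ (DEG F (g - 1))).filter (fun p => TopR g p.1 p.2)).card ≤
    Fintype.card F ^ (2 * g - 1)

/-- The sum over the pairs `x` of degree `Z-1-i`, `y` of degree `Z-1`. -/
def UU (Z i : ℕ) (e : F[X]) : ℝ :=
  ∑ x ∈ DEG F (Z - 1 - i), ∑ y ∈ (DEG F (Z - 1)).filter (fun y => Cnd e x y),
    qq F ^ ((cpart (e * x)).natDegree + (cpart (e * y)).natDegree)

/-- The sum over the nontrivial pairs `x`, `y` of degree `g-m-1` satisfying the top relation. -/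
def VT (g m : ℕ) (e : F[X]) : ℝ :=
  ∑ x ∈ DEG F (g - m - 1), ∑ y ∈ (DEG F (g - m - 1)).filter (fun y => Cnd e x y ∧ TopR g (e * x) (e * y) ∧
    1 ≤ m + (cpart (e * x)).natDegree + (cpart (e * y)).natDegree),
    qq F ^ ((cpart (e * x)).natDegree + (cpart (e * y)).natDegree)

/-- The weighted total for given `e`. -/
def HH (g m : ℕ) (e : F[X]) : ℝ :=
  qq F ^ 2 * VT F g m e + (if m + 2 < g then 2 * qq F ^ 2 * UU F (g - m) 2 e else 0) +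
    ∑ i ∈ (Finset.range (g - m)).filter (fun i => 3 ≤ i), 2 * qq F ^ ((i + 4) / 3 + 1) * UU F (g - m) i e

/-- **TI** (uses B0, YY, X0; copy `helper463_DH_TS.lean`) Proof: as TS: `y ∈ DEG (Z-1) ⊆ POLz Z`, `Z = g-m`, where
`Rz Z e y = q^{deg cpart(ey)}`; `x ∈ DEG (Z-1-i) ⊆ POLz (Z-i)`, where `Rz (Z-i) e x = q^{deg cpart(ex)}`.  For `x` having some `y` with `Cnd e x y` let
`h = gcd(e,x)` monic, `h² ∣ x`; so by YY and X0 (second part with `Z - i` in place of `Z`)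
`UU ≤ ∑_{h ∣ e} (3 tau q^{Z-i}/q^{deg h}) (3 tau q^Z q^{deg h}/q^m + 2 g q^{⌊2g/3⌋+m})`. -/
def S_TI : Prop :=
  ∀ (g m i : ℕ) (e : F[X]), m + i < g → e ∈ MON F m → Squarefree e →
    UU F (g - m) i e ≤ 9 * (tau e : ℝ) ^ 3 * qq F ^ (2 * (g - m)) / qq F ^ (m + i) +
      6 * g * (tau e : ℝ) ^ 2 * qq F ^ (g + 2 * g / 3) / qq F ^ i

/-- **YT** (uses B0, CP, Y1, Y3; copy `helper463_DH_YY.lean`) like YY, but only `y` of degree exactly `d = g-m-1 ≥ 1` whose second coefficient is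
a function of the first.  Proof: as for YY; only the count Y2 changes: for coprime monic `a, b` at most `q^d/q^{deg a+deg b} + q` of these `y`
have `a ∣ y`, `b ∣ y - r` (for each of the `q-1` leading coefficients two of them differ by a multiple of `ab` of degree `< d-1`: at most
`q^{d-1}/q^{deg a+deg b} + 1`).  Main part: `q^{g-m-1}` times `∑_b q^{deg b} q^{deg e''}/(q^{deg b*} q^{2 deg e''}) = (q^{deg h}/q^m) ∑_b q^{2 deg γ}/q^{2 deg b}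
≤ (q^{deg h}/q^m)(3/2) tau e`.  Part from `+ q`: `q · q^m · ∑_{3β ≤ d+m} q^{2β} ≤ 2 q^{1 + m + 2⌊(g-1)/3⌋}`. -/
def S_YT : Prop :=
  ∀ (g m : ℕ) (e h e' x : F[X]) (φ : F → F), m + 2 ≤ g → e.Monic → h.Monic → e'.Monic → Squarefree e → e.natDegree = m →
    e = h * e' → h ∣ x → IsCoprime e' x → x ≠ 0 →
    ∑ y ∈ (DEG F (g - m - 1)).filter (fun y => Cnd e x y ∧ y.coeff (g - m - 2) = φ (y.coeff (g - m - 1))),
      qq F ^ (cpart (e * y)).natDegree ≤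
      3 * (tau e : ℝ) * qq F ^ (g - m - 1) * qq F ^ h.natDegree / qq F ^ m + 4 * g * qq F ^ (2 * g / 3 + m + 2)

/-- **VB** (uses B0, TR, YT, X0; copy `helper463_DH_TS.lean`) Proof: as TS/TI with YT in place of YY: for given `e, x` (`x` of degree `Z-1`, `Z = g-m`)
the relation `TopR g (e x) (e y)` determines the coefficient of `y` at `Z-2` as a function `φ` of its coefficient at `Z-1`: with TR, `u = e x`, `w = e y`,
`a = u_{g-1} ≠ 0`, `a₁ = u_{g-2}`, `b = w_{g-1} = y_{Z-1}`, `b₁ = w_{g-2} = y_{Z-2} + ε y_{Z-1}` (`ε` the second coefficient of `e`, `0` if `m = 0`):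
`b₁ = (a₁ b + a b³ - a³ b)/a`.  Then `VT ≤ ∑_{h ∣ e} (3 tau q^Z/q^{deg h}) (3 tau q^{Z-1} q^{deg h}/q^m + 4 g q^{⌊2g/3⌋+m+2})`. -/
def S_VB : Prop :=
  ∀ (g m : ℕ) (e : F[X]), m + 2 ≤ g → e ∈ MON F m → Squarefree e →
    VT F g m e ≤ 9 * (tau e : ℝ) ^ 3 * qq F ^ (2 * (g - m)) / qq F ^ (m + 1) +
      12 * g * (tau e : ℝ) ^ 2 * qq F ^ (g + 2 * g / 3 + 2)

/-- **V1** (uses B0, TR, CP) the case `e = 1`.  Proof: `d = g-1`; for given `x` of degree `d` TopR determines the second coefficient of `y` as a function of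
the first (TR); so `#{y : b³ ∣ y} ≤ q^{d-3β} + q` for `b` monic of degree `β ≤ d/3` (for each leading coefficient `≤ q^{d-1-3β} + 1`).
`q^{deg cpart y} ≤ ∑_{b³ ∣ y} q^{deg b}`, and if `cpart y ≠ 1` only the `b ≠ 1` are needed.  So `∑_y q^{deg cpart y} ≤ ∑_β q^{2β}(q^{g-1-3β} + q) ≤
2 q^{g-1} + 2 q^{⌊2g/3⌋+1}`, and over the `y` with `cpart y ≠ 1` at most `2 q^{g-2} + 2 q^{⌊2g/3⌋+1}`; for `x` (no relation)
`∑_x q^{deg cpart x} ≤ 2 q^g` and over `cpart x ≠ 1` at most `2 q^{g-1}`.  The condition `1 ≤ deg cpart x + deg cpart y` means that one of them is `≠ 1`. -/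
def S_V1 : Prop :=
  ∀ g : ℕ, 2 ≤ g → VT F g 0 (1 : F[X]) ≤ 8 * qq F ^ (2 * g - 2) + 8 * qq F ^ (g + 2 * g / 3 + 1)

/-- **M6** (uses B0, B1, G0, CP, M1, M2, M4, IN, MN; copy `helper463_DH_M5.lean`) `∑_{f ∈ MON (2g+1)} PR g f ≤ q^{2g+1} + ∑_m q^m ∑_e HH g m e`.
Proof: the left side counts `(f, v₁, v₂)`; for a pair `(v₁, v₂)` having a common `f`, `Wr = Wr v₁ v₂ ≠ 0` (G0), `c = cpart Wr`, the number of `f` is (M2,
`n = 2g+1`, `3 deg c ≤ deg Wr ≤ 2g`) at most `q^{⌊(2g - deg Wr)/3⌋ + deg c + 1}`.  Let `i, j` be as in IN.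
(0) `i + j = 0`: at most `q^{2 + deg c}`.  The pairs with `deg c = 0` satisfy TopR: at most `q² q^{2g-1}` by MN.  If `deg c ≥ 1` M4 (with M1) gives `e, x, y`,
`v₁ - v₂ = e x`, `v₁ + v₂ = e y`, `m = deg e`, `x, y ∈ DEG (g-m-1)`, `Cnd e x y` (as in M5), `TopR g (e x) (e y)`, `1 ≤ deg c ≤ m + deg cpart(ex) + deg cpart(ey)`:
these pairs give at most `∑_m ∑_e q^m q² VT g m e`.
(2) `i + j = 2`: `2g - deg Wr ≤ 5`, at most `q^{2 + deg c}`; M4 gives `e, x, y`, where `x ∈ DEG (g-m-1-2)`, `y ∈ DEG (g-m-1)` or the other way round (`m + 2 < g`;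
`Cnd` is symmetric): `2 q^m q² UU (g-m) 2 e`.
(3) `i + j ≥ 3`: at most `q^{⌊(i+j+4)/3⌋ + 1 + deg c}`, in the same way.  The pair is determined by `(e, x, y)`. -/
def S_M6 : Prop :=
  ∀ g : ℕ, 2 ≤ g → ∑ f ∈ MON F (2 * g + 1), (PR F g f : ℝ) ≤ qq F ^ (2 * g + 1) +
    ∑ m ∈ Finset.range g, ∑ e ∈ (MON F m).filter (fun e => Squarefree e), qq F ^ m * HH F g m e

/-- **HB** (uses B0) comparison with `TT1` (for large `m`).  Proof: `VT ≤ TT1 (g-m) e`, `UU (g-m) 2 e ≤ TT1`, since `Rz Z e x = q^{⌊(Z-1-deg x)/3⌋ + deg cpart(ex)}`;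
`⌊(i+4)/3⌋ + 1 ≤ ⌊i/3⌋ + 3`, so `∑_i q^{⌊(i+4)/3⌋+1} UU (g-m) i e ≤ q³ TT1` (the degrees of `x` are different for different `i`). -/
def S_HB : Prop :=
  ∀ (g m : ℕ) (e : F[X]), m < g → e ∈ MON F m → Squarefree e → HH F g m e ≤ 5 * qq F ^ 3 * TT1 F (g - m) e

/-- **H1** (uses TI) Proof: `2 q²/q² + 2 ∑_{i ≥ 3} q^{⌊(i+4)/3⌋+1-i} ≤ 6` (for `i = 3k, 3k+1, 3k+2` the exponents are `-2(k-1), -2(k-1)-1, -2(k-1)-1`, and
`∑_{k ≥ 1} 9^{-(k-1)} (1 + 1/3 + 1/3) = 15/8`). -/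
def S_H1 : Prop :=
  ∀ (g m : ℕ) (e : F[X]), m + 2 ≤ g → e ∈ MON F m → Squarefree e →
    HH F g m e ≤ qq F ^ 2 * VT F g m e + 54 * (tau e : ℝ) ^ 3 * qq F ^ (2 * (g - m)) / qq F ^ m +
      36 * g * (tau e : ℝ) ^ 2 * qq F ^ (g + 2 * g / 3)

/-- **SM** (uses KS, B0, T8, M6, H1, VB, V1, HB, TL; compare `helper463_DH_TT.lean`) Proof: split the sum of M6.  `m = 0` (`e = 1`, `tau 1 = 1`): H1, V1:
`62 q^{2g} + 8 q^{g+⌊2g/3⌋+3} + 36 g q^{g+⌊2g/3⌋}`.  `1 ≤ m`, `10 m < g`: H1, VB, T8 (`tau² ≤ tau³`):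
`∑_m q^m [(9 q + 54) q^{2g-2m-m} + 48 g q^{g+⌊2g/3⌋+4}] (m+1)^7 q^m`, main part `≤ (9q + 54) q^{2g} ∑_{m ≥ 1} (m+1)^7/q^m ≤ 81 K7 q^{2g}` (KS); the
other part is `≤ 48 g (g+1)^8 q^{4 + 5g/3 + g/5}`.  `10 m ≥ g`: HB, TL with `δ = 1/40`: `∑_m q^m 5 q³ C (g+1)⁴ q^{2g-2m} q^{g/20} ≤
5 q³ C (g+1)⁵ q^{2g - g/20}`.  For large `g` all the error terms together are `≤ q^{2g}`, and `62 + 1 + 81 K7 ≤ 150 K7`. -/
def S_SM : Prop :=
  ∃ g₀ : ℕ, ∀ g ≥ g₀, ∑ f ∈ MON F (2 * g + 1), (PR F g f : ℝ) ≤ qq F ^ (2 * g + 1) + 150 * K7 * qq F ^ (2 * g)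

/-- **RX** (uses B0, B1, A9, C2, F9, F5, PQ, SM, `1 ≤ K7` from KS) Proof: for `f ∈ SQF (2g+1)` let `X = XX g f`, `z = #solz f`, `X ≤ z`, `z + 1 = cl3 f` is a power of 3
(A9, B1, C2), `PR g f = X (X - 2)` (for `v₁` in the set the excluded `v₂` are `v₁`, `-v₁ ≠ v₁`).  Claim: `[z > 0] ≥ X/2 - PR/16 - (z - X)/2`.  `z = 0`: both sides `0`.
`z ≥ 2`: clear if `X ≤ 2`; if `X ≥ 3` then `z ≥ 8`; if `X ≥ 8`, `X/2 - X(X-2)/16 - 1 = -(X-2)(X-8)/16 ≤ 0`; if `3 ≤ X ≤ 7`, `z - X ≥ 8 - X` and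
`1 + (8-X)(X-2)/16 - (8-X)/2 = 1 + (8-X)(X-10)/16 ≤ 1`.  Sum over `f ∈ SQF` (`Q = q^{2g+1}`, `g` large): `∑ X ≥ (1-6/q) Q` (PQ),
`∑ PR ≤ Q + 150 K7 Q/q` (SM), `∑ z ≤ Q + Q/q` (F9, F5): the number of `f` with `1 < cl3 f` is at least
`∑ X - (1/16) ∑ PR - (1/2) ∑ z ≥ Q (1 - 1/16 - 1/2 - (6 + 10 K7 + 1)/q) ≥ Q (7/16 - 20 K7/q)`, and `#SQF ≤ Q` (if the bracket is negative the claim is trivial). -/
def S_RX : Prop :=
  ∃ g₀ : ℕ, ∀ g ≥ g₀, (7 / 16 - 20 * K7 / qq F) * ((SQF F (2 * g + 1)).card : ℝ) ≤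
      (((SQF F (2 * g + 1)).filter (fun f => 1 < cl3 f)).card : ℝ)

end DH
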