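import Pool.Agent.H463.DH.Stm3

/-!
# Fifth part: real quadratic function fields of characteristic 3 (infinite place split): the average of `#Cl[3]` is `4/3`

`f` monic squarefree of even degree `2 m`.  Everything is as in the first part (`Stm.lean`, all proved there for odd degree); the
differences: (1) there are nonconstant units, the group of units modulo constants is infinite cyclic, so `#sol f = 3 #Cl(OO f)[3]`;
(2) for `deg f = 2g+2` solutions `v` of degree `g` occur, their leading coefficient is `± 1`.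
Statements (as `Prop`s) with paper proofs.
-/

open Polynomial
open scoped Classical

noncomputable section

namespace DH

variable (F : Type) [Field F] [Fintype F] [CharP F 3]

variable {F} in
/-- monic, squarefree, of even positive degree. -/
def GoodR (f : F[X]) : Prop := f.Monic ∧ Squarefree f ∧ Even f.natDegree ∧ 0 < f.natDegree

/-! ## Units -/

/-- **E1** (uses B0) polynomial square roots: for `G` monic of degree `2 r` there is a monic `T` of degree `r` with `deg (G - T²) < r`.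
Proof: the map `T ↦ T² / X^r` (quotient, `divByMonic`/`/ₘ` by `X^r`) maps `MON r` to `MON r`; it is injective: if the quotients agree then
`deg (T₁² - T₂²) < r`, but `T₁² - T₂² = (T₁ - T₂)(T₁ + T₂)` and `T₁ + T₂` has degree `r` (leading coefficient `2 ≠ 0`), so `T₁ = T₂`.  `MON r` is
finite, so it is surjective; take `T` with `T² / X^r = G / X^r`. -/
def S_E1 : Prop :=
  ∀ (r : ℕ) (G : F[X]), G.Monic → G.natDegree = 2 * r → ∃ T : F[X], T.Monic ∧ T.natDegree = r ∧ (G - T ^ 2).degree < r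

/-- **EA** (uses B0, E1) approximation: `f` monic of degree `2 m`, `m ≥ 1`; for every `k` there are `a, b` with `b ≠ 0`, `deg b ≤ k`,
`deg (a² - f b²) < m`, and, if `a² - f b² ≠ 0`, `deg b + m ≥ k + 1`.
Proof: `K = 2 k`, `T` from E1 for `G = f X^(2K)` (`r = m + K`).  The map `b ↦ (b T mod X^K) / X^(K-k)` from `POL (k+1)` (`q^{k+1}` elements) to
`POL k` (`q^k` elements) is not injective and additive, so there is `b ≠ 0`, `deg b ≤ k`, with `b T = a X^K + R`, `deg R < K - k` (i.e. `R = 0` or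
`deg R ≤ K-k-1`; for `k = 0`: `K = 0`, take `b = 1`, `a = T`, `R = 0`).  Then `(a² - f b²) X^(2K) = (b T - R)² - f b² X^(2K) = b² (T² - f X^(2K)) - 2 b T R + R²`, of degree
`< m + 2 K` (the three terms: `< 2 k + m + K = m + 2K`; `≤ k + m + K + K - k - 1 = m + 2K - 1`; `< 2K`).  And if `deg b + m ≤ k` all three terms have
degree `< 2K`: `2 deg b + m + K ≤ 2k - m + K < 2K` (`m ≥ 1`), `deg b + m + K + K - k - 1 < 2K`; so then `a² - f b² = 0`. -/
def S_EA : Prop :=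
  ∀ (m k : ℕ) (f : F[X]), 1 ≤ m → f.Monic → f.natDegree = 2 * m → ∃ a b : F[X], b ≠ 0 ∧ b.natDegree ≤ k ∧
    (a ^ 2 - f * b ^ 2).degree < m ∧ (a ^ 2 - f * b ^ 2 ≠ 0 → k + 1 ≤ b.natDegree + m)

/-- **E2** (compare `helper463_DH_A2.lean`) for `f` in `GoodR`: `OO f` is a domain; `u` is a unit iff its norm `u.re² - f u.im²` is a nonzero constant;
the norm of a nonzero element is nonzero; for a unit with `im ≠ 0`: `2 deg re = deg f + 2 deg im`.
Proof: `a² = f b²`, `b ≠ 0` is impossible: `f` is squarefree of positive degree (a prime `P ∣ f` divides `f b²` to an odd power). -/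
def S_E2 : Prop :=
  ∀ f : F[X], GoodR f → IsDomain (OO f) ∧
    (∀ u : OO f, IsUnit u ↔ ∃ c : F, c ≠ 0 ∧ u.re ^ 2 - f * u.im ^ 2 = C c) ∧
    (∀ u : OO f, u ≠ 0 → u.re ^ 2 - f * u.im ^ 2 ≠ 0) ∧
    (∀ u : OO f, IsUnit u → u.im ≠ 0 → 2 * u.re.natDegree = f.natDegree + 2 * u.im.natDegree)

/-- **EN** (uses B0, EA, E2) for `f` in `GoodR` there is a unit with `im ≠ 0` (Pell's equation).
Proof: `deg f = 2 m`.  By EA (all `k`) and E2 (`a² ≠ f b²`) the set of pairs `(a, b)`, `b ≠ 0`, `deg (a² - f b²) < m`, contains elements with `deg b` as large as we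
like, so it is infinite.  The map `(a, b) ↦ (N, a mod N, b mod N)`, `N = a² - f b² ≠ 0`, has finitely many values (`deg N < m`), so there are three different pairs
with the same value, and two of them, `(a₁, b₁)`, `(a₂, b₂)`, with `(a₁, b₁) ≠ ± (a₂, b₂)`.  `N` divides `a₁ a₂ - f b₁ b₂ ≡ a₁² - f b₁² = N` and `b₁ a₂ - a₁ b₂`;
`u = ⟨(a₁ a₂ - f b₁ b₂)/N, (b₁ a₂ - a₁ b₂)/N⟩` has norm `1`.  If `b₁ a₂ = a₁ b₂` then `a₁ a₂ - f b₁ b₂ = c N` with `c² = 1` (norm 1), and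
`a₁ = c a₂`, `b₁ = c b₂` with `c = ± 1`, a contradiction; so `u.im ≠ 0`. -/
def S_EN : Prop :=
  ∀ f : F[X], GoodR f → ∃ u : OO f, IsUnit u ∧ u.im ≠ 0

/-! ## The class group (copy the files `helper463_DH_A3.lean`, …, replacing `Good` by `GoodR` and A2 by E2) -/

/-- **E3** (compare `helper463_DH_A3.lean`) -/
def S_E3 : Prop :=
  ∀ f : F[X], GoodR f → IsDedekindDomain (OO f)

/-- **E4** (uses A1, E2, B1; compare `helper463_DH_A4.lean`) -/
def S_E4 : Prop :=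
  ∀ f : F[X], GoodR f →
    (∀ x : OO f, dl f x = 0 → ∃ y : OO f, x = y ^ 3) ∧
    (∀ h₁ h₂ : OO f, h₁ ≠ 0 → h₂ ≠ 0 → h₁ * dl f h₂ = h₂ * dl f h₁ →
      ∃ c e : OO f, c ≠ 0 ∧ e ≠ 0 ∧ h₁ * e ^ 3 = h₂ * c ^ 3)

/-- **E6** (uses A1, E2; compare `helper463_DH_A5.lean`, `helper463_DH_A6.lean`) for `f` in `GoodR` and `(f v)'' = - v ^ 3` the elements `h` with
`δ h = v h` generate the unit ideal.  (First as in A5: every maximal ideal `Q` contains `π` with `δ π ∉ Q`; `Q ≠ 0` since `cc f X` is not a unit: its norm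
is `X²`, E2.  Then as in A6.) -/
def S_E6 : Prop :=
  ∀ f : F[X], GoodR f → ∀ v : F[X], IsSol f v →
    Ideal.span {h : OO f | dl f h = cc f v * h} = ⊤

/-- **E7** (uses A1, E2, E3, E4, E6; compare `helper463_DH_A7.lean`) -/
def S_E7 : Prop :=
  ∀ f : F[X], GoodR f → ∀ v : F[X], IsSol f v →
    ∃ h : OO f, h ≠ 0 ∧ dl f h = cc f v * h ∧ ∃ I : Ideal (OO f), I ^ 3 = Ideal.span {h}

/-- **E8** (uses A1, E2; compare `helper463_DH_A8.lean`) -/
def S_E8 : Prop :=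
  ∀ f : F[X], GoodR f → ∀ h : OO f, h ≠ 0 → ∀ I : Ideal (OO f), I ^ 3 = Ideal.span {h} →
    ∃ v : F[X], IsSol f v ∧ dl f h = cc f v * h

/-- **EU** (uses A1, E2, EN, E4, E8) the logarithmic derivatives of the units.
Proof: let `ε` be a unit with `im ≠ 0` (EN) and `deg (ε.re)` minimal; `ε = α + β s`, norm `γ` (constant).
(1) every unit `u` is a constant times `ε^n`, `n ∈ ℤ`: induction on `deg (u.re)`; if `u.im = 0`, `u` is constant.  Otherwise `u = a + b s`, norm `c`, `deg a ≥ deg α`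
(minimality).  The units `u ε` and `u ε̄` (`ε̄ = α - β s = γ ε⁻¹`) have real parts `a α + b β f` and `a α - b β f`, with product
`a² α² - (a² - c)(α² - γ) = c α² + γ a² - c γ` of degree `≤ 2 deg a`; their sum `2 a α` has degree `deg a + deg α`, so one of them has degree `≥ deg a + deg α` and
the other has degree `≤ deg a - deg α < deg a` (or is zero: impossible, norm).  `deg α ≥ 1` by E2.
(2) by E8 (`h = ε`, `I = ⊤`) there is `v₀` with `IsSol f v₀`, `δ ε = v₀ ε`.  `v₀ ≠ 0`: otherwise `ε = y³` (E4), `y` is a unit, `y.im ≠ 0`, and `ε.re = y.re³` (characteristic 3: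
`(a + b s)³ = a³ + b³ f s`), `deg (y.re) < deg (ε.re)`, contradiction.  (3) for `u = c ε^n` Leibniz gives `δ u = n v₀ u`; `n mod 3` is `0, 1, 2`.  Conversely `1, ε, ε²`
realise `0, v₀, 2 v₀ = - v₀`.  (`u` determines `v`: `OO f` is a domain.) -/
def S_EU : Prop :=
  ∀ f : F[X], GoodR f → ∃ v₀ : F[X], v₀ ≠ 0 ∧ IsSol f v₀ ∧
    ∀ v : F[X], (∃ u : OO f, IsUnit u ∧ dl f u = cc f v * u) ↔ (v = 0 ∨ v = v₀ ∨ v = - v₀)

/-- **E9** (uses A1, E2, E3, E4, E7, E8, EU, B1; compare `helper463_DH_A9.lean`) `#sol f = 3 #Cl(OO f)[3]`.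
Proof: as in A9: relation `R v c`: there are `h ≠ 0`, `I`, `I ^ 3 = (h)`, `δ h = v h`, class of `I` is `c`.  Every solution `v` has exactly one `c` (E7, E4), with `c ^ 3 = 1`;
every `c` with `c ^ 3 = 1` has some `v` (E8).  If `R v c` and `R v' c` then `v' - v ∈ {0, v₀, -v₀}`: `(x) I = (y) I'`, so `(x³ h) = (y³ h')`, `x³ h = u y³ h'` with a unit
`u`, and applying `δ`: `v x³ h = (δ u / u + v') u y³ h'`; so `v = v' + w`, `δ u = w u` (first: `δ u` is divisible by `u`, and `w = v - v'` satisfies `δ u = cc w u`), EU.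
Conversely if `δ u = w u`, `R v c` gives `R (v + w) c` (`h` replaced by `u h`).  So every class has exactly 3 solutions `v, v + v₀, v - v₀` (different: `v₀ ≠ 0`, `2 v₀ = - v₀`). -/
def S_E9 : Prop :=
  ∀ f : F[X], GoodR f → (sol f).card = 3 * cl3 f

/-- **EC** (uses E2, E3; compare `helper463_DH_C1.lean`, `helper463_DH_C2.lean`) -/
def S_EC : Prop :=
  ∀ f : F[X], GoodR f → 0 < cln f ∧ (cl3 f = 1 ↔ ¬ 3 ∣ cln f) ∧ (1 < cl3 f ↔ 3 ∣ cln f) ∧ ∃ r : ℕ, cl3 f = 3 ^ r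

/-! ## The first moment, `n = 2 g + 2` -/

/-- **EB** (uses B0, B1, B2, B4, CP; compare `helper463_DH_B5.lean`) the number of monic `f` of degree `n = 2g+2` with `W² ∣ f` and `(f v)'' = - v³` for `v` of
degree exactly `g`.
Proof: `U = W² v`; `F₀ = f v` has degree `3g+2`, leading coefficient that of `v`; `F₀ = G + X² v³`, `G'' = 0`; the coefficient of `G` at `3g+2` vanishes (`G'' = 0`), so the
leading coefficient of `F₀` is that of `X² v³`: `lc(v) = lc(v)³`, `lc(v)² = 1` (else there is none), and conversely for `lc(v)² = 1` the `f` correspond to the `G` of degree `< 3g+2` with `G'' = 0`,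
`U ∣ G + X² v³`.  `c = cpart U`, `U = c³ W₁`, `c ∣ v`, `G = c³ G₁`, `W₁ ∣ G₁ + X² (v/c)³`, `deg G₁ < M = 3 (g - deg c) + 2`, `D = deg W₁ = 2 w + g - 3 deg c`; as `M ≥ 2 D + 1`
(`4 w ≤ g + 1`) every residue class mod `W₁` contains exactly `q^(NN M - D)` such `G₁` (as in the proof of B4: sum B4 over degrees, or B2 + the kernel; or use B4 with
`j = M + 1` if `M + 1 ≢ 2` — here `M = 3 k + 2`, `M + 1 = 3 (k+1)`: fix the leading coefficient `a` and use that the number for `j = 3(k+1)` is `q^(NN j - D)` and the elements of degree `j` of the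
class form a coset of the elements of degree `< j = M + 1`, and those of degree `M = 3k+2` do not occur), `NN M - D = g + 2 - 2 w + deg c`. -/
def S_EB : Prop :=
  ∀ (g : ℕ) (W v : F[X]), W.Monic → Squarefree W → v ≠ 0 → v.natDegree = g → 4 * W.natDegree ≤ g + 1 →
    (cnt (2 * g + 2) W v : ℝ) = if v.leadingCoeff ^ 2 = 1 then
      qq F ^ (2 * g + 2) * qq F ^ ((cpart (W ^ 2 * v)).natDegree) / qq F ^ (2 * W.natDegree + g) else 0

/-- **EF1** (uses B0, B1; compare `helper463_DH_F1.lean`) -/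
def S_EF1 : Prop :=
  ∀ (g : ℕ) (W : F[X]), ∑ f ∈ (MON F (2 * g + 2)).filter (fun f => W ^ 2 ∣ f), (solz f).card =
    ∑ d ∈ Finset.range (g + 1), ∑ v ∈ DEG F d, cnt (2 * g + 2) W v

/-- **EF4** (uses B0, B1, B5, CP, EB, EF1; compare `helper463_DH_F4.lean`) `∑_{f ∈ MON (2g+2)} #sol f ≤ 6 q^{2g+2}`.
Proof: as F4: the degrees `d < g` contribute at most `q ∑_{k ≤ 2g+1} q^k ≤ 2 q^{2g+2}` (`NN M ≤ 2g+1` for `M ≤ 3g+1`, different values); the degree `d = g`: EB with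
`W = 1`: `∑_{v of degree g, lc = ± 1} q^{g+2} q^{deg cpart v} ≤ q^{g+2} · 2 ∑_k q^k q^k q^{g-3k} ≤ 3 q^{2g+2}`; and `1` for `v = 0`. -/
def S_EF4 : Prop :=
  ∀ g : ℕ, ∑ f ∈ MON F (2 * g + 2), (sol f).card ≤ 6 * Fintype.card F ^ (2 * g + 2)

/-- **EF5** (uses F5, B0, MU) `#SQF (2g+2) = q^{2g+2} - q^{2g+1}` (F5 (1) with `Y = 1`, `m = g + 1`, and MU (5); as F5 (2)). -/
def S_EF5 : Prop :=
  ∀ g : ℕ, ((SQF F (2 * g + 2)).card : ℝ) = qq F ^ (2 * g + 2) - qq F ^ (2 * g + 1)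

/-- **EF6** (uses B0, B1, TA, F3, EF4; compare `helper463_DH_F6.lean`) the tail: for `z ≤ g + 1`.  (`w = g + 1`: `f = W²`, F3 with `f₁ = 1`, `#sol 1 = 1`.) -/
def S_EF6 : Prop :=
  ∀ g z : ℕ, z ≤ g + 1 →
    |∑ w ∈ (Finset.range (g + 2)).filter (fun w => z < w), ∑ W ∈ MON F w,
      mu W * ∑ f ∈ (MON F (2 * g + 2)).filter (fun f => W ^ 2 ∣ f), ((solz f).card : ℝ)| ≤
      6 * (g + 2) ^ 3 * qq F ^ (2 * g + 2) / qq F ^ z

/-- **EF7** (uses B0, B5, EF1, EB, MU; compare `helper463_DH_F7.lean`) the main part: for `4 z ≤ g` as F7 for the `v` of degree `< g`; the `v` of degree `g` give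
`q^{2g+2} ∑_{w ≤ z} ∑_W mu W q^{-2w-g} ∑_{v of degree g, lc = ±1} q^{deg cpart(W² v)}`, and as `cpart` does not change when `v` is multiplied by a constant this is
`q^{2g+2} (2/(q-1)) Md g z`. -/
def S_EF7 : Prop :=
  ∀ g z : ℕ, 4 * z ≤ g →
    ∑ w ∈ Finset.range (z + 1), ∑ W ∈ MON F w,
      mu W * ∑ f ∈ (MON F (2 * g + 2)).filter (fun f => W ^ 2 ∣ f), ((solz f).card : ℝ) =
    ∑ d ∈ (Finset.range g).filter (fun d => (2 * g + 2 + d) % 3 ≠ 2), qq F ^ (NN (2 * g + 2 + d)) * Md F d z +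
      qq F ^ (2 * g + 2) * (2 / (qq F - 1)) * Md F g z

/-- **EF8** (pure real analysis; compare `helper463_DH_F8.lean`) the weights: when `M` runs over the `M < 3 g + 2` with `M % 3 ≠ 2`, `NN M` runs over `0, 1, …, 2 g + 1` once
each, and `NN (2g+2)` of them come from `M < 2 g + 2`; `NN (2g+2+d) ≤ 2g+1` for `d < g`, `NN (2g+2+d) - ⌊d/3⌋ ≤ (5g+10)/3`. -/
def S_EF8 : Prop :=
  ∀ q : ℕ, 3 ≤ q →
    (∀ g : ℕ, ∑ d ∈ (Finset.range g).filter (fun d => (2 * g + 2 + d) % 3 ≠ 2), (q : ℝ) ^ (NN (2 * g + 2 + d)) =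
      ((q : ℝ) ^ (2 * g + 2) - (q : ℝ) ^ (NN (2 * g + 2))) / ((q : ℝ) - 1)) ∧
    (∀ g z : ℕ, 4 * z ≤ g → ∑ d ∈ Finset.range g, (q : ℝ) ^ (NN (2 * g + 2 + d)) *
      ((d + 1) ^ 2 * (1 / (q : ℝ) ^ z + 1 / (q : ℝ) ^ (d / 3))) ≤
        2 * (q : ℝ) ^ 4 * (g + 1) ^ 3 * (q : ℝ) ^ (2 * g + 2) / (q : ℝ) ^ z) ∧
    (∀ g z : ℕ, 4 * z ≤ g → NN (2 * g + 2) + z ≤ 2 * g + 2)

/-- **EF9** (uses F5, EF4, EF5, EF6, EF7, EF8, ME2, B0, B1; compare `helper463_DH_F9.lean`) the first moment: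
`|∑_{f ∈ SQF (2g+2)} (#solz f - 3)| ≤ C (g+1)³ q^{2g+2}/q^{⌊g/4⌋}`.
Proof: as F9 with `z = ⌊g/4⌋`, F5 (1) with `m = g + 1`: main term `(1 - 1/q) q^{2g+2}` from `d < g` (EF8) and `q^{2g+2} (2/(q-1)) (q-1)(1-1/q) = 2 (1 - 1/q) q^{2g+2}` from `d = g` (ME2 with
`d = g`, error `q^{2g+2} · 2/(q-1) · 8 q (g+1)² (q^{-z} + q^{-⌊g/3⌋})`); `#SQF = (1 - 1/q) q^{2g+2}` (EF5).  For `g < 4` everything is bounded by EF4. -/
def S_EF9 : Prop :=
  ∃ Cst : ℝ, 0 < Cst ∧ ∀ g : ℕ,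
    |∑ f ∈ SQF F (2 * g + 2), (((solz f).card : ℝ) - 3)| ≤ Cst * (g + 1) ^ 3 * qq F ^ (2 * g + 2) / qq F ^ (g / 4)

/-- **ER** (uses B0, B1, E9, EC, EF9, EF5) the result.  `3 cl3 f - 4 = #sol f - 4 = #solz f - 3`, so `∑ (cl3 f - 4/3) = (1/3) ∑ (#solz f - 3)`.  And `cl3 f ≥ 1 + 2 [cl3 f > 1]`, so
`2 #{cl3 f > 1} ≤ ∑ (cl3 f - 1) ≤ (1/3) #SQF + error`: at least `(5/6 - ε) #SQF` of the `f` have `cl3 f = 1`. -/
def S_ER : Prop :=
  (∃ Cst : ℝ, ∀ g : ℕ, |∑ f ∈ SQF F (2 * g + 2), ((cl3 f : ℝ) - 4 / 3)| ≤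
      Cst * (g + 1) ^ 3 * (Fintype.card F : ℝ) ^ (2 * g + 2) / (Fintype.card F : ℝ) ^ (g / 4)) ∧
  (∀ ε : ℝ, 0 < ε → ∃ g₀ : ℕ, ∀ g ≥ g₀, (5 / 6 - ε) * ((SQF F (2 * g + 2)).card : ℝ) ≤
      (((SQF F (2 * g + 2)).filter (fun f => cl3 f = 1)).card : ℝ))

end DH
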