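import Pool.Agent.H463.DH.Stm5

/-!
# Sixth part: imaginary quadratic function fields of characteristic 3 in which the infinite place is inert: the average of `#Cl[3]` is `2`

`f = a f₁` with a nonsquare `a` and `f₁` monic squarefree of even degree `2g+2`.  The class group part is as in `Stm.lean`
(the units of `OO f` are constants); for the count one replaces `(f v)'' = - v³` by `(f₁ w)'' = - β w³`, `β` a nonsquare.
Statements (as `Prop`s) with paper proofs.
-/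

open Polynomial
open scoped Classical

noncomputable section

namespace DH

variable (F : Type) [Field F] [Fintype F] [CharP F 3]

variable {F} in
/-- squarefree of even positive degree, the leading coefficient is not a square. -/
def GoodI (f : F[X]) : Prop := Squarefree f ∧ Even f.natDegree ∧ 0 < f.natDegree ∧ ¬ IsSquare f.leadingCoeff

variable {F} in
/-- The equation `(f v)'' = - β v ^ 3`. -/
def IsSolB (β : F) (f v : F[X]) : Prop := derivative (derivative (f * v)) = - (C β * v ^ 3)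

variable {F} in
/-- All solutions `v` (including `0`). -/
def solB (β : F) (f : F[X]) : Finset F[X] := (POL F f.natDegree).filter (fun v => IsSolB β f v)

variable {F} in
/-- The nonzero solutions. -/
def solzB (β : F) (f : F[X]) : Finset F[X] := (POL F f.natDegree).filter (fun v => v ≠ 0 ∧ IsSolB β f v)

variable {F} in
/-- The number of monic `f` of degree `n` with `W ^ 2 ∣ f` and `(f v)'' = - β v ^ 3`. -/
def cntB (β : F) (n : ℕ) (W v : F[X]) : ℕ := ((MON F n).filter (fun f => W ^ 2 ∣ f ∧ IsSolB β f v)).card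

/-! ## The class group (copy the files `helper463_DH_A2.lean`, …, replacing `Good` by `GoodI`) -/

/-- **I2** (compare `helper463_DH_A2.lean`) Proof: norm `N x = a² - f b²`, multiplicative; the leading coefficients of `a²` (a square) and `f b²` (not a square) do not cancel, so
`deg N x = max (2 deg a) (deg f + 2 deg b)`, `N x = 0` only for `x = 0`; a unit has constant norm, so `b = 0`, `a` constant. -/
def S_I2 : Prop :=
  ∀ f : F[X], GoodI f → IsDomain (OO f) ∧ ∀ u : OO f, IsUnit u → ∃ a : F, a ≠ 0 ∧ u = cc f (C a)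

/-- **I3** (compare `helper463_DH_A3.lean`, `helper463_DH_E3.lean`) -/
def S_I3 : Prop := ∀ f : F[X], GoodI f → IsDedekindDomain (OO f)

/-- **I4** (uses A1, I2, B1; compare `helper463_DH_A4.lean`) -/
def S_I4 : Prop :=
  ∀ f : F[X], GoodI f →
    (∀ x : OO f, dl f x = 0 → ∃ y : OO f, x = y ^ 3) ∧
    (∀ h₁ h₂ : OO f, h₁ ≠ 0 → h₂ ≠ 0 → h₁ * dl f h₂ = h₂ * dl f h₁ →
      ∃ c e : OO f, c ≠ 0 ∧ e ≠ 0 ∧ h₁ * e ^ 3 = h₂ * c ^ 3)

/-- **I6** (uses A1, I2; compare `helper463_DH_A5.lean`, `helper463_DH_A6.lean`, `helper463_DH_E6.lean`) -/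
def S_I6 : Prop :=
  ∀ f : F[X], GoodI f → ∀ v : F[X], IsSol f v → Ideal.span {h : OO f | dl f h = cc f v * h} = ⊤

/-- **I7** (uses A1, I2, I3, I4, I6; compare `helper463_DH_A7.lean`, `helper463_DH_E7.lean`) -/
def S_I7 : Prop :=
  ∀ f : F[X], GoodI f → ∀ v : F[X], IsSol f v →
    ∃ h : OO f, h ≠ 0 ∧ dl f h = cc f v * h ∧ ∃ I : Ideal (OO f), I ^ 3 = Ideal.span {h}

/-- **I8** (uses A1, I2; compare `helper463_DH_A8.lean`) -/
def S_I8 : Prop :=
  ∀ f : F[X], GoodI f → ∀ h : OO f, h ≠ 0 → ∀ I : Ideal (OO f), I ^ 3 = Ideal.span {h} →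
    ∃ v : F[X], IsSol f v ∧ dl f h = cc f v * h

/-- **I9** (uses A1, I2, I3, I4, I7, I8, B1; compare `helper463_DH_A9.lean`) -/
def S_I9 : Prop := ∀ f : F[X], GoodI f → cl3 f = (sol f).card

/-- **IC** (uses I2, I3; compare `helper463_DH_C1.lean`, `helper463_DH_C2.lean`, `helper463_DH_EC.lean`) -/
def S_IC : Prop :=
  ∀ f : F[X], GoodI f → 0 < cln f ∧ (cl3 f = 1 ↔ ¬ 3 ∣ cln f) ∧ (1 < cl3 f ↔ 3 ∣ cln f)

/-- **I1** (uses B0, B1) for a nonsquare `a` there is a nonsquare `β` with `#sol (a f) = #solB β f` for all `f ≠ 0`.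
Proof: cubing is bijective on `F`; `β³ = a⁻¹` (if `β` were a square, `a` would be one).  `(a f v)'' = - v³` iff `(f v)'' = - β³ v³` iff for `w = β v`:
`(f w)'' = - β w³`.  (Degrees: `POL F f.natDegree` is the range in both cases.) -/
def S_I1 : Prop :=
  ∀ a : F, ¬ IsSquare a → ∃ β : F, ¬ IsSquare β ∧ ∀ f : F[X], f ≠ 0 → (sol (C a * f)).card = (solB β f).card

/-! ## The first moment, `n = 2 g + 2`, `β` a nonsquare -/

/-- **IB1** (uses B0) degrees: for `f` monic of degree `2g+2` and `β` not a square a nonzero solution has degree `< g`; so `solB`, `solzB` contain all (nonzero) solutions;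
`#solB = #solzB + 1`.
Proof: as B1 (5): `3 deg v ≤ deg f + deg v - 2`, so `deg v ≤ g`; if `deg v = g`, `f v` has degree `3g+2`, and the coefficient of `(f v)''` at `3g` is `(3g+2)(3g+1) lc(v) = 2 lc(v) = - lc(v)`,
which must be `- β lc(v)³`, so `β lc(v)² = 1`, `β` would be a square. (`β ≠ 0` as `0` is a square.) -/
def S_IB1 : Prop :=
  ∀ β : F, ¬ IsSquare β →
    (∀ (g : ℕ) (f v : F[X]), f.Monic → f.natDegree = 2 * g + 2 → v ≠ 0 → IsSolB β f v → v.natDegree < g) ∧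
    (∀ (n : ℕ) (f v : F[X]), f.natDegree = n → v ≠ 0 → IsSolB β f v → 2 * v.natDegree + 2 ≤ n) ∧
    (∀ f : F[X], (solB β f).card = (solzB β f).card + 1)

/-- **IB5** (uses B0, B1, B4, CP; compare `helper463_DH_B5.lean`) as B5 with `β`.  Proof: as B5 with `F₀ = f v = G + X² β v³` (`(X² β v³)'' = 2 β v³ = - β v³`); for
`(n + d) % 3 = 2` there is none: `deg (f v)'' = n + d - 2 = 3 d` would follow, against `2 d + 3 ≤ n`. -/
def S_IB5 : Prop :=
  ∀ (β : F) (n d : ℕ) (W v : F[X]), β ≠ 0 → W.Monic → Squarefree W → v ≠ 0 → v.natDegree = d → 2 * d + 3 ≤ n →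
    2 * (2 * W.natDegree + d) + 1 ≤ n + d →
    (cntB β n W v : ℝ) = if (n + d) % 3 = 2 then 0 else
      qq F ^ (NN (n + d)) * qq F ^ ((cpart (W ^ 2 * v)).natDegree) / qq F ^ (2 * W.natDegree + d)

/-- **IF1** (uses B0, IB1; compare `helper463_DH_F1.lean`, `helper463_DH_EF1.lean`) -/
def S_IF1 : Prop :=
  ∀ β : F, ¬ IsSquare β → ∀ (g : ℕ) (W : F[X]),
    ∑ f ∈ (MON F (2 * g + 2)).filter (fun f => W ^ 2 ∣ f), (solzB β f).card =
      ∑ d ∈ Finset.range g, ∑ v ∈ DEG F d, cntB β (2 * g + 2) W v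

/-- **IF3** (uses B0, IB1; compare `helper463_DH_F2.lean`, `helper463_DH_F3.lean`) `β` not a square (so `β ≠ 0`).  Proof: as F2 (mod `P`: `(P')² f v ≡ β v³`, so `v ≡ 0` or
`v² ≡ β⁻¹ (P')² f`, at most 3 classes; the solutions `v = P v₁` of `P² f` correspond to the solutions `v₁` of `f`), then as F3 by induction over the factors. -/
def S_IF3 : Prop :=
  ∀ β : F, ¬ IsSquare β → ∀ (n w : ℕ) (W : F[X]), W.Monic → W.natDegree = w → 2 * w ≤ n →
    ∑ f ∈ (MON F n).filter (fun f => W ^ 2 ∣ f), (solB β f).card ≤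
      3 ^ (Multiset.card (UniqueFactorizationMonoid.normalizedFactors W)) * ∑ f₁ ∈ MON F (n - 2 * w), (solB β f₁).card

/-- **IF4** (uses B0, IB1, IB5, CP, IF1; compare `helper463_DH_F4.lean`, `helper463_DH_EF4.lean`) -/
def S_IF4 : Prop :=
  ∀ β : F, ¬ IsSquare β → ∀ g : ℕ, ∑ f ∈ MON F (2 * g + 2), (solB β f).card ≤ 3 * Fintype.card F ^ (2 * g + 2)

/-- **IF6** (uses B0, IB1, TA, IF3, IF4; compare `helper463_DH_EF6.lean`) -/
def S_IF6 : Prop :=
  ∀ β : F, ¬ IsSquare β → ∀ g z : ℕ, z ≤ g + 1 →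
    |∑ w ∈ (Finset.range (g + 2)).filter (fun w => z < w), ∑ W ∈ MON F w,
      mu W * ∑ f ∈ (MON F (2 * g + 2)).filter (fun f => W ^ 2 ∣ f), ((solzB β f).card : ℝ)| ≤
      6 * (g + 2) ^ 3 * qq F ^ (2 * g + 2) / qq F ^ z

/-- **IF7** (uses B0, IB5, IF1; compare `helper463_DH_F7.lean`, `helper463_DH_EF7.lean`) -/
def S_IF7 : Prop :=
  ∀ β : F, ¬ IsSquare β → ∀ g z : ℕ, 4 * z ≤ g →
    ∑ w ∈ Finset.range (z + 1), ∑ W ∈ MON F w,
      mu W * ∑ f ∈ (MON F (2 * g + 2)).filter (fun f => W ^ 2 ∣ f), ((solzB β f).card : ℝ) =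
    ∑ d ∈ (Finset.range g).filter (fun d => (2 * g + 2 + d) % 3 ≠ 2), qq F ^ (NN (2 * g + 2 + d)) * Md F d z

/-- **IF9** (uses F5, EF5, EF8, IF4, IF6, IF7, ME2, B0, IB1; compare `helper463_DH_F9.lean`, `helper463_DH_EF9.lean`) -/
def S_IF9 : Prop :=
  ∀ β : F, ¬ IsSquare β → ∃ Cst : ℝ, 0 < Cst ∧ ∀ g : ℕ,
    |∑ f ∈ SQF F (2 * g + 2), (((solzB β f).card : ℝ) - 1)| ≤ Cst * (g + 1) ^ 3 * qq F ^ (2 * g + 2) / qq F ^ (g / 4)

/-- **IR** (uses B0, I9, I1, IB1, IF9) `cl3 (a f) = #sol (a f) = #solB β f = #solzB β f + 1` for `f ∈ SQF (2g+2)` (`GoodI (C a * f)`). -/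
def S_IR : Prop :=
  ∀ a : F, ¬ IsSquare a → ∃ Cst : ℝ, ∀ g : ℕ, |∑ f ∈ SQF F (2 * g + 2), ((cl3 (C a * f) : ℝ) - 2)| ≤
      Cst * (g + 1) ^ 3 * (Fintype.card F : ℝ) ^ (2 * g + 2) / (Fintype.card F : ℝ) ^ (g / 4)

end DH
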