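import Pool.Agent.H463.DH.Stm2

/-!
# TL: bound for `TT1` by the divisor bound (helper628)
-/

open Polynomial
open scoped Classical

noncomputable section

namespace DH

namespace XTL

set_option linter.unusedSectionVars false

variable {F : Type} [Field F] [Fintype F] [CharP F 3]

lemma qq_ge_one : (1 : ℝ) ≤ qq F := by
  unfold qq
  exact_mod_cast Fintype.card_pos

lemma qq_pos : (0 : ℝ) < qq F := lt_of_lt_of_le one_pos qq_ge_one

lemma Rz_nonneg (Z : ℕ) (e x : F[X]) : 0 ≤ Rz Z e x := by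
  unfold Rz
  exact pow_nonneg qq_pos.le _

/-- the gcd decomposition -/
lemma decomp {e x : F[X]} (he : e.Monic) (hs : Squarefree e) :
    ∃ h e' : F[X], h.Monic ∧ e'.Monic ∧ e = h * e' ∧ h ∣ x ∧ IsCoprime e' x := by
  set d := EuclideanDomain.gcd e x with hd
  have hd0 : d ≠ 0 := by
    intro h0
    exact he.ne_zero ((EuclideanDomain.gcd_eq_zero_iff.1 h0).1)
  have hn : Associated (normalize d) d := normalize_associated d
  have hde : normalize d ∣ e := hn.dvd.trans (EuclideanDomain.gcd_dvd_left e x)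
  have hdx : normalize d ∣ x := hn.dvd.trans (EuclideanDomain.gcd_dvd_right e x)
  have hm : (normalize d).Monic := monic_normalize hd0
  obtain ⟨e', he'⟩ := hde
  obtain ⟨x', hx'⟩ := hdx
  have he'm : e'.Monic := by
    apply hm.of_mul_monic_left
    rw [← he']
    exact he
  refine ⟨normalize d, e', hm, he'm, he', ⟨x', hx'⟩, ?_⟩
  -- coprime to the cofactor
  have hbez : ∃ a b : F[X], normalize d = e * a + x * b := by
    obtain ⟨k, hk⟩ := hn.symm.dvd
    have hg : d = e * EuclideanDomain.gcdA e x + x * EuclideanDomain.gcdB e x :=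
      EuclideanDomain.gcd_eq_gcd_ab e x
    refine ⟨EuclideanDomain.gcdA e x * k, EuclideanDomain.gcdB e x * k, ?_⟩
    calc normalize d = d * k := hk
      _ = (e * EuclideanDomain.gcdA e x + x * EuclideanDomain.gcdB e x) * k := by rw [← hg]
      _ = _ := by ring
  obtain ⟨a, b, hab⟩ := hbez
  have hcop1 : IsCoprime e' x' := by
    refine ⟨a, b, ?_⟩
    apply mul_left_cancel₀ hm.ne_zero
    have h1 : normalize d = (normalize d * e') * a + (normalize d * x') * b := by
      rw [← he', ← hx']; exact hab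
    linear_combination -h1
  have hcop2 : IsCoprime e' (normalize d) := by
    rw [he'] at hs
    exact ((isRelPrime_iff_isCoprime.1 (squarefree_mul_iff.1 hs).1)).symm
  rw [hx']
  exact hcop2.mul_right hcop1

/-- if `e` is squarefree and `a ^ 3` divides `e x` then `a ^ 2` divides `x` -/
lemma sq_dvd_of_cube {e a x : F[X]} (he : e.Monic) (hs : Squarefree e) (h : a ^ 3 ∣ e * x) :
    a ^ 2 ∣ x := by
  obtain ⟨h', e', hhm, he'm, hee, hha, hcop⟩ := decomp (x := a) he hs
  obtain ⟨a₁, ha₁⟩ := hha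
  have h1 : h' ^ 2 * a₁ ^ 3 ∣ e' * x := by
    apply (mul_dvd_mul_iff_left hhm.ne_zero).1
    have e1 : h' * (h' ^ 2 * a₁ ^ 3) = a ^ 3 := by rw [ha₁]; ring
    have e2 : h' * (e' * x) = e * x := by rw [hee]; ring
    rw [e1, e2]
    exact h
  have h2 : IsCoprime e' (h' ^ 2 * a₁ ^ 3) := by
    have h3 : h' ^ 2 * a₁ ^ 3 ∣ a ^ 3 := ⟨h', by rw [ha₁]; ring⟩
    exact (hcop.pow_right (n := 3)).of_isCoprime_of_dvd_right h3
  have h4 : h' ^ 2 * a₁ ^ 3 ∣ x := h2.symm.dvd_of_dvd_mul_left h1
  refine Dvd.dvd.trans ?_ h4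
  exact ⟨a₁, by rw [ha₁]; ring⟩

/-- sum over the nonzero polynomials -/
lemma sum_POLz (hB0 : S_B0 F) (M : ℕ) :
    ∑ x ∈ POLz F M, qq F ^ (M - 1 - x.natDegree) ≤ M * qq F ^ M := by
  obtain ⟨hPOL, _, hDEG, _, _, hcard⟩ := hB0
  have hq := qq_pos (F := F)
  have hq1 := qq_ge_one (F := F)
  have hmaps : ∀ x ∈ POLz F M, x.natDegree ∈ Finset.range M := by
    intro x hx
    unfold POLz at hx
    rw [Finset.mem_filter, hPOL] at hx
    rw [Finset.mem_range]
    exact (natDegree_lt_iff_degree_lt hx.2).2 hx.1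
  rw [← Finset.sum_fiberwise_of_maps_to hmaps]
  have hstep : ∀ d ∈ Finset.range M,
      ∑ x ∈ POLz F M with x.natDegree = d, qq F ^ (M - 1 - x.natDegree) ≤ qq F ^ M := by
    intro d hd
    rw [Finset.mem_range] at hd
    have hsub : (POLz F M).filter (fun x => x.natDegree = d) ⊆ DEG F d := by
      intro x hx
      rw [Finset.mem_filter] at hx
      have hx0 : x ≠ 0 := (Finset.mem_filter.1 hx.1).2
      rw [hDEG]
      exact ⟨hx0, hx.2⟩
    calc ∑ x ∈ POLz F M with x.natDegree = d, qq F ^ (M - 1 - x.natDegree) =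
        ∑ x ∈ POLz F M with x.natDegree = d, qq F ^ (M - 1 - d) := by
          apply Finset.sum_congr rfl
          intro x hx
          rw [(Finset.mem_filter.1 hx).2]
      _ ≤ ∑ x ∈ DEG F d, qq F ^ (M - 1 - d) :=
          Finset.sum_le_sum_of_subset_of_nonneg hsub (fun x _ _ => by positivity)
      _ = ((Fintype.card F - 1 : ℕ) : ℝ) * qq F ^ d * qq F ^ (M - 1 - d) := by
          rw [Finset.sum_const, hcard, nsmul_eq_mul]
          push_cast
          rfl
      _ ≤ qq F * qq F ^ d * qq F ^ (M - 1 - d) := by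
          gcongr
          unfold qq
          exact_mod_cast Nat.sub_le _ _
      _ = qq F ^ M := by
          rw [← pow_succ', ← pow_add]
          congr 1
          omega
  refine (Finset.sum_le_sum hstep).trans ?_
  rw [Finset.sum_const, Finset.card_range, nsmul_eq_mul]

/-- sum over the multiples of a square -/
lemma sum_sq (hB0 : S_B0 F) (Z k : ℕ) {a : F[X]} (ha : a.Monic) (hk : a.natDegree = k) :
    ∑ x ∈ (POLz F Z).filter (fun x => a ^ 2 ∣ x), qq F ^ ((Z - 1 - x.natDegree) / 3) ≤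
      Z * qq F ^ Z / qq F ^ (2 * k) := by
  have hB := hB0
  obtain ⟨hPOL, _, hDEG, _, _, hcard⟩ := hB0
  have hq := qq_pos (F := F)
  have hq1 := qq_ge_one (F := F)
  have hmemP : ∀ (M : ℕ) (x : F[X]), x ∈ POLz F M ↔ x ≠ 0 ∧ x.natDegree < M := by
    intro M x
    unfold POLz
    rw [Finset.mem_filter, hPOL]
    constructor
    · rintro ⟨h1, h2⟩
      exact ⟨h2, (natDegree_lt_iff_degree_lt h2).2 h1⟩
    · rintro ⟨h1, h2⟩
      exact ⟨(natDegree_lt_iff_degree_lt h1).1 h2, h1⟩
  have ha2 : (a ^ 2).Monic := ha.pow 2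
  have ha2d : (a ^ 2).natDegree = 2 * k := by rw [ha.natDegree_pow, hk]
  have hsub : (POLz F Z).filter (fun x => a ^ 2 ∣ x) ⊆
      (POLz F (Z - 2 * k)).image (fun x => a ^ 2 * x) := by
    intro x hx
    rw [Finset.mem_filter, hmemP] at hx
    obtain ⟨⟨hx0, hxd⟩, ⟨x₁, rfl⟩⟩ := hx
    have hx10 : x₁ ≠ 0 := right_ne_zero_of_mul hx0
    rw [Finset.mem_image]
    refine ⟨x₁, ?_, rfl⟩
    rw [hmemP]
    refine ⟨hx10, ?_⟩
    rw [natDegree_mul ha2.ne_zero hx10, ha2d] at hxd
    omega
  have hinj : Set.InjOn (fun x => a ^ 2 * x) (POLz F (Z - 2 * k) : Set F[X]) := by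
    intro x _ y _ hxy
    exact mul_left_cancel₀ ha2.ne_zero hxy
  calc ∑ x ∈ (POLz F Z).filter (fun x => a ^ 2 ∣ x), qq F ^ ((Z - 1 - x.natDegree) / 3) ≤
      ∑ x ∈ (POLz F (Z - 2 * k)).image (fun x => a ^ 2 * x),
        qq F ^ ((Z - 1 - x.natDegree) / 3) :=
        Finset.sum_le_sum_of_subset_of_nonneg hsub (fun x _ _ => by positivity)
    _ = ∑ x ∈ POLz F (Z - 2 * k), qq F ^ ((Z - 1 - (a ^ 2 * x).natDegree) / 3) :=
        Finset.sum_image hinj
    _ ≤ ∑ x ∈ POLz F (Z - 2 * k), qq F ^ ((Z - 2 * k) - 1 - x.natDegree) := by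
        apply Finset.sum_le_sum
        intro x hx
        rw [hmemP] at hx
        apply pow_le_pow_right₀ hq1
        rw [natDegree_mul ha2.ne_zero hx.1, ha2d]
        omega
    _ ≤ ((Z - 2 * k : ℕ) : ℝ) * qq F ^ (Z - 2 * k) := sum_POLz hB _
    _ ≤ Z * qq F ^ Z / qq F ^ (2 * k) := by
        rcases le_or_gt (2 * k) Z with h | h
        · have e1 : qq F ^ Z / qq F ^ (2 * k) = qq F ^ (Z - 2 * k) := by
            rw [div_eq_iff (by positivity), ← pow_add]
            congr 1
            omega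
          rw [mul_div_assoc, e1]
          gcongr
          exact Nat.sub_le _ _
        · have e1 : Z - 2 * k = 0 := by omega
          rw [e1]
          simp only [Nat.cast_zero, zero_mul]
          positivity

/-- the weight -/
def ww (Z : ℕ) (x : F[X]) : ℝ := qq F ^ ((Z - 1 - x.natDegree) / 3) *
  ∑ k ∈ Finset.range Z, ∑ a ∈ MON F k, if a ^ 2 ∣ x then qq F ^ k else 0

lemma ww_nonneg (Z : ℕ) (x : F[X]) : 0 ≤ ww Z x := by
  have hq := qq_pos (F := F)
  unfold ww
  apply mul_nonneg (by positivity)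
  refine Finset.sum_nonneg (fun k _ => Finset.sum_nonneg (fun a _ => ?_))
  split_ifs <;> positivity

lemma sum_ww (hB0 : S_B0 F) (Z : ℕ) : ∑ x ∈ POLz F Z, ww Z x ≤ (Z : ℝ) ^ 2 * qq F ^ Z := by
  have hB := hB0
  obtain ⟨_, hMON, _, _, hcM, _⟩ := hB0
  have hq := qq_pos (F := F)
  have e1 : ∑ x ∈ POLz F Z, ww Z x = ∑ k ∈ Finset.range Z, ∑ a ∈ MON F k,
      qq F ^ k * ∑ x ∈ (POLz F Z).filter (fun x => a ^ 2 ∣ x),
        qq F ^ ((Z - 1 - x.natDegree) / 3) := by
    unfold ww
    simp_rw [Finset.mul_sum]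
    rw [Finset.sum_comm]
    apply Finset.sum_congr rfl
    intro k _
    rw [Finset.sum_comm]
    apply Finset.sum_congr rfl
    intro a _
    rw [Finset.sum_filter]
    apply Finset.sum_congr rfl
    intro x _
    split_ifs <;> ring
  rw [e1]
  have hstep : ∀ k ∈ Finset.range Z, ∑ a ∈ MON F k,
      qq F ^ k * ∑ x ∈ (POLz F Z).filter (fun x => a ^ 2 ∣ x),
        qq F ^ ((Z - 1 - x.natDegree) / 3) ≤ Z * qq F ^ Z := by
    intro k _
    calc ∑ a ∈ MON F k, qq F ^ k * ∑ x ∈ (POLz F Z).filter (fun x => a ^ 2 ∣ x),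
        qq F ^ ((Z - 1 - x.natDegree) / 3) ≤
        ∑ a ∈ MON F k, qq F ^ k * (Z * qq F ^ Z / qq F ^ (2 * k)) := by
          apply Finset.sum_le_sum
          intro a ha
          obtain ⟨h1, h2⟩ := (hMON k a).1 ha
          exact mul_le_mul_of_nonneg_left (sum_sq hB Z k h1 h2) (by positivity)
      _ = qq F ^ k * (qq F ^ k * (Z * qq F ^ Z / qq F ^ (2 * k))) := by
          rw [Finset.sum_const, hcM, nsmul_eq_mul]
          unfold qq
          push_cast
          ring
      _ = Z * qq F ^ Z := by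
          have e2 : qq F ^ (2 * k) = qq F ^ k * qq F ^ k := by rw [← pow_add]; congr 1; ring
          rw [e2]
          field_simp
  refine (Finset.sum_le_sum hstep).trans ?_
  rw [Finset.sum_const, Finset.card_range, nsmul_eq_mul]
  apply le_of_eq
  ring

lemma Rz_le (hB0 : S_B0 F) (hCP : S_CP F) {Z : ℕ} {e x : F[X]} (he : e.Monic)
    (hs : Squarefree e) (hx : x ∈ POLz F Z) : Rz Z e x ≤ ww Z x := by
  obtain ⟨hPOL, hMON, _, _, _, _⟩ := hB0
  have hq := qq_pos (F := F)
  unfold POLz at hx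
  rw [Finset.mem_filter, hPOL] at hx
  obtain ⟨hxd, hx0⟩ := hx
  have hxd' : x.natDegree < Z := (natDegree_lt_iff_degree_lt hx0).2 hxd
  have hex : e * x ≠ 0 := mul_ne_zero he.ne_zero hx0
  obtain ⟨hcm, hc3, _⟩ := hCP.1 _ hex
  set a := cpart (e * x) with ha
  have ha2 : a ^ 2 ∣ x := sq_dvd_of_cube he hs hc3
  have hdeg : a.natDegree < Z := by
    have h1 : (a ^ 2).natDegree ≤ x.natDegree := natDegree_le_of_dvd ha2 hx0
    rw [hcm.natDegree_pow] at h1
    omega
  unfold Rz ww
  rw [pow_add]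
  apply mul_le_mul_of_nonneg_left _ (by positivity)
  rw [← ha]
  have hterm : ∀ (k : ℕ) (b : F[X]), 0 ≤ (if b ^ 2 ∣ x then qq F ^ k else 0) := by
    intro k b
    split_ifs <;> positivity
  calc qq F ^ a.natDegree = (if a ^ 2 ∣ x then qq F ^ a.natDegree else 0) := by rw [if_pos ha2]
    _ ≤ ∑ b ∈ MON F a.natDegree, (if b ^ 2 ∣ x then qq F ^ a.natDegree else 0) := by
        apply Finset.single_le_sum (f := fun b : F[X] =>
          (if b ^ 2 ∣ x then qq F ^ a.natDegree else 0)) (fun b _ => hterm _ b)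
        rw [hMON]
        exact ⟨hcm, rfl⟩
    _ ≤ _ := by
        apply Finset.single_le_sum (f := fun k : ℕ =>
          ∑ b ∈ MON F k, (if b ^ 2 ∣ x then qq F ^ k else 0))
          (fun k _ => Finset.sum_nonneg (fun b _ => hterm k b))
        rw [Finset.mem_range]
        exact hdeg

/-- the number of the `e` -/
lemma card_e (hB0 : S_B0 F) (m : ℕ) (x y : F[X]) (hW : Wr x y ≠ 0) :
    (((MON F m).filter (fun e => Squarefree e ∧ Cnd e x y)).card : ℝ) ≤ (tau (Wr x y) : ℝ) := by
  obtain ⟨hPOL, hMON, _, _, _, _⟩ := hB0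
  rcases Finset.eq_empty_or_nonempty ((MON F m).filter (fun e => Squarefree e ∧ Cnd e x y)) with
    h | h
  · rw [h]
    simp
  · obtain ⟨e, he⟩ := h
    rw [Finset.mem_filter, hMON] at he
    obtain ⟨⟨hem, hed⟩, _, hC⟩ := he
    have hm : m < (Wr x y).natDegree + 1 := by
      rw [← hed]
      exact Nat.lt_succ_of_le (natDegree_le_of_dvd hC.2.1 hW)
    have h1 : ((MON F m).filter (fun e => Squarefree e ∧ Cnd e x y)).card ≤
        ((MON F m).filter (fun a => a ∣ Wr x y)).card := by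
      apply Finset.card_le_card
      intro b hb
      rw [Finset.mem_filter] at hb ⊢
      exact ⟨hb.1, hb.2.2.2.1⟩
    have h2 : ((MON F m).filter (fun a => a ∣ Wr x y)).card ≤ tau (Wr x y) := by
      unfold tau
      apply Finset.single_le_sum (f := fun k : ℕ => ((MON F k).filter (fun a => a ∣ Wr x y)).card)
        (fun k _ => Nat.zero_le _)
      rw [Finset.mem_range]
      exact hm
    exact_mod_cast h1.trans h2

end XTL

theorem p_TL (F : Type) [Field F] [Fintype F] [CharP F 3] (hB0 : S_B0 F) (hCP : S_CP F)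
    (hDB : S_DB F) : S_TL F := by
  intro δ hδ
  obtain ⟨C, hC, hD⟩ := hDB δ hδ
  refine ⟨C, hC, ?_⟩
  intro g m hmg
  have hB := hB0
  obtain ⟨hPOL, hMON, _, _, _, _⟩ := hB0
  have hq := XTL.qq_pos (F := F)
  have hq1 := XTL.qq_ge_one (F := F)
  set Z := g - m with hZ
  have hZg : Z ≤ g := Nat.sub_le _ _
  -- the number of the `e` for given `x`, `y`
  have hcount : ∀ x ∈ POLz F Z, ∀ y ∈ POLz F Z,
      (((MON F m).filter (fun e => Squarefree e ∧ Cnd e x y)).card : ℝ) ≤
        C * qq F ^ (2 * δ * (g : ℝ)) := by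
    intro x hx y hy
    by_cases hW : Wr x y = 0
    · have he : (MON F m).filter (fun e => Squarefree e ∧ Cnd e x y) = ∅ := by
        rw [Finset.filter_eq_empty_iff]
        rintro e _ ⟨_, h1, _⟩
        exact h1 hW
      rw [he]
      simp only [Finset.card_empty, Nat.cast_zero]
      positivity
    · refine (XTL.card_e hB m x y hW).trans ((hD _ hW).trans ?_)
      apply mul_le_mul_of_nonneg_left _ hC.le
      apply Real.rpow_le_rpow_of_exponent_le hq1
      have hdx : x.natDegree < Z := by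
        unfold POLz at hx
        rw [Finset.mem_filter, hPOL] at hx
        exact (natDegree_lt_iff_degree_lt hx.2).2 hx.1
      have hdy : y.natDegree < Z := by
        unfold POLz at hy
        rw [Finset.mem_filter, hPOL] at hy
        exact (natDegree_lt_iff_degree_lt hy.2).2 hy.1
      have hdW : (Wr x y).natDegree ≤ 2 * g := by
        unfold Wr
        refine (natDegree_sub_le _ _).trans ?_
        apply max_le
        · refine natDegree_mul_le.trans ?_
          have := natDegree_derivative_le x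
          omega
        · refine natDegree_mul_le.trans ?_
          have := natDegree_derivative_le y
          omega
      have hdW' : ((Wr x y).natDegree : ℝ) ≤ 2 * (g : ℝ) := by exact_mod_cast hdW
      calc δ * ((Wr x y).natDegree : ℝ) ≤ δ * (2 * (g : ℝ)) :=
            mul_le_mul_of_nonneg_left hdW' hδ.le
        _ = 2 * δ * (g : ℝ) := by ring
  have hsum := XTL.sum_ww hB Z
  have hsum0 : 0 ≤ ∑ x ∈ POLz F Z, XTL.ww Z x :=
    Finset.sum_nonneg (fun x _ => XTL.ww_nonneg Z x)
  have hCq : 0 ≤ C * qq F ^ (2 * δ * (g : ℝ)) := by positivity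
  calc ∑ e ∈ (MON F m).filter (fun e => Squarefree e), TT1 F Z e ≤
      ∑ e ∈ (MON F m).filter (fun e => Squarefree e), ∑ x ∈ POLz F Z, ∑ y ∈ POLz F Z,
        (if Cnd e x y then XTL.ww Z x * XTL.ww Z y else 0) := by
        apply Finset.sum_le_sum
        intro e he
        rw [Finset.mem_filter, hMON] at he
        obtain ⟨⟨hem, _⟩, hes⟩ := he
        unfold TT1
        apply Finset.sum_le_sum
        intro x hx
        rw [Finset.sum_filter]
        apply Finset.sum_le_sum
        intro y hy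
        split_ifs
        · exact mul_le_mul (XTL.Rz_le hB hCP hem hes hx) (XTL.Rz_le hB hCP hem hes hy)
            (XTL.Rz_nonneg _ _ _) (XTL.ww_nonneg _ _)
        · exact le_refl _
    _ = ∑ x ∈ POLz F Z, ∑ y ∈ POLz F Z, (XTL.ww Z x * XTL.ww Z y) *
        (((MON F m).filter (fun e => Squarefree e ∧ Cnd e x y)).card : ℝ) := by
        rw [Finset.sum_comm]
        apply Finset.sum_congr rfl
        intro x _
        rw [Finset.sum_comm]
        apply Finset.sum_congr rfl
        intro y _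
        rw [← Finset.sum_filter, Finset.filter_filter, Finset.sum_const, nsmul_eq_mul, mul_comm]
    _ ≤ ∑ x ∈ POLz F Z, ∑ y ∈ POLz F Z, (XTL.ww Z x * XTL.ww Z y) *
        (C * qq F ^ (2 * δ * (g : ℝ))) := by
        apply Finset.sum_le_sum
        intro x hx
        apply Finset.sum_le_sum
        intro y hy
        exact mul_le_mul_of_nonneg_left (hcount x hx y hy)
          (mul_nonneg (XTL.ww_nonneg _ _) (XTL.ww_nonneg _ _))
    _ = (∑ x ∈ POLz F Z, XTL.ww Z x) ^ 2 * (C * qq F ^ (2 * δ * (g : ℝ))) := by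
        rw [pow_two, Finset.sum_mul_sum, Finset.sum_mul]
        apply Finset.sum_congr rfl
        intro x _
        rw [Finset.sum_mul]
    _ ≤ ((Z : ℝ) ^ 2 * qq F ^ Z) ^ 2 * (C * qq F ^ (2 * δ * (g : ℝ))) := by
        gcongr
    _ ≤ (((g : ℝ) + 1) ^ 2 * qq F ^ Z) ^ 2 * (C * qq F ^ (2 * δ * (g : ℝ))) := by
        have hZg' : (Z : ℝ) ≤ (g : ℝ) + 1 := by
          have : (Z : ℝ) ≤ g := by exact_mod_cast hZg
          linarith
        gcongr
    _ = C * (g + 1) ^ 4 * qq F ^ (2 * Z) * qq F ^ (2 * δ * (g : ℝ)) := by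
        have e1 : qq F ^ (2 * Z) = (qq F ^ Z) ^ 2 := by rw [← pow_mul]; congr 1; ring
        rw [e1]
        ring

end DH
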