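import Pool.Agent.H463.DH.All4
import Pool.Agent.H463.DH.Iso

/-! A constant which does not depend on the field. -/

open Polynomial
open scoped Classical

noncomputable section

namespace DH

theorem low_const (c : ℕ → ℝ) (hc : ∀ k, 0 < c k) : ∀ N : ℕ, ∃ c₀ : ℝ, 0 < c₀ ∧ ∀ k ≤ N, c₀ ≤ c k
  | 0 => ⟨c 0, hc 0, fun k hk => by rw [Nat.le_zero.1 hk]⟩
  | N + 1 => by
    obtain ⟨c₀, h0, h⟩ := low_const c hc N
    refine ⟨min c₀ (c (N + 1)), lt_min h0 (hc _), fun k hk => ?_⟩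
    rcases Nat.lt_or_ge N k with h1 | h1
    · have : k = N + 1 := le_antisymm hk h1
      rw [this]
      exact min_le_right _ _
    · exact (min_le_left _ _).trans (h k h1)

theorem a9 (F : Type) [Field F] [Fintype F] [CharP F 3] : S_A9 F := by
  have b0 := p_B0 F
  have b1 := p_B1 F b0
  have a1 := p_A1 F
  have a2 := p_A2 F
  have a3 := p_A3 F
  have a4 := p_A4 F a1 a2 b1
  have a5 := p_A5 F a2
  have a6 := p_A6 F a1 a5
  have a7 := p_A7 F a1 a2 a3 a4 a6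
  have a8 := p_A8 F a1 a2
  exact p_A9 F a1 a2 a3 a4 a7 a8 b1

/-- The lower bound `c` for a field carries over to the isomorphic fields. -/
theorem bound_iso {F F' : Type} [Field F] [Fintype F] [CharP F 3] [Field F'] [Fintype F'] [CharP F' 3]
    (e : F ≃+* F') (c : ℝ)
    (h : ∃ g₀ : ℕ, ∀ g ≥ g₀, c * ((SQF F' (2 * g + 1)).card : ℝ) ≤
      (((SQF F' (2 * g + 1)).filter (fun f => 1 < cl3 f)).card : ℝ)) :
    ∃ g₀ : ℕ, ∀ g ≥ g₀, c * ((SQF F (2 * g + 1)).card : ℝ) ≤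
      (((SQF F (2 * g + 1)).filter (fun f => 1 < cl3 f)).card : ℝ) := by
  obtain ⟨g₀, h⟩ := h
  refine ⟨g₀, fun g hg => ?_⟩
  have b0 := p_B0 F
  have b0' := p_B0 F'
  obtain ⟨h1, h2⟩ := iso_counts b0 b0' (p_B1 F b0) (p_B1 F' b0') (a9 F) (a9 F') e g
  rw [h1, h2]
  exact h g hg

theorem uniform : ∃ c₀ K : ℝ, 0 < c₀ ∧ ∀ (F : Type) [Field F] [Fintype F] [CharP F 3],
    ∃ c : ℝ, c₀ ≤ c ∧ 7 / 16 - K / Fintype.card F ≤ c ∧ ∃ g₀ : ℕ, ∀ g ≥ g₀,
      c * ((SQF F (2 * g + 1)).card : ℝ) ≤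
        (((SQF F (2 * g + 1)).filter (fun f => 1 < cl3 f)).card : ℝ) := by
  have : Fact (Nat.Prime 3) := ⟨Nat.prime_three⟩
  -- a constant for each field `GaloisField 3 k`
  have h1 : ∀ k : ℕ, ∃ c : ℝ, 0 < c ∧ ∀ (F : Type) [Field F] [Fintype F] [CharP F 3],
      Fintype.card F = 3 ^ (k + 1) → ∃ g₀ : ℕ, ∀ g ≥ g₀, c * ((SQF F (2 * g + 1)).card : ℝ) ≤
        (((SQF F (2 * g + 1)).filter (fun f => 1 < cl3 f)).card : ℝ) := by
    intro k
    letI : Fintype (GaloisField 3 (k + 1)) := Fintype.ofFinite _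
    obtain ⟨c, hc, h⟩ := all2 (GaloisField 3 (k + 1))
    refine ⟨c, hc, ?_⟩
    intro F _ _ _ hF
    have hcard : Fintype.card F = Fintype.card (GaloisField 3 (k + 1)) := by
      rw [hF, ← Nat.card_eq_fintype_card, GaloisField.card 3 (k + 1) (Nat.succ_ne_zero k)]
    exact bound_iso (FiniteField.ringEquivOfCardEq hcard) c h
  choose cc hcc hcF using h1
  have hK : (1 : ℝ) ≤ K7 := p_KS.1
  obtain ⟨N, hN⟩ := exists_nat_ge (160 * K7)
  obtain ⟨c₀, hc0, hlow⟩ := low_const cc hcc N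
  refine ⟨min c₀ (5 / 16), 20 * K7, lt_min hc0 (by norm_num), ?_⟩
  intro F _ _ _
  obtain ⟨n, -, hn⟩ := FiniteField.card F 3
  obtain ⟨k, hk⟩ : ∃ k : ℕ, (n : ℕ) = k + 1 := ⟨n - 1, by have := n.pos; omega⟩
  rw [hk] at hn
  have hq : (0 : ℝ) < Fintype.card F := by
    exact_mod_cast Fintype.card_pos
  rcases Nat.lt_or_ge N k with hkN | hkN
  · -- large fields
    refine ⟨7 / 16 - 20 * K7 / Fintype.card F, (min_le_right _ _).trans ?_, le_rfl, ?_⟩
    · have h3 : (160 * K7) ≤ (Fintype.card F : ℝ) := by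
        have h4 : N ≤ 3 ^ (k + 1) := by
          have h5 : k + 1 < 3 ^ (k + 1) := Nat.lt_pow_self (by norm_num)
          omega
        calc 160 * K7 ≤ (N : ℝ) := hN
          _ ≤ ((3 ^ (k + 1) : ℕ) : ℝ) := by exact_mod_cast h4
          _ = (Fintype.card F : ℝ) := by rw [hn]
      have h6 : 20 * K7 / (Fintype.card F : ℝ) ≤ 1 / 8 := by
        rw [div_le_iff₀ hq]
        linarith
      linarith
    · have h7 := all4 F
      unfold S_RX qq at h7
      exact h7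
  · -- small fields
    obtain ⟨g₁, h8⟩ := hcF k F hn
    obtain ⟨g₂, h9⟩ := all4 F
    unfold qq at h9
    refine ⟨max (cc k) (7 / 16 - 20 * K7 / Fintype.card F), ?_, le_max_right _ _, max g₁ g₂, ?_⟩
    · exact (min_le_left _ _).trans ((hlow k hkN).trans (le_max_left _ _))
    · intro g hg
      rcases max_cases (cc k) (7 / 16 - 20 * K7 / (Fintype.card F : ℝ)) with ⟨h, _⟩ | ⟨h, _⟩
      · rw [h]
        exact h8 g (le_trans (le_max_left _ _) hg)
      · rw [h]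
        exact h9 g (le_trans (le_max_right _ _) hg)

end DH
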